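import Pool.Agent.RDL.BinC

/-!
# An Abelian theorem at the critical point with exact constants
-/

set_option autoImplicit false

namespace Pool.Agent.RDL

open Finset Filter Topology

namespace Ab

/-- the kernel `x ^ n - 1 + n (1 - x)` -/
def K (x : ℝ) (n : ℕ) : ℝ := x ^ n - 1 + n * (1 - x)

theorem K_nonneg {x : ℝ} (h0 : 0 ≤ x) (n : ℕ) : 0 ≤ K x n := by
  have h := one_add_mul_le_pow (a := x - 1) (by linarith) n
  have e : (1 : ℝ) + (x - 1) = x := by ring
  rw [e] at h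
  simp only [K]
  linarith

theorem K_le {x : ℝ} (h0 : 0 ≤ x) (h1 : x ≤ 1) (n : ℕ) : K x n ≤ (n : ℝ) ^ 2 * (1 - x) ^ 2 := by
  induction n with
  | zero => simp [K]
  | succ n ih =>
    have hK := K_nonneg h0 n
    have e : K x (n + 1) = x * K x n + n * (1 - x) ^ 2 := by
      simp only [K]; push_cast; ring
    have hn : (0 : ℝ) ≤ n := Nat.cast_nonneg n
    have h2 : x * K x n ≤ K x n := by nlinarith
    rw [e]
    push_cast
    nlinarith [sq_nonneg (1 - x), mul_nonneg hn (sq_nonneg (1 - x))]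

theorem summ_of_lim {w : ℕ → ℝ} {L a : ℝ} (ha : 2 < a)
    (h : Tendsto (fun n : ℕ => w n * (n : ℝ) ^ a) atTop (𝓝 L)) :
    Summable w ∧ Summable (fun n : ℕ => (n : ℝ) * w n) := by
  have h1 := h.isBigO_one ℝ
  constructor
  · refine summable_of_isBigO_nat (Real.summable_nat_rpow.2 (show -a < -1 by linarith)) ?_
    have h2 := h1.mul (Asymptotics.isBigO_refl (fun n : ℕ => (n : ℝ) ^ (-a)) atTop)
    refine (h2.congr' ?_ ?_)
    · filter_upwards [eventually_gt_atTop 0] with n hn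
      have hn0 : (0 : ℝ) < n := by exact_mod_cast hn
      rw [mul_assoc, ← Real.rpow_add hn0, add_neg_cancel, Real.rpow_zero, mul_one]
    · exact Eventually.of_forall (fun n => by simp)
  · refine summable_of_isBigO_nat (Real.summable_nat_rpow.2 (show 1 - a < -1 by linarith)) ?_
    have h2 := h1.mul (Asymptotics.isBigO_refl (fun n : ℕ => (n : ℝ) ^ (1 - a)) atTop)
    refine (h2.congr' ?_ ?_)
    · filter_upwards [eventually_gt_atTop 0] with n hn
      have hn0 : (0 : ℝ) < n := by exact_mod_cast hn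
      rw [mul_assoc, ← Real.rpow_add hn0, show a + (1 - a) = 1 by ring, Real.rpow_one]
      ring
    · exact Eventually.of_forall (fun n => by simp)

theorem hasSum_K {w : ℕ → ℝ} (h0 : Summable w) (h1 : Summable (fun n : ℕ => (n : ℝ) * w n))
    {x : ℝ} (hx0 : 0 ≤ x) (hx1 : x ≤ 1) :
    HasSum (fun n => w n * K x n)
      ((∑' n, w n * x ^ n) - (∑' n, w n) + (∑' n : ℕ, (n : ℝ) * w n) * (1 - x)) := by
  have hx : Summable (fun n => w n * x ^ n) := by
    refine Summable.of_norm_bounded h0.norm (fun n => ?_)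
    rw [norm_mul, norm_pow, Real.norm_eq_abs x, abs_of_nonneg hx0]
    exact mul_le_of_le_one_right (norm_nonneg _) (pow_le_one₀ hx0 hx1)
  have h2 := (hx.hasSum.sub h0.hasSum).add (h1.hasSum.mul_right (1 - x))
  have e : (fun n => w n * K x n) = fun b : ℕ => w b * x ^ b - w b + (b : ℝ) * w b * (1 - x) := by
    funext n
    simp only [K]
    ring
  rw [e]
  exact h2

/-- errors of smaller order do not matter -/
theorem err {c e : ℕ → ℝ} {β k : ℝ} (h1 : 1 < β) (h2 : β < 2)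
    (hc : ∀ x ∈ Set.Icc (0 : ℝ) 1, HasSum (fun n => c n * x ^ n) ((1 - x) ^ β))
    (hc1 : HasSum (fun n : ℕ => (n : ℝ) * c n) 0) (hk : 0 < k)
    (hck : Tendsto (fun n : ℕ => c n * (n : ℝ) ^ (β + 1)) atTop (𝓝 k))
    (he : Tendsto (fun n : ℕ => e n * (n : ℝ) ^ (β + 1)) atTop (𝓝 0)) :
    (∀ x ∈ Set.Ioo (0 : ℝ) 1, HasSum (fun n => c n * K x n) ((1 - x) ^ β)) ∧
    Tendsto (fun x : ℝ => (∑' n, e n * K x n) / (1 - x) ^ β) (𝓝[<] 1) (𝓝 0) := by
  have hcs := (summ_of_lim (show 2 < β + 1 by linarith) hck).1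
  have hcK : ∀ x ∈ Set.Ioo (0 : ℝ) 1, HasSum (fun n => c n * K x n) ((1 - x) ^ β) := by
    intro x hx
    have h := hasSum_K hcs hc1.summable hx.1.le hx.2.le
    have e1 := (hc x ⟨hx.1.le, hx.2.le⟩).tsum_eq
    have e2 := (hc 1 ⟨by norm_num, le_refl _⟩).tsum_eq
    have e3 := hc1.tsum_eq
    have hβ0 : β ≠ 0 := by linarith
    simp only [one_pow, mul_one, sub_self, Real.zero_rpow hβ0] at e2
    rw [e1, e2, e3, sub_zero, zero_mul, add_zero] at h
    exact h
  refine ⟨hcK, ?_⟩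
  obtain ⟨hes, hes1⟩ := summ_of_lim (show 2 < β + 1 by linarith) he
  rw [Metric.tendsto_nhds]
  intro ε hε
  -- compare `e` with `c`
  have hev : ∀ᶠ n : ℕ in atTop, |e n| ≤ ε / 2 * c n := by
    have a1 : ∀ᶠ n : ℕ in atTop, k / 2 < c n * (n : ℝ) ^ (β + 1) :=
      hck.eventually_const_lt (by linarith)
    have a2 : ∀ᶠ n : ℕ in atTop, |e n * (n : ℝ) ^ (β + 1)| < ε / 2 * (k / 2) := by
      have := (Metric.tendsto_nhds.1 he) (ε / 2 * (k / 2)) (by positivity)
      filter_upwards [this] with n hn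
      rwa [Real.dist_eq, sub_zero] at hn
    filter_upwards [a1, a2, eventually_gt_atTop 0] with n b1 b2 hn
    have hn0 : (0 : ℝ) < n := by exact_mod_cast hn
    have hp : 0 < (n : ℝ) ^ (β + 1) := Real.rpow_pos_of_pos hn0 _
    rw [abs_mul, abs_of_pos hp] at b2
    have b3 : |e n| * (n : ℝ) ^ (β + 1) ≤ ε / 2 * c n * (n : ℝ) ^ (β + 1) := by
      have : ε / 2 * (k / 2) ≤ ε / 2 * (c n * (n : ℝ) ^ (β + 1)) :=
        mul_le_mul_of_nonneg_left b1.le (by positivity)
      linarith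
    exact le_of_mul_le_mul_right b3 hp
  obtain ⟨N, hN⟩ := eventually_atTop.1 hev
  obtain ⟨D, hD⟩ : ∃ D : ℕ → ℝ, D = fun n => if n < N then |e n| + ε / 2 * |c n| else 0 := ⟨_, rfl⟩
  have hDle : ∀ n, |e n| ≤ ε / 2 * c n + D n := by
    intro n
    rw [hD]
    by_cases h : n < N
    · simp only [h, if_true]
      have : -|c n| ≤ c n := neg_abs_le _
      nlinarith
    · simp only [h, if_false, add_zero]
      exact hN n (not_lt.1 h)
  have hD0 : ∀ n, 0 ≤ D n := by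
    intro n
    rw [hD]
    by_cases h : n < N
    · simp only [h, if_true]; positivity
    · simp only [h, if_false]; exact le_refl _
  obtain ⟨M, hM⟩ : ∃ M, M = ∑ n ∈ range N, D n * (n : ℝ) ^ 2 := ⟨_, rfl⟩
  have hM0 : 0 ≤ M := by
    rw [hM]
    exact sum_nonneg (fun n _ => mul_nonneg (hD0 n) (by positivity))
  have hb : ∀ x ∈ Set.Ioo (0 : ℝ) 1, |∑' n, e n * K x n| ≤ ε / 2 * (1 - x) ^ β + M * (1 - x) ^ 2 := by
    intro x hx
    have s1 : HasSum (fun n => ε / 2 * (c n * K x n)) (ε / 2 * (1 - x) ^ β) := (hcK x hx).mul_left _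
    have s2 : HasSum (fun n => D n * K x n) (∑ n ∈ range N, D n * K x n) := by
      apply hasSum_sum_of_ne_finset_zero
      intro n hn
      rw [mem_range, not_lt] at hn
      rw [hD]
      simp [not_lt.2 hn]
    have s3 := s1.add s2
    have s4 : ∀ n, ‖e n * K x n‖ ≤ ε / 2 * (c n * K x n) + D n * K x n := by
      intro n
      rw [norm_mul, Real.norm_eq_abs, Real.norm_eq_abs, abs_of_nonneg (K_nonneg hx.1.le n)]
      have := mul_le_mul_of_nonneg_right (hDle n) (K_nonneg hx.1.le n)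
      linarith
    have s5 := tsum_of_norm_bounded s3 s4
    rw [Real.norm_eq_abs] at s5
    refine s5.trans (add_le_add le_rfl ?_)
    rw [hM, sum_mul]
    refine sum_le_sum (fun n _ => ?_)
    rw [mul_assoc]
    exact mul_le_mul_of_nonneg_left (K_le hx.1.le hx.2.le n) (hD0 n)
  -- the power `(1 - x) ^ (2 - β)` tends to zero
  have hlim : Tendsto (fun x : ℝ => M * (1 - x) ^ (2 - β)) (𝓝[<] 1) (𝓝 0) := by
    have t1 : Tendsto (fun x : ℝ => 1 - x) (𝓝[<] 1) (𝓝 0) := by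
      have : Tendsto (fun x : ℝ => 1 - x) (𝓝 1) (𝓝 (1 - 1)) := (continuous_const.sub continuous_id).tendsto 1
      rw [sub_self] at this
      exact this.mono_left nhdsWithin_le_nhds
    have t2 : Tendsto (fun y : ℝ => y ^ (2 - β)) (𝓝 0) (𝓝 0) := by
      have := (Real.continuousAt_rpow_const 0 (2 - β) (Or.inr (by linarith))).tendsto
      rwa [Real.zero_rpow (by linarith)] at this
    have := (t2.comp t1).const_mul M
    rwa [mul_zero] at this
  have hfin : ∀ᶠ x : ℝ in 𝓝[<] 1, M * (1 - x) ^ (2 - β) < ε / 2 := hlim.eventually_lt_const (by linarith)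
  have hin : ∀ᶠ x : ℝ in 𝓝[<] 1, x ∈ Set.Ioo (0 : ℝ) 1 := Ioo_mem_nhdsLT (by norm_num)
  filter_upwards [hfin, hin] with x hx1 hx2
  have hy : 0 < 1 - x := by linarith [hx2.2]
  have hp : 0 < (1 - x) ^ β := Real.rpow_pos_of_pos hy _
  rw [Real.dist_eq, sub_zero, abs_div, abs_of_pos hp, div_lt_iff₀ hp]
  have e1 : (1 - x) ^ 2 = (1 - x) ^ (2 - β) * (1 - x) ^ β := by
    rw [← Real.rpow_add hy, sub_add_cancel, Real.rpow_two]
  have h3 := hb x hx2
  rw [e1] at h3
  have h4 : M * (1 - x) ^ (2 - β) * (1 - x) ^ β < ε / 2 * (1 - x) ^ β := mul_lt_mul_of_pos_right hx1 hp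
  have h5 : M * ((1 - x) ^ (2 - β) * (1 - x) ^ β) = M * (1 - x) ^ (2 - β) * (1 - x) ^ β := by ring
  rw [h5] at h3
  linarith

end Ab

open Ab in
theorem abel_x {w : ℕ → ℝ} {κ a : ℝ} (ha : 2 < a) (ha3 : a < 3) (hκ : 0 < κ)
    (h : Tendsto (fun n : ℕ => w n * (n : ℝ) ^ a) atTop (𝓝 κ)) :
    ∃ κ' > (0 : ℝ), Tendsto (fun x : ℝ => ((∑' n, w n * x ^ n) - (∑' n, w n) + (∑' n : ℕ, (n : ℝ) * w n) * (1 - x)) /
      (1 - x) ^ (a - 1)) (𝓝[<] 1) (𝓝 κ') := by
  obtain ⟨c, hc, hc1, k, hk, hck⟩ := bin_coef (β := a - 1) (by linarith) (by linarith)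
  obtain ⟨hw0, hw1⟩ := summ_of_lim ha h
  obtain ⟨e, he⟩ : ∃ e : ℕ → ℝ, e = fun n => w n - κ / k * c n := ⟨_, rfl⟩
  have hlim : Tendsto (fun n : ℕ => e n * (n : ℝ) ^ (a - 1 + 1)) atTop (𝓝 0) := by
    have h1 := hck.const_mul (κ / k)
    rw [div_mul_cancel₀ _ hk.ne'] at h1
    have h2 := h.sub h1
    rw [sub_self] at h2
    refine h2.congr (fun n => ?_)
    rw [he, sub_add_cancel]
    ring
  obtain ⟨hcK, hE⟩ := err (by linarith) (by linarith) hc hc1 hk hck hlim
  refine ⟨κ / k, by positivity, ?_⟩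
  have h3 := hE.const_add (κ / k)
  rw [add_zero] at h3
  refine h3.congr' ?_
  have hin : ∀ᶠ x : ℝ in 𝓝[<] 1, x ∈ Set.Ioo (0 : ℝ) 1 := Ioo_mem_nhdsLT (by norm_num)
  filter_upwards [hin] with x hx
  have hy : 0 < 1 - x := by linarith [hx.2]
  have hp : 0 < (1 - x) ^ (a - 1) := Real.rpow_pos_of_pos hy _
  have s1 := hasSum_K hw0 hw1 hx.1.le hx.2.le
  have s2 := s1.sub ((hcK x hx).mul_left (κ / k))
  have s3 : HasSum (fun n => e n * K x n) (((∑' n, w n * x ^ n) - (∑' n, w n) +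
      (∑' n : ℕ, (n : ℝ) * w n) * (1 - x)) - κ / k * (1 - x) ^ (a - 1)) := by
    have e1 : (fun n => e n * K x n) = fun n => w n * K x n - κ / k * (c n * K x n) := by
      funext n
      rw [he]
      ring
    rw [e1]
    exact s2
  rw [s3.tsum_eq, sub_div, mul_div_assoc, div_self hp.ne', mul_one]
  ring

end Pool.Agent.RDL
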