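import Pool.Agent.RDL.Defs
import Pool.Agent.RDL.Abel

set_option autoImplicit false

/-!
# The expansion of `AA` at the radius of convergence, from the one of a power series at `1`
-/

namespace Pool.Agent.RDL

open Finset Filter Topology

theorem abel_AA {u : ℕ → ℝ} {R κ a : ℝ} (hR : 0 < R) (ha : 2 < a) (ha3 : a < 3) (hκ : 0 < κ)
    (h : Tendsto (fun n : ℕ => u n * R ^ (2 * n) * (n : ℝ) ^ a) atTop (𝓝 κ)) :
    ∃ κ' > (0 : ℝ), Tendsto (fun δ : ℝ => (AD u R * δ - (AA u R - AA u (R - δ))) / δ ^ (a - 1)) (𝓝[>] 0) (𝓝 κ') := by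
  obtain ⟨w, hw⟩ : ∃ w : ℕ → ℝ, w = fun n => u n * R ^ (2 * n) := ⟨_, rfl⟩
  have hwn : ∀ n, w n = u n * R ^ (2 * n) := fun n => by rw [hw]
  have h' : Tendsto (fun n : ℕ => w n * (n : ℝ) ^ a) atTop (𝓝 κ) := by
    simpa only [hwn] using h
  obtain ⟨κ₀, hκ₀, hE⟩ := abel_x ha ha3 hκ h'
  have hR0 : R ≠ 0 := hR.ne'
  -- summability
  have hbig : (fun n : ℕ => w n * (n : ℝ) ^ a) =O[atTop] (fun _ => (1 : ℝ)) := h'.isBigO_one ℝ
  have hsum : ∀ b : ℝ, b < a - 1 → Summable (fun n : ℕ => (n : ℝ) ^ b * w n) := by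
    intro b hb
    have h1 : Summable (fun n : ℕ => (n : ℝ) ^ (b - a)) :=
      Real.summable_nat_rpow.2 (by linarith)
    refine summable_of_isBigO_nat h1 ?_
    have h2 := hbig.mul (Asymptotics.isBigO_refl (fun n : ℕ => (n : ℝ) ^ (b - a)) atTop)
    refine h2.congr' ?_ ?_
    · filter_upwards [eventually_gt_atTop 0] with n hn
      have hn' : (0 : ℝ) < n := by exact_mod_cast hn
      rw [mul_assoc, ← Real.rpow_add hn', mul_comm]
      congr 2
      ring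
    · filter_upwards with n
      rw [one_mul]
  have hw1 : Summable (fun n : ℕ => (n : ℝ) * w n) := by
    have h1 := hsum 1 (by linarith)
    simpa only [Real.rpow_one] using h1
  have hw0 : Summable w := by
    have h1 := hsum 0 (by linarith)
    simpa only [Real.rpow_zero, one_mul] using h1
  obtain ⟨W0, hW0⟩ : ∃ W0, W0 = ∑' n, w n := ⟨_, rfl⟩
  obtain ⟨W1, hW1⟩ : ∃ W1, W1 = ∑' n : ℕ, (n : ℝ) * w n := ⟨_, rfl⟩
  obtain ⟨W, hWd⟩ : ∃ W : ℝ → ℝ, W = fun x => ∑' n, w n * x ^ n := ⟨_, rfl⟩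
  have hWx : ∀ x, W x = ∑' n, w n * x ^ n := fun x => by rw [hWd]
  have hAD : AD u R = 2 * W1 + W0 := by
    have h1 : ∀ n : ℕ, (2 * (n : ℝ) + 1) * u n * R ^ (2 * n) = 2 * ((n : ℝ) * w n) + w n := by
      intro n
      rw [hwn]
      ring
    rw [AD, tsum_congr h1, Summable.tsum_add (hw1.mul_left 2) hw0, tsum_mul_left, ← hW0, ← hW1]
  have hAR : AA u R = R * W0 := by
    have h1 : ∀ n : ℕ, u n * R ^ (2 * n + 1) = R * w n := by
      intro n
      rw [hwn, pow_succ]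
      ring
    rw [AA, tsum_congr h1, tsum_mul_left, ← hW0]
  have hAA : ∀ ξ : ℝ, AA u ξ = ξ * W ((ξ / R) ^ 2) := by
    intro ξ
    have h1 : ∀ n : ℕ, u n * ξ ^ (2 * n + 1) = ξ * (w n * ((ξ / R) ^ 2) ^ n) := by
      intro n
      rw [hwn, ← pow_mul, div_pow, pow_succ]
      field_simp
    rw [AA, tsum_congr h1, tsum_mul_left, hWx]
  -- the variable
  have hxlim : Tendsto (fun δ : ℝ => ((R - δ) / R) ^ 2) (𝓝[>] 0) (𝓝[<] 1) := by
    rw [tendsto_nhdsWithin_iff]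
    constructor
    · have h1 : Tendsto (fun δ : ℝ => ((R - δ) / R) ^ 2) (𝓝 0) (𝓝 (((R - 0) / R) ^ 2)) :=
        (((tendsto_const_nhds.sub tendsto_id).div_const R).pow 2)
      rw [sub_zero, div_self hR0, one_pow] at h1
      exact h1.mono_left nhdsWithin_le_nhds
    · filter_upwards [Ioo_mem_nhdsGT hR] with δ hδ
      rw [Set.mem_Iio]
      have h1 : (R - δ) / R < 1 := by
        rw [div_lt_one hR]
        linarith [hδ.1]
      have h2 : 0 ≤ (R - δ) / R := div_nonneg (by linarith [hδ.2]) hR.le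
      nlinarith
  have hE' : Tendsto (fun δ : ℝ => (W (((R - δ) / R) ^ 2) - W0 + W1 * (1 - ((R - δ) / R) ^ 2)) /
      (1 - ((R - δ) / R) ^ 2) ^ (a - 1)) (𝓝[>] 0) (𝓝 κ₀) := by
    have h1 := hE.comp hxlim
    simpa only [Function.comp_def, ← hWx, ← hW0, ← hW1] using h1
  have hq : Tendsto (fun δ : ℝ => (2 / R - δ / R ^ 2) ^ (a - 1)) (𝓝[>] 0) (𝓝 ((2 / R) ^ (a - 1))) := by
    have h1 : Tendsto (fun δ : ℝ => 2 / R - δ / R ^ 2) (𝓝 0) (𝓝 (2 / R - 0 / R ^ 2)) :=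
      tendsto_const_nhds.sub (tendsto_id.div_const _)
    rw [zero_div, sub_zero] at h1
    exact (h1.mono_left nhdsWithin_le_nhds).rpow_const (Or.inl (by positivity))
  have hRd : Tendsto (fun δ : ℝ => R - δ) (𝓝[>] 0) (𝓝 R) := by
    have h1 : Tendsto (fun δ : ℝ => R - δ) (𝓝 0) (𝓝 (R - 0)) := tendsto_const_nhds.sub tendsto_id
    rw [sub_zero] at h1
    exact h1.mono_left nhdsWithin_le_nhds
  have hd : Tendsto (fun δ : ℝ => W1 * (3 / R - δ / R ^ 2) * δ ^ (3 - a)) (𝓝[>] 0) (𝓝 0) := by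
    have h1 : Tendsto (fun δ : ℝ => W1 * (3 / R - δ / R ^ 2)) (𝓝 0) (𝓝 (W1 * (3 / R - 0 / R ^ 2))) :=
      (tendsto_const_nhds.sub (tendsto_id.div_const _)).const_mul _
    have h2 : Tendsto (fun δ : ℝ => δ ^ (3 - a)) (𝓝 0) (𝓝 ((0 : ℝ) ^ (3 - a))) :=
      tendsto_id.rpow_const (Or.inr (by linarith))
    rw [Real.zero_rpow (by linarith)] at h2
    have h3 := h1.mul h2
    rw [mul_zero] at h3
    exact h3.mono_left nhdsWithin_le_nhds
  refine ⟨R * (κ₀ * (2 / R) ^ (a - 1)), by positivity, ?_⟩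
  have hfin := hd.add (hRd.mul (hE'.mul hq))
  rw [zero_add] at hfin
  refine hfin.congr' ?_
  filter_upwards [Ioo_mem_nhdsGT hR] with δ hδ
  obtain ⟨hδ0, hδR⟩ := hδ
  have hx1 : 1 - ((R - δ) / R) ^ 2 = δ * (2 / R - δ / R ^ 2) := by
    field_simp
    ring
  have hq0 : 0 < 2 / R - δ / R ^ 2 := by
    have h1 : δ / R ^ 2 < 1 / R := by
      rw [div_lt_div_iff₀ (by positivity) hR]
      nlinarith
    have h2 : 1 / R < 2 / R := by
      apply div_lt_div_of_pos_right _ hR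
      norm_num
    linarith
  have hda : 0 < δ ^ (a - 1) := Real.rpow_pos_of_pos hδ0 _
  have hqa : 0 < (2 / R - δ / R ^ 2) ^ (a - 1) := Real.rpow_pos_of_pos hq0 _
  have hd3 : δ ^ (3 - a) * δ ^ (a - 1) = δ ^ 2 := by
    rw [← Real.rpow_add hδ0]
    have e : 3 - a + (a - 1) = 2 := by ring
    rw [e, Real.rpow_two]
  rw [hAD, hAR, hAA, hx1, Real.mul_rpow hδ0.le hq0.le, eq_div_iff hda.ne']
  generalize hWW : W (((R - δ) / R) ^ 2) = Y
  generalize hA : δ ^ (a - 1) = A at *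
  generalize hB : (2 / R - δ / R ^ 2) ^ (a - 1) = B at *
  generalize hD : δ ^ (3 - a) = D at *
  have h1 : (Y - W0 + W1 * (δ * (2 / R - δ / R ^ 2))) / (A * B) * B * A =
      Y - W0 + W1 * (δ * (2 / R - δ / R ^ 2)) := by
    field_simp
  calc (W1 * (3 / R - δ / R ^ 2) * D + (R - δ) * ((Y - W0 + W1 * (δ * (2 / R - δ / R ^ 2))) / (A * B) * B)) * A
      = W1 * (3 / R - δ / R ^ 2) * (D * A) +
        (R - δ) * ((Y - W0 + W1 * (δ * (2 / R - δ / R ^ 2))) / (A * B) * B * A) := by ring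
    _ = W1 * (3 / R - δ / R ^ 2) * δ ^ 2 + (R - δ) * (Y - W0 + W1 * (δ * (2 / R - δ / R ^ 2))) := by
        rw [h1, hd3]
    _ = (2 * W1 + W0) * δ - (R * W0 - (R - δ) * Y) := by
        field_simp
        ring

end Pool.Agent.RDL
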