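import Pool.Agent.RDL.LVDefs

/-!
# An Abelian theorem at the critical point, logarithmic scale
-/

set_option autoImplicit false

namespace Pool.Agent.RDL

open Finset Filter Topology

namespace AbL

private lemma pow_up {s : ℝ} (h0 : 0 ≤ s) (h1 : s ≤ 1) (N : ℕ) :
    (1 - s) ^ N ≤ 1 - N * s + N * (N - 1) / 2 * s ^ 2 := by
  induction N with
  | zero => simp
  | succ N ih =>
    have h2 : (1 - s) ^ (N + 1) ≤ (1 - s) * (1 - N * s + N * (N - 1) / 2 * s ^ 2) := by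
      rw [pow_succ' (1 - s) N]
      exact mul_le_mul_of_nonneg_left ih (by linarith only [h1])
    refine h2.trans ?_
    have hN : (0 : ℝ) ≤ (N : ℝ) * (N - 1) := by
      rcases Nat.eq_zero_or_pos N with h | h
      · subst h; simp
      · have : (1 : ℝ) ≤ N := by exact_mod_cast h
        exact mul_nonneg (by linarith only [this]) (by linarith only [this])
    have h3 : 0 ≤ (N : ℝ) * (N - 1) * s ^ 3 := mul_nonneg hN (by positivity)
    push_cast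
    nlinarith only [h3]

private lemma pow_low {s : ℝ} (_h0 : 0 ≤ s) (h1 : s ≤ 1) (N : ℕ) :
    1 - N * s + N * (N - 1) / 2 * s ^ 2 - N * (N - 1) * (N - 2) / 6 * s ^ 3 ≤ (1 - s) ^ N := by
  induction N with
  | zero => simp
  | succ N ih =>
    have h2 : (1 - s) * (1 - N * s + N * (N - 1) / 2 * s ^ 2 - N * (N - 1) * (N - 2) / 6 * s ^ 3) ≤ (1 - s) ^ (N + 1) := by
      rw [pow_succ' (1 - s) N]
      exact mul_le_mul_of_nonneg_left ih (by linarith only [h1])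
    refine le_trans ?_ h2
    have hN : (0 : ℝ) ≤ (N : ℝ) * (N - 1) * (N - 2) := by
      rcases Nat.lt_or_ge N 2 with h | h
      · interval_cases N <;> simp
      · have : (2 : ℝ) ≤ N := by exact_mod_cast h
        exact mul_nonneg (mul_nonneg (by linarith only [this]) (by linarith only [this])) (by linarith only [this])
    have h3 : 0 ≤ (N : ℝ) * (N - 1) * (N - 2) * s ^ 4 := mul_nonneg hN (by positivity)
    push_cast
    nlinarith only [h3]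

/-- the kernel -/
private noncomputable def K (s : ℝ) (n : ℕ) : ℝ := (1 - s) ^ (2 * n + 1) - 1 + (2 * (n : ℝ) + 1) * s

private lemma K_le {s : ℝ} (h0 : 0 ≤ s) (h1 : s ≤ 1) (n : ℕ) : K s n ≤ (2 * (n : ℝ) ^ 2 + n) * s ^ 2 := by
  have := pow_up h0 h1 (2 * n + 1)
  simp only [K]
  push_cast at this
  nlinarith only [this]

private lemma K_le' {s : ℝ} (h0 : 0 ≤ s) (h1 : s ≤ 1) (n : ℕ) : K s n ≤ (2 * (n : ℝ) + 1) * s := by
  have : (1 - s) ^ (2 * n + 1) ≤ 1 := pow_le_one₀ (by linarith only [h1]) (by linarith only [h0])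
  simp only [K]
  linarith only [this]

private lemma K_nonneg {s : ℝ} (_h0 : 0 ≤ s) (h1 : s ≤ 1) (n : ℕ) : 0 ≤ K s n := by
  have h := one_add_mul_le_pow (a := -s) (by linarith only [h1]) (2 * n + 1)
  have e : (1 : ℝ) + -s = 1 - s := by ring
  rw [e] at h
  simp only [K]
  push_cast at h
  linarith only [h]

private lemma K_ge {s : ℝ} (h0 : 0 ≤ s) (h1 : s ≤ 1) (n : ℕ) :
    2 * (n : ℝ) ^ 2 * s ^ 2 * (1 - n * s) ≤ K s n := by
  have h := pow_low h0 h1 (2 * n + 1)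
  have hK := K_nonneg h0 h1 n
  have hn : (0 : ℝ) ≤ n := Nat.cast_nonneg n
  rcases le_or_gt 1 ((n : ℝ) * s) with hb | hb
  · refine le_trans ?_ hK
    have : (0 : ℝ) ≤ 2 * (n : ℝ) ^ 2 * s ^ 2 := by positivity
    nlinarith only [this, hb]
  · simp only [K] at hK ⊢
    push_cast at h
    have h2 : 0 ≤ (n : ℝ) * s ^ 2 * (1 - n * s) := mul_nonneg (by positivity) (by linarith only [hb])
    have h3 : 0 ≤ (n : ℝ) ^ 3 * s ^ 3 := by positivity
    have h4 : 0 ≤ (n : ℝ) ^ 2 * s ^ 3 := by positivity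
    have h5 : 0 ≤ (n : ℝ) * s ^ 3 := by positivity
    nlinarith only [h, h2, h3, h4, h5]

private lemma K_zero (s : ℝ) : K s 0 = 0 := by simp [K]

private lemma sq_low (N : ℕ) : ∑ n ∈ range (N + 1), 1 / (n : ℝ) ^ 2 ≤ 2 - 2 / ((N : ℝ) + 1) := by
  induction N with
  | zero => simp
  | succ N ih =>
    rw [sum_range_succ]
    have h : 1 / ((N + 1 : ℕ) : ℝ) ^ 2 ≤ 2 / ((N : ℝ) + 1) - 2 / (((N + 1 : ℕ) : ℝ) + 1) := by
      have hN : (0 : ℝ) ≤ N := Nat.cast_nonneg N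
      push_cast
      rw [div_sub_div _ _ (by positivity) (by positivity), div_le_div_iff₀ (by positivity) (by positivity)]
      nlinarith only [hN, mul_nonneg hN hN, mul_nonneg hN (mul_nonneg hN hN)]
    linarith only [h, ih]

private lemma sq_high {m : ℕ} (hm : 1 ≤ m) (J : ℕ) :
    ∑ k ∈ range J, 1 / ((m + k : ℕ) : ℝ) ^ 2 ≤ 2 / (m : ℝ) - 2 / ((m : ℝ) + J) := by
  induction J with
  | zero => simp
  | succ J ih =>
    rw [sum_range_succ]
    have hm' : (1 : ℝ) ≤ m := by exact_mod_cast hm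
    have h : 1 / ((m + J : ℕ) : ℝ) ^ 2 ≤ 2 / ((m : ℝ) + J) - 2 / ((m : ℝ) + ((J + 1 : ℕ) : ℝ)) := by
      have hN : (0 : ℝ) ≤ J := Nat.cast_nonneg J
      push_cast
      rw [div_sub_div _ _ (by positivity) (by positivity), div_le_div_iff₀ (by positivity) (by positivity)]
      have h1 : (1 : ℝ) ≤ m + J := by linarith only [hm', hN]
      nlinarith only [h1, mul_nonneg (by linarith only [h1] : (0 : ℝ) ≤ (m : ℝ) + J - 1) (sq_nonneg ((m : ℝ) + J))]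
    linarith only [h, ih]

private lemma mm_succ (ℓ : ℕ → ℝ) (N : ℕ) : mm ℓ (N + 1) = mm ℓ N + 1 / (((N + 1 : ℕ) : ℝ) * ℓ (N + 1)) := by
  rw [mm, Finset.sum_Icc_succ_top (by omega)]; rfl

private lemma mm_range (ℓ : ℕ → ℝ) (N : ℕ) : ∑ n ∈ range (N + 1), 1 / ((n : ℝ) * ℓ n) = mm ℓ N := by
  induction N with
  | zero => simp [mm]
  | succ N ih => rw [sum_range_succ, ih, mm_succ]

section

variable {ℓ : ℕ → ℝ} (hp : ∀ n, 1 ≤ n → 0 < ℓ n) (hmo : ∀ m n, 1 ≤ m → m ≤ n → ℓ m ≤ ℓ n)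

include hp in
private lemma mm_mono : Monotone (mm ℓ) := by
  refine monotone_nat_of_le_succ fun N => ?_
  rw [mm_succ]
  have := hp (N + 1) (by omega)
  have : 0 ≤ 1 / (((N + 1 : ℕ) : ℝ) * ℓ (N + 1)) := by positivity
  linarith only [this]

include hp hmo in
private lemma mm_diff (m j : ℕ) : mm ℓ (m + j) ≤ mm ℓ m + j / ((m + 1) * ℓ 1) := by
  have h1 := hp 1 le_rfl
  induction j with
  | zero => simp
  | succ j ih =>
    rw [← Nat.add_assoc, mm_succ]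
    have h2 := hmo 1 (m + j + 1) le_rfl (by omega)
    have h3 : 1 / (((m + j + 1 : ℕ) : ℝ) * ℓ (m + j + 1)) ≤ 1 / (((m : ℝ) + 1) * ℓ 1) := by
      apply one_div_le_one_div_of_le (by positivity)
      have : ((m : ℝ) + 1) ≤ ((m + j + 1 : ℕ) : ℝ) := by push_cast; linarith only [(Nat.cast_nonneg j : (0 : ℝ) ≤ j)]
      exact mul_le_mul this h2 h1.le (by positivity)
    have h4 : ((j + 1 : ℕ) : ℝ) / (((m : ℝ) + 1) * ℓ 1) = j / (((m : ℝ) + 1) * ℓ 1) + 1 / (((m : ℝ) + 1) * ℓ 1) := by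
      push_cast; rw [add_div]
    rw [h4]
    linarith only [ih, h3]

include hp hmo in
/-- shifting the argument by a constant factor costs a constant -/
private lemma mm_shift {a b : ℝ} (ha : 0 < a) (hb : 0 < b) {δ : ℝ} (hδ : 0 < δ) :
    mm ℓ ⌊a / δ⌋₊ ≤ mm ℓ ⌊b / δ⌋₊ + a / (b * ℓ 1) := by
  have h1 := hp 1 le_rfl
  rcases le_total ⌊a / δ⌋₊ ⌊b / δ⌋₊ with h | h
  · have := mm_mono hp h
    have h2 : 0 ≤ a / (b * ℓ 1) := by positivity
    linarith only [this, h2]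
  · obtain ⟨j, hj⟩ := Nat.exists_eq_add_of_le h
    have h2 := mm_diff hp hmo ⌊b / δ⌋₊ j
    rw [← hj] at h2
    have h3 : (j : ℝ) / ((⌊b / δ⌋₊ + 1) * ℓ 1) ≤ a / (b * ℓ 1) := by
      have h4 : b / δ < ⌊b / δ⌋₊ + 1 := Nat.lt_floor_add_one _
      have h5 : (⌊a / δ⌋₊ : ℝ) ≤ a / δ := Nat.floor_le (by positivity)
      have h6 : (j : ℝ) ≤ ⌊a / δ⌋₊ := by exact_mod_cast (by omega)
      have h7 : (j : ℝ) / ((⌊b / δ⌋₊ + 1) * ℓ 1) ≤ (a / δ) / ((b / δ) * ℓ 1) :=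
        div_le_div₀ (by positivity) (h6.trans h5) (by positivity) (mul_le_mul_of_nonneg_right h4.le h1.le)
      refine h7.trans_eq ?_
      field_simp
    linarith only [h2, h3]

/-- the model weights -/
private noncomputable def q (ℓ : ℕ → ℝ) (n : ℕ) : ℝ := 1 / ((n : ℝ) ^ 3 * ℓ n)

include hp in
private lemma q_nonneg (n : ℕ) : 0 ≤ q ℓ n := by
  rcases Nat.eq_zero_or_pos n with h | h
  · subst h; simp [q]
  · have := hp n h
    rw [q]; positivity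

include hp hmo in
private lemma q_le {n : ℕ} (hn : 1 ≤ n) : q ℓ n ≤ 1 / ((n : ℝ) ^ 3 * ℓ 1) := by
  have h1 := hp 1 le_rfl
  have h2 := hmo 1 n le_rfl hn
  have hn' : (0 : ℝ) < n := by exact_mod_cast hn
  exact one_div_le_one_div_of_le (by positivity) (mul_le_mul_of_nonneg_left h2 (by positivity))

include hp hmo in
private lemma qK_up {s : ℝ} (h0 : 0 ≤ s) (h1 : s ≤ 1) (n : ℕ) :
    q ℓ n * K s n ≤ 2 * s ^ 2 * (1 / ((n : ℝ) * ℓ n)) + s ^ 2 / ℓ 1 * (1 / (n : ℝ) ^ 2) := by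
  rcases Nat.eq_zero_or_pos n with h | h
  · subst h; simp [q]
  · have h3 := hp 1 le_rfl
    have h4 := hp n h
    have hn' : (0 : ℝ) < n := by exact_mod_cast h
    have h5 : q ℓ n * K s n ≤ q ℓ n * ((2 * (n : ℝ) ^ 2 + n) * s ^ 2) :=
      mul_le_mul_of_nonneg_left (K_le h0 h1 n) (q_nonneg hp n)
    refine h5.trans ?_
    have h6 : q ℓ n * ((2 * (n : ℝ) ^ 2 + n) * s ^ 2) = 2 * s ^ 2 * (1 / ((n : ℝ) * ℓ n)) +
        s ^ 2 * (1 / ((n : ℝ) ^ 2 * ℓ n)) := by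
      rw [q]; field_simp
    rw [h6]
    have h7 : s ^ 2 * (1 / ((n : ℝ) ^ 2 * ℓ n)) ≤ s ^ 2 * (1 / ((n : ℝ) ^ 2 * ℓ 1)) :=
      mul_le_mul_of_nonneg_left (one_div_le_one_div_of_le (by positivity)
        (mul_le_mul_of_nonneg_left (hmo 1 n le_rfl h) (by positivity))) (by positivity)
    have h8 : s ^ 2 * (1 / ((n : ℝ) ^ 2 * ℓ 1)) = s ^ 2 / ℓ 1 * (1 / (n : ℝ) ^ 2) := by field_simp
    linarith only [h7, h8]

include hp hmo in
private lemma qK_up' {s : ℝ} (h0 : 0 ≤ s) (h1 : s ≤ 1) {n : ℕ} (hn : 1 ≤ n) :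
    q ℓ n * K s n ≤ 3 * s / ℓ 1 * (1 / (n : ℝ) ^ 2) := by
  have h3 := hp 1 le_rfl
  have hn' : (1 : ℝ) ≤ n := by exact_mod_cast hn
  calc q ℓ n * K s n ≤ 1 / ((n : ℝ) ^ 3 * ℓ 1) * ((2 * (n : ℝ) + 1) * s) :=
        mul_le_mul (q_le hp hmo hn) (K_le' h0 h1 n) (K_nonneg h0 h1 n) (by positivity)
    _ ≤ 1 / ((n : ℝ) ^ 3 * ℓ 1) * ((3 * (n : ℝ)) * s) := by
        apply mul_le_mul_of_nonneg_left _ (by positivity)
        exact mul_le_mul_of_nonneg_right (by linarith only [hn']) h0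
    _ = 3 * s / ℓ 1 * (1 / (n : ℝ) ^ 2) := by field_simp

include hp hmo in
private lemma qK_sum_range {s : ℝ} (h0 : 0 < s) (h1 : s ≤ 1) (J : ℕ) :
    ∑ n ∈ range J, q ℓ n * K s n ≤ s ^ 2 * (2 * mm ℓ ⌊1 / s⌋₊ + 8 / ℓ 1) := by
  have h3 := hp 1 le_rfl
  set N := ⌊1 / s⌋₊ with hN
  have hN1 : 1 / s < (N : ℝ) + 1 := Nat.lt_floor_add_one _
  have hnn : ∀ n, 0 ≤ q ℓ n * K s n := fun n => mul_nonneg (q_nonneg hp n) (K_nonneg h0.le h1 n)
  calc ∑ n ∈ range J, q ℓ n * K s n ≤ ∑ n ∈ range (N + 1 + J), q ℓ n * K s n :=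
        sum_le_sum_of_subset_of_nonneg (range_subset_range.2 (by omega)) fun n _ _ => hnn n
    _ = ∑ n ∈ range (N + 1), q ℓ n * K s n + ∑ k ∈ range J, q ℓ (N + 1 + k) * K s (N + 1 + k) := by
        rw [sum_range_add]
    _ ≤ ∑ n ∈ range (N + 1), (2 * s ^ 2 * (1 / ((n : ℝ) * ℓ n)) + s ^ 2 / ℓ 1 * (1 / (n : ℝ) ^ 2)) +
        ∑ k ∈ range J, 3 * s / ℓ 1 * (1 / ((N + 1 + k : ℕ) : ℝ) ^ 2) := by
        exact add_le_add (sum_le_sum fun n _ => qK_up hp hmo h0.le h1 n)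
          (sum_le_sum fun k _ => qK_up' hp hmo h0.le h1 (by omega))
    _ = 2 * s ^ 2 * mm ℓ N + s ^ 2 / ℓ 1 * (∑ n ∈ range (N + 1), 1 / (n : ℝ) ^ 2) +
        3 * s / ℓ 1 * ∑ k ∈ range J, 1 / ((N + 1 + k : ℕ) : ℝ) ^ 2 := by
        rw [sum_add_distrib, ← mul_sum, ← mul_sum, ← mul_sum, mm_range]
    _ ≤ 2 * s ^ 2 * mm ℓ N + s ^ 2 / ℓ 1 * 2 + 3 * s / ℓ 1 * (2 * s) := by
        have h4 := sq_low N
        have h5 := sq_high (m := N + 1) (by omega) J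
        have h6 : (0 : ℝ) ≤ 2 / ((N : ℝ) + 1) := by positivity
        have h7 : (0 : ℝ) ≤ 2 / (((N + 1 : ℕ) : ℝ) + J) := by positivity
        have h8 : 2 / (((N + 1 : ℕ) : ℝ)) ≤ 2 * s := by
          push_cast
          rw [div_le_iff₀ (by positivity)]
          have : 1 ≤ s * ((N : ℝ) + 1) := by
            rw [div_lt_iff₀ h0] at hN1; linarith only [hN1]
          linarith only [this]
        have h9 : s ^ 2 / ℓ 1 * (∑ n ∈ range (N + 1), 1 / (n : ℝ) ^ 2) ≤ s ^ 2 / ℓ 1 * 2 :=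
          mul_le_mul_of_nonneg_left (by linarith only [h4, h6]) (by positivity)
        have h10 : 3 * s / ℓ 1 * ∑ k ∈ range J, 1 / ((N + 1 + k : ℕ) : ℝ) ^ 2 ≤ 3 * s / ℓ 1 * (2 * s) :=
          mul_le_mul_of_nonneg_left (by linarith only [h5, h7, h8]) (by positivity)
        linarith only [h9, h10]
    _ = s ^ 2 * (2 * mm ℓ N + 8 / ℓ 1) := by field_simp; ring

include hp hmo in
private lemma qK_summable {s : ℝ} (h0 : 0 < s) (h1 : s ≤ 1) : Summable (fun n => q ℓ n * K s n) :=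
  summable_of_sum_range_le (fun n => mul_nonneg (q_nonneg hp n) (K_nonneg h0.le h1 n))
    (qK_sum_range hp hmo h0 h1)

include hp hmo in
private lemma P_up {s : ℝ} (h0 : 0 < s) (h1 : s ≤ 1) :
    ∑' n, q ℓ n * K s n ≤ s ^ 2 * (2 * mm ℓ ⌊1 / s⌋₊ + 8 / ℓ 1) :=
  Real.tsum_le_of_sum_range_le (fun n => mul_nonneg (q_nonneg hp n) (K_nonneg h0.le h1 n))
    (qK_sum_range hp hmo h0 h1)

include hp hmo in
private lemma P_low {s ε : ℝ} (h0 : 0 < s) (h1 : s ≤ 1) (hε : 0 ≤ ε) :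
    2 * s ^ 2 * (1 - ε) * mm ℓ ⌊ε / s⌋₊ ≤ ∑' n, q ℓ n * K s n := by
  have hnn : ∀ n, 0 ≤ q ℓ n * K s n := fun n => mul_nonneg (q_nonneg hp n) (K_nonneg h0.le h1 n)
  refine le_trans ?_ ((qK_summable hp hmo h0 h1).sum_le_tsum (range (⌊ε / s⌋₊ + 1)) fun n _ => hnn n)
  rw [← mm_range, mul_sum]
  refine sum_le_sum fun n hn => ?_
  rcases Nat.eq_zero_or_pos n with h | h
  · subst h; simp [q]
  · have h4 := hp n h
    have hn' : (0 : ℝ) < n := by exact_mod_cast h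
    have hn2 : (n : ℝ) * s ≤ ε := by
      have h5 : (n : ℝ) ≤ ⌊ε / s⌋₊ := by exact_mod_cast Nat.lt_succ_iff.1 (mem_range.1 hn)
      have h6 := h5.trans (Nat.floor_le (show 0 ≤ ε / s by positivity))
      rwa [le_div_iff₀ h0] at h6
    have h7 : q ℓ n * (2 * (n : ℝ) ^ 2 * s ^ 2 * (1 - n * s)) ≤ q ℓ n * K s n :=
      mul_le_mul_of_nonneg_left (K_ge h0.le h1 n) (q_nonneg hp n)
    refine le_trans ?_ h7
    have h8 : q ℓ n * (2 * (n : ℝ) ^ 2 * s ^ 2 * (1 - n * s)) = 2 * s ^ 2 * (1 - n * s) * (1 / ((n : ℝ) * ℓ n)) := by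
      rw [q]; field_simp
    rw [h8]
    refine mul_le_mul_of_nonneg_right ?_ (by positivity)
    exact mul_le_mul_of_nonneg_left (by linarith only [hn2]) (by positivity)

end

end AbL

namespace AbL

/-- the weights -/
private lemma w_bound {w ℓ : ℕ → ℝ} {κ : ℝ} (hp : ∀ n, 1 ≤ n → 0 < ℓ n)
    (h : Tendsto (fun n : ℕ => w n * ((n : ℝ) ^ 3 * ℓ n)) atTop (𝓝 κ)) :
    ∃ B : ℝ, 0 < B ∧ ∀ n : ℕ, 1 ≤ n → |w n| ≤ B * q ℓ n := by
  obtain ⟨B, hB⟩ := (h.abs).bddAbove_range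
  refine ⟨max B 1, lt_of_lt_of_le one_pos (le_max_right _ _), fun n hn => ?_⟩
  have h1 : |w n * ((n : ℝ) ^ 3 * ℓ n)| ≤ B := hB ⟨n, rfl⟩
  have hn' : (0 : ℝ) < n := by exact_mod_cast hn
  have h2 := hp n hn
  have h3 : 0 < (n : ℝ) ^ 3 * ℓ n := by positivity
  rw [abs_mul, abs_of_pos h3] at h1
  rw [q, mul_one_div, le_div_iff₀ h3]
  exact h1.trans (le_max_left _ _)

/-- `|G - κ P| ≤ s ^ 2 D + η P` -/
private lemma G_near {w ℓ : ℕ → ℝ} {κ : ℝ} (hp : ∀ n, 1 ≤ n → 0 < ℓ n) (hmo : ∀ m n, 1 ≤ m → m ≤ n → ℓ m ≤ ℓ n)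
    (h : Tendsto (fun n : ℕ => w n * ((n : ℝ) ^ 3 * ℓ n)) atTop (𝓝 κ)) {η : ℝ} (hη : 0 < η) :
    ∃ D : ℝ, 0 ≤ D ∧ ∀ s : ℝ, 0 < s → s ≤ 1 →
      |∑' n, w n * K s n - κ * ∑' n, q ℓ n * K s n| ≤ s ^ 2 * D + η * ∑' n, q ℓ n * K s n := by
  obtain ⟨n₀, hn₀⟩ := (Metric.tendsto_atTop.1 h) η hη
  obtain ⟨B, hB, hwB⟩ := w_bound hp h
  set D : ℝ := ∑ n ∈ range (n₀ + 1), |w n - κ * q ℓ n| * (2 * (n : ℝ) ^ 2 + n) with hD
  refine ⟨D, sum_nonneg fun n _ => by positivity, fun s h0 h1 => ?_⟩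
  have hqs := qK_summable hp hmo h0 h1
  have hws : Summable (fun n => w n * K s n) := by
    refine Summable.of_norm_bounded (hqs.mul_left B) fun n => ?_
    rw [Real.norm_eq_abs, abs_mul, abs_of_nonneg (K_nonneg h0.le h1 n)]
    rcases Nat.eq_zero_or_pos n with hn | hn
    · subst hn; simp [K_zero]
    · rw [← mul_assoc]
      exact mul_le_mul_of_nonneg_right (hwB n hn) (K_nonneg h0.le h1 n)
  have e1 : ∑' n, w n * K s n - κ * ∑' n, q ℓ n * K s n = ∑' n, (w n - κ * q ℓ n) * K s n := by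
    rw [← tsum_mul_left, ← hws.tsum_sub (hqs.mul_left κ)]
    exact tsum_congr fun n => by ring
  have hfin : Summable (fun n => if n ∈ range (n₀ + 1) then |w n - κ * q ℓ n| * (2 * (n : ℝ) ^ 2 + n) * s ^ 2 else 0) :=
    summable_of_ne_finset_zero (s := range (n₀ + 1)) fun n hn => by simp only [hn, if_false]
  have hpt : ∀ n, |(w n - κ * q ℓ n) * K s n| ≤
      (if n ∈ range (n₀ + 1) then |w n - κ * q ℓ n| * (2 * (n : ℝ) ^ 2 + n) * s ^ 2 else 0) + η * (q ℓ n * K s n) := by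
    intro n
    have hK := K_nonneg h0.le h1 n
    have hq := q_nonneg hp n
    rw [abs_mul, abs_of_nonneg hK]
    split_ifs with hn
    · have h2 : |w n - κ * q ℓ n| * K s n ≤ |w n - κ * q ℓ n| * ((2 * (n : ℝ) ^ 2 + n) * s ^ 2) :=
        mul_le_mul_of_nonneg_left (K_le h0.le h1 n) (abs_nonneg _)
      have h3 : 0 ≤ η * (q ℓ n * K s n) := mul_nonneg hη.le (mul_nonneg hq hK)
      linarith only [h2, h3]
    · have hn1 : n₀ + 1 ≤ n := by simpa using hn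
      have h2 := hn₀ n (by omega)
      rw [Real.dist_eq] at h2
      have hn' : (0 : ℝ) < n := by exact_mod_cast (by omega : 0 < n)
      have hl := hp n (by omega)
      have h3 : w n - κ * q ℓ n = (w n * ((n : ℝ) ^ 3 * ℓ n) - κ) * q ℓ n := by
        rw [q]; field_simp
      rw [h3, abs_mul, abs_of_nonneg hq, zero_add, mul_assoc]
      exact mul_le_mul_of_nonneg_right h2.le (mul_nonneg hq hK)
  have hsum : Summable (fun n => (w n - κ * q ℓ n) * K s n) := by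
    refine (hws.sub (hqs.mul_left κ)).congr fun n => by ring
  rw [e1]
  calc |∑' n, (w n - κ * q ℓ n) * K s n| ≤ ∑' n, |(w n - κ * q ℓ n) * K s n| := by
        have := norm_tsum_le_tsum_norm (f := fun n => (w n - κ * q ℓ n) * K s n) hsum.norm
        simpa only [Real.norm_eq_abs] using this
    _ ≤ ∑' n, ((if n ∈ range (n₀ + 1) then |w n - κ * q ℓ n| * (2 * (n : ℝ) ^ 2 + n) * s ^ 2 else 0) +
        η * (q ℓ n * K s n)) := hsum.abs.tsum_le_tsum hpt (hfin.add (hqs.mul_left η))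
    _ = s ^ 2 * D + η * ∑' n, q ℓ n * K s n := by
        rw [hfin.tsum_add (hqs.mul_left η), tsum_mul_left, tsum_eq_sum (s := range (n₀ + 1))
          (fun n hn => by simp only [hn, if_false]), hD, mul_sum]
        congr 1
        refine sum_congr rfl fun n hn => ?_
        rw [if_pos hn]; ring

/-- the numerator -/
private lemma num_eq {u ℓ : ℕ → ℝ} {R κ : ℝ} (hR : 0 < R) (hp : ∀ n, 1 ≤ n → 0 < ℓ n)
    (hmo : ∀ m n, 1 ≤ m → m ≤ n → ℓ m ≤ ℓ n)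
    (h : Tendsto (fun n : ℕ => u n * R ^ (2 * n) * ((n : ℝ) ^ 3 * ℓ n)) atTop (𝓝 κ)) {δ : ℝ} (hδ : 0 < δ)
    (hδR : δ ≤ R) :
    AD u R * δ - (AA u R - AA u (R - δ)) = R * ∑' n, (u n * R ^ (2 * n)) * K (δ / R) n := by
  set w : ℕ → ℝ := fun n => u n * R ^ (2 * n) with hw
  obtain ⟨B, hB, hwB⟩ := w_bound (w := w) hp h
  have hl1 := hp 1 le_rfl
  have hsq : Summable (fun n : ℕ => 1 / (n : ℝ) ^ 2) := Real.summable_one_div_nat_pow.2 (by norm_num)
  have hws2 : Summable (fun n : ℕ => (2 * (n : ℝ) + 1) * w n) := by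
    refine (summable_nat_add_iff 1).1 (Summable.of_norm_bounded
      (((summable_nat_add_iff 1).2 hsq).mul_left (3 * B / ℓ 1)) fun n => ?_)
    have h2 := hwB (n + 1) (by omega)
    have h3 := q_le hp hmo (show 1 ≤ n + 1 by omega)
    have hn' : (1 : ℝ) ≤ ((n + 1 : ℕ) : ℝ) := by exact_mod_cast (by omega : 1 ≤ n + 1)
    rw [Real.norm_eq_abs, abs_mul, abs_of_pos (show (0 : ℝ) < 2 * ((n + 1 : ℕ) : ℝ) + 1 by positivity)]
    calc (2 * ((n + 1 : ℕ) : ℝ) + 1) * |w (n + 1)| ≤ (3 * ((n + 1 : ℕ) : ℝ)) * (B * (1 / (((n + 1 : ℕ) : ℝ) ^ 3 * ℓ 1))) :=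
          mul_le_mul (by linarith only [hn']) (h2.trans (mul_le_mul_of_nonneg_left h3 hB.le)) (abs_nonneg _)
            (by positivity)
      _ = 3 * B / ℓ 1 * (1 / ((n + 1 : ℕ) : ℝ) ^ 2) := by field_simp
  have hws : Summable w := by
    refine Summable.of_norm_bounded hws2.abs fun n => ?_
    rw [Real.norm_eq_abs, abs_mul (2 * (n : ℝ) + 1)]
    have : (1 : ℝ) ≤ |2 * (n : ℝ) + 1| := by
      rw [abs_of_nonneg (by positivity)]; linarith only [(Nat.cast_nonneg n : (0 : ℝ) ≤ n)]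
    exact le_mul_of_one_le_left (abs_nonneg _) this
  have hx0 : 0 ≤ 1 - δ / R := by
    have : δ / R ≤ 1 := (div_le_one hR).2 hδR
    linarith only [this]
  have hx1 : 1 - δ / R ≤ 1 := by
    have : 0 ≤ δ / R := by positivity
    linarith only [this]
  have hpw : Summable (fun n => w n * (1 - δ / R) ^ (2 * n + 1)) := by
    refine Summable.of_norm_bounded hws.abs fun n => ?_
    rw [Real.norm_eq_abs, abs_mul, abs_of_nonneg (pow_nonneg hx0 _)]
    exact mul_le_of_le_one_right (abs_nonneg _) (pow_le_one₀ hx0 hx1)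
  have e1 : AD u R = ∑' n : ℕ, (2 * (n : ℝ) + 1) * w n := tsum_congr fun n => by simp only [hw]; ring
  have e2 : AA u R = R * ∑' n, w n := by
    rw [← tsum_mul_left]
    exact tsum_congr fun n => by simp only [hw]; ring
  have e3 : AA u (R - δ) = R * ∑' n, w n * (1 - δ / R) ^ (2 * n + 1) := by
    rw [← tsum_mul_left]
    refine tsum_congr fun n => ?_
    have h4 : R - δ = R * (1 - δ / R) := by field_simp
    simp only [hw]
    rw [h4, mul_pow, pow_succ R (2 * n)]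
    ring
  have e4 : ∑' n, w n * K (δ / R) n = ∑' n, w n * (1 - δ / R) ^ (2 * n + 1) - ∑' n, w n +
      δ / R * ∑' n : ℕ, (2 * (n : ℝ) + 1) * w n := by
    rw [← tsum_mul_left, ← hpw.tsum_sub hws, ← (hpw.sub hws).tsum_add (hws2.mul_left (δ / R))]
    exact tsum_congr fun n => by simp only [K]; ring
  rw [e1, e2, e3, e4]
  field_simp
  ring

end AbL

open AbL in
theorem abel_L {u ℓ : ℕ → ℝ} {R κ σ τ : ℝ} (hR : 0 < R) (hℓ : LVar ℓ σ) (hm : LVar (mm ℓ) τ)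
    (hu : ∀ B : ℝ, ∃ N, B ≤ mm ℓ N) (hκ : 0 < κ)
    (h : Tendsto (fun n : ℕ => u n * R ^ (2 * n) * ((n : ℝ) ^ 3 * ℓ n)) atTop (𝓝 κ)) :
    ∃ κ' > (0 : ℝ), Tendsto (fun δ : ℝ => (AD u R * δ - (AA u R - AA u (R - δ))) / (δ ^ 2 * mm ℓ ⌊1 / δ⌋₊)) (𝓝[>] 0)
      (𝓝 κ') := by
  have hp := hℓ.pos
  have hmo := hℓ.mono
  have hl1 := hp 1 le_rfl
  refine ⟨2 * κ / R, by positivity, ?_⟩
  rw [Metric.tendsto_nhds]
  intro η hη
  -- constants
  set η' := R * η with hη'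
  have hη'0 : 0 < η' := by positivity
  set ε := min (1 / 2) (η' / (8 * κ)) with hε
  have hε0 : 0 < ε := lt_min (by norm_num) (by positivity)
  have hεκ : 8 * (κ * ε) ≤ η' := by
    have h1 : ε ≤ η' / (8 * κ) := min_le_right _ _
    rw [le_div_iff₀ (by positivity)] at h1
    linarith only [h1]
  have hε1 : ε ≤ 1 / 2 := min_le_left _ _
  obtain ⟨D, hD0, hD⟩ := G_near (w := fun n => u n * R ^ (2 * n)) hp hmo h (show 0 < η' / 8 by positivity)
  set C₁ : ℝ := 2 * (R / (1 * ℓ 1)) + 8 / ℓ 1 with hC₁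
  set C₂ : ℝ := 1 / (ε * R * ℓ 1) with hC₂
  have hC₁0 : 0 < C₁ := by positivity
  have hC₂0 : 0 < C₂ := by positivity
  set E : ℝ := D + η' / 8 * C₁ + κ * C₁ + 2 * κ * C₂ with hE
  have hE0 : 0 < E := by positivity
  obtain ⟨N₁, hN₁⟩ := hu (4 * E / η' + 1)
  have hev : ∀ᶠ δ : ℝ in 𝓝[>] 0, 0 < δ ∧ δ ≤ R ∧ δ < 1 / ((N₁ : ℝ) + 1) := by
    filter_upwards [self_mem_nhdsWithin, mem_nhdsWithin_of_mem_nhds (Iio_mem_nhds hR),
      mem_nhdsWithin_of_mem_nhds (Iio_mem_nhds (show (0 : ℝ) < 1 / ((N₁ : ℝ) + 1) by positivity))] with δ h1 h2 h3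
    exact ⟨h1, le_of_lt h2, h3⟩
  filter_upwards [hev] with δ ⟨hδ, hδR, hδN⟩
  set s := δ / R with hs
  have hs0 : 0 < s := by positivity
  have hs1 : s ≤ 1 := (div_le_one hR).2 hδR
  set MM := mm ℓ ⌊1 / δ⌋₊ with hMM
  have hMM1 : 4 * E / η' + 1 ≤ MM := by
    refine hN₁.trans (mm_mono hp (Nat.le_floor ?_))
    rw [lt_div_iff₀ (by positivity)] at hδN
    rw [le_div_iff₀ hδ]
    linarith only [hδN, hδ]
  have hMM0 : 0 < MM := lt_of_lt_of_le (by positivity) hMM1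
  have hEM : 4 * E ≤ η' * MM := by
    have h1 : 4 * E / η' ≤ MM := by linarith only [hMM1]
    rw [div_le_iff₀ hη'0] at h1
    linarith only [h1]
  have hP1 := P_up hp hmo hs0 hs1
  have hP2 := P_low hp hmo (ε := ε) hs0 hs1 hε0.le
  have e1 : 1 / s = R / δ := by rw [hs]; field_simp
  have e2 : ε / s = (ε * R) / δ := by rw [hs]; field_simp
  rw [e1] at hP1
  rw [e2] at hP2
  have hm1 := mm_shift hp hmo hR one_pos hδ
  have hm2 := mm_shift hp hmo one_pos (show 0 < ε * R by positivity) hδ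
  set P := ∑' n, q ℓ n * K s n with hP
  set G := ∑' n, (u n * R ^ (2 * n)) * K s n with hG
  have hs2 : 0 < s ^ 2 := by positivity
  have hPu : P ≤ s ^ 2 * (2 * MM + C₁) := by
    refine hP1.trans (mul_le_mul_of_nonneg_left ?_ hs2.le)
    linarith only [hm1, hC₁, hMM]
  have hPl : s ^ 2 * (2 * MM - 2 * ε * MM - 2 * C₂) ≤ P := by
    refine le_trans ?_ hP2
    have h3 : MM - C₂ ≤ mm ℓ ⌊ε * R / δ⌋₊ := by linarith only [hm2, hC₂, hMM]
    have h4 : 2 * s ^ 2 * (1 - ε) * (MM - C₂) ≤ 2 * s ^ 2 * (1 - ε) * mm ℓ ⌊ε * R / δ⌋₊ :=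
      mul_le_mul_of_nonneg_left h3 (mul_nonneg (by positivity) (by linarith only [hε1]))
    refine le_trans ?_ h4
    have h5 : 0 ≤ s ^ 2 * (ε * C₂) := by positivity
    nlinarith only [h5]
  have hGP := hD s hs0 hs1
  have hGP' : |G - 2 * κ * s ^ 2 * MM| ≤ s ^ 2 * (3 / 4 * η' * MM) := by
    have h3 : |κ * P - 2 * κ * s ^ 2 * MM| ≤ s ^ 2 * (κ * C₁ + 2 * κ * ε * MM + 2 * κ * C₂) := by
      rw [abs_le]
      have h4 := mul_le_mul_of_nonneg_left hPu hκ.le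
      have h5 := mul_le_mul_of_nonneg_left hPl hκ.le
      have h6 : 0 ≤ s ^ 2 * (κ * C₁) := by positivity
      have h7 : 0 ≤ s ^ 2 * (2 * κ * ε * MM) := by positivity
      have h8 : 0 ≤ s ^ 2 * (2 * κ * C₂) := by positivity
      constructor
      · nlinarith only [h5, h6]
      · nlinarith only [h4, h7, h8]
    have h4 : |G - κ * P| ≤ s ^ 2 * (D + η' / 8 * (2 * MM + C₁)) := by
      refine hGP.trans ?_
      have h5 : η' / 8 * P ≤ η' / 8 * (s ^ 2 * (2 * MM + C₁)) := mul_le_mul_of_nonneg_left hPu (by positivity)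
      nlinarith only [h5]
    have h5 : |G - 2 * κ * s ^ 2 * MM| ≤ |G - κ * P| + |κ * P - 2 * κ * s ^ 2 * MM| := abs_sub_le _ _ _
    refine h5.trans ((add_le_add h4 h3).trans ?_)
    rw [← mul_add]
    refine mul_le_mul_of_nonneg_left ?_ hs2.le
    have h6 : 8 * (κ * ε) * MM ≤ η' * MM := mul_le_mul_of_nonneg_right hεκ hMM0.le
    nlinarith only [h6, hEM, hE]
  rw [num_eq hR hp hmo h hδ hδR, Real.dist_eq]
  have e3 : R * G / (δ ^ 2 * MM) - 2 * κ / R = (G - 2 * κ * s ^ 2 * MM) / (R * (s ^ 2 * MM)) := by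
    have : δ = R * s := by rw [hs]; field_simp
    rw [this]
    field_simp
  rw [e3, abs_div, abs_of_pos (show 0 < R * (s ^ 2 * MM) by positivity), div_lt_iff₀ (by positivity)]
  refine lt_of_le_of_lt hGP' ?_
  have h9 : 0 < s ^ 2 * (η' * MM) := by positivity
  have e4 : η * (R * (s ^ 2 * MM)) = s ^ 2 * (η' * MM) := by rw [hη']; ring
  rw [e4]
  nlinarith only [h9]

end Pool.Agent.RDL
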