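import Pool.Agent.RDL.Defs

/-!
# The simple walk on the integers
-/

set_option autoImplicit false

namespace Pool.Agent.RDL

open Finset

theorem cv_zw (h : Multiplicative ℤ → ℝ) (m : ℤ) :
    cv zw h (Multiplicative.ofAdd m) =
      1 / 2 * h (Multiplicative.ofAdd (m - 1)) + 1 / 2 * h (Multiplicative.ofAdd (m + 1)) := by
  have h1 : (Multiplicative.ofAdd (1 : ℤ))⁻¹ * Multiplicative.ofAdd m =
      Multiplicative.ofAdd (m - 1) := by
    rw [← ofAdd_neg, ← ofAdd_add]; congr 1; ring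
  have h2 : (Multiplicative.ofAdd (-1 : ℤ))⁻¹ * Multiplicative.ofAdd m =
      Multiplicative.ofAdd (m + 1) := by
    rw [← ofAdd_neg, ← ofAdd_add]; congr 1; ring
  unfold cv zw
  rw [Finsupp.sum_add_index' (fun _ => by simp) (fun _ _ _ => by ring),
    Finsupp.sum_single_index (by simp), Finsupp.sum_single_index (by simp), h1, h2]

theorem zw_apply (m : ℤ) : zw (Multiplicative.ofAdd m) =
    (if m = 1 then 1 / 2 else 0) + (if m = -1 then 1 / 2 else 0) := by
  unfold zw
  rw [Finsupp.add_apply, Finsupp.single_apply, Finsupp.single_apply]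
  congr 1
  · by_cases h : m = 1
    · rw [if_pos h, if_pos (by rw [h])]
    · rw [if_neg h, if_neg (fun h' => h (Multiplicative.ofAdd.injective h').symm)]
  · by_cases h : m = -1
    · rw [if_pos h, if_pos (by rw [h])]
    · rw [if_neg h, if_neg (fun h' => h (Multiplicative.ofAdd.injective h').symm)]

theorem zw_sp : SP zw where
  nonneg := by
    intro x
    obtain ⟨m, rfl⟩ := Multiplicative.ofAdd.surjective x
    rw [zw_apply]
    split_ifs <;> norm_num
  one := by
    unfold zw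
    rw [Finsupp.sum_add_index' (fun _ => by simp) (fun _ _ _ => by ring),
      Finsupp.sum_single_index (by simp), Finsupp.sum_single_index (by simp)]
    norm_num
  symm := by
    intro x
    obtain ⟨m, rfl⟩ := Multiplicative.ofAdd.surjective x
    rw [← ofAdd_neg, zw_apply, zw_apply]
    by_cases h1 : m = 1
    · subst h1; norm_num
    · by_cases h2 : m = -1
      · subst h2; norm_num
      · rw [if_neg (by omega), if_neg (by omega), if_neg h1, if_neg h2]

theorem zw_par : Par zw := by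
  refine ⟨zpowersHom ℤˣ (-1), ?_⟩
  intro s hs
  obtain ⟨m, rfl⟩ := Multiplicative.ofAdd.surjective s
  rw [Finsupp.mem_support_iff, zw_apply] at hs
  rw [zpowersHom_apply, toAdd_ofAdd]
  by_cases h1 : m = 1
  · subst h1; simp
  · by_cases h2 : m = -1
    · subst h2; simp
    · rw [if_neg h1, if_neg h2] at hs
      exact absurd (by norm_num) hs

theorem pw_succ_zw (n : ℕ) (m : ℤ) : pw zw (n + 1) (Multiplicative.ofAdd m) =
    1 / 2 * pw zw n (Multiplicative.ofAdd (m - 1)) +
      1 / 2 * pw zw n (Multiplicative.ofAdd (m + 1)) := by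
  rw [← cv_zw]
  unfold pw
  rw [Function.iterate_succ_apply']

theorem pw_zw_zero (m : ℤ) : pw zw 0 (Multiplicative.ofAdd m) = if m = 0 then 1 else 0 := by
  unfold pw dl
  rw [Function.iterate_zero_apply, Set.indicator_apply]
  by_cases h : m = 0
  · rw [if_pos h, if_pos]
    rw [h]; rfl
  · rw [if_neg h, if_neg]
    intro h'
    exact h (Multiplicative.ofAdd.injective h')

theorem pw_zw_low (n : ℕ) : ∀ m : ℤ, m < -n → pw zw n (Multiplicative.ofAdd m) = 0 := by
  induction n with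
  | zero =>
    intro m hm
    rw [pw_zw_zero, if_neg]
    push_cast at hm
    omega
  | succ n ih =>
    intro m hm
    push_cast at hm
    rw [pw_succ_zw, ih _ (by omega), ih _ (by omega)]
    norm_num

theorem pw_zw_eq (n : ℕ) : ∀ j : ℕ, pw zw n (Multiplicative.ofAdd (2 * (j : ℤ) - n)) =
    (n.choose j : ℝ) / 2 ^ n := by
  induction n with
  | zero =>
    intro j
    rw [pw_zw_zero]
    rcases Nat.eq_zero_or_pos j with h | h
    · subst h; simp
    · rw [if_neg (by push_cast; omega), Nat.choose_eq_zero_of_lt h]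
      simp
  | succ n ih =>
    intro j
    rw [pw_succ_zw]
    have e2 : 2 * (j : ℤ) - ((n + 1 : ℕ) : ℤ) + 1 = 2 * (j : ℤ) - n := by push_cast; ring
    rw [e2, ih j]
    rcases j with _ | i
    · rw [pw_zw_low n _ (by push_cast; omega)]
      rw [Nat.choose_zero_right, Nat.choose_zero_right, pow_succ]
      push_cast
      field_simp
      norm_num
    · have e1 : 2 * ((i + 1 : ℕ) : ℤ) - ((n + 1 : ℕ) : ℤ) - 1 = 2 * (i : ℤ) - n := by
        push_cast; ring
      rw [e1, ih i, Nat.choose_succ_succ, pow_succ]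
      push_cast
      field_simp

theorem zw_rt (n : ℕ) : rt zw (2 * n) = (Nat.centralBinom n : ℝ) / 4 ^ n := by
  unfold rt
  have h := pw_zw_eq (2 * n) n
  have e : (Multiplicative.ofAdd (2 * (n : ℤ) - ((2 * n : ℕ) : ℤ))) = 1 := by
    have : 2 * (n : ℤ) - ((2 * n : ℕ) : ℤ) = 0 := by push_cast; ring
    rw [this]; rfl
  rw [e] at h
  rw [h, Nat.centralBinom_eq_two_mul_choose, pow_mul]
  norm_num

theorem cb_succ (n : ℕ) : (Nat.centralBinom (n + 1) : ℝ) / 4 ^ (n + 1) =
    ((Nat.centralBinom n : ℝ) / 4 ^ n) * ((2 * n + 1) / (2 * n + 2)) := by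
  have h := Nat.succ_mul_centralBinom_succ n
  have h' : ((n : ℝ) + 1) * Nat.centralBinom (n + 1) = 2 * (2 * n + 1) * Nat.centralBinom n := by
    exact_mod_cast h
  have h4 : (4 : ℝ) ^ n ≠ 0 := by positivity
  have hn : (2 * (n : ℝ) + 2) ≠ 0 := by positivity
  rw [pow_succ, div_mul_div_comm, div_eq_div_iff (by positivity) (by positivity)]
  have : (Nat.centralBinom (n + 1) : ℝ) * (4 ^ n * (2 * n + 2)) =
      4 ^ n * 2 * (((n : ℝ) + 1) * Nat.centralBinom (n + 1)) := by ring
  rw [this, h']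
  ring

theorem cb_lower (n : ℕ) : 1 / (4 * ((n : ℝ) + 1)) ≤
    ((Nat.centralBinom (n + 1) : ℝ) / 4 ^ (n + 1)) ^ 2 := by
  induction n with
  | zero => norm_num [Nat.centralBinom]
  | succ n ih =>
    rw [cb_succ (n + 1), mul_pow]
    have hpos : (0 : ℝ) ≤ (((2 * ((n + 1 : ℕ) : ℝ) + 1) / (2 * ((n + 1 : ℕ) : ℝ) + 2))) ^ 2 := by
      positivity
    refine le_trans ?_ (mul_le_mul_of_nonneg_right ih hpos)
    push_cast
    rw [div_pow, div_mul_div_comm, div_le_div_iff₀ (by positivity) (by positivity)]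
    have hn : (0 : ℝ) ≤ n := Nat.cast_nonneg n
    nlinarith [hn, mul_nonneg hn hn, mul_nonneg (mul_nonneg hn hn) hn]

theorem cb_upper (n : ℕ) : ((Nat.centralBinom n : ℝ) / 4 ^ n) ^ 2 ≤ 1 / (2 * n + 1) := by
  induction n with
  | zero => norm_num [Nat.centralBinom]
  | succ n ih =>
    rw [cb_succ n, mul_pow]
    have hpos : (0 : ℝ) ≤ (((2 * (n : ℝ) + 1) / (2 * (n : ℝ) + 2))) ^ 2 := by
      positivity
    refine le_trans (mul_le_mul_of_nonneg_right ih hpos) ?_
    push_cast
    rw [div_pow, div_mul_div_comm, div_le_div_iff₀ (by positivity) (by positivity)]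
    have hn : (0 : ℝ) ≤ n := Nat.cast_nonneg n
    nlinarith [hn, mul_nonneg hn hn, mul_nonneg (mul_nonneg hn hn) hn]

theorem cb_bounds {n : ℕ} (hn : 1 ≤ n) : 1 / (4 * (n : ℝ)) ≤ ((Nat.centralBinom n : ℝ) / 4 ^ n) ^ 2 ∧
    ((Nat.centralBinom n : ℝ) / 4 ^ n) ^ 2 ≤ 1 / (2 * n + 1) := by
  refine ⟨?_, cb_upper n⟩
  obtain ⟨m, rfl⟩ : ∃ m, n = m + 1 := ⟨n - 1, by omega⟩
  have := cb_lower m
  push_cast at this ⊢
  exact this

theorem zf_ofAdd (lam : ℝ) (m : ℤ) : zf lam (Multiplicative.ofAdd m) = lam ^ m.natAbs := rfl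

theorem zf_cv {lam : ℝ} (h0 : 0 < lam) : cv zw (zf lam) 1 = lam ∧
    ∀ x ≠ 1, cv zw (zf lam) x = (lam + 1 / lam) / 2 * zf lam x := by
  constructor
  · rw [← ofAdd_zero, cv_zw, zf_ofAdd, zf_ofAdd]
    norm_num
    ring
  · intro x hx
    obtain ⟨m, rfl⟩ := Multiplicative.ofAdd.surjective x
    have hm : m ≠ 0 := by
      intro h
      exact hx (by rw [h]; rfl)
    rw [cv_zw, zf_ofAdd, zf_ofAdd, zf_ofAdd]
    rcases lt_or_gt_of_ne hm with h | h
    · obtain ⟨k, hk⟩ : ∃ k : ℕ, m = -((k : ℤ) + 1) := ⟨(-m - 1).toNat, by omega⟩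
      have e1 : (m - 1).natAbs = k + 2 := by omega
      have e2 : (m + 1).natAbs = k := by omega
      have e3 : m.natAbs = k + 1 := by omega
      rw [e1, e2, e3, pow_succ, pow_succ]
      field_simp
    · obtain ⟨k, hk⟩ : ∃ k : ℕ, m = (k : ℤ) + 1 := ⟨(m - 1).toNat, by omega⟩
      have e1 : (m - 1).natAbs = k := by omega
      have e2 : (m + 1).natAbs = k + 2 := by omega
      have e3 : m.natAbs = k + 1 := by omega
      rw [e1, e2, e3, pow_succ, pow_succ]
      field_simp
      ring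

end Pool.Agent.RDL
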