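import Pool.Agent.RDL.Ret
import Pool.Agent.RDL.ZWalk

/-!
# Exact asymptotics of the even return probabilities; the simple walk on the integers
-/

set_option autoImplicit false

namespace Pool.Agent.RDL

open Finset Filter Topology

/-- exact asymptotics of the even return probabilities -/
def Asx {G : Type} [Group G] (ν : G →₀ ℝ) (z κ d : ℝ) : Prop :=
  0 < z ∧ 0 < κ ∧ Tendsto (fun n : ℕ => rt ν (2 * n) * z ^ (2 * n) * (n : ℝ) ^ d) atTop (𝓝 κ)

theorem cb_lim : ∃ κ > (0 : ℝ), Tendsto (fun n : ℕ => (Nat.centralBinom n : ℝ) / 4 ^ n * (n : ℝ) ^ (1 / 2 : ℝ)) atTop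
    (𝓝 κ) := by
  obtain ⟨a, ha⟩ : ∃ a : ℕ → ℝ, a = fun n : ℕ => (Nat.centralBinom n : ℝ) / 4 ^ n := ⟨_, rfl⟩
  have ha0 : ∀ n, 0 ≤ a n := fun n => by
    rw [ha]
    positivity
  have hstep : ∀ n, a (n + 1) * (2 * (n + 1)) = a n * (2 * n + 1) := by
    intro n
    have h1 : ((n + 1 : ℕ) : ℝ) * (Nat.centralBinom (n + 1) : ℝ) = 2 * (2 * n + 1) * Nat.centralBinom n := by
      exact_mod_cast Nat.succ_mul_centralBinom_succ n
    push_cast at h1
    have h4 : (4 : ℝ) ^ n ≠ 0 := by positivity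
    rw [ha]
    simp only [pow_succ]
    field_simp
    linarith
  obtain ⟨f, hf⟩ : ∃ f : ℕ → ℝ, f = fun n : ℕ => (n : ℝ) * a n ^ 2 := ⟨_, rfl⟩
  have hmono : Monotone f := by
    refine monotone_nat_of_le_succ fun n => ?_
    rw [hf]
    show (n : ℝ) * a n ^ 2 ≤ ((n + 1 : ℕ) : ℝ) * a (n + 1) ^ 2
    push_cast
    have h1 := hstep n
    have hn : (0 : ℝ) ≤ n := Nat.cast_nonneg n
    have h2 : (n + 1 : ℝ) * a (n + 1) ^ 2 * (4 * (n + 1)) = a n ^ 2 * (2 * n + 1) ^ 2 := by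
      have : (n + 1 : ℝ) * a (n + 1) ^ 2 * (4 * (n + 1)) = (a (n + 1) * (2 * (n + 1))) ^ 2 := by ring
      rw [this, h1]
      ring
    have h3 : (n : ℝ) * a n ^ 2 * (4 * (n + 1)) ≤ (n + 1 : ℝ) * a (n + 1) ^ 2 * (4 * (n + 1)) := by
      rw [h2]
      have : 0 ≤ a n ^ 2 := sq_nonneg _
      nlinarith
    exact le_of_mul_le_mul_right h3 (by positivity)
  have hup : ∀ n, f n ≤ 1 := by
    intro n
    rw [hf]
    rcases Nat.eq_zero_or_pos n with h0 | h0
    · rw [h0]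
      simp
    · have h1 := (cb_bounds h0).2
      have hn : (0 : ℝ) < n := by exact_mod_cast h0
      have h2 : a n ^ 2 ≤ 1 / (2 * n + 1) := by
        rw [ha]
        exact h1
      calc (n : ℝ) * a n ^ 2 ≤ n * (1 / (2 * n + 1)) := mul_le_mul_of_nonneg_left h2 hn.le
        _ = n / (2 * n + 1) := by ring
        _ ≤ 1 := by
            rw [div_le_one (by positivity)]
            linarith
  have hlim := tendsto_atTop_ciSup hmono ⟨1, by rintro _ ⟨n, rfl⟩; exact hup n⟩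
  obtain ⟨L, hL⟩ : ∃ L, L = ⨆ n, f n := ⟨_, rfl⟩
  rw [← hL] at hlim
  have hL0 : 0 < L := by
    have h1 : f 1 ≤ L := hmono.ge_of_tendsto hlim 1
    have h2 : 0 < f 1 := by
      rw [hf, ha]
      have : 0 < Nat.centralBinom 1 := Nat.centralBinom_pos 1
      have : (0 : ℝ) < (Nat.centralBinom 1 : ℝ) := by exact_mod_cast this
      positivity
    linarith
  refine ⟨Real.sqrt L, Real.sqrt_pos.2 hL0, ?_⟩
  have h5 := (Real.continuous_sqrt.tendsto L).comp hlim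
  refine h5.congr fun n => ?_
  show Real.sqrt (f n) = _
  have hn : (0 : ℝ) ≤ n := Nat.cast_nonneg n
  rw [hf]
  show Real.sqrt ((n : ℝ) * a n ^ 2) = _
  rw [Real.sqrt_mul hn, Real.sqrt_sq (ha0 n), Real.sqrt_eq_rpow, mul_comm, ha]

theorem asx_asy {G : Type} [Group G] {ν : G →₀ ℝ} (hν : SP ν) {z κ d : ℝ} (h : Asx ν z κ d) :
    Asy ν z (fun n => (n : ℝ) ^ (-d)) := by
  obtain ⟨hz, hκ, hlim⟩ := h
  refine ⟨hz, ?_⟩
  obtain ⟨t, ht⟩ : ∃ t : ℕ → ℝ, t = fun n : ℕ => rt ν (2 * n) * z ^ (2 * n) * (n : ℝ) ^ d := ⟨_, rfl⟩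
  rw [← ht] at hlim
  have htp : ∀ n, 1 ≤ n → 0 < t n := by
    intro n hn
    have h1 := rt_pos hν n
    have h2 : (0 : ℝ) < n := by exact_mod_cast hn
    rw [ht]
    positivity
  have hev : ∀ᶠ n in atTop, κ / 2 < t n ∧ t n < 2 * κ :=
    (hlim.eventually (lt_mem_nhds (by linarith))).and (hlim.eventually (gt_mem_nhds (by linarith)))
  obtain ⟨N, hN⟩ := eventually_atTop.1 hev
  -- the finitely many first terms
  have hfin : ∀ M : ℕ, ∃ c C : ℝ, 0 < c ∧ ∀ n, 1 ≤ n → n < M → c ≤ t n ∧ t n ≤ C := by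
    intro M
    induction M with
    | zero => exact ⟨1, 1, one_pos, fun n _ h => absurd h (Nat.not_lt_zero n)⟩
    | succ M ih =>
      obtain ⟨c, C, hc, h⟩ := ih
      rcases Nat.eq_zero_or_pos M with h0 | h0
      · exact ⟨c, C, hc, fun n hn hn' => absurd hn' (by omega)⟩
      · refine ⟨min c (t M), max C (t M), lt_min hc (htp M h0), fun n hn hn' => ?_⟩
        rcases Nat.lt_succ_iff_lt_or_eq.1 hn' with h1 | h1
        · exact ⟨(min_le_left _ _).trans (h n hn h1).1, (h n hn h1).2.trans (le_max_left _ _)⟩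
        · rw [h1]
          exact ⟨min_le_right _ _, le_max_right _ _⟩
  obtain ⟨c, C, hc, hcC⟩ := hfin N
  refine ⟨min c (κ / 2), max C (2 * κ), lt_min hc (by linarith), fun n hn => ?_⟩
  have hn0 : (0 : ℝ) < n := by exact_mod_cast hn
  have hb : min c (κ / 2) ≤ t n ∧ t n ≤ max C (2 * κ) := by
    by_cases hnN : n < N
    · exact ⟨(min_le_left _ _).trans (hcC n hn hnN).1, (hcC n hn hnN).2.trans (le_max_left _ _)⟩
    · have h1 := hN n (not_lt.1 hnN)
      exact ⟨(min_le_right _ _).trans h1.1.le, h1.2.le.trans (le_max_right _ _)⟩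
  have hp : (0 : ℝ) < (n : ℝ) ^ (-d) := Real.rpow_pos_of_pos hn0 _
  have he : t n * (n : ℝ) ^ (-d) = rt ν (2 * n) * z ^ (2 * n) := by
    rw [ht]
    show rt ν (2 * n) * z ^ (2 * n) * (n : ℝ) ^ d * (n : ℝ) ^ (-d) = _
    rw [mul_assoc, ← Real.rpow_add hn0, add_neg_cancel, Real.rpow_zero, mul_one]
  rw [← he]
  exact ⟨mul_le_mul_of_nonneg_right hb.1 hp.le, mul_le_mul_of_nonneg_right hb.2 hp.le⟩

end Pool.Agent.RDL
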