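import Mathlib

/-!
# The coefficients of `(1 - x) ^ β` for `1 < β < 2`
-/

set_option autoImplicit false

namespace Pool.Agent.RDL

open Finset Filter Topology

namespace Bn

/-- the coefficients of `(1 - x) ^ β` -/
noncomputable def cc (β : ℝ) : ℕ → ℝ
  | 0 => 1
  | n + 1 => cc β n * (n - β) / (n + 1)

theorem cc_choose (β : ℝ) (n : ℕ) : cc β n = (-1) ^ n * Ring.choose β n := by
  induction n with
  | zero => simp [cc]
  | succ n ih =>
    rw [cc, ih]
    have hn : (n : ℝ) + 1 ≠ 0 := by positivity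
    have h : Ring.choose β (n + 1) = Ring.choose β n * (β - n) / (n + 1) := by
      rw [Ring.choose_eq_smul, Ring.choose_eq_smul, descPochhammer_succ_right,
        Polynomial.smeval_mul, Polynomial.smeval_sub, Polynomial.smeval_X, Polynomial.smeval_natCast]
      have hf : ((n.factorial : ℕ) : ℝ) ≠ 0 := by exact_mod_cast n.factorial_ne_zero
      rw [Nat.factorial_succ]
      push_cast
      simp only [smul_eq_mul, nsmul_eq_mul, pow_one, pow_zero, mul_one]
      field_simp
    rw [h, pow_succ]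
    field_simp
    ring

theorem hasSum_lt {β x : ℝ} (hx0 : 0 ≤ x) (hx1 : x < 1) :
    HasSum (fun n => cc β n * x ^ n) ((1 - x) ^ β) := by
  have h := (Real.one_add_rpow_hasFPowerSeriesOnBall_zero (a := β)).hasSum (y := -x) (by
    rw [Metric.mem_eball, edist_zero_right]
    rw [enorm_neg, Real.enorm_eq_ofReal hx0]
    rw [← ENNReal.ofReal_one]
    exact (ENNReal.ofReal_lt_ofReal_iff one_pos).2 hx1)
  rw [zero_add, ← sub_eq_add_neg] at h
  refine h.congr_fun ?_
  intro n
  rw [binomialSeries_apply, cc_choose]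
  simp
  ring

theorem sum_c {β : ℝ} (hβ : β ≠ 0) (N : ℕ) : ∑ n ∈ range N, cc β n = -(N / β) * cc β N := by
  induction N with
  | zero => simp
  | succ N ih =>
    rw [sum_range_succ, ih, cc]
    have hn : (N : ℝ) + 1 ≠ 0 := by positivity
    push_cast
    field_simp
    ring

theorem sum_nc {β : ℝ} (hβ : 1 - β ≠ 0) (N : ℕ) :
    ∑ n ∈ range N, (n : ℝ) * cc β n = (N : ℝ) * (N - 1) * cc β N / (1 - β) := by
  induction N with
  | zero => simp
  | succ N ih =>
    rw [sum_range_succ, ih, cc]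
    have hn : (N : ℝ) + 1 ≠ 0 := by positivity
    push_cast
    field_simp
    ring

theorem prod_eq (β : ℝ) (n : ℕ) : ∏ j ∈ range (n + 1), (-β + j) = cc β (n + 1) * (n + 1).factorial := by
  induction n with
  | zero => simp [cc]
  | succ n ih =>
    have e : cc β (n + 1 + 1) = cc β (n + 1) * (((n + 1 : ℕ) : ℝ) - β) / (((n + 1 : ℕ) : ℝ) + 1) := rfl
    rw [prod_range_succ, ih, Nat.factorial_succ (n + 1), e]
    have hn : ((n + 1 : ℕ) : ℝ) + 1 ≠ 0 := by positivity
    push_cast at hn ⊢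
    field_simp
    ring

theorem gamma_pos {β : ℝ} (h1 : 1 < β) (h2 : β < 2) : 0 < Real.Gamma (-β) := by
  have e1 := Real.Gamma_add_one (s := -β) (by linarith)
  have e2 := Real.Gamma_add_one (s := -β + 1) (by linarith)
  rw [e1] at e2
  have h3 : 0 < Real.Gamma (-β + 1 + 1) := Real.Gamma_pos_of_pos (by linarith)
  rw [e2] at h3
  have h4 : (-β + 1) * (-β * Real.Gamma (-β)) = (β - 1) * β * Real.Gamma (-β) := by ring
  rw [h4] at h3
  exact (mul_pos_iff_of_pos_left (by nlinarith)).1 h3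

theorem lim_c {β : ℝ} (h1 : 1 < β) (h2 : β < 2) :
    Tendsto (fun n : ℕ => cc β n * (n : ℝ) ^ (β + 1)) atTop (𝓝 (Real.Gamma (-β))⁻¹) := by
  rw [← tendsto_add_atTop_iff_nat 1]
  have hG := (Real.GammaSeq_tendsto_Gamma (-β)).inv₀ (gamma_pos h1 h2).ne'
  -- ((n + 1) / n) ^ β → 1
  have hr : Tendsto (fun n : ℕ => (((n : ℝ) + 1) / n) ^ β) atTop (𝓝 1) := by
    have t1 : Tendsto (fun n : ℕ => ((n : ℝ) + 1) / n) atTop (𝓝 1) := by
      have := (tendsto_const_nhds (x := (1 : ℝ))).add (tendsto_one_div_atTop_nhds_zero_nat (𝕜 := ℝ))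
      rw [add_zero] at this
      refine this.congr' ?_
      filter_upwards [eventually_gt_atTop 0] with n hn
      have hn0 : (n : ℝ) ≠ 0 := by positivity
      field_simp
    have t2 : Tendsto (fun y : ℝ => y ^ β) (𝓝 1) (𝓝 1) := by
      have := (Real.continuousAt_rpow_const 1 β (Or.inl one_ne_zero)).tendsto
      rwa [Real.one_rpow] at this
    exact t2.comp t1
  have h := hG.mul hr
  rw [mul_one] at h
  refine h.congr' ?_
  filter_upwards [eventually_gt_atTop 0] with n hn
  have hn0 : (0 : ℝ) < n := by exact_mod_cast hn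
  have hn1 : (0 : ℝ) < (n : ℝ) + 1 := by linarith
  rw [Real.GammaSeq, prod_eq, Real.rpow_neg hn0.le, Real.div_rpow hn1.le hn0.le, Nat.factorial_succ]
  have hf : ((n.factorial : ℕ) : ℝ) ≠ 0 := by exact_mod_cast n.factorial_ne_zero
  have hp : (n : ℝ) ^ β ≠ 0 := (Real.rpow_pos_of_pos hn0 _).ne'
  push_cast
  rw [Real.rpow_add hn1, Real.rpow_one]
  field_simp

/-- powers of `n` times the coefficients tend to zero -/
theorem lim_pow {β : ℝ} (h1 : 1 < β) (h2 : β < 2) {s : ℝ} (hs : s < β + 1) :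
    Tendsto (fun n : ℕ => cc β n * (n : ℝ) ^ s) atTop (𝓝 0) := by
  have h := (lim_c h1 h2).mul ((tendsto_rpow_neg_atTop (show 0 < β + 1 - s by linarith)).comp
    tendsto_natCast_atTop_atTop)
  rw [mul_zero] at h
  refine h.congr' ?_
  filter_upwards [eventually_gt_atTop 0] with n hn
  have hn0 : (0 : ℝ) < n := by exact_mod_cast hn
  simp only [Function.comp_apply]
  rw [mul_assoc, ← Real.rpow_add hn0]
  congr 2
  ring

theorem summ {β : ℝ} (h1 : 1 < β) (h2 : β < 2) :
    Summable (cc β) ∧ Summable (fun n : ℕ => (n : ℝ) * cc β n) := by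
  have h := (lim_c h1 h2).isBigO_one ℝ
  constructor
  · refine summable_of_isBigO_nat (Real.summable_nat_rpow.2 (show -(β + 1) < -1 by linarith)) ?_
    refine ((h.mul (Asymptotics.isBigO_refl (fun n : ℕ => (n : ℝ) ^ (-(β + 1))) atTop)).congr' ?_ ?_)
    · filter_upwards [eventually_gt_atTop 0] with n hn
      have hn0 : (0 : ℝ) < n := by exact_mod_cast hn
      rw [mul_assoc, ← Real.rpow_add hn0, add_neg_cancel, Real.rpow_zero, mul_one]
    · exact Eventually.of_forall (fun n => by simp)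
  · refine summable_of_isBigO_nat (Real.summable_nat_rpow.2 (show -β < -1 by linarith)) ?_
    refine ((h.mul (Asymptotics.isBigO_refl (fun n : ℕ => (n : ℝ) ^ (-β)) atTop)).congr' ?_ ?_)
    · filter_upwards [eventually_gt_atTop 0] with n hn
      have hn0 : (0 : ℝ) < n := by exact_mod_cast hn
      rw [mul_assoc, ← Real.rpow_add hn0, show β + 1 + -β = 1 by ring, Real.rpow_one]
      ring
    · exact Eventually.of_forall (fun n => by simp)

theorem hasSum_one {β : ℝ} (h1 : 1 < β) (h2 : β < 2) : HasSum (cc β) 0 := by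
  have hs := (summ h1 h2).1.hasSum
  have t := hs.tendsto_sum_nat
  have t2 : Tendsto (fun N : ℕ => ∑ n ∈ range N, cc β n) atTop (𝓝 0) := by
    have h := (lim_pow h1 h2 (s := 1) (by linarith)).const_mul (-(1 / β))
    rw [mul_zero] at h
    refine h.congr (fun N => ?_)
    rw [sum_c (by linarith) N, Real.rpow_one]
    ring
  rw [tendsto_nhds_unique t t2] at hs
  exact hs

theorem hasSum_nc {β : ℝ} (h1 : 1 < β) (h2 : β < 2) : HasSum (fun n : ℕ => (n : ℝ) * cc β n) 0 := by
  have hs := (summ h1 h2).2.hasSum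
  have t := hs.tendsto_sum_nat
  have t2 : Tendsto (fun N : ℕ => ∑ n ∈ range N, (n : ℝ) * cc β n) atTop (𝓝 0) := by
    have ha := lim_pow h1 h2 (s := 2) (by linarith)
    have hb := lim_pow h1 h2 (s := 1) (by linarith)
    have h := (ha.sub hb).const_mul (1 / (1 - β))
    rw [sub_zero, mul_zero] at h
    refine h.congr (fun N => ?_)
    rw [sum_nc (by linarith) N, Real.rpow_one, Real.rpow_two]
    ring
  rw [tendsto_nhds_unique t t2] at hs
  exact hs

end Bn

open Bn in
theorem bin_coef {β : ℝ} (h1 : 1 < β) (h2 : β < 2) : ∃ c : ℕ → ℝ, (∀ x ∈ Set.Icc (0 : ℝ) 1,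
    HasSum (fun n => c n * x ^ n) ((1 - x) ^ β)) ∧ HasSum (fun n : ℕ => (n : ℝ) * c n) 0 ∧
    ∃ k > (0 : ℝ), Tendsto (fun n : ℕ => c n * (n : ℝ) ^ (β + 1)) atTop (𝓝 k) := by
  refine ⟨cc β, fun x hx => ?_, hasSum_nc h1 h2, (Real.Gamma (-β))⁻¹, inv_pos.2 (gamma_pos h1 h2),
    lim_c h1 h2⟩
  rcases lt_or_eq_of_le hx.2 with h | h
  · exact hasSum_lt hx.1 h
  · rw [h, sub_self, Real.zero_rpow (by linarith)]
    simpa using hasSum_one h1 h2

end Pool.Agent.RDL
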