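import Pool.Agent.RDL.Defs

set_option autoImplicit false

namespace Pool.Agent.RDL

open Finset

theorem cent_int : Cent (Multiplicative ℤ) := by
  classical
  refine ⟨⟨fun x => (Multiplicative.toAdd x).natAbs, fun _ _ => 1, 2, ?_, ?_, ?_, ?_, ?_, ?_, ?_⟩, ?_⟩
  · simp
  · intro x hx
    have : Multiplicative.toAdd x ≠ 0 := fun h => hx (by rwa [toAdd_eq_zero] at h)
    have := Int.natAbs_pos.2 this
    exact this
  · intro x y
    simpa using Int.natAbs_add_le (Multiplicative.toAdd x) (Multiplicative.toAdd y)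
  · intro x
    simp
  · intro u
    exact ⟨{1}, by rw [card_singleton]; exact Nat.one_le_pow _ _ (by omega), fun w => mem_singleton_self _⟩
  · intro w n
    exact ⟨{1}, by rw [card_singleton]; exact Nat.one_le_pow _ _ (by omega), fun u _ => mem_singleton_self _⟩
  · intro v n
    refine ⟨(Finset.Icc (-(n : ℤ)) n).image Multiplicative.ofAdd, ?_, ?_⟩
    · refine card_image_le.trans ?_
      rw [Int.card_Icc]
      have h : ((n : ℤ) + 1 - -(n : ℤ)).toNat = 2 * n + 1 := by omega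
      rw [h]
      nlinarith
    · intro u hu
      rw [mem_image]
      refine ⟨-(Multiplicative.toAdd u), ?_, ?_⟩
      · rw [mem_Icc]
        have hu' : (Multiplicative.toAdd u).natAbs ≤ n := hu
        omega
      · simp
  · refine ⟨{Multiplicative.ofAdd 1}, ?_⟩
    rw [coe_singleton, ← Subgroup.zpowers_eq_closure, Subgroup.eq_top_iff']
    intro x
    rw [Subgroup.mem_zpowers_iff]
    refine ⟨Multiplicative.toAdd x, ?_⟩
    rw [← ofAdd_zsmul]
    simp

theorem cent_prod {G H : Type} [Group G] [Group H] (hG : Cent G) (hH : Cent H) : Cent (G × H) := by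
  classical
  obtain ⟨⟨l, c, D, h⟩, S, hS⟩ := hG
  obtain ⟨⟨l', c', D', h'⟩, S', hS'⟩ := hH
  have key : ∀ a b n : ℕ, a ≤ (n + 2) ^ D → b ≤ (n + 2) ^ D' → a * b ≤ (n + 2) ^ (D + D') := by
    intro a b n ha hb
    rw [pow_add]
    exact Nat.mul_le_mul ha hb
  refine ⟨⟨fun x => l x.1 + l' x.2, fun u w => (c u.1 w.1, c' u.2 w.2), D + D', ?_, ?_, ?_, ?_, ?_, ?_, ?_⟩, ?_⟩
  · show l (1 : G × H).1 + l' (1 : G × H).2 = 0
    rw [Prod.fst_one, Prod.snd_one, h.one, h'.one]
  · intro x hx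
    by_cases h1 : x.1 = 1
    · have h2 : x.2 ≠ 1 := fun h2 => hx (Prod.ext h1 h2)
      have := h'.pos _ h2
      show 1 ≤ l x.1 + l' x.2
      omega
    · have := h.pos _ h1
      show 1 ≤ l x.1 + l' x.2
      omega
  · intro x y
    have h1 := h.mul x.1 y.1
    have h2 := h'.mul x.2 y.2
    show l (x * y).1 + l' (x * y).2 ≤ l x.1 + l' x.2 + (l y.1 + l' y.2)
    rw [Prod.fst_mul, Prod.snd_mul]
    omega
  · intro x
    show l x⁻¹.1 + l' x⁻¹.2 = l x.1 + l' x.2
    rw [Prod.fst_inv, Prod.snd_inv, h.inv, h'.inv]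
  · intro u
    obtain ⟨T, hT, hc⟩ := h.c1 u.1
    obtain ⟨T', hT', hc'⟩ := h'.c1 u.2
    refine ⟨T ×ˢ T', ?_, fun w => mem_product.2 ⟨hc _, hc' _⟩⟩
    rw [card_product]
    refine key _ _ _ (hT.trans (Nat.pow_le_pow_left ?_ _)) (hT'.trans (Nat.pow_le_pow_left ?_ _)) <;> omega
  · intro w n
    obtain ⟨T, hT, hc⟩ := h.c2 w.1 n
    obtain ⟨T', hT', hc'⟩ := h'.c2 w.2 n
    refine ⟨T ×ˢ T', ?_, fun u hu => mem_product.2 ⟨hc _ ?_, hc' _ ?_⟩⟩
    · rw [card_product]
      exact key _ _ _ hT hT'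
    · have hu' : l u.1 + l' u.2 ≤ n := hu
      omega
    · have hu' : l u.1 + l' u.2 ≤ n := hu
      omega
  · intro v n
    obtain ⟨T, hT, hc⟩ := h.c3 v.1 n
    obtain ⟨T', hT', hc'⟩ := h'.c3 v.2 n
    refine ⟨T ×ˢ T', ?_, fun u hu => mem_product.2 ⟨hc u.1 ?_, hc' u.2 ?_⟩⟩
    · rw [card_product]
      exact key _ _ _ hT hT'
    · have hu' : l u.1 + l' u.2 ≤ n := hu
      omega
    · have hu' : l u.1 + l' u.2 ≤ n := hu
      omega
  · refine ⟨(insert 1 S) ×ˢ (insert 1 S'), ?_⟩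
    rw [coe_product]
    rw [Subgroup.closure_prod (by simp) (by simp)]
    rw [coe_insert, coe_insert, Subgroup.closure_insert_one, Subgroup.closure_insert_one, hS, hS']
    exact Subgroup.top_prod_top

end Pool.Agent.RDL
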