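import Pool.Agent.RDL.CentFreeC

/-!
# Centroids on free products: the first two conditions
-/

set_option autoImplicit false

namespace Pool.Agent.RDL

open Monoid.CoprodI
open scoped Classical

section

variable {ι : Type} {M : ι → Type} [∀ i, Group (M i)] {len : ∀ i, M i → ℕ}
  {c : ∀ i, M i → M i → M i} {D : ℕ}

lemma exists_prefix (V : List (Σ i, M i)) (n D : ℕ) (T : ∀ i, M i → Finset (M i))
    (hT : ∀ p ∈ V, (T p.1 p.2).card ≤ (n + 2) ^ D) :
    ∃ Q : Finset (Monoid.CoprodI M), Q.card ≤ (n + 2) ^ (D + 2) ∧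
      (∀ A U : List (Σ i, M i), V = A ++ U → A.length ≤ n → lp A ∈ Q) ∧
      ∀ (A : List (Σ i, M i)) (p : Σ i, M i) (U : List (Σ i, M i)), V = A ++ p :: U →
        A.length ≤ n → ∀ y ∈ T p.1 p.2, lp (A ++ [⟨p.1, y⟩]) ∈ Q := by
  let B : ℕ → Finset (Monoid.CoprodI M) := fun k =>
    match V[k]? with
    | some p => (T p.1 p.2).image (fun y => lp (V.take k) * Monoid.CoprodI.of y)
    | none => ∅
  have hB : ∀ k, (B k).card ≤ (n + 2) ^ D := by
    intro k
    simp only [B]
    cases h : V[k]? with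
    | none => simp
    | some p => exact Finset.card_image_le.trans (hT p (List.mem_of_getElem? h))
  refine ⟨(Finset.range (n + 1)).image (fun k => lp (V.take k)) ∪ (Finset.range (n + 1)).biUnion B,
    ?_, ?_, ?_⟩
  · refine (Finset.card_union_le _ _).trans (le_trans ?_ (card_bound n D))
    refine Nat.add_le_add ?_ ?_
    · exact Finset.card_image_le.trans (by simp)
    · refine (Finset.card_biUnion_le).trans ?_
      refine (Finset.sum_le_sum fun k _ => hB k).trans ?_
      simp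
  · intro A U hV hA
    rw [Finset.mem_union]
    left
    refine Finset.mem_image.2 ⟨A.length, Finset.mem_range.2 (by omega), ?_⟩
    rw [hV, List.take_left' rfl]
  · intro A p U hV hA y hy
    rw [Finset.mem_union]
    right
    refine Finset.mem_biUnion.2 ⟨A.length, Finset.mem_range.2 (by omega), ?_⟩
    have hk : V[A.length]? = some p := by
      rw [hV, List.getElem?_append_right le_rfl]
      simp
    simp only [B, hk]
    refine Finset.mem_image.2 ⟨y, hy, ?_⟩
    rw [hV, List.take_left' rfl, lp_append, lp_cons, lp_nil, mul_one]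

theorem cf_c1 (hD : ∀ i, CentD (M i) (len i) (c i) D) (u : Monoid.CoprodI M) :
    ∃ T : Finset (Monoid.CoprodI M), T.card ≤ (lf len u + 2) ^ (D + 2) ∧ ∀ w, cf c u w ∈ T := by
  choose T1 hT1 hm1 using fun (i : ι) (s : M i) => (hD i).c1 s
  obtain ⟨Q, h1, h2, h3⟩ := exists_prefix (lt u) (lf len u) D T1 (fun p hp =>
    (hT1 p.1 p.2).trans (Nat.pow_le_pow_left (Nat.add_le_add_right (len_le_lf hp) 2) D))
  refine ⟨Q, h1, fun w => ?_⟩
  have hlen := length_le_lf hD u
  rcases cl_spec c (lt u) (lt w) with ⟨A, U₂, W₂, e1, e2, e3, e4⟩ | ⟨A, U₂, W₂, i, x, t, e0, e1, e2, e3⟩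
  · rw [cf, e3]
    refine h2 A U₂ e1 ?_
    rw [e1, List.length_append] at hlen
    omega
  · rw [cf, e3]
    refine h3 A ⟨i, x⟩ U₂ e1 ?_ _ (hm1 i x t)
    rw [e1, List.length_append] at hlen
    omega

theorem cf_c2 (hD : ∀ i, CentD (M i) (len i) (c i) D) (w : Monoid.CoprodI M) (n : ℕ) :
    ∃ T : Finset (Monoid.CoprodI M), T.card ≤ (n + 2) ^ (D + 2) ∧
      ∀ u, lf len u ≤ n → cf c u w ∈ T := by
  choose T2 hT2 hm2 using fun (i : ι) (s : M i) => (hD i).c2 s n
  obtain ⟨Q, h1, h2, h3⟩ := exists_prefix (lt w) n D T2 (fun p _ => hT2 p.1 p.2)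
  refine ⟨Q, h1, fun u hu => ?_⟩
  have hlen := (length_le_lf hD u).trans hu
  rcases cl_spec c (lt u) (lt w) with ⟨A, U₂, W₂, e1, e2, e3, e4⟩ | ⟨A, U₂, W₂, i, x, t, e0, e1, e2, e3⟩
  · rw [cf, e3]
    refine h2 A W₂ e2 ?_
    rw [e1, List.length_append] at hlen
    omega
  · rw [cf, e3]
    have hx : len i x ≤ n := by
      refine (len_le_lf (len := len) (x := u) (p := ⟨i, x⟩) ?_).trans hu
      rw [e1]
      simp
    refine h3 A ⟨i, t⟩ W₂ e2 ?_ _ (hm2 i t x hx)
    rw [e1, List.length_append] at hlen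
    omega

end

end Pool.Agent.RDL
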