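import Pool.Agent.RDL.CentFreeB
import Pool.Agent.RDL.CentFreeD

/-!
# Centroids on free products
-/

set_option autoImplicit false

namespace Pool.Agent.RDL

open Monoid.CoprodI
open scoped Classical

lemma CentD.mono {G : Type} [Group G] {len : G → ℕ} {c : G → G → G} {D D' : ℕ}
    (h : CentD G len c D) (hDD : D ≤ D') : CentD G len c D' where
  one := h.one
  pos := h.pos
  mul := h.mul
  inv := h.inv
  c1 := fun u => by
    obtain ⟨T, h1, h2⟩ := h.c1 u
    exact ⟨T, h1.trans (Nat.pow_le_pow_right (by omega) hDD), h2⟩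
  c2 := fun w n => by
    obtain ⟨T, h1, h2⟩ := h.c2 w n
    exact ⟨T, h1.trans (Nat.pow_le_pow_right (by omega) hDD), h2⟩
  c3 := fun v n => by
    obtain ⟨T, h1, h2⟩ := h.c3 v n
    exact ⟨T, h1.trans (Nat.pow_le_pow_right (by omega) hDD), h2⟩

/-- free products of finitely generated groups are finitely generated -/
lemma gen_free {ι : Type} [Fintype ι] {M : ι → Type} [∀ i, Group (M i)] (S : ∀ i, Finset (M i))
    (hS : ∀ i, Subgroup.closure (S i : Set (M i)) = ⊤) :
    ∃ T : Finset (Monoid.CoprodI M), Subgroup.closure (T : Set (Monoid.CoprodI M)) = ⊤ := by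
  refine ⟨Finset.univ.biUnion fun i => (S i).image (Monoid.CoprodI.of : M i →* Monoid.CoprodI M), ?_⟩
  rw [eq_top_iff]
  intro x _
  induction x using Monoid.CoprodI.induction_on with
  | one => exact Subgroup.one_mem _
  | of i m =>
    have h1 : m ∈ Subgroup.closure (S i : Set (M i)) := by rw [hS i]; trivial
    have h2 : (Monoid.CoprodI.of m : Monoid.CoprodI M) ∈
        (Subgroup.closure (S i : Set (M i))).map (Monoid.CoprodI.of : M i →* Monoid.CoprodI M) :=
      Subgroup.mem_map_of_mem _ h1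
    rw [MonoidHom.map_closure] at h2
    refine Subgroup.closure_mono ?_ h2
    rintro y ⟨z, hz, rfl⟩
    simp only [Finset.coe_biUnion, Set.mem_iUnion]
    refine ⟨i, Finset.mem_coe.2 (Finset.mem_univ i), ?_⟩
    rw [Finset.mem_coe, Finset.mem_image]
    exact ⟨z, hz, rfl⟩
  | mul x y hx hy => exact Subgroup.mul_mem _ (hx trivial) (hy trivial)

theorem cent_free {ι : Type} [Fintype ι] {M : ι → Type} [∀ i, Group (M i)] (h : ∀ i, Cent (M i)) :
    Cent (Monoid.CoprodI M) := by
  choose h1 S hS using h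
  choose len c D hD using h1
  have hD' : ∀ i, CentD (M i) (len i) (c i) (∑ j, D j) := fun i =>
    (hD i).mono (Finset.single_le_sum (fun _ _ => Nat.zero_le _) (Finset.mem_univ i))
  refine ⟨⟨lf len, cf c, (∑ j, D j) + 2, ?_⟩, gen_free S hS⟩
  exact
    { one := lf_one
      pos := lf_pos hD'
      mul := lf_mul hD'
      inv := lf_inv hD'
      c1 := cf_c1 hD'
      c2 := cf_c2 hD'
      c3 := cf_c3 hD' }

end Pool.Agent.RDL
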