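import Pool.Agent.RDL.Defs

/-!
# Centroids on free products: lists of letters
-/

set_option autoImplicit false

namespace Pool.Agent.RDL

open Monoid.CoprodI
open scoped Classical

section

variable {ι : Type} {M : ι → Type} [∀ i, Group (M i)]

/-- the product of a list of letters -/
def lp (l : List (Σ i, M i)) : Monoid.CoprodI M :=
  (l.map (fun p => (Monoid.CoprodI.of p.2 : Monoid.CoprodI M))).prod

/-- reduced lists -/
def Red (l : List (Σ i, M i)) : Prop := (∀ p ∈ l, p.2 ≠ 1) ∧ l.IsChain (fun p q => p.1 ≠ q.1)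

/-- the letters of the reduced word -/
noncomputable def lt (x : Monoid.CoprodI M) : List (Σ i, M i) := (Word.equiv x).toList

@[simp] lemma lp_nil : lp ([] : List (Σ i, M i)) = 1 := rfl

@[simp] lemma lp_cons (p : Σ i, M i) (l : List (Σ i, M i)) :
    lp (p :: l) = Monoid.CoprodI.of p.2 * lp l := by
  simp [lp]

@[simp] lemma lp_append (l l' : List (Σ i, M i)) : lp (l ++ l') = lp l * lp l' := by
  simp [lp]

lemma red_lt (x : Monoid.CoprodI M) : Red (lt x) := by
  refine ⟨fun p hp => (Word.equiv x).ne_one p hp, (Word.equiv x).chain_ne⟩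

lemma lp_lt (x : Monoid.CoprodI M) : lp (lt x) = x := Word.equiv.symm_apply_apply x

lemma lt_lp {l : List (Σ i, M i)} (h : Red l) : lt (lp l) = l := by
  let w : Word M := ⟨l, fun p hp => h.1 p hp, h.2⟩
  have h1 : lp l = Word.equiv.symm w := rfl
  unfold lt
  rw [h1, Equiv.apply_symm_apply]

lemma lt_one : lt (1 : Monoid.CoprodI M) = [] := by
  have h : Red ([] : List (Σ i, M i)) := ⟨by simp, by simp⟩
  have := lt_lp h
  rwa [lp_nil] at this

/-- the common prefix of two lists, followed by the centroid of the next letters if these are in the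
same factor -/
noncomputable def cl (c : ∀ i, M i → M i → M i) :
    List (Σ i, M i) → List (Σ i, M i) → List (Σ i, M i)
  | [], _ => []
  | _, [] => []
  | a :: u, b :: w => if a = b then a :: cl c u w else
      if h : a.1 = b.1 then [⟨b.1, c b.1 (h ▸ a.2) b.2⟩] else []

/-- **the centroid of a free product** -/
noncomputable def cf (c : ∀ i, M i → M i → M i) (u w : Monoid.CoprodI M) : Monoid.CoprodI M :=
  lp (cl c (lt u) (lt w))

/-- the length on a free product -/
noncomputable def lf (len : ∀ i, M i → ℕ) (x : Monoid.CoprodI M) : ℕ :=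
  ((lt x).map (fun p => len p.1 p.2)).sum

/-- the two forms of the centroid -/
lemma cl_spec (c : ∀ i, M i → M i → M i) : ∀ U W : List (Σ i, M i),
    (∃ A U₂ W₂, U = A ++ U₂ ∧ W = A ++ W₂ ∧ cl c U W = A ∧
      ∀ p ∈ U₂.head?, ∀ q ∈ W₂.head?, p.1 ≠ q.1) ∨
    ∃ A U₂ W₂ i, ∃ x t : M i, x ≠ t ∧ U = A ++ ⟨i, x⟩ :: U₂ ∧ W = A ++ ⟨i, t⟩ :: W₂ ∧
      cl c U W = A ++ [⟨i, c i x t⟩] := by
  intro U
  induction U with
  | nil => intro W; exact Or.inl ⟨[], [], W, rfl, rfl, by simp [cl], by simp⟩
  | cons a U ih =>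
    intro W
    obtain _ | ⟨b, W⟩ := W
    · exact Or.inl ⟨[], a :: U, [], rfl, rfl, by simp [cl], by simp⟩
    by_cases hab : a = b
    · subst hab
      rcases ih W with ⟨A, U₂, W₂, h1, h2, h3, h4⟩ | ⟨A, U₂, W₂, i, x, t, h0, h1, h2, h3⟩
      · exact Or.inl ⟨a :: A, U₂, W₂, by rw [h1]; rfl, by rw [h2]; rfl, by
          rw [cl, if_pos rfl, h3], h4⟩
      · exact Or.inr ⟨a :: A, U₂, W₂, i, x, t, h0, by rw [h1]; rfl, by rw [h2]; rfl, by
          rw [cl, if_pos rfl, h3]; rfl⟩
    · by_cases h : a.1 = b.1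
      · obtain ⟨i, x⟩ := a
        obtain ⟨j, t⟩ := b
        simp only at h
        subst h
        refine Or.inr ⟨[], U, W, i, x, t, fun h => hab (by rw [h]), rfl, rfl, ?_⟩
        rw [cl, if_neg hab, dif_pos rfl]
        rfl
      · refine Or.inl ⟨[], a :: U, b :: W, rfl, rfl, by rw [cl, if_neg hab, dif_neg h], ?_⟩
        intro p hp q hq
        simp only [List.head?_cons, Option.mem_def, Option.some.injEq] at hp hq
        rw [← hp, ← hq]
        exact h

/-- the list of the inverse -/
def il (l : List (Σ i, M i)) : List (Σ i, M i) :=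
  (l.map (fun p => (⟨p.1, p.2⁻¹⟩ : Σ i, M i))).reverse

lemma lp_il (l : List (Σ i, M i)) : lp (il l) = (lp l)⁻¹ := by
  induction l with
  | nil => simp [il]
  | cons a l ih =>
    have h : il (a :: l) = il l ++ [⟨a.1, a.2⁻¹⟩] := by simp [il]
    rw [h, lp_append, ih, lp_cons, lp_cons, mul_inv_rev]
    simp

lemma red_il {l : List (Σ i, M i)} (h : Red l) : Red (il l) := by
  refine ⟨?_, ?_⟩
  · intro p hp
    simp only [il, List.mem_reverse, List.mem_map] at hp
    obtain ⟨q, hq, rfl⟩ := hp
    simpa using h.1 q hq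
  · unfold il
    rw [List.isChain_reverse, List.isChain_map]
    exact h.2.imp fun p q hpq => hpq.symm

lemma lt_inv (x : Monoid.CoprodI M) : lt x⁻¹ = il (lt x) := by
  have h1 := lt_lp (red_il (red_lt x))
  rwa [lp_il, lp_lt] at h1

lemma length_il (l : List (Σ i, M i)) : (il l).length = l.length := by simp [il]

end

end Pool.Agent.RDL
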