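import Pool.Agent.RDL.CentFreeA

/-!
# Centroids on free products: the length
-/

set_option autoImplicit false

namespace Pool.Agent.RDL

open Monoid.CoprodI
open scoped Classical

section

variable {ι : Type} {M : ι → Type} [∀ i, Group (M i)] {len : ∀ i, M i → ℕ}
  {c : ∀ i, M i → M i → M i} {D : ℕ}

theorem lf_lp {l : List (Σ i, M i)} (h : Red l) :
    lf len (lp l) = (l.map (fun p => len p.1 p.2)).sum := by
  unfold lf
  rw [lt_lp h]

theorem lf_one : lf len (1 : Monoid.CoprodI M) = 0 := by
  unfold lf
  rw [lt_one]
  rfl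

theorem lf_pos (hD : ∀ i, CentD (M i) (len i) (c i) D) (x : Monoid.CoprodI M) (hx : x ≠ 1) :
    1 ≤ lf len x := by
  have h1 := lp_lt x
  have h2 := (red_lt x).1
  unfold lf
  obtain ⟨l, hl⟩ : ∃ l, l = lt x := ⟨_, rfl⟩
  rw [← hl] at h1 h2 ⊢
  cases l with
  | nil =>
    exfalso
    apply hx
    rw [← h1, lp_nil]
  | cons a l =>
    have h3 := (hD a.1).pos a.2 (h2 a List.mem_cons_self)
    rw [List.map_cons, List.sum_cons]
    omega

theorem lf_inv (hD : ∀ i, CentD (M i) (len i) (c i) D) (x : Monoid.CoprodI M) :
    lf len x⁻¹ = lf len x := by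
  unfold lf
  rw [lt_inv]
  unfold il
  rw [List.map_reverse, List.sum_reverse, List.map_map]
  congr 1
  apply List.map_congr_left
  intro p _
  exact (hD p.1).inv p.2

/-- multiplication by one letter -/
theorem lf_of_mul (hD : ∀ i, CentD (M i) (len i) (c i) D) {i : ι} (m : M i) (z : Monoid.CoprodI M) :
    lf len (Monoid.CoprodI.of m * z) ≤ len i m + lf len z := by
  by_cases hm : m = 1
  · rw [hm, map_one, one_mul]
    omega
  have h1 := lp_lt z
  have h2 := red_lt z
  obtain ⟨l, hl⟩ : ∃ l, l = lt z := ⟨_, rfl⟩
  rw [← hl] at h1 h2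
  rw [← h1, lf_lp h2]
  by_cases hh : ∀ q ∈ l.head?, i ≠ q.1
  · have h3 : Red (⟨i, m⟩ :: l : List (Σ i, M i)) := by
      refine ⟨?_, ?_⟩
      · intro p hp
        rcases List.mem_cons.1 hp with rfl | hp
        · exact hm
        · exact h2.1 p hp
      · rw [List.isChain_cons]
        exact ⟨hh, h2.2⟩
    have h4 := lf_lp (len := len) h3
    rw [lp_cons] at h4
    rw [h4, List.map_cons, List.sum_cons]
  · push Not at hh
    obtain ⟨q, hq, hiq⟩ := hh
    cases l with
    | nil => simp at hq
    | cons a W =>
      simp only [List.head?_cons, Option.mem_def, Option.some.injEq] at hq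
      subst hq
      obtain ⟨j, t⟩ := a
      simp only at hiq
      subst hiq
      have hW : Red W := ⟨fun p hp => h2.1 p (List.mem_cons_of_mem _ hp), (List.isChain_cons.1 h2.2).2⟩
      rw [lp_cons, List.map_cons, List.sum_cons, ← mul_assoc]
      simp only
      rw [← map_mul]
      by_cases hmt : m * t = 1
      · rw [hmt, map_one, one_mul, lf_lp hW]
        omega
      · have h3 : Red (⟨i, m * t⟩ :: W : List (Σ i, M i)) := by
          refine ⟨?_, ?_⟩
          · intro p hp
            rcases List.mem_cons.1 hp with rfl | hp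
            · exact hmt
            · exact hW.1 p hp
          · have h5 := h2.2
            rw [List.isChain_cons] at h5 ⊢
            exact h5
        have h4 := lf_lp (len := len) h3
        rw [lp_cons] at h4
        rw [h4, List.map_cons, List.sum_cons]
        have h5 := (hD i).mul m t
        simp only
        omega

theorem lf_mul (hD : ∀ i, CentD (M i) (len i) (c i) D) (x y : Monoid.CoprodI M) :
    lf len (x * y) ≤ lf len x + lf len y := by
  have key : ∀ l : List (Σ i, M i), lf len (lp l * y) ≤ (l.map (fun p => len p.1 p.2)).sum + lf len y := by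
    intro l
    induction l with
    | nil => simp
    | cons a l ih =>
      rw [lp_cons, mul_assoc, List.map_cons, List.sum_cons]
      have h1 := lf_of_mul hD a.2 (lp l * y)
      omega
  have h1 := key (lt x)
  rw [lp_lt] at h1
  exact h1

end

end Pool.Agent.RDL
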