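import Pool.Agent.RDL.CentFreeA

/-!
# Centroids on free products: the third condition
-/

set_option autoImplicit false

namespace Pool.Agent.RDL

open Monoid.CoprodI
open scoped Classical

section

variable {ι : Type} {M : ι → Type} [∀ i, Group (M i)] {len : ∀ i, M i → ℕ}
  {c : ∀ i, M i → M i → M i} {D : ℕ}

lemma len_le_lf {x : Monoid.CoprodI M} {p : Σ i, M i} (hp : p ∈ lt x) : len p.1 p.2 ≤ lf len x :=
  List.single_le_sum (fun _ _ => Nat.zero_le _) _ (List.mem_map.2 ⟨p, hp, rfl⟩)

lemma length_le_lf (hD : ∀ i, CentD (M i) (len i) (c i) D) (x : Monoid.CoprodI M) :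
    (lt x).length ≤ lf len x := by
  unfold lf
  have h : ∀ l : List (Σ i, M i), (∀ p ∈ l, p.2 ≠ 1) →
      l.length ≤ (l.map (fun p => len p.1 p.2)).sum := by
    intro l
    induction l with
    | nil => simp
    | cons a l ih =>
      intro hl
      have h1 := (hD a.1).pos a.2 (hl a List.mem_cons_self)
      have h2 := ih fun p hp => hl p (List.mem_cons_of_mem _ hp)
      simp only [List.length_cons, List.map_cons, List.sum_cons]
      omega
  exact h _ (red_lt x).1

lemma card_bound (n D : ℕ) : (n + 1) + (n + 1) * (n + 2) ^ D ≤ (n + 2) ^ (D + 2) := by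
  have h1 : 1 ≤ (n + 2) ^ D := Nat.one_le_pow _ _ (by omega)
  calc (n + 1) + (n + 1) * (n + 2) ^ D ≤ (n + 1) * (n + 2) ^ D + (n + 1) * (n + 2) ^ D := by
        nlinarith
    _ = (n + 2) ^ D * (2 * (n + 1)) := by ring
    _ ≤ (n + 2) ^ D * (n + 2) ^ 2 := Nat.mul_le_mul_left _ (by nlinarith)
    _ = (n + 2) ^ (D + 2) := by rw [← pow_add]

lemma red_join {U W : List (Σ i, M i)} (hU : Red U) (hW : Red W)
    (h : ∀ p ∈ U.head?, ∀ q ∈ W.head?, p.1 ≠ q.1) : Red (il U ++ W) := by
  have hI := red_il hU
  refine ⟨fun p hp => ?_, ?_⟩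
  · rcases List.mem_append.1 hp with hp | hp
    · exact hI.1 p hp
    · exact hW.1 p hp
  · rw [List.isChain_append]
    refine ⟨hI.2, hW.2, ?_⟩
    intro p hp q hq
    rw [il, List.getLast?_reverse, List.head?_map] at hp
    cases hU' : U.head? with
    | none => rw [hU'] at hp; simp at hp
    | some r =>
      rw [hU'] at hp
      simp only [Option.map_some, Option.mem_def, Option.some.injEq] at hp
      rw [← hp]
      exact h r (by rw [hU']; simp) q hq

lemma red_right {A U : List (Σ i, M i)} (h : Red (A ++ U)) : Red U :=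
  ⟨fun p hp => h.1 p (List.mem_append_right _ hp), (List.isChain_append.1 h.2).2.1⟩

theorem cf_c3 (hD : ∀ i, CentD (M i) (len i) (c i) D) (v : Monoid.CoprodI M) (n : ℕ) :
    ∃ T : Finset (Monoid.CoprodI M), T.card ≤ (n + 2) ^ (D + 2) ∧
      ∀ u, lf len u ≤ n → u⁻¹ * cf c u (u * v) ∈ T := by
  choose T3 hT3 hm3 using fun (i : ι) (s : M i) => (hD i).c3 s n
  let V := lt v
  let B : ℕ → Finset (Monoid.CoprodI M) := fun k =>
    match V[k]? with
    | some p => (T3 p.1 p.2).image (fun y => lp (V.take k) * Monoid.CoprodI.of y)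
    | none => ∅
  have hB : ∀ k, (B k).card ≤ (n + 2) ^ D := by
    intro k
    simp only [B]
    cases h : V[k]? with
    | none => simp
    | some p => exact Finset.card_image_le.trans (hT3 p.1 p.2)
  refine ⟨(Finset.range (n + 1)).image (fun k => lp (V.take k)) ∪ (Finset.range (n + 1)).biUnion B,
    ?_, ?_⟩
  · refine (Finset.card_union_le _ _).trans (le_trans ?_ (card_bound n D))
    refine Nat.add_le_add ?_ ?_
    · exact Finset.card_image_le.trans (by simp)
    · refine (Finset.card_biUnion_le).trans ?_
      refine (Finset.sum_le_sum fun k _ => hB k).trans ?_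
      simp
  · intro u hu
    have hlen := (length_le_lf hD u).trans hu
    have hRU := red_lt u
    have hRW := red_lt (u * v)
    rcases cl_spec c (lt u) (lt (u * v)) with ⟨A, U₂, W₂, h1, h2, h3, h4⟩ |
      ⟨A, U₂, W₂, i, x, t, h0, h1, h2, h3⟩
    · have hu1 : u = lp A * lp U₂ := by rw [← lp_append, ← h1, lp_lt]
      have hw1 : u * v = lp A * lp W₂ := by rw [← lp_append, ← h2, lp_lt]
      rw [h1] at hRU hlen
      rw [h2] at hRW
      have hV : V = il U₂ ++ W₂ := by
        have h5 := lt_lp (red_join (red_right hRU) (red_right hRW) h4)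
        rw [← h5, lp_append, lp_il]
        show lt v = _
        congr 1
        have h6 : v = u⁻¹ * (u * v) := by group
        rw [h6, hw1, hu1]
        group
      have h7 : u⁻¹ * cf c u (u * v) = lp (V.take U₂.length) := by
        rw [hV, List.take_left' (length_il U₂), lp_il, cf, h3, hu1]
        group
      rw [h7, Finset.mem_union]
      left
      refine Finset.mem_image.2 ⟨U₂.length, ?_, rfl⟩
      rw [Finset.mem_range]
      rw [List.length_append] at hlen
      omega
    · have hu1 : u = lp A * (Monoid.CoprodI.of x * lp U₂) := by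
        rw [← lp_cons ⟨i, x⟩, ← lp_append, ← h1, lp_lt]
      have hw1 : u * v = lp A * (Monoid.CoprodI.of t * lp W₂) := by
        rw [← lp_cons ⟨i, t⟩, ← lp_append, ← h2, lp_lt]
      have hx : len i x ≤ n := by
        refine (len_le_lf (len := len) (x := u) (p := ⟨i, x⟩) ?_).trans hu
        rw [h1]
        simp
      rw [h1] at hRU hlen
      rw [h2] at hRW
      have hU' := red_right hRU
      have hW' := red_right hRW
      have hU2 : Red U₂ := red_right (A := [⟨i, x⟩]) hU'
      have hxt : x⁻¹ * t ≠ 1 := by
        intro h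
        exact h0 (inv_mul_eq_one.1 h)
      have hW3 : Red (⟨i, x⁻¹ * t⟩ :: W₂ : List (Σ i, M i)) := by
        refine ⟨?_, ?_⟩
        · intro p hp
          rcases List.mem_cons.1 hp with rfl | hp
          · exact hxt
          · exact hW'.1 p (List.mem_cons_of_mem _ hp)
        · have h5 := hW'.2
          rw [List.isChain_cons] at h5 ⊢
          exact h5
      have hV : V = il U₂ ++ ⟨i, x⁻¹ * t⟩ :: W₂ := by
        have h5 := lt_lp (red_join hU2 hW3 (by
          intro p hp q hq
          simp only [List.head?_cons, Option.mem_def, Option.some.injEq] at hq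
          rw [← hq]
          have h6 := hU'.2
          rw [List.isChain_cons] at h6
          exact (h6.1 p hp).symm))
        rw [← h5, lp_append, lp_il, lp_cons]
        show lt v = _
        congr 1
        have h6 : v = u⁻¹ * (u * v) := by group
        rw [h6, hw1, hu1]
        simp only [map_mul, map_inv]
        group
      have hk : V[U₂.length]? = some ⟨i, x⁻¹ * t⟩ := by
        rw [hV, List.getElem?_append_right (by rw [length_il]), length_il]
        simp
      have h7 : u⁻¹ * cf c u (u * v) = lp (V.take U₂.length) * Monoid.CoprodI.of (x⁻¹ * c i x t) := by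
        rw [hV, List.take_left' (length_il U₂), lp_il, cf, h3, hu1, lp_append, lp_cons, lp_nil]
        simp only [map_mul, map_inv]
        group
      rw [h7, Finset.mem_union]
      right
      refine Finset.mem_biUnion.2 ⟨U₂.length, ?_, ?_⟩
      · rw [Finset.mem_range]
        rw [List.length_append, List.length_cons] at hlen
        omega
      · simp only [B, hk]
        refine Finset.mem_image.2 ⟨x⁻¹ * c i x t, ?_, rfl⟩
        have h8 := hm3 i (x⁻¹ * t) x hx
        rwa [mul_inv_cancel_left] at h8

end

end Pool.Agent.RDL
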