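import Pool.Agent.RDL.Defs

/-!
# Centroids of polynomial growth give property RD
-/

set_option autoImplicit false

namespace Pool.Agent.RDL

open Finset

section CentRD

variable {G : Type} [Group G]

/-- the convolution by a function supported on a ball -/
theorem cent_core {len : G → ℕ} {c : G → G → G} {D : ℕ} (h : CentD G len c D) (n : ℕ) (A T : Finset G)
    (hA : ∀ u ∈ A, len u ≤ n) (f : G → ℝ) (g : G →₀ ℝ) :
    ∑ w ∈ T, (∑ u ∈ A, f u * g (u⁻¹ * w)) ^ 2 ≤
      (((n : ℝ) + 2) ^ D) ^ 3 * (∑ u ∈ A, f u ^ 2) * g.sum (fun _ a => a ^ 2) := by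
  classical
  choose T1 hT1 hm1 using h.c1
  choose T2 hT2 hm2 using fun w => h.c2 w n
  choose T3 hT3 hm3 using fun v => h.c3 v n
  set K : ℝ := ((n : ℝ) + 2) ^ D with hK
  have hK0 : 0 ≤ K := by positivity
  have c1 : ∀ u ∈ A, ((T1 u).card : ℝ) ≤ K := by
    intro u hu
    have h1 : (T1 u).card ≤ (n + 2) ^ D :=
      (hT1 u).trans (Nat.pow_le_pow_left (by have := hA u hu; omega) D)
    calc ((T1 u).card : ℝ) ≤ (((n + 2) ^ D : ℕ) : ℝ) := by exact_mod_cast h1
      _ = K := by push_cast; rfl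
  have c2 : ∀ w, ((T2 w).card : ℝ) ≤ K := by
    intro w
    calc ((T2 w).card : ℝ) ≤ (((n + 2) ^ D : ℕ) : ℝ) := by exact_mod_cast hT2 w
      _ = K := by push_cast; rfl
  have c3 : ∀ v, ((T3 v).card : ℝ) ≤ K := by
    intro v
    calc ((T3 v).card : ℝ) ≤ (((n + 2) ^ D : ℕ) : ℝ) := by exact_mod_cast hT3 v
      _ = K := by push_cast; rfl
  -- the two marginals
  set Φ : G → ℝ := fun a => ∑ u ∈ A with a ∈ T1 u, f u ^ 2 with hΦ
  set Γ : G → ℝ := fun q => ∑ v ∈ g.support with v * q⁻¹ ∈ T3 v, g v ^ 2 with hΓ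
  have hΦ0 : ∀ a, 0 ≤ Φ a := fun a => Finset.sum_nonneg fun u _ => sq_nonneg _
  have hΓ0 : ∀ a, 0 ≤ Γ a := fun a => Finset.sum_nonneg fun u _ => sq_nonneg _
  -- the pointwise bound
  have hpt : ∀ w, (∑ u ∈ A, f u * g (u⁻¹ * w)) ^ 2 ≤ K * ∑ a ∈ T2 w, Φ a * Γ (a⁻¹ * w) := by
    intro w
    have hfib : ∑ u ∈ A, f u * g (u⁻¹ * w) = ∑ a ∈ T2 w, ∑ u ∈ A with c u w = a, f u * g (u⁻¹ * w) := by
      exact (Finset.sum_fiberwise_of_maps_to (g := fun u => c u w)
        (fun u hu => hm2 w u (hA u hu)) (fun u => f u * g (u⁻¹ * w))).symm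
    rw [hfib]
    have hcs := sq_sum_le_card_mul_sum_sq (s := T2 w)
      (f := fun a => ∑ u ∈ A with c u w = a, f u * g (u⁻¹ * w))
    refine hcs.trans ?_
    have hs0 : 0 ≤ ∑ a ∈ T2 w, (∑ u ∈ A with c u w = a, f u * g (u⁻¹ * w)) ^ 2 :=
      Finset.sum_nonneg fun _ _ => sq_nonneg _
    refine (mul_le_mul_of_nonneg_right (c2 w) hs0).trans ?_
    refine mul_le_mul_of_nonneg_left ?_ hK0
    refine Finset.sum_le_sum fun a _ => ?_
    refine (Finset.sum_mul_sq_le_sq_mul_sq _ _ _).trans ?_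
    refine mul_le_mul ?_ ?_ (Finset.sum_nonneg fun _ _ => sq_nonneg _) (hΦ0 a)
    · refine Finset.sum_le_sum_of_subset_of_nonneg ?_ fun _ _ _ => sq_nonneg _
      intro u hu
      rw [Finset.mem_filter] at hu ⊢
      exact ⟨hu.1, hu.2 ▸ hm1 u w⟩
    · have hinj : Set.InjOn (fun u => u⁻¹ * w) (↑(A.filter (fun u => c u w = a)) : Set G) := by
        intro u _ u' _ huu
        simpa using huu
      have h1 : ∑ u ∈ A with c u w = a, g (u⁻¹ * w) ^ 2 =
          ∑ v ∈ (A.filter (fun u => c u w = a)).image (fun u => u⁻¹ * w), g v ^ 2 :=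
        (Finset.sum_image (f := fun v => g v ^ 2) hinj).symm
      rw [h1]
      have h2 : ∑ v ∈ (A.filter (fun u => c u w = a)).image (fun u => u⁻¹ * w), g v ^ 2 =
          ∑ v ∈ ((A.filter (fun u => c u w = a)).image (fun u => u⁻¹ * w)).filter (fun v => v ∈ g.support),
            g v ^ 2 := by
        rw [Finset.sum_filter]
        refine Finset.sum_congr rfl fun v _ => ?_
        split_ifs with hv
        · rfl
        · rw [Finsupp.notMem_support_iff] at hv
          rw [hv]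
          norm_num
      rw [h2]
      refine Finset.sum_le_sum_of_subset_of_nonneg ?_ fun _ _ _ => sq_nonneg _
      intro v hv
      rw [Finset.mem_filter, Finset.mem_image] at hv
      obtain ⟨⟨u, hu, rfl⟩, hv⟩ := hv
      rw [Finset.mem_filter] at hu ⊢
      refine ⟨hv, ?_⟩
      have h3 := hm3 (u⁻¹ * w) u (hA u hu.1)
      have h4 : u * (u⁻¹ * w) = w := by group
      rw [h4, hu.2] at h3
      have h5 : u⁻¹ * w * (a⁻¹ * w)⁻¹ = u⁻¹ * a := by group
      rw [h5]
      exact h3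
  -- the sum over the centroids
  have hΦs : ∀ 𝒜 : Finset G, ∑ a ∈ 𝒜, Φ a ≤ K * ∑ u ∈ A, f u ^ 2 := by
    intro 𝒜
    have h1 : ∑ a ∈ 𝒜, Φ a = ∑ u ∈ A, ∑ a ∈ 𝒜, if a ∈ T1 u then f u ^ 2 else 0 := by
      rw [Finset.sum_comm]
      refine Finset.sum_congr rfl fun a _ => ?_
      rw [hΦ]
      simp only [Finset.sum_filter]
    rw [h1, Finset.mul_sum]
    refine Finset.sum_le_sum fun u hu => ?_
    rw [← Finset.sum_filter, Finset.sum_const, nsmul_eq_mul]
    refine mul_le_mul_of_nonneg_right ?_ (sq_nonneg _)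
    refine le_trans ?_ (c1 u hu)
    have : (𝒜.filter (fun a => a ∈ T1 u)).card ≤ (T1 u).card := by
      refine Finset.card_le_card ?_
      intro a ha
      exact (Finset.mem_filter.1 ha).2
    exact_mod_cast this
  have hΓs : ∀ a : G, ∑ w ∈ T, Γ (a⁻¹ * w) ≤ K * g.sum (fun _ b => b ^ 2) := by
    intro a
    have h1 : ∑ w ∈ T, Γ (a⁻¹ * w) =
        ∑ v ∈ g.support, ∑ w ∈ T, if v * (a⁻¹ * w)⁻¹ ∈ T3 v then g v ^ 2 else 0 := by
      rw [Finset.sum_comm]
      refine Finset.sum_congr rfl fun w _ => ?_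
      rw [hΓ]
      simp only [Finset.sum_filter]
    rw [h1, Finsupp.sum, Finset.mul_sum]
    refine Finset.sum_le_sum fun v _ => ?_
    rw [← Finset.sum_filter, Finset.sum_const, nsmul_eq_mul]
    refine mul_le_mul_of_nonneg_right ?_ (sq_nonneg _)
    refine le_trans ?_ (c3 v)
    have : (T.filter (fun w => v * (a⁻¹ * w)⁻¹ ∈ T3 v)).card ≤ (T3 v).card := by
      refine Finset.card_le_card_of_injOn (fun w => v * (a⁻¹ * w)⁻¹) ?_ ?_
      · intro w hw
        exact (Finset.mem_filter.1 (Finset.mem_coe.1 hw)).2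
      · intro w _ w' _ hww
        simpa using hww
    exact_mod_cast this
  have hgs0 : 0 ≤ g.sum (fun _ b => b ^ 2) := Finset.sum_nonneg fun _ _ => sq_nonneg _
  calc ∑ w ∈ T, (∑ u ∈ A, f u * g (u⁻¹ * w)) ^ 2
      ≤ ∑ w ∈ T, K * ∑ a ∈ T2 w, Φ a * Γ (a⁻¹ * w) := Finset.sum_le_sum fun w _ => hpt w
    _ ≤ ∑ w ∈ T, K * ∑ a ∈ T.biUnion T2, Φ a * Γ (a⁻¹ * w) := by
        refine Finset.sum_le_sum fun w hw => mul_le_mul_of_nonneg_left ?_ hK0
        exact Finset.sum_le_sum_of_subset_of_nonneg (Finset.subset_biUnion_of_mem T2 hw)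
          fun a _ _ => mul_nonneg (hΦ0 a) (hΓ0 _)
    _ = K * ∑ a ∈ T.biUnion T2, Φ a * ∑ w ∈ T, Γ (a⁻¹ * w) := by
        rw [← Finset.mul_sum, Finset.sum_comm]
        congr 1
        refine Finset.sum_congr rfl fun a _ => ?_
        rw [Finset.mul_sum]
    _ ≤ K * ∑ a ∈ T.biUnion T2, Φ a * (K * g.sum (fun _ b => b ^ 2)) := by
        refine mul_le_mul_of_nonneg_left ?_ hK0
        exact Finset.sum_le_sum fun a _ => mul_le_mul_of_nonneg_left (hΓs a) (hΦ0 a)
    _ = K * ((∑ a ∈ T.biUnion T2, Φ a) * (K * g.sum (fun _ b => b ^ 2))) := by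
        rw [Finset.sum_mul]
    _ ≤ K * ((K * ∑ u ∈ A, f u ^ 2) * (K * g.sum (fun _ b => b ^ 2))) := by
        refine mul_le_mul_of_nonneg_left ?_ hK0
        exact mul_le_mul_of_nonneg_right (hΦs _) (mul_nonneg hK0 hgs0)
    _ = K ^ 3 * (∑ u ∈ A, f u ^ 2) * g.sum (fun _ a => a ^ 2) := by ring

theorem sum_inv_sq_le (N : ℕ) : ∑ n ∈ Finset.range N, (1 / ((n : ℝ) + 1)) ^ 2 ≤ 2 - 1 / (N : ℝ) := by
  induction N with
  | zero => simp
  | succ N ih =>
    rw [Finset.sum_range_succ]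
    rcases Nat.eq_zero_or_pos N with rfl | hN
    · norm_num
    · have hN' : (0 : ℝ) < N := by exact_mod_cast hN
      have h1 : (1 / ((N : ℝ) + 1)) ^ 2 ≤ 1 / (N : ℝ) - 1 / ((N : ℝ) + 1) := by
        rw [div_sub_div _ _ hN'.ne' (by positivity), div_pow, div_le_div_iff₀ (by positivity) (by positivity)]
        nlinarith
      push_cast
      linarith

/-- the inequality with the length of the centroids -/
theorem cent_len {len : G → ℕ} {c : G → G → G} {D : ℕ} (h : CentD G len c D) (f g : G →₀ ℝ) (T : Finset G) :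
    ∑ x ∈ T, (f.sum (fun y a => a * g (y⁻¹ * x))) ^ 2 ≤
      2 * (f.sum (fun x a => a ^ 2 * ((len x : ℝ) + 2) ^ (3 * D + 2))) * g.sum (fun _ a => a ^ 2) := by
  classical
  set N : ℕ := f.support.sup len + 1 with hN
  have hmem : ∀ u ∈ f.support, len u ∈ Finset.range N := by
    intro u hu
    rw [Finset.mem_range, hN]
    exact Nat.lt_succ_of_le (Finset.le_sup (f := len) hu)
  have hg0 : 0 ≤ g.sum (fun _ a => a ^ 2) := Finset.sum_nonneg fun _ _ => sq_nonneg _
  have hfib : ∀ x, f.sum (fun y a => a * g (y⁻¹ * x)) =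
      ∑ n ∈ Finset.range N, ∑ u ∈ f.support with len u = n, f u * g (u⁻¹ * x) := by
    intro x
    rw [Finset.sum_fiberwise_of_maps_to hmem]
    rfl
  have hcs : ∀ x, (f.sum (fun y a => a * g (y⁻¹ * x))) ^ 2 ≤
      2 * ∑ n ∈ Finset.range N, (((n : ℝ) + 1) * ∑ u ∈ f.support with len u = n, f u * g (u⁻¹ * x)) ^ 2 := by
    intro x
    rw [hfib x]
    have h1 := Finset.sum_mul_sq_le_sq_mul_sq (Finset.range N) (fun n : ℕ => 1 / ((n : ℝ) + 1))
      (fun n => ((n : ℝ) + 1) * ∑ u ∈ f.support with len u = n, f u * g (u⁻¹ * x))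
    have h2 : ∑ n ∈ Finset.range N, 1 / ((n : ℝ) + 1) *
        (((n : ℝ) + 1) * ∑ u ∈ f.support with len u = n, f u * g (u⁻¹ * x)) =
        ∑ n ∈ Finset.range N, ∑ u ∈ f.support with len u = n, f u * g (u⁻¹ * x) := by
      refine Finset.sum_congr rfl fun n _ => ?_
      have : ((n : ℝ) + 1) ≠ 0 := by positivity
      field_simp
    rw [h2] at h1
    refine h1.trans (mul_le_mul_of_nonneg_right ?_ (Finset.sum_nonneg fun _ _ => sq_nonneg _))
    refine (sum_inv_sq_le N).trans ?_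
    have : (0 : ℝ) ≤ 1 / (N : ℝ) := by positivity
    linarith
  calc ∑ x ∈ T, (f.sum (fun y a => a * g (y⁻¹ * x))) ^ 2
      ≤ ∑ x ∈ T, 2 * ∑ n ∈ Finset.range N,
          (((n : ℝ) + 1) * ∑ u ∈ f.support with len u = n, f u * g (u⁻¹ * x)) ^ 2 :=
        Finset.sum_le_sum fun x _ => hcs x
    _ = 2 * ∑ n ∈ Finset.range N, ((n : ℝ) + 1) ^ 2 *
          ∑ x ∈ T, (∑ u ∈ f.support with len u = n, f u * g (u⁻¹ * x)) ^ 2 := by
        rw [← Finset.mul_sum, Finset.sum_comm]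
        congr 1
        refine Finset.sum_congr rfl fun n _ => ?_
        rw [Finset.mul_sum]
        refine Finset.sum_congr rfl fun x _ => ?_
        rw [mul_pow]
    _ ≤ 2 * ∑ n ∈ Finset.range N, ((n : ℝ) + 1) ^ 2 *
          ((((n : ℝ) + 2) ^ D) ^ 3 * (∑ u ∈ f.support with len u = n, f u ^ 2) * g.sum (fun _ a => a ^ 2)) := by
        refine mul_le_mul_of_nonneg_left ?_ (by norm_num)
        refine Finset.sum_le_sum fun n _ => mul_le_mul_of_nonneg_left ?_ (by positivity)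
        refine cent_core h n _ T ?_ f g
        intro u hu
        exact (Finset.mem_filter.1 hu).2.le
    _ ≤ 2 * ∑ n ∈ Finset.range N,
          (∑ u ∈ f.support with len u = n, f u ^ 2 * ((len u : ℝ) + 2) ^ (3 * D + 2)) *
            g.sum (fun _ a => a ^ 2) := by
        refine mul_le_mul_of_nonneg_left ?_ (by norm_num)
        refine Finset.sum_le_sum fun n _ => ?_
        have h1 : ∑ u ∈ f.support with len u = n, f u ^ 2 * ((len u : ℝ) + 2) ^ (3 * D + 2) =
            ((n : ℝ) + 2) ^ (3 * D + 2) * ∑ u ∈ f.support with len u = n, f u ^ 2 := by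
          rw [Finset.mul_sum]
          refine Finset.sum_congr rfl fun u hu => ?_
          rw [(Finset.mem_filter.1 hu).2, mul_comm]
        rw [h1]
        have hs0 : 0 ≤ ∑ u ∈ f.support with len u = n, f u ^ 2 := Finset.sum_nonneg fun _ _ => sq_nonneg _
        have h2 : ((n : ℝ) + 1) ^ 2 * (((n : ℝ) + 2) ^ D) ^ 3 ≤ ((n : ℝ) + 2) ^ (3 * D + 2) := by
          have h3 : ((n : ℝ) + 2) ^ (3 * D + 2) = ((n : ℝ) + 2) ^ 2 * (((n : ℝ) + 2) ^ D) ^ 3 := by
            rw [← pow_mul, ← pow_add]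
            congr 1
            ring
          rw [h3]
          refine mul_le_mul_of_nonneg_right ?_ (by positivity)
          exact pow_le_pow_left₀ (by positivity) (by linarith) 2
        calc ((n : ℝ) + 1) ^ 2 * ((((n : ℝ) + 2) ^ D) ^ 3 *
              (∑ u ∈ f.support with len u = n, f u ^ 2) * g.sum (fun _ a => a ^ 2))
            = (((n : ℝ) + 1) ^ 2 * (((n : ℝ) + 2) ^ D) ^ 3) *
                ((∑ u ∈ f.support with len u = n, f u ^ 2) * g.sum (fun _ a => a ^ 2)) := by ring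
          _ ≤ ((n : ℝ) + 2) ^ (3 * D + 2) *
                ((∑ u ∈ f.support with len u = n, f u ^ 2) * g.sum (fun _ a => a ^ 2)) :=
              mul_le_mul_of_nonneg_right h2 (mul_nonneg hs0 hg0)
          _ = _ := by ring
    _ = 2 * (f.sum (fun x a => a ^ 2 * ((len x : ℝ) + 2) ^ (3 * D + 2))) * g.sum (fun _ a => a ^ 2) := by
        rw [← Finset.sum_mul, Finset.sum_fiberwise_of_maps_to hmem]
        rw [mul_assoc]
        rfl

/-- the length of the centroids is at most linear in the word length -/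
theorem len_le_wl {len : G → ℕ} {c : G → G → G} {D : ℕ} (h : CentD G len c D) {S : Finset G}
    (hS : Subgroup.closure (S : Set G) = ⊤) (x : G) : len x ≤ S.sup len * wl S x := by
  have hne : {n : ℕ | ∃ l : List G, l.length = n ∧ (∀ y ∈ l, y ∈ S ∨ y⁻¹ ∈ S) ∧ l.prod = x}.Nonempty := by
    have hx : x ∈ (Subgroup.closure (S : Set G)).toSubmonoid := by rw [hS]; trivial
    rw [Subgroup.closure_toSubmonoid] at hx
    obtain ⟨l, hl, hp⟩ := Submonoid.exists_list_of_mem_closure hx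
    exact ⟨l.length, l, rfl, fun y hy => by simpa using hl y hy, hp⟩
  obtain ⟨l, hl, hy, hp⟩ := Nat.sInf_mem hne
  have key : ∀ l : List G, (∀ y ∈ l, y ∈ S ∨ y⁻¹ ∈ S) → len l.prod ≤ S.sup len * l.length := by
    intro l
    induction l with
    | nil => intro _; simp [h.one]
    | cons a l ih =>
      intro hl
      have h1 : len a ≤ S.sup len := by
        rcases hl a List.mem_cons_self with h1 | h1
        · exact Finset.le_sup (f := len) h1
        · rw [← h.inv a]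
          exact Finset.le_sup (f := len) h1
      have h2 := ih (fun y hy => hl y (List.mem_cons_of_mem _ hy))
      rw [List.prod_cons, List.length_cons]
      calc len (a * l.prod) ≤ len a + len l.prod := h.mul _ _
        _ ≤ S.sup len + S.sup len * l.length := add_le_add h1 h2
        _ = S.sup len * (l.length + 1) := by ring
  have h1 := key l hy
  rw [hp, hl] at h1
  exact h1

/-- centroids give property RD -/
theorem cent_rd (h : Cent G) : RDp G := by
  obtain ⟨⟨len, c, D, hc⟩, S, hS⟩ := h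
  refine ⟨S, hS, 2 * (((S.sup len : ℕ) : ℝ) + 2) ^ (3 * D + 2), 3 * D + 2, ?_⟩
  intro f g T
  have hg0 : 0 ≤ g.sum (fun _ a => a ^ 2) := Finset.sum_nonneg fun _ _ => sq_nonneg _
  refine (cent_len hc f g T).trans ?_
  refine mul_le_mul_of_nonneg_right ?_ hg0
  rw [mul_assoc]
  refine mul_le_mul_of_nonneg_left ?_ (by norm_num)
  rw [Finsupp.mul_sum]
  refine Finset.sum_le_sum fun x _ => ?_
  have h1 : (len x : ℝ) ≤ ((S.sup len : ℕ) : ℝ) * (wl S x : ℝ) := by exact_mod_cast len_le_wl hc hS x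
  have hw : (0 : ℝ) ≤ (wl S x : ℝ) := Nat.cast_nonneg _
  have hs : (0 : ℝ) ≤ ((S.sup len : ℕ) : ℝ) := Nat.cast_nonneg _
  have h2 : (len x : ℝ) + 2 ≤ (((S.sup len : ℕ) : ℝ) + 2) * (1 + (wl S x : ℝ)) := by nlinarith
  have h3 : ((len x : ℝ) + 2) ^ (3 * D + 2) ≤
      (((S.sup len : ℕ) : ℝ) + 2) ^ (3 * D + 2) * (1 + (wl S x : ℝ)) ^ (2 * (3 * D + 2)) := by
    calc ((len x : ℝ) + 2) ^ (3 * D + 2) ≤ ((((S.sup len : ℕ) : ℝ) + 2) * (1 + (wl S x : ℝ))) ^ (3 * D + 2) :=
          pow_le_pow_left₀ (by positivity) h2 _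
      _ = (((S.sup len : ℕ) : ℝ) + 2) ^ (3 * D + 2) * (1 + (wl S x : ℝ)) ^ (3 * D + 2) := mul_pow _ _ _
      _ ≤ (((S.sup len : ℕ) : ℝ) + 2) ^ (3 * D + 2) * (1 + (wl S x : ℝ)) ^ (2 * (3 * D + 2)) := by
          refine mul_le_mul_of_nonneg_left ?_ (by positivity)
          exact pow_le_pow_right₀ (by linarith) (by omega)
  calc f x ^ 2 * ((len x : ℝ) + 2) ^ (3 * D + 2)
      ≤ f x ^ 2 * ((((S.sup len : ℕ) : ℝ) + 2) ^ (3 * D + 2) * (1 + (wl S x : ℝ)) ^ (2 * (3 * D + 2))) :=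
        mul_le_mul_of_nonneg_left h3 (sq_nonneg _)
    _ = (((S.sup len : ℕ) : ℝ) + 2) ^ (3 * D + 2) * (f x ^ 2 * (1 + (wl S x : ℝ)) ^ (2 * (3 * D + 2))) := by ring

end CentRD

end Pool.Agent.RDL
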