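import Pool.Agent.RDL.Defs

/-!
# Comparison with positive solutions of the first passage equations
-/

set_option autoImplicit false

namespace Pool.Agent.RDL

open Finset Filter Topology

namespace Compare

variable {G : Type} [Group G] {ν : G →₀ ℝ}

lemma cv_add (h h' : G → ℝ) (x : G) : cv ν (fun y => h y + h' y) x = cv ν h x + cv ν h' x := by
  unfold cv
  rw [← Finsupp.sum_add]
  refine Finsupp.sum_congr fun y _ => ?_
  ring

lemma cv_smul (c : ℝ) (h : G → ℝ) (x : G) : cv ν (fun y => c * h y) x = c * cv ν h x := by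
  unfold cv
  rw [Finsupp.mul_sum]
  refine Finsupp.sum_congr fun y _ => ?_
  ring

lemma cv_mono (hν : SP ν) {h h' : G → ℝ} (hh : ∀ x, h x ≤ h' x) (x : G) : cv ν h x ≤ cv ν h' x :=
  Finset.sum_le_sum fun y _ => mul_le_mul_of_nonneg_left (hh _) (hν.nonneg y)

lemma cv_nonneg (hν : SP ν) {h : G → ℝ} (hh : ∀ x, 0 ≤ h x) (x : G) : 0 ≤ cv ν h x :=
  Finset.sum_nonneg fun y _ => mul_nonneg (hν.nonneg y) (hh _)

lemma dl_one : (dl : G → ℝ) 1 = 1 := Set.indicator_of_mem (Set.mem_singleton 1) _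

lemma dl_ne {x : G} (hx : x ≠ 1) : (dl : G → ℝ) x = 0 := by
  unfold dl
  exact Set.indicator_of_notMem (fun h => hx (Set.mem_singleton_iff.1 h)) _

lemma pw_succ (n : ℕ) : pw ν (n + 1) = cv ν (pw ν n) := Function.iterate_succ_apply' _ _ _

lemma pw_zero : pw ν 0 = dl := rfl

lemma pw_nonneg' (hν : SP ν) (n : ℕ) (x : G) : 0 ≤ pw ν n x := by
  induction n generalizing x with
  | zero =>
    rw [pw_zero]
    exact Set.indicator_nonneg (fun _ _ => zero_le_one) x
  | succ n ih =>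
    rw [pw_succ]
    exact cv_nonneg hν ih x

/-- the equation `f - z P f = κ δ` -/
lemma eq_dl {z κ : ℝ} {f : G → ℝ} (hf1 : f 1 = 1) (hf : ∀ x ≠ 1, z * cv ν f x = f x)
    (hfe : z * cv ν f 1 = 1 - κ) (x : G) : f x = z * cv ν f x + κ * dl x := by
  by_cases hx : x = 1
  · subst hx
    rw [hfe, hf1, dl_one]
    ring
  · rw [hf x hx, dl_ne hx]
    ring

/-- the partial sums of the Green function -/
noncomputable def gs (ν : G →₀ ℝ) (z : ℝ) (N : ℕ) (x : G) : ℝ := ∑ n ∈ Finset.range N, pw ν n x * z ^ n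

lemma gs_succ (z : ℝ) (N : ℕ) (x : G) : gs ν z (N + 1) x = dl x + z * cv ν (gs ν z N) x := by
  induction N generalizing x with
  | zero =>
    have h0 : gs ν z 0 = fun _ : G => (0 : ℝ) := by
      funext y
      simp [gs]
    rw [h0]
    simp [gs, pw_zero, cv]
  | succ N ih =>
    have h1 : gs ν z (N + 1 + 1) x = gs ν z (N + 1) x + pw ν (N + 1) x * z ^ (N + 1) := by
      unfold gs
      rw [Finset.sum_range_succ]
    have h2 : gs ν z (N + 1) = fun y => gs ν z N y + z ^ N * pw ν N y := by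
      funext y
      unfold gs
      rw [Finset.sum_range_succ]
      ring
    rw [h1, ih x, pw_succ]
    conv_rhs => rw [h2, cv_add, cv_smul]
    ring

/-- the iterates of `z P` -/
noncomputable def it (ν : G →₀ ℝ) (z : ℝ) (f : G → ℝ) (N : ℕ) (x : G) : ℝ := z ^ N * ((cv ν)^[N] f) x

lemma it_succ (z : ℝ) (f : G → ℝ) (N : ℕ) (x : G) : it ν z f (N + 1) x = z * cv ν (it ν z f N) x := by
  have h1 : it ν z f N = fun y => z ^ N * ((cv ν)^[N] f) y := rfl
  rw [h1, cv_smul]
  unfold it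
  rw [Function.iterate_succ_apply']
  ring

/-- the exact expansion `f = κ ∑_{n < N} z^n P^n δ + z^N P^N f` -/
lemma expand {z κ : ℝ} {f : G → ℝ} (hf1 : f 1 = 1) (hf : ∀ x ≠ 1, z * cv ν f x = f x)
    (hfe : z * cv ν f 1 = 1 - κ) (N : ℕ) (x : G) : f x = κ * gs ν z N x + it ν z f N x := by
  induction N generalizing x with
  | zero => simp [gs, it]
  | succ N ih =>
    rw [eq_dl hf1 hf hfe x, gs_succ, it_succ]
    have h1 : f = fun y => κ * gs ν z N y + it ν z f N y := funext ih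
    conv_lhs => rw [h1]
    rw [cv_add, cv_smul]
    ring

lemma it_nonneg (hν : SP ν) {z : ℝ} (hz : 0 ≤ z) {f : G → ℝ} (hf0 : ∀ x, 0 ≤ f x) (N : ℕ) (x : G) :
    0 ≤ it ν z f N x := by
  induction N generalizing x with
  | zero => simpa [it] using hf0 x
  | succ N ih =>
    rw [it_succ]
    exact mul_nonneg hz (cv_nonneg hν ih x)

lemma it_mono (hν : SP ν) {z : ℝ} (hz : 0 ≤ z) {f g : G → ℝ} (h : ∀ x, f x ≤ g x) (N : ℕ) (x : G) :
    it ν z f N x ≤ it ν z g N x := by
  induction N generalizing x with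
  | zero => simpa [it] using h x
  | succ N ih =>
    rw [it_succ, it_succ]
    exact mul_le_mul_of_nonneg_left (cv_mono hν ih x) hz

lemma gs_nonneg (hν : SP ν) {z : ℝ} (hz : 0 ≤ z) (N : ℕ) (x : G) : 0 ≤ gs ν z N x :=
  Finset.sum_nonneg fun n _ => mul_nonneg (pw_nonneg' hν n x) (pow_nonneg hz n)

lemma gs_one (z : ℝ) (N : ℕ) : gs ν z N 1 = ∑ n ∈ Finset.range N, rt ν n * z ^ n := rfl

end Compare

open Compare

section
variable {G : Type} [Group G]

/-- the Green function at a larger parameter is finite -/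
theorem green_le {ν : G →₀ ℝ} (hν : SP ν) {z κ : ℝ} (hz : 0 < z) (hκ : 0 < κ) {f : G → ℝ} (hf0 : ∀ x, 0 ≤ f x)
    (hf1 : f 1 = 1) (hf : ∀ x ≠ 1, z * cv ν f x = f x) (hfe : z * cv ν f 1 = 1 - κ) :
    Summable (fun n => rt ν n * z ^ n) := by
  refine summable_of_sum_range_le (c := 1 / κ) (fun n => mul_nonneg (pw_nonneg' hν n 1) (pow_nonneg hz.le n)) ?_
  intro N
  rw [← gs_one, le_div_iff₀ hκ]
  have h1 := expand hf1 hf hfe N 1
  have h2 := it_nonneg hν hz.le hf0 N 1
  rw [hf1] at h1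
  linarith

/-- exactness of the Green function -/
theorem green_eq {ν : G →₀ ℝ} (hν : SP ν) {z zc κ κc : ℝ} (hz : 0 < z) (hzc : z < zc) (hκ : 0 < κ) (hκc : 0 < κc)
    {f fc : G → ℝ} (hf0 : ∀ x, 0 ≤ f x)
    (hf1 : f 1 = 1) (hf : ∀ x ≠ 1, z * cv ν f x = f x) (hfe : z * cv ν f 1 = 1 - κ)
    (hfc1 : fc 1 = 1) (hfc : ∀ x ≠ 1, zc * cv ν fc x = fc x) (hfce : zc * cv ν fc 1 = 1 - κc)
    (hle : ∀ x, f x ≤ fc x) : HasSum (fun n => rt ν n * z ^ n) (1 / κ) := by
  have hzc0 : 0 < zc := hz.trans hzc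
  have hs := green_le hν hz hκ hf0 hf1 hf hfe
  -- the remainder tends to zero
  have hb : ∀ N, it ν z f N 1 ≤ (z / zc) ^ N := by
    intro N
    have h1 : it ν z f N 1 ≤ it ν z fc N 1 := it_mono hν hz.le hle N 1
    have h2 : it ν z fc N 1 = (z / zc) ^ N * it ν zc fc N 1 := by
      unfold it
      rw [div_pow]
      field_simp
    have h3 := expand hfc1 hfc hfce N 1
    have h4 := gs_nonneg hν hzc0.le N 1
    rw [hfc1] at h3
    have h5 : it ν zc fc N 1 ≤ 1 := by nlinarith [mul_nonneg hκc.le h4]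
    rw [h2] at h1
    exact h1.trans (mul_le_of_le_one_right (by positivity) h5)
  have hlim : Tendsto (fun N => it ν z f N 1) atTop (𝓝 0) := by
    refine squeeze_zero (fun N => it_nonneg hν hz.le hf0 N 1) hb ?_
    exact tendsto_pow_atTop_nhds_zero_of_lt_one (by positivity) ((div_lt_one hzc0).2 hzc)
  have hsum : Tendsto (fun N => ∑ n ∈ Finset.range N, rt ν n * z ^ n) atTop (𝓝 (1 / κ)) := by
    have h1 : (fun N => ∑ n ∈ Finset.range N, rt ν n * z ^ n) = fun N => (1 - it ν z f N 1) / κ := by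
      funext N
      have h2 := expand hf1 hf hfe N 1
      rw [hf1, gs_one] at h2
      rw [eq_div_iff hκ.ne']
      linarith
    rw [h1]
    have h3 : Tendsto (fun N => (1 - it ν z f N 1) / κ) atTop (𝓝 ((1 - 0) / κ)) :=
      (tendsto_const_nhds.sub hlim).div_const κ
    rwa [sub_zero] at h3
  have h6 := hs.hasSum.tendsto_sum_nat
  rw [tendsto_nhds_unique hsum h6]
  exact hs.hasSum

end

end Pool.Agent.RDL
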