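import Pool.Agent.RDL.Defs

/-!
# The class of corrections
-/

set_option autoImplicit false

namespace Pool.Agent.RDL

/-- the least class of sequences which contains the constant `1` and with `m₁`, `m₂` also the sequence
`1 + ∑_{k ≤ n} 1 / (k √(m₁(k) m₂(k)))` -/
inductive Corr : (ℕ → ℝ) → Prop
  | one : Corr (fun _ => 1)
  | step (m₁ m₂ : ℕ → ℝ) : Corr m₁ → Corr m₂ → Corr (fun n => 1 + mm (fun k => Real.sqrt (m₁ k * m₂ k)) n)

end Pool.Agent.RDL
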