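import Pool.Agent.RDL.Transfer
import Pool.Agent.RDL.CorrDefs

/-!
# The class of corrections: proofs
-/

set_option autoImplicit false

namespace Pool.Agent.RDL

open Finset Filter Topology

/-- harmonic numbers and the logarithm -/
theorem mm_one_ge (N : ℕ) : Real.log (N + 1) ≤ mm (fun _ => 1) N := by
  have h : mm (fun _ => 1) N = (harmonic N : ℝ) := by
    unfold mm
    rw [harmonic_eq_sum_Icc]
    push_cast
    refine Finset.sum_congr rfl fun k _ => ?_
    simp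
  rw [h]
  have := log_add_one_le_harmonic N
  exact_mod_cast this

theorem mm_one_le (N : ℕ) : mm (fun _ => 1) N ≤ 1 + Real.log N := by
  have h : mm (fun _ => 1) N = (harmonic N : ℝ) := by
    unfold mm
    rw [harmonic_eq_sum_Icc]
    push_cast
    refine Finset.sum_congr rfl fun k _ => ?_
    simp
  rw [h]
  exact harmonic_le_one_add_log N

/-- comparison of the sums -/
theorem mm_le_mm {ℓ ℓ' : ℕ → ℝ} (h0 : ∀ n, 1 ≤ n → 0 < ℓ n) (h : ∀ n, 1 ≤ n → ℓ n ≤ ℓ' n) (N : ℕ) :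
    mm ℓ' N ≤ mm ℓ N := by
  unfold mm
  refine Finset.sum_le_sum fun k hk => ?_
  rw [Finset.mem_Icc] at hk
  have h1 : (0 : ℝ) < k := by exact_mod_cast hk.1
  have h2 := h0 k hk.1
  exact one_div_le_one_div_of_le (by positivity) (mul_le_mul_of_nonneg_left (h k hk.1) h1.le)

theorem mm_const_mul {ℓ : ℕ → ℝ} {c : ℝ} (N : ℕ) : mm (fun k => c * ℓ k) N = 1 / c * mm ℓ N := by
  unfold mm
  rw [Finset.mul_sum]
  refine Finset.sum_congr rfl fun k _ => ?_
  rw [one_div_mul_one_div]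
  congr 1
  ring

theorem mm_one_anti {ℓ : ℕ → ℝ} (h0 : ∀ n, 1 ≤ n → 0 < ℓ n) (hm : ∀ m n, 1 ≤ m → m ≤ n → ℓ m ≤ ℓ n) {N : ℕ}
    (hN : 1 ≤ N) : 1 / ℓ N * mm (fun _ => 1) N ≤ mm ℓ N := by
  unfold mm
  rw [Finset.mul_sum]
  refine Finset.sum_le_sum fun k hk => ?_
  rw [Finset.mem_Icc] at hk
  have h1 : (0 : ℝ) < k := by exact_mod_cast hk.1
  have h2 := h0 k hk.1
  have h3 := h0 N hN
  rw [one_div_mul_one_div]
  refine one_div_le_one_div_of_le (by positivity) ?_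
  have := hm k N hk.1 hk.2
  nlinarith

/-- the condition on the squares holds for all nondecreasing sequences -/
theorem sv_of {ℓ : ℕ → ℝ} (h0 : ∀ n, 1 ≤ n → 0 < ℓ n) (hm : ∀ m n, 1 ≤ m → m ≤ n → ℓ m ≤ ℓ n)
    (hu : ∀ B : ℝ, ∃ N, B ≤ mm ℓ N) : SV ℓ := by
  refine ⟨h0, hm, hu, 4, fun N hN => ?_⟩
  -- the part between `N` and `N ^ 2`
  have hN0 : (0 : ℝ) < N := by exact_mod_cast hN
  have hN1 : (1 : ℝ) ≤ N := by exact_mod_cast hN
  have hNN : N ≤ N ^ 2 := by nlinarith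
  have hlN := h0 N hN
  have e1 : mm ℓ (N ^ 2) = mm ℓ N + ∑ k ∈ Finset.Icc (N + 1) (N ^ 2), 1 / ((k : ℝ) * ℓ k) := by
    unfold mm
    rw [← Finset.sum_union]
    · congr 1
      ext k
      simp only [Finset.mem_Icc, Finset.mem_union]
      omega
    · rw [Finset.disjoint_left]
      intro k hk hk'
      rw [Finset.mem_Icc] at hk hk'
      omega
  have e2 : mm (fun _ => 1) (N ^ 2) = mm (fun _ => 1) N + ∑ k ∈ Finset.Icc (N + 1) (N ^ 2), 1 / ((k : ℝ) * 1) := by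
    unfold mm
    rw [← Finset.sum_union]
    · congr 1
      ext k
      simp only [Finset.mem_Icc, Finset.mem_union]
      omega
    · rw [Finset.disjoint_left]
      intro k hk hk'
      rw [Finset.mem_Icc] at hk hk'
      omega
  have e3 : ∑ k ∈ Finset.Icc (N + 1) (N ^ 2), 1 / ((k : ℝ) * ℓ k) ≤
      1 / ℓ N * ∑ k ∈ Finset.Icc (N + 1) (N ^ 2), 1 / ((k : ℝ) * 1) := by
    rw [Finset.mul_sum]
    refine Finset.sum_le_sum fun k hk => ?_
    rw [Finset.mem_Icc] at hk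
    have h1 : (0 : ℝ) < k := by
      have : 0 < k := by omega
      exact_mod_cast this
    rw [one_div_mul_one_div, mul_one, mul_comm (ℓ N)]
    refine one_div_le_one_div_of_le (by positivity) ?_
    exact mul_le_mul_of_nonneg_left (hm N k hN (by omega)) h1.le
  -- the harmonic sums
  have e4 : ∑ k ∈ Finset.Icc (N + 1) (N ^ 2), 1 / ((k : ℝ) * 1) ≤ 3 * mm (fun _ => 1) N := by
    have h1 := mm_one_le (N ^ 2)
    have h2 := mm_one_ge N
    have h3 : 1 ≤ mm (fun _ => 1) N := by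
      unfold mm
      refine le_trans (le_of_eq ?_) (Finset.single_le_sum (f := fun k : ℕ => 1 / ((k : ℝ) * 1))
        (fun k _ => by positivity) (Finset.mem_Icc.2 ⟨le_rfl, hN⟩))
      simp
    have h4 : Real.log ((N ^ 2 : ℕ) : ℝ) = 2 * Real.log N := by
      push_cast
      rw [Real.log_pow]
      norm_num
    have h5 : Real.log N ≤ Real.log (N + 1) := Real.log_le_log hN0 (by linarith)
    rw [h4] at h1
    linarith
  have e5 := mm_one_anti h0 hm hN
  rw [e1]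
  have e6 : 1 / ℓ N * ∑ k ∈ Finset.Icc (N + 1) (N ^ 2), 1 / ((k : ℝ) * 1) ≤ 1 / ℓ N * (3 * mm (fun _ => 1) N) :=
    mul_le_mul_of_nonneg_left e4 (by positivity)
  have e7 : 1 / ℓ N * (3 * mm (fun _ => 1) N) = 3 * (1 / ℓ N * mm (fun _ => 1) N) := by ring
  linarith

/-- the elements of the class -/
theorem Corr.props {m : ℕ → ℝ} (h : Corr m) : (∀ n, 1 ≤ m n) ∧ Monotone m ∧
    ∃ C : ℝ, 0 < C ∧ ∀ n, 1 ≤ n → m n ≤ C * mm (fun _ => 1) n := by
  have h1 : ∀ n, 1 ≤ n → 1 ≤ mm (fun _ => 1) n := by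
    intro n hn
    unfold mm
    refine le_trans (le_of_eq ?_) (Finset.single_le_sum (f := fun k : ℕ => 1 / ((k : ℝ) * 1))
      (fun k _ => by positivity) (Finset.mem_Icc.2 ⟨le_rfl, hn⟩))
    simp
  induction h with
  | one => exact ⟨fun _ => le_rfl, fun _ _ _ => le_rfl, 1, one_pos, fun n hn => by rw [one_mul]; exact h1 n hn⟩
  | step m₁ m₂ _ _ ih₁ ih₂ =>
    obtain ⟨a1, a2, -⟩ := ih₁
    obtain ⟨b1, b2, -⟩ := ih₂
    have hs : ∀ k, 1 ≤ Real.sqrt (m₁ k * m₂ k) := by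
      intro k
      rw [Real.one_le_sqrt]
      have := a1 k
      have := b1 k
      nlinarith
    have hnn : ∀ k : ℕ, 0 ≤ 1 / ((k : ℝ) * Real.sqrt (m₁ k * m₂ k)) := by
      intro k
      have := hs k
      positivity
    refine ⟨fun n => ?_, fun p q hpq => ?_, 2, by norm_num, fun n hn => ?_⟩
    · have : 0 ≤ mm (fun k => Real.sqrt (m₁ k * m₂ k)) n := Finset.sum_nonneg fun k _ => hnn k
      linarith
    · have : mm (fun k => Real.sqrt (m₁ k * m₂ k)) p ≤ mm (fun k => Real.sqrt (m₁ k * m₂ k)) q :=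
        Finset.sum_le_sum_of_subset_of_nonneg (Finset.Icc_subset_Icc le_rfl hpq) fun k _ _ => hnn k
      show 1 + _ ≤ 1 + _
      linarith
    · have h2 : mm (fun k => Real.sqrt (m₁ k * m₂ k)) n ≤ mm (fun _ => 1) n :=
        mm_le_mm (fun _ _ => one_pos) (fun k _ => hs k) n
      have := h1 n hn
      show 1 + mm (fun k => Real.sqrt (m₁ k * m₂ k)) n ≤ _
      linarith

/-- the products of two elements of the class -/
theorem Corr.sv {m₁ m₂ : ℕ → ℝ} (h₁ : Corr m₁) (h₂ : Corr m₂) : SV (fun k => Real.sqrt (m₁ k * m₂ k)) := by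
  obtain ⟨a1, a2, C, hC, a3⟩ := h₁.props
  obtain ⟨b1, b2, D, hD, b3⟩ := h₂.props
  have hs : ∀ k, 0 < Real.sqrt (m₁ k * m₂ k) := by
    intro k
    have := a1 k
    have := b1 k
    exact Real.sqrt_pos.2 (by nlinarith)
  refine sv_of (fun k _ => hs k) (fun p q _ hpq => ?_) (fun B => ?_)
  · refine Real.sqrt_le_sqrt (mul_le_mul (a2 hpq) (b2 hpq) ?_ ?_)
    · linarith [b1 p]
    · linarith [a1 q]
  · obtain ⟨N, hN⟩ := sv_log.unb (Real.sqrt (C * D) * B)
    refine ⟨N, ?_⟩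
    have hCD : 0 < Real.sqrt (C * D) := Real.sqrt_pos.2 (by positivity)
    have h1 : mm (fun k => Real.sqrt (C * D) * mm (fun _ => 1) k) N ≤ mm (fun k => Real.sqrt (m₁ k * m₂ k)) N := by
      refine mm_le_mm (fun k _ => hs k) (fun k hk => ?_) N
      have h2 : 0 ≤ mm (fun _ => (1 : ℝ)) k := Finset.sum_nonneg fun j _ => by positivity
      have h3 : m₁ k * m₂ k ≤ C * D * (mm (fun _ => 1) k) ^ 2 := by
        have e1 := a3 k hk
        have e2 := b3 k hk
        calc m₁ k * m₂ k ≤ (C * mm (fun _ => 1) k) * (D * mm (fun _ => 1) k) :=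
              mul_le_mul e1 e2 (by linarith [b1 k]) (by positivity)
          _ = C * D * (mm (fun _ => 1) k) ^ 2 := by ring
      calc Real.sqrt (m₁ k * m₂ k) ≤ Real.sqrt (C * D * (mm (fun _ => 1) k) ^ 2) := Real.sqrt_le_sqrt h3
        _ = Real.sqrt (C * D) * mm (fun _ => 1) k := by
          rw [Real.sqrt_mul (by positivity), Real.sqrt_sq h2]
    rw [mm_const_mul] at h1
    refine le_trans ?_ h1
    rw [one_div, ← div_eq_inv_mul, le_div_iff₀ hCD]
    linarith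

/-- products of the walk on the integers -/
theorem int_pow (k : ℕ) : ∃ (G : Type) (_ : Group G), Cent G ∧ ∃ ν : G →₀ ℝ, SP ν ∧ Par ν ∧
    ∀ n, rt ν (2 * n) = ((Nat.centralBinom n : ℝ) / 4 ^ n) ^ (k + 1) := by
  induction k with
  | zero =>
    refine ⟨Multiplicative ℤ, inferInstance, cent_int, zw, zw_sp, zw_par, fun n => ?_⟩
    rw [zw_rt, zero_add, pow_one]
  | succ k ih =>
    obtain ⟨G, iG, hc, ν, h1, h2, h3⟩ := ih
    obtain ⟨μ, m1, m2, m3⟩ := prod_walk h1 h2 zw_sp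
    refine ⟨G × Multiplicative ℤ, inferInstance, cent_prod hc cent_int, μ, m1, m2, fun n => ?_⟩
    rw [m3, h3, zw_rt]
    exact (pow_succ _ _).symm

theorem cent_fam {H : Type} [Group H] (h : Cent H) : Cent (Fr H) := by
  refine cent_free (M := Fam H) ?_
  intro b
  cases b
  · exact cent_int
  · exact h

/-- **all corrections of the class** -/
theorem Corr.walk {m : ℕ → ℝ} (h : Corr m) : ∃ (G : Type) (_ : Group G), Cent G ∧ ∃ ν : G →₀ ℝ, SP ν ∧ Par ν ∧
    ∃ z : ℝ, Asy ν z (fun n => 1 / ((n : ℝ) * Real.sqrt (n * m n))) := by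
  induction h with
  | one =>
    obtain ⟨G, iG, hc, ν, h1, h2, h3⟩ := int_pow 2
    refine ⟨G, iG, hc, ν, h1, h2, 1, one_pos, 1 / 8, 1, by norm_num, fun n hn => ?_⟩
    obtain ⟨b1, b2⟩ := cb_bounds hn
    have hn0 : (0 : ℝ) < n := by exact_mod_cast hn
    obtain ⟨a, ha⟩ : ∃ a, a = (Nat.centralBinom n : ℝ) / 4 ^ n := ⟨_, rfl⟩
    have ha0 : 0 ≤ a := by rw [ha]; positivity
    have hsn : 0 < Real.sqrt n := Real.sqrt_pos.2 hn0
    have hsq : Real.sqrt n ^ 2 = n := Real.sq_sqrt hn0.le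
    rw [h3, one_pow, mul_one, ← ha]
    rw [← ha] at b1 b2
    have c1 : 1 / (2 * Real.sqrt n) ≤ a := by
      have : (1 / (2 * Real.sqrt n)) ^ 2 ≤ a ^ 2 := by
        refine le_trans (le_of_eq ?_) b1
        rw [div_pow, mul_pow, hsq]
        norm_num
      exact le_of_sq_le_sq this ha0
    have c2 : a ≤ 1 / Real.sqrt n := by
      have : a ^ 2 ≤ (1 / Real.sqrt n) ^ 2 := by
        refine b2.trans ?_
        rw [div_pow, hsq, one_pow]
        exact one_div_le_one_div_of_le hn0 (by linarith)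
      exact le_of_sq_le_sq this (by positivity)
    have e1 : 1 / ((n : ℝ) * Real.sqrt (n * 1)) = (1 / Real.sqrt n) ^ 3 := by
      rw [mul_one, div_pow, one_pow]
      congr 1
      calc (n : ℝ) * Real.sqrt n = Real.sqrt n ^ 2 * Real.sqrt n := by rw [hsq]
        _ = Real.sqrt n ^ 3 := by ring
    show 1 / 8 * (1 / ((n : ℝ) * Real.sqrt (n * 1))) ≤ _ ∧ _ ≤ 1 * (1 / ((n : ℝ) * Real.sqrt (n * 1)))
    rw [e1]
    constructor
    · calc 1 / 8 * (1 / Real.sqrt n) ^ 3 = (1 / (2 * Real.sqrt n)) ^ 3 := by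
            field_simp
            norm_num
        _ ≤ a ^ (2 + 1) := pow_le_pow_left₀ (by positivity) c1 3
    · rw [one_mul]
      exact pow_le_pow_left₀ ha0 c2 3
  | step m₁ m₂ h₁ h₂ ih₁ ih₂ =>
    obtain ⟨G₁, i₁, hc₁, ν₁, a1, a2, z₁, hA₁⟩ := ih₁
    obtain ⟨G₂, i₂, hc₂, ν₂, b1, b2, z₂, hA₂⟩ := ih₂
    obtain ⟨p1, -, -⟩ := h₁.props
    obtain ⟨q1, -, -⟩ := h₂.props
    obtain ⟨σ, s1, s2, s3⟩ := prod_walk a1 a2 b1
    have hsv := h₁.sv h₂
    have hA : Asy σ (z₁ * z₂) (fun n => 1 / ((n : ℝ) ^ 3 * (fun k => Real.sqrt (m₁ k * m₂ k)) n)) := by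
      obtain ⟨hz₁, c₁, C₁, hc₁, hb₁⟩ := hA₁
      obtain ⟨hz₂, c₂, C₂, hc₂, hb₂⟩ := hA₂
      refine ⟨by positivity, c₁ * c₂, C₁ * C₂, by positivity, fun n hn => ?_⟩
      have hn0 : (0 : ℝ) < n := by exact_mod_cast hn
      have hm₁ : 0 < m₁ n := by linarith [p1 n]
      have hm₂ : 0 < m₂ n := by linarith [q1 n]
      obtain ⟨x1, x2⟩ := hb₁ n hn
      obtain ⟨y1, y2⟩ := hb₂ n hn
      beta_reduce at x1 x2 y1 y2 ⊢
      have e1 : rt σ (2 * n) * (z₁ * z₂) ^ (2 * n) = (rt ν₁ (2 * n) * z₁ ^ (2 * n)) * (rt ν₂ (2 * n) * z₂ ^ (2 * n)) := by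
        rw [s3, mul_pow]
        ring
      have e2 : 1 / ((n : ℝ) ^ 3 * Real.sqrt (m₁ n * m₂ n)) =
          (1 / ((n : ℝ) * Real.sqrt (n * m₁ n))) * (1 / ((n : ℝ) * Real.sqrt (n * m₂ n))) := by
        rw [one_div_mul_one_div]
        congr 1
        rw [Real.sqrt_mul hn0.le, Real.sqrt_mul hn0.le, Real.sqrt_mul hm₁.le]
        have : Real.sqrt n * Real.sqrt n = n := Real.mul_self_sqrt hn0.le
        calc (n : ℝ) ^ 3 * (Real.sqrt (m₁ n) * Real.sqrt (m₂ n))
            = (n : ℝ) ^ 2 * n * (Real.sqrt (m₁ n) * Real.sqrt (m₂ n)) := by ring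
          _ = (n : ℝ) ^ 2 * (Real.sqrt n * Real.sqrt n) * (Real.sqrt (m₁ n) * Real.sqrt (m₂ n)) := by rw [this]
          _ = _ := by ring
      have k1 : 0 < 1 / ((n : ℝ) * Real.sqrt (n * m₁ n)) := by
        have : 0 < Real.sqrt (n * m₁ n) := Real.sqrt_pos.2 (by positivity)
        positivity
      have k2 : 0 < 1 / ((n : ℝ) * Real.sqrt (n * m₂ n)) := by
        have : 0 < Real.sqrt (n * m₂ n) := Real.sqrt_pos.2 (by positivity)
        positivity
      have x0 : 0 ≤ rt ν₁ (2 * n) * z₁ ^ (2 * n) := le_trans (by positivity) x1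
      have y0 : 0 ≤ rt ν₂ (2 * n) * z₂ ^ (2 * n) := le_trans (by positivity) y1
      rw [e1, e2]
      constructor
      · calc c₁ * c₂ * ((1 / ((n : ℝ) * Real.sqrt (n * m₁ n))) * (1 / ((n : ℝ) * Real.sqrt (n * m₂ n))))
            = (c₁ * (1 / ((n : ℝ) * Real.sqrt (n * m₁ n)))) * (c₂ * (1 / ((n : ℝ) * Real.sqrt (n * m₂ n)))) := by ring
          _ ≤ _ := mul_le_mul x1 y1 (by positivity) x0
      · calc (rt ν₁ (2 * n) * z₁ ^ (2 * n)) * (rt ν₂ (2 * n) * z₂ ^ (2 * n))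
            ≤ (C₁ * (1 / ((n : ℝ) * Real.sqrt (n * m₁ n)))) * (C₂ * (1 / ((n : ℝ) * Real.sqrt (n * m₂ n)))) :=
              mul_le_mul x2 y2 y0 (x0.trans x2)
          _ = _ := by ring
    obtain ⟨τ, w, t1, t2, t3⟩ := transfer s1 s2 hsv hA
    refine ⟨Fr (G₁ × G₂), inferInstance, cent_fam (cent_prod hc₁ hc₂), τ, t1, t2, w, ?_⟩
    -- `1 + mm` instead of `mm`
    obtain ⟨hw, c, C, hc, hb⟩ := t3
    obtain ⟨M, hM⟩ : ∃ M : ℕ → ℝ, M = mm (fun k => Real.sqrt (m₁ k * m₂ k)) := ⟨_, rfl⟩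
    rw [← hM] at hb
    have hM1 : ∀ n, 1 ≤ n → M 1 ≤ M n := fun n hn => by
      rw [hM]
      exact mm_mono hsv hn
    have hM0 : 0 < M 1 := by
      rw [hM]
      exact mm_pos hsv le_rfl
    obtain ⟨K, hK⟩ : ∃ K, K = 1 + 1 / M 1 := ⟨_, rfl⟩
    have hK0 : 0 < K := by rw [hK]; positivity
    have hKM : ∀ n, 1 ≤ n → 1 + M n ≤ K * M n := by
      intro n hn
      have h5 := hM1 n hn
      have h6 : 1 ≤ 1 / M 1 * M n := by
        rw [one_div, ← div_eq_inv_mul, le_div_iff₀ hM0]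
        linarith
      rw [hK]
      linarith
    have hC0 : 0 < C := by
      have h5 := (hb 1 le_rfl).1.trans (hb 1 le_rfl).2
      beta_reduce at h5
      have k1 : 0 < 1 / (((1 : ℕ) : ℝ) * Real.sqrt (((1 : ℕ) : ℝ) * M 1)) := by
        have : 0 < Real.sqrt (((1 : ℕ) : ℝ) * M 1) := Real.sqrt_pos.2 (by positivity)
        positivity
      have h6 := le_of_mul_le_mul_right h5 k1
      linarith
    refine ⟨hw, c, C * Real.sqrt K, hc, fun n hn => ?_⟩
    obtain ⟨x1, x2⟩ := hb n hn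
    beta_reduce at x1 x2 ⊢
    rw [← hM]
    have hn0 : (0 : ℝ) < n := by exact_mod_cast hn
    have hMn : 0 < M n := lt_of_lt_of_le hM0 (hM1 n hn)
    have g1 : 0 < Real.sqrt (n * M n) := Real.sqrt_pos.2 (by positivity)
    have g2 : 0 < Real.sqrt (n * (1 + M n)) := Real.sqrt_pos.2 (by positivity)
    have g3 : Real.sqrt (n * M n) ≤ Real.sqrt (n * (1 + M n)) :=
      Real.sqrt_le_sqrt (mul_le_mul_of_nonneg_left (by linarith) hn0.le)
    have g4 : Real.sqrt (n * (1 + M n)) ≤ Real.sqrt K * Real.sqrt (n * M n) := by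
      rw [← Real.sqrt_mul hK0.le]
      refine Real.sqrt_le_sqrt ?_
      have := hKM n hn
      nlinarith
    constructor
    · refine le_trans ?_ x1
      refine mul_le_mul_of_nonneg_left ?_ hc.le
      exact one_div_le_one_div_of_le (by positivity) (mul_le_mul_of_nonneg_left g3 hn0.le)
    · refine x2.trans ?_
      rw [mul_assoc]
      refine mul_le_mul_of_nonneg_left ?_ hC0.le
      have hsK : 0 < Real.sqrt K := Real.sqrt_pos.2 hK0
      rw [mul_one_div, div_le_div_iff₀ (by positivity) (by positivity), one_mul]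
      calc (n : ℝ) * Real.sqrt (n * (1 + M n)) ≤ n * (Real.sqrt K * Real.sqrt (n * M n)) :=
            mul_le_mul_of_nonneg_left g4 hn0.le
        _ = Real.sqrt K * (n * Real.sqrt (n * M n)) := by ring

/-- the class contains a sequence of the order of `log log n` -/
theorem corr_loglog : ∃ m : ℕ → ℝ, Corr m ∧ ∃ c > (0 : ℝ), ∃ C : ℝ, ∀ᶠ n : ℕ in atTop,
    c * Real.log (Real.log n) ≤ m n ∧ m n ≤ C * Real.log (Real.log n) := by
  have h1 := Corr.step _ _ Corr.one Corr.one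
  have h2 := Corr.step _ _ h1 h1
  refine ⟨_, h2, ?_⟩
  obtain ⟨c, hc, C, hmm⟩ := mm_log
  beta_reduce
  obtain ⟨a, ha⟩ : ∃ a : ℕ → ℝ, a = fun n => 1 + mm (fun _ => Real.sqrt (1 * 1)) n := ⟨_, rfl⟩
  have ha' : ∀ n, a n = 1 + mm (fun _ => 1) n := by
    intro n
    rw [ha]
    simp
  have hH : ∀ n, 1 ≤ n → 1 ≤ mm (fun _ => (1 : ℝ)) n := by
    intro n hn
    unfold mm
    refine le_trans (le_of_eq ?_) (Finset.single_le_sum (f := fun k : ℕ => 1 / ((k : ℝ) * 1))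
      (fun k _ => by positivity) (Finset.mem_Icc.2 ⟨le_rfl, hn⟩))
    simp
  have hs : ∀ n, Real.sqrt (a n * a n) = a n := by
    intro n
    refine Real.sqrt_mul_self ?_
    rw [ha']
    have : 0 ≤ mm (fun _ => (1 : ℝ)) n := Finset.sum_nonneg fun k _ => by positivity
    linarith
  have hfun : (fun k => Real.sqrt (a k * a k)) = a := funext hs
  have hgoal : (fun n => 1 + mm (fun k => Real.sqrt ((1 + mm (fun _ => Real.sqrt (1 * 1)) k) *
      (1 + mm (fun _ => Real.sqrt (1 * 1)) k))) n) = fun n => 1 + mm a n := by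
    rw [← hfun, ha]
  have hgoal' : ∀ n, 1 + mm (fun k => Real.sqrt ((1 + mm (fun _ => Real.sqrt (1 * 1)) k) *
      (1 + mm (fun _ => Real.sqrt (1 * 1)) k))) n = 1 + mm a n := fun n => congrFun hgoal n
  simp only [hgoal']
  -- comparison of `mm a` with `mm (mm 1)`
  have u1 : ∀ n, mm a n ≤ mm (mm (fun _ => 1)) n := by
    intro n
    refine mm_le_mm (fun k hk => by linarith [hH k hk]) (fun k hk => ?_) n
    rw [ha']
    linarith
  have u2 : ∀ n, 1 / 2 * mm (mm (fun _ => 1)) n ≤ mm a n := by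
    intro n
    rw [← mm_const_mul]
    refine mm_le_mm (fun k hk => ?_) (fun k hk => ?_) n
    · rw [ha']
      linarith [hH k hk]
    · rw [ha']
      linarith [hH k hk]
  have hll : ∀ᶠ n : ℕ in atTop, 1 ≤ Real.log (Real.log n) := by
    have h2 : Tendsto (fun n : ℕ => Real.log (Real.log n)) atTop atTop :=
      Real.tendsto_log_atTop.comp (Real.tendsto_log_atTop.comp tendsto_natCast_atTop_atTop)
    exact h2.eventually_ge_atTop 1
  refine ⟨c / 2, by positivity, C + 1, ?_⟩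
  filter_upwards [hmm, hll] with n hn1 hn2
  have v1 := u1 n
  have v2 := u2 n
  constructor
  · have : c / 2 * Real.log (Real.log n) = 1 / 2 * (c * Real.log (Real.log n)) := by ring
    rw [this]
    linarith [hn1.1]
  · have : (C + 1) * Real.log (Real.log n) = C * Real.log (Real.log n) + Real.log (Real.log n) := by ring
    rw [this]
    linarith [hn1.2]

end Pool.Agent.RDL
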