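import Pool.Agent.RDL.LVDefs

/-!
# Regular variation in the logarithmic scale: the sums `mm`
-/

set_option autoImplicit false

namespace Pool.Agent.RDL

open Finset Filter Topology MeasureTheory

noncomputable section

/-- the step function `1 / ℓ (e ^ t)` -/
def lvbG (ℓ : ℕ → ℝ) (t : ℝ) : ℝ := 1 / ℓ ⌊Real.exp t⌋₊

/-- its integral -/
def lvbF (ℓ : ℕ → ℝ) (L : ℝ) : ℝ := ∫ t in (0 : ℝ)..L, lvbG ℓ t

theorem lvb_floor {t : ℝ} (ht : 0 ≤ t) : 1 ≤ ⌊Real.exp t⌋₊ := by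
  refine Nat.le_floor ?_
  rw [Nat.cast_one]
  exact Real.one_le_exp ht

theorem lvb_pos {ℓ : ℕ → ℝ} {σ : ℝ} (h : LVar ℓ σ) {t : ℝ} (ht : 0 ≤ t) : 0 < lvbG ℓ t :=
  one_div_pos.2 (h.pos _ (lvb_floor ht))

theorem lvb_anti {ℓ : ℕ → ℝ} {σ : ℝ} (h : LVar ℓ σ) : AntitoneOn (lvbG ℓ) (Set.Ici 0) := by
  intro a ha b hb hab
  refine one_div_le_one_div_of_le (h.pos _ (lvb_floor ha)) (h.mono _ _ (lvb_floor ha) ?_)
  exact Nat.floor_le_floor (Real.exp_le_exp.2 hab)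

theorem lvb_int {ℓ : ℕ → ℝ} {σ : ℝ} (h : LVar ℓ σ) {a b : ℝ} (ha : 0 ≤ a) (hb : 0 ≤ b) :
    IntervalIntegrable (lvbG ℓ) volume a b := by
  refine AntitoneOn.intervalIntegrable ((lvb_anti h).mono ?_)
  intro x hx
  have := hx.1
  exact le_trans (le_min ha hb) this

theorem lvb_sub {ℓ : ℕ → ℝ} {σ : ℝ} (h : LVar ℓ σ) {a b : ℝ} (ha : 0 ≤ a) (hb : 0 ≤ b) :
    lvbF ℓ b - lvbF ℓ a = ∫ t in a..b, lvbG ℓ t :=
  intervalIntegral.integral_interval_sub_left (lvb_int h le_rfl hb) (lvb_int h le_rfl ha)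

theorem lvb_Fmono {ℓ : ℕ → ℝ} {σ : ℝ} (h : LVar ℓ σ) {a b : ℝ} (ha : 0 ≤ a) (hab : a ≤ b) :
    lvbF ℓ a ≤ lvbF ℓ b := by
  have h1 := lvb_sub h ha (ha.trans hab)
  have h2 : 0 ≤ ∫ t in a..b, lvbG ℓ t :=
    intervalIntegral.integral_nonneg hab fun t ht => (lvb_pos h (ha.trans ht.1)).le
  linarith

theorem lvb_step {ℓ : ℕ → ℝ} {σ : ℝ} (h : LVar ℓ σ) {N : ℕ} (hN : 1 ≤ N) :
    1 / (((N : ℝ) + 1) * ℓ (N + 1)) ≤ lvbF ℓ (Real.log (N + 1)) - lvbF ℓ (Real.log N) ∧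
    lvbF ℓ (Real.log (N + 1)) - lvbF ℓ (Real.log N) ≤ 1 / ((N : ℝ) * ℓ N) := by
  have hN0 : (0 : ℝ) < N := by exact_mod_cast hN
  have hN1 : (1 : ℝ) ≤ N := by exact_mod_cast hN
  have h0 : 0 ≤ Real.log N := Real.log_nonneg hN1
  have h1 : 0 ≤ Real.log ((N : ℝ) + 1) := Real.log_nonneg (by linarith)
  have h01 : Real.log N ≤ Real.log ((N : ℝ) + 1) := Real.log_le_log hN0 (by linarith)
  have hl : 0 < ℓ N := h.pos N hN
  have hl1 : 0 < ℓ (N + 1) := h.pos _ (by omega)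
  rw [lvb_sub h h0 h1]
  have hi := lvb_int h h0 h1
  have hfl : ∀ t ∈ Set.Icc (Real.log N) (Real.log ((N : ℝ) + 1)),
      N ≤ ⌊Real.exp t⌋₊ ∧ ⌊Real.exp t⌋₊ ≤ N + 1 := by
    intro t ht
    constructor
    · refine Nat.le_floor ?_
      rw [← Real.exp_log hN0]
      exact Real.exp_le_exp.2 ht.1
    · have : Real.exp t ≤ ((N + 1 : ℕ) : ℝ) := by
        push_cast
        rw [← Real.exp_log (show (0 : ℝ) < (N : ℝ) + 1 by linarith)]
        exact Real.exp_le_exp.2 ht.2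
      exact Nat.floor_le_of_le this
  constructor
  · have h2 : ∫ t in Real.log N..Real.log ((N : ℝ) + 1), (1 / ℓ (N + 1) : ℝ) ≤
        ∫ t in Real.log N..Real.log ((N : ℝ) + 1), lvbG ℓ t := by
      refine intervalIntegral.integral_mono_on h01 intervalIntegrable_const hi fun t ht => ?_
      obtain ⟨h3, h4⟩ := hfl t ht
      exact one_div_le_one_div_of_le (h.pos _ (hN.trans h3)) (h.mono _ _ (hN.trans h3) h4)
    refine le_trans ?_ h2
    rw [intervalIntegral.integral_const, smul_eq_mul]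
    have h5 : 1 / ((N : ℝ) + 1) ≤ Real.log ((N : ℝ) + 1) - Real.log N := by
      rw [← Real.log_div (by linarith) (by linarith)]
      have := Real.one_sub_inv_le_log_of_pos (show 0 < ((N : ℝ) + 1) / N by positivity)
      refine le_trans (le_of_eq ?_) this
      field_simp
      ring
    calc 1 / (((N : ℝ) + 1) * ℓ (N + 1)) = 1 / ((N : ℝ) + 1) * (1 / ℓ (N + 1)) := by
          rw [one_div_mul_one_div]
      _ ≤ _ := mul_le_mul_of_nonneg_right h5 (by positivity)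
  · have h2 : ∫ t in Real.log N..Real.log ((N : ℝ) + 1), lvbG ℓ t ≤
        ∫ t in Real.log N..Real.log ((N : ℝ) + 1), (1 / ℓ N : ℝ) := by
      refine intervalIntegral.integral_mono_on h01 hi intervalIntegrable_const fun t ht => ?_
      obtain ⟨h3, h4⟩ := hfl t ht
      exact one_div_le_one_div_of_le hl (h.mono _ _ hN h3)
    refine le_trans h2 ?_
    rw [intervalIntegral.integral_const, smul_eq_mul]
    have h5 : Real.log ((N : ℝ) + 1) - Real.log N ≤ 1 / (N : ℝ) := by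
      rw [← Real.log_div (by linarith) (by linarith)]
      have := Real.log_le_sub_one_of_pos (show 0 < ((N : ℝ) + 1) / N by positivity)
      refine le_trans this (le_of_eq ?_)
      field_simp
      ring
    calc (Real.log ((N : ℝ) + 1) - Real.log N) * (1 / ℓ N) ≤ 1 / (N : ℝ) * (1 / ℓ N) :=
          mul_le_mul_of_nonneg_right h5 (by positivity)
      _ = _ := by rw [one_div_mul_one_div]

theorem lvb_msucc (ℓ : ℕ → ℝ) (N : ℕ) :
    mm ℓ (N + 1) = mm ℓ N + 1 / (((N : ℝ) + 1) * ℓ (N + 1)) := by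
  unfold mm
  rw [Finset.sum_Icc_succ_top (by omega)]
  push_cast
  ring

theorem lvb_one (ℓ : ℕ → ℝ) : mm ℓ 1 = 1 / ℓ 1 := by
  simp [mm]

/-- comparison of the sum and the integral at integers -/
theorem lvb_cmp {ℓ : ℕ → ℝ} {σ : ℝ} (h : LVar ℓ σ) {N : ℕ} (hN : 1 ≤ N) :
    lvbF ℓ (Real.log (N + 1)) ≤ mm ℓ N ∧ mm ℓ N ≤ 1 / ℓ 1 + lvbF ℓ (Real.log N) := by
  have hF0 : lvbF ℓ 0 = 0 := by simp [lvbF]
  induction N, hN using Nat.le_induction with
  | base =>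
    have h1 := (lvb_step h le_rfl).2
    rw [lvb_one]
    rw [Nat.cast_one, Real.log_one, hF0] at h1 ⊢
    rw [one_mul] at h1
    constructor
    · linarith
    · linarith
  | succ N hN ih =>
    have h1 := lvb_step h hN
    have h2 := (lvb_step h (show 1 ≤ N + 1 by omega)).2
    rw [lvb_msucc]
    push_cast at h2 ⊢
    constructor
    · linarith [ih.1]
    · linarith [ih.2]

/-- comparison of the sum and the integral at reals -/
theorem lvb_cmp' {ℓ : ℕ → ℝ} {σ : ℝ} (h : LVar ℓ σ) {x : ℝ} (hx : 1 ≤ x) :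
    lvbF ℓ (Real.log x) ≤ mm ℓ ⌊x⌋₊ ∧ mm ℓ ⌊x⌋₊ ≤ 1 / ℓ 1 + lvbF ℓ (Real.log x) := by
  have h1 : 1 ≤ ⌊x⌋₊ := by
    refine Nat.le_floor ?_
    rwa [Nat.cast_one]
  have h1' : (1 : ℝ) ≤ (⌊x⌋₊ : ℝ) := by exact_mod_cast h1
  have h2 := lvb_cmp h h1
  have hx0 : 0 ≤ Real.log x := Real.log_nonneg hx
  constructor
  · refine le_trans (lvb_Fmono h hx0 ?_) h2.1
    exact Real.log_le_log (by linarith) (Nat.lt_floor_add_one x).le
  · refine le_trans h2.2 ?_
    have := lvb_Fmono h (Real.log_nonneg h1')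
      (Real.log_le_log (by linarith) (Nat.floor_le (by linarith : (0 : ℝ) ≤ x)))
    linarith

/-- the integral of the dilated function -/
theorem lvb_dil (ℓ : ℕ → ℝ) {s : ℝ} (a b : ℝ) :
    s * ∫ t in a..b, lvbG ℓ (s * t) = ∫ t in (s * a)..(s * b), lvbG ℓ t := by
  rw [← smul_eq_mul, intervalIntegral.smul_integral_comp_mul_left]

/-- the limit along the reals -/
theorem lvb_lim {ℓ : ℕ → ℝ} {σ : ℝ} (h : LVar ℓ σ) {s : ℝ} (hs : 0 < s) {e : ℝ} (he : 0 < e) :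
    ∀ᶠ x : ℝ in atTop, |ℓ ⌊x ^ s⌋₊ / ℓ ⌊x⌋₊ - s ^ σ| ≤ e := by
  -- choose the larger exponent
  have hc : ContinuousAt (fun r : ℝ => r ^ σ) s := Real.continuousAt_rpow_const _ _ (Or.inl hs.ne')
  have hc1 : ∀ᶠ r in 𝓝[>] s, r ^ σ < s ^ σ + e / 2 :=
    (hc.tendsto.mono_left nhdsWithin_le_nhds).eventually (gt_mem_nhds (by linarith))
  obtain ⟨s', hs'1, hs'2⟩ := (hc1.and self_mem_nhdsWithin).exists
  have hs'3 : s < s' := hs'2
  have hl1 : ∀ᶠ N : ℕ in atTop, s ^ σ - e < ℓ ⌊(N : ℝ) ^ s⌋₊ / ℓ N :=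
    (h.lim s hs).eventually (lt_mem_nhds (by linarith))
  have hl2 : ∀ᶠ N : ℕ in atTop, ℓ ⌊(N : ℝ) ^ s'⌋₊ / ℓ N < s' ^ σ + e / 2 :=
    (h.lim s' (hs.trans hs'3)).eventually (gt_mem_nhds (by linarith))
  have hl3 : ∀ᶠ N : ℕ in atTop, ((N : ℝ) + 1) ^ s ≤ (N : ℝ) ^ s' := by
    have ht : Tendsto (fun N : ℕ => (N : ℝ) ^ (s' - s)) atTop atTop :=
      (tendsto_rpow_atTop (by linarith)).comp tendsto_natCast_atTop_atTop
    filter_upwards [ht.eventually_ge_atTop ((2 : ℝ) ^ s), eventually_ge_atTop 1] with N h1 h2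
    have hN1 : (1 : ℝ) ≤ N := by exact_mod_cast h2
    have hN0 : (0 : ℝ) < N := by linarith
    calc ((N : ℝ) + 1) ^ s ≤ (2 * (N : ℝ)) ^ s := Real.rpow_le_rpow (by linarith) (by linarith) hs.le
      _ = 2 ^ s * (N : ℝ) ^ s := Real.mul_rpow (by norm_num) hN0.le
      _ ≤ (N : ℝ) ^ (s' - s) * (N : ℝ) ^ s := mul_le_mul_of_nonneg_right h1 (by positivity)
      _ = (N : ℝ) ^ s' := by rw [← Real.rpow_add hN0]; congr 1; ring
  have hfl : Tendsto (fun x : ℝ => ⌊x⌋₊) atTop atTop := tendsto_nat_floor_atTop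
  filter_upwards [hfl.eventually hl1, hfl.eventually hl2, hfl.eventually hl3, eventually_ge_atTop 1]
    with x h1 h2 h3 hx
  have hf1 : 1 ≤ ⌊x⌋₊ := by
    refine Nat.le_floor ?_
    rwa [Nat.cast_one]
  have hf1' : (1 : ℝ) ≤ (⌊x⌋₊ : ℝ) := by exact_mod_cast hf1
  have hfx : (⌊x⌋₊ : ℝ) ≤ x := Nat.floor_le (by linarith)
  have hlp := h.pos _ hf1
  have ha : ℓ ⌊(⌊x⌋₊ : ℝ) ^ s⌋₊ ≤ ℓ ⌊x ^ s⌋₊ := by
    refine h.mono _ _ ?_ (Nat.floor_le_floor (Real.rpow_le_rpow (by linarith) hfx hs.le))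
    refine Nat.le_floor ?_
    rw [Nat.cast_one]
    exact Real.one_le_rpow hf1' hs.le
  have hb : ℓ ⌊x ^ s⌋₊ ≤ ℓ ⌊(⌊x⌋₊ : ℝ) ^ s'⌋₊ := by
    refine h.mono _ _ ?_ (Nat.floor_le_floor ?_)
    · refine Nat.le_floor ?_
      rw [Nat.cast_one]
      exact Real.one_le_rpow hx hs.le
    · refine le_trans (Real.rpow_le_rpow (by linarith) (Nat.lt_floor_add_one x).le hs.le) h3
  have ha' := div_le_div_of_nonneg_right ha hlp.le
  have hb' := div_le_div_of_nonneg_right hb hlp.le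
  rw [abs_le]
  constructor <;> linarith

/-- the ratio of the integrands -/
theorem lvb_ratio {ℓ : ℕ → ℝ} {σ : ℝ} (h : LVar ℓ σ) {s : ℝ} (hs : 0 < s) {e : ℝ} (he : 0 < e) :
    ∃ T : ℝ, 0 ≤ T ∧ ∀ t, T ≤ t → |lvbG ℓ (s * t) - s ^ (-σ) * lvbG ℓ t| ≤ e * lvbG ℓ t := by
  -- apply the limit along the reals with exponent `1 / s` to `x = e ^ (s t)`
  have h1 := lvb_lim h (show 0 < 1 / s by positivity) he
  obtain ⟨X, hX⟩ := eventually_atTop.1 h1
  refine ⟨max 0 (Real.log (max X 1) / s), le_max_left _ _, fun t ht => ?_⟩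
  have ht0 : 0 ≤ t := le_trans (le_max_left _ _) ht
  have ht1 : Real.log (max X 1) ≤ s * t := by
    have := le_trans (le_max_right _ _) ht
    rw [div_le_iff₀ hs] at this
    linarith
  have hX1 : X ≤ Real.exp (s * t) := by
    refine le_trans (le_max_left X 1) ?_
    rw [← Real.log_le_iff_le_exp (lt_of_lt_of_le one_pos (le_max_right X 1))]
    exact ht1
  have h2 := hX _ hX1
  have e1 : Real.exp (s * t) ^ (1 / s) = Real.exp t := by
    rw [← Real.exp_mul]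
    congr 1
    field_simp
  have e2 : (1 / s) ^ σ = s ^ (-σ) := by
    rw [one_div, Real.inv_rpow hs.le, Real.rpow_neg hs.le]
  rw [e1, e2] at h2
  have hG : lvbG ℓ (s * t) = ℓ ⌊Real.exp t⌋₊ / ℓ ⌊Real.exp (s * t)⌋₊ * lvbG ℓ t := by
    have hp := h.pos _ (lvb_floor ht0)
    unfold lvbG
    field_simp
  have hp := lvb_pos h ht0
  rw [hG, ← sub_mul, abs_mul, abs_of_pos hp]
  exact mul_le_mul_of_nonneg_right h2 hp.le

/-- the integrals: `F (s L) / F L → s ^ (1 - σ)` -/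
theorem lvb_Flim {ℓ : ℕ → ℝ} {σ : ℝ} (h : LVar ℓ σ) (hF : Tendsto (lvbF ℓ) atTop atTop) {s : ℝ} (hs : 0 < s) :
    Tendsto (fun L => lvbF ℓ (s * L) / lvbF ℓ L) atTop (𝓝 (s ^ (1 - σ))) := by
  have hc : s ^ (1 - σ) = s * s ^ (-σ) := by
    rw [sub_eq_add_neg, Real.rpow_add hs, Real.rpow_one]
  rw [hc, Metric.tendsto_nhds]
  intro e he
  obtain ⟨T, hT0, hT⟩ := lvb_ratio h hs (show 0 < e / (2 * s) / 2 by positivity)
  -- the constant
  set K : ℝ := |lvbF ℓ (s * T) - s * s ^ (-σ) * lvbF ℓ T| with hK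
  have hbd : ∀ L, T ≤ L → |lvbF ℓ (s * L) - s * s ^ (-σ) * lvbF ℓ L| ≤ K + e / 4 * lvbF ℓ L := by
    intro L hL
    have hL0 : 0 ≤ L := hT0.trans hL
    have h1 := lvb_sub h (mul_nonneg hs.le hT0) (mul_nonneg hs.le hL0)
    have h2 := lvb_sub h hT0 hL0
    rw [← lvb_dil] at h1
    have hi1 : IntervalIntegrable (fun t => lvbG ℓ (s * t)) volume T L := by
      have h3 := lvb_int h (mul_nonneg hs.le hT0) (mul_nonneg hs.le hL0)
      have h4 := h3.comp_mul_left (c := s)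
      rwa [mul_div_cancel_left₀ _ hs.ne', mul_div_cancel_left₀ _ hs.ne'] at h4
    have hi2 := lvb_int h hT0 hL0
    have h5 : |∫ t in T..L, (lvbG ℓ (s * t) - s ^ (-σ) * lvbG ℓ t)| ≤
        ∫ t in T..L, e / (2 * s) / 2 * lvbG ℓ t := by
      rw [← Real.norm_eq_abs]
      refine intervalIntegral.norm_integral_le_of_norm_le hL ?_ (hi2.const_mul _)
      filter_upwards with t ht
      rw [Real.norm_eq_abs]
      exact hT t ht.1.le
    rw [intervalIntegral.integral_sub hi1 (hi2.const_mul _), intervalIntegral.integral_const_mul,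
      intervalIntegral.integral_const_mul] at h5
    have hFT : 0 ≤ lvbF ℓ T := by
      have := lvb_Fmono h le_rfl hT0
      simpa [lvbF] using this
    have e1 : lvbF ℓ (s * L) - s * s ^ (-σ) * lvbF ℓ L =
        (lvbF ℓ (s * T) - s * s ^ (-σ) * lvbF ℓ T) +
          s * ((∫ t in T..L, lvbG ℓ (s * t)) - s ^ (-σ) * ∫ t in T..L, lvbG ℓ t) := by
      rw [mul_sub, ← h1, ← h2]
      ring
    rw [e1]
    refine le_trans (abs_add_le _ _) ?_
    rw [← hK, abs_mul, abs_of_pos hs]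
    have h6 := mul_le_mul_of_nonneg_left h5 hs.le
    have h7 : s * (e / (2 * s) / 2 * ∫ t in T..L, lvbG ℓ t) = e / 4 * ∫ t in T..L, lvbG ℓ t := by
      field_simp
      ring
    rw [h7] at h6
    rw [← h2] at h6 ⊢
    have h8 : e / 4 * (lvbF ℓ L - lvbF ℓ T) ≤ e / 4 * lvbF ℓ L :=
      mul_le_mul_of_nonneg_left (by linarith) (by positivity)
    linarith
  filter_upwards [eventually_ge_atTop T, hF.eventually_gt_atTop (4 * K / e + 1),
    hF.eventually_gt_atTop 0] with L h1 h2 h3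
  have h4 := hbd L h1
  have h5 : K < e / 4 * lvbF ℓ L := by
    have : 4 * K / e < lvbF ℓ L := by linarith
    rw [div_lt_iff₀ he] at this
    linarith
  rw [Real.dist_eq]
  have e2 : lvbF ℓ (s * L) / lvbF ℓ L - s * s ^ (-σ) =
      (lvbF ℓ (s * L) - s * s ^ (-σ) * lvbF ℓ L) / lvbF ℓ L := by
    field_simp
  rw [e2, abs_div, abs_of_pos h3, div_lt_iff₀ h3]
  nlinarith

theorem lvb_Ftop {ℓ : ℕ → ℝ} {σ : ℝ} (h : LVar ℓ σ) (hu : ∀ B : ℝ, ∃ N, B ≤ mm ℓ N) :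
    Tendsto (lvbF ℓ) atTop atTop := by
  rw [tendsto_atTop]
  intro B
  obtain ⟨N, hN⟩ := hu (max B 0 + 1 / ℓ 1 + 1)
  have hl1 : 0 < 1 / ℓ 1 := one_div_pos.2 (h.pos 1 le_rfl)
  have hN1 : 1 ≤ N := by
    rcases Nat.eq_zero_or_pos N with h0 | h0
    · subst h0
      have : mm ℓ 0 = 0 := by simp [mm]
      rw [this] at hN
      have := le_max_right B 0
      linarith
    · exact h0
  have hN1' : (1 : ℝ) ≤ N := by exact_mod_cast hN1
  filter_upwards [eventually_ge_atTop (Real.log N)] with L hL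
  have h1 := (lvb_cmp h hN1).2
  have h2 := lvb_Fmono h (Real.log_nonneg hN1') hL
  have := le_max_left B 0
  linarith

end

theorem LVar.mm {ℓ : ℕ → ℝ} {σ : ℝ} (h : LVar ℓ σ) (hu : ∀ B : ℝ, ∃ N, B ≤ mm ℓ N) : LVar (mm ℓ) (1 - σ) := by
  have hnn : ∀ k : ℕ, 1 ≤ k → 0 < 1 / ((k : ℝ) * ℓ k) := by
    intro k hk
    have h1 := h.pos k hk
    have h2 : (0 : ℝ) < k := by exact_mod_cast hk
    positivity
  have hmono : Monotone (Pool.Agent.RDL.mm ℓ) := by
    intro a b hab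
    unfold Pool.Agent.RDL.mm
    refine Finset.sum_le_sum_of_subset_of_nonneg (Finset.Icc_subset_Icc_right hab) ?_
    intro k hk _
    exact (hnn k (Finset.mem_Icc.1 hk).1).le
  have hpos : ∀ n, 1 ≤ n → 0 < Pool.Agent.RDL.mm ℓ n := by
    intro n hn
    refine lt_of_lt_of_le ?_ (hmono hn)
    rw [lvb_one]
    exact one_div_pos.2 (h.pos 1 le_rfl)
  refine ⟨hpos, fun m n _ hmn => hmono hmn, fun s hs => ?_⟩
  have hF := lvb_Ftop h hu
  have hlog : Tendsto (fun N : ℕ => Real.log (N : ℝ)) atTop atTop :=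
    Real.tendsto_log_atTop.comp tendsto_natCast_atTop_atTop
  have hFN : Tendsto (fun N : ℕ => lvbF ℓ (Real.log (N : ℝ))) atTop atTop := hF.comp hlog
  have hFs : Tendsto (fun N : ℕ => lvbF ℓ (s * Real.log (N : ℝ)) / lvbF ℓ (Real.log (N : ℝ))) atTop
      (𝓝 (s ^ (1 - σ))) := (lvb_Flim h hF hs).comp hlog
  -- `mm ℓ ⌊N ^ s⌋ / F (log N)` and `mm ℓ N / F (log N)`
  have hinv : Tendsto (fun N : ℕ => 1 / ℓ 1 / lvbF ℓ (Real.log (N : ℝ))) atTop (𝓝 0) :=
    hFN.const_div_atTop _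
  have hA : Tendsto (fun N : ℕ => Pool.Agent.RDL.mm ℓ ⌊(N : ℝ) ^ s⌋₊ / lvbF ℓ (Real.log (N : ℝ))) atTop
      (𝓝 (s ^ (1 - σ))) := by
    have hup := hinv.add hFs
    rw [zero_add] at hup
    refine tendsto_of_tendsto_of_tendsto_of_le_of_le' hFs hup ?_ ?_
    · filter_upwards [eventually_ge_atTop 1, hFN.eventually_gt_atTop 0] with N hN hp
      have hN1 : (1 : ℝ) ≤ N := by exact_mod_cast hN
      have := (lvb_cmp' h (Real.one_le_rpow hN1 hs.le)).1
      rw [Real.log_rpow (by linarith)] at this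
      exact div_le_div_of_nonneg_right this hp.le
    · filter_upwards [eventually_ge_atTop 1, hFN.eventually_gt_atTop 0] with N hN hp
      have hN1 : (1 : ℝ) ≤ N := by exact_mod_cast hN
      have := (lvb_cmp' h (Real.one_le_rpow hN1 hs.le)).2
      rw [Real.log_rpow (by linarith)] at this
      rw [← add_div]
      exact div_le_div_of_nonneg_right this hp.le
  have hB : Tendsto (fun N : ℕ => Pool.Agent.RDL.mm ℓ N / lvbF ℓ (Real.log (N : ℝ))) atTop (𝓝 1) := by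
    have hup := hinv.add (tendsto_const_nhds (x := (1 : ℝ)))
    rw [zero_add] at hup
    refine tendsto_of_tendsto_of_tendsto_of_le_of_le' tendsto_const_nhds hup ?_ ?_
    · filter_upwards [eventually_ge_atTop 1, hFN.eventually_gt_atTop 0] with N hN hp
      have hN1 : (1 : ℝ) ≤ N := by exact_mod_cast hN
      have := (lvb_cmp' h hN1).1
      rw [Nat.floor_natCast] at this
      rw [le_div_iff₀ hp, one_mul]
      exact this
    · filter_upwards [eventually_ge_atTop 1, hFN.eventually_gt_atTop 0] with N hN hp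
      have hN1 : (1 : ℝ) ≤ N := by exact_mod_cast hN
      have := (lvb_cmp' h hN1).2
      rw [Nat.floor_natCast] at this
      rw [div_add' _ _ _ hp.ne', one_mul]
      exact div_le_div_of_nonneg_right this hp.le
  have hAB := hA.div hB one_ne_zero
  rw [div_one] at hAB
  refine hAB.congr' ?_
  filter_upwards [hFN.eventually_gt_atTop 0] with N hp
  simp only [Pi.div_apply]
  rw [div_div_div_cancel_right₀ hp.ne']

end Pool.Agent.RDL
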