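import Pool.Agent.RDL.Defs

/-!
# The iterated sum over the harmonic numbers is asymptotic to `log log n`
-/

set_option autoImplicit false

namespace Pool.Agent.RDL

open Finset Filter Topology

noncomputable section

/-- `1 + H_n` -/
def llA (n : ℕ) : ℝ := 1 + mm (fun _ => 1) n

theorem llA_zero : llA 0 = 1 := by simp [llA, mm]

theorem llA_succ (n : ℕ) : llA (n + 1) = llA n + 1 / ((n : ℝ) + 1) := by
  unfold llA mm
  rw [Finset.sum_Icc_succ_top (by omega)]
  push_cast
  ring

theorem llA_one_le (n : ℕ) : 1 ≤ llA n := by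
  induction n with
  | zero => rw [llA_zero]
  | succ n ih =>
    rw [llA_succ]
    have : (0 : ℝ) < 1 / ((n : ℝ) + 1) := by positivity
    linarith

theorem ll_succ (n : ℕ) : mm llA (n + 1) = mm llA n + 1 / (((n : ℝ) + 1) * llA (n + 1)) := by
  unfold mm
  rw [Finset.sum_Icc_succ_top (by omega)]
  push_cast
  ring

theorem ll_upper (n : ℕ) : mm llA n ≤ Real.log (llA n) := by
  induction n with
  | zero => simp [mm, llA_zero]
  | succ n ih =>
    have h1 := llA_one_le n
    have h2 := llA_one_le (n + 1)
    have hn : (0 : ℝ) < (n : ℝ) + 1 := by positivity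
    have h3 := Real.one_sub_inv_le_log_of_pos (show 0 < llA (n + 1) / llA n by positivity)
    rw [Real.log_div (by positivity) (by positivity)] at h3
    have h4 : 1 - (llA (n + 1) / llA n)⁻¹ = 1 / (((n : ℝ) + 1) * llA (n + 1)) := by
      have h5 : llA n = llA (n + 1) - 1 / ((n : ℝ) + 1) := by rw [llA_succ]; ring
      rw [inv_div]
      nth_rewrite 1 [h5]
      field_simp
      ring
    rw [ll_succ]
    linarith

theorem ll_lower (n : ℕ) : Real.log (llA n) ≤ mm llA n + (1 - 1 / llA n) := by
  induction n with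
  | zero => simp [mm, llA_zero]
  | succ n ih =>
    have h1 := llA_one_le n
    have h2 := llA_one_le (n + 1)
    have hn : (1 : ℝ) ≤ (n : ℝ) + 1 := by linarith [(Nat.cast_nonneg n : (0 : ℝ) ≤ n)]
    have h3 := Real.log_le_sub_one_of_pos (show 0 < llA (n + 1) / llA n by positivity)
    rw [Real.log_div (by positivity) (by positivity)] at h3
    have h4 : llA (n + 1) / llA n - 1 = 1 / ((n : ℝ) + 1) * (1 / llA n) := by
      rw [llA_succ]
      field_simp
      ring
    have h5 : 1 / llA (n + 1) ≤ 1 / llA n := by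
      refine one_div_le_one_div_of_le (by linarith) ?_
      rw [llA_succ]
      have : (0 : ℝ) < 1 / ((n : ℝ) + 1) := by positivity
      linarith
    have h6 : 1 / ((n : ℝ) + 1) ≤ 1 := by
      rw [div_le_one (by linarith)]
      exact hn
    have h7 : 1 / ((n : ℝ) + 1) * (1 / llA n - 1 / llA (n + 1)) ≤ 1 / llA n - 1 / llA (n + 1) :=
      mul_le_of_le_one_left (by linarith) h6
    have h8 : 1 / (((n : ℝ) + 1) * llA (n + 1)) = 1 / ((n : ℝ) + 1) * (1 / llA (n + 1)) := by
      rw [one_div_mul_one_div]
    rw [ll_succ, h8]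
    rw [h4] at h3
    nlinarith [h7, h3, ih]

theorem ll_ge (n : ℕ) : 1 + Real.log ((n : ℝ) + 1) ≤ llA n := by
  induction n with
  | zero => simp [llA_zero]
  | succ n ih =>
    rw [llA_succ]
    push_cast
    have hn : (0 : ℝ) < (n : ℝ) + 1 := by positivity
    have h3 := Real.log_le_sub_one_of_pos (show 0 < ((n : ℝ) + 1 + 1) / ((n : ℝ) + 1) by positivity)
    rw [Real.log_div (by positivity) (by positivity)] at h3
    have h4 : ((n : ℝ) + 1 + 1) / ((n : ℝ) + 1) - 1 = 1 / ((n : ℝ) + 1) := by
      field_simp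
      ring
    linarith

theorem ll_le {n : ℕ} (hn : 1 ≤ n) : llA n ≤ 2 + Real.log n := by
  induction n, hn using Nat.le_induction with
  | base =>
    have h1 : llA 1 = llA 0 + 1 / (((0 : ℕ) : ℝ) + 1) := llA_succ 0
    rw [h1, llA_zero]
    simp
    norm_num
  | succ n hn ih =>
    rw [llA_succ]
    push_cast
    have hn' : (0 : ℝ) < (n : ℝ) := by exact_mod_cast hn
    have h3 := Real.one_sub_inv_le_log_of_pos (show 0 < ((n : ℝ) + 1) / (n : ℝ) by positivity)
    rw [Real.log_div (by positivity) (by positivity)] at h3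
    have h4 : 1 - (((n : ℝ) + 1) / (n : ℝ))⁻¹ = 1 / ((n : ℝ) + 1) := by
      rw [inv_div]
      field_simp
      ring
    linarith

theorem ll_diff {n : ℕ} (hn : 1 ≤ Real.log n) :
    |1 + mm llA n - Real.log (Real.log n)| ≤ 1 + Real.log 3 := by
  have hn1 : 1 ≤ n := by
    rcases Nat.eq_zero_or_pos n with h | h
    · rw [h, Nat.cast_zero, Real.log_zero] at hn
      linarith
    · exact h
  have hn0 : (0 : ℝ) < n := by exact_mod_cast hn1
  have h1 := ll_upper n
  have h2 := ll_lower n
  have h3 := ll_ge n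
  have h4 := ll_le hn1
  have h5 : 0 ≤ 1 / llA n := by
    have := llA_one_le n
    positivity
  have h6 : Real.log n ≤ Real.log ((n : ℝ) + 1) := Real.log_le_log hn0 (by linarith)
  have h7 : Real.log (Real.log n) ≤ Real.log (llA n) := Real.log_le_log (by linarith) (by linarith)
  have h8 : Real.log (llA n) ≤ Real.log 3 + Real.log (Real.log n) := by
    rw [← Real.log_mul (by norm_num) (by linarith)]
    exact Real.log_le_log (by linarith [llA_one_le n]) (by linarith)
  have h9 : 0 ≤ Real.log 3 := Real.log_nonneg (by norm_num)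
  rw [abs_le]
  constructor
  · linarith
  · linarith

theorem mm_harm : Asymptotics.IsEquivalent atTop (fun n : ℕ => 1 + mm (fun k => 1 + mm (fun _ => 1) k) n)
    (fun n : ℕ => Real.log (Real.log n)) := by
  have hlog : Tendsto (fun n : ℕ => Real.log n) atTop atTop :=
    Real.tendsto_log_atTop.comp tendsto_natCast_atTop_atTop
  have hll : Tendsto (fun n : ℕ => Real.log (Real.log n)) atTop atTop :=
    Real.tendsto_log_atTop.comp hlog
  have h1 : (fun n : ℕ => 1 + mm llA n - Real.log (Real.log n)) =O[atTop] (fun _ : ℕ => (1 : ℝ)) := by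
    refine Asymptotics.IsBigO.of_bound (1 + Real.log 3) ?_
    filter_upwards [hlog.eventually_ge_atTop 1] with n hn
    rw [Real.norm_eq_abs, norm_one, mul_one]
    exact ll_diff hn
  have h2 : (fun _ : ℕ => (1 : ℝ)) =o[atTop] (fun n : ℕ => Real.log (Real.log n)) := by
    rw [Asymptotics.isLittleO_one_left_iff ℝ]
    exact tendsto_norm_atTop_atTop.comp hll
  exact h1.trans_isLittleO h2

end

end Pool.Agent.RDL
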