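import Pool.Agent.RDL.TransferL
import Pool.Agent.RDL.LVb
import Pool.Agent.RDL.LogLog
import Pool.Agent.RDL.Asx

/-!
# The class of corrections: walks with exact asymptotics
-/

set_option autoImplicit false

namespace Pool.Agent.RDL

open Finset Filter Topology

theorem lvar_one : LVar (fun _ => 1) 0 := by
  refine ⟨fun _ _ => one_pos, fun _ _ _ _ => le_rfl, fun s _ => ?_⟩
  rw [Real.rpow_zero]
  simp

/-- the elements of the class vary regularly in the logarithmic scale -/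
theorem Corr.lvar {m : ℕ → ℝ} (h : Corr m) : ∃ σ, LVar m σ := by
  induction h with
  | one => exact ⟨0, lvar_one⟩
  | step m₁ m₂ h₁ h₂ ih₁ ih₂ =>
    obtain ⟨σ₁, l₁⟩ := ih₁
    obtain ⟨σ₂, l₂⟩ := ih₂
    have hu := (h₁.sv h₂).unb
    exact ⟨_, ((l₁.sqrt_mul l₂).mm hu).one_add hu⟩

/-- **all corrections of the class**, exact asymptotics -/
theorem Corr.walkx {m : ℕ → ℝ} (h : Corr m) : ∃ (G : Type) (_ : Group G), Cent G ∧ ∃ ν : G →₀ ℝ, SP ν ∧ Par ν ∧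
    ∃ z κ : ℝ, Asf ν z κ (fun n => (n : ℝ) ^ (3 / 2 : ℝ) * (m n) ^ (1 / 2 : ℝ)) := by
  induction h with
  | one =>
    obtain ⟨G, iG, hc, ν, h1, h2, h3⟩ := int_pow 2
    obtain ⟨κ, hκ, hl⟩ := cb_lim
    refine ⟨G, iG, hc, ν, h1, h2, 1, κ ^ 3, one_pos, by positivity, ?_⟩
    refine (hl.pow 3).congr' ?_
    filter_upwards [eventually_ge_atTop 1] with n hn
    have hn0 : (0 : ℝ) < n := by exact_mod_cast hn
    rw [h3, one_pow, mul_one, Real.one_rpow, mul_one, mul_pow, ← Real.rpow_natCast ((n : ℝ) ^ (1 / 2 : ℝ)) 3,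
      ← Real.rpow_mul hn0.le]
    norm_num
  | step m₁ m₂ h₁ h₂ ih₁ ih₂ =>
    obtain ⟨G₁, i₁, hc₁, ν₁, a1, a2, z₁, κ₁, hz₁, hκ₁, hl₁⟩ := ih₁
    obtain ⟨G₂, i₂, hc₂, ν₂, b1, b2, z₂, κ₂, hz₂, hκ₂, hl₂⟩ := ih₂
    obtain ⟨p1, -, -⟩ := h₁.props
    obtain ⟨q1, -, -⟩ := h₂.props
    obtain ⟨σ, s1, s2, s3⟩ := prod_walk a1 a2 b1
    have hsv := h₁.sv h₂
    obtain ⟨σ₁, l₁⟩ := h₁.lvar
    obtain ⟨σ₂, l₂⟩ := h₂.lvar
    have hA : Asf σ (z₁ * z₂) (κ₁ * κ₂) (fun n => (n : ℝ) ^ 3 * (fun k => Real.sqrt (m₁ k * m₂ k)) n) := by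
      refine ⟨mul_pos hz₁ hz₂, mul_pos hκ₁ hκ₂, ?_⟩
      refine (hl₁.mul hl₂).congr' ?_
      filter_upwards [eventually_ge_atTop 1] with n hn
      have hn0 : (0 : ℝ) < n := by exact_mod_cast hn
      have hm₁ : 0 < m₁ n := by linarith [p1 n]
      have hm₂ : 0 < m₂ n := by linarith [q1 n]
      have e1 : (n : ℝ) ^ 3 = (n : ℝ) ^ (3 / 2 : ℝ) * (n : ℝ) ^ (3 / 2 : ℝ) := by
        rw [← Real.rpow_add hn0, ← Real.rpow_natCast]
        norm_num
      have e2 : Real.sqrt (m₁ n * m₂ n) = (m₁ n) ^ (1 / 2 : ℝ) * (m₂ n) ^ (1 / 2 : ℝ) := by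
        rw [Real.sqrt_eq_rpow, Real.mul_rpow hm₁.le hm₂.le]
      beta_reduce
      rw [s3, mul_pow, e1, e2]
      ring
    obtain ⟨τ, w, κ, t1, t2, hw, hκ, hl⟩ := transfer_L s1 s2 hsv (l₁.sqrt_mul l₂)
      ((l₁.sqrt_mul l₂).mm hsv.unb) hA
    refine ⟨Fr (G₁ × G₂), inferInstance, cent_fam (cent_prod hc₁ hc₂), τ, t1, t2, w, κ, hw, hκ, ?_⟩
    -- `1 + mm` instead of `mm`
    obtain ⟨M, hM⟩ : ∃ M : ℕ → ℝ, M = mm (fun k => Real.sqrt (m₁ k * m₂ k)) := ⟨_, rfl⟩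
    rw [← hM] at hl
    have hMpos : ∀ n, 1 ≤ n → 0 < M n := fun n hn => by
      rw [hM]
      exact mm_pos hsv hn
    have hMt : Tendsto M atTop atTop := by
      refine tendsto_atTop_atTop.2 fun B => ?_
      obtain ⟨N, hN⟩ := hsv.unb B
      refine ⟨N, fun n hn => ?_⟩
      rw [hM]
      exact hN.trans (mm_mono hsv hn)
    have hr : Tendsto (fun n => (1 + M n) / M n) atTop (𝓝 1) := by
      have h5 : Tendsto (fun n => 1 / M n + 1) atTop (𝓝 (0 + 1)) := (hMt.const_div_atTop 1).add_const 1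
      rw [zero_add] at h5
      refine h5.congr' ?_
      filter_upwards [eventually_ge_atTop 1] with n hn
      have := hMpos n hn
      field_simp
    have hr2 : Tendsto (fun n => ((1 + M n) / M n) ^ (1 / 2 : ℝ)) atTop (𝓝 1) := by
      have h5 := hr.rpow_const (p := (1 / 2 : ℝ)) (Or.inl one_ne_zero)
      rwa [Real.one_rpow] at h5
    have h6 := hl.mul hr2
    rw [mul_one] at h6
    refine h6.congr' ?_
    filter_upwards [eventually_ge_atTop 1] with n hn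
    have h7 := hMpos n hn
    rw [Real.div_rpow (by linarith) h7.le]
    have h8 : (M n) ^ (1 / 2 : ℝ) ≠ 0 := (Real.rpow_pos_of_pos h7 _).ne'
    rw [← hM]
    field_simp

/-- the class contains a sequence asymptotic to `log log n` -/
theorem corr_loglog_equiv : ∃ m : ℕ → ℝ, Corr m ∧
    Asymptotics.IsEquivalent atTop m (fun n : ℕ => Real.log (Real.log n)) := by
  have h1 := Corr.step _ _ Corr.one Corr.one
  have h2 := Corr.step _ _ h1 h1
  refine ⟨_, h2, ?_⟩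
  have hs : ∀ n, Real.sqrt ((1 + mm (fun _ => Real.sqrt (1 * 1)) n) * (1 + mm (fun _ => Real.sqrt (1 * 1)) n)) =
      1 + mm (fun _ => 1) n := by
    intro n
    rw [one_mul, Real.sqrt_one]
    refine Real.sqrt_mul_self ?_
    have : 0 ≤ mm (fun _ => (1 : ℝ)) n := Finset.sum_nonneg fun k _ => by positivity
    linarith
  have e : (fun n => 1 + mm (fun k => Real.sqrt ((1 + mm (fun _ => Real.sqrt (1 * 1)) k) *
      (1 + mm (fun _ => Real.sqrt (1 * 1)) k))) n) = fun n => 1 + mm (fun k => 1 + mm (fun _ => 1) k) n := by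
    have : (fun k => Real.sqrt ((1 + mm (fun _ => Real.sqrt (1 * 1)) k) *
      (1 + mm (fun _ => Real.sqrt (1 * 1)) k))) = fun k => 1 + mm (fun _ => 1) k := funext hs
    rw [this]
  rw [e]
  exact mm_harm

end Pool.Agent.RDL
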