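import Pool.Agent.RDL.SVa

/-!
# The critical weight: the second order expansion
-/

set_option autoImplicit false

namespace Pool.Agent.RDL

open Finset Filter Topology









/-- the function of `1 / W` in the equation of the free product -/
noncomputable def gg (b s : ℝ) : ℝ := Real.sqrt (b ^ 2 + s ^ 2) - s

theorem gg_pos {b s : ℝ} (hb : 0 < b) (hs : 0 ≤ s) : 0 < gg b s := by
  have : s < Real.sqrt (b ^ 2 + s ^ 2) := by
    rw [Real.lt_sqrt hs]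
    nlinarith
  unfold gg
  linarith

/-- Taylor expansion with explicit error -/
theorem gg_taylor {b p q : ℝ} (hb : 0 < b) (hp : 0 < p) (hpq : p ≤ q) :
    |gg b q - gg b p + (1 - p / Real.sqrt (b ^ 2 + p ^ 2)) * (q - p)| ≤ 2 / b * (q - p) ^ 2 := by
  set P := Real.sqrt (b ^ 2 + p ^ 2) with hP
  set Q := Real.sqrt (b ^ 2 + q ^ 2) with hQ
  have hq : 0 < q := hp.trans_le hpq
  have hPb : b ≤ P := Real.le_sqrt_of_sq_le (by nlinarith)
  have hPp : p ≤ P := Real.le_sqrt_of_sq_le (by nlinarith)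
  have hQq : q ≤ Q := Real.le_sqrt_of_sq_le (by nlinarith)
  have hP0 : 0 < P := hb.trans_le hPb
  have hQ0 : 0 < Q := hq.trans_le hQq
  have hPsq : P ^ 2 = b ^ 2 + p ^ 2 := Real.sq_sqrt (by positivity)
  have hQsq : Q ^ 2 = b ^ 2 + q ^ 2 := Real.sq_sqrt (by positivity)
  have hPQ : P ≤ Q := Real.sqrt_le_sqrt (by nlinarith)
  have h1 : (Q - P) * (Q + P) = (q - p) * (q + p) := by nlinarith
  have h2 : Q - P ≤ q - p := by
    have : (Q - P) * (Q + P) ≤ (q - p) * (Q + P) := by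
      rw [h1]
      exact mul_le_mul_of_nonneg_left (by linarith) (by linarith)
    exact le_of_mul_le_mul_right this (by linarith)
  have h3 : gg b q - gg b p + (1 - p / P) * (q - p) = (Q - P) - p / P * (q - p) := by
    unfold gg
    rw [← hP, ← hQ]
    ring
  have h4 : (Q - P) - p / P * (q - p) = (q - p) * (q * P - p * Q) / (P * (Q + P)) := by
    have : Q - P = (q - p) * (q + p) / (Q + P) := by
      rw [eq_div_iff (by linarith : Q + P ≠ 0)]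
      exact h1
    rw [this]
    field_simp
    ring
  rw [h3, h4, abs_div, abs_mul, abs_of_nonneg (by linarith : 0 ≤ q - p), abs_of_pos (by positivity : 0 < P * (Q + P))]
  have h5 : |q * P - p * Q| ≤ (q - p) * (2 * P) := by
    rw [abs_le]
    constructor <;> nlinarith
  rw [div_le_iff₀ (by positivity)]
  have h6 : (q - p) * |q * P - p * Q| ≤ (q - p) * ((q - p) * (2 * P)) :=
    mul_le_mul_of_nonneg_left h5 (by linarith)
  have h7 : (q - p) ^ 2 * (2 * P) ≤ 2 / b * (q - p) ^ 2 * (P * (Q + P)) := by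
    have : 2 / b * (q - p) ^ 2 * (P * (Q + P)) = (q - p) ^ 2 * (2 * P) * ((Q + P) / b) := by
      field_simp
    rw [this]
    have h8 : 1 ≤ (Q + P) / b := by
      rw [le_div_iff₀ hb]
      linarith
    nlinarith [mul_nonneg (sq_nonneg (q - p)) (by positivity : (0 : ℝ) ≤ 2 * P)]
  nlinarith


theorem gg_le {b s : ℝ} (hb : 0 < b) (hs : 0 ≤ s) : gg b s ≤ b := by
  have : Real.sqrt (b ^ 2 + s ^ 2) ≤ b + s := by
    rw [Real.sqrt_le_left (by linarith)]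
    nlinarith
  unfold gg
  linarith

/-- the expansion at the critical weight, with an explicit error -/
theorem key_exp {b α R ξ A a AD : ℝ} (hb : 0 < b) (hα : 0 < α) (hR : 0 < R) (hξ : R / 2 ≤ ξ) (hξR : ξ ≤ R)
    (hA : 0 < A) (ha : A / 2 ≤ a) (haA : a ≤ A) (hAD : 0 < AD) (hD : A - a ≤ AD * (R - ξ))
    (hcrit : 1 - (α / A) / Real.sqrt (b ^ 2 + (α / A) ^ 2) = A ^ 2 / (R ^ 2 * AD)) :
    |(α / ξ + gg b (α / a)) - (α / R + gg b (α / A)) - α * (AD * (R - ξ) - (A - a)) / (R ^ 2 * AD)| ≤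
      (2 * α / R ^ 3 + 2 * α * AD / (R ^ 2 * A) + 2 / b * (2 * α * AD / A ^ 2) ^ 2) * (R - ξ) ^ 2 := by
  have hξ0 : 0 < ξ := by linarith
  have ha0 : 0 < a := by linarith
  have T := gg_taylor (b := b) (p := α / A) (q := α / a) hb (by positivity)
    (div_le_div_of_nonneg_left hα.le ha0 haA)
  rw [hcrit] at T
  have hid : (α / ξ + gg b (α / a)) - (α / R + gg b (α / A)) - α * (AD * (R - ξ) - (A - a)) / (R ^ 2 * AD) =
      (gg b (α / a) - gg b (α / A) + A ^ 2 / (R ^ 2 * AD) * (α / a - α / A)) +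
        (α * (R - ξ) ^ 2 / (R ^ 2 * ξ) - α * (A - a) ^ 2 / (R ^ 2 * AD * a)) := by
    field_simp
    ring
  rw [hid]
  have hqp : α / a - α / A = α * (A - a) / (A * a) := by
    field_simp
  have hqp0 : 0 ≤ α / a - α / A := by
    rw [hqp]
    have : 0 ≤ A - a := by linarith
    positivity
  have hqp1 : α / a - α / A ≤ 2 * α * AD / A ^ 2 * (R - ξ) := by
    rw [hqp, div_le_iff₀ (by positivity)]
    have h1 : 2 * α * AD / A ^ 2 * (R - ξ) * (A * a) = α * (AD * (R - ξ)) * (2 * a / A) := by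
      field_simp
    rw [h1]
    have h2 : 1 ≤ 2 * a / A := by
      rw [le_div_iff₀ hA]
      linarith
    have h3 : 0 ≤ α * (AD * (R - ξ)) := by
      have : 0 ≤ R - ξ := by linarith
      positivity
    have h4 : α * (A - a) ≤ α * (AD * (R - ξ)) := mul_le_mul_of_nonneg_left hD hα.le
    exact h4.trans (le_mul_of_one_le_right h3 h2)
  have hδ0 : 0 ≤ R - ξ := by linarith
  have e1 : 2 / b * (α / a - α / A) ^ 2 ≤ 2 / b * (2 * α * AD / A ^ 2) ^ 2 * (R - ξ) ^ 2 := by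
    have : (α / a - α / A) ^ 2 ≤ (2 * α * AD / A ^ 2 * (R - ξ)) ^ 2 := by
      apply pow_le_pow_left₀ hqp0 hqp1
    calc 2 / b * (α / a - α / A) ^ 2 ≤ 2 / b * (2 * α * AD / A ^ 2 * (R - ξ)) ^ 2 :=
          mul_le_mul_of_nonneg_left this (by positivity)
      _ = _ := by ring
  have e2 : α * (R - ξ) ^ 2 / (R ^ 2 * ξ) ≤ 2 * α / R ^ 3 * (R - ξ) ^ 2 := by
    rw [div_le_iff₀ (by positivity)]
    have : 2 * α / R ^ 3 * (R - ξ) ^ 2 * (R ^ 2 * ξ) = α * (R - ξ) ^ 2 * (2 * ξ / R) := by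
      field_simp
    rw [this]
    have h2 : 1 ≤ 2 * ξ / R := by
      rw [le_div_iff₀ hR]
      linarith
    exact le_mul_of_one_le_right (mul_nonneg hα.le (sq_nonneg (R - ξ))) h2
  have e20 : 0 ≤ α * (R - ξ) ^ 2 / (R ^ 2 * ξ) := by positivity
  have e3 : α * (A - a) ^ 2 / (R ^ 2 * AD * a) ≤ 2 * α * AD / (R ^ 2 * A) * (R - ξ) ^ 2 := by
    rw [div_le_iff₀ (by positivity)]
    have : 2 * α * AD / (R ^ 2 * A) * (R - ξ) ^ 2 * (R ^ 2 * AD * a) = α * (AD * (R - ξ)) ^ 2 * (2 * a / A) := by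
      field_simp
    rw [this]
    have h2 : 1 ≤ 2 * a / A := by
      rw [le_div_iff₀ hA]
      linarith
    have h3 : (A - a) ^ 2 ≤ (AD * (R - ξ)) ^ 2 := pow_le_pow_left₀ (by linarith) hD 2
    have h4 : α * (A - a) ^ 2 ≤ α * (AD * (R - ξ)) ^ 2 := mul_le_mul_of_nonneg_left h3 hα.le
    have h5 : 0 ≤ α * (AD * (R - ξ)) ^ 2 := by positivity
    exact h4.trans (le_mul_of_one_le_right h5 h2)
  have e30 : 0 ≤ α * (A - a) ^ 2 / (R ^ 2 * AD * a) := by positivity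
  have e4 : |α * (R - ξ) ^ 2 / (R ^ 2 * ξ) - α * (A - a) ^ 2 / (R ^ 2 * AD * a)| ≤
      2 * α / R ^ 3 * (R - ξ) ^ 2 + 2 * α * AD / (R ^ 2 * A) * (R - ξ) ^ 2 := by
    rw [abs_le]
    constructor <;> linarith [mul_nonneg (by positivity : 0 ≤ 2 * α / R ^ 3) (sq_nonneg (R - ξ)),
      mul_nonneg (by positivity : 0 ≤ 2 * α * AD / (R ^ 2 * A)) (sq_nonneg (R - ξ))]
  refine (abs_add_le _ _).trans ((add_le_add (T.trans e1) e4).trans (le_of_eq ?_))
  ring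

set_option maxHeartbeats 2000000 in
/-- at the critical weight the distance in `z` is quadratic in the distance in the Green function, up to `mm` -/
theorem crit_exp {u : ℕ → ℝ} {R α c' C' δ₀ : ℝ} {ℓ : ℕ → ℝ} (hR : 0 < R) (hℓ : SV ℓ) (hα : CritW u R α)
    (hcont : ContinuousOn (AA u) (Set.Icc 0 R)) (hpos : ∀ ξ ∈ Set.Ioc 0 R, 0 < AA u ξ)
    (hlt : ∀ ξ ∈ Set.Ico 0 R, AA u ξ < AA u R) (hc' : 0 < c') (hδ₀ : δ₀ ∈ Set.Ioo 0 (min 1 R))
    (hAD : 0 < AD u R)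
    (h : ∀ δ ∈ Set.Ioc 0 δ₀, c' * δ ^ 2 * mm ℓ ⌊1 / δ⌋₊ ≤ AD u R * δ - (AA u R - AA u (R - δ)) ∧
      AD u R * δ - (AA u R - AA u (R - δ)) ≤ C' * δ ^ 2 * mm ℓ ⌊1 / δ⌋₊) :
    (∀ ξ ∈ Set.Ioc 0 R, 0 < zz u α ξ) ∧ ContinuousOn (zz u α) (Set.Ioc 0 R) ∧
    ∃ c > (0 : ℝ), ∃ C : ℝ, ∃ δ₁ ∈ Set.Ioo 0 (min 1 R), ∀ ξ ∈ Set.Ico (R - δ₁) R,
      zz u α ξ < zz u α R ∧ 0 < AA u R / α - AA u ξ / α ∧ AA u R / α - AA u ξ / α < 1 ∧
      c * (AA u R / α - AA u ξ / α) ^ 2 * mm ℓ ⌊1 / (AA u R / α - AA u ξ / α)⌋₊ ≤ zz u α R - zz u α ξ ∧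
      zz u α R - zz u α ξ ≤ C * (AA u R / α - AA u ξ / α) ^ 2 * mm ℓ ⌊1 / (AA u R / α - AA u ξ / α)⌋₊ := by
  obtain ⟨hα0, hα1, hcr⟩ := hα
  obtain ⟨hδ00, hδ01⟩ := hδ₀
  set b := 1 - α with hbdef
  have hb : 0 < b := by linarith
  set A := AA u R with hAdef
  set D := AD u R with hDdef
  have hA : 0 < A := hpos R ⟨hR, le_rfl⟩
  -- the function G
  have hzz : ∀ ξ, zz u α ξ = 1 / (α / ξ + gg b (α / AA u ξ)) := by
    intro ξ
    unfold zz gg
    rw [add_sub_assoc]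
  have hG0 : ∀ ξ ∈ Set.Ioc 0 R, 0 < α / ξ + gg b (α / AA u ξ) := by
    intro ξ hξ
    have h1 := hpos ξ hξ
    have h2 : 0 < gg b (α / AA u ξ) := gg_pos hb (by positivity)
    have h3 : 0 < α / ξ := div_pos hα0 hξ.1
    linarith
  have hzpos : ∀ ξ ∈ Set.Ioc 0 R, 0 < zz u α ξ := by
    intro ξ hξ
    rw [hzz]
    exact one_div_pos.2 (hG0 ξ hξ)
  refine ⟨hzpos, ?_, ?_⟩
  · have hAc : ContinuousOn (AA u) (Set.Ioc 0 R) := hcont.mono Set.Ioc_subset_Icc_self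
    have hG : ContinuousOn (fun ξ => α / ξ + gg b (α / AA u ξ)) (Set.Ioc 0 R) := by
      unfold gg
      have h1 : ContinuousOn (fun ξ : ℝ => α / ξ) (Set.Ioc 0 R) :=
        continuousOn_const.div continuousOn_id (fun ξ hξ => hξ.1.ne')
      have h2 : ContinuousOn (fun ξ : ℝ => α / AA u ξ) (Set.Ioc 0 R) :=
        continuousOn_const.div hAc (fun ξ hξ => (hpos ξ hξ).ne')
      exact h1.add (((continuousOn_const.add (h2.pow 2)).sqrt).sub h2)
    have : ContinuousOn (fun ξ => 1 / (α / ξ + gg b (α / AA u ξ))) (Set.Ioc 0 R) :=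
      continuousOn_const.div hG (fun ξ hξ => (hG0 ξ hξ).ne')
    exact this.congr (fun ξ _ => hzz ξ)
  -- the critical equation
  have hcrit : 1 - (α / A) / Real.sqrt (b ^ 2 + (α / A) ^ 2) = A ^ 2 / (R ^ 2 * D) := by
    rw [← hcr]
    congr 1
    have h1 : b ^ 2 + (α / A) ^ 2 = (α / A) ^ 2 * (1 + b ^ 2 * (A / α) ^ 2) := by
      field_simp
      ring
    rw [h1, Real.sqrt_mul (by positivity), Real.sqrt_sq (by positivity)]
    have h2 : 0 < α / A := by positivity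
    have h3 : 0 < Real.sqrt (1 + b ^ 2 * (A / α) ^ 2) := Real.sqrt_pos.2 (by positivity)
    field_simp
  -- constants
  obtain ⟨Cs, hCs⟩ := mm_le_sqrt hℓ
  set K := 2 * α / R ^ 3 + 2 * α * D / (R ^ 2 * A) + 2 / b * (2 * α * D / A ^ 2) ^ 2 with hK
  have hK0 : 0 < K := by positivity
  obtain ⟨N, hN⟩ := hℓ.unb (2 * K * (R ^ 2 * D) / (α * c'))
  obtain ⟨K₁, hK₁⟩ := exists_nat_ge (4 * α / D)
  obtain ⟨K₂, hK₂⟩ := exists_nat_ge (2 * D / α)
  obtain ⟨C₁, hC₁⟩ := mm_mul hℓ K₁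
  obtain ⟨C₂, hC₂⟩ := mm_mul hℓ K₂
  set K₃ := |C'| * |Cs| + 1 with hK₃
  have hK₃0 : 0 < K₃ := by positivity
  set GR := α / R + gg b (α / A) with hGR
  have hGR0 : 0 < GR := hG0 R ⟨hR, le_rfl⟩
  set G1 := 2 * α / R + b with hG1
  have hG10 : 0 < G1 := by positivity
  set e := α * c' / (2 * (R ^ 2 * D)) with he
  have he0 : 0 < e := by positivity
  set δ₁ := min (min δ₀ (R / 2)) (min (min (A / (2 * D)) (α / (2 * D))) (min ((D / (2 * K₃)) ^ 2) (1 / (N + 1)))) with hδ₁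
  have hδ₁0 : 0 < δ₁ := by
    rw [hδ₁]
    refine lt_min (lt_min hδ00 (by positivity)) (lt_min (lt_min (by positivity) (by positivity))
      (lt_min (by positivity) (by positivity)))
  have hδ₁a : δ₁ ≤ δ₀ := (min_le_left _ _).trans (min_le_left _ _)
  have hδ₁b : δ₁ ≤ R / 2 := (min_le_left _ _).trans (min_le_right _ _)
  have hδ₁c : δ₁ ≤ A / (2 * D) := (min_le_right _ _).trans ((min_le_left _ _).trans (min_le_left _ _))
  have hδ₁d : δ₁ ≤ α / (2 * D) := (min_le_right _ _).trans ((min_le_left _ _).trans (min_le_right _ _))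
  have hδ₁e : δ₁ ≤ (D / (2 * K₃)) ^ 2 := (min_le_right _ _).trans ((min_le_right _ _).trans (min_le_left _ _))
  have hδ₁f : δ₁ ≤ 1 / (N + 1) := (min_le_right _ _).trans ((min_le_right _ _).trans (min_le_right _ _))
  refine ⟨e / (GR * G1) / ((D / α) ^ 2 * max C₁ 1), by positivity,
    (α * |C'| / (R ^ 2 * D) + e) / (GR * GR) * ((2 * α / D) ^ 2 * max C₂ 1), δ₁,
    ⟨hδ₁0, lt_of_le_of_lt hδ₁a hδ01⟩, ?_⟩
  intro ξ hξ
  obtain ⟨δ, hδ⟩ : ∃ δ, δ = R - ξ := ⟨_, rfl⟩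
  have hδ0 : 0 < δ := by rw [hδ]; linarith [hξ.2]
  have hδδ₁ : δ ≤ δ₁ := by rw [hδ]; linarith [hξ.1]
  have hξδ : ξ = R - δ := by rw [hδ]; ring
  have hδ1 : δ < 1 := (hδδ₁.trans hδ₁a).trans_lt (hδ01.trans_le (min_le_left _ _))
  have hξR2 : R / 2 ≤ ξ := by rw [hξδ]; linarith
  have hξ0 : 0 < ξ := by linarith
  have ha0 : 0 < AA u ξ := hpos ξ ⟨hξ0, hξ.2.le⟩
  have haA : AA u ξ < A := hlt ξ ⟨hξ0.le, hξ.2⟩
  obtain ⟨hE1, hE2⟩ := h δ ⟨hδ0, hδδ₁.trans hδ₁a⟩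
  rw [← hξδ] at hE1 hE2
  set a := AA u ξ with hadef
  set M := mm ℓ ⌊1 / δ⌋₊ with hM
  have hfl : (1 : ℝ) / δ / 2 ≤ (⌊1 / δ⌋₊ : ℝ) := by
    have h1 : 1 ≤ 1 / δ := by rw [le_div_iff₀ hδ0]; linarith
    have h2 := Nat.lt_floor_add_one (1 / δ)
    have h3 : (1 : ℝ) ≤ (⌊1 / δ⌋₊ : ℝ) := by exact_mod_cast Nat.one_le_floor_iff _ |>.2 h1
    linarith
  have hfl1 : 1 ≤ ⌊1 / δ⌋₊ := by
    rw [Nat.one_le_floor_iff, le_div_iff₀ hδ0]
    linarith
  have hfl2 : (⌊1 / δ⌋₊ : ℝ) ≤ 1 / δ := Nat.floor_le (by positivity)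
  have hM0 : 0 < M := mm_pos hℓ hfl1
  have hMN : 2 * K * (R ^ 2 * D) / (α * c') ≤ M := by
    refine hN.trans (mm_mono hℓ ?_)
    apply Nat.le_floor
    rw [le_div_iff₀ hδ0]
    have : δ * (N + 1) ≤ 1 := by
      have := hδδ₁.trans hδ₁f
      rwa [le_div_iff₀ (by positivity)] at this
    have h4 : (N : ℝ) * δ = δ * (N + 1) - δ := by ring
    rw [h4]
    linarith
  set E := D * δ - (A - a) with hE
  have hE0 : 0 ≤ E := le_trans (by positivity) hE1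
  have hDle : A - a ≤ D * δ := by rw [hE] at hE0; linarith
  have haA2 : A / 2 ≤ a := by
    have h1 : D * δ ≤ A / 2 := by
      calc D * δ ≤ D * (A / (2 * D)) := mul_le_mul_of_nonneg_left (hδδ₁.trans hδ₁c) hAD.le
        _ = A / 2 := by field_simp
    linarith
  -- E is at most half of the linear term
  have hE3 : E ≤ D * δ / 2 := by
    have h1 : M ≤ |Cs| * Real.sqrt (1 / δ) := by
      refine (hCs _ hfl1).trans ?_
      have h2 : Real.sqrt (⌊1 / δ⌋₊ : ℝ) ≤ Real.sqrt (1 / δ) := Real.sqrt_le_sqrt hfl2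
      calc Cs * Real.sqrt (⌊1 / δ⌋₊ : ℝ) ≤ |Cs| * Real.sqrt (⌊1 / δ⌋₊ : ℝ) :=
            mul_le_mul_of_nonneg_right (le_abs_self _) (Real.sqrt_nonneg _)
        _ ≤ |Cs| * Real.sqrt (1 / δ) := mul_le_mul_of_nonneg_left h2 (abs_nonneg _)
    have h2 : δ * Real.sqrt (1 / δ) = Real.sqrt δ := by
      rw [Real.sqrt_div zero_le_one, Real.sqrt_one, mul_one_div, Real.div_sqrt]
    have h3 : Real.sqrt δ ≤ D / (2 * K₃) := by
      rw [Real.sqrt_le_left (by positivity)]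
      exact hδδ₁.trans hδ₁e
    calc E ≤ C' * δ ^ 2 * M := hE2
      _ ≤ |C'| * δ ^ 2 * (|Cs| * Real.sqrt (1 / δ)) := by
          refine mul_le_mul ?_ h1 hM0.le (by positivity)
          exact mul_le_mul_of_nonneg_right (le_abs_self _) (by positivity)
      _ = (|C'| * |Cs|) * δ * (δ * Real.sqrt (1 / δ)) := by ring
      _ = (|C'| * |Cs|) * δ * Real.sqrt δ := by rw [h2]
      _ ≤ K₃ * δ * (D / (2 * K₃)) := by
          refine mul_le_mul ?_ h3 (Real.sqrt_nonneg _) (by positivity)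
          refine mul_le_mul_of_nonneg_right ?_ hδ0.le
          rw [hK₃]; linarith
      _ = D * δ / 2 := by field_simp
  -- y
  set y := A / α - a / α with hy
  have hy' : y = (A - a) / α := by rw [hy]; ring
  have hy0 : 0 < y := by rw [hy']; exact div_pos (by linarith) hα0
  have hyu : y ≤ D / α * δ := by
    rw [hy', div_le_iff₀ hα0]
    calc A - a ≤ D * δ := hDle
      _ = D / α * δ * α := by field_simp
  have hyl : D / (2 * α) * δ ≤ y := by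
    rw [hy', le_div_iff₀ hα0]
    calc D / (2 * α) * δ * α = D * δ / 2 := by field_simp
      _ ≤ A - a := by rw [hE] at hE3; linarith
  have hy1 : y < 1 := by
    have : D / α * δ ≤ 1 / 2 := by
      calc D / α * δ ≤ D / α * (α / (2 * D)) := mul_le_mul_of_nonneg_left (hδδ₁.trans hδ₁d) (by positivity)
        _ = 1 / 2 := by field_simp
    linarith
  have hfy1 : 1 ≤ ⌊1 / y⌋₊ := by
    rw [Nat.one_le_floor_iff, le_div_iff₀ hy0]
    linarith
  have hfy : (1 : ℝ) / y / 2 ≤ (⌊1 / y⌋₊ : ℝ) := by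
    have h2 := Nat.lt_floor_add_one (1 / y)
    have h3 : (1 : ℝ) ≤ (⌊1 / y⌋₊ : ℝ) := by exact_mod_cast hfy1
    linarith
  have hfy2 : (⌊1 / y⌋₊ : ℝ) ≤ 1 / y := Nat.floor_le (by positivity)
  set Y := mm ℓ ⌊1 / y⌋₊ with hY
  have hY0 : 0 < Y := mm_pos hℓ hfy1
  -- comparison of the two levels
  have hYM : Y ≤ max C₁ 1 * M := by
    have h1 : ⌊1 / y⌋₊ ≤ K₁ * ⌊1 / δ⌋₊ := by
      have h2 : (⌊1 / y⌋₊ : ℝ) ≤ K₁ * ⌊1 / δ⌋₊ := by
        calc (⌊1 / y⌋₊ : ℝ) ≤ 1 / y := hfy2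
          _ ≤ 1 / (D / (2 * α) * δ) := one_div_le_one_div_of_le (by positivity) hyl
          _ = 4 * α / D * (1 / δ / 2) := by field_simp; ring
          _ ≤ K₁ * ⌊1 / δ⌋₊ := mul_le_mul hK₁ hfl (by positivity) (by positivity)
      exact_mod_cast h2
    calc Y ≤ mm ℓ (K₁ * ⌊1 / δ⌋₊) := mm_mono hℓ h1
      _ ≤ C₁ * M := hC₁ _ hfl1
      _ ≤ max C₁ 1 * M := mul_le_mul_of_nonneg_right (le_max_left _ _) hM0.le
  have hMY : M ≤ max C₂ 1 * Y := by
    have h1 : ⌊1 / δ⌋₊ ≤ K₂ * ⌊1 / y⌋₊ := by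
      have h2 : (⌊1 / δ⌋₊ : ℝ) ≤ K₂ * ⌊1 / y⌋₊ := by
        have h3 : 1 / δ ≤ D / α / y := by
          rw [div_le_div_iff₀ hδ0 hy0]
          linarith
        calc (⌊1 / δ⌋₊ : ℝ) ≤ 1 / δ := hfl2
          _ ≤ D / α / y := h3
          _ = 2 * D / α * (1 / y / 2) := by field_simp
          _ ≤ K₂ * ⌊1 / y⌋₊ := mul_le_mul hK₂ hfy (by positivity) (by positivity)
      exact_mod_cast h2
    calc M ≤ mm ℓ (K₂ * ⌊1 / y⌋₊) := mm_mono hℓ h1
      _ ≤ C₂ * Y := hC₂ _ hfy1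
      _ ≤ max C₂ 1 * Y := mul_le_mul_of_nonneg_right (le_max_left _ _) hY0.le
  -- the expansion
  have hkey := key_exp (b := b) (α := α) (R := R) (ξ := ξ) (A := A) (a := a) (AD := D) hb hα0 hR hξR2 hξ.2.le hA haA2
    haA.le hAD (by rw [← hδ]; exact hDle) hcrit
  rw [← hδ, ← hE, ← hK, ← hGR] at hkey
  set Gξ := α / ξ + gg b (α / a) with hGξ
  have hGξ0 : 0 < Gξ := hG0 ξ ⟨hξ0, hξ.2.le⟩
  have hKM : K * δ ^ 2 ≤ e * δ ^ 2 * M := by
    have h1 : K ≤ e * M := by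
      rw [div_le_iff₀ (by positivity)] at hMN
      rw [he, div_mul_eq_mul_div, le_div_iff₀ (by positivity)]
      linarith
    calc K * δ ^ 2 ≤ e * M * δ ^ 2 := mul_le_mul_of_nonneg_right h1 (sq_nonneg δ)
      _ = e * δ ^ 2 * M := by ring
  have hαE : 2 * e * δ ^ 2 * M ≤ α * E / (R ^ 2 * D) := by
    rw [le_div_iff₀ (by positivity)]
    have : 2 * e * δ ^ 2 * M * (R ^ 2 * D) = α * (c' * δ ^ 2 * M) := by
      rw [he]; field_simp
    rw [this]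
    exact mul_le_mul_of_nonneg_left hE1 hα0.le
  have hαE2 : α * E / (R ^ 2 * D) ≤ α * |C'| / (R ^ 2 * D) * δ ^ 2 * M := by
    rw [div_le_iff₀ (by positivity)]
    have : α * |C'| / (R ^ 2 * D) * δ ^ 2 * M * (R ^ 2 * D) = α * (|C'| * δ ^ 2 * M) := by
      field_simp
    rw [this]
    refine mul_le_mul_of_nonneg_left (hE2.trans ?_) hα0.le
    exact mul_le_mul_of_nonneg_right (mul_le_mul_of_nonneg_right (le_abs_self _) (by positivity)) hM0.le
  have hlow : e * δ ^ 2 * M ≤ Gξ - GR := by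
    have := (abs_le.1 hkey).1
    linarith
  have hupp : Gξ - GR ≤ (α * |C'| / (R ^ 2 * D) + e) * δ ^ 2 * M := by
    have := (abs_le.1 hkey).2
    have h2 : (α * |C'| / (R ^ 2 * D) + e) * δ ^ 2 * M = α * |C'| / (R ^ 2 * D) * δ ^ 2 * M + e * δ ^ 2 * M := by ring
    rw [h2]
    linarith
  have hdiff0 : 0 < Gξ - GR := lt_of_lt_of_le (by positivity) hlow
  have hGξ1 : Gξ ≤ G1 := by
    have h1 : α / ξ ≤ 2 * α / R := by
      rw [div_le_div_iff₀ hξ0 hR]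
      have h3 : α * R ≤ α * (2 * ξ) := mul_le_mul_of_nonneg_left (by linarith) hα0.le
      calc α * R ≤ α * (2 * ξ) := h3
        _ = 2 * α * ξ := by ring
    have h2 : gg b (α / a) ≤ b := gg_le hb (by positivity)
    rw [hGξ, hG1]
    linarith
  have hzd : zz u α R - zz u α ξ = (Gξ - GR) / (GR * Gξ) := by
    rw [hzz, hzz, ← hAdef, ← hadef, ← hGR, ← hGξ]
    field_simp
  have hzd0 : 0 < zz u α R - zz u α ξ := by
    rw [hzd]
    positivity
  refine ⟨by linarith, hy0, hy1, ?_, ?_⟩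
  · rw [hzd]
    have h1 : e / (GR * G1) * (δ ^ 2 * M) ≤ (Gξ - GR) / (GR * Gξ) := by
      calc e / (GR * G1) * (δ ^ 2 * M) = e * δ ^ 2 * M / (GR * G1) := by ring
        _ ≤ (Gξ - GR) / (GR * G1) := by gcongr
        _ ≤ (Gξ - GR) / (GR * Gξ) := by gcongr
    refine le_trans ?_ h1
    have h2 : y ^ 2 * Y ≤ (D / α * δ) ^ 2 * (max C₁ 1 * M) :=
      mul_le_mul (pow_le_pow_left₀ hy0.le hyu 2) hYM hY0.le (by positivity)
    calc e / (GR * G1) / ((D / α) ^ 2 * max C₁ 1) * y ^ 2 * Y =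
          e / (GR * G1) / ((D / α) ^ 2 * max C₁ 1) * (y ^ 2 * Y) := by ring
      _ ≤ e / (GR * G1) / ((D / α) ^ 2 * max C₁ 1) * ((D / α * δ) ^ 2 * (max C₁ 1 * M)) :=
          mul_le_mul_of_nonneg_left h2 (by positivity)
      _ = e / (GR * G1) * (δ ^ 2 * M) := by
          have : max C₁ 1 ≠ 0 := by positivity
          field_simp
  · rw [hzd]
    have h1 : (Gξ - GR) / (GR * Gξ) ≤ (α * |C'| / (R ^ 2 * D) + e) / (GR * GR) * (δ ^ 2 * M) := by
      calc (Gξ - GR) / (GR * Gξ) ≤ (Gξ - GR) / (GR * GR) := by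
            gcongr
            linarith
        _ ≤ (α * |C'| / (R ^ 2 * D) + e) * δ ^ 2 * M / (GR * GR) := by gcongr
        _ = (α * |C'| / (R ^ 2 * D) + e) / (GR * GR) * (δ ^ 2 * M) := by ring
    refine h1.trans ?_
    have h2 : δ ≤ 2 * α / D * y := by
      calc δ = 2 * α / D * (D / (2 * α) * δ) := by field_simp
        _ ≤ 2 * α / D * y := mul_le_mul_of_nonneg_left hyl (by positivity)
    have h3 : δ ^ 2 * M ≤ (2 * α / D * y) ^ 2 * (max C₂ 1 * Y) :=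
      mul_le_mul (pow_le_pow_left₀ hδ0.le h2 2) hMY hM0.le (by positivity)
    calc (α * |C'| / (R ^ 2 * D) + e) / (GR * GR) * (δ ^ 2 * M) ≤
          (α * |C'| / (R ^ 2 * D) + e) / (GR * GR) * ((2 * α / D * y) ^ 2 * (max C₂ 1 * Y)) :=
          mul_le_mul_of_nonneg_left h3 (by positivity)
      _ = _ := by ring

end Pool.Agent.RDL
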