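import Pool.Agent.RDL.LVDefs

/-!
# Regular variation in the logarithmic scale: composition, products, sums
-/

set_option autoImplicit false

namespace Pool.Agent.RDL

open Finset Filter Topology

theorem LVar.comp {ℓ : ℕ → ℝ} {σ : ℝ} (h : LVar ℓ σ) {ι : Type} {F : Filter ι} {f g : ι → ℕ}
    (hg : Tendsto g F atTop) {s : ℝ} (hs : 0 < s)
    (h1 : Tendsto (fun i => Real.log (f i) / Real.log (g i)) F (𝓝 s)) :
    Tendsto (fun i => ℓ (f i) / ℓ (g i)) F (𝓝 (s ^ σ)) := by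
  have hcont : ContinuousAt (fun x : ℝ => x ^ σ) s :=
    Real.continuousAt_rpow_const s σ (Or.inl hs.ne')
  have hg2 : ∀ᶠ i in F, 2 ≤ g i := hg.eventually_ge_atTop 2
  rw [tendsto_order]
  constructor
  · intro a ha
    -- a smaller exponent
    have h2 : ∀ᶠ x in 𝓝 s, a < x ^ σ := hcont.eventually (lt_mem_nhds ha)
    have h3 : ∀ᶠ x in 𝓝 s, 0 < x := lt_mem_nhds hs
    obtain ⟨r, hr, hr1⟩ : ∃ r < s, ∀ x ∈ Set.Ioc r s, a < x ^ σ ∧ 0 < x := by
      have h4 : ∀ᶠ x in 𝓝[≤] s, a < x ^ σ ∧ 0 < x := nhdsWithin_le_nhds (h2.and h3)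
      obtain ⟨r, hr, hr1⟩ := (mem_nhdsLE_iff_exists_Ioc_subset' (show s - 1 < s by linarith)).1 h4
      exact ⟨r, hr, hr1⟩
    obtain ⟨x, hx⟩ : ∃ x, x = (r + s) / 2 := ⟨_, rfl⟩
    have hxs : x < s := by rw [hx]; linarith
    have hrx : r < x := by rw [hx]; linarith
    obtain ⟨hxa, hx0⟩ := hr1 x ⟨hrx, hxs.le⟩
    have h5 : Tendsto (fun i => ℓ ⌊((g i : ℕ) : ℝ) ^ x⌋₊ / ℓ (g i)) F (𝓝 (x ^ σ)) :=
      (h.lim x hx0).comp hg
    filter_upwards [h5.eventually (lt_mem_nhds hxa), h1.eventually (lt_mem_nhds hxs), hg2] with i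
      h6 h7 h8
    have hg1 : (1 : ℝ) < g i := by exact_mod_cast h8
    have hlog : 0 < Real.log (g i) := Real.log_pos hg1
    rw [lt_div_iff₀ hlog] at h7
    have hf0 : 0 < Real.log (f i) := lt_trans (mul_pos hx0 hlog) h7
    have hf1 : (0 : ℝ) < f i := by
      rcases Nat.eq_zero_or_pos (f i) with h9 | h9
      · rw [h9, Nat.cast_zero, Real.log_zero] at hf0
        exact absurd hf0 (lt_irrefl _)
      · exact_mod_cast h9
    have h9 : ((g i : ℕ) : ℝ) ^ x ≤ f i := by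
      rw [Real.rpow_def_of_pos (by linarith), ← Real.exp_log hf1]
      refine Real.exp_le_exp.2 ?_
      rw [mul_comm]
      exact h7.le
    have h10 : ⌊((g i : ℕ) : ℝ) ^ x⌋₊ ≤ f i := by
      have := Nat.floor_mono h9
      rwa [Nat.floor_natCast] at this
    have h11 : 1 ≤ ⌊((g i : ℕ) : ℝ) ^ x⌋₊ := by
      rw [Nat.one_le_floor_iff]
      exact Real.one_le_rpow hg1.le hx0.le
    refine lt_of_lt_of_le h6 ?_
    exact div_le_div_of_nonneg_right (h.mono _ _ h11 h10) (h.pos _ (by omega)).le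
  · intro b hb
    have h2 : ∀ᶠ x in 𝓝 s, x ^ σ < b := hcont.eventually (gt_mem_nhds hb)
    obtain ⟨r, hr, hr1⟩ : ∃ r > s, ∀ x ∈ Set.Ico s r, x ^ σ < b := by
      have h4 : ∀ᶠ x in 𝓝[≥] s, x ^ σ < b := nhdsWithin_le_nhds h2
      obtain ⟨r, hr, hr1⟩ := (mem_nhdsGE_iff_exists_Ico_subset' (show s < s + 1 by linarith)).1 h4
      exact ⟨r, hr, hr1⟩
    obtain ⟨x, hx⟩ : ∃ x, x = (r + s) / 2 := ⟨_, rfl⟩
    have hxs : s < x := by rw [hx]; linarith
    have hrx : x < r := by rw [hx]; linarith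
    have hxb := hr1 x ⟨hxs.le, hrx⟩
    have hx0 : 0 < x := hs.trans hxs
    have h5 : Tendsto (fun i => ℓ ⌊((g i : ℕ) : ℝ) ^ x⌋₊ / ℓ (g i)) F (𝓝 (x ^ σ)) :=
      (h.lim x hx0).comp hg
    filter_upwards [h5.eventually (gt_mem_nhds hxb), h1.eventually (gt_mem_nhds hxs), hg2,
      h1.eventually (lt_mem_nhds hs)] with i h6 h7 h8 h7'
    have hg1 : (1 : ℝ) < g i := by exact_mod_cast h8
    have hlog : 0 < Real.log (g i) := Real.log_pos hg1
    rw [div_lt_iff₀ hlog] at h7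
    have hf0 : 0 < Real.log (f i) := by
      by_contra hcon
      push Not at hcon
      exact absurd h7' (not_lt.2 (div_nonpos_of_nonpos_of_nonneg hcon hlog.le))
    have hf2 : 0 < f i := by
      rcases Nat.eq_zero_or_pos (f i) with h9 | h9
      · rw [h9, Nat.cast_zero, Real.log_zero] at hf0
        exact absurd hf0 (lt_irrefl _)
      · exact h9
    have hf1 : (0 : ℝ) < f i := by exact_mod_cast hf2
    have h9 : ((f i : ℕ) : ℝ) ≤ ((g i : ℕ) : ℝ) ^ x := by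
      rw [Real.rpow_def_of_pos (by linarith), ← Real.log_le_iff_le_exp hf1, mul_comm]
      exact h7.le
    have h10 : f i ≤ ⌊((g i : ℕ) : ℝ) ^ x⌋₊ := Nat.le_floor h9
    refine lt_of_le_of_lt ?_ h6
    exact div_le_div_of_nonneg_right (h.mono _ _ hf2 h10) (h.pos _ (by omega)).le

/-- the floor is at least one -/
theorem floor_pow_pos {N : ℕ} (hN : 1 ≤ N) {s : ℝ} (hs : 0 < s) : 1 ≤ ⌊(N : ℝ) ^ s⌋₊ := by
  rw [Nat.one_le_floor_iff]
  exact Real.one_le_rpow (by exact_mod_cast hN) hs.le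

theorem LVar.sqrt_mul {ℓ₁ ℓ₂ : ℕ → ℝ} {σ₁ σ₂ : ℝ} (h₁ : LVar ℓ₁ σ₁) (h₂ : LVar ℓ₂ σ₂) :
    LVar (fun n => Real.sqrt (ℓ₁ n * ℓ₂ n)) ((σ₁ + σ₂) / 2) := by
  refine ⟨fun n hn => Real.sqrt_pos.2 (mul_pos (h₁.pos n hn) (h₂.pos n hn)), ?_, ?_⟩
  · intro m n hm hmn
    refine Real.sqrt_le_sqrt ?_
    exact mul_le_mul (h₁.mono m n hm hmn) (h₂.mono m n hm hmn) (h₂.pos m hm).le
      (h₁.pos n (hm.trans hmn)).le
  · intro s hs
    have h3 := ((h₁.lim s hs).mul (h₂.lim s hs)).sqrt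
    have h4 : Real.sqrt (s ^ σ₁ * s ^ σ₂) = s ^ ((σ₁ + σ₂) / 2) := by
      rw [← Real.rpow_add hs, Real.sqrt_eq_rpow, ← Real.rpow_mul hs.le]
      congr 1
      ring
    rw [h4] at h3
    refine h3.congr' ?_
    filter_upwards [eventually_ge_atTop 1] with N hN
    have h5 := h₁.pos N hN
    have h6 := h₂.pos N hN
    have h7 := h₁.pos _ (floor_pow_pos hN hs)
    have h8 := h₂.pos _ (floor_pow_pos hN hs)
    rw [div_mul_div_comm, Real.sqrt_div (mul_pos h7 h8).le]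

theorem LVar.one_add {m : ℕ → ℝ} {σ : ℝ} (h : LVar m σ) (hu : ∀ B : ℝ, ∃ N, B ≤ m N) :
    LVar (fun n => 1 + m n) σ := by
  refine ⟨fun n hn => by have := h.pos n hn; linarith, ?_, ?_⟩
  · intro a n ha han
    have := h.mono a n ha han
    linarith
  · intro s hs
    have hm : Tendsto m atTop atTop := by
      rw [tendsto_atTop]
      intro B
      obtain ⟨N, hN⟩ := hu (max B (m 0 + 1))
      have hN0 : 1 ≤ N := by
        by_contra h0
        have h1 : N = 0 := by omega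
        rw [h1] at hN
        have := (le_max_right _ _).trans hN
        linarith
      filter_upwards [eventually_ge_atTop N] with n hn
      exact ((le_max_left _ _).trans hN).trans (h.mono N n hN0 hn)
    have hinv : Tendsto (fun N => (m N)⁻¹) atTop (𝓝 0) := tendsto_inv_atTop_zero.comp hm
    have h3 : Tendsto (fun N : ℕ => ((m N)⁻¹ + m ⌊(N : ℝ) ^ s⌋₊ / m N) / ((m N)⁻¹ + 1)) atTop
        (𝓝 ((0 + s ^ σ) / (0 + 1))) :=
      (hinv.add (h.lim s hs)).div (hinv.add tendsto_const_nhds) (by norm_num)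
    rw [zero_add, zero_add, div_one] at h3
    refine h3.congr' ?_
    filter_upwards [eventually_ge_atTop 1] with N hN
    have h5 := h.pos N hN
    have h6 : (0 : ℝ) < 1 + m N := by linarith
    field_simp

end Pool.Agent.RDL
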