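import Pool.Agent.RDL.Crit
import Pool.Agent.RDL.LVa

/-!
# The critical weight: exact second order expansion
-/

set_option autoImplicit false

namespace Pool.Agent.RDL

open Finset Filter Topology

theorem crit_L {u ℓ : ℕ → ℝ} {R α κ τ : ℝ} (hR : 0 < R) (hm : LVar (mm ℓ) τ) (hu : ∀ B : ℝ, ∃ N, B ≤ mm ℓ N)
    (hℓ : SV ℓ) (hα : CritW u R α) (hcont : ContinuousOn (AA u) (Set.Icc 0 R)) (hpos : ∀ ξ ∈ Set.Ioc 0 R, 0 < AA u ξ)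
    (hlt : ∀ ξ ∈ Set.Ico 0 R, AA u ξ < AA u R) (hAD : 0 < AD u R) (hκ : 0 < κ)
    (h : Tendsto (fun δ : ℝ => (AD u R * δ - (AA u R - AA u (R - δ))) / (δ ^ 2 * mm ℓ ⌊1 / δ⌋₊)) (𝓝[>] 0) (𝓝 κ)) :
    ∃ κ' > (0 : ℝ), Tendsto (fun ξ : ℝ => (zz u α R - zz u α ξ) /
      ((AA u R / α - AA u ξ / α) ^ 2 * mm ℓ ⌊1 / (AA u R / α - AA u ξ / α)⌋₊)) (𝓝[<] R) (𝓝 κ') := by
  obtain ⟨hα0, hα1, hcr⟩ := hα
  obtain ⟨b, hbdef⟩ : ∃ b, b = 1 - α := ⟨_, rfl⟩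
  have hb : 0 < b := by linarith
  obtain ⟨A, hAdef⟩ : ∃ A, A = AA u R := ⟨_, rfl⟩
  obtain ⟨D, hDdef⟩ : ∃ D, D = AD u R := ⟨_, rfl⟩
  rw [← hAdef, ← hDdef, ← hbdef] at hcr
  rw [← hDdef] at hAD
  rw [← hAdef, ← hDdef] at h
  rw [← hAdef]
  have hA : 0 < A := hAdef ▸ hpos R ⟨hR, le_rfl⟩
  have hzz : ∀ ξ, zz u α ξ = 1 / (α / ξ + gg b (α / AA u ξ)) := by
    intro ξ
    unfold zz gg
    rw [add_sub_assoc, hbdef]
  have hG0 : ∀ ξ ∈ Set.Ioc 0 R, 0 < α / ξ + gg b (α / AA u ξ) := by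
    intro ξ hξ
    have h1 := hpos ξ hξ
    have h2 : 0 < gg b (α / AA u ξ) := gg_pos hb (by positivity)
    have h3 : 0 < α / ξ := div_pos hα0 hξ.1
    linarith
  have hcrit : 1 - (α / A) / Real.sqrt (b ^ 2 + (α / A) ^ 2) = A ^ 2 / (R ^ 2 * D) := by
    rw [← hcr]
    congr 1
    have h1 : b ^ 2 + (α / A) ^ 2 = (α / A) ^ 2 * (1 + b ^ 2 * (A / α) ^ 2) := by
      field_simp
      ring
    rw [h1, Real.sqrt_mul (by positivity), Real.sqrt_sq (by positivity)]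
    have h2 : 0 < α / A := by positivity
    have h3 : 0 < Real.sqrt (1 + b ^ 2 * (A / α) ^ 2) := Real.sqrt_pos.2 (by positivity)
    field_simp
  obtain ⟨GR, hGR⟩ : ∃ GR, GR = α / R + gg b (α / A) := ⟨_, rfl⟩
  have hGR0 : 0 < GR := by
    rw [hGR, hAdef]
    exact hG0 R ⟨hR, le_rfl⟩
  obtain ⟨K, hK⟩ : ∃ K, K = 2 * α / R ^ 3 + 2 * α * D / (R ^ 2 * A) + 2 / b * (2 * α * D / A ^ 2) ^ 2 := ⟨_, rfl⟩
  have hK0 : 0 < K := by rw [hK]; positivity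
  -- the filter
  have tδ : Tendsto (fun ξ : ℝ => R - ξ) (𝓝[<] R) (𝓝[>] 0) := by
    refine tendsto_nhdsWithin_iff.2 ⟨?_, ?_⟩
    · have : Tendsto (fun ξ : ℝ => R - ξ) (𝓝 R) (𝓝 (R - R)) := tendsto_const_nhds.sub tendsto_id
      rw [sub_self] at this
      exact this.mono_left nhdsWithin_le_nhds
    · filter_upwards [self_mem_nhdsWithin] with ξ hξ
      exact Set.mem_Ioi.2 (sub_pos.2 (Set.mem_Iio.1 hξ))
  have tδ0 : Tendsto (fun ξ : ℝ => R - ξ) (𝓝[<] R) (𝓝 0) := tδ.mono_right nhdsWithin_le_nhds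
  have evδ : ∀ᶠ ξ in 𝓝[<] R, 0 < R - ξ := by
    filter_upwards [self_mem_nhdsWithin] with ξ hξ
    exact sub_pos.2 (Set.mem_Iio.1 hξ)
  have tinv : Tendsto (fun ξ : ℝ => 1 / (R - ξ)) (𝓝[<] R) atTop := by
    exact (tendsto_inv_nhdsGT_zero.comp tδ).congr fun ξ => (one_div _).symm
  have tn : Tendsto (fun ξ : ℝ => ⌊1 / (R - ξ)⌋₊) (𝓝[<] R) atTop := tendsto_nat_floor_atTop.comp tinv
  have tmm : Tendsto (mm ℓ) atTop atTop := tendsto_atTop_atTop_of_monotone (mm_mono hℓ) hu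
  have tM : Tendsto (fun ξ : ℝ => mm ℓ ⌊1 / (R - ξ)⌋₊) (𝓝[<] R) atTop := tmm.comp tn
  have evM : ∀ᶠ ξ in 𝓝[<] R, 0 < mm ℓ ⌊1 / (R - ξ)⌋₊ := tM.eventually_gt_atTop 0
  -- the main hypothesis
  have tE : Tendsto (fun ξ : ℝ => (D * (R - ξ) - (A - AA u ξ)) / ((R - ξ) ^ 2 * mm ℓ ⌊1 / (R - ξ)⌋₊)) (𝓝[<] R)
      (𝓝 κ) := by
    have := h.comp tδ
    refine this.congr fun ξ => ?_
    simp only [Function.comp, sub_sub_cancel]
  have evE : ∀ᶠ ξ in 𝓝[<] R, 0 < D * (R - ξ) - (A - AA u ξ) := by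
    filter_upwards [tE.eventually_const_lt hκ, evδ, evM] with ξ h1 h2 h3
    have h4 : 0 < (R - ξ) ^ 2 * mm ℓ ⌊1 / (R - ξ)⌋₊ := by positivity
    exact (div_pos_iff_of_pos_right h4).1 h1
  -- δ M → 0
  obtain ⟨Cs, hCs⟩ := mm_le_sqrt hℓ
  have tδM : Tendsto (fun ξ : ℝ => (R - ξ) * mm ℓ ⌊1 / (R - ξ)⌋₊) (𝓝[<] R) (𝓝 0) := by
    have t1 : Tendsto (fun ξ : ℝ => |Cs| * Real.sqrt (R - ξ)) (𝓝[<] R) (𝓝 0) := by
      have := (Real.continuous_sqrt.tendsto 0).comp tδ0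
      rw [Real.sqrt_zero] at this
      have := this.const_mul |Cs|
      rw [mul_zero] at this
      exact this
    refine squeeze_zero' ?_ ?_ t1
    · filter_upwards [evδ, evM] with ξ h1 h2
      positivity
    · filter_upwards [evδ, tn.eventually_ge_atTop 1] with ξ h1 h2
      have h3 : mm ℓ ⌊1 / (R - ξ)⌋₊ ≤ |Cs| * Real.sqrt (1 / (R - ξ)) := by
        refine (hCs _ h2).trans ?_
        have h4 : Real.sqrt (⌊1 / (R - ξ)⌋₊ : ℝ) ≤ Real.sqrt (1 / (R - ξ)) :=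
          Real.sqrt_le_sqrt (Nat.floor_le (by positivity))
        calc Cs * Real.sqrt (⌊1 / (R - ξ)⌋₊ : ℝ) ≤ |Cs| * Real.sqrt (⌊1 / (R - ξ)⌋₊ : ℝ) :=
              mul_le_mul_of_nonneg_right (le_abs_self _) (Real.sqrt_nonneg _)
          _ ≤ |Cs| * Real.sqrt (1 / (R - ξ)) := mul_le_mul_of_nonneg_left h4 (abs_nonneg _)
      have h5 : (R - ξ) * Real.sqrt (1 / (R - ξ)) = Real.sqrt (R - ξ) := by
        rw [Real.sqrt_div zero_le_one, Real.sqrt_one, mul_one_div, Real.div_sqrt]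
      calc (R - ξ) * mm ℓ ⌊1 / (R - ξ)⌋₊ ≤ (R - ξ) * (|Cs| * Real.sqrt (1 / (R - ξ))) :=
            mul_le_mul_of_nonneg_left h3 h1.le
        _ = |Cs| * ((R - ξ) * Real.sqrt (1 / (R - ξ))) := by ring
        _ = |Cs| * Real.sqrt (R - ξ) := by rw [h5]
  have tδδM : Tendsto (fun ξ : ℝ => (R - ξ) ^ 2 * mm ℓ ⌊1 / (R - ξ)⌋₊) (𝓝[<] R) (𝓝 0) := by
    have := tδ0.mul tδM
    rw [zero_mul] at this
    refine this.congr fun ξ => ?_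
    ring
  -- y / δ → D / α
  have tyδ : Tendsto (fun ξ : ℝ => (A / α - AA u ξ / α) / (R - ξ)) (𝓝[<] R) (𝓝 (D / α)) := by
    have h1 := ((tE.mul tδM).div_const α).const_sub (D / α)
    rw [mul_zero, zero_div, sub_zero] at h1
    refine h1.congr' ?_
    filter_upwards [evδ, evM] with ξ h2 h3
    field_simp
    ring
  have hDα : 0 < D / α := div_pos hAD hα0
  have ty0 : Tendsto (fun ξ : ℝ => A / α - AA u ξ / α) (𝓝[<] R) (𝓝[>] 0) := by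
    refine tendsto_nhdsWithin_iff.2 ⟨?_, ?_⟩
    · have h1 := tyδ.mul tδ0
      rw [mul_zero] at h1
      refine h1.congr' ?_
      filter_upwards [evδ] with ξ h2
      field_simp
    · filter_upwards [evδ, tyδ.eventually_const_lt hDα] with ξ h1 h2
      exact (div_pos_iff_of_pos_right h1).1 h2
  have evy : ∀ᶠ ξ in 𝓝[<] R, 0 < A / α - AA u ξ / α := ty0.eventually self_mem_nhdsWithin
  have tyinv : Tendsto (fun ξ : ℝ => 1 / (A / α - AA u ξ / α)) (𝓝[<] R) atTop := by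
    exact (tendsto_inv_nhdsGT_zero.comp ty0).congr fun ξ => (one_div _).symm
  have tny : Tendsto (fun ξ : ℝ => ⌊1 / (A / α - AA u ξ / α)⌋₊) (𝓝[<] R) atTop :=
    tendsto_nat_floor_atTop.comp tyinv
  have evMy : ∀ᶠ ξ in 𝓝[<] R, 0 < mm ℓ ⌊1 / (A / α - AA u ξ / α)⌋₊ := (tmm.comp tny).eventually_gt_atTop 0
  -- the ratio of the logarithms
  have tfl : Tendsto (fun ξ : ℝ => (⌊1 / (R - ξ)⌋₊ : ℝ) / (1 / (R - ξ))) (𝓝[<] R) (𝓝 1) :=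
    tendsto_nat_floor_div_atTop.comp tinv
  have tfly : Tendsto (fun ξ : ℝ => (⌊1 / (A / α - AA u ξ / α)⌋₊ : ℝ) / (1 / (A / α - AA u ξ / α))) (𝓝[<] R)
      (𝓝 1) := tendsto_nat_floor_div_atTop.comp tyinv
  have tq : Tendsto (fun ξ : ℝ => (⌊1 / (A / α - AA u ξ / α)⌋₊ : ℝ) / (⌊1 / (R - ξ)⌋₊ : ℝ)) (𝓝[<] R)
      (𝓝 (1 / 1 * (D / α)⁻¹)) := by
    have h1 := (tfly.div tfl one_ne_zero).mul (tyδ.inv₀ hDα.ne')
    refine h1.congr' ?_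
    filter_upwards [evδ, evy, tn.eventually_ge_atTop 1] with ξ h2 h3 h4
    have h5 : (0 : ℝ) < (⌊1 / (R - ξ)⌋₊ : ℝ) := by exact_mod_cast h4
    simp only [Pi.div_apply]
    generalize (⌊1 / (R - ξ)⌋₊ : ℝ) = N1 at h5 ⊢
    generalize (⌊1 / (A / α - AA u ξ / α)⌋₊ : ℝ) = N2
    generalize A / α - AA u ξ / α = y at h3 ⊢
    generalize R - ξ = δ at h2 ⊢
    field_simp
  have tlogn : Tendsto (fun ξ : ℝ => Real.log (⌊1 / (R - ξ)⌋₊ : ℝ)) (𝓝[<] R) atTop :=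
    Real.tendsto_log_atTop.comp (tendsto_natCast_atTop_atTop.comp tn)
  have tlog : Tendsto (fun ξ : ℝ => Real.log (⌊1 / (A / α - AA u ξ / α)⌋₊ : ℝ) / Real.log (⌊1 / (R - ξ)⌋₊ : ℝ))
      (𝓝[<] R) (𝓝 1) := by
    have hq0 : (0 : ℝ) < 1 / 1 * (D / α)⁻¹ := by positivity
    have h1 := ((Real.continuousAt_log hq0.ne').tendsto.comp tq).div_atTop tlogn
    have h2 := h1.const_add 1
    rw [add_zero] at h2
    refine h2.congr' ?_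
    filter_upwards [tn.eventually_ge_atTop 1, tny.eventually_ge_atTop 1, tlogn.eventually_gt_atTop 0] with ξ h3 h4 h5
    have h6 : (0 : ℝ) < (⌊1 / (R - ξ)⌋₊ : ℝ) := by exact_mod_cast h3
    have h7 : (0 : ℝ) < (⌊1 / (A / α - AA u ξ / α)⌋₊ : ℝ) := by exact_mod_cast h4
    simp only [Function.comp]
    rw [Real.log_div h7.ne' h6.ne']
    field_simp
    ring
  have tMM : Tendsto (fun ξ : ℝ => mm ℓ ⌊1 / (A / α - AA u ξ / α)⌋₊ / mm ℓ ⌊1 / (R - ξ)⌋₊) (𝓝[<] R) (𝓝 1) := by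
    have := hm.comp tn one_pos tlog
    rwa [Real.one_rpow] at this
  -- the expansion
  have evA : ∀ᶠ ξ in 𝓝[<] R, A / 2 < AA u ξ := by
    have h1 : Tendsto (fun ξ : ℝ => A / α - AA u ξ / α) (𝓝[<] R) (𝓝 0) := ty0.mono_right nhdsWithin_le_nhds
    have h2 : 0 < A / (2 * α) := by positivity
    filter_upwards [h1.eventually_lt_const h2] with ξ h3
    have h4 : A / α - AA u ξ / α = (A - AA u ξ) / α := by ring
    rw [h4, div_lt_div_iff₀ hα0 (by positivity)] at h3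
    nlinarith
  have evR : ∀ᶠ ξ in 𝓝[<] R, R / 2 < ξ := by
    have h2 : (0 : ℝ) < R / 2 := by positivity
    filter_upwards [tδ0.eventually_lt_const h2] with ξ h3
    linarith
  have evKey : ∀ᶠ ξ in 𝓝[<] R, |(α / ξ + gg b (α / AA u ξ)) - GR -
      α * (D * (R - ξ) - (A - AA u ξ)) / (R ^ 2 * D)| ≤ K * (R - ξ) ^ 2 := by
    filter_upwards [evδ, evA, evR, evE] with ξ h1 h2 h3 h4
    have h5 : AA u ξ < A := by
      rw [hAdef]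
      exact hlt ξ ⟨by linarith, by linarith⟩
    rw [hGR, hK]
    exact key_exp hb hα0 hR h3.le (by linarith) hA h2.le h5.le hAD (by linarith) hcrit
  have tG : Tendsto (fun ξ : ℝ => ((α / ξ + gg b (α / AA u ξ)) - GR) / ((R - ξ) ^ 2 * mm ℓ ⌊1 / (R - ξ)⌋₊))
      (𝓝[<] R) (𝓝 (α / (R ^ 2 * D) * κ)) := by
    have t1 : Tendsto (fun ξ : ℝ => ((α / ξ + gg b (α / AA u ξ)) - GR) / ((R - ξ) ^ 2 * mm ℓ ⌊1 / (R - ξ)⌋₊) -
        α / (R ^ 2 * D) * ((D * (R - ξ) - (A - AA u ξ)) / ((R - ξ) ^ 2 * mm ℓ ⌊1 / (R - ξ)⌋₊))) (𝓝[<] R) (𝓝 0) := by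
      have t2 : Tendsto (fun ξ : ℝ => K / mm ℓ ⌊1 / (R - ξ)⌋₊) (𝓝[<] R) (𝓝 0) := tM.const_div_atTop K
      refine squeeze_zero_norm' ?_ t2
      filter_upwards [evKey, evδ, evM] with ξ h1 h2 h3
      have h4 : ((α / ξ + gg b (α / AA u ξ)) - GR) / ((R - ξ) ^ 2 * mm ℓ ⌊1 / (R - ξ)⌋₊) -
          α / (R ^ 2 * D) * ((D * (R - ξ) - (A - AA u ξ)) / ((R - ξ) ^ 2 * mm ℓ ⌊1 / (R - ξ)⌋₊)) =
          ((α / ξ + gg b (α / AA u ξ)) - GR - α * (D * (R - ξ) - (A - AA u ξ)) / (R ^ 2 * D)) /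
            ((R - ξ) ^ 2 * mm ℓ ⌊1 / (R - ξ)⌋₊) := by
        field_simp
      rw [h4, Real.norm_eq_abs, abs_div, abs_of_pos (by positivity : 0 < (R - ξ) ^ 2 * mm ℓ ⌊1 / (R - ξ)⌋₊),
        div_le_div_iff₀ (by positivity) h3]
      calc _ ≤ K * (R - ξ) ^ 2 * mm ℓ ⌊1 / (R - ξ)⌋₊ := mul_le_mul_of_nonneg_right h1 h3.le
        _ = _ := by ring
    have t3 := t1.add (tE.const_mul (α / (R ^ 2 * D)))
    rw [zero_add] at t3
    refine t3.congr fun ξ => ?_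
    ring
  have tGξ : Tendsto (fun ξ : ℝ => α / ξ + gg b (α / AA u ξ)) (𝓝[<] R) (𝓝 GR) := by
    have t1 := (tG.mul tδδM).add_const GR
    rw [mul_zero, zero_add] at t1
    refine t1.congr' ?_
    filter_upwards [evδ, evM] with ξ h1 h2
    have h3 : (R - ξ) ^ 2 * mm ℓ ⌊1 / (R - ξ)⌋₊ ≠ 0 := by positivity
    rw [div_mul_cancel₀ _ h3]
    ring
  have hlim : 0 < α / (R ^ 2 * D) * κ / (GR * GR) * ((D / α) ^ 2)⁻¹ * (1 : ℝ)⁻¹ := by positivity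
  refine ⟨_, hlim, ?_⟩
  have t4 := ((tG.div (tGξ.const_mul GR) (by positivity)).mul ((tyδ.pow 2).inv₀ (by positivity))).mul
    (tMM.inv₀ one_ne_zero)
  refine t4.congr' ?_
  filter_upwards [evδ, evM, evy, evMy, evR] with ξ h1 h2 h3 h4 h5
  have h6 : 0 < α / ξ + gg b (α / AA u ξ) := hG0 ξ ⟨by linarith, by linarith⟩
  have h7 : zz u α R = 1 / GR := by rw [hzz, hGR, hAdef]
  rw [h7, hzz]
  simp only [Pi.div_apply]
  obtain ⟨Gξ, hGξ⟩ : ∃ Gξ, Gξ = α / ξ + gg b (α / AA u ξ) := ⟨_, rfl⟩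
  obtain ⟨y, hy⟩ : ∃ y, y = A / α - AA u ξ / α := ⟨_, rfl⟩
  obtain ⟨δ, hδ⟩ : ∃ δ, δ = R - ξ := ⟨_, rfl⟩
  rw [← hGξ, ← hy, ← hδ]
  rw [← hGξ] at h6
  rw [← hδ] at h1 h2
  rw [← hy] at h3 h4
  obtain ⟨M, hM⟩ : ∃ M, M = mm ℓ ⌊1 / δ⌋₊ := ⟨_, rfl⟩
  obtain ⟨Y, hY⟩ : ∃ Y, Y = mm ℓ ⌊1 / y⌋₊ := ⟨_, rfl⟩
  rw [← hM, ← hY]
  rw [← hM] at h2
  rw [← hY] at h4
  field_simp

end Pool.Agent.RDL
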