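import Pool.Agent.RDL.ExpoDefs
import Pool.Agent.RDL.Crit

/-!
# The critical weight: the second order expansion, power version
-/

set_option autoImplicit false

namespace Pool.Agent.RDL

open Finset Filter Topology

set_option maxHeartbeats 2000000 in
theorem crit_expp {u : ℕ → ℝ} {R α c' C' δ₀ a : ℝ} (hR : 0 < R) (ha : 2 < a) (ha3 : a < 3) (hα : CritW u R α)
    (hcont : ContinuousOn (AA u) (Set.Icc 0 R)) (hpos : ∀ ξ ∈ Set.Ioc 0 R, 0 < AA u ξ)
    (hlt : ∀ ξ ∈ Set.Ico 0 R, AA u ξ < AA u R) (hc' : 0 < c') (hδ₀ : δ₀ ∈ Set.Ioo 0 (min 1 R))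
    (hAD : 0 < AD u R)
    (h : ∀ δ ∈ Set.Ioc 0 δ₀, c' * δ ^ (a - 1) ≤ AD u R * δ - (AA u R - AA u (R - δ)) ∧
      AD u R * δ - (AA u R - AA u (R - δ)) ≤ C' * δ ^ (a - 1)) :
    (∀ ξ ∈ Set.Ioc 0 R, 0 < zz u α ξ) ∧ ContinuousOn (zz u α) (Set.Ioc 0 R) ∧
    ∃ c > (0 : ℝ), ∃ C : ℝ, ∃ δ₁ ∈ Set.Ioo 0 (min 1 R), ∀ ξ ∈ Set.Ico (R - δ₁) R,
      zz u α ξ < zz u α R ∧ 0 < AA u R / α - AA u ξ / α ∧ AA u R / α - AA u ξ / α < 1 ∧
      c * (AA u R / α - AA u ξ / α) ^ (a - 1) ≤ zz u α R - zz u α ξ ∧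
      zz u α R - zz u α ξ ≤ C * (AA u R / α - AA u ξ / α) ^ (a - 1) := by
  obtain ⟨hα0, hα1, hcr⟩ := hα
  obtain ⟨hδ00, hδ01⟩ := hδ₀
  obtain ⟨s, hs⟩ : ∃ s, s = a - 1 := ⟨_, rfl⟩
  have hs1 : 1 < s := by linarith
  have hs2 : s < 2 := by linarith
  rw [← hs] at h ⊢
  set b := 1 - α with hbdef
  have hb : 0 < b := by linarith
  set A := AA u R with hAdef
  set D := AD u R with hDdef
  have hA : 0 < A := hpos R ⟨hR, le_rfl⟩
  -- the function G
  have hzz : ∀ ξ, zz u α ξ = 1 / (α / ξ + gg b (α / AA u ξ)) := by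
    intro ξ
    unfold zz gg
    rw [add_sub_assoc]
  have hG0 : ∀ ξ ∈ Set.Ioc 0 R, 0 < α / ξ + gg b (α / AA u ξ) := by
    intro ξ hξ
    have h1 := hpos ξ hξ
    have h2 : 0 < gg b (α / AA u ξ) := gg_pos hb (by positivity)
    have h3 : 0 < α / ξ := div_pos hα0 hξ.1
    linarith
  have hzpos : ∀ ξ ∈ Set.Ioc 0 R, 0 < zz u α ξ := by
    intro ξ hξ
    rw [hzz]
    exact one_div_pos.2 (hG0 ξ hξ)
  refine ⟨hzpos, ?_, ?_⟩
  · have hAc : ContinuousOn (AA u) (Set.Ioc 0 R) := hcont.mono Set.Ioc_subset_Icc_self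
    have hG : ContinuousOn (fun ξ => α / ξ + gg b (α / AA u ξ)) (Set.Ioc 0 R) := by
      unfold gg
      have h1 : ContinuousOn (fun ξ : ℝ => α / ξ) (Set.Ioc 0 R) :=
        continuousOn_const.div continuousOn_id (fun ξ hξ => hξ.1.ne')
      have h2 : ContinuousOn (fun ξ : ℝ => α / AA u ξ) (Set.Ioc 0 R) :=
        continuousOn_const.div hAc (fun ξ hξ => (hpos ξ hξ).ne')
      exact h1.add (((continuousOn_const.add (h2.pow 2)).sqrt).sub h2)
    have : ContinuousOn (fun ξ => 1 / (α / ξ + gg b (α / AA u ξ))) (Set.Ioc 0 R) :=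
      continuousOn_const.div hG (fun ξ hξ => (hG0 ξ hξ).ne')
    exact this.congr (fun ξ _ => hzz ξ)
  -- the critical equation
  have hcrit : 1 - (α / A) / Real.sqrt (b ^ 2 + (α / A) ^ 2) = A ^ 2 / (R ^ 2 * D) := by
    rw [← hcr]
    congr 1
    have h1 : b ^ 2 + (α / A) ^ 2 = (α / A) ^ 2 * (1 + b ^ 2 * (A / α) ^ 2) := by
      field_simp
      ring
    rw [h1, Real.sqrt_mul (by positivity), Real.sqrt_sq (by positivity)]
    have h2 : 0 < α / A := by positivity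
    have h3 : 0 < Real.sqrt (1 + b ^ 2 * (A / α) ^ 2) := Real.sqrt_pos.2 (by positivity)
    field_simp
  -- constants
  set K := 2 * α / R ^ 3 + 2 * α * D / (R ^ 2 * A) + 2 / b * (2 * α * D / A ^ 2) ^ 2 with hK
  have hK0 : 0 < K := by positivity
  set K₃ := |C'| + 1 with hK₃
  have hK₃0 : 0 < K₃ := by positivity
  set GR := α / R + gg b (α / A) with hGR
  have hGR0 : 0 < GR := hG0 R ⟨hR, le_rfl⟩
  set G1 := 2 * α / R + b with hG1
  have hG10 : 0 < G1 := by positivity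
  set e := α * c' / (2 * (R ^ 2 * D)) with he
  have he0 : 0 < e := by positivity
  set δ₁ := min (min δ₀ (R / 2)) (min (min (A / (2 * D)) (α / (2 * D)))
    (min ((D / (2 * K₃)) ^ (1 / (s - 1))) ((e / K) ^ (1 / (2 - s))))) with hδ₁
  have hδ₁0 : 0 < δ₁ := by
    rw [hδ₁]
    refine lt_min (lt_min hδ00 (by positivity)) (lt_min (lt_min (by positivity) (by positivity))
      (lt_min (by positivity) (by positivity)))
  have hδ₁a : δ₁ ≤ δ₀ := (min_le_left _ _).trans (min_le_left _ _)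
  have hδ₁b : δ₁ ≤ R / 2 := (min_le_left _ _).trans (min_le_right _ _)
  have hδ₁c : δ₁ ≤ A / (2 * D) := (min_le_right _ _).trans ((min_le_left _ _).trans (min_le_left _ _))
  have hδ₁d : δ₁ ≤ α / (2 * D) := (min_le_right _ _).trans ((min_le_left _ _).trans (min_le_right _ _))
  have hδ₁e : δ₁ ≤ (D / (2 * K₃)) ^ (1 / (s - 1)) :=
    (min_le_right _ _).trans ((min_le_right _ _).trans (min_le_left _ _))
  have hδ₁f : δ₁ ≤ (e / K) ^ (1 / (2 - s)) :=
    (min_le_right _ _).trans ((min_le_right _ _).trans (min_le_right _ _))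
  refine ⟨e / (GR * G1) / (D / α) ^ s, by positivity,
    (α * |C'| / (R ^ 2 * D) + e) / (GR * GR) * (2 * α / D) ^ s, δ₁,
    ⟨hδ₁0, lt_of_le_of_lt hδ₁a hδ01⟩, ?_⟩
  intro ξ hξ
  obtain ⟨δ, hδ⟩ : ∃ δ, δ = R - ξ := ⟨_, rfl⟩
  have hδ0 : 0 < δ := by rw [hδ]; linarith [hξ.2]
  have hδδ₁ : δ ≤ δ₁ := by rw [hδ]; linarith [hξ.1]
  have hξδ : ξ = R - δ := by rw [hδ]; ring
  have hξR2 : R / 2 ≤ ξ := by rw [hξδ]; linarith
  have hξ0 : 0 < ξ := by linarith
  have ha0 : 0 < AA u ξ := hpos ξ ⟨hξ0, hξ.2.le⟩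
  have haA : AA u ξ < A := hlt ξ ⟨hξ0.le, hξ.2⟩
  obtain ⟨hE1, hE2⟩ := h δ ⟨hδ0, hδδ₁.trans hδ₁a⟩
  rw [← hξδ] at hE1 hE2
  clear_value K₃
  set x := AA u ξ with hxdef
  have hP0 : 0 < δ ^ s := Real.rpow_pos_of_pos hδ0 s
  set E := D * δ - (A - x) with hE
  have hE0 : 0 ≤ E := le_trans (by positivity) hE1
  have hDle : A - x ≤ D * δ := by rw [hE] at hE0; linarith
  have haA2 : A / 2 ≤ x := by
    have h1 : D * δ ≤ A / 2 := by
      calc D * δ ≤ D * (A / (2 * D)) := mul_le_mul_of_nonneg_left (hδδ₁.trans hδ₁c) hAD.le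
        _ = A / 2 := by field_simp
    linarith
  -- E is at most half of the linear term
  have hE3 : E ≤ D * δ / 2 := by
    have h2 : δ ^ s = δ * δ ^ (s - 1) := by
      rw [Real.rpow_sub_one hδ0.ne']
      field_simp
    have h3 : δ ^ (s - 1) ≤ D / (2 * K₃) := by
      calc δ ^ (s - 1) ≤ ((D / (2 * K₃)) ^ (1 / (s - 1))) ^ (s - 1) :=
            Real.rpow_le_rpow hδ0.le (hδδ₁.trans hδ₁e) (by linarith)
        _ = D / (2 * K₃) := by
            rw [← Real.rpow_mul (by positivity), one_div_mul_cancel (by linarith), Real.rpow_one]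
    calc E ≤ C' * δ ^ s := hE2
      _ ≤ K₃ * δ ^ s := by
          refine mul_le_mul_of_nonneg_right ?_ hP0.le
          rw [hK₃]
          linarith [le_abs_self C']
      _ = K₃ * δ * δ ^ (s - 1) := by rw [h2]; ring
      _ ≤ K₃ * δ * (D / (2 * K₃)) := mul_le_mul_of_nonneg_left h3 (by positivity)
      _ = D * δ / 2 := by field_simp
  -- y
  set y := A / α - x / α with hy
  have hy' : y = (A - x) / α := by rw [hy]; ring
  have hy0 : 0 < y := by rw [hy']; exact div_pos (by linarith) hα0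
  have hyu : y ≤ D / α * δ := by
    rw [hy', div_le_iff₀ hα0]
    calc A - x ≤ D * δ := hDle
      _ = D / α * δ * α := by field_simp
  have hyl : D / (2 * α) * δ ≤ y := by
    rw [hy', le_div_iff₀ hα0]
    calc D / (2 * α) * δ * α = D * δ / 2 := by field_simp
      _ ≤ A - x := by rw [hE] at hE3; linarith
  have hy1 : y < 1 := by
    have : D / α * δ ≤ 1 / 2 := by
      calc D / α * δ ≤ D / α * (α / (2 * D)) := mul_le_mul_of_nonneg_left (hδδ₁.trans hδ₁d) (by positivity)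
        _ = 1 / 2 := by field_simp
    linarith
  -- the expansion
  have hkey := key_exp (b := b) (α := α) (R := R) (ξ := ξ) (A := A) (a := x) (AD := D) hb hα0 hR hξR2 hξ.2.le hA haA2
    haA.le hAD (by rw [← hδ]; exact hDle) hcrit
  rw [← hδ, ← hE, ← hK, ← hGR] at hkey
  set Gξ := α / ξ + gg b (α / x) with hGξ
  have hGξ0 : 0 < Gξ := hG0 ξ ⟨hξ0, hξ.2.le⟩
  have hKM : K * δ ^ 2 ≤ e * δ ^ s := by
    have h1 : δ ^ 2 = δ ^ s * δ ^ (2 - s) := by
      rw [← Real.rpow_add hδ0, add_sub_cancel, Real.rpow_two]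
    have h3 : δ ^ (2 - s) ≤ e / K := by
      calc δ ^ (2 - s) ≤ ((e / K) ^ (1 / (2 - s))) ^ (2 - s) :=
            Real.rpow_le_rpow hδ0.le (hδδ₁.trans hδ₁f) (by linarith)
        _ = e / K := by
            rw [← Real.rpow_mul (by positivity), one_div_mul_cancel (by linarith), Real.rpow_one]
    calc K * δ ^ 2 = δ ^ s * (K * δ ^ (2 - s)) := by rw [h1]; ring
      _ ≤ δ ^ s * (K * (e / K)) := by gcongr
      _ = e * δ ^ s := by field_simp
  have hαE : 2 * e * δ ^ s ≤ α * E / (R ^ 2 * D) := by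
    rw [le_div_iff₀ (by positivity)]
    have : 2 * e * δ ^ s * (R ^ 2 * D) = α * (c' * δ ^ s) := by
      rw [he]; field_simp
    rw [this]
    exact mul_le_mul_of_nonneg_left hE1 hα0.le
  have hαE2 : α * E / (R ^ 2 * D) ≤ α * |C'| / (R ^ 2 * D) * δ ^ s := by
    rw [div_le_iff₀ (by positivity)]
    have : α * |C'| / (R ^ 2 * D) * δ ^ s * (R ^ 2 * D) = α * (|C'| * δ ^ s) := by
      field_simp
    rw [this]
    refine mul_le_mul_of_nonneg_left (hE2.trans ?_) hα0.le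
    exact mul_le_mul_of_nonneg_right (le_abs_self _) hP0.le
  have hlow : e * δ ^ s ≤ Gξ - GR := by
    have := (abs_le.1 hkey).1
    linarith
  have hupp : Gξ - GR ≤ (α * |C'| / (R ^ 2 * D) + e) * δ ^ s := by
    have := (abs_le.1 hkey).2
    have h2 : (α * |C'| / (R ^ 2 * D) + e) * δ ^ s = α * |C'| / (R ^ 2 * D) * δ ^ s + e * δ ^ s := by ring
    rw [h2]
    linarith
  have hdiff0 : 0 < Gξ - GR := lt_of_lt_of_le (by positivity) hlow
  have hGξ1 : Gξ ≤ G1 := by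
    have h1 : α / ξ ≤ 2 * α / R := by
      rw [div_le_div_iff₀ hξ0 hR]
      have h3 : α * R ≤ α * (2 * ξ) := mul_le_mul_of_nonneg_left (by linarith) hα0.le
      calc α * R ≤ α * (2 * ξ) := h3
        _ = 2 * α * ξ := by ring
    have h2 : gg b (α / x) ≤ b := gg_le hb (by positivity)
    rw [hGξ, hG1]
    linarith
  have hzd : zz u α R - zz u α ξ = (Gξ - GR) / (GR * Gξ) := by
    rw [hzz, hzz, ← hAdef, ← hxdef, ← hGR, ← hGξ]
    field_simp
  have hzd0 : 0 < zz u α R - zz u α ξ := by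
    rw [hzd]
    positivity
  refine ⟨by linarith, hy0, hy1, ?_, ?_⟩
  · rw [hzd]
    have h1 : e / (GR * G1) * δ ^ s ≤ (Gξ - GR) / (GR * Gξ) := by
      calc e / (GR * G1) * δ ^ s = e * δ ^ s / (GR * G1) := by ring
        _ ≤ (Gξ - GR) / (GR * G1) := by gcongr
        _ ≤ (Gξ - GR) / (GR * Gξ) := by gcongr
    refine le_trans ?_ h1
    have h2 : y ^ s ≤ (D / α) ^ s * δ ^ s := by
      rw [← Real.mul_rpow (by positivity) hδ0.le]
      exact Real.rpow_le_rpow hy0.le hyu (by linarith)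
    calc e / (GR * G1) / (D / α) ^ s * y ^ s ≤ e / (GR * G1) / (D / α) ^ s * ((D / α) ^ s * δ ^ s) :=
          mul_le_mul_of_nonneg_left h2 (by positivity)
      _ = e / (GR * G1) * δ ^ s := by
          have : (D / α) ^ s ≠ 0 := by positivity
          field_simp
  · rw [hzd]
    have h1 : (Gξ - GR) / (GR * Gξ) ≤ (α * |C'| / (R ^ 2 * D) + e) / (GR * GR) * δ ^ s := by
      calc (Gξ - GR) / (GR * Gξ) ≤ (Gξ - GR) / (GR * GR) := by
            gcongr
            linarith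
        _ ≤ (α * |C'| / (R ^ 2 * D) + e) * δ ^ s / (GR * GR) := by gcongr
        _ = (α * |C'| / (R ^ 2 * D) + e) / (GR * GR) * δ ^ s := by ring
    refine h1.trans ?_
    have h2 : δ ≤ 2 * α / D * y := by
      calc δ = 2 * α / D * (D / (2 * α) * δ) := by field_simp
        _ ≤ 2 * α / D * y := mul_le_mul_of_nonneg_left hyl (by positivity)
    have h3 : δ ^ s ≤ (2 * α / D) ^ s * y ^ s := by
      rw [← Real.mul_rpow (by positivity) hy0.le]
      exact Real.rpow_le_rpow hδ0.le h2 (by linarith)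
    calc (α * |C'| / (R ^ 2 * D) + e) / (GR * GR) * δ ^ s ≤
          (α * |C'| / (R ^ 2 * D) + e) / (GR * GR) * ((2 * α / D) ^ s * y ^ s) :=
          mul_le_mul_of_nonneg_left h3 (by positivity)
      _ = _ := by ring

end Pool.Agent.RDL
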