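import Pool.Agent.RDL.Defs

/-!
# The critical weight exists
-/

set_option autoImplicit false

namespace Pool.Agent.RDL

open Finset Filter Topology

/-- the square of the sum is less than the sum with weights `2 n + 1`, by supermultiplicativity -/
theorem sq_tsum_lt {v : ℕ → ℝ} (hv : ∀ n, 0 < v n) (hm : ∀ m n, v m * v n ≤ v (m + n))
    (hs : Summable (fun n : ℕ => (2 * (n : ℝ) + 1) * v n)) :
    Summable v ∧ (∑' n, v n) ^ 2 < ∑' n : ℕ, (2 * (n : ℝ) + 1) * v n := by
  have hsv : Summable v := by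
    refine Summable.of_nonneg_of_le (fun n => (hv n).le) (fun n => ?_) hs
    have h1 : (0 : ℝ) ≤ (n : ℝ) := Nat.cast_nonneg n
    nlinarith [hv n, mul_nonneg h1 (hv n).le]
  have hs1 : Summable (fun n : ℕ => ((n : ℝ) + 1) * v n) := by
    refine Summable.of_nonneg_of_le (fun n => ?_) (fun n => ?_) hs
    · have h1 : (0 : ℝ) ≤ (n : ℝ) := Nat.cast_nonneg n
      have := hv n
      positivity
    · have h1 : (0 : ℝ) ≤ (n : ℝ) := Nat.cast_nonneg n
      nlinarith [hv n, mul_nonneg h1 (hv n).le]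
  refine ⟨hsv, ?_⟩
  have hn : Summable (fun n => ‖v n‖) := hsv.norm
  have e1 : (∑' n, v n) ^ 2 = ∑' n, ∑ kl ∈ Finset.HasAntidiagonal.antidiagonal n, v kl.1 * v kl.2 := by
    rw [pow_two]
    exact tsum_mul_tsum_eq_tsum_sum_antidiagonal_of_summable_norm hn hn
  have hle : ∀ n : ℕ, ∑ kl ∈ Finset.HasAntidiagonal.antidiagonal n, v kl.1 * v kl.2 ≤ ((n : ℝ) + 1) * v n := by
    intro n
    calc ∑ kl ∈ Finset.HasAntidiagonal.antidiagonal n, v kl.1 * v kl.2 ≤ ∑ kl ∈ Finset.HasAntidiagonal.antidiagonal n, v n := by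
          refine Finset.sum_le_sum (fun kl hkl => ?_)
          rw [Finset.HasAntidiagonal.mem_antidiagonal] at hkl
          calc v kl.1 * v kl.2 ≤ v (kl.1 + kl.2) := hm _ _
            _ = v n := by rw [hkl]
      _ = ((n : ℝ) + 1) * v n := by
          rw [Finset.sum_const, Finset.Nat.card_antidiagonal, nsmul_eq_mul]
          push_cast
          ring
  have hsa : Summable (fun n => ∑ kl ∈ Finset.HasAntidiagonal.antidiagonal n, v kl.1 * v kl.2) := by
    refine Summable.of_nonneg_of_le (fun n => ?_) hle hs1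
    exact Finset.sum_nonneg (fun kl _ => mul_nonneg (hv _).le (hv _).le)
  rw [e1]
  calc ∑' n, ∑ kl ∈ Finset.HasAntidiagonal.antidiagonal n, v kl.1 * v kl.2 ≤ ∑' n : ℕ, ((n : ℝ) + 1) * v n :=
        hsa.tsum_le_tsum hle hs1
    _ < ∑' n : ℕ, (2 * (n : ℝ) + 1) * v n := by
        refine Summable.tsum_lt_tsum (i := 1) (fun n => ?_) ?_ hs1 hs
        · have h1 : (0 : ℝ) ≤ (n : ℝ) := Nat.cast_nonneg n
          show ((n : ℝ) + 1) * v n ≤ (2 * (n : ℝ) + 1) * v n
          nlinarith [hv n, mul_nonneg h1 (hv n).le]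
        · have := hv 1
          push_cast
          nlinarith

/-- the critical weight exists, by supermultiplicativity -/
theorem exists_crit {u : ℕ → ℝ} {R : ℝ} (hR : 0 < R) (hu0 : u 0 = 1) (hu : ∀ n, 0 < u n)
    (hm : ∀ m n, u m * u n ≤ u (m + n)) (hs : Summable (fun n : ℕ => (2 * (n : ℝ) + 1) * u n * R ^ (2 * n))) :
    ∃ α, CritW u R α := by
  set v : ℕ → ℝ := fun n => u n * R ^ (2 * n) with hvdef
  have hv : ∀ n, 0 < v n := fun n => mul_pos (hu n) (pow_pos hR _)
  have hvm : ∀ m n, v m * v n ≤ v (m + n) := by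
    intro m n
    have h1 : v m * v n = (u m * u n) * R ^ (2 * (m + n)) := by
      simp only [hvdef]
      rw [mul_add, pow_add]
      ring
    rw [h1]
    exact mul_le_mul_of_nonneg_right (hm m n) (pow_pos hR _).le
  have hs' : Summable (fun n : ℕ => (2 * (n : ℝ) + 1) * v n) := by
    refine hs.congr (fun n => ?_)
    simp only [hvdef]
    ring
  obtain ⟨hsv, hlt⟩ := sq_tsum_lt hv hvm hs'
  have hA : AA u R = R * ∑' n, v n := by
    unfold AA
    rw [← tsum_mul_left]
    refine tsum_congr (fun n => ?_)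
    simp only [hvdef]
    rw [pow_succ]
    ring
  have hD : AD u R = ∑' n : ℕ, (2 * (n : ℝ) + 1) * v n := by
    unfold AD
    refine tsum_congr (fun n => ?_)
    simp only [hvdef]
    ring
  set V : ℝ := ∑' n, v n with hV
  set D : ℝ := ∑' n : ℕ, (2 * (n : ℝ) + 1) * v n with hDd
  have hVpos : 0 < V := hsv.tsum_pos (fun n => (hv n).le) 0 (hv 0)
  have hDpos : 0 < D := lt_of_le_of_lt (sq_nonneg V) hlt
  have hApos : 0 < AA u R := by rw [hA]; exact mul_pos hR hVpos
  set K : ℝ := AA u R ^ 2 / (R ^ 2 * AD u R) with hK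
  have hKeq : K = V ^ 2 / D := by
    rw [hK, hA, hD, mul_pow]
    exact mul_div_mul_left _ _ (pow_pos hR 2).ne'
  have hK0 : 0 < K := by rw [hKeq]; exact div_pos (pow_pos hVpos 2) hDpos
  have hK1 : K < 1 := by rw [hKeq, div_lt_one hDpos]; exact hlt
  have h1K : 0 < 1 - K := by linarith
  have hq : 0 < 1 / (1 - K) ^ 2 - 1 := by
    have h2 : (1 - K) ^ 2 < 1 := by nlinarith
    have h3 : 0 < (1 - K) ^ 2 := pow_pos h1K 2
    have h4 : 1 < 1 / (1 - K) ^ 2 := by
      rw [lt_div_iff₀ h3]; linarith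
    linarith
  set s : ℝ := Real.sqrt (1 / (1 - K) ^ 2 - 1) with hsdef
  have hspos : 0 < s := Real.sqrt_pos.mpr hq
  have hssq : s ^ 2 = 1 / (1 - K) ^ 2 - 1 := Real.sq_sqrt hq.le
  set A : ℝ := AA u R with hAdef
  have hAs : 0 < A + s := by linarith
  refine ⟨A / (A + s), div_pos hApos hAs, ?_, ?_⟩
  · rw [div_lt_one hAs]; linarith
  · have e1 : (1 - A / (A + s)) ^ 2 * (A / (A / (A + s))) ^ 2 = s ^ 2 := by
      have h5 : 1 - A / (A + s) = s / (A + s) := by
        field_simp
        ring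
      have h6 : A / (A / (A + s)) = A + s := by
        field_simp
      rw [h5, h6]
      field_simp
    rw [← hAdef] at *
    rw [e1, hssq]
    have e2 : 1 + (1 / (1 - K) ^ 2 - 1) = (1 / (1 - K)) ^ 2 := by
      rw [div_pow]; ring
    rw [e2, Real.sqrt_sq (by positivity)]
    rw [one_div_one_div]
    ring

end Pool.Agent.RDL
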