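import Pool.Agent.RDL.Crit

/-!
# The critical weight: the exact expansion for exponents between `2` and `3`
-/

set_option autoImplicit false

namespace Pool.Agent.RDL

open Finset Filter Topology

theorem crit_x {u : ℕ → ℝ} {R α a κ : ℝ} (hR : 0 < R) (ha : 2 < a) (ha3 : a < 3) (hα : CritW u R α)
    (hcont : ContinuousOn (AA u) (Set.Icc 0 R)) (hpos : ∀ ξ ∈ Set.Ioc 0 R, 0 < AA u ξ)
    (hlt : ∀ ξ ∈ Set.Ico 0 R, AA u ξ < AA u R) (hAD : 0 < AD u R) (hκ : 0 < κ)
    (h : Tendsto (fun δ : ℝ => (AD u R * δ - (AA u R - AA u (R - δ))) / δ ^ (a - 1)) (𝓝[>] 0) (𝓝 κ)) :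
    ∃ κ' > (0 : ℝ), Tendsto (fun ξ : ℝ => (zz u α R - zz u α ξ) / (AA u R / α - AA u ξ / α) ^ (a - 1)) (𝓝[<] R)
      (𝓝 κ') := by
  have _ := hcont
  obtain ⟨hα0, hα1, hcr⟩ := hα
  set b := 1 - α with hbdef
  have hb : 0 < b := by linarith
  set A := AA u R with hAdef
  set D := AD u R with hDdef
  have hA : 0 < A := hpos R ⟨hR, le_rfl⟩
  obtain ⟨s, hs⟩ : ∃ s, s = a - 1 := ⟨_, rfl⟩
  rw [← hs] at h ⊢
  have hs1 : 1 < s := by linarith
  have hs2 : s < 2 := by linarith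
  -- the function G
  have hzz : ∀ ξ, zz u α ξ = 1 / (α / ξ + gg b (α / AA u ξ)) := by
    intro ξ
    unfold zz gg
    rw [add_sub_assoc]
  have hG0 : ∀ ξ ∈ Set.Ioc 0 R, 0 < α / ξ + gg b (α / AA u ξ) := by
    intro ξ hξ
    have h1 := hpos ξ hξ
    have h2 : 0 < gg b (α / AA u ξ) := gg_pos hb (by positivity)
    have h3 : 0 < α / ξ := div_pos hα0 hξ.1
    linarith
  -- the critical equation
  have hcrit : 1 - (α / A) / Real.sqrt (b ^ 2 + (α / A) ^ 2) = A ^ 2 / (R ^ 2 * D) := by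
    rw [← hcr]
    congr 1
    have h1 : b ^ 2 + (α / A) ^ 2 = (α / A) ^ 2 * (1 + b ^ 2 * (A / α) ^ 2) := by
      field_simp
      ring
    rw [h1, Real.sqrt_mul (by positivity), Real.sqrt_sq (by positivity)]
    have h2 : 0 < α / A := by positivity
    have h3 : 0 < Real.sqrt (1 + b ^ 2 * (A / α) ^ 2) := Real.sqrt_pos.2 (by positivity)
    field_simp
  set K := 2 * α / R ^ 3 + 2 * α * D / (R ^ 2 * A) + 2 / b * (2 * α * D / A ^ 2) ^ 2 with hK
  have hK0 : 0 < K := by positivity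
  set GR := α / R + gg b (α / A) with hGR
  have hGR0 : 0 < GR := hG0 R ⟨hR, le_rfl⟩
  have hpw : ∀ t : ℝ, 0 < t → Tendsto (fun δ : ℝ => δ ^ t) (𝓝[>] 0) (𝓝 0) := by
    intro t ht
    have h1 := (Real.continuousAt_rpow_const 0 t (Or.inr ht.le)).tendsto
    rw [Real.zero_rpow ht.ne'] at h1
    exact h1.mono_left nhdsWithin_le_nhds
  have hev : ∀ᶠ δ in 𝓝[>] (0 : ℝ), 0 < δ := eventually_mem_nhdsWithin
  have hevR : ∀ᶠ δ in 𝓝[>] (0 : ℝ), δ ∈ Set.Ioo 0 (R / 2) := Ioo_mem_nhdsGT (by positivity)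
  have hevA : ∀ᶠ δ in 𝓝[>] (0 : ℝ), δ ∈ Set.Ioo 0 (A / (2 * D)) := Ioo_mem_nhdsGT (by positivity)
  have hevE : ∀ᶠ δ in 𝓝[>] (0 : ℝ), 0 < (D * δ - (A - AA u (R - δ))) / δ ^ s := h.eventually (lt_mem_nhds hκ)
  -- E / δ tends to 0
  have hE1 : Tendsto (fun δ : ℝ => (D * δ - (A - AA u (R - δ))) / δ) (𝓝[>] 0) (𝓝 0) := by
    have h1 := h.mul (hpw (s - 1) (by linarith))
    rw [mul_zero] at h1
    refine h1.congr' ?_
    filter_upwards [hev] with δ hδ
    rw [Real.rpow_sub_one hδ.ne']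
    have : δ ^ s ≠ 0 := (Real.rpow_pos_of_pos hδ s).ne'
    field_simp
  -- y / δ
  have hy : Tendsto (fun δ : ℝ => (A / α - AA u (R - δ) / α) / δ) (𝓝[>] 0) (𝓝 (D / α)) := by
    have h1 := (hE1.const_sub D).div_const α
    rw [sub_zero] at h1
    refine h1.congr' ?_
    filter_upwards [hev] with δ hδ
    field_simp
    ring
  have hyS : Tendsto (fun δ : ℝ => (A / α - AA u (R - δ) / α) ^ s / δ ^ s) (𝓝[>] 0) (𝓝 ((D / α) ^ s)) := by
    have h1 := hy.rpow_const (p := s) (Or.inr (by linarith))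
    refine h1.congr' ?_
    filter_upwards [hevR] with δ hδ
    rw [Real.div_rpow _ hδ.1.le]
    have h2 := hlt (R - δ) ⟨by linarith [hδ.2], by linarith [hδ.1]⟩
    rw [← sub_div]
    exact div_nonneg (by linarith) hα0.le
  -- the expansion of G
  have hG : Tendsto (fun δ : ℝ => ((α / (R - δ) + gg b (α / AA u (R - δ))) - GR) / δ ^ s) (𝓝[>] 0)
      (𝓝 (α / (R ^ 2 * D) * κ)) := by
    have h1 : Tendsto (fun δ : ℝ => ((α / (R - δ) + gg b (α / AA u (R - δ))) - GR) / δ ^ s -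
        α / (R ^ 2 * D) * ((D * δ - (A - AA u (R - δ))) / δ ^ s)) (𝓝[>] 0) (𝓝 0) := by
      have h2 := (hpw (2 - s) (by linarith)).const_mul K
      rw [mul_zero] at h2
      refine squeeze_zero_norm' ?_ h2
      filter_upwards [hevR, hevA, hevE] with δ hδ hδA hδE
      have hδ0 : 0 < δ := hδ.1
      have hds : 0 < δ ^ s := Real.rpow_pos_of_pos hδ0 s
      have hE0 : 0 < D * δ - (A - AA u (R - δ)) := by
        have := mul_pos hδE hds
        rwa [div_mul_cancel₀ _ hds.ne'] at this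
      have hDle : A - AA u (R - δ) ≤ D * δ := by linarith
      have haA2 : A / 2 ≤ AA u (R - δ) := by
        have h3 : D * δ ≤ A / 2 := by
          calc D * δ ≤ D * (A / (2 * D)) := mul_le_mul_of_nonneg_left hδA.2.le hAD.le
            _ = A / 2 := by field_simp
        linarith
      have hlt' := hlt (R - δ) ⟨by linarith [hδ.2], by linarith⟩
      have hkey := key_exp (b := b) (α := α) (R := R) (ξ := R - δ) (A := A) (a := AA u (R - δ)) (AD := D) hb hα0 hR
        (by linarith [hδ.2]) (by linarith) hA haA2 hlt'.le hAD (by rw [sub_sub_cancel]; exact hDle) hcrit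
      rw [sub_sub_cancel, ← hK, ← hGR] at hkey
      rw [Real.norm_eq_abs]
      have h4 : ((α / (R - δ) + gg b (α / AA u (R - δ))) - GR) / δ ^ s -
          α / (R ^ 2 * D) * ((D * δ - (A - AA u (R - δ))) / δ ^ s) =
          ((α / (R - δ) + gg b (α / AA u (R - δ))) - GR -
            α * (D * δ - (A - AA u (R - δ))) / (R ^ 2 * D)) / δ ^ s := by
        ring
      rw [h4, abs_div, abs_of_pos hds, div_le_iff₀ hds]
      have h5 : K * δ ^ (2 - s) * δ ^ s = K * δ ^ 2 := by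
        rw [mul_assoc, ← Real.rpow_add hδ0, sub_add_cancel, Real.rpow_two]
      rw [h5]
      exact hkey
    have h2 := h1.add (h.const_mul (α / (R ^ 2 * D)))
    rw [zero_add] at h2
    refine h2.congr (fun δ => ?_)
    ring
  have hGl : Tendsto (fun δ : ℝ => α / (R - δ) + gg b (α / AA u (R - δ))) (𝓝[>] 0) (𝓝 GR) := by
    have h1 := (hG.mul (hpw s (by linarith))).add_const GR
    rw [mul_zero, zero_add] at h1
    refine h1.congr' ?_
    filter_upwards [hev] with δ hδ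
    rw [div_mul_cancel₀ _ (Real.rpow_pos_of_pos hδ s).ne']
    ring
  have hDα : 0 < (D / α) ^ s := Real.rpow_pos_of_pos (by positivity) s
  refine ⟨α / (R ^ 2 * D) * κ / ((D / α) ^ s * (GR * GR)), by positivity, ?_⟩
  have hF : Tendsto (fun δ : ℝ => (zz u α R - zz u α (R - δ)) / (A / α - AA u (R - δ) / α) ^ s) (𝓝[>] 0)
      (𝓝 (α / (R ^ 2 * D) * κ / ((D / α) ^ s * (GR * GR)))) := by
    have h1 := hG.div (hyS.mul (hGl.const_mul GR)) (by positivity)
    refine h1.congr' ?_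
    filter_upwards [hevR] with δ hδ
    have hds : 0 < δ ^ s := Real.rpow_pos_of_pos hδ.1 s
    have h2 := hG0 (R - δ) ⟨by linarith [hδ.2], by linarith [hδ.1]⟩
    have h3 := hlt (R - δ) ⟨by linarith [hδ.2], by linarith [hδ.1]⟩
    have h4 : 0 < A / α - AA u (R - δ) / α := by
      rw [← sub_div]
      exact div_pos (by linarith) hα0
    have h5 : 0 < (A / α - AA u (R - δ) / α) ^ s := Real.rpow_pos_of_pos h4 s
    have hgen : ∀ G Y d : ℝ, 0 < G → 0 < Y → 0 < d →
        (G - GR) / d / (Y / d * (GR * G)) = (1 / GR - 1 / G) / Y := by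
      intro G Y d hG' hY' hd'
      field_simp
    rw [hzz, hzz, ← hAdef, ← hGR]
    exact hgen _ _ _ h2 h5 hds
  have hsub : Tendsto (fun ξ : ℝ => R - ξ) (𝓝[<] R) (𝓝[>] 0) := by
    refine tendsto_nhdsWithin_iff.2 ⟨?_, ?_⟩
    · have h1 : Tendsto (fun ξ : ℝ => R - ξ) (𝓝 R) (𝓝 (R - R)) := (continuous_const.sub continuous_id).tendsto R
      rw [sub_self] at h1
      exact h1.mono_left nhdsWithin_le_nhds
    · filter_upwards [eventually_mem_nhdsWithin] with ξ hξ
      exact sub_pos.2 (show ξ < R from hξ)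
  refine (hF.comp hsub).congr (fun ξ => ?_)
  simp only [Function.comp_apply, sub_sub_cancel]

end Pool.Agent.RDL
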