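import Mathlib

/-!
# Return probabilities on groups with property RD: definitions
-/

set_option autoImplicit false

namespace Pool.Agent.RDL

open Finset

variable {G : Type} [Group G]

/-- convolution by `ν` -/
noncomputable def cv (ν : G →₀ ℝ) (h : G → ℝ) (x : G) : ℝ := ν.sum (fun y a => a * h (y⁻¹ * x))

/-- the unit mass at `1` -/
noncomputable def dl : G → ℝ := Set.indicator ({1} : Set G) (fun _ => (1 : ℝ))

/-- the convolution powers of `ν` -/
noncomputable def pw (ν : G →₀ ℝ) (n : ℕ) : G → ℝ := (cv ν)^[n] dl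

/-- the return probability of the random walk with the step law `ν` after `n` steps -/
noncomputable def rt (ν : G →₀ ℝ) (n : ℕ) : ℝ := pw ν n 1

/-- a finitely supported symmetric probability measure -/
structure SP (ν : G →₀ ℝ) : Prop where
  nonneg : ∀ x, 0 ≤ ν x
  one : ν.sum (fun _ a => a) = 1
  symm : ∀ x, ν x⁻¹ = ν x

/-- all steps are odd for a homomorphism to `{1, -1}` -/
def Par (ν : G →₀ ℝ) : Prop := ∃ χ : G →* ℤˣ, ∀ s ∈ ν.support, χ s = -1

/-- the word length for the finite generating set `S` -/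
noncomputable def wl (S : Finset G) (x : G) : ℕ :=
  sInf {n : ℕ | ∃ l : List G, l.length = n ∧ (∀ y ∈ l, y ∈ S ∨ y⁻¹ ∈ S) ∧ l.prod = x}

/-- `G` is finitely generated and has property RD -/
def RDp (G : Type) [Group G] : Prop :=
  ∃ S : Finset G, Subgroup.closure (S : Set G) = ⊤ ∧ ∃ (C : ℝ) (s : ℕ), ∀ f g : G →₀ ℝ, ∀ T : Finset G,
    ∑ x ∈ T, (f.sum (fun y a => a * g (y⁻¹ * x))) ^ 2 ≤
      C * (f.sum (fun x a => a ^ 2 * (1 + (wl S x : ℝ)) ^ (2 * s))) * g.sum (fun _ a => a ^ 2)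

/-- `ρ` is the norm of the convolution by `ν` on square summable functions -/
def IsNrm (ν : G →₀ ℝ) (ρ : ℝ) : Prop :=
  (∀ g : G →₀ ℝ, ∀ T : Finset G, ∑ x ∈ T, (cv ν g x) ^ 2 ≤ ρ ^ 2 * g.sum (fun _ a => a ^ 2)) ∧
  ∀ r : ℝ, 0 ≤ r → r < ρ → ∃ g : G →₀ ℝ, ∃ T : Finset G,
    r ^ 2 * g.sum (fun _ a => a ^ 2) < ∑ x ∈ T, (cv ν g x) ^ 2

/-- two-sided bounds for the even return probabilities -/
def Asy (ν : G →₀ ℝ) (z : ℝ) (φ : ℕ → ℝ) : Prop :=
  0 < z ∧ ∃ c C : ℝ, 0 < c ∧ ∀ n : ℕ, 1 ≤ n → c * φ n ≤ rt ν (2 * n) * z ^ (2 * n) ∧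
    rt ν (2 * n) * z ^ (2 * n) ≤ C * φ n

/-- the sum of `1 / (k ℓ(k))` -/
noncomputable def mm (ℓ : ℕ → ℝ) (N : ℕ) : ℝ := ∑ k ∈ Finset.Icc 1 N, 1 / ((k : ℝ) * ℓ k)

/-- slowly varying corrections of the critical exponent -/
structure SV (ℓ : ℕ → ℝ) : Prop where
  pos : ∀ n, 1 ≤ n → 0 < ℓ n
  mono : ∀ m n, 1 ≤ m → m ≤ n → ℓ m ≤ ℓ n
  unb : ∀ B : ℝ, ∃ N, B ≤ mm ℓ N
  sq : ∃ C : ℝ, ∀ N, 1 ≤ N → mm ℓ (N ^ 2) ≤ C * mm ℓ N

/-- the generating function of the even terms -/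
noncomputable def AA (u : ℕ → ℝ) (ξ : ℝ) : ℝ := ∑' n : ℕ, u n * ξ ^ (2 * n + 1)

/-- the derivative of the generating function -/
noncomputable def AD (u : ℕ → ℝ) (ξ : ℝ) : ℝ := ∑' n : ℕ, (2 * (n : ℝ) + 1) * u n * ξ ^ (2 * n)

/-- the critical weight `α`: the linear terms cancel -/
def CritW (u : ℕ → ℝ) (R α : ℝ) : Prop :=
  0 < α ∧ α < 1 ∧ 1 - 1 / Real.sqrt (1 + (1 - α) ^ 2 * (AA u R / α) ^ 2) = AA u R ^ 2 / (R ^ 2 * AD u R)

/-- the value of the variable `z` of the free product, from the variable `ξ` of the factor -/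
noncomputable def zz (u : ℕ → ℝ) (α ξ : ℝ) : ℝ :=
  1 / (α / ξ + Real.sqrt ((1 - α) ^ 2 + (α / AA u ξ) ^ 2) - α / AA u ξ)

/-- centroids of polynomial growth -/
structure CentD (G : Type) [Group G] (len : G → ℕ) (c : G → G → G) (D : ℕ) : Prop where
  one : len 1 = 0
  pos : ∀ x, x ≠ 1 → 1 ≤ len x
  mul : ∀ x y, len (x * y) ≤ len x + len y
  inv : ∀ x, len x⁻¹ = len x
  c1 : ∀ u, ∃ T : Finset G, T.card ≤ (len u + 2) ^ D ∧ ∀ w, c u w ∈ T
  c2 : ∀ w n, ∃ T : Finset G, T.card ≤ (n + 2) ^ D ∧ ∀ u, len u ≤ n → c u w ∈ T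
  c3 : ∀ v n, ∃ T : Finset G, T.card ≤ (n + 2) ^ D ∧ ∀ u, len u ≤ n → u⁻¹ * c u (u * v) ∈ T

/-- finitely generated groups with centroids of polynomial growth -/
def Cent (G : Type) [Group G] : Prop :=
  (∃ (len : G → ℕ) (c : G → G → G) (D : ℕ), CentD G len c D) ∧ ∃ S : Finset G, Subgroup.closure (S : Set G) = ⊤

/-- the two factors `H` and `ℤ` -/
def Fam (H : Type) : Bool → Type
  | true => H
  | false => Multiplicative ℤ

instance (H : Type) [Group H] : ∀ b, Group (Fam H b)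
  | true => inferInstanceAs (Group H)
  | false => inferInstanceAs (Group (Multiplicative ℤ))

/-- the free product of `H` and `ℤ` -/
abbrev Fr (H : Type) [Group H] : Type := Monoid.CoprodI (Fam H)

/-- the product of a function over the letters of a reduced word -/
noncomputable def wf {ι : Type} [DecidableEq ι] {M : ι → Type} [∀ i, Group (M i)] (F : ∀ i, M i → ℝ)
    (x : Monoid.CoprodI M) : ℝ := by
  classical
  exact ((Monoid.CoprodI.Word.equiv x).toList.map (fun p => F p.1 p.2)).prod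

/-- the step law of a free product -/
noncomputable def fm {ι : Type} [Fintype ι] {M : ι → Type} [∀ i, Group (M i)] (α : ι → ℝ) (ν : ∀ i, M i →₀ ℝ) :
    Monoid.CoprodI M →₀ ℝ := ∑ i, α i • (ν i).mapDomain (Monoid.CoprodI.of : M i →* Monoid.CoprodI M)

/-- the simple walk on the integers -/
noncomputable def zw : Multiplicative ℤ →₀ ℝ :=
  Finsupp.single (Multiplicative.ofAdd 1) (1 / 2) + Finsupp.single (Multiplicative.ofAdd (-1)) (1 / 2)

/-- the first passage function of the simple walk on the integers -/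
noncomputable def zf (lam : ℝ) (x : Multiplicative ℤ) : ℝ := lam ^ (Multiplicative.toAdd x).natAbs

end Pool.Agent.RDL
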