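import Mathlib

set_option autoImplicit false

/-!
# Monotone densities (Karamata): from the asymptotics of a sum to the asymptotics of its terms
-/

namespace Pool.Agent.RDL

open Finset Filter Topology

theorem dens_diff {T S : ℕ → ℝ} (hanti : Antitone T) (hS : ∀ n, S (n + 1) = S n + T (n + 1)) (m n : ℕ) :
    S m - S n ≤ ((m : ℝ) - n) * T n := by
  rcases le_total n m with h | h
  · induction m, h using Nat.le_induction with
    | base => simp
    | succ m hm ih =>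
      have h1 := hanti (show n ≤ m + 1 by omega)
      rw [hS m]
      push_cast
      nlinarith
  · have h2 : ((n : ℝ) - m) * T n ≤ S n - S m := by
      induction n, h using Nat.le_induction with
      | base => simp
      | succ n hn ih =>
        have h1 := hanti (show n ≤ n + 1 by omega)
        have h3 : (0 : ℝ) ≤ (n : ℝ) - m := by
          have : (m : ℝ) ≤ n := by exact_mod_cast hn
          linarith
        rw [hS n]
        push_cast
        nlinarith
    linarith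

theorem dens_core {T S G : ℕ → ℝ} {c ρ : ℝ} (hanti : Antitone T) (hS : ∀ n, S (n + 1) = S n + T (n + 1))
    (hG0 : ∀ᶠ n in atTop, 0 < G n)
    (hG : ∀ s : ℝ, 0 < s → Tendsto (fun n : ℕ => G ⌊s * (n : ℝ)⌋₊ / G n) atTop (𝓝 (s ^ ρ)))
    (h : Tendsto (fun n : ℕ => S n / G n) atTop (𝓝 c)) :
    Tendsto (fun n : ℕ => T n * (n : ℝ) / G n) atTop (𝓝 (c * ρ)) := by
  have hd : Tendsto (fun s : ℝ => c * (s ^ ρ - 1) / (s - 1)) (𝓝[≠] 1) (𝓝 (c * ρ)) := by
    have h1 := (Real.hasDerivAt_rpow_const (x := 1) (p := ρ) (Or.inl one_ne_zero)).tendsto_slope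
    have h2 := h1.const_mul c
    rw [Real.one_rpow, mul_one] at h2
    refine h2.congr' (Eventually.of_forall fun s => ?_)
    simp only [slope_def_field, Real.one_rpow]
    ring
  have key : ∀ s : ℝ, 0 < s → Tendsto (fun n : ℕ => (S ⌊s * (n : ℝ)⌋₊ - S n) / G n) atTop
      (𝓝 (c * (s ^ ρ - 1))) := by
    intro s hs
    have hfl : Tendsto (fun n : ℕ => ⌊s * (n : ℝ)⌋₊) atTop atTop :=
      tendsto_nat_floor_atTop.comp (Tendsto.const_mul_atTop hs tendsto_natCast_atTop_atTop)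
    have h1 := (h.comp hfl).mul (hG s hs)
    have h2 := h1.sub h
    have h5 : c * (s ^ ρ - 1) = c * s ^ ρ - c := by ring
    rw [h5]
    refine h2.congr' ?_
    filter_upwards [hG0, hfl.eventually hG0] with n h3 h4
    simp only [Function.comp]
    have h3' := h3.ne'
    have h4' := h4.ne'
    field_simp
  have key2 : ∀ s : ℝ, 0 < s → Tendsto (fun n : ℕ => ((⌊s * (n : ℝ)⌋₊ : ℝ) - n) / n) atTop (𝓝 (s - 1)) := by
    intro s hs
    have h1 := ((tendsto_nat_floor_mul_div_atTop (R := ℝ) hs.le).comp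
      (tendsto_natCast_atTop_atTop (R := ℝ))).sub_const 1
    refine h1.congr' ?_
    filter_upwards [eventually_gt_atTop 0] with n hn
    have h2 : (n : ℝ) ≠ 0 := by positivity
    simp only [Function.comp]
    field_simp
  have key3 : ∀ s : ℝ, 0 < s → s ≠ 1 → Tendsto (fun n : ℕ => ((S ⌊s * (n : ℝ)⌋₊ - S n) / G n) /
      (((⌊s * (n : ℝ)⌋₊ : ℝ) - n) / n)) atTop (𝓝 (c * (s ^ ρ - 1) / (s - 1))) := by
    intro s hs hs1
    exact (key s hs).div (key2 s hs) (sub_ne_zero.2 hs1)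
  rw [tendsto_order]
  constructor
  · intro a ha
    obtain ⟨s, hs2, hs1⟩ : ∃ s : ℝ, a < c * (s ^ ρ - 1) / (s - 1) ∧ s ∈ Set.Ioi (1 : ℝ) := by
      have h1 := hd.eventually (lt_mem_nhds ha)
      have h2 : ∀ᶠ s : ℝ in 𝓝[>] 1, a < c * (s ^ ρ - 1) / (s - 1) :=
        h1.filter_mono (nhdsWithin_mono 1 (fun x hx => ne_of_gt hx))
      exact (h2.and self_mem_nhdsWithin).exists
    have hs1' : (1 : ℝ) < s := hs1
    have h3 := (key3 s (by linarith) hs1'.ne').eventually (lt_mem_nhds hs2)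
    have h4 := (key2 s (by linarith)).eventually (lt_mem_nhds (show (0 : ℝ) < s - 1 by linarith))
    filter_upwards [h3, h4, hG0, eventually_gt_atTop 0] with n h5 h6 h7 h8
    refine lt_of_lt_of_le h5 ?_
    have h9 : (0 : ℝ) < n := by exact_mod_cast h8
    have h10 := dens_diff hanti hS ⌊s * (n : ℝ)⌋₊ n
    rw [div_le_iff₀ h6]
    have h11 : T n * (n : ℝ) / G n * (((⌊s * (n : ℝ)⌋₊ : ℝ) - n) / n) =
        (((⌊s * (n : ℝ)⌋₊ : ℝ) - n) * T n) / G n := by
      field_simp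
    rw [h11]
    exact div_le_div_of_nonneg_right h10 h7.le
  · intro a ha
    obtain ⟨s, ⟨hs2, hs0⟩, hs1⟩ : ∃ s : ℝ, (c * (s ^ ρ - 1) / (s - 1) < a ∧ 0 < s) ∧ s ∈ Set.Iio (1 : ℝ) := by
      have h1 := hd.eventually (gt_mem_nhds ha)
      have h2 : ∀ᶠ s : ℝ in 𝓝[<] 1, c * (s ^ ρ - 1) / (s - 1) < a :=
        h1.filter_mono (nhdsWithin_mono 1 (fun x hx => ne_of_lt hx))
      have h3 : ∀ᶠ s : ℝ in 𝓝[<] 1, 0 < s := by
        filter_upwards [Ioo_mem_nhdsLT (show (0 : ℝ) < 1 by norm_num)] with s hs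
        exact hs.1
      exact ((h2.and h3).and self_mem_nhdsWithin).exists
    have hs1' : s < (1 : ℝ) := hs1
    have h3 := (key3 s hs0 hs1'.ne).eventually (gt_mem_nhds hs2)
    have h4 := (key2 s hs0).eventually (gt_mem_nhds (show s - 1 < (0 : ℝ) by linarith))
    filter_upwards [h3, h4, hG0, eventually_gt_atTop 0] with n h5 h6 h7 h8
    refine lt_of_le_of_lt ?_ h5
    have h9 : (0 : ℝ) < n := by exact_mod_cast h8
    have h10 := dens_diff hanti hS ⌊s * (n : ℝ)⌋₊ n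
    rw [le_div_iff_of_neg h6]
    have h11 : T n * (n : ℝ) / G n * (((⌊s * (n : ℝ)⌋₊ : ℝ) - n) / n) =
        (((⌊s * (n : ℝ)⌋₊ : ℝ) - n) * T n) / G n := by
      field_simp
    rw [h11]
    exact div_le_div_of_nonneg_right h10 h7.le

theorem mono_density {T G : ℕ → ℝ} {r : ℝ} (hr : 0 < r) (hanti : Antitone T) (hG0 : ∀ᶠ n in atTop, 0 < G n)
    (hG : ∀ s : ℝ, 0 < s → Tendsto (fun n : ℕ => G ⌊s * (n : ℝ)⌋₊ / G n) atTop (𝓝 (s ^ r)))
    (h : Tendsto (fun n : ℕ => (∑ k ∈ range (n + 1), T k) / G n) atTop (𝓝 1)) :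
    Tendsto (fun n : ℕ => T n * (n : ℝ) / G n) atTop (𝓝 r) := by
  have _ := hr
  have h1 := dens_core (S := fun n => ∑ k ∈ range (n + 1), T k) hanti
    (fun n => Finset.sum_range_succ T (n + 1)) hG0 hG h
  rwa [one_mul] at h1

theorem tail_density {b G : ℕ → ℝ} {r : ℝ} (hr : 0 < r) (hanti : Antitone b) (hs : Summable b)
    (hG0 : ∀ᶠ n in atTop, 0 < G n)
    (hG : ∀ s : ℝ, 0 < s → Tendsto (fun n : ℕ => G ⌊s * (n : ℝ)⌋₊ / G n) atTop (𝓝 (s ^ (-r))))
    (h : Tendsto (fun n : ℕ => (∑' k, b (k + (n + 1))) / G n) atTop (𝓝 1)) :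
    Tendsto (fun n : ℕ => b n * (n : ℝ) / G n) atTop (𝓝 r) := by
  have _ := hr
  have hS : ∀ n, -(∑' k, b (k + (n + 1 + 1))) = -(∑' k, b (k + (n + 1))) + b (n + 1) := by
    intro n
    have h1 : Summable (fun k => b (k + (n + 1))) := (summable_nat_add_iff (n + 1)).2 hs
    have h2 := h1.tsum_eq_zero_add
    rw [h2]
    simp only [zero_add]
    have h3 : (fun k => b (k + 1 + (n + 1))) = fun k => b (k + (n + 1 + 1)) := by
      funext k
      congr 1
      omega
    rw [h3]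
    ring
  have h2 : Tendsto (fun n : ℕ => (-(∑' k, b (k + (n + 1)))) / G n) atTop (𝓝 (-1)) := by
    refine (h.neg).congr (fun n => ?_)
    rw [neg_div]
  have h1 := dens_core (S := fun n => -(∑' k, b (k + (n + 1)))) hanti hS hG0 hG h2
  have h4 : (-1 : ℝ) * (-r) = r := by ring
  rwa [h4] at h1

end Pool.Agent.RDL
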