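import Pool.Agent.RDL.Defs

/-!
# The second order remainder of a power, and the tail sums
-/

set_option autoImplicit false

namespace Pool.Agent.RDL

open Finset

/-- the second order remainder `(1 - s)^k - 1 + k s` -/
noncomputable def dd (k : ℕ) (s : ℝ) : ℝ := (1 - s) ^ k - 1 + k * s

theorem dd_zero (s : ℝ) : dd 0 s = 0 := by simp [dd]

theorem dd_one (s : ℝ) : dd 1 s = 0 := by simp [dd]

theorem dd_succ (k : ℕ) (s : ℝ) : dd (k + 1) s = dd k s + s * (1 - (1 - s) ^ k) := by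
  unfold dd
  push_cast
  ring

theorem dd_nonneg {s : ℝ} (h0 : 0 ≤ s) (h1 : s ≤ 1) (k : ℕ) : 0 ≤ dd k s := by
  induction k with
  | zero => rw [dd_zero]
  | succ k ih =>
    rw [dd_succ]
    have : (1 - s) ^ k ≤ 1 := pow_le_one₀ (by linarith) (by linarith)
    nlinarith

theorem dd_le {s : ℝ} (h0 : 0 ≤ s) (h1 : s ≤ 1) (k : ℕ) : dd k s ≤ k * s := by
  unfold dd
  have : (1 - s) ^ k ≤ 1 := pow_le_one₀ (by linarith) (by linarith)
  linarith

theorem dd_le_sq {s : ℝ} (h0 : 0 ≤ s) (h1 : s ≤ 1) (k : ℕ) : dd k s ≤ (k : ℝ) ^ 2 * s ^ 2 / 2 := by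
  induction k with
  | zero => rw [dd_zero]; positivity
  | succ k ih =>
    rw [dd_succ]
    have h2 : 1 + (k : ℝ) * (-s) ≤ (1 + -s) ^ k := one_add_mul_le_pow (by linarith) k
    have h3 : 1 - (1 - s) ^ k ≤ k * s := by
      have : (1 + -s) ^ k = (1 - s) ^ k := by rw [← sub_eq_add_neg]
      rw [this] at h2
      linarith
    have h4 : s * (1 - (1 - s) ^ k) ≤ s * (k * s) := mul_le_mul_of_nonneg_left h3 h0
    push_cast
    nlinarith [sq_nonneg s]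

/-- `1 - (1 - s)^j ≥ min (j s) 1 / 2` -/
theorem one_sub_pow_ge {s : ℝ} (h0 : 0 ≤ s) (h1 : s ≤ 1) (j : ℕ) : min ((j : ℝ) * s) 1 / 2 ≤ 1 - (1 - s) ^ j := by
  have h2 : (1 - s) ^ j ≤ Real.exp (-((j : ℝ) * s)) := by
    have h3 : 1 - s ≤ Real.exp (-s) := by
      have := Real.add_one_le_exp (-s)
      linarith
    calc (1 - s) ^ j ≤ (Real.exp (-s)) ^ j := pow_le_pow_left₀ (by linarith) h3 j
      _ = Real.exp (-((j : ℝ) * s)) := by rw [← Real.exp_nat_mul]; ring_nf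
  have hx : 0 ≤ (j : ℝ) * s := by positivity
  generalize (j : ℝ) * s = x at *
  have h5 : Real.exp (-x) ≤ 1 / (1 + x) := by
    rw [Real.exp_neg, ← one_div]
    apply one_div_le_one_div_of_le (by linarith)
    have := Real.add_one_le_exp x
    linarith
  have h6 : 1 / (1 + x) ≤ 1 - min x 1 / 2 := by
    rw [div_le_iff₀ (by linarith)]
    rcases le_total x 1 with hx1 | hx1
    · rw [min_eq_left hx1]
      nlinarith
    · rw [min_eq_right hx1]
      linarith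
  linarith

theorem dd_mono {s : ℝ} (h0 : 0 ≤ s) (h1 : s ≤ 1) {k l : ℕ} (hkl : k ≤ l) : dd k s ≤ dd l s := by
  refine monotone_nat_of_le_succ (f := fun k => dd k s) (fun k => ?_) hkl
  show dd k s ≤ dd (k + 1) s
  rw [dd_succ]
  have : (1 - s) ^ k ≤ 1 := pow_le_one₀ (by linarith) (by linarith)
  nlinarith

theorem dd_add_ge {s : ℝ} (h0 : 0 ≤ s) (h1 : s ≤ 1) (n k : ℕ) :
    (k : ℝ) * (s * (min ((n : ℝ) * s) 1 / 2)) ≤ dd (n + k) s := by
  induction k with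
  | zero => simpa using dd_nonneg h0 h1 n
  | succ k ih =>
    rw [← add_assoc, dd_succ]
    have h2 := one_sub_pow_ge h0 h1 (n + k)
    have h3 : min ((n : ℝ) * s) 1 ≤ min (((n + k : ℕ) : ℝ) * s) 1 := by
      apply min_le_min_right
      push_cast
      nlinarith [mul_nonneg (Nat.cast_nonneg (α := ℝ) k) h0]
    have h4 : s * (min ((n : ℝ) * s) 1 / 2) ≤ s * (1 - (1 - s) ^ (n + k)) :=
      mul_le_mul_of_nonneg_left (by linarith) h0
    push_cast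
    linarith

/-- the lower bound of the remainder -/
theorem dd_ge {s : ℝ} (h0 : 0 ≤ s) (h1 : s ≤ 1) (n : ℕ) :
    min ((n : ℝ) ^ 2 * s ^ 2) ((n : ℝ) * s) / 2 ≤ dd (2 * n + 1) s := by
  have h2 := dd_add_ge h0 h1 n n
  have h3 : dd (n + n) s ≤ dd (2 * n + 1) s := dd_mono h0 h1 (by omega)
  have h4 : min ((n : ℝ) ^ 2 * s ^ 2) ((n : ℝ) * s) = (n : ℝ) * s * min ((n : ℝ) * s) 1 := by
    rw [mul_min_of_nonneg _ _ (by positivity), mul_one]
    congr 1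
    ring
  rw [h4]
  nlinarith

/-- the two-sided bound of the remainder -/
theorem el_two {s : ℝ} (h0 : 0 ≤ s) (h1 : s ≤ 1) {n : ℕ} (hn : 1 ≤ n) :
    1 / 2 * min (((n : ℝ) * s) ^ 2) ((n : ℝ) * s) ≤ (2 * (n : ℝ) + 1) * s - (1 - (1 - s) ^ (2 * n + 1)) ∧
    (2 * (n : ℝ) + 1) * s - (1 - (1 - s) ^ (2 * n + 1)) ≤ 9 / 2 * min (((n : ℝ) * s) ^ 2) ((n : ℝ) * s) := by
  have e : (2 * (n : ℝ) + 1) * s - (1 - (1 - s) ^ (2 * n + 1)) = dd (2 * n + 1) s := by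
    unfold dd
    push_cast
    ring
  rw [e]
  have hn' : (1 : ℝ) ≤ n := by exact_mod_cast hn
  constructor
  · have h2 := dd_ge h0 h1 n
    rw [mul_pow]
    linarith
  · rw [mul_min_of_nonneg _ _ (by norm_num)]
    refine le_min ?_ ?_
    · refine (dd_le_sq h0 h1 (2 * n + 1)).trans ?_
      push_cast
      have : (2 * (n : ℝ) + 1) ^ 2 ≤ 9 * (n : ℝ) ^ 2 := by nlinarith
      have h3 : 0 ≤ s ^ 2 := sq_nonneg s
      nlinarith
    · refine (dd_le h0 h1 (2 * n + 1)).trans ?_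
      push_cast
      nlinarith

/-! ## tails -/

theorem tail_fin {ℓ : ℕ → ℝ} (hℓ : SV ℓ) {N : ℕ} (hN : 1 ≤ N) (M : ℕ) :
    ∑ i ∈ range M, 1 / (((i + N + 1 : ℕ) : ℝ) ^ 2 * ℓ (i + N + 1)) ≤
      1 / ((N : ℝ) * ℓ N) - 1 / (((M + N : ℕ) : ℝ) * ℓ N) := by
  have hl := hℓ.pos N hN
  induction M with
  | zero => simp
  | succ M ih =>
    rw [sum_range_succ]
    have hMN : (0 : ℝ) < ((M + N : ℕ) : ℝ) := by exact_mod_cast (by omega : 0 < M + N)
    have h1 : ℓ N ≤ ℓ (M + N + 1) := hℓ.mono N (M + N + 1) hN (by omega)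
    have h2 : 1 / (((M + N + 1 : ℕ) : ℝ) ^ 2 * ℓ (M + N + 1)) ≤ 1 / (((M + N + 1 : ℕ) : ℝ) ^ 2 * ℓ N) := by
      apply one_div_le_one_div_of_le (by positivity)
      exact mul_le_mul_of_nonneg_left h1 (by positivity)
    have h3 : 1 / (((M + N + 1 : ℕ) : ℝ) ^ 2 * ℓ N) ≤
        1 / (((M + N : ℕ) : ℝ) * ℓ N) - 1 / (((M + 1 + N : ℕ) : ℝ) * ℓ N) := by
      have e : ((M + 1 + N : ℕ) : ℝ) = ((M + N : ℕ) : ℝ) + 1 := by push_cast; ring
      have e' : ((M + N + 1 : ℕ) : ℝ) = ((M + N : ℕ) : ℝ) + 1 := by push_cast; ring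
      rw [e, e']
      generalize ((M + N : ℕ) : ℝ) = x at *
      rw [div_sub_div _ _ (by positivity) (by positivity), div_le_div_iff₀ (by positivity) (by positivity)]
      have : 0 < ℓ N ^ 2 := by positivity
      nlinarith [mul_pos hl (mul_pos hl hMN), mul_pos (mul_pos hl hl) (mul_pos hMN hMN)]
    linarith

theorem tail_summable {ℓ : ℕ → ℝ} (hℓ : SV ℓ) {N : ℕ} (hN : 1 ≤ N) :
    Summable (fun i : ℕ => 1 / (((i + N + 1 : ℕ) : ℝ) ^ 2 * ℓ (i + N + 1))) := by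
  refine summable_of_sum_range_le (c := 1 / ((N : ℝ) * ℓ N)) (fun i => ?_) (fun M => ?_)
  · have := hℓ.pos (i + N + 1) (by omega)
    positivity
  · refine (tail_fin hℓ hN M).trans ?_
    have := hℓ.pos N hN
    have : 0 ≤ 1 / (((M + N : ℕ) : ℝ) * ℓ N) := by positivity
    linarith

/-- the tail of the sum of `1 / (n^2 ℓ n)` -/
theorem tail_le {ℓ : ℕ → ℝ} (hℓ : SV ℓ) {N : ℕ} (hN : 1 ≤ N) :
    ∑' i : ℕ, 1 / (((i + N + 1 : ℕ) : ℝ) ^ 2 * ℓ (i + N + 1)) ≤ 1 / ((N : ℝ) * ℓ N) := by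
  refine Real.tsum_le_of_sum_range_le (fun i => ?_) (fun M => ?_)
  · have := hℓ.pos (i + N + 1) (by omega)
    positivity
  · refine (tail_fin hℓ hN M).trans ?_
    have := hℓ.pos N hN
    have : 0 ≤ 1 / (((M + N : ℕ) : ℝ) * ℓ N) := by positivity
    linarith

end Pool.Agent.RDL
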