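import Mathlib
import Pool.Agent.RDL.Defs
import Pool.Agent.RDL.Exp2El

set_option autoImplicit false

namespace Pool.Agent.RDL

open Finset Filter Topology

namespace E2

/-- the bound of the terms -/
theorem term_le {u : ℕ → ℝ} {R C : ℝ} {ℓ : ℕ → ℝ} (hu : ∀ n, 0 < u n) (hℓ : SV ℓ) (hC : 0 ≤ C)
    (h : ∀ n : ℕ, 1 ≤ n → u n * R ^ (2 * n) ≤ C * (1 / ((n : ℝ) ^ 3 * ℓ n))) (n : ℕ) :
    (2 * (n : ℝ) + 1) * u n * R ^ (2 * n) ≤ (if n = 0 then u 0 else 0) + 3 * C / ℓ 1 * (1 / (n : ℝ) ^ 2) := by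
  rcases Nat.eq_zero_or_pos n with hn | hn
  · subst hn
    simp
  · rw [if_neg (by omega), zero_add]
    have hn' : (1 : ℝ) ≤ n := by exact_mod_cast hn
    have hl1 := hℓ.pos 1 le_rfl
    have hln := hℓ.mono 1 n le_rfl hn
    have hlp : 0 < ℓ n := hℓ.pos n hn
    calc (2 * (n : ℝ) + 1) * u n * R ^ (2 * n) = (2 * (n : ℝ) + 1) * (u n * R ^ (2 * n)) := by ring
      _ ≤ (2 * (n : ℝ) + 1) * (C * (1 / ((n : ℝ) ^ 3 * ℓ n))) :=
          mul_le_mul_of_nonneg_left (h n hn) (by positivity)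
      _ ≤ (3 * (n : ℝ)) * (C * (1 / ((n : ℝ) ^ 3 * ℓ 1))) := by
          have h0 : 2 * (n : ℝ) + 1 ≤ 3 * n := by linarith
          gcongr
      _ = 3 * C / ℓ 1 * (1 / (n : ℝ) ^ 2) := by
          field_simp

theorem exp2a {u : ℕ → ℝ} {R c C : ℝ} {ℓ : ℕ → ℝ} (hR : 0 < R) (hu : ∀ n, 0 < u n) (hℓ : SV ℓ) (hc : 0 < c)
    (h : ∀ n : ℕ, 1 ≤ n → c * (1 / ((n : ℝ) ^ 3 * ℓ n)) ≤ u n * R ^ (2 * n) ∧
      u n * R ^ (2 * n) ≤ C * (1 / ((n : ℝ) ^ 3 * ℓ n))) :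
    Summable (fun n : ℕ => u n * R ^ (2 * n + 1)) ∧ Summable (fun n : ℕ => (2 * (n : ℝ) + 1) * u n * R ^ (2 * n)) ∧
    ContinuousOn (AA u) (Set.Icc 0 R) ∧ (∀ ξ ∈ Set.Ioc 0 R, 0 < AA u ξ) ∧
    (∀ ξ ∈ Set.Ico 0 R, AA u ξ < AA u R) := by
  have hC : 0 ≤ C := by
    have hl1 := hℓ.pos 1 le_rfl
    have hw : 0 < 1 / (((1 : ℕ) : ℝ) ^ 3 * ℓ 1) := by simp; exact hl1
    have := le_of_mul_le_mul_right ((h 1 le_rfl).1.trans (h 1 le_rfl).2) hw
    linarith
  have hS2 : Summable (fun n : ℕ => (2 * (n : ℝ) + 1) * u n * R ^ (2 * n)) := by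
    refine Summable.of_nonneg_of_le (fun n => ?_) (term_le hu hℓ hC (fun n hn => (h n hn).2)) ?_
    · have := hu n
      positivity
    · refine Summable.add ?_ ((Real.summable_one_div_nat_pow.mpr (by norm_num)).mul_left _)
      exact summable_of_ne_finset_zero (s := {0}) (fun n hn => by
        rw [if_neg (by simpa using hn)])
  have hS1 : Summable (fun n : ℕ => u n * R ^ (2 * n + 1)) := by
    refine Summable.of_nonneg_of_le (fun n => ?_) (fun n => ?_) (hS2.mul_left R)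
    · have := hu n
      positivity
    · have hun := hu n
      have hn : (0 : ℝ) ≤ n := Nat.cast_nonneg n
      calc u n * R ^ (2 * n + 1) = R * (1 * u n * R ^ (2 * n)) := by ring
        _ ≤ R * ((2 * (n : ℝ) + 1) * u n * R ^ (2 * n)) := by
            have : (1 : ℝ) ≤ 2 * n + 1 := by linarith
            gcongr
  have hterm : ∀ ξ ∈ Set.Icc 0 R, ∀ n : ℕ, u n * ξ ^ (2 * n + 1) ≤ u n * R ^ (2 * n + 1) := by
    intro ξ hξ n
    exact mul_le_mul_of_nonneg_left (pow_le_pow_left₀ hξ.1 hξ.2 _) (hu n).le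
  have hterm0 : ∀ ξ ∈ Set.Icc 0 R, ∀ n : ℕ, 0 ≤ u n * ξ ^ (2 * n + 1) := by
    intro ξ hξ n
    exact mul_nonneg (hu n).le (pow_nonneg hξ.1 _)
  have hSξ : ∀ ξ ∈ Set.Icc 0 R, Summable (fun n : ℕ => u n * ξ ^ (2 * n + 1)) := fun ξ hξ =>
    Summable.of_nonneg_of_le (hterm0 ξ hξ) (hterm ξ hξ) hS1
  refine ⟨hS1, hS2, ?_, ?_, ?_⟩
  · unfold AA
    refine continuousOn_tsum (u := fun n : ℕ => u n * R ^ (2 * n + 1)) (fun n => ?_) hS1 (fun n ξ hξ => ?_)
    · fun_prop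
    · rw [Real.norm_eq_abs, abs_of_nonneg (hterm0 ξ hξ n)]
      exact hterm ξ hξ n
  · intro ξ hξ
    have hξ' : ξ ∈ Set.Icc 0 R := ⟨hξ.1.le, hξ.2⟩
    refine (hSξ ξ hξ').tsum_pos (hterm0 ξ hξ') 0 ?_
    have := hu 0
    have := hξ.1
    positivity
  · intro ξ hξ
    have hξ' : ξ ∈ Set.Icc 0 R := ⟨hξ.1, hξ.2.le⟩
    unfold AA
    refine Summable.tsum_lt_tsum (i := 0) (hterm ξ hξ') ?_ (hSξ ξ hξ') hS1
    have := hu 0
    simp only [mul_zero, zero_add, pow_one]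
    exact mul_lt_mul_of_pos_left hξ.2 this

/-- the error term of the linear approximation as a series -/
theorem err_eq {u : ℕ → ℝ} {R : ℝ} (hR : 0 < R) (hu : ∀ n, 0 < u n)
    (h1 : Summable (fun n : ℕ => u n * R ^ (2 * n + 1)))
    (h2 : Summable (fun n : ℕ => (2 * (n : ℝ) + 1) * u n * R ^ (2 * n)))
    {δ : ℝ} (hδ : 0 < δ) (hδR : δ ≤ R) :
    HasSum (fun n : ℕ => R * (u n * R ^ (2 * n)) * ((2 * (n : ℝ) + 1) * (δ / R) - (1 - (1 - δ / R) ^ (2 * n + 1))))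
      (AD u R * δ - (AA u R - AA u (R - δ))) := by
  have h3 : Summable (fun n : ℕ => u n * (R - δ) ^ (2 * n + 1)) := by
    refine Summable.of_nonneg_of_le (fun n => ?_) (fun n => ?_) h1
    · exact mul_nonneg (hu n).le (pow_nonneg (by linarith) _)
    · exact mul_le_mul_of_nonneg_left (pow_le_pow_left₀ (by linarith) (by linarith) _) (hu n).le
  have H := ((h2.hasSum.mul_right δ).sub (h1.hasSum.sub h3.hasSum))
  have hfun : (fun n : ℕ => R * (u n * R ^ (2 * n)) *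
      ((2 * (n : ℝ) + 1) * (δ / R) - (1 - (1 - δ / R) ^ (2 * n + 1)))) =
      fun b : ℕ => (2 * (b : ℝ) + 1) * u b * R ^ (2 * b) * δ -
        (u b * R ^ (2 * b + 1) - u b * (R - δ) ^ (2 * b + 1)) := by
    funext n
    have hRδ : 1 - δ / R = (R - δ) / R := by field_simp
    rw [hRδ, div_pow]
    field_simp
    ring
  rw [hfun]
  exact H

theorem mm_ge {ℓ : ℕ → ℝ} (hℓ : SV ℓ) {N : ℕ} (hN : 1 ≤ N) : 1 / ℓ N ≤ mm ℓ N := by
  have h1 : 1 / ℓ N ≤ 1 / ((1 : ℕ) * ℓ 1 : ℝ) := by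
    rw [Nat.cast_one, one_mul]
    exact one_div_le_one_div_of_le (hℓ.pos 1 le_rfl) (hℓ.mono 1 N le_rfl hN)
  refine h1.trans ?_
  unfold mm
  refine Finset.single_le_sum (f := fun k : ℕ => 1 / ((k : ℝ) * ℓ k)) (fun k hk => ?_)
    (Finset.mem_Icc.mpr ⟨le_rfl, hN⟩)
  have hk1 : 1 ≤ k := (Finset.mem_Icc.mp hk).1
  have := hℓ.pos k hk1
  positivity

end E2

open E2

/-- the expansion of the generating function to the second order -/
theorem exp2 {u : ℕ → ℝ} {R c C : ℝ} {ℓ : ℕ → ℝ} (hR : 0 < R) (hu : ∀ n, 0 < u n) (hℓ : SV ℓ) (hc : 0 < c)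
    (h : ∀ n : ℕ, 1 ≤ n → c * (1 / ((n : ℝ) ^ 3 * ℓ n)) ≤ u n * R ^ (2 * n) ∧
      u n * R ^ (2 * n) ≤ C * (1 / ((n : ℝ) ^ 3 * ℓ n))) :
    Summable (fun n : ℕ => u n * R ^ (2 * n + 1)) ∧ Summable (fun n : ℕ => (2 * (n : ℝ) + 1) * u n * R ^ (2 * n)) ∧
    ContinuousOn (AA u) (Set.Icc 0 R) ∧ (∀ ξ ∈ Set.Ioc 0 R, 0 < AA u ξ) ∧
    (∀ ξ ∈ Set.Ico 0 R, AA u ξ < AA u R) ∧
    ∃ c' > (0 : ℝ), ∃ C' : ℝ, ∃ δ₀ ∈ Set.Ioo 0 (min 1 R), ∀ δ ∈ Set.Ioc 0 δ₀,
      c' * δ ^ 2 * mm ℓ ⌊1 / δ⌋₊ ≤ AD u R * δ - (AA u R - AA u (R - δ)) ∧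
      AD u R * δ - (AA u R - AA u (R - δ)) ≤ C' * δ ^ 2 * mm ℓ ⌊1 / δ⌋₊ := by
  obtain ⟨h1, h2, h3, h4, h5⟩ := exp2a hR hu hℓ hc h
  refine ⟨h1, h2, h3, h4, h5, ?_⟩
  have hw : ∀ n : ℕ, 1 ≤ n → 0 < 1 / ((n : ℝ) ^ 3 * ℓ n) := fun n hn => by
    have := hℓ.pos n hn
    have hn' : (0 : ℝ) < n := by exact_mod_cast hn
    positivity
  have hC : 0 < C := by
    have hc1 := (h 1 le_rfl).1.trans (h 1 le_rfl).2
    have := le_of_mul_le_mul_right hc1 (hw 1 le_rfl)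
    linarith
  have hmR : 0 < min 1 R := lt_min one_pos hR
  refine ⟨c / 2 * min 1 R / R, by positivity, 9 / 2 * C * (1 + 2 * R) / R, min 1 R / 2,
    ⟨by positivity, by linarith⟩, ?_⟩
  intro δ hδ
  obtain ⟨hδ0, hδ1⟩ := hδ
  have hδm1 : δ ≤ 1 / 2 := hδ1.trans (by have := min_le_left 1 R; linarith)
  have hδR : δ ≤ R / 2 := hδ1.trans (by have := min_le_right 1 R; linarith)
  have hs0 : 0 < δ / R := by positivity
  have hs1 : δ / R ≤ 1 := by rw [div_le_one hR]; linarith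
  have HS := err_eq hR hu h1 h2 hδ0 (by linarith : δ ≤ R)
  set N : ℕ := ⌊1 / δ⌋₊ with hN
  have hinv : (0 : ℝ) ≤ 1 / δ := by positivity
  have hN1 : 1 ≤ N := by
    rw [hN, Nat.one_le_floor_iff, le_div_iff₀ hδ0]
    linarith
  have hNle : (N : ℝ) ≤ 1 / δ := Nat.floor_le hinv
  have hNlt : 1 / δ < N + 1 := Nat.lt_floor_add_one _
  have hN1' : (1 : ℝ) ≤ N := by exact_mod_cast hN1
  have hNinv : 1 / (N : ℝ) ≤ 2 * δ := by
    rw [div_lt_iff₀ hδ0] at hNlt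
    rw [div_le_iff₀ (by linarith)]
    nlinarith
  set s : ℝ := δ / R with hs
  have hδs : δ = R * s := by rw [hs]; field_simp
  set f : ℕ → ℝ := fun n : ℕ => R * (u n * R ^ (2 * n)) * ((2 * (n : ℝ) + 1) * s - (1 - (1 - s) ^ (2 * n + 1))) with hf
  have hf0 : f 0 = 0 := by simp [hf]
  have hfl : ∀ n : ℕ, 1 ≤ n → R * (c * (1 / ((n : ℝ) ^ 3 * ℓ n))) * (1 / 2 * min (((n : ℝ) * s) ^ 2) ((n : ℝ) * s)) ≤ f n := by
    intro n hn
    have hn' : (0 : ℝ) < n := by exact_mod_cast hn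
    have hm : 0 ≤ min (((n : ℝ) * s) ^ 2) ((n : ℝ) * s) := le_min (by positivity) (by positivity)
    have hv : 0 ≤ u n * R ^ (2 * n) := by have := hu n; positivity
    refine mul_le_mul (mul_le_mul_of_nonneg_left (h n hn).1 hR.le) (el_two hs0.le hs1 hn).1 (by positivity)
      (by positivity)
  have hfu : ∀ n : ℕ, 1 ≤ n → f n ≤ R * (C * (1 / ((n : ℝ) ^ 3 * ℓ n))) * (9 / 2 * min (((n : ℝ) * s) ^ 2) ((n : ℝ) * s)) := by
    intro n hn
    have hn' : (0 : ℝ) < n := by exact_mod_cast hn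
    have hm : 0 ≤ min (((n : ℝ) * s) ^ 2) ((n : ℝ) * s) := le_min (by positivity) (by positivity)
    have hv : 0 ≤ u n * R ^ (2 * n) := by have := hu n; positivity
    have he := el_two hs0.le hs1 hn
    refine mul_le_mul (mul_le_mul_of_nonneg_left (h n hn).2 hR.le) he.2 ?_ ?_
    · refine le_trans ?_ he.1
      positivity
    · have := hw n hn
      positivity
  have hfnn : ∀ n, 0 ≤ f n := by
    intro n
    rcases Nat.eq_zero_or_pos n with hn | hn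
    · rw [hn, hf0]
    · refine le_trans ?_ (hfl n hn)
      have := hw n hn
      have hn' : (0 : ℝ) < n := by exact_mod_cast hn
      have hm : 0 ≤ min (((n : ℝ) * s) ^ 2) ((n : ℝ) * s) := le_min (by positivity) (by positivity)
      positivity
  have hHS : HasSum f (AD u R * δ - (AA u R - AA u (R - δ))) := HS
  rw [← hHS.tsum_eq]
  constructor
  · -- lower bound
    have hsum : ∑ n ∈ Finset.Icc 1 N, f n ≤ ∑' n, f n := hHS.summable.sum_le_tsum _ (fun n _ => hfnn n)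
    refine le_trans ?_ hsum
    unfold mm
    rw [Finset.mul_sum]
    refine Finset.sum_le_sum (fun n hn => ?_)
    obtain ⟨hn1, hn2⟩ := Finset.mem_Icc.mp hn
    refine le_trans ?_ (hfl n hn1)
    have hn' : (0 : ℝ) < n := by exact_mod_cast hn1
    have hlp := hℓ.pos n hn1
    have hns : (n : ℝ) * s * R ≤ 1 := by
      have h6 : (n : ℝ) ≤ 1 / δ := le_trans (by exact_mod_cast hn2) hNle
      rw [le_div_iff₀ hδ0] at h6
      calc (n : ℝ) * s * R = n * δ := by rw [hδs]; ring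
        _ ≤ 1 := h6
    have hnspos : 0 < (n : ℝ) * s := by positivity
    have hmin : ((n : ℝ) * s) ^ 2 * min 1 R ≤ min (((n : ℝ) * s) ^ 2) ((n : ℝ) * s) := by
      refine le_min ?_ ?_
      · have := min_le_left 1 R
        nlinarith [sq_nonneg ((n : ℝ) * s)]
      · have h7 : min 1 R ≤ R := min_le_right 1 R
        calc ((n : ℝ) * s) ^ 2 * min 1 R ≤ ((n : ℝ) * s) ^ 2 * R := by
              exact mul_le_mul_of_nonneg_left h7 (by positivity)
          _ = ((n : ℝ) * s) * ((n : ℝ) * s * R) := by ring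
          _ ≤ ((n : ℝ) * s) * 1 := mul_le_mul_of_nonneg_left hns hnspos.le
          _ = (n : ℝ) * s := mul_one _
    calc c / 2 * min 1 R / R * δ ^ 2 * (1 / ((n : ℝ) * ℓ n))
        = R * (c * (1 / ((n : ℝ) ^ 3 * ℓ n))) * (1 / 2 * (((n : ℝ) * s) ^ 2 * min 1 R)) := by
          rw [hδs]; field_simp
      _ ≤ R * (c * (1 / ((n : ℝ) ^ 3 * ℓ n))) * (1 / 2 * min (((n : ℝ) * s) ^ 2) ((n : ℝ) * s)) := by
          have := hw n hn1
          gcongr
  · -- upper bound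
    refine Real.tsum_le_of_sum_range_le hfnn (fun M => ?_)
    have hsplit : ∑ n ∈ Finset.range M, f n ≤ ∑ n ∈ Finset.Icc 1 N, f n + ∑ n ∈ Finset.Ioc N (max N M), f n := by
      have hsub : Finset.range M ⊆ insert 0 (Finset.Icc 1 N ∪ Finset.Ioc N (max N M)) := by
        intro n hn
        rw [Finset.mem_range] at hn
        simp only [Finset.mem_insert, Finset.mem_union, Finset.mem_Icc, Finset.mem_Ioc]
        rcases Nat.eq_zero_or_pos n with h0 | h0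
        · left; exact h0
        · right
          rcases le_or_gt n N with h8 | h8
          · left; exact ⟨h0, h8⟩
          · right; exact ⟨h8, le_trans hn.le (le_max_right _ _)⟩
      refine (Finset.sum_le_sum_of_subset_of_nonneg hsub (fun n _ _ => hfnn n)).trans ?_
      rw [Finset.sum_insert (by simp), hf0, zero_add, Finset.sum_union]
      rw [Finset.disjoint_left]
      intro n hn hn'
      rw [Finset.mem_Icc] at hn
      rw [Finset.mem_Ioc] at hn'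
      omega
    refine hsplit.trans ?_
    have hmm := mm_ge hℓ hN1
    have hmm0 : 0 < mm ℓ N := lt_of_lt_of_le (by have := hℓ.pos N hN1; positivity) hmm
    have hA : ∑ n ∈ Finset.Icc 1 N, f n ≤ 9 / 2 * C * R * s ^ 2 * mm ℓ N := by
      unfold mm
      rw [Finset.mul_sum]
      refine Finset.sum_le_sum (fun n hn => ?_)
      obtain ⟨hn1, hn2⟩ := Finset.mem_Icc.mp hn
      have hn' : (0 : ℝ) < n := by exact_mod_cast hn1
      have hlp := hℓ.pos n hn1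
      refine (hfu n hn1).trans ?_
      calc R * (C * (1 / ((n : ℝ) ^ 3 * ℓ n))) * (9 / 2 * min (((n : ℝ) * s) ^ 2) ((n : ℝ) * s))
          ≤ R * (C * (1 / ((n : ℝ) ^ 3 * ℓ n))) * (9 / 2 * ((n : ℝ) * s) ^ 2) := by
            have := min_le_left (((n : ℝ) * s) ^ 2) ((n : ℝ) * s)
            have := hw n hn1
            gcongr
        _ = 9 / 2 * C * R * s ^ 2 * (1 / ((n : ℝ) * ℓ n)) := by field_simp
    have hB : ∑ n ∈ Finset.Ioc N (max N M), f n ≤ 9 / 2 * C * R * s * (1 / ℓ N) * (1 / (N : ℝ)) := by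
      have hNpos := hℓ.pos N hN1
      calc ∑ n ∈ Finset.Ioc N (max N M), f n
          ≤ ∑ n ∈ Finset.Ioc N (max N M), 9 / 2 * C * R * s * (1 / ℓ N) * ((n : ℝ) ^ 2)⁻¹ := by
            refine Finset.sum_le_sum (fun n hn => ?_)
            obtain ⟨hn1, hn2⟩ := Finset.mem_Ioc.mp hn
            have hn1' : 1 ≤ n := by omega
            have hn' : (0 : ℝ) < n := by exact_mod_cast hn1'
            have hlp := hℓ.pos n hn1'
            have hle : ℓ N ≤ ℓ n := hℓ.mono N n hN1 hn1.le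
            refine (hfu n hn1').trans ?_
            calc R * (C * (1 / ((n : ℝ) ^ 3 * ℓ n))) * (9 / 2 * min (((n : ℝ) * s) ^ 2) ((n : ℝ) * s))
                ≤ R * (C * (1 / ((n : ℝ) ^ 3 * ℓ n))) * (9 / 2 * ((n : ℝ) * s)) := by
                  have := min_le_right (((n : ℝ) * s) ^ 2) ((n : ℝ) * s)
                  have := hw n hn1'
                  gcongr
              _ = 9 / 2 * C * R * s * (1 / ℓ n) * ((n : ℝ) ^ 2)⁻¹ := by field_simp
              _ ≤ 9 / 2 * C * R * s * (1 / ℓ N) * ((n : ℝ) ^ 2)⁻¹ := by gcongr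
        _ = 9 / 2 * C * R * s * (1 / ℓ N) * ∑ n ∈ Finset.Ioc N (max N M), ((n : ℝ) ^ 2)⁻¹ := by
            rw [Finset.mul_sum]
        _ ≤ 9 / 2 * C * R * s * (1 / ℓ N) * (1 / (N : ℝ)) := by
            have h9 := sum_Ioc_inv_sq_le_sub (α := ℝ) (k := N) (n := max N M) (by omega) (le_max_left _ _)
            have h10 : (0 : ℝ) ≤ ((max N M : ℕ) : ℝ)⁻¹ := by positivity
            have h11 : ∑ n ∈ Finset.Ioc N (max N M), ((n : ℝ) ^ 2)⁻¹ ≤ 1 / (N : ℝ) := by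
              rw [one_div]
              linarith
            gcongr
    have hB' : 9 / 2 * C * R * s * (1 / ℓ N) * (1 / (N : ℝ)) ≤ 9 / 2 * C * R * s * mm ℓ N * (2 * δ) := by
      have hNpos := hℓ.pos N hN1
      gcongr
    calc ∑ n ∈ Finset.Icc 1 N, f n + ∑ n ∈ Finset.Ioc N (max N M), f n
        ≤ 9 / 2 * C * R * s ^ 2 * mm ℓ N + 9 / 2 * C * R * s * mm ℓ N * (2 * δ) := by linarith
      _ = 9 / 2 * C * (1 + 2 * R) / R * δ ^ 2 * mm ℓ N := by
          rw [hδs]; field_simp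

end Pool.Agent.RDL
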