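import Mathlib
import Pool.Agent.RDL.Defs
import Pool.Agent.RDL.Exp2

set_option autoImplicit false

namespace Pool.Agent.RDL

open Finset Filter Topology

namespace EP

/-- the basic facts on the generating function -/
theorem basic {u : ℕ → ℝ} {R : ℝ} (hR : 0 < R) (hu : ∀ n, 0 < u n)
    (hS2 : Summable (fun n : ℕ => (2 * (n : ℝ) + 1) * u n * R ^ (2 * n))) :
    Summable (fun n : ℕ => u n * R ^ (2 * n + 1)) ∧
    ContinuousOn (AA u) (Set.Icc 0 R) ∧ (∀ ξ ∈ Set.Ioc 0 R, 0 < AA u ξ) ∧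
    (∀ ξ ∈ Set.Ico 0 R, AA u ξ < AA u R) := by
  have hS1 : Summable (fun n : ℕ => u n * R ^ (2 * n + 1)) := by
    refine Summable.of_nonneg_of_le (fun n => ?_) (fun n => ?_) (hS2.mul_left R)
    · have := hu n
      positivity
    · have hun := hu n
      have hn : (0 : ℝ) ≤ n := Nat.cast_nonneg n
      calc u n * R ^ (2 * n + 1) = R * (1 * u n * R ^ (2 * n)) := by ring
        _ ≤ R * ((2 * (n : ℝ) + 1) * u n * R ^ (2 * n)) := by
            have : (1 : ℝ) ≤ 2 * n + 1 := by linarith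
            gcongr
  have hterm : ∀ ξ ∈ Set.Icc 0 R, ∀ n : ℕ, u n * ξ ^ (2 * n + 1) ≤ u n * R ^ (2 * n + 1) := by
    intro ξ hξ n
    exact mul_le_mul_of_nonneg_left (pow_le_pow_left₀ hξ.1 hξ.2 _) (hu n).le
  have hterm0 : ∀ ξ ∈ Set.Icc 0 R, ∀ n : ℕ, 0 ≤ u n * ξ ^ (2 * n + 1) := by
    intro ξ hξ n
    exact mul_nonneg (hu n).le (pow_nonneg hξ.1 _)
  have hSξ : ∀ ξ ∈ Set.Icc 0 R, Summable (fun n : ℕ => u n * ξ ^ (2 * n + 1)) := fun ξ hξ =>
    Summable.of_nonneg_of_le (hterm0 ξ hξ) (hterm ξ hξ) hS1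
  refine ⟨hS1, ?_, ?_, ?_⟩
  · unfold AA
    refine continuousOn_tsum (u := fun n : ℕ => u n * R ^ (2 * n + 1)) (fun n => ?_) hS1 (fun n ξ hξ => ?_)
    · fun_prop
    · rw [Real.norm_eq_abs, abs_of_nonneg (hterm0 ξ hξ n)]
      exact hterm ξ hξ n
  · intro ξ hξ
    have hξ' : ξ ∈ Set.Icc 0 R := ⟨hξ.1.le, hξ.2⟩
    refine (hSξ ξ hξ').tsum_pos (hterm0 ξ hξ') 0 ?_
    have := hu 0
    have := hξ.1
    positivity
  · intro ξ hξ
    have hξ' : ξ ∈ Set.Icc 0 R := ⟨hξ.1, hξ.2.le⟩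
    unfold AA
    refine Summable.tsum_lt_tsum (i := 0) (hterm ξ hξ') ?_ (hSξ ξ hξ') hS1
    have := hu 0
    simp only [mul_zero, zero_add, pow_one]
    exact mul_lt_mul_of_pos_left hξ.2 this

/-- `(n-1)^β ≤ n^β - β n^(β-1)` -/
theorem step_beta {β : ℝ} (h0 : 0 < β) (h1 : β ≤ 1) (n : ℕ) :
    (n : ℝ) ^ β + β * ((n + 1 : ℕ) : ℝ) ^ (β - 1) ≤ ((n + 1 : ℕ) : ℝ) ^ β := by
  have hn : (0 : ℝ) < ((n + 1 : ℕ) : ℝ) := by positivity
  have h2 : (n : ℝ) = ((n + 1 : ℕ) : ℝ) * (1 + (-(1 / ((n + 1 : ℕ) : ℝ)))) := by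
    push_cast
    have : (n : ℝ) + 1 ≠ 0 := by positivity
    field_simp
    ring
  have h3 : 1 / ((n + 1 : ℕ) : ℝ) ≤ 1 := by
    rw [div_le_one hn]
    push_cast
    have : (0 : ℝ) ≤ n := Nat.cast_nonneg n
    linarith
  have h4 : (1 + (-(1 / ((n + 1 : ℕ) : ℝ)))) ^ β ≤ 1 + β * (-(1 / ((n + 1 : ℕ) : ℝ))) :=
    rpow_one_add_le_one_add_mul_self (by linarith) h0.le h1
  have h5 : (n : ℝ) ^ β ≤ ((n + 1 : ℕ) : ℝ) ^ β * (1 + β * (-(1 / ((n + 1 : ℕ) : ℝ)))) := by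
    conv_lhs => rw [h2]
    rw [Real.mul_rpow hn.le (by linarith)]
    exact mul_le_mul_of_nonneg_left h4 (by positivity)
  have h6 : ((n + 1 : ℕ) : ℝ) ^ (β - 1) = ((n + 1 : ℕ) : ℝ) ^ β * (1 / ((n + 1 : ℕ) : ℝ)) := by
    rw [Real.rpow_sub hn, Real.rpow_one]
    ring
  rw [h6]
  linarith

/-- `n^(-γ) + γ n^(-γ-1) ≤ (n-1)^(-γ)` -/
theorem step_gamma {γ : ℝ} (h0 : 0 < γ) (h1 : γ ≤ 1) {n : ℕ} (hn1 : 1 ≤ n) :
    ((n + 1 : ℕ) : ℝ) ^ (-γ) + γ * ((n + 1 : ℕ) : ℝ) ^ (-γ - 1) ≤ (n : ℝ) ^ (-γ) := by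
  have hn : (0 : ℝ) < ((n + 1 : ℕ) : ℝ) := by positivity
  have hn' : (0 : ℝ) < (n : ℝ) := by exact_mod_cast hn1
  have h5 := step_beta h0 h1 n
  have h6 : ((n + 1 : ℕ) : ℝ) ^ (γ - 1) = ((n + 1 : ℕ) : ℝ) ^ γ * (1 / ((n + 1 : ℕ) : ℝ)) := by
    rw [Real.rpow_sub hn, Real.rpow_one]
    ring
  have h7 : ((n + 1 : ℕ) : ℝ) ^ (-γ - 1) = ((n + 1 : ℕ) : ℝ) ^ (-γ) * (1 / ((n + 1 : ℕ) : ℝ)) := by
    rw [Real.rpow_sub hn, Real.rpow_one]
    ring
  rw [h6] at h5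
  rw [h7, Real.rpow_neg hn.le, Real.rpow_neg hn'.le]
  have hA : 0 < ((n + 1 : ℕ) : ℝ) ^ γ := Real.rpow_pos_of_pos hn _
  have hB : 0 < (n : ℝ) ^ γ := Real.rpow_pos_of_pos hn' _
  have ht0 : 0 < 1 / ((n + 1 : ℕ) : ℝ) := by positivity
  have ht1 : 1 / ((n + 1 : ℕ) : ℝ) ≤ 1 := by
    rw [div_le_one hn]
    push_cast
    have : (0 : ℝ) ≤ n := Nat.cast_nonneg n
    linarith
  generalize ((n + 1 : ℕ) : ℝ) ^ γ = A at *
  generalize (n : ℝ) ^ γ = B at *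
  generalize 1 / ((n + 1 : ℕ) : ℝ) = t at *
  rw [show A⁻¹ + γ * (A⁻¹ * t) = (1 + γ * t) / A by field_simp, ← one_div, div_le_div_iff₀ hA hB]
  have h8 : B ≤ A * (1 - γ * t) := by linarith
  have h9 : 0 ≤ 1 + γ * t := by positivity
  calc (1 + γ * t) * B ≤ (1 + γ * t) * (A * (1 - γ * t)) := mul_le_mul_of_nonneg_left h8 h9
    _ = A * (1 - (γ * t) ^ 2) := by ring
    _ ≤ 1 * A := by nlinarith [sq_nonneg (γ * t)]

theorem sum_beta {β : ℝ} (h0 : 0 < β) (h1 : β ≤ 1) (N : ℕ) :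
    ∑ n ∈ Finset.Icc 1 N, (n : ℝ) ^ (β - 1) ≤ 1 / β * (N : ℝ) ^ β := by
  induction N with
  | zero =>
    simp [Real.zero_rpow h0.ne']
  | succ N ih =>
    rw [Finset.sum_Icc_succ_top (by omega)]
    have h2 := step_beta h0 h1 N
    have h3 : ((N + 1 : ℕ) : ℝ) ^ (β - 1) ≤ 1 / β * (((N + 1 : ℕ) : ℝ) ^ β - (N : ℝ) ^ β) := by
      rw [div_mul_eq_mul_div, one_mul, le_div_iff₀ h0]
      linarith
    linarith

theorem sum_gamma {γ : ℝ} (h0 : 0 < γ) (h1 : γ ≤ 1) {N : ℕ} (hN : 1 ≤ N) (M : ℕ) (hM : N ≤ M) :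
    ∑ n ∈ Finset.Ioc N M, (n : ℝ) ^ (-γ - 1) ≤ 1 / γ * ((N : ℝ) ^ (-γ) - (M : ℝ) ^ (-γ)) := by
  induction M, hM using Nat.le_induction with
  | base => simp
  | succ M hM ih =>
    rw [Finset.sum_Ioc_succ_top (by omega)]
    have h2 := step_gamma h0 h1 (show 1 ≤ M by omega)
    have h3 : ((M + 1 : ℕ) : ℝ) ^ (-γ - 1) ≤ 1 / γ * ((M : ℝ) ^ (-γ) - ((M + 1 : ℕ) : ℝ) ^ (-γ)) := by
      rw [div_mul_eq_mul_div, one_mul, le_div_iff₀ h0]
      linarith
    linarith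

end EP

open EP E2

/-- the expansion of the generating function to the second order, power case -/
theorem exp2p {u : ℕ → ℝ} {R c C a : ℝ} (hR : 0 < R) (hu : ∀ n, 0 < u n) (ha : 2 < a) (ha3 : a < 3) (hc : 0 < c)
    (h : ∀ n : ℕ, 1 ≤ n → c * (n : ℝ) ^ (-a) ≤ u n * R ^ (2 * n) ∧ u n * R ^ (2 * n) ≤ C * (n : ℝ) ^ (-a)) :
    Summable (fun n : ℕ => u n * R ^ (2 * n + 1)) ∧ Summable (fun n : ℕ => (2 * (n : ℝ) + 1) * u n * R ^ (2 * n)) ∧
    ContinuousOn (AA u) (Set.Icc 0 R) ∧ (∀ ξ ∈ Set.Ioc 0 R, 0 < AA u ξ) ∧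
    (∀ ξ ∈ Set.Ico 0 R, AA u ξ < AA u R) ∧
    ∃ c' > (0 : ℝ), ∃ C' : ℝ, ∃ δ₀ ∈ Set.Ioo 0 (min 1 R), ∀ δ ∈ Set.Ioc 0 δ₀,
      c' * δ ^ (a - 1) ≤ AD u R * δ - (AA u R - AA u (R - δ)) ∧
      AD u R * δ - (AA u R - AA u (R - δ)) ≤ C' * δ ^ (a - 1) := by
  have hcC : c ≤ C := by
    have h1 := (h 1 le_rfl).1.trans (h 1 le_rfl).2
    simpa using h1
  have hC : 0 < C := by linarith
  have h2 : Summable (fun n : ℕ => (2 * (n : ℝ) + 1) * u n * R ^ (2 * n)) := by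
    refine Summable.of_nonneg_of_le (f := fun n : ℕ => (if n = 0 then u 0 else 0) + 3 * C * (n : ℝ) ^ (1 - a))
      (fun n => ?_) (fun n => ?_) ?_
    · have := hu n
      positivity
    · rcases Nat.eq_zero_or_pos n with hn | hn
      · subst hn
        have : (0 : ℝ) ^ (1 - a) = 0 := Real.zero_rpow (by linarith)
        simp [this]
      · rw [if_neg (by omega), zero_add]
        have hn' : (1 : ℝ) ≤ n := by exact_mod_cast hn
        have hp : (0 : ℝ) < n := by linarith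
        have e1 : (n : ℝ) ^ (1 - a) = n * (n : ℝ) ^ (-a) := by
          rw [sub_eq_add_neg, Real.rpow_add hp, Real.rpow_one]
        rw [e1]
        calc (2 * (n : ℝ) + 1) * u n * R ^ (2 * n) = (2 * (n : ℝ) + 1) * (u n * R ^ (2 * n)) := by ring
          _ ≤ (2 * (n : ℝ) + 1) * (C * (n : ℝ) ^ (-a)) :=
              mul_le_mul_of_nonneg_left (h n hn).2 (by positivity)
          _ ≤ (3 * (n : ℝ)) * (C * (n : ℝ) ^ (-a)) := by
              have h0 : 2 * (n : ℝ) + 1 ≤ 3 * n := by linarith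
              gcongr
          _ = 3 * C * (n * (n : ℝ) ^ (-a)) := by ring
    · refine Summable.add ?_ ((Real.summable_nat_rpow.mpr (by linarith)).mul_left _)
      exact summable_of_ne_finset_zero (s := {0}) (fun n hn => by
        rw [if_neg (by simpa using hn)])
  obtain ⟨h1, h3, h4, h5⟩ := basic hR hu h2
  refine ⟨h1, h2, h3, h4, h5, ?_⟩
  have hmR : 0 < min 1 R := lt_min one_pos hR
  set β : ℝ := 3 - a with hβ
  set γ : ℝ := a - 2 with hγ
  have hβ0 : 0 < β := by linarith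
  have hβ1 : β ≤ 1 := by linarith
  have hγ0 : 0 < γ := by linarith
  have hγ1 : γ ≤ 1 := by linarith
  refine ⟨c / 2 * min 1 R / R * (1 / 2) ^ β, by positivity, 9 / 2 * C * (1 / (R * β) + 2 ^ γ / γ), min 1 R / 2,
    ⟨by positivity, by linarith⟩, ?_⟩
  intro δ hδ
  obtain ⟨hδ0, hδ1⟩ := hδ
  have hδm1 : δ ≤ 1 / 2 := hδ1.trans (by have := min_le_left 1 R; linarith)
  have hδR : δ ≤ R / 2 := hδ1.trans (by have := min_le_right 1 R; linarith)
  have hs0 : 0 < δ / R := by positivity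
  have hs1 : δ / R ≤ 1 := by rw [div_le_one hR]; linarith
  have HS := err_eq hR hu h1 h2 hδ0 (by linarith : δ ≤ R)
  set N : ℕ := ⌊1 / δ⌋₊ with hN
  have hinv : (0 : ℝ) ≤ 1 / δ := by positivity
  have hN1 : 1 ≤ N := by
    rw [hN, Nat.one_le_floor_iff, le_div_iff₀ hδ0]
    linarith
  have hNle : (N : ℝ) ≤ 1 / δ := Nat.floor_le hinv
  have hNlt : 1 / δ < N + 1 := Nat.lt_floor_add_one _
  have hN1' : (1 : ℝ) ≤ N := by exact_mod_cast hN1
  have hNpos : (0 : ℝ) < N := by linarith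
  have hNinv : 1 / 2 * (1 / δ) ≤ N := by linarith
  set s : ℝ := δ / R with hs
  have hδs : δ = R * s := by rw [hs]; field_simp
  -- powers of N
  have hNb_lo : (1 / 2) ^ β * δ ^ (-β) ≤ (N : ℝ) ^ β := by
    have h6 : (1 / 2 * (1 / δ)) ^ β ≤ (N : ℝ) ^ β := Real.rpow_le_rpow (by positivity) hNinv hβ0.le
    rw [Real.mul_rpow (by norm_num) hinv, one_div δ, Real.inv_rpow hδ0.le, ← Real.rpow_neg hδ0.le] at h6
    exact h6
  have hNb_up : (N : ℝ) ^ β ≤ δ ^ (-β) := by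
    have h6 : (N : ℝ) ^ β ≤ (1 / δ) ^ β := Real.rpow_le_rpow hNpos.le hNle hβ0.le
    rwa [one_div, Real.inv_rpow hδ0.le, ← Real.rpow_neg hδ0.le] at h6
  have hNg_up : (N : ℝ) ^ (-γ) ≤ 2 ^ γ * δ ^ γ := by
    have h6 : (N : ℝ) ^ (-γ) ≤ (1 / 2 * (1 / δ)) ^ (-γ) :=
      Real.rpow_le_rpow_of_nonpos (by positivity) hNinv (by linarith)
    have h7 : (1 / 2 * (1 / δ)) ^ (-γ) = 2 ^ γ * δ ^ γ := by
      rw [show (1 / 2 * (1 / δ) : ℝ) = (2 * δ)⁻¹ by field_simp, Real.inv_rpow (by positivity),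
        Real.rpow_neg (by positivity), inv_inv, Real.mul_rpow (by norm_num) hδ0.le]
    rwa [h7] at h6
  set f : ℕ → ℝ := fun n : ℕ => R * (u n * R ^ (2 * n)) * ((2 * (n : ℝ) + 1) * s - (1 - (1 - s) ^ (2 * n + 1))) with hf
  have hf0 : f 0 = 0 := by simp [hf]
  have hfl : ∀ n : ℕ, 1 ≤ n → R * (c * (n : ℝ) ^ (-a)) * (1 / 2 * min (((n : ℝ) * s) ^ 2) ((n : ℝ) * s)) ≤ f n := by
    intro n hn
    have hn' : (0 : ℝ) < n := by exact_mod_cast hn
    have hm : 0 ≤ min (((n : ℝ) * s) ^ 2) ((n : ℝ) * s) := le_min (by positivity) (by positivity)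
    have hv : 0 ≤ u n * R ^ (2 * n) := by have := hu n; positivity
    refine mul_le_mul (mul_le_mul_of_nonneg_left (h n hn).1 hR.le) (el_two hs0.le hs1 hn).1 (by positivity)
      (by positivity)
  have hfu : ∀ n : ℕ, 1 ≤ n → f n ≤ R * (C * (n : ℝ) ^ (-a)) * (9 / 2 * min (((n : ℝ) * s) ^ 2) ((n : ℝ) * s)) := by
    intro n hn
    have hn' : (0 : ℝ) < n := by exact_mod_cast hn
    have hm : 0 ≤ min (((n : ℝ) * s) ^ 2) ((n : ℝ) * s) := le_min (by positivity) (by positivity)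
    have hv : 0 ≤ u n * R ^ (2 * n) := by have := hu n; positivity
    have he := el_two hs0.le hs1 hn
    refine mul_le_mul (mul_le_mul_of_nonneg_left (h n hn).2 hR.le) he.2 ?_ ?_
    · refine le_trans ?_ he.1
      positivity
    · positivity
  have hfnn : ∀ n, 0 ≤ f n := by
    intro n
    rcases Nat.eq_zero_or_pos n with hn | hn
    · rw [hn, hf0]
    · refine le_trans ?_ (hfl n hn)
      have hn' : (0 : ℝ) < n := by exact_mod_cast hn
      have hm : 0 ≤ min (((n : ℝ) * s) ^ 2) ((n : ℝ) * s) := le_min (by positivity) (by positivity)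
      positivity
  have hHS : HasSum f (AD u R * δ - (AA u R - AA u (R - δ))) := HS
  rw [← hHS.tsum_eq]
  have hpow : δ ^ (a - 1) = δ ^ 2 * δ ^ (-β) := by
    rw [← Real.rpow_natCast, ← Real.rpow_add hδ0]
    congr 1
    rw [hβ]
    push_cast
    ring
  have hpow' : δ ^ (a - 1) = δ * δ ^ γ := by
    conv_rhs => rw [← Real.rpow_one δ]
    rw [← Real.rpow_mul hδ0.le, one_mul, ← Real.rpow_add hδ0]
    congr 1
    rw [hγ]
    ring
  constructor
  · -- lower bound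
    have hsum : ∑ n ∈ Finset.Icc 1 N, f n ≤ ∑' n, f n := hHS.summable.sum_le_tsum _ (fun n _ => hfnn n)
    refine le_trans ?_ hsum
    have hterm : ∀ n ∈ Finset.Icc 1 N, c / 2 * min 1 R / R * δ ^ 2 * (N : ℝ) ^ (β - 1) ≤ f n := by
      intro n hn
      obtain ⟨hn1, hn2⟩ := Finset.mem_Icc.mp hn
      refine le_trans ?_ (hfl n hn1)
      have hn' : (0 : ℝ) < n := by exact_mod_cast hn1
      have hnN : (n : ℝ) ≤ N := by exact_mod_cast hn2
      have hns : (n : ℝ) * s * R ≤ 1 := by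
        have h6 : (n : ℝ) ≤ 1 / δ := le_trans hnN hNle
        rw [le_div_iff₀ hδ0] at h6
        calc (n : ℝ) * s * R = n * δ := by rw [hδs]; ring
          _ ≤ 1 := h6
      have hnspos : 0 < (n : ℝ) * s := by positivity
      have hmin : ((n : ℝ) * s) ^ 2 * min 1 R ≤ min (((n : ℝ) * s) ^ 2) ((n : ℝ) * s) := by
        refine le_min ?_ ?_
        · have := min_le_left 1 R
          nlinarith [sq_nonneg ((n : ℝ) * s)]
        · have h7 : min 1 R ≤ R := min_le_right 1 R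
          calc ((n : ℝ) * s) ^ 2 * min 1 R ≤ ((n : ℝ) * s) ^ 2 * R := by
                exact mul_le_mul_of_nonneg_left h7 (by positivity)
            _ = ((n : ℝ) * s) * ((n : ℝ) * s * R) := by ring
            _ ≤ ((n : ℝ) * s) * 1 := mul_le_mul_of_nonneg_left hns hnspos.le
            _ = (n : ℝ) * s := mul_one _
      have hpn : (n : ℝ) ^ (-a) * (n : ℝ) ^ 2 = (n : ℝ) ^ (β - 1) := by
        rw [← Real.rpow_natCast, ← Real.rpow_add hn']
        congr 1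
        rw [hβ]
        push_cast
        ring
      have hle : (N : ℝ) ^ (β - 1) ≤ (n : ℝ) ^ (β - 1) :=
        Real.rpow_le_rpow_of_nonpos hn' hnN (by linarith)
      calc c / 2 * min 1 R / R * δ ^ 2 * (N : ℝ) ^ (β - 1) ≤ c / 2 * min 1 R / R * δ ^ 2 * (n : ℝ) ^ (β - 1) := by
            gcongr
        _ = R * (c * (n : ℝ) ^ (-a)) * (1 / 2 * (((n : ℝ) * s) ^ 2 * min 1 R)) := by
            rw [hδs, ← hpn]; field_simp
        _ ≤ R * (c * (n : ℝ) ^ (-a)) * (1 / 2 * min (((n : ℝ) * s) ^ 2) ((n : ℝ) * s)) := by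
            gcongr
    have h8 := Finset.sum_le_sum hterm
    rw [Finset.sum_const, Nat.card_Icc, nsmul_eq_mul] at h8
    refine le_trans ?_ h8
    have h9 : ((N + 1 - 1 : ℕ) : ℝ) * (c / 2 * min 1 R / R * δ ^ 2 * (N : ℝ) ^ (β - 1)) =
        c / 2 * min 1 R / R * δ ^ 2 * (N : ℝ) ^ β := by
      have h10 : (N : ℝ) ^ β = N * (N : ℝ) ^ (β - 1) := by
        rw [Real.rpow_sub_one hNpos.ne']
        field_simp
      rw [h10, Nat.add_sub_cancel]
      ring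
    rw [h9, hpow]
    calc c / 2 * min 1 R / R * (1 / 2) ^ β * (δ ^ 2 * δ ^ (-β))
        = c / 2 * min 1 R / R * δ ^ 2 * ((1 / 2) ^ β * δ ^ (-β)) := by ring
      _ ≤ c / 2 * min 1 R / R * δ ^ 2 * (N : ℝ) ^ β := by gcongr
  · -- upper bound
    refine Real.tsum_le_of_sum_range_le hfnn (fun M => ?_)
    have hsplit : ∑ n ∈ Finset.range M, f n ≤ ∑ n ∈ Finset.Icc 1 N, f n + ∑ n ∈ Finset.Ioc N (max N M), f n := by
      have hsub : Finset.range M ⊆ insert 0 (Finset.Icc 1 N ∪ Finset.Ioc N (max N M)) := by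
        intro n hn
        rw [Finset.mem_range] at hn
        simp only [Finset.mem_insert, Finset.mem_union, Finset.mem_Icc, Finset.mem_Ioc]
        rcases Nat.eq_zero_or_pos n with h0 | h0
        · left; exact h0
        · right
          rcases le_or_gt n N with h8 | h8
          · left; exact ⟨h0, h8⟩
          · right; exact ⟨h8, le_trans hn.le (le_max_right _ _)⟩
      refine (Finset.sum_le_sum_of_subset_of_nonneg hsub (fun n _ _ => hfnn n)).trans ?_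
      rw [Finset.sum_insert (by simp), hf0, zero_add, Finset.sum_union]
      rw [Finset.disjoint_left]
      intro n hn hn'
      rw [Finset.mem_Icc] at hn
      rw [Finset.mem_Ioc] at hn'
      omega
    refine hsplit.trans ?_
    have hA : ∑ n ∈ Finset.Icc 1 N, f n ≤ 9 / 2 * C * R * s ^ 2 * (1 / β * (N : ℝ) ^ β) := by
      refine le_trans ?_ (mul_le_mul_of_nonneg_left (sum_beta hβ0 hβ1 N) (by positivity))
      rw [Finset.mul_sum]
      refine Finset.sum_le_sum (fun n hn => ?_)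
      obtain ⟨hn1, hn2⟩ := Finset.mem_Icc.mp hn
      have hn' : (0 : ℝ) < n := by exact_mod_cast hn1
      refine (hfu n hn1).trans ?_
      have hpn : (n : ℝ) ^ (-a) * (n : ℝ) ^ 2 = (n : ℝ) ^ (β - 1) := by
        rw [← Real.rpow_natCast, ← Real.rpow_add hn']
        congr 1
        rw [hβ]
        push_cast
        ring
      calc R * (C * (n : ℝ) ^ (-a)) * (9 / 2 * min (((n : ℝ) * s) ^ 2) ((n : ℝ) * s))
          ≤ R * (C * (n : ℝ) ^ (-a)) * (9 / 2 * ((n : ℝ) * s) ^ 2) := by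
            have := min_le_left (((n : ℝ) * s) ^ 2) ((n : ℝ) * s)
            gcongr
        _ = 9 / 2 * C * R * s ^ 2 * (n : ℝ) ^ (β - 1) := by rw [← hpn]; ring
    have hB : ∑ n ∈ Finset.Ioc N (max N M), f n ≤ 9 / 2 * C * R * s * (1 / γ * (N : ℝ) ^ (-γ)) := by
      have hsg := sum_gamma hγ0 hγ1 hN1 (max N M) (le_max_left _ _)
      have hMnn : 0 ≤ ((max N M : ℕ) : ℝ) ^ (-γ) := Real.rpow_nonneg (Nat.cast_nonneg _) _
      have hsg' : ∑ n ∈ Finset.Ioc N (max N M), (n : ℝ) ^ (-γ - 1) ≤ 1 / γ * (N : ℝ) ^ (-γ) := by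
        refine hsg.trans (mul_le_mul_of_nonneg_left (by linarith) (by positivity))
      refine le_trans ?_ (mul_le_mul_of_nonneg_left hsg' (by positivity))
      rw [Finset.mul_sum]
      refine Finset.sum_le_sum (fun n hn => ?_)
      obtain ⟨hn1, hn2⟩ := Finset.mem_Ioc.mp hn
      have hn1' : 1 ≤ n := by omega
      have hn' : (0 : ℝ) < n := by exact_mod_cast hn1'
      refine (hfu n hn1').trans ?_
      have hpn : (n : ℝ) ^ (-a) * (n : ℝ) = (n : ℝ) ^ (-γ - 1) := by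
        conv_lhs => rw [← Real.rpow_one (n : ℝ), ← Real.rpow_mul hn'.le, one_mul, ← Real.rpow_add hn']
        congr 1
        rw [hγ]
        ring
      calc R * (C * (n : ℝ) ^ (-a)) * (9 / 2 * min (((n : ℝ) * s) ^ 2) ((n : ℝ) * s))
          ≤ R * (C * (n : ℝ) ^ (-a)) * (9 / 2 * ((n : ℝ) * s)) := by
            have := min_le_right (((n : ℝ) * s) ^ 2) ((n : ℝ) * s)
            gcongr
        _ = 9 / 2 * C * R * s * (n : ℝ) ^ (-γ - 1) := by rw [← hpn]; ring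
    calc ∑ n ∈ Finset.Icc 1 N, f n + ∑ n ∈ Finset.Ioc N (max N M), f n
        ≤ 9 / 2 * C * R * s ^ 2 * (1 / β * (N : ℝ) ^ β) + 9 / 2 * C * R * s * (1 / γ * (N : ℝ) ^ (-γ)) := by linarith
      _ ≤ 9 / 2 * C * R * s ^ 2 * (1 / β * δ ^ (-β)) + 9 / 2 * C * R * s * (1 / γ * (2 ^ γ * δ ^ γ)) := by
          gcongr
      _ = 9 / 2 * C * (1 / (R * β)) * (δ ^ 2 * δ ^ (-β)) + 9 / 2 * C * (2 ^ γ / γ) * (δ * δ ^ γ) := by
          have hs2 : s = δ / R := hs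
          rw [hs2]
          field_simp
      _ = 9 / 2 * C * (1 / (R * β) + 2 ^ γ / γ) * δ ^ (a - 1) := by
          rw [← hpow, ← hpow']
          ring

end Pool.Agent.RDL
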