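import Pool.Agent.RDL.Defs

/-!
# The class of exponents
-/

set_option autoImplicit false

namespace Pool.Agent.RDL

/-- the least class of real numbers which contains `1 / 2`, is closed under addition, and contains with `a ∈ (2, 3)` also
`a / (a - 1)` -/
inductive Expo : ℝ → Prop
  | half : Expo (1 / 2)
  | add (a b : ℝ) : Expo a → Expo b → Expo (a + b)
  | crit (a : ℝ) : Expo a → 2 < a → a < 3 → Expo (a / (a - 1))

end Pool.Agent.RDL
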