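import Pool.Agent.RDL.ExpoDefs

/-!
# The exponents are dense
-/

set_option autoImplicit false

namespace Pool.Agent.RDL

/-- all exponents are at least `1 / 2` -/
theorem expo_pos {d : ℝ} (h : Expo d) : 1 / 2 ≤ d := by
  induction h with
  | half => exact le_rfl
  | add a b _ _ ha hb => linarith
  | crit a _ h2 _ _ =>
    rw [le_div_iff₀ (by linarith)]
    linarith

theorem expo_add_half {d : ℝ} (h : Expo d) (m : ℕ) : Expo (d + m / 2) := by
  induction m with
  | zero => simpa using h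
  | succ m ih =>
    have h1 := Expo.add _ _ ih Expo.half
    have h2 : d + (m : ℝ) / 2 + 1 / 2 = d + ((m + 1 : ℕ) : ℝ) / 2 := by
      push_cast
      ring
    rwa [h2] at h1

theorem expo_one : Expo 1 := by
  have h := Expo.add _ _ Expo.half Expo.half
  norm_num at h
  exact h

theorem expo_five_thirds : Expo (5 / 3) := by
  have h := expo_add_half Expo.half 4
  have h1 : (1 : ℝ) / 2 + ((4 : ℕ) : ℝ) / 2 = 5 / 2 := by norm_num
  rw [h1] at h
  have h2 := Expo.crit _ h (by norm_num) (by norm_num)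
  have h3 : (5 / 2 : ℝ) / (5 / 2 - 1) = 5 / 3 := by norm_num
  rwa [h3] at h2

theorem expo_f {d : ℝ} (h : Expo d) (h1 : 3 / 2 < d) (h2 : d < 2) :
    Expo (1 + 1 / (d - 1 / 2)) := by
  have h3 := Expo.crit _ (Expo.add _ _ h Expo.half) (by linarith) (by linarith)
  have h4 : (d + 1 / 2) / (d + 1 / 2 - 1) = 1 + 1 / (d - 1 / 2) := by
    have h5 : d - 1 / 2 ≠ 0 := by
      intro h
      linarith
    have h6 : d + 1 / 2 - 1 = d - 1 / 2 := by ring
    have h7 : d - 1 / 2 + 1 = d + 1 / 2 := by ring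
    rw [h6, one_add_div h5, h7]
  rwa [h4] at h3

theorem expo_g {d : ℝ} (h : Expo d) (h1 : 3 / 2 < d) (h2 : d < 2) : Expo (1 + 1 / d) := by
  have h3 := Expo.crit _ (Expo.add _ _ h expo_one) (by linarith) (by linarith)
  have h4 : (d + 1) / (d + 1 - 1) = 1 + 1 / d := by
    have h5 : d ≠ 0 := by
      intro h
      linarith
    have h6 : d + 1 - 1 = d := by ring
    rw [h6]
    field_simp
  rwa [h4] at h3

/-- one step: an interval without exponents gives a longer one -/
theorem expo_step {p q : ℝ} (hp : 3 / 2 ≤ p) (hq : q ≤ 2) (hpq : p < q)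
    (hm : ∀ d, Expo d → ¬ (p < d ∧ d < q)) :
    ∃ p' q' : ℝ, 3 / 2 ≤ p' ∧ q' ≤ 2 ∧ (q - p) + (q - p) ^ 2 ≤ q' - p' ∧
      ∀ d, Expo d → ¬ (p' < d ∧ d < q') := by
  have hp1 : 0 < p - 1 := by linarith
  have hq1 : 0 < q - 1 := by linarith
  have hlen : (q - p) + (q - p) ^ 2 ≤ 1 / (p - 1) - 1 / (q - 1) := by
    rw [div_sub_div _ _ hp1.ne' hq1.ne', le_div_iff₀ (mul_pos hp1 hq1)]
    have h1 : (p - 1) * (q - 1) ≤ 1 - (q - p) := by nlinarith
    have h2 : 0 < q - p := by linarith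
    have h3 : (q - p + (q - p) ^ 2) * ((p - 1) * (q - 1)) ≤
        (q - p + (q - p) ^ 2) * (1 - (q - p)) :=
      mul_le_mul_of_nonneg_left h1 (by positivity)
    have h4 : (q - p + (q - p) ^ 2) * (1 - (q - p)) = (q - p) * (1 - (q - p) ^ 2) := by ring
    nlinarith [mul_nonneg h2.le (sq_nonneg (q - p))]
  rcases le_or_gt q (5 / 3) with hq5 | hq5
  · refine ⟨1 / (q - 1), 1 / (p - 1), ?_, ?_, hlen, ?_⟩
    · rw [div_le_div_iff₀ (by norm_num) hq1]
      linarith
    · rw [div_le_iff₀ hp1]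
      linarith
    · intro d hd ⟨h1, h2⟩
      have hd0 : 3 / 2 < d := by
        refine lt_of_le_of_lt ?_ h1
        rw [div_le_div_iff₀ (by norm_num) hq1]
        linarith
      have hd2 : d < 2 := by
        refine lt_of_lt_of_le h2 ?_
        rw [div_le_iff₀ hp1]
        linarith
      have hd' : 0 < d := by linarith
      refine hm _ (expo_g hd hd0 hd2) ⟨?_, ?_⟩
      · rw [lt_div_iff₀ hp1] at h2
        have h3 : p - 1 < 1 / d := by
          rw [lt_div_iff₀ hd']
          linarith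
        linarith
      · rw [div_lt_iff₀ hq1] at h1
        have h3 : 1 / d < q - 1 := by
          rw [div_lt_iff₀ hd']
          linarith
        linarith
  · have hp5 : 5 / 3 ≤ p := by
      by_contra hcon
      push Not at hcon
      exact hm _ expo_five_thirds ⟨hcon, hq5⟩
    refine ⟨1 / 2 + 1 / (q - 1), 1 / 2 + 1 / (p - 1), ?_, ?_, by linarith, ?_⟩
    · have : 1 ≤ 1 / (q - 1) := by
        rw [le_div_iff₀ hq1]
        linarith
      linarith
    · have : 1 / (p - 1) ≤ 3 / 2 := by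
        rw [div_le_div_iff₀ hp1 (by norm_num)]
        linarith
      linarith
    · intro d hd ⟨h1, h2⟩
      have hd0 : 3 / 2 < d := by
        have : 1 ≤ 1 / (q - 1) := by
          rw [le_div_iff₀ hq1]
          linarith
        linarith
      have hd2 : d < 2 := by
        have : 1 / (p - 1) ≤ 3 / 2 := by
          rw [div_le_div_iff₀ hp1 (by norm_num)]
          linarith
        linarith
      have hd' : 0 < d - 1 / 2 := by linarith
      refine hm _ (expo_f hd hd0 hd2) ⟨?_, ?_⟩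
      · have h3 : d - 1 / 2 < 1 / (p - 1) := by linarith
        rw [lt_div_iff₀ hp1] at h3
        have h4 : p - 1 < 1 / (d - 1 / 2) := by
          rw [lt_div_iff₀ hd']
          linarith
        linarith
      · have h3 : 1 / (q - 1) < d - 1 / 2 := by linarith
        rw [div_lt_iff₀ hq1] at h3
        have h4 : 1 / (d - 1 / 2) < q - 1 := by
          rw [div_lt_iff₀ hd']
          linarith
        linarith

theorem expo_iter {p q : ℝ} (hp : 3 / 2 ≤ p) (hq : q ≤ 2) (hpq : p < q)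
    (hm : ∀ d, Expo d → ¬ (p < d ∧ d < q)) (n : ℕ) :
    ∃ p' q' : ℝ, 3 / 2 ≤ p' ∧ q' ≤ 2 ∧ (q - p) + n * (q - p) ^ 2 ≤ q' - p' ∧
      ∀ d, Expo d → ¬ (p' < d ∧ d < q') := by
  induction n with
  | zero => exact ⟨p, q, hp, hq, by simp, hm⟩
  | succ n ih =>
    obtain ⟨p', q', h1, h2, h3, h4⟩ := ih
    have hL : 0 < q - p := by linarith
    have h5 : q - p ≤ q' - p' := by
      have : 0 ≤ (n : ℝ) * (q - p) ^ 2 := by positivity
      linarith
    obtain ⟨p'', q'', g1, g2, g3, g4⟩ := expo_step h1 h2 (by linarith) h4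
    refine ⟨p'', q'', g1, g2, ?_, g4⟩
    have h6 : (q - p) ^ 2 ≤ (q' - p') ^ 2 := pow_le_pow_left₀ hL.le h5 2
    push_cast
    nlinarith

theorem expo_between {p q : ℝ} (hp : 3 / 2 ≤ p) (hq : q ≤ 2) (hpq : p < q) :
    ∃ d, Expo d ∧ p < d ∧ d < q := by
  by_contra hcon
  push Not at hcon
  have hm : ∀ d, Expo d → ¬ (p < d ∧ d < q) := fun d hd h => absurd h.2 (not_lt.2 (hcon d hd h.1))
  have hL : 0 < (q - p) ^ 2 := by
    have : 0 < q - p := by linarith
    positivity
  obtain ⟨n, hn⟩ := exists_nat_gt (1 / (q - p) ^ 2)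
  rw [div_lt_iff₀ hL] at hn
  obtain ⟨p', q', h1, h2, h3, _⟩ := expo_iter hp hq hpq hm n
  linarith

/-- **the exponents are dense** -/
theorem expo_dense {x : ℝ} (hx : 3 / 2 ≤ x) {ε : ℝ} (hε : 0 < ε) : ∃ d, Expo d ∧ |d - x| < ε := by
  set m : ℕ := ⌊2 * x - 3⌋₊ with hm
  have h1 : (m : ℝ) ≤ 2 * x - 3 := Nat.floor_le (by linarith)
  have h2 : 2 * x - 3 < m + 1 := Nat.lt_floor_add_one _
  set y : ℝ := x - m / 2 with hy
  have hy1 : 3 / 2 ≤ y := by linarith
  have hy2 : y < 2 := by linarith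
  obtain ⟨d, hd, hd1, hd2⟩ := expo_between (p := max (3 / 2) (y - ε)) (q := min 2 (y + ε))
    (le_max_left _ _) (min_le_left _ _)
    (max_lt (lt_min (by norm_num) (by linarith)) (lt_min (by linarith) (by linarith)))
  refine ⟨d + m / 2, expo_add_half hd m, ?_⟩
  have h3 := (max_lt_iff.1 hd1).2
  have h4 := (lt_min_iff.1 hd2).2
  rw [abs_lt]
  constructor <;> linarith

end Pool.Agent.RDL
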