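import Pool.Agent.RDL.TransferP
import Pool.Agent.RDL.Corr
import Pool.Agent.RDL.ExpoDefs

/-!
# The class of exponents: walks
-/

set_option autoImplicit false

namespace Pool.Agent.RDL

open Finset Filter Topology

/-- **all exponents of the class** -/
theorem Expo.walk {d : ℝ} (h : Expo d) : ∃ (G : Type) (_ : Group G), Cent G ∧ ∃ ν : G →₀ ℝ, SP ν ∧ Par ν ∧
    ∃ z : ℝ, Asy ν z (fun n => (n : ℝ) ^ (-d)) := by
  induction h with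
  | half =>
    refine ⟨Multiplicative ℤ, inferInstance, cent_int, zw, zw_sp, zw_par, 1, one_pos, 1 / 2, 1, by norm_num,
      fun n hn => ?_⟩
    obtain ⟨b1, b2⟩ := cb_bounds hn
    have hn0 : (0 : ℝ) < n := by exact_mod_cast hn
    obtain ⟨a, ha⟩ : ∃ a, a = (Nat.centralBinom n : ℝ) / 4 ^ n := ⟨_, rfl⟩
    have ha0 : 0 ≤ a := by rw [ha]; positivity
    have hsn : 0 < Real.sqrt n := Real.sqrt_pos.2 hn0
    have hsq : Real.sqrt n ^ 2 = n := Real.sq_sqrt hn0.le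
    rw [zw_rt, one_pow, mul_one, ← ha]
    rw [← ha] at b1 b2
    have e1 : (n : ℝ) ^ (-(1 / 2) : ℝ) = 1 / Real.sqrt n := by
      rw [Real.rpow_neg hn0.le, ← Real.sqrt_eq_rpow, one_div]
    show 1 / 2 * (n : ℝ) ^ (-(1 / 2) : ℝ) ≤ a ∧ a ≤ 1 * (n : ℝ) ^ (-(1 / 2) : ℝ)
    rw [e1]
    constructor
    · have : (1 / 2 * (1 / Real.sqrt n)) ^ 2 ≤ a ^ 2 := by
        refine le_trans (le_of_eq ?_) b1
        rw [mul_pow, div_pow, div_pow, hsq]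
        norm_num
        ring
      exact le_of_sq_le_sq this ha0
    · rw [one_mul]
      have : a ^ 2 ≤ (1 / Real.sqrt n) ^ 2 := by
        refine b2.trans ?_
        rw [div_pow, hsq, one_pow]
        exact one_div_le_one_div_of_le hn0 (by linarith)
      exact le_of_sq_le_sq this (by positivity)
  | add a b _ _ ih₁ ih₂ =>
    obtain ⟨G₁, i₁, hc₁, ν₁, a1, a2, z₁, hA₁⟩ := ih₁
    obtain ⟨G₂, i₂, hc₂, ν₂, b1, b2, z₂, hA₂⟩ := ih₂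
    obtain ⟨σ, s1, s2, s3⟩ := prod_walk a1 a2 b1
    refine ⟨G₁ × G₂, inferInstance, cent_prod hc₁ hc₂, σ, s1, s2, z₁ * z₂, ?_⟩
    obtain ⟨hz₁, c₁, C₁, hc₁', hb₁⟩ := hA₁
    obtain ⟨hz₂, c₂, C₂, hc₂', hb₂⟩ := hA₂
    refine ⟨by positivity, c₁ * c₂, C₁ * C₂, by positivity, fun n hn => ?_⟩
    have hn0 : (0 : ℝ) < n := by exact_mod_cast hn
    obtain ⟨x1, x2⟩ := hb₁ n hn
    obtain ⟨y1, y2⟩ := hb₂ n hn
    beta_reduce at x1 x2 y1 y2 ⊢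
    have e1 : rt σ (2 * n) * (z₁ * z₂) ^ (2 * n) = (rt ν₁ (2 * n) * z₁ ^ (2 * n)) * (rt ν₂ (2 * n) * z₂ ^ (2 * n)) := by
      rw [s3, mul_pow]
      ring
    have e2 : (n : ℝ) ^ (-(a + b)) = (n : ℝ) ^ (-a) * (n : ℝ) ^ (-b) := by
      rw [← Real.rpow_add hn0]
      congr 1
      ring
    have k1 : 0 < (n : ℝ) ^ (-a) := Real.rpow_pos_of_pos hn0 _
    have k2 : 0 < (n : ℝ) ^ (-b) := Real.rpow_pos_of_pos hn0 _
    have x0 : 0 ≤ rt ν₁ (2 * n) * z₁ ^ (2 * n) := le_trans (by positivity) x1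
    have y0 : 0 ≤ rt ν₂ (2 * n) * z₂ ^ (2 * n) := le_trans (by positivity) y1
    rw [e1, e2]
    constructor
    · calc c₁ * c₂ * ((n : ℝ) ^ (-a) * (n : ℝ) ^ (-b)) = (c₁ * (n : ℝ) ^ (-a)) * (c₂ * (n : ℝ) ^ (-b)) := by ring
        _ ≤ _ := mul_le_mul x1 y1 (by positivity) x0
    · calc (rt ν₁ (2 * n) * z₁ ^ (2 * n)) * (rt ν₂ (2 * n) * z₂ ^ (2 * n))
          ≤ (C₁ * (n : ℝ) ^ (-a)) * (C₂ * (n : ℝ) ^ (-b)) := mul_le_mul x2 y2 y0 (x0.trans x2)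
        _ = _ := by ring
  | crit a _ ha ha3 ih =>
    obtain ⟨H, iH, hc, ν, h1, h2, z, hA⟩ := ih
    obtain ⟨μ, z', m1, m2, m3⟩ := transferp h1 h2 ha ha3 hA
    exact ⟨Fr H, inferInstance, cent_fam hc, μ, m1, m2, z', m3⟩

end Pool.Agent.RDL
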