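import Pool.Agent.RDL.Norm

/-!
# The norm of the convolution from two-sided bounds for the return probabilities, with any power
-/

set_option autoImplicit false

namespace Pool.Agent.RDL

open Finset Filter Topology NormW

/-- Kesten: the norm from two-sided bounds, up to any fixed power of `n` -/
theorem norm_of_asyk {G : Type} [Group G] {ν : G →₀ ℝ} (hν : SP ν) {z : ℝ} {φ : ℕ → ℝ} (h : Asy ν z φ)
    (hφ : ∃ k : ℕ, ∃ c > (0 : ℝ), ∃ C : ℝ, ∀ n : ℕ, 1 ≤ n → c / (n : ℝ) ^ k ≤ φ n ∧ φ n ≤ C) : IsNrm ν (1 / z) := by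
  obtain ⟨hz, c, C, hc, hb⟩ := h
  obtain ⟨K, c', hc', C', hb'⟩ := hφ
  have hz2 : 0 < z ^ 2 := by positivity
  constructor
  · intro g T
    have e1 : ∑ x ∈ T, (cv ν g x) ^ 2 ≤ ip (op ν g) (op ν g) := by
      classical
      rw [ip_sum (op ν g) (op ν g) (s := (op ν g).support ∪ T) subset_union_left]
      calc ∑ x ∈ T, (cv ν g x) ^ 2 = ∑ x ∈ T, op ν g x * op ν g x := by
            refine Finset.sum_congr rfl fun x _ => ?_
            rw [op_apply, sq]
        _ ≤ _ := Finset.sum_le_sum_of_subset_of_nonneg subset_union_right fun x _ _ => mul_self_nonneg _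
    refine e1.trans ?_
    rw [← ip_self]
    by_contra hcon
    push Not at hcon
    obtain ⟨a, ha⟩ : ∃ a : ℕ → ℝ, a = fun k => ip ((op ν)^[k] g) ((op ν)^[k] g) := ⟨_, rfl⟩
    have a0 : a 0 = ip g g := by rw [ha]; rfl
    have a1 : a 1 = ip (op ν g) (op ν g) := by rw [ha]; rfl
    have hnn : ∀ k, 0 ≤ a k := fun k => by
      rw [ha]
      exact ip_self_nonneg _
    have hcx : ∀ k, a (k + 1) ^ 2 ≤ a k * a (k + 2) := fun k => by
      rw [ha]
      exact pow_convex hν g k
    have hle : ∀ k, a k ≤ (∑ y ∈ g.support, |g y|) ^ 2 * rt ν (2 * k) := fun k => by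
      rw [ha]
      exact pow_le hν g k
    rw [← a0, ← a1] at hcon
    have ha1 : 0 < a 1 := lt_of_le_of_lt (mul_nonneg (by positivity) (hnn 0)) hcon
    have ha0 : 0 < a 0 := by
      rcases eq_or_lt_of_le (hnn 0) with h0 | h0
      · exfalso
        have := hcx 0
        rw [← h0, zero_mul] at this
        nlinarith
      · exact h0
    obtain ⟨q, hq⟩ : ∃ q, q = a 1 / a 0 * z ^ 2 := ⟨_, rfl⟩
    have hq1 : 1 < q := by
      rw [hq, div_mul_eq_mul_div, lt_div_iff₀ ha0, one_mul]
      have : (1 / z) ^ 2 * a 0 * z ^ 2 < a 1 * z ^ 2 := mul_lt_mul_of_pos_right hcon hz2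
      have e : (1 / z) ^ 2 * a 0 * z ^ 2 = a 0 := by
        field_simp
      rwa [e] at this
    have hbd : ∀ k : ℕ, 1 ≤ k → q ^ k * a 0 ≤ (∑ y ∈ g.support, |g y|) ^ 2 * (|C| * C') := by
      intro k hk
      have h1 := convex_pow hnn hcx k ha0 ha1
      have h2 := (hb k hk).2
      have h3 := hb' k hk
      have hφ0 : 0 ≤ φ k := le_trans (by positivity) h3.1
      calc q ^ k * a 0 = ((a 1 / a 0) ^ k * a 0) * z ^ (2 * k) := by
            rw [hq, mul_pow, pow_mul]
            ring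
        _ ≤ a k * z ^ (2 * k) := mul_le_mul_of_nonneg_right h1 (by positivity)
        _ ≤ ((∑ y ∈ g.support, |g y|) ^ 2 * rt ν (2 * k)) * z ^ (2 * k) :=
            mul_le_mul_of_nonneg_right (hle k) (by positivity)
        _ = (∑ y ∈ g.support, |g y|) ^ 2 * (rt ν (2 * k) * z ^ (2 * k)) := by ring
        _ ≤ (∑ y ∈ g.support, |g y|) ^ 2 * (|C| * C') := by
            refine mul_le_mul_of_nonneg_left (h2.trans ?_) (by positivity)
            calc C * φ k ≤ |C| * φ k := mul_le_mul_of_nonneg_right (le_abs_self C) hφ0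
              _ ≤ |C| * C' := mul_le_mul_of_nonneg_left h3.2 (abs_nonneg _)
    have htend := tendsto_pow_atTop_atTop_of_one_lt hq1
    obtain ⟨k, hk1, hk⟩ := ((htend.eventually_gt_atTop
      (((∑ y ∈ g.support, |g y|) ^ 2 * (|C| * C')) / a 0)).and (eventually_ge_atTop 1)).exists
    rw [div_lt_iff₀ ha0] at hk1
    exact absurd (hbd k hk) (not_le.2 hk1)
  · intro r hr0 hr
    by_contra hcon
    push Not at hcon
    have hstep : ∀ n : ℕ, rt ν (2 * (n + 1)) ≤ r ^ 2 * rt ν (2 * n) := by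
      intro n
      have h1 := hcon ((op ν)^[n] (Finsupp.single 1 1)) (op ν ((op ν)^[n] (Finsupp.single 1 1))).support
      rw [← ip_self, ip_pow_single hν] at h1
      refine le_trans (le_of_eq ?_) h1
      rw [← ip_pow_single hν 1 (n + 1), Function.iterate_succ_apply',
        ip_sum _ _ (subset_refl _)]
      refine Finset.sum_congr rfl fun x _ => ?_
      rw [op_apply, sq]
    have hgeo : ∀ n : ℕ, rt ν (2 * n) ≤ (r ^ 2) ^ n := by
      intro n
      induction n with
      | zero =>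
        have h := ip_pow_single hν (1 : G) 0
        have e : ip ((op ν)^[0] (Finsupp.single (1 : G) 1)) ((op ν)^[0] (Finsupp.single (1 : G) 1)) = 1 := by
          show ip (Finsupp.single (1 : G) 1) (Finsupp.single (1 : G) 1) = 1
          rw [ip_single, Finsupp.single_eq_same]
        rw [e] at h
        rw [← h, pow_zero]
      | succ n ih =>
        calc rt ν (2 * (n + 1)) ≤ r ^ 2 * rt ν (2 * n) := hstep n
          _ ≤ r ^ 2 * (r ^ 2) ^ n := mul_le_mul_of_nonneg_left ih (by positivity)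
          _ = (r ^ 2) ^ (n + 1) := by ring
    have hrz : r * z < 1 := by
      rwa [lt_div_iff₀ hz] at hr
    obtain ⟨s, hs⟩ : ∃ s, s = (r * z) ^ 2 := ⟨_, rfl⟩
    have hs0 : 0 ≤ s := by rw [hs]; positivity
    have hs1 : s < 1 := by
      rw [hs]
      have := mul_nonneg hr0 hz.le
      nlinarith
    have hlim : Tendsto (fun n : ℕ => (n : ℝ) ^ K * s ^ n) atTop (𝓝 0) :=
      tendsto_pow_const_mul_const_pow_of_abs_lt_one K (by rwa [abs_of_nonneg hs0])
    obtain ⟨n, hn1, hn⟩ := ((hlim.eventually (gt_mem_nhds (mul_pos hc hc'))).and (eventually_ge_atTop 1)).exists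
    have h1 := (hb n hn).1
    have h2 := (hb' n hn).1
    have hn0 : (0 : ℝ) < (n : ℝ) ^ K := by
      have : (0 : ℝ) < n := by exact_mod_cast hn
      positivity
    have h3 : c * (c' / (n : ℝ) ^ K) ≤ s ^ n := by
      calc c * (c' / (n : ℝ) ^ K) ≤ c * φ n := mul_le_mul_of_nonneg_left h2 hc.le
        _ ≤ rt ν (2 * n) * z ^ (2 * n) := h1
        _ ≤ (r ^ 2) ^ n * z ^ (2 * n) := mul_le_mul_of_nonneg_right (hgeo n) (by positivity)
        _ = s ^ n := by
            rw [hs, mul_pow, mul_pow, pow_mul]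
    have h4 : c * c' ≤ (n : ℝ) ^ K * s ^ n := by
      calc c * c' = (n : ℝ) ^ K * (c * (c' / (n : ℝ) ^ K)) := by
            field_simp
        _ ≤ _ := mul_le_mul_of_nonneg_left h3 hn0.le
    linarith

end Pool.Agent.RDL
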