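import Pool.Agent.RDL.TransferX
import Pool.Agent.RDL.Corr
import Pool.Agent.RDL.ExpoDefs
import Pool.Agent.RDL.ExpoDense
import Pool.Agent.RDL.NormK

/-!
# The class of exponents: walks with exact asymptotics
-/

set_option autoImplicit false

namespace Pool.Agent.RDL

open Finset Filter Topology

/-- **all exponents of the class**, exact asymptotics -/
theorem Expo.walkx {d : ℝ} (h : Expo d) : ∃ (G : Type) (_ : Group G), Cent G ∧ ∃ ν : G →₀ ℝ, SP ν ∧ Par ν ∧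
    ∃ z κ : ℝ, Asx ν z κ d := by
  induction h with
  | half =>
    obtain ⟨κ, hκ, hl⟩ := cb_lim
    refine ⟨Multiplicative ℤ, inferInstance, cent_int, zw, zw_sp, zw_par, 1, κ, one_pos, hκ, ?_⟩
    refine hl.congr fun n => ?_
    rw [zw_rt, one_pow, mul_one]
  | add a b _ _ ih₁ ih₂ =>
    obtain ⟨G₁, i₁, hc₁, ν₁, a1, a2, z₁, κ₁, hz₁, hκ₁, hl₁⟩ := ih₁
    obtain ⟨G₂, i₂, hc₂, ν₂, b1, b2, z₂, κ₂, hz₂, hκ₂, hl₂⟩ := ih₂
    obtain ⟨σ, s1, s2, s3⟩ := prod_walk a1 a2 b1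
    refine ⟨G₁ × G₂, inferInstance, cent_prod hc₁ hc₂, σ, s1, s2, z₁ * z₂, κ₁ * κ₂, mul_pos hz₁ hz₂,
      mul_pos hκ₁ hκ₂, ?_⟩
    refine (hl₁.mul hl₂).congr' ?_
    filter_upwards [eventually_ge_atTop 1] with n hn
    have hn0 : (0 : ℝ) < n := by exact_mod_cast hn
    rw [s3, mul_pow, Real.rpow_add hn0]
    ring
  | crit a _ ha ha3 ih =>
    obtain ⟨H, iH, hc, ν, h1, h2, z, κ, hA⟩ := ih
    obtain ⟨μ, z', κ', m1, m2, m3⟩ := transfer_x h1 h2 ha ha3 hA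
    exact ⟨Fr H, inferInstance, cent_fam hc, μ, m1, m2, z', κ', m3⟩

end Pool.Agent.RDL
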