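import Pool.Agent.RDL.Ret

/-!
# First passage functions
-/

set_option autoImplicit false

namespace Pool.Agent.RDL

open Finset

section
variable {G : Type} [Group G]

open Classical in
/-- the first passages after exactly `n` steps -/
noncomputable def fp (ν : G →₀ ℝ) : ℕ → G → ℝ
  | 0 => dl
  | n + 1 => fun x => if x = 1 then 0 else cv ν (fp ν n) x

theorem dl_one : (dl : G → ℝ) 1 = 1 := by
  unfold dl
  simp

theorem dl_ne {x : G} (hx : x ≠ 1) : (dl : G → ℝ) x = 0 := by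
  unfold dl
  simp [hx]

theorem pw_zero' (ν : G →₀ ℝ) : pw ν 0 = dl := rfl

theorem pw_succ' (ν : G →₀ ℝ) (n : ℕ) : pw ν (n + 1) = cv ν (pw ν n) := by
  unfold pw
  rw [Function.iterate_succ_apply']

theorem cv_eq (ν : G →₀ ℝ) (h : G → ℝ) (x : G) : cv ν h x = ∑ y ∈ ν.support, ν y * h (y⁻¹ * x) := rfl

theorem cv_nonneg {ν : G →₀ ℝ} (hν : SP ν) {h : G → ℝ} (hh : ∀ x, 0 ≤ h x) (x : G) : 0 ≤ cv ν h x :=
  Finset.sum_nonneg fun y _ => mul_nonneg (hν.nonneg y) (hh _)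

theorem cv_mono {ν : G →₀ ℝ} (hν : SP ν) {h h' : G → ℝ} (hh : ∀ x, h x ≤ h' x) (x : G) :
    cv ν h x ≤ cv ν h' x :=
  Finset.sum_le_sum fun y _ => mul_le_mul_of_nonneg_left (hh _) (hν.nonneg y)

/-- the convolution commutes with sums of series -/
theorem cv_tsum (ν : G →₀ ℝ) (h : ℕ → G → ℝ) (hs : ∀ x, Summable fun n => h n x) (x : G) :
    Summable (fun n => cv ν (h n) x) ∧ cv ν (fun y => ∑' n, h n y) x = ∑' n, cv ν (h n) x := by
  have h1 : HasSum (fun n => cv ν (h n) x) (cv ν (fun y => ∑' n, h n y) x) := by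
    unfold cv Finsupp.sum
    refine hasSum_sum fun y _ => ?_
    exact (hs (y⁻¹ * x)).hasSum.mul_left (ν y)
  exact ⟨h1.summable, h1.tsum_eq.symm⟩

theorem cv_smul (ν : G →₀ ℝ) (h : G → ℝ) (c : ℝ) (x : G) : cv ν (fun y => h y * c) x = cv ν h x * c := by
  rw [cv_eq, cv_eq, Finset.sum_mul]
  exact Finset.sum_congr rfl fun y _ => by ring

theorem fp_zero (ν : G →₀ ℝ) : fp ν 0 = dl := rfl

theorem fp_succ_one (ν : G →₀ ℝ) (n : ℕ) : fp ν (n + 1) 1 = 0 := by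
  simp [fp]

theorem fp_succ_ne (ν : G →₀ ℝ) (n : ℕ) {x : G} (hx : x ≠ 1) : fp ν (n + 1) x = cv ν (fp ν n) x := by
  simp only [fp]
  rw [if_neg hx]

theorem dl_nonneg (x : G) : 0 ≤ (dl : G → ℝ) x := by
  by_cases hx : x = 1
  · rw [hx, dl_one]; norm_num
  · rw [dl_ne hx]

theorem fp_nonneg {ν : G →₀ ℝ} (hν : SP ν) (n : ℕ) (x : G) : 0 ≤ fp ν n x := by
  induction n generalizing x with
  | zero => rw [fp_zero]; exact dl_nonneg x
  | succ n ih =>
    by_cases hx : x = 1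
    · rw [hx, fp_succ_one]
    · rw [fp_succ_ne ν n hx]
      exact cv_nonneg hν ih x

theorem fp_le {ν : G →₀ ℝ} (hν : SP ν) (n : ℕ) (x : G) : fp ν n x ≤ pw ν n x := by
  induction n generalizing x with
  | zero => rw [fp_zero, pw_zero']
  | succ n ih =>
    by_cases hx : x = 1
    · rw [hx, fp_succ_one]
      exact pw_nonneg hν _ _
    · rw [fp_succ_ne ν n hx, pw_succ']
      exact cv_mono hν ih x

/-- the renewal equation -/
theorem renewal (ν : G →₀ ℝ) (n : ℕ) (x : G) :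
    pw ν n x = ∑ p ∈ Finset.HasAntidiagonal.antidiagonal n, fp ν p.1 x * rt ν p.2 := by
  rw [Finset.Nat.sum_antidiagonal_eq_sum_range_succ (fun i j => fp ν i x * rt ν j)]
  induction n generalizing x with
  | zero =>
    rw [Finset.sum_range_one, fp_zero, pw_zero', rt_zero, mul_one]
  | succ n ih =>
    rw [Finset.sum_range_succ']
    by_cases hx : x = 1
    · subst hx
      rw [Finset.sum_eq_zero (fun i _ => by rw [fp_succ_one, zero_mul]), fp_zero, dl_one]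
      simp [rt]
    · rw [fp_zero, dl_ne hx, zero_mul, add_zero, pw_succ', cv_eq]
      have h1 : ∀ y ∈ ν.support, ν y * pw ν n (y⁻¹ * x) =
          ∑ i ∈ Finset.range (n + 1), ν y * fp ν i (y⁻¹ * x) * rt ν (n - i) := by
        intro y _
        rw [ih (y⁻¹ * x), Finset.mul_sum]
        exact Finset.sum_congr rfl fun i _ => by ring
      rw [Finset.sum_congr rfl h1, Finset.sum_comm]
      refine Finset.sum_congr rfl fun i _ => ?_
      rw [fp_succ_ne ν i hx, cv_eq, Finset.sum_mul]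
      have h2 : n + 1 - (i + 1) = n - i := by omega
      rw [h2]

/-- one term of the decomposition at an intermediate time -/
theorem pw_mul_le {ν : G →₀ ℝ} (hν : SP ν) (n k : ℕ) (x : G) : pw ν n x * pw ν k x ≤ rt ν (n + k) := by
  have h1 : rt ν (n + k) = ∑ᶠ y, pw ν n y * pw ν k (y⁻¹ * 1) := pw_add ν n k 1
  rw [h1]
  have h2 : pw ν n x * pw ν k x = (fun y : G => pw ν n y * pw ν k (y⁻¹ * 1)) x := by
    show _ = pw ν n x * pw ν k (x⁻¹ * 1)
    rw [mul_one, pw_inv hν]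
  rw [h2]
  refine single_le_finsum (f := fun y : G => pw ν n y * pw ν k (y⁻¹ * 1)) x ?_ ?_
  · refine (pw_fin ν n).subset ?_
    intro y hy
    rw [Function.mem_support] at hy ⊢
    exact left_ne_zero_of_mul hy
  · intro y
    exact mul_nonneg (pw_nonneg hν _ _) (pw_nonneg hν _ _)

/-- the Green function is finite wherever it is finite at `1` -/
theorem pw_summable {ν : G →₀ ℝ} (hν : SP ν) {ξ : ℝ} (hξ : 0 < ξ)
    (hs : Summable (fun n => rt ν n * ξ ^ n)) (x : G) : Summable (fun n => pw ν n x * ξ ^ n) := by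
  by_cases h : ∀ k, pw ν k x = 0
  · have h1 : (fun n => pw ν n x * ξ ^ n) = fun _ => 0 := by
      funext n
      rw [h n, zero_mul]
    rw [h1]
    exact summable_zero
  · push Not at h
    obtain ⟨k, hk⟩ := h
    have hk0 : 0 < pw ν k x := lt_of_le_of_ne (pw_nonneg hν k x) (Ne.symm hk)
    have h1 : Summable (fun n => rt ν (n + k) * ξ ^ (n + k)) := (summable_nat_add_iff k).2 hs
    have h2 := h1.mul_left (1 / (pw ν k x * ξ ^ k))
    refine Summable.of_nonneg_of_le (fun n => mul_nonneg (pw_nonneg hν _ _) (pow_nonneg hξ.le _)) ?_ h2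
    intro n
    have h3 := pw_mul_le hν n k x
    have h4 : 0 < ξ ^ k := pow_pos hξ k
    have h5 : 0 < ξ ^ n := pow_pos hξ n
    rw [div_mul_eq_mul_div, one_mul, le_div_iff₀ (mul_pos hk0 h4), pow_add]
    calc pw ν n x * ξ ^ n * (pw ν k x * ξ ^ k) = (pw ν n x * pw ν k x) * (ξ ^ n * ξ ^ k) := by ring
      _ ≤ rt ν (n + k) * (ξ ^ n * ξ ^ k) := mul_le_mul_of_nonneg_right h3 (by positivity)

/-- first passage functions -/
theorem first_passage {ν : G →₀ ℝ} (hν : SP ν) {R : ℝ} (_hR : 0 < R) (hs : Summable (fun n => rt ν n * R ^ n)) :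
    ∃ F : ℝ → G → ℝ, (∀ ξ ∈ Set.Ioc 0 R, ∀ x, 0 ≤ F ξ x) ∧ (∀ ξ ∈ Set.Ioc 0 R, F ξ 1 = 1) ∧
      (∀ ξ ∈ Set.Ioc 0 R, ∀ x ≠ 1, ξ * cv ν (F ξ) x = F ξ x) ∧
      (∀ ξ ∈ Set.Ioc 0 R, (1 - ξ * cv ν (F ξ) 1) * ∑' n, rt ν n * ξ ^ n = 1) ∧
      ∀ ξ ∈ Set.Ioc 0 R, ∀ ξ' ∈ Set.Ioc 0 R, ξ ≤ ξ' → ∀ x, F ξ x ≤ F ξ' x := by
  have hrs : ∀ ξ ∈ Set.Ioc 0 R, Summable (fun n => rt ν n * ξ ^ n) := by
    intro ξ hξ
    refine Summable.of_nonneg_of_le (fun n => mul_nonneg (pw_nonneg hν _ _) (pow_nonneg hξ.1.le _)) ?_ hs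
    intro n
    exact mul_le_mul_of_nonneg_left (pow_le_pow_left₀ hξ.1.le hξ.2 n) (pw_nonneg hν _ _)
  have hps : ∀ ξ ∈ Set.Ioc 0 R, ∀ x, Summable (fun n => pw ν n x * ξ ^ n) := fun ξ hξ x =>
    pw_summable hν hξ.1 (hrs ξ hξ) x
  have hfs : ∀ ξ ∈ Set.Ioc 0 R, ∀ x, Summable (fun n => fp ν n x * ξ ^ n) := by
    intro ξ hξ x
    refine Summable.of_nonneg_of_le (fun n => mul_nonneg (fp_nonneg hν _ _) (pow_nonneg hξ.1.le _)) ?_
      (hps ξ hξ x)
    intro n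
    exact mul_le_mul_of_nonneg_right (fp_le hν n x) (pow_nonneg hξ.1.le _)
  have hcv : ∀ ξ ∈ Set.Ioc 0 R, ∀ x, ξ * cv ν (fun y => ∑' n, fp ν n y * ξ ^ n) x =
      ∑' n, cv ν (fp ν n) x * ξ ^ (n + 1) := by
    intro ξ hξ x
    rw [(cv_tsum ν (fun n y => fp ν n y * ξ ^ n) (hfs ξ hξ) x).2, ← tsum_mul_left]
    congr 1
    funext n
    rw [cv_smul, pow_succ]
    ring
  refine ⟨fun ξ x => ∑' n, fp ν n x * ξ ^ n, ?_, ?_, ?_, ?_, ?_⟩
  · intro ξ hξ x
    exact tsum_nonneg fun n => mul_nonneg (fp_nonneg hν _ _) (pow_nonneg hξ.1.le _)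
  · intro ξ hξ
    show ∑' n, fp ν n 1 * ξ ^ n = 1
    rw [(hfs ξ hξ 1).tsum_eq_zero_add]
    have h1 : ∀ n : ℕ, fp ν (n + 1) 1 * ξ ^ (n + 1) = 0 := fun n => by rw [fp_succ_one, zero_mul]
    simp only [h1, tsum_zero, add_zero, fp_zero, dl_one, pow_zero, mul_one]
  · intro ξ hξ x hx
    show ξ * cv ν (fun y => ∑' n, fp ν n y * ξ ^ n) x = ∑' n, fp ν n x * ξ ^ n
    rw [hcv ξ hξ x, (hfs ξ hξ x).tsum_eq_zero_add, fp_zero, dl_ne hx, zero_mul, zero_add]
    congr 1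
    funext n
    rw [fp_succ_ne ν n hx]
  · intro ξ hξ
    show (1 - ξ * cv ν (fun y => ∑' n, fp ν n y * ξ ^ n) 1) * ∑' n, rt ν n * ξ ^ n = 1
    -- the Green function is the product
    have hgreen : ∀ x, ∑' n, pw ν n x * ξ ^ n = (∑' n, fp ν n x * ξ ^ n) * ∑' n, rt ν n * ξ ^ n := by
      intro x
      have hn1 : Summable fun n => ‖fp ν n x * ξ ^ n‖ := (hfs ξ hξ x).norm
      have hn2 : Summable fun n => ‖rt ν n * ξ ^ n‖ := (hrs ξ hξ).norm
      rw [tsum_mul_tsum_eq_tsum_sum_antidiagonal_of_summable_norm hn1 hn2]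
      congr 1
      funext n
      rw [renewal ν n x, Finset.sum_mul]
      refine Finset.sum_congr rfl fun p hp => ?_
      have h1 : p.1 + p.2 = n := Finset.HasAntidiagonal.mem_antidiagonal.1 hp
      rw [← h1, pow_add]
      ring
    have h2 : ∑' n, rt ν n * ξ ^ n = 1 + ξ * cv ν (fun y => ∑' n, pw ν n y * ξ ^ n) 1 := by
      rw [(hrs ξ hξ).tsum_eq_zero_add, rt_zero, pow_zero, mul_one,
        (cv_tsum ν (fun n y => pw ν n y * ξ ^ n) (hps ξ hξ) 1).2, ← tsum_mul_left]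
      congr 2
      funext n
      rw [cv_smul, pow_succ]
      have h3 : rt ν (n + 1) = cv ν (pw ν n) 1 := by
        unfold rt
        rw [pw_succ']
      rw [h3]
      ring
    have h4 : cv ν (fun y => ∑' n, pw ν n y * ξ ^ n) 1 =
        cv ν (fun y => ∑' n, fp ν n y * ξ ^ n) 1 * ∑' n, rt ν n * ξ ^ n := by
      rw [← cv_smul]
      congr 1
      funext y
      exact hgreen y
    rw [h4] at h2
    linear_combination h2
  · intro ξ hξ ξ' hξ' hle x
    show ∑' n, fp ν n x * ξ ^ n ≤ ∑' n, fp ν n x * ξ' ^ n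
    refine (hfs ξ hξ x).tsum_le_tsum ?_ (hfs ξ' hξ' x)
    intro n
    exact mul_le_mul_of_nonneg_left (pow_le_pow_left₀ hξ.1.le hle n) (fp_nonneg hν _ _)

end

end Pool.Agent.RDL
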