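import Pool.Agent.RDL.Defs

/-!
# Functions on free products which are products over the letters, and the step law
-/

set_option autoImplicit false

namespace Pool.Agent.RDL

open Finset Monoid Monoid.CoprodI

section

variable {ι : Type} [DecidableEq ι] {M : ι → Type} [∀ i, Group (M i)]

open Classical in
theorem wf_def (F : ∀ i, M i → ℝ) (x : Monoid.CoprodI M) :
    wf F x = ((Word.equiv x).toList.map (fun p => F p.1 p.2)).prod := rfl

theorem wf_one (F : ∀ i, M i → ℝ) : wf F 1 = 1 := by
  classical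
  rw [wf_def]
  have h : Word.equiv (1 : Monoid.CoprodI M) = Word.empty := by
    show (1 : Monoid.CoprodI M) • (Word.empty : Word M) = Word.empty
    rw [one_smul]
  rw [h]
  simp

theorem wf_nonneg {F : ∀ i, M i → ℝ}
    (h : ∀ i x, 0 ≤ F i x) (x : Monoid.CoprodI M) : 0 ≤ wf F x := by
  classical
  rw [wf_def]
  refine List.prod_nonneg ?_
  intro a ha
  rw [List.mem_map] at ha
  obtain ⟨p, _, rfl⟩ := ha
  exact h _ _

theorem wf_mono {F F' : ∀ i, M i → ℝ}
    (h : ∀ i x, 0 ≤ F i x) (h' : ∀ i x, F i x ≤ F' i x) (x : Monoid.CoprodI M) : wf F x ≤ wf F' x := by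
  classical
  rw [wf_def, wf_def]
  induction (Word.equiv x).toList with
  | nil => simp
  | cons p l ih =>
    rw [List.map_cons, List.map_cons, List.prod_cons, List.prod_cons]
    refine mul_le_mul (h' _ _) ih ?_ ((h _ _).trans (h' _ _))
    refine List.prod_nonneg ?_
    intro a ha
    rw [List.mem_map] at ha
    obtain ⟨q, _, rfl⟩ := ha
    exact h _ _

open Classical in
theorem wf_of_mul {F : ∀ i, M i → ℝ} (hF : ∀ i, F i 1 = 1) {i : ι} (z : M i) (w : Word M)
    (h : w.fstIdx ≠ some i) : wf F (of z * w.prod) = F i z * wf F w.prod := by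
  rw [wf_def, wf_def]
  have h1 : Word.equiv (of z * w.prod) = of z • w := by
    show (of z * w.prod) • (Word.empty : Word M) = of z • w
    rw [mul_smul]
    congr 1
    exact Word.equiv.right_inv w
  have h2 : Word.equiv w.prod = w := Word.equiv.right_inv w
  rw [h1, h2]
  by_cases hz : z = 1
  · subst hz
    rw [map_one, one_smul, hF, one_mul]
  · have h3 : Word.cons z w h hz = of z • w := Word.cons_eq_smul
    rw [← h3]
    simp [Word.cons]

end

theorem cv_fm {ι : Type} [Fintype ι] {M : ι → Type} [∀ i, Group (M i)] (α : ι → ℝ) (ν : ∀ i, M i →₀ ℝ)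
    (h : Monoid.CoprodI M → ℝ) (x : Monoid.CoprodI M) :
    cv (fm α ν) h x = ∑ i, α i * (ν i).sum (fun y a => a * h (of y⁻¹ * x)) := by
  classical
  unfold cv fm
  rw [← Finsupp.sum_finsetSum_index]
  · refine Finset.sum_congr rfl fun i _ => ?_
    rw [Finsupp.sum_smul_index (by intro; ring), Finsupp.sum_mapDomain_index]
    · rw [Finsupp.sum, Finsupp.sum, Finset.mul_sum]
      refine Finset.sum_congr rfl fun y _ => ?_
      rw [map_inv]
      ring
    · intro; ring
    · intro; intros; ring
  · intro; ring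
  · intro; intros; ring

theorem wf_cv {ι : Type} [Fintype ι] [DecidableEq ι] {M : ι → Type} [∀ i, Group (M i)] {F : ∀ i, M i → ℝ}
    (hF : ∀ i, F i 1 = 1) (α a b : ι → ℝ) (ν : ∀ i, M i →₀ ℝ) (ha : ∀ i, ∀ x ≠ 1, cv (ν i) (F i) x = a i * F i x)
    (hb : ∀ i, cv (ν i) (F i) 1 = b i) :
    cv (fm α ν) (wf F) 1 = ∑ i, α i * b i ∧
      ∀ x ≠ 1, ∃ i, cv (fm α ν) (wf F) x = (α i * a i + ∑ j ∈ Finset.univ.erase i, α j * b j) * wf F x := by
  classical
  -- the action of the letters of a factor in front of a word that does not start in this factor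
  have key : ∀ (j : ι) (m : M j) (w : Word M), w.fstIdx ≠ some j →
      (ν j).sum (fun y c => c * wf F (of y⁻¹ * (of m * w.prod))) = cv (ν j) (F j) m * wf F w.prod := by
    intro j m w hw
    unfold cv
    rw [Finsupp.sum, Finsupp.sum, Finset.sum_mul]
    refine Finset.sum_congr rfl fun y _ => ?_
    rw [← mul_assoc (of y⁻¹), ← map_mul, wf_of_mul hF _ w hw]
    ring
  have key1 : ∀ (j : ι) (w : Word M), w.fstIdx ≠ some j →
      (ν j).sum (fun y c => c * wf F (of y⁻¹ * w.prod)) = b j * wf F w.prod := by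
    intro j w hw
    have h1 := key j 1 w hw
    rw [map_one, one_mul, hb j] at h1
    exact h1
  refine ⟨?_, ?_⟩
  · rw [cv_fm]
    refine Finset.sum_congr rfl fun i _ => ?_
    have h1 := key1 i Word.empty (by simp [Word.fstIdx])
    rw [Word.prod_empty] at h1
    rw [h1, wf_one, mul_one]
  · intro x hx
    obtain ⟨w, rfl⟩ : ∃ w : Word M, w.prod = x := ⟨Word.equiv x, Word.equiv.left_inv x⟩
    induction w using Word.consRecOn with
    | empty => exact absurd Word.prod_empty hx
    | cons i m w h1 h2 _ =>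
      refine ⟨i, ?_⟩
      rw [cv_fm, ← Finset.add_sum_erase _ _ (Finset.mem_univ i)]
      have h3 : (Word.cons m w h1 h2).prod = of m * w.prod := Word.prod_cons i m w h2 h1
      have h4 : (ν i).sum (fun y c => c * wf F (of y⁻¹ * (Word.cons m w h1 h2).prod)) =
          a i * wf F (Word.cons m w h1 h2).prod := by
        rw [h3, key i m w h1, ha i m h2, wf_of_mul hF m w h1]
        ring
      rw [h4, add_mul, Finset.sum_mul]
      congr 1
      · ring
      · refine Finset.sum_congr rfl fun j hj => ?_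
        have hji : j ≠ i := (Finset.mem_erase.1 hj).1
        rw [key1 j (Word.cons m w h1 h2) (by
          rw [Word.fstIdx_cons]
          intro hh
          exact hji (Option.some.inj hh).symm)]
        ring

theorem fm_apply {ι : Type} [Fintype ι] {M : ι → Type} [∀ i, Group (M i)] (α : ι → ℝ) (ν : ∀ i, M i →₀ ℝ)
    (x : Monoid.CoprodI M) :
    fm α ν x = ∑ i, α i * (ν i).mapDomain (of : M i →* Monoid.CoprodI M) x := by
  unfold fm
  rw [Finsupp.finsetSum_apply]
  simp

theorem fm_sp {ι : Type} [Fintype ι] {M : ι → Type} [∀ i, Group (M i)] {α : ι → ℝ} {ν : ∀ i, M i →₀ ℝ}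
    (hα : ∀ i, 0 ≤ α i) (h1 : ∑ i, α i = 1) (hν : ∀ i, SP (ν i)) : SP (fm α ν) := by
  classical
  refine ⟨?_, ?_, ?_⟩
  · intro x
    rw [fm_apply]
    refine Finset.sum_nonneg fun i _ => mul_nonneg (hα i) ?_
    by_cases hx : x ∈ Set.range (of : M i →* Monoid.CoprodI M)
    · obtain ⟨y, rfl⟩ := hx
      rw [Finsupp.mapDomain_apply (of_injective i)]
      exact (hν i).nonneg y
    · rw [Finsupp.mapDomain_of_notMem_range _ _ hx]
  · unfold fm
    rw [← Finsupp.sum_finsetSum_index (by intro; rfl) (by intro; intros; rfl), ← h1]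
    refine Finset.sum_congr rfl fun i _ => ?_
    rw [Finsupp.sum_smul_index (by intro; rfl), Finsupp.sum_mapDomain_index (by intro; ring)
      (by intro; intros; ring), Finsupp.sum, ← Finset.mul_sum]
    have h2 := (hν i).one
    rw [Finsupp.sum] at h2
    rw [h2, mul_one]
  · intro x
    rw [fm_apply, fm_apply]
    refine Finset.sum_congr rfl fun i _ => ?_
    congr 1
    by_cases hx : x ∈ Set.range (of : M i →* Monoid.CoprodI M)
    · obtain ⟨y, rfl⟩ := hx
      rw [← map_inv, Finsupp.mapDomain_apply (of_injective i), Finsupp.mapDomain_apply (of_injective i)]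
      exact (hν i).symm y
    · rw [Finsupp.mapDomain_of_notMem_range _ _ hx, Finsupp.mapDomain_of_notMem_range]
      rintro ⟨y, hy⟩
      exact hx ⟨y⁻¹, by rw [map_inv, hy, inv_inv]⟩

theorem fm_par {ι : Type} [Fintype ι] {M : ι → Type} [∀ i, Group (M i)] {α : ι → ℝ} {ν : ∀ i, M i →₀ ℝ}
    (hν : ∀ i, Par (ν i)) : Par (fm α ν) := by
  classical
  choose χ hχ using hν
  refine ⟨lift χ, ?_⟩
  intro s hs
  rw [Finsupp.mem_support_iff, fm_apply] at hs
  obtain ⟨i, _, hi⟩ := Finset.exists_ne_zero_of_sum_ne_zero hs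
  have h2 : (ν i).mapDomain (of : M i →* Monoid.CoprodI M) s ≠ 0 := right_ne_zero_of_mul hi
  by_cases hx : s ∈ Set.range (of : M i →* Monoid.CoprodI M)
  · obtain ⟨y, rfl⟩ := hx
    rw [Finsupp.mapDomain_apply (of_injective i)] at h2
    rw [lift_of]
    exact hχ i y (Finsupp.mem_support_iff.2 h2)
  · exact absurd (Finsupp.mapDomain_of_notMem_range _ _ hx) h2

end Pool.Agent.RDL
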