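import Pool.Agent.RDL.Defs

/-!
# The product of two random walks
-/

set_option autoImplicit false

namespace Pool.Agent.RDL

open Finset

variable {G H : Type} [Group G] [Group H]

open Classical in
/-- the product law -/
noncomputable def pmu (ν : G →₀ ℝ) (ν' : H →₀ ℝ) : (G × H) →₀ ℝ :=
  Finsupp.onFinset (ν.support ×ˢ ν'.support) (fun p => ν p.1 * ν' p.2) (by
    intro p hp
    rw [Finset.mem_product, Finsupp.mem_support_iff, Finsupp.mem_support_iff]
    exact ⟨left_ne_zero_of_mul hp, right_ne_zero_of_mul hp⟩)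

omit [Group G] [Group H] in
lemma pmu_apply (ν : G →₀ ℝ) (ν' : H →₀ ℝ) (p : G × H) : pmu ν ν' p = ν p.1 * ν' p.2 := rfl

omit [Group G] [Group H] in
lemma pmu_sum (ν : G →₀ ℝ) (ν' : H →₀ ℝ) (f : G × H → ℝ → ℝ) (hf : ∀ p, f p 0 = 0) :
    (pmu ν ν').sum f = ∑ x ∈ ν.support, ∑ y ∈ ν'.support, f (x, y) (ν x * ν' y) := by
  rw [← Finset.sum_product', Finsupp.sum_of_support_subset (pmu ν ν')
    (s := ν.support ×ˢ ν'.support) Finsupp.support_onFinset_subset f (fun p _ => hf p)]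
  rfl

lemma cv_pmu (ν : G →₀ ℝ) (ν' : H →₀ ℝ) (f : G → ℝ) (g : H → ℝ) (p : G × H) :
    cv (pmu ν ν') (fun q => f q.1 * g q.2) p = cv ν f p.1 * cv ν' g p.2 := by
  unfold cv
  rw [pmu_sum ν ν' (fun y a => a * (fun q : G × H => f q.1 * g q.2) (y⁻¹ * p)) (fun q => zero_mul _),
    Finsupp.sum, Finsupp.sum, Finset.sum_mul_sum]
  refine Finset.sum_congr rfl fun x _ => Finset.sum_congr rfl fun y _ => ?_
  simp only [Prod.fst_mul, Prod.snd_mul, Prod.fst_inv, Prod.snd_inv]
  ring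

lemma dl_prod (p : G × H) : dl p = dl p.1 * dl p.2 := by
  unfold dl
  by_cases h1 : p.1 = 1
  · by_cases h2 : p.2 = 1
    · rw [Set.indicator_of_mem (show p ∈ ({1} : Set (G × H)) from Prod.ext h1 h2),
        Set.indicator_of_mem (show p.1 ∈ ({1} : Set G) from h1),
        Set.indicator_of_mem (show p.2 ∈ ({1} : Set H) from h2), mul_one]
    · rw [Set.indicator_of_notMem (show p ∉ ({1} : Set (G × H)) from
        fun h => h2 (congrArg Prod.snd h)),
        Set.indicator_of_notMem (show p.2 ∉ ({1} : Set H) from h2), mul_zero]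
  · rw [Set.indicator_of_notMem (show p ∉ ({1} : Set (G × H)) from
      fun h => h1 (congrArg Prod.fst h)),
      Set.indicator_of_notMem (show p.1 ∉ ({1} : Set G) from h1), zero_mul]

lemma pw_pmu (ν : G →₀ ℝ) (ν' : H →₀ ℝ) (n : ℕ) :
    pw (pmu ν ν') n = fun p => pw ν n p.1 * pw ν' n p.2 := by
  induction n with
  | zero =>
    funext p
    exact dl_prod p
  | succ n ih =>
    funext p
    unfold pw at ih ⊢
    rw [Function.iterate_succ_apply', Function.iterate_succ_apply', Function.iterate_succ_apply',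
      ih]
    exact cv_pmu ν ν' _ _ p

theorem prod_walk {G H : Type} [Group G] [Group H] {ν : G →₀ ℝ} {ν' : H →₀ ℝ} (hν : SP ν) (hp : Par ν) (hν' : SP ν') :
    ∃ μ : (G × H) →₀ ℝ, SP μ ∧ Par μ ∧ ∀ n, rt μ n = rt ν n * rt ν' n := by
  refine ⟨pmu ν ν', ⟨?_, ?_, ?_⟩, ?_, ?_⟩
  · intro p
    exact mul_nonneg (hν.nonneg _) (hν'.nonneg _)
  · rw [pmu_sum ν ν' _ (fun _ => rfl), ← Finset.sum_mul_sum]
    have h1 := hν.one
    have h2 := hν'.one
    unfold Finsupp.sum at h1 h2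
    rw [h1, h2, mul_one]
  · intro p
    rw [pmu_apply, pmu_apply, Prod.fst_inv, Prod.snd_inv, hν.symm, hν'.symm]
  · obtain ⟨χ, hχ⟩ := hp
    refine ⟨χ.comp (MonoidHom.fst G H), fun p hps => ?_⟩
    have h1 : pmu ν ν' p ≠ 0 := Finsupp.mem_support_iff.mp hps
    exact hχ p.1 (Finsupp.mem_support_iff.mpr (left_ne_zero_of_mul h1))
  · intro n
    unfold rt
    rw [pw_pmu]
    rfl

end Pool.Agent.RDL
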