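import Pool.Agent.RDL.Ret
import Pool.Agent.RDL.First
import Pool.Agent.RDL.Compare
import Pool.Agent.RDL.FreeWalk
import Pool.Agent.RDL.ZWalk
import Pool.Agent.RDL.ProdWalk

/-!
# The Green function of the critical free product with the integers
-/

set_option autoImplicit false

namespace Pool.Agent.RDL

open Finset Filter Topology

/-- the two step laws -/
noncomputable def nuF {H : Type} [Group H] (ν : H →₀ ℝ) : ∀ b, Fam H b →₀ ℝ
  | true => ν
  | false => zw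

/-- the two first passage functions -/
noncomputable def FF {H : Type} (F : H → ℝ) (lam : ℝ) : ∀ b, Fam H b → ℝ
  | true => F
  | false => zf lam

/-- the weights -/
noncomputable def ww (α : ℝ) : Bool → ℝ
  | true => α
  | false => 1 - α

/-- the step law on the free product -/
noncomputable def muF {H : Type} [Group H] (α : ℝ) (ν : H →₀ ℝ) : Fr H →₀ ℝ := fm (ww α) (nuF ν)

theorem muF_sp {H : Type} [Group H] {α : ℝ} {ν : H →₀ ℝ} (h0 : 0 < α) (h1 : α < 1) (hν : SP ν) : SP (muF α ν) := by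
  refine fm_sp ?_ ?_ ?_
  · intro b
    cases b
    · show 0 ≤ 1 - α
      linarith
    · exact h0.le
  · rw [Fintype.sum_bool]
    show α + (1 - α) = 1
    ring
  · intro b
    cases b
    · exact zw_sp
    · exact hν

theorem muF_par {H : Type} [Group H] {α : ℝ} {ν : H →₀ ℝ} (hν : Par ν) : Par (muF α ν) := by
  refine fm_par ?_
  intro b
  cases b
  · exact zw_par
  · exact hν

/-- the parameter of the first passage function of the integers -/
noncomputable def lm (α t : ℝ) : ℝ := (Real.sqrt ((1 - α) ^ 2 + t ^ 2) - t) / (1 - α)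

theorem lm_pos {α t : ℝ} (h1 : α < 1) : 0 < lm α t := by
  unfold lm
  have h2 : 0 < 1 - α := by linarith
  refine div_pos ?_ h2
  rw [sub_pos]
  refine lt_of_le_of_lt (le_abs_self t) ?_
  rw [← Real.sqrt_sq_eq_abs]
  exact Real.sqrt_lt_sqrt (sq_nonneg t) (by nlinarith)

theorem lm_mul {α t : ℝ} (h1 : α < 1) : (1 - α) * lm α t = Real.sqrt ((1 - α) ^ 2 + t ^ 2) - t := by
  unfold lm
  have h2 : 1 - α ≠ 0 := by linarith
  field_simp

theorem lm_inv {α t : ℝ} (h1 : α < 1) : (1 - α) * (1 / lm α t) = Real.sqrt ((1 - α) ^ 2 + t ^ 2) + t := by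
  have h2 : 0 < 1 - α := by linarith
  have h3 := lm_pos (t := t) h1
  have h4 := lm_mul (t := t) h1
  have h5 : Real.sqrt ((1 - α) ^ 2 + t ^ 2) ^ 2 = (1 - α) ^ 2 + t ^ 2 := Real.sq_sqrt (by positivity)
  rw [mul_one_div, div_eq_iff h3.ne']
  have h6 : (1 - α) * ((Real.sqrt ((1 - α) ^ 2 + t ^ 2) + t) * lm α t) = (1 - α) * (1 - α) := by
    calc (1 - α) * ((Real.sqrt ((1 - α) ^ 2 + t ^ 2) + t) * lm α t)
        = (Real.sqrt ((1 - α) ^ 2 + t ^ 2) + t) * ((1 - α) * lm α t) := by ring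
      _ = (Real.sqrt ((1 - α) ^ 2 + t ^ 2) + t) * (Real.sqrt ((1 - α) ^ 2 + t ^ 2) - t) := by rw [h4]
      _ = Real.sqrt ((1 - α) ^ 2 + t ^ 2) ^ 2 - t ^ 2 := by ring
      _ = (1 - α) * (1 - α) := by rw [h5]; ring
  exact (mul_left_cancel₀ h2.ne' h6).symm

theorem lm_anti {α s t : ℝ} (h1 : α < 1) (hs : 0 ≤ s) (hst : s ≤ t) : lm α t ≤ lm α s := by
  have h2 : 0 < 1 - α := by linarith
  have h3 := lm_pos (t := t) h1
  have h4 := lm_pos (t := s) h1
  have h5 := lm_inv (t := t) h1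
  have h6 := lm_inv (t := s) h1
  have h7 : Real.sqrt ((1 - α) ^ 2 + s ^ 2) ≤ Real.sqrt ((1 - α) ^ 2 + t ^ 2) :=
    Real.sqrt_le_sqrt (by nlinarith)
  have h8 : (1 - α) * (1 / lm α s) ≤ (1 - α) * (1 / lm α t) := by
    rw [h5, h6]
    linarith
  have h9 := le_of_mul_le_mul_left h8 h2
  exact (one_div_le_one_div h4 h3).1 h9

/-- the equations of the first passage function of the free product -/
theorem wf_eqs {H : Type} [Group H] {ν : H →₀ ℝ} {u : ℕ → ℝ} {α ξ : ℝ} (h0 : 0 < α) (h1 : α < 1) (hξ : 0 < ξ)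
    (hA : 0 < AA u ξ) (hz : 0 < zz u α ξ) {F : H → ℝ} (hF1 : F 1 = 1) (hF : ∀ x ≠ 1, ξ * cv ν F x = F x)
    (hFe : (1 - ξ * cv ν F 1) * (AA u ξ / ξ) = 1) :
    let f := wf (FF F (lm α (α / AA u ξ)))
    f 1 = 1 ∧ (∀ x ≠ 1, zz u α ξ * cv (muF α ν) f x = f x) ∧
      zz u α ξ * cv (muF α ν) f 1 = 1 - zz u α ξ * (α / AA u ξ) := by
  intro f
  obtain ⟨t, ht⟩ : ∃ t, t = α / AA u ξ := ⟨_, rfl⟩
  obtain ⟨z, hzd⟩ : ∃ z, z = zz u α ξ := ⟨_, rfl⟩
  have ht0 : 0 < t := by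
    rw [ht]
    positivity
  have hlam := lm_pos (t := t) h1
  obtain ⟨lam, hlamd⟩ : ∃ lam, lam = lm α t := ⟨_, rfl⟩
  have hfd : f = wf (FF F lam) := by
    rw [hlamd, ht]
  rw [← hlamd] at hlam
  have hb : cv ν F 1 = 1 / ξ - 1 / AA u ξ := by
    have h2 : (1 - ξ * cv ν F 1) = ξ / AA u ξ := by
      rw [eq_div_iff hA.ne']
      have : (1 - ξ * cv ν F 1) * AA u ξ = ((1 - ξ * cv ν F 1) * (AA u ξ / ξ)) * ξ := by
        field_simp
      rw [this, hFe, one_mul]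
    have h3 : cv ν F 1 = (1 - ξ / AA u ξ) / ξ := by
      rw [eq_div_iff hξ.ne']
      linarith
    rw [h3]
    field_simp
  have hzz : 1 / z = α / ξ + Real.sqrt ((1 - α) ^ 2 + t ^ 2) - t := by
    rw [hzd, zz, one_div_one_div, ht]
  have hz0 : 0 < z := by rw [hzd]; exact hz
  have hm := lm_mul (t := t) h1
  have hi := lm_inv (t := t) h1
  rw [← hlamd] at hm hi
  -- the two factors
  obtain ⟨a, ha⟩ : ∃ a : Bool → ℝ, a = fun b => bif b then 1 / ξ else (lam + 1 / lam) / 2 := ⟨_, rfl⟩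
  obtain ⟨bb, hbb⟩ : ∃ bb : Bool → ℝ, bb = fun b => bif b then 1 / ξ - 1 / AA u ξ else lam := ⟨_, rfl⟩
  obtain ⟨e1, e2⟩ := wf_cv (M := Fam H) (F := FF F lam) (by
      intro b
      cases b
      · show zf lam 1 = 1
        simp [zf]
      · exact hF1) (ww α) a bb (nuF ν) (by
      intro b
      cases b
      · intro x hx
        have := (zf_cv hlam).2 x hx
        rw [ha]
        exact this
      · intro x hx
        rw [ha]
        show cv ν F x = 1 / ξ * F x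
        rw [← hF x hx]
        field_simp) (by
      intro b
      cases b
      · rw [hbb]
        exact (zf_cv hlam).1
      · rw [hbb]
        exact hb)
  have q1 : α * (1 / ξ) + (1 - α) * lam = 1 / z := by
    rw [hm, hzz]
    ring
  have q3 : α * (1 / ξ - 1 / AA u ξ) = α / ξ - t := by
    rw [ht]
    ring
  have q2 : (1 - α) * ((lam + 1 / lam) / 2) + α * (1 / ξ - 1 / AA u ξ) = 1 / z := by
    rw [q3, hzz]
    have : (1 - α) * ((lam + 1 / lam) / 2) = Real.sqrt ((1 - α) ^ 2 + t ^ 2) := by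
      calc (1 - α) * ((lam + 1 / lam) / 2) = ((1 - α) * lam + (1 - α) * (1 / lam)) / 2 := by ring
        _ = _ := by
          rw [hm, hi]
          ring
    rw [this]
    ring
  refine ⟨?_, ?_, ?_⟩
  · rw [hfd]
    exact wf_one _
  · intro x hx
    obtain ⟨i, hi'⟩ := e2 x hx
    have h5 : cv (muF α ν) f x = 1 / z * f x := by
      rw [hfd]
      show cv (fm (ww α) (nuF ν)) (wf (FF F lam)) x = _
      rw [hi']
      congr 1
      cases i
      · have : Finset.univ.erase false = {true} := rfl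
        rw [this, Finset.sum_singleton, ha, hbb]
        exact q2
      · have : Finset.univ.erase true = {false} := rfl
        rw [this, Finset.sum_singleton, ha, hbb]
        exact q1
    rw [h5, ← hzd]
    field_simp
  · have h5 : cv (muF α ν) f 1 = 1 / z - t := by
      rw [hfd]
      show cv (fm (ww α) (nuF ν)) (wf (FF F lam)) 1 = _
      rw [e1, Fintype.sum_bool, hbb]
      show α * (1 / ξ - 1 / AA u ξ) + (1 - α) * lam = _
      rw [q3, ← q1]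
      ring
    rw [h5, ← hzd, ← ht]
    field_simp

theorem FF_nonneg {H : Type} {F : H → ℝ} {lam : ℝ} (hF : ∀ x, 0 ≤ F x) (hl : 0 ≤ lam) : ∀ b x, 0 ≤ FF F lam b x := by
  intro b
  cases b
  · intro x
    show 0 ≤ zf lam x
    exact pow_nonneg hl _
  · exact hF

theorem FF_mono {H : Type} {F F' : H → ℝ} {lam lam' : ℝ} (hF : ∀ x, F x ≤ F' x) (hl : 0 ≤ lam) (hll : lam ≤ lam') :
    ∀ b x, FF F lam b x ≤ FF F' lam' b x := by
  intro b
  cases b
  · intro x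
    exact pow_le_pow_left₀ hl hll _
  · exact hF

/-- sums of a sequence which vanishes at the odd places -/
theorem hasSum_even {g : ℕ → ℝ} (h : ∀ n, g (2 * n + 1) = 0) (a : ℝ) :
    HasSum (fun n => g (2 * n)) a ↔ HasSum g a := by
  have hinj : Function.Injective (fun n : ℕ => 2 * n) := fun a b hab => by
    have : 2 * a = 2 * b := hab
    omega
  refine hinj.hasSum_iff ?_
  intro x hx
  rcases Nat.even_or_odd' x with ⟨k, hk | hk⟩
  · exact absurd ⟨k, hk.symm⟩ hx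
  · rw [hk]
    exact h k

theorem summable_even {g : ℕ → ℝ} (h : ∀ n, g (2 * n + 1) = 0) : Summable (fun n => g (2 * n)) ↔ Summable g := by
  constructor
  · rintro ⟨a, ha⟩
    exact ⟨a, (hasSum_even h a).1 ha⟩
  · rintro ⟨a, ha⟩
    exact ⟨a, (hasSum_even h a).2 ha⟩

/-- **the Green function of the critical free product with the integers** near the critical point -/
theorem glue {H : Type} [Group H] {ν : H →₀ ℝ} (hν : SP ν) (hp : Par ν) {u : ℕ → ℝ} (hu : u = fun n => rt ν (2 * n))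
    {R α δ₁ : ℝ} (hR : 0 < R) (hα : CritW u R α) (s1 : Summable (fun n : ℕ => u n * R ^ (2 * n + 1)))
    (hcont : ContinuousOn (AA u) (Set.Icc 0 R)) (hApos : ∀ ξ ∈ Set.Ioc 0 R, 0 < AA u ξ)
    (hAlt : ∀ ξ ∈ Set.Ico 0 R, AA u ξ < AA u R) (hzpos : ∀ ξ ∈ Set.Ioc 0 R, 0 < zz u α ξ)
    (hzcont : ContinuousOn (zz u α) (Set.Ioc 0 R)) (hδ₁ : δ₁ ∈ Set.Ioo 0 (min 1 R))
    (hcrit : ∀ ξ ∈ Set.Ico (R - δ₁) R, zz u α ξ < zz u α R) :
    ∃ (μ : Fr H →₀ ℝ) (b : ℕ → ℝ) (t₀ : ℝ), SP μ ∧ Par μ ∧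
      (∀ n, b n = zz u α R * (rt μ (2 * n) * zz u α R ^ (2 * n))) ∧ (∀ n, 0 < b n) ∧ Antitone b ∧ Summable b ∧
      t₀ ∈ Set.Ioo (0 : ℝ) 1 ∧ ∀ t ∈ Set.Ico t₀ 1, ∃ ξ ∈ Set.Ico (R - δ₁) R,
        ∑' n, b n * (1 - t ^ (2 * n + 1)) = AA u R / α - AA u ξ / α ∧ 1 - t = (zz u α R - zz u α ξ) / zz u α R := by
  have h0 := hα.1
  have h1 := hα.2.1
  -- the first passage functions of `H`
  have hodd : ∀ (r : ℝ) (n : ℕ), (fun n => rt ν n * r ^ n) (2 * n + 1) = 0 := by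
    intro r n
    show rt ν (2 * n + 1) * r ^ (2 * n + 1) = 0
    rw [rt_odd hp, zero_mul]
  have hsumR : Summable (fun n => rt ν n * R ^ n) := by
    rw [← summable_even (hodd R)]
    have e : (fun n => u n * R ^ (2 * n + 1)) = fun n => R * (rt ν (2 * n) * R ^ (2 * n)) := by
      funext n
      rw [hu]
      ring
    rw [e] at s1
    have := s1.mul_left R⁻¹
    refine this.congr fun n => ?_
    show R⁻¹ * (R * (rt ν (2 * n) * R ^ (2 * n))) = rt ν (2 * n) * R ^ (2 * n)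
    field_simp
  obtain ⟨F, F1, F2, F3, F4, F5⟩ := first_passage hν hR hsumR
  have hAsum : ∀ ξ ∈ Set.Ioc 0 R, ∑' n, rt ν n * ξ ^ n = AA u ξ / ξ := by
    intro ξ hξ
    have hs' : Summable (fun n => rt ν (2 * n) * ξ ^ (2 * n)) := by
      have h2 := (summable_even (hodd R)).2 hsumR
      refine Summable.of_nonneg_of_le (fun n => ?_) (fun n => ?_) h2
      · have := rt_pos hν n
        have := hξ.1
        positivity
      · exact mul_le_mul_of_nonneg_left (pow_le_pow_left₀ hξ.1.le hξ.2 _) (rt_pos hν n).le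
    have h2 : HasSum (fun n => rt ν n * ξ ^ n) (∑' n, rt ν (2 * n) * ξ ^ (2 * n)) :=
      (hasSum_even (hodd ξ) _).1 hs'.hasSum
    rw [h2.tsum_eq, eq_div_iff hξ.1.ne', AA, ← tsum_mul_right]
    refine tsum_congr fun n => ?_
    rw [hu]
    ring
  -- the functions on the free product
  obtain ⟨fx, hfx⟩ : ∃ fx : ℝ → Fr H → ℝ, fx = fun ξ => wf (FF (F ξ) (lm α (α / AA u ξ))) := ⟨_, rfl⟩
  have hfe : ∀ ξ ∈ Set.Ioc 0 R, fx ξ 1 = 1 ∧ (∀ x ≠ 1, zz u α ξ * cv (muF α ν) (fx ξ) x = fx ξ x) ∧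
      zz u α ξ * cv (muF α ν) (fx ξ) 1 = 1 - zz u α ξ * (α / AA u ξ) := by
    intro ξ hξ
    rw [hfx]
    exact wf_eqs h0 h1 hξ.1 (hApos ξ hξ) (hzpos ξ hξ) (F2 ξ hξ) (F3 ξ hξ) (by
      rw [← hAsum ξ hξ]
      exact F4 ξ hξ)
  have hfn : ∀ ξ ∈ Set.Ioc 0 R, ∀ x, 0 ≤ fx ξ x := by
    intro ξ hξ x
    rw [hfx]
    exact wf_nonneg (FF_nonneg (F1 ξ hξ) (lm_pos h1).le) x
  have hRR : R ∈ Set.Ioc 0 R := ⟨hR, le_rfl⟩
  have hle : ∀ ξ ∈ Set.Ioo 0 R, ∀ x, fx ξ x ≤ fx R x := by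
    intro ξ hξ x
    have hξ' : ξ ∈ Set.Ioc 0 R := ⟨hξ.1, hξ.2.le⟩
    rw [hfx]
    refine wf_mono (FF_nonneg (F1 ξ hξ') (lm_pos h1).le) (FF_mono (F5 ξ hξ' R hRR hξ.2.le) (lm_pos h1).le ?_) x
    refine lm_anti h1 (div_nonneg h0.le (hApos R hRR).le) ?_
    exact div_le_div_of_nonneg_left h0.le (hApos ξ hξ') (hAlt ξ ⟨hξ.1.le, hξ.2⟩).le
  obtain ⟨zc, hzc⟩ : ∃ zc, zc = zz u α R := ⟨_, rfl⟩
  have hzc0 : 0 < zc := by rw [hzc]; exact hzpos R hRR
  obtain ⟨μ, hμ⟩ : ∃ μ : Fr H →₀ ℝ, μ = muF α ν := ⟨_, rfl⟩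
  have hμsp : SP μ := by rw [hμ]; exact muF_sp h0 h1 hν
  have hμp : Par μ := by rw [hμ]; exact muF_par hp
  rw [← hμ] at hfe
  have hκ : ∀ ξ ∈ Set.Ioc 0 R, 0 < zz u α ξ * (α / AA u ξ) := fun ξ hξ =>
    mul_pos (hzpos ξ hξ) (div_pos h0 (hApos ξ hξ))
  have hμodd : ∀ (r : ℝ) (n : ℕ), (fun n => rt μ n * r ^ n) (2 * n + 1) = 0 := by
    intro r n
    show rt μ (2 * n + 1) * r ^ (2 * n + 1) = 0
    rw [rt_odd hμp, zero_mul]
  have hsumc : Summable (fun n => rt μ (2 * n) * zc ^ (2 * n)) := by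
    obtain ⟨g1, g2, g3⟩ := hfe R hRR
    have := green_le hμsp (hzpos R hRR) (hκ R hRR) (hfn R hRR) g1 g2 g3
    rw [← hzc] at this
    exact (summable_even (hμodd zc)).2 this
  -- the Green function before the critical point
  have hgreen : ∀ ξ ∈ Set.Ico (R - δ₁) R, HasSum (fun n => rt μ (2 * n) * zz u α ξ ^ (2 * n + 1)) (AA u ξ / α) := by
    intro ξ hξ
    have hδR : δ₁ < R := lt_of_lt_of_le hδ₁.2 (min_le_right _ _)
    have hξ0 : 0 < ξ := by linarith [hξ.1]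
    have hξ' : ξ ∈ Set.Ioc 0 R := ⟨hξ0, hξ.2.le⟩
    obtain ⟨g1, g2, g3⟩ := hfe ξ hξ'
    obtain ⟨k1, k2, k3⟩ := hfe R hRR
    have h2 := green_eq hμsp (hzpos ξ hξ') (hcrit ξ hξ) (hκ ξ hξ') (hκ R hRR) (hfn ξ hξ') g1 g2 g3 k1 k2 k3
      (hle ξ ⟨hξ0, hξ.2⟩)
    have h3 := ((hasSum_even (hμodd (zz u α ξ)) _).2 h2).mul_left (zz u α ξ)
    have e1 : zz u α ξ * (1 / (zz u α ξ * (α / AA u ξ))) = AA u ξ / α := by
      have := hzpos ξ hξ'
      have := hApos ξ hξ'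
      field_simp
    rw [e1] at h3
    refine h3.congr_fun fun n => ?_
    ring
  obtain ⟨b, hb⟩ : ∃ b : ℕ → ℝ, b = fun n => zc * (rt μ (2 * n) * zc ^ (2 * n)) := ⟨_, rfl⟩
  have hbpos : ∀ n, 0 < b n := by
    intro n
    rw [hb]
    have := rt_pos hμsp n
    positivity
  have hbsum : Summable b := by
    rw [hb]
    exact hsumc.mul_left _
  have hbanti : Antitone b := by
    rw [hb]
    intro m n hmn
    exact mul_le_mul_of_nonneg_left (rt_anti hμsp hzc0 hsumc hmn) hzc0.le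
  have hbt : ∀ t ∈ Set.Icc (0 : ℝ) 1, Summable (fun n => b n * t ^ (2 * n + 1)) := by
    intro t ht
    refine Summable.of_nonneg_of_le (fun n => ?_) (fun n => ?_) hbsum
    · have := hbpos n
      have := ht.1
      positivity
    · exact mul_le_of_le_one_right (hbpos n).le (pow_le_one₀ ht.1 ht.2)
  -- the value at the ratio
  have hbz : ∀ ξ ∈ Set.Ico (R - δ₁) R, ∑' n, b n * (zz u α ξ / zc) ^ (2 * n + 1) = AA u ξ / α := by
    intro ξ hξ
    rw [← (hgreen ξ hξ).tsum_eq]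
    refine tsum_congr fun n => ?_
    have e1 : zc ^ (2 * n + 1) ≠ 0 := pow_ne_zero _ hzc0.ne'
    have e2 : b n = rt μ (2 * n) * zc ^ (2 * n + 1) := by
      rw [hb]
      ring
    rw [e2, div_pow, mul_assoc, mul_div_cancel₀ _ e1]
  have hδR : δ₁ < R := lt_of_lt_of_le hδ₁.2 (min_le_right _ _)
  have hsub : Set.Icc (R - δ₁) R ⊆ Set.Ioc 0 R := fun ξ hξ => ⟨by linarith [hξ.1], hξ.2⟩
  have hbc : ∑' n, b n = AA u R / α := by
    have hne : (𝓝[Set.Ico (R - δ₁) R] R).NeBot := by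
      rw [← mem_closure_iff_nhdsWithin_neBot, closure_Ico (by linarith [hδ₁.1] : R - δ₁ ≠ R)]
      exact ⟨by linarith [hδ₁.1], le_rfl⟩
    have t1 : Tendsto (fun ξ => zz u α ξ / zc) (𝓝[Set.Ico (R - δ₁) R] R) (𝓝[Set.Icc 0 1] 1) := by
      refine tendsto_nhdsWithin_iff.2 ⟨?_, ?_⟩
      · have h2 : Tendsto (zz u α) (𝓝[Set.Ico (R - δ₁) R] R) (𝓝 (zz u α R)) :=
          (hzcont R hRR).mono_left (nhdsWithin_mono _ fun ξ hξ => hsub ⟨hξ.1, hξ.2.le⟩)
        have h3 := h2.div_const zc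
        rw [← hzc, div_self hzc0.ne'] at h3
        exact h3
      · filter_upwards [self_mem_nhdsWithin] with ξ hξ
        refine ⟨div_nonneg (hzpos ξ (hsub ⟨hξ.1, hξ.2.le⟩)).le hzc0.le, ?_⟩
        rw [div_le_one hzc0, hzc]
        exact (hcrit ξ hξ).le
    have t2 : ContinuousOn (fun t : ℝ => ∑' n, b n * t ^ (2 * n + 1)) (Set.Icc 0 1) := by
      refine continuousOn_tsum (fun n => by fun_prop) hbsum ?_
      intro n t ht
      rw [Real.norm_eq_abs, abs_of_nonneg (mul_nonneg (hbpos n).le (pow_nonneg ht.1 _))]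
      exact mul_le_of_le_one_right (hbpos n).le (pow_le_one₀ ht.1 ht.2)
    have t3 : Tendsto (fun ξ => ∑' n, b n * (zz u α ξ / zc) ^ (2 * n + 1)) (𝓝[Set.Ico (R - δ₁) R] R)
        (𝓝 (∑' n, b n * (1 : ℝ) ^ (2 * n + 1))) :=
      Tendsto.comp (t2 1 ⟨zero_le_one, le_rfl⟩) t1
    have t4 : Tendsto (fun ξ => AA u ξ / α) (𝓝[Set.Ico (R - δ₁) R] R) (𝓝 (AA u R / α)) := by
      refine Tendsto.div_const ?_ α
      exact (hcont R ⟨hR.le, le_rfl⟩).mono_left (nhdsWithin_mono _ fun ξ hξ => ⟨by linarith [hξ.1], hξ.2.le⟩)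
    have t5 : Tendsto (fun ξ => ∑' n, b n * (zz u α ξ / zc) ^ (2 * n + 1)) (𝓝[Set.Ico (R - δ₁) R] R)
        (𝓝 (AA u R / α)) := by
      refine t4.congr' ?_
      filter_upwards [self_mem_nhdsWithin] with ξ hξ
      exact (hbz ξ hξ).symm
    have := tendsto_nhds_unique t3 t5
    simpa using this
  -- the Tauberian theorem
  obtain ⟨t₀, ht₀⟩ : ∃ t₀, t₀ = zz u α (R - δ₁) / zc := ⟨_, rfl⟩
  have hmem : R - δ₁ ∈ Set.Ico (R - δ₁) R := ⟨le_rfl, by linarith [hδ₁.1]⟩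
  have ht₀' : t₀ ∈ Set.Ioo (0 : ℝ) 1 := by
    rw [ht₀]
    refine ⟨div_pos (hzpos _ (hsub ⟨hmem.1, hmem.2.le⟩)) hzc0, ?_⟩
    rw [div_lt_one hzc0, hzc]
    exact (hcrit _ hmem)
  refine ⟨μ, b, t₀, hμsp, hμp, fun n => by rw [hb, hzc], hbpos, hbanti, hbsum, ht₀', ?_⟩
  intro t ht
  have hIVT := intermediate_value_Icc (by linarith [hδ₁.1] : R - δ₁ ≤ R) (hzcont.mono hsub)
  have hmem' : zc * t ∈ Set.Icc (zz u α (R - δ₁)) (zz u α R) := by
    constructor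
    · have := ht.1
      rw [ht₀, div_le_iff₀ hzc0] at this
      linarith
    · rw [← hzc]
      exact mul_le_of_le_one_right hzc0.le ht.2.le
  obtain ⟨ξ, hξ, hξt⟩ := hIVT hmem'
  have hξR : ξ ≠ R := by
    rintro rfl
    rw [← hzc] at hξt
    have : zc * t < zc * 1 := mul_lt_mul_of_pos_left ht.2 hzc0
    linarith
  have hξI : ξ ∈ Set.Ico (R - δ₁) R := ⟨hξ.1, lt_of_le_of_ne hξ.2 hξR⟩
  have ht0 : 0 ≤ t := ht₀'.1.le.trans ht.1
  have htt : zz u α ξ / zc = t := by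
    rw [hξt]
    field_simp
  refine ⟨ξ, hξI, ?_, ?_⟩
  · have e1 : ∀ n, b n * (1 - t ^ (2 * n + 1)) = b n - b n * t ^ (2 * n + 1) := fun n => by ring
    rw [tsum_congr e1, hbsum.tsum_sub (hbt t ⟨ht0, ht.2.le⟩), hbc]
    congr 1
    rw [← hbz ξ hξI, htt]
  · rw [← hzc, hξt]
    field_simp

end Pool.Agent.RDL
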