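import Mathlib

/-!
# Karamata's Tauberian theorem (by Karamata's polynomial method)

`karamata`: if `T n ≥ 0`, `∑ T n x^n ~ g x` as `x → 1-` and `g (x^(k+1)) / g x → (k+1)^(-r)` for all natural `k`, then
`∑_{n ≤ N} T n ~ g (exp (-1/N)) / Γ (r + 1)`.
-/

set_option autoImplicit false

namespace Pool.Agent.RDL

open Finset Filter Topology MeasureTheory

namespace Kar

/-- the weight of the limit measure -/
noncomputable def kwt (r s : ℝ) : ℝ := Real.exp (-s) * s ^ (r - 1)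

/-- the limit functional (up to the factor `Γ r`) -/
noncomputable def kint (r : ℝ) (φ : ℝ → ℝ) : ℝ := ∫ s in Set.Ioi (0 : ℝ), φ (Real.exp (-s)) * kwt r s

/-- the sums whose limits are compared -/
noncomputable def ksum (T : ℕ → ℝ) (φ : ℝ → ℝ) (x : ℝ) : ℝ := ∑' n, T n * x ^ n * φ (x ^ n)

theorem kwt_int {r : ℝ} (hr : 0 < r) : IntegrableOn (kwt r) (Set.Ioi 0) :=
  Real.GammaIntegral_convergent hr

theorem kwt_nonneg (r : ℝ) {s : ℝ} (hs : 0 < s) : 0 ≤ kwt r s :=
  mul_nonneg (Real.exp_pos _).le (Real.rpow_nonneg hs.le _)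

theorem exp_neg_mem {s : ℝ} (hs : 0 < s) : Real.exp (-s) ∈ Set.Icc (0 : ℝ) 1 :=
  ⟨(Real.exp_pos _).le, Real.exp_le_one_iff.2 (by linarith)⟩

theorem k_integrable {r : ℝ} (hr : 0 < r) {φ : ℝ → ℝ} (hφ : Measurable φ) {C : ℝ}
    (hC : ∀ u ∈ Set.Icc (0 : ℝ) 1, |φ u| ≤ C) :
    IntegrableOn (fun s => φ (Real.exp (-s)) * kwt r s) (Set.Ioi 0) := by
  refine Integrable.bdd_mul (c := C) (kwt_int hr) ?_ ?_
  · exact (hφ.comp (by fun_prop)).aestronglyMeasurable
  · refine (ae_restrict_iff' measurableSet_Ioi).2 (Eventually.of_forall fun s hs => ?_)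
    rw [Real.norm_eq_abs]
    exact hC _ (exp_neg_mem hs)

theorem cont_bdd {φ : ℝ → ℝ} (hφ : Continuous φ) : ∃ C : ℝ, ∀ u ∈ Set.Icc (0 : ℝ) 1, |φ u| ≤ C := by
  obtain ⟨C, hC⟩ := (isCompact_Icc (a := (0 : ℝ)) (b := 1)).exists_bound_of_continuousOn hφ.continuousOn
  exact ⟨C, fun u hu => by simpa [Real.norm_eq_abs] using hC u hu⟩

theorem kint_one {r : ℝ} (hr : 0 < r) : kint r (fun _ => 1) = Real.Gamma r := by
  rw [Real.Gamma_eq_integral hr]
  unfold kint kwt
  simp

theorem kint_pow {r : ℝ} (hr : 0 < r) (k : ℕ) (a : ℝ) :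
    kint r (fun u => a * u ^ k) = a * (((k : ℝ) + 1) ^ (-r) * Real.Gamma r) := by
  unfold kint kwt
  have h1 : ∀ s ∈ Set.Ioi (0 : ℝ), (a * Real.exp (-s) ^ k) * (Real.exp (-s) * s ^ (r - 1))
      = a * (s ^ (r - 1) * Real.exp (-(((k : ℝ) + 1) * s))) := by
    intro s _
    have h2 : Real.exp (-s) ^ k * Real.exp (-s) = Real.exp (-(((k : ℝ) + 1) * s)) := by
      rw [← pow_succ, ← Real.exp_nat_mul]
      congr 1
      push_cast
      ring
    rw [← h2]
    ring
  rw [setIntegral_congr_fun measurableSet_Ioi h1, integral_const_mul,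
    Real.integral_rpow_mul_exp_neg_mul_Ioi hr (by positivity)]
  congr 2
  rw [one_div, Real.inv_rpow (by positivity), Real.rpow_neg (by positivity)]

section
variable {T : ℕ → ℝ} {g : ℝ → ℝ} {r : ℝ}

theorem pow_mem_Icc {x : ℝ} (hx : x ∈ Set.Ico (0 : ℝ) 1) (n : ℕ) : x ^ n ∈ Set.Icc (0 : ℝ) 1 :=
  ⟨pow_nonneg hx.1 n, pow_le_one₀ hx.1 hx.2.le⟩

theorem k_summable (hT : ∀ n, 0 ≤ T n) {x : ℝ} (hx : x ∈ Set.Ico (0 : ℝ) 1)
    (hs : Summable (fun n => T n * x ^ n)) {φ : ℝ → ℝ} {C : ℝ} (hC : ∀ u ∈ Set.Icc (0 : ℝ) 1, |φ u| ≤ C) :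
    Summable (fun n => T n * x ^ n * φ (x ^ n)) := by
  refine Summable.of_norm_bounded (hs.mul_right C) fun n => ?_
  have h0 : 0 ≤ T n * x ^ n := mul_nonneg (hT n) (pow_nonneg hx.1 n)
  rw [norm_mul, Real.norm_eq_abs, Real.norm_eq_abs, abs_of_nonneg h0]
  exact mul_le_mul_of_nonneg_left (hC _ (pow_mem_Icc hx n)) h0

theorem ksum_le (hT : ∀ n, 0 ≤ T n) {x : ℝ} (hx : x ∈ Set.Ico (0 : ℝ) 1)
    (hs : Summable (fun n => T n * x ^ n)) {φ ψ : ℝ → ℝ} {C D : ℝ} (hC : ∀ u ∈ Set.Icc (0 : ℝ) 1, |φ u| ≤ C)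
    (hD : ∀ u ∈ Set.Icc (0 : ℝ) 1, |ψ u| ≤ D) (h : ∀ u ∈ Set.Icc (0 : ℝ) 1, φ u ≤ ψ u) :
    ksum T φ x ≤ ksum T ψ x := by
  refine Summable.tsum_le_tsum (fun n => ?_) (k_summable hT hx hs hC) (k_summable hT hx hs hD)
  exact mul_le_mul_of_nonneg_left (h _ (pow_mem_Icc hx n)) (mul_nonneg (hT n) (pow_nonneg hx.1 n))

theorem ksum_add_const (hT : ∀ n, 0 ≤ T n) {x : ℝ} (hx : x ∈ Set.Ico (0 : ℝ) 1)
    (hs : Summable (fun n => T n * x ^ n)) {φ : ℝ → ℝ} {C : ℝ} (hC : ∀ u ∈ Set.Icc (0 : ℝ) 1, |φ u| ≤ C) (c : ℝ) :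
    ksum T (fun u => φ u + c) x = ksum T φ x + c * ∑' n, T n * x ^ n := by
  unfold ksum
  rw [← tsum_mul_left, ← (k_summable hT hx hs hC).tsum_add (hs.mul_left c)]
  exact tsum_congr fun n => by ring

theorem tendsto_pow_lt (k : ℕ) : Tendsto (fun x : ℝ => x ^ (k + 1)) (𝓝[<] 1) (𝓝[<] 1) := by
  rw [tendsto_nhdsWithin_iff]
  constructor
  · have h1 : Tendsto (fun x : ℝ => x ^ (k + 1)) (𝓝 1) (𝓝 (1 ^ (k + 1))) := (continuous_pow (k + 1)).tendsto 1
    rw [one_pow] at h1
    exact h1.mono_left nhdsWithin_le_nhds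
  · have h1 : ∀ᶠ x : ℝ in 𝓝[<] 1, x ∈ Set.Ioo (0 : ℝ) 1 := Ioo_mem_nhdsLT one_pos
    filter_upwards [h1] with x hx
    exact pow_lt_one₀ hx.1.le hx.2 (Nat.succ_ne_zero k)

theorem ev_Ico : ∀ᶠ x : ℝ in 𝓝[<] 1, x ∈ Set.Ico (0 : ℝ) 1 := by
  have h1 : ∀ᶠ x : ℝ in 𝓝[<] 1, x ∈ Set.Ioo (0 : ℝ) 1 := Ioo_mem_nhdsLT one_pos
  filter_upwards [h1] with x hx
  exact ⟨hx.1.le, hx.2⟩

theorem k_poly (hr : 0 < r) (hT : ∀ n, 0 ≤ T n)
    (hs : ∀ x ∈ Set.Ico (0 : ℝ) 1, Summable (fun n => T n * x ^ n)) (hg : ∀ᶠ x in 𝓝[<] (1 : ℝ), 0 < g x)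
    (h : Tendsto (fun x : ℝ => (∑' n, T n * x ^ n) / g x) (𝓝[<] 1) (𝓝 1))
    (hk : ∀ k : ℕ, Tendsto (fun x : ℝ => g (x ^ (k + 1)) / g x) (𝓝[<] 1) (𝓝 (((k : ℝ) + 1) ^ (-r))))
    (P : Polynomial ℝ) :
    Tendsto (fun x : ℝ => ksum T (fun u => P.eval u) x / g x) (𝓝[<] 1)
      (𝓝 (kint r (fun u => P.eval u) / Real.Gamma r)) := by
  have hG : 0 < Real.Gamma r := Real.Gamma_pos_of_pos hr
  induction P using Polynomial.induction_on' with
  | add p q hp hq =>
    have hbp := cont_bdd p.continuous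
    have hbq := cont_bdd q.continuous
    obtain ⟨C, hC⟩ := hbp
    obtain ⟨D, hD⟩ := hbq
    have e1 : kint r (fun u => (p + q).eval u) = kint r (fun u => p.eval u) + kint r (fun u => q.eval u) := by
      unfold kint
      rw [← integral_add (k_integrable hr p.continuous.measurable hC) (k_integrable hr q.continuous.measurable hD)]
      refine integral_congr_ae (Eventually.of_forall fun s => ?_)
      simp only [Polynomial.eval_add]
      ring
    rw [e1, add_div]
    refine (hp.add hq).congr' ?_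
    filter_upwards [ev_Ico] with x hx
    rw [← add_div]
    congr 1
    unfold ksum
    rw [← (k_summable hT hx (hs x hx) hC).tsum_add (k_summable hT hx (hs x hx) hD)]
    refine tsum_congr fun n => ?_
    simp only [Polynomial.eval_add]
    ring
  | monomial k a =>
    have e1 : kint r (fun u => (Polynomial.monomial k a).eval u) / Real.Gamma r = a * (1 * ((k : ℝ) + 1) ^ (-r)) := by
      simp only [Polynomial.eval_monomial]
      rw [kint_pow hr k a]
      field_simp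
    rw [e1]
    have h1 : Tendsto (fun x : ℝ => (∑' n, T n * (x ^ (k + 1)) ^ n) / g (x ^ (k + 1))) (𝓝[<] 1) (𝓝 1) :=
      h.comp (tendsto_pow_lt k)
    refine ((h1.mul (hk k)).const_mul a).congr' ?_
    filter_upwards [ev_Ico, (tendsto_pow_lt k).eventually hg] with x hx hgx
    have e2 : ksum T (fun u => (Polynomial.monomial k a).eval u) x = a * ∑' n, T n * (x ^ (k + 1)) ^ n := by
      unfold ksum
      rw [← tsum_mul_left]
      refine tsum_congr fun n => ?_
      simp only [Polynomial.eval_monomial]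
      rw [← pow_mul, ← pow_mul, show (k + 1) * n = n + n * k by ring, pow_add]
      ring
    rw [e2]
    field_simp

theorem k_cont (hr : 0 < r) (hT : ∀ n, 0 ≤ T n)
    (hs : ∀ x ∈ Set.Ico (0 : ℝ) 1, Summable (fun n => T n * x ^ n)) (hg : ∀ᶠ x in 𝓝[<] (1 : ℝ), 0 < g x)
    (h : Tendsto (fun x : ℝ => (∑' n, T n * x ^ n) / g x) (𝓝[<] 1) (𝓝 1))
    (hk : ∀ k : ℕ, Tendsto (fun x : ℝ => g (x ^ (k + 1)) / g x) (𝓝[<] 1) (𝓝 (((k : ℝ) + 1) ^ (-r))))
    {φ : ℝ → ℝ} (hφ : Continuous φ) :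
    Tendsto (fun x : ℝ => ksum T φ x / g x) (𝓝[<] 1) (𝓝 (kint r φ / Real.Gamma r)) := by
  have hG : 0 < Real.Gamma r := Real.Gamma_pos_of_pos hr
  rw [Metric.tendsto_nhds]
  intro ε hε
  obtain ⟨P, hP⟩ := exists_polynomial_near_of_continuousOn 0 1 φ hφ.continuousOn (ε / 8) (by positivity)
  obtain ⟨C, hC⟩ := cont_bdd hφ
  obtain ⟨D, hD⟩ := cont_bdd P.continuous
  have hlim := k_poly hr hT hs hg h hk P
  have hD' : ∀ c : ℝ, ∀ u ∈ Set.Icc (0 : ℝ) 1, |P.eval u + c| ≤ D + |c| := fun c u hu =>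
    (abs_add_le _ _).trans (by gcongr; exact hD u hu)
  -- the integrals
  have hint : |kint r φ / Real.Gamma r - kint r (fun u => P.eval u) / Real.Gamma r| ≤ ε / 8 := by
    rw [← sub_div, abs_div, abs_of_pos hG, div_le_iff₀ hG]
    unfold kint
    rw [← integral_sub (k_integrable hr hφ.measurable hC) (k_integrable hr P.continuous.measurable hD)]
    have e0 : ε / 8 * Real.Gamma r = ∫ s in Set.Ioi (0 : ℝ), ε / 8 * kwt r s := by
      rw [integral_const_mul, Real.Gamma_eq_integral hr]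
      rfl
    rw [e0]
    rw [← Real.norm_eq_abs]
    refine norm_integral_le_of_norm_le (Integrable.const_mul (kwt_int hr) (ε / 8)) ?_
    refine (ae_restrict_iff' measurableSet_Ioi).2 (Eventually.of_forall fun s hs' => ?_)
    rw [← sub_mul, norm_mul, Real.norm_eq_abs, Real.norm_eq_abs, abs_of_nonneg (kwt_nonneg r hs')]
    refine mul_le_mul_of_nonneg_right ?_ (kwt_nonneg r hs')
    rw [abs_sub_comm]
    exact (hP _ (exp_neg_mem hs')).le
  rw [Metric.tendsto_nhds] at hlim h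
  filter_upwards [ev_Ico, hg, hlim (ε / 8) (by positivity), h 1 one_pos] with x hx hgx h1 h2
  rw [Real.dist_eq] at h1 h2 ⊢
  have hF : (∑' n, T n * x ^ n) / g x ≤ 2 := by
    have := (abs_lt.1 h2).2
    linarith
  have hF0 : 0 ≤ (∑' n, T n * x ^ n) / g x :=
    div_nonneg (tsum_nonneg fun n => mul_nonneg (hT n) (pow_nonneg hx.1 n)) hgx.le
  have hu : ksum T φ x ≤ ksum T (fun u => P.eval u) x + ε / 8 * ∑' n, T n * x ^ n := by
    rw [← ksum_add_const hT hx (hs x hx) hD (ε / 8)]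
    refine ksum_le hT hx (hs x hx) hC (hD' _) fun u hu => ?_
    have := (abs_lt.1 (hP u hu)).1
    linarith
  have hl : ksum T (fun u => P.eval u) x + (-(ε / 8)) * ∑' n, T n * x ^ n ≤ ksum T φ x := by
    rw [← ksum_add_const hT hx (hs x hx) hD (-(ε / 8))]
    refine ksum_le hT hx (hs x hx) (hD' _) hC fun u hu => ?_
    have := (abs_lt.1 (hP u hu)).2
    linarith
  have hu' : ksum T φ x / g x ≤ ksum T (fun u => P.eval u) x / g x + ε / 8 * ((∑' n, T n * x ^ n) / g x) := by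
    rw [← mul_div_assoc, ← add_div]
    exact div_le_div_of_nonneg_right hu hgx.le
  have hl' : ksum T (fun u => P.eval u) x / g x + (-(ε / 8)) * ((∑' n, T n * x ^ n) / g x) ≤ ksum T φ x / g x := by
    rw [← mul_div_assoc, ← add_div]
    exact div_le_div_of_nonneg_right hl hgx.le
  have h3 : ε / 8 * ((∑' n, T n * x ^ n) / g x) ≤ ε / 8 * 2 := mul_le_mul_of_nonneg_left hF (by positivity)
  rw [abs_lt] at h1 ⊢
  rw [abs_le] at hint
  constructor <;> linarith [h1.1, h1.2, hint.1, hint.2]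

end

/-- the continuous functions between which `u ↦ 1/u · 1_{u ≥ c}` lies -/
noncomputable def hh (c δ u : ℝ) : ℝ := max 0 (min 1 ((u - c) / δ)) / max u c

theorem hh_cont {c δ : ℝ} (hc : 0 < c) : Continuous (hh c δ) := by
  unfold hh
  refine Continuous.div (by fun_prop) (by fun_prop) fun u => ?_
  exact (lt_of_lt_of_le hc (le_max_right u c)).ne'

theorem hh_nonneg {c δ : ℝ} (hc : 0 < c) (u : ℝ) : 0 ≤ hh c δ u :=
  div_nonneg (le_max_left _ _) (hc.le.trans (le_max_right u c))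

theorem hh_le {c δ : ℝ} (hc : 0 < c) (u : ℝ) : hh c δ u ≤ 1 / c := by
  unfold hh
  refine div_le_div₀ zero_le_one (max_le zero_le_one (min_le_left _ _)) hc (le_max_right u c)

/-- the discontinuous function -/
noncomputable def chi (u : ℝ) : ℝ := if Real.exp (-1) ≤ u then 1 / u else 0

theorem hh_le_chi {δ : ℝ} (hδ : 0 < δ) (u : ℝ) : hh (Real.exp (-1)) δ u ≤ chi u := by
  have hc : 0 < Real.exp (-1) := Real.exp_pos _
  unfold hh chi
  split_ifs with h
  · rw [max_eq_left h]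
    exact div_le_div_of_nonneg_right (max_le zero_le_one (min_le_left _ _)) (hc.le.trans h)
  · have h1 : (u - Real.exp (-1)) / δ ≤ 0 := div_nonpos_of_nonpos_of_nonneg (by linarith) hδ.le
    rw [min_eq_right (h1.trans zero_le_one), max_eq_left h1, zero_div]

theorem chi_le_hh {δ : ℝ} (hδ : 0 < δ) (hδ' : δ < Real.exp (-1)) (u : ℝ) :
    chi u ≤ hh (Real.exp (-1) - δ) δ u := by
  unfold chi
  split_ifs with h
  · unfold hh
    have h1 : 1 ≤ (u - (Real.exp (-1) - δ)) / δ := by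
      rw [le_div_iff₀ hδ]
      linarith
    rw [max_eq_left (by linarith : Real.exp (-1) - δ ≤ u), min_eq_left h1, max_eq_right zero_le_one]
  · exact hh_nonneg (by linarith) u

theorem chi_meas : Measurable chi := by
  unfold chi
  exact Measurable.ite measurableSet_Ici (by fun_prop) measurable_const

theorem chi_bdd (u : ℝ) : |chi u| ≤ 1 / Real.exp (-1) := by
  have hc : 0 < Real.exp (-1) := Real.exp_pos _
  unfold chi
  split_ifs with h
  · have hu : 0 < u := hc.trans_le h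
    rw [abs_of_nonneg (by positivity : (0 : ℝ) ≤ 1 / u)]
    exact one_div_le_one_div_of_le hc h
  · simp [hc.le]

theorem kint_chi {r : ℝ} (hr : 0 < r) : kint r chi = 1 / r := by
  unfold kint
  have h1 : ∀ s ∈ Set.Ioi (0 : ℝ), chi (Real.exp (-s)) * kwt r s = (Set.Iic (1 : ℝ)).indicator (fun s => s ^ (r - 1)) s := by
    intro s _
    unfold chi kwt
    by_cases hs : s ≤ 1
    · rw [if_pos (Real.exp_le_exp.2 (by linarith)), Set.indicator_of_mem (Set.mem_Iic.2 hs)]
      have := (Real.exp_pos (-s)).ne'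
      field_simp
    · rw [if_neg (by rw [Real.exp_le_exp]; linarith), Set.indicator_of_notMem (by simpa using hs), zero_mul]
  rw [setIntegral_congr_fun measurableSet_Ioi h1, setIntegral_indicator measurableSet_Iic,
    Set.Ioi_inter_Iic, ← intervalIntegral.integral_of_le zero_le_one, integral_rpow (Or.inl (by linarith))]
  rw [sub_add_cancel, Real.one_rpow, Real.zero_rpow hr.ne', sub_zero]

theorem kint_hh_tendsto {r : ℝ} (hr : 0 < r) (c δ : ℕ → ℝ) {c0 : ℝ} (hc0 : 0 < c0) (hc : ∀ m, c0 ≤ c m)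
    (hlim : ∀ u : ℝ, u ≠ Real.exp (-1) → Tendsto (fun m => hh (c m) (δ m) u) atTop (𝓝 (chi u))) :
    Tendsto (fun m => kint r (hh (c m) (δ m))) atTop (𝓝 (kint r chi)) := by
  unfold kint
  refine tendsto_integral_of_dominated_convergence (fun s => 1 / c0 * kwt r s) (fun m => ?_)
    ((kwt_int hr).const_mul _) (fun m => ?_) ?_
  · have hcm : 0 < c m := hc0.trans_le (hc m)
    obtain ⟨C, hC⟩ := cont_bdd (hh_cont (δ := δ m) hcm)
    exact (k_integrable hr (hh_cont hcm).measurable hC).aestronglyMeasurable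
  · have hcm : 0 < c m := hc0.trans_le (hc m)
    refine (ae_restrict_iff' measurableSet_Ioi).2 (Eventually.of_forall fun s hs => ?_)
    rw [norm_mul, Real.norm_eq_abs, Real.norm_eq_abs, abs_of_nonneg (kwt_nonneg r hs), abs_of_nonneg (hh_nonneg hcm _)]
    exact mul_le_mul_of_nonneg_right ((hh_le hcm _).trans (one_div_le_one_div_of_le hc0 (hc m))) (kwt_nonneg r hs)
  · refine (ae_restrict_iff' measurableSet_Ioi).2 ?_
    have h1 : ∀ᵐ s : ℝ ∂volume, s ≠ 1 := by
      rw [ae_iff]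
      simp
    filter_upwards [h1] with s hs _
    refine (hlim _ fun h => hs ?_).mul_const _
    have := Real.exp_injective h
    linarith

end Kar

open Kar in
theorem karamata {T : ℕ → ℝ} {g : ℝ → ℝ} {r : ℝ} (hr : 0 < r) (hT : ∀ n, 0 ≤ T n)
    (hs : ∀ x ∈ Set.Ico (0 : ℝ) 1, Summable (fun n => T n * x ^ n)) (hg : ∀ᶠ x in 𝓝[<] (1 : ℝ), 0 < g x)
    (h : Tendsto (fun x : ℝ => (∑' n, T n * x ^ n) / g x) (𝓝[<] 1) (𝓝 1))
    (hk : ∀ k : ℕ, Tendsto (fun x : ℝ => g (x ^ (k + 1)) / g x) (𝓝[<] 1) (𝓝 (((k : ℝ) + 1) ^ (-r)))) :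
    Tendsto (fun N : ℕ => (∑ n ∈ range (N + 1), T n) / g (Real.exp (-(1 / (N : ℝ))))) atTop
      (𝓝 (1 / Real.Gamma (r + 1))) := by
  have hG : 0 < Real.Gamma r := Real.Gamma_pos_of_pos hr
  have he : 0 < Real.exp (-1) := Real.exp_pos _
  have hval : kint r chi / Real.Gamma r = 1 / Real.Gamma (r + 1) := by
    rw [kint_chi hr, Real.Gamma_add_one hr.ne']
    field_simp
  rw [← hval]
  -- the points
  have hpt : Tendsto (fun N : ℕ => Real.exp (-(1 / (N : ℝ)))) atTop (𝓝[<] 1) := by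
    rw [tendsto_nhdsWithin_iff]
    constructor
    · have h1 : Tendsto (fun N : ℕ => -(1 / (N : ℝ))) atTop (𝓝 (-0)) := tendsto_one_div_atTop_nhds_zero_nat.neg
      have h2 := (Real.continuous_exp.tendsto (-0)).comp h1
      rw [neg_zero, Real.exp_zero] at h2
      exact h2
    · filter_upwards [eventually_gt_atTop 0] with N hN
      have : (0 : ℝ) < 1 / (N : ℝ) := by positivity
      exact Real.exp_lt_one_iff.2 (by linarith)
  -- the value at chi
  have hchi : ∀ᶠ N : ℕ in atTop, ksum T chi (Real.exp (-(1 / (N : ℝ)))) = ∑ n ∈ range (N + 1), T n := by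
    filter_upwards [eventually_gt_atTop 0] with N hN
    have hN' : (0 : ℝ) < N := by exact_mod_cast hN
    unfold ksum
    rw [tsum_eq_sum (s := range (N + 1))]
    · refine sum_congr rfl fun n hn => ?_
      have hn' : n ≤ N := Nat.lt_succ_iff.1 (mem_range.1 hn)
      have h1 : Real.exp (-1) ≤ Real.exp (-(1 / (N : ℝ))) ^ n := by
        rw [← Real.exp_nat_mul, Real.exp_le_exp]
        have : (n : ℝ) ≤ N := by exact_mod_cast hn'
        have h2 : (n : ℝ) * (1 / N) ≤ 1 := by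
          rw [mul_one_div, div_le_one hN']
          exact this
        linarith
      unfold chi
      rw [if_pos h1]
      have := (pow_pos (Real.exp_pos (-(1 / (N : ℝ)))) n).ne'
      field_simp
    · intro n hn
      have hn' : N < n := by
        by_contra h0
        exact hn (mem_range.2 (by omega))
      have h1 : ¬ Real.exp (-1) ≤ Real.exp (-(1 / (N : ℝ))) ^ n := by
        rw [← Real.exp_nat_mul, Real.exp_le_exp, not_le]
        have : (N : ℝ) < n := by exact_mod_cast hn'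
        have h2 : 1 < (n : ℝ) * (1 / N) := by
          rw [mul_one_div, one_lt_div hN']
          exact this
        linarith
      unfold chi
      rw [if_neg h1, mul_zero]
  have hbc : ∀ u ∈ Set.Icc (0 : ℝ) 1, |chi u| ≤ 1 / Real.exp (-1) := fun u _ => chi_bdd u
  -- the two families
  have hd : ∀ m : ℕ, 0 < Real.exp (-1) / ((m : ℝ) + 2) := fun m => by positivity
  have hd2 : ∀ m : ℕ, Real.exp (-1) / ((m : ℝ) + 2) ≤ Real.exp (-1) / 2 := fun m => by
    have : (0 : ℝ) ≤ m := m.cast_nonneg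
    exact div_le_div_of_nonneg_left he.le two_pos (by linarith)
  have hd0 : Tendsto (fun m : ℕ => Real.exp (-1) / ((m : ℝ) + 2)) atTop (𝓝 0) :=
    tendsto_const_nhds.div_atTop (tendsto_atTop_add_const_right _ _ tendsto_natCast_atTop_atTop)
  have hlo : Tendsto (fun m : ℕ => kint r (hh (Real.exp (-1)) (Real.exp (-1) / ((m : ℝ) + 2)))) atTop
      (𝓝 (kint r chi)) := by
    refine kint_hh_tendsto hr (fun _ => Real.exp (-1)) (fun m : ℕ => Real.exp (-1) / ((m : ℝ) + 2)) he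
      (fun _ => le_rfl) fun u hu => ?_
    rcases lt_or_gt_of_ne hu with hlt | hgt
    · refine tendsto_const_nhds.congr fun m => ?_
      unfold hh chi
      have h1 : (u - Real.exp (-1)) / (Real.exp (-1) / ((m : ℝ) + 2)) ≤ 0 :=
        div_nonpos_of_nonpos_of_nonneg (by linarith) (hd m).le
      rw [if_neg (not_le.2 hlt), min_eq_right (h1.trans zero_le_one), max_eq_left h1, zero_div]
    · have h1 : ∀ᶠ m : ℕ in atTop, Real.exp (-1) / ((m : ℝ) + 2) < u - Real.exp (-1) :=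
        hd0.eventually (gt_mem_nhds (by linarith))
      refine tendsto_const_nhds.congr' ?_
      filter_upwards [h1] with m hm
      unfold hh chi
      have h2 : 1 ≤ (u - Real.exp (-1)) / (Real.exp (-1) / ((m : ℝ) + 2)) := by
        rw [le_div_iff₀ (hd m)]
        linarith
      rw [if_pos hgt.le, min_eq_left h2, max_eq_right zero_le_one, max_eq_left hgt.le]
  have hup : Tendsto (fun m : ℕ => kint r (hh (Real.exp (-1) - Real.exp (-1) / ((m : ℝ) + 2))
      (Real.exp (-1) / ((m : ℝ) + 2)))) atTop (𝓝 (kint r chi)) := by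
    refine kint_hh_tendsto hr (fun m : ℕ => Real.exp (-1) - Real.exp (-1) / ((m : ℝ) + 2))
      (fun m : ℕ => Real.exp (-1) / ((m : ℝ) + 2)) (c0 := Real.exp (-1) / 2) (by positivity)
      (fun m => by linarith [hd2 m]) fun u hu => ?_
    rcases lt_or_gt_of_ne hu with hlt | hgt
    · have h1 : ∀ᶠ m : ℕ in atTop, Real.exp (-1) / ((m : ℝ) + 2) < Real.exp (-1) - u :=
        hd0.eventually (gt_mem_nhds (by linarith))
      refine tendsto_const_nhds.congr' ?_
      filter_upwards [h1] with m hm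
      unfold hh chi
      have h2 : (u - (Real.exp (-1) - Real.exp (-1) / ((m : ℝ) + 2))) / (Real.exp (-1) / ((m : ℝ) + 2)) ≤ 0 :=
        div_nonpos_of_nonpos_of_nonneg (by linarith) (hd m).le
      rw [if_neg (not_le.2 hlt), min_eq_right (h2.trans zero_le_one), max_eq_left h2, zero_div]
    · refine tendsto_const_nhds.congr fun m => ?_
      unfold hh chi
      have h1 : 1 ≤ (u - (Real.exp (-1) - Real.exp (-1) / ((m : ℝ) + 2))) / (Real.exp (-1) / ((m : ℝ) + 2)) := by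
        rw [le_div_iff₀ (hd m)]
        linarith
      rw [if_pos hgt.le, min_eq_left h1, max_eq_right zero_le_one,
        max_eq_left (by linarith [hd m] : Real.exp (-1) - Real.exp (-1) / ((m : ℝ) + 2) ≤ u)]
  rw [tendsto_order]
  constructor
  · intro a ha
    obtain ⟨m, hm⟩ := ((hlo.div_const (Real.Gamma r)).eventually (lt_mem_nhds ha)).exists
    have hcont := hh_cont (δ := Real.exp (-1) / ((m : ℝ) + 2)) he
    obtain ⟨C, hC⟩ := cont_bdd hcont
    have h1 := (k_cont hr hT hs hg h hk hcont).eventually (lt_mem_nhds hm)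
    filter_upwards [hpt.eventually h1, hpt.eventually hg, hpt.eventually ev_Ico, hchi] with N h2 h3 h4 h5
    rw [← h5]
    refine h2.trans_le (div_le_div_of_nonneg_right ?_ h3.le)
    exact ksum_le hT h4 (hs _ h4) hC hbc fun u _ => hh_le_chi (hd m) u
  · intro a ha
    obtain ⟨m, hm⟩ := ((hup.div_const (Real.Gamma r)).eventually (gt_mem_nhds ha)).exists
    have hc : 0 < Real.exp (-1) - Real.exp (-1) / ((m : ℝ) + 2) := by linarith [hd2 m]
    have hcont := hh_cont (δ := Real.exp (-1) / ((m : ℝ) + 2)) hc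
    obtain ⟨C, hC⟩ := cont_bdd hcont
    have h1 := (k_cont hr hT hs hg h hk hcont).eventually (gt_mem_nhds hm)
    filter_upwards [hpt.eventually h1, hpt.eventually hg, hpt.eventually ev_Ico, hchi] with N h2 h3 h4 h5
    rw [← h5]
    refine lt_of_le_of_lt (div_le_div_of_nonneg_right ?_ h3.le) h2
    exact ksum_le hT h4 (hs _ h4) hbc hC fun u _ => chi_le_hh (hd m) (by linarith [hd2 m]) u

end Pool.Agent.RDL
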