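import Pool.Agent.RDL.Defs

/-!
# Regular variation in the logarithmic scale: definition
-/

set_option autoImplicit false

namespace Pool.Agent.RDL

open Filter Topology

/-- positive nondecreasing sequences of regular variation in the logarithmic scale -/
structure LVar (ℓ : ℕ → ℝ) (σ : ℝ) : Prop where
  pos : ∀ n, 1 ≤ n → 0 < ℓ n
  mono : ∀ m n, 1 ≤ m → m ≤ n → ℓ m ≤ ℓ n
  lim : ∀ s : ℝ, 0 < s → Tendsto (fun N : ℕ => ℓ ⌊(N : ℝ) ^ s⌋₊ / ℓ N) atTop (𝓝 (s ^ σ))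

end Pool.Agent.RDL
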