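import Pool.Agent.RDL.Corr

/-!
# Corrections of the order of dyadic powers of the logarithm

`mm_logpow`: if `ℓ n ~ c (log n)^γ`, `0 ≤ γ < 1`, then `∑_{k ≤ n} 1 / (k ℓ(k)) ~ (log n)^(1-γ) / (c (1-γ))`.
`corr_logpow`: the class `Corr` contains sequences of the exact order of `(log n)^(j/2^k)` for all `j ≤ 2^k`.
-/

set_option autoImplicit false

namespace Pool.Agent.RDL

open Finset Filter Topology

namespace LogPow

theorem log_top : Tendsto (fun n : ℕ => Real.log n) atTop atTop :=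
  Real.tendsto_log_atTop.comp tendsto_natCast_atTop_atTop

/-- `n (log (n+1) - log n) → 1` -/
theorem mul_log_sub : Tendsto (fun n : ℕ => (n : ℝ) * (Real.log ((n : ℝ) + 1) - Real.log n)) atTop (𝓝 1) := by
  have h1 := (Real.tendsto_mul_log_one_add_div_atTop 1).comp (tendsto_natCast_atTop_atTop (R := ℝ))
  refine h1.congr' ?_
  filter_upwards [eventually_gt_atTop 0] with n hn
  have hn' : (0 : ℝ) < n := by exact_mod_cast hn
  simp only [Function.comp]
  rw [← Real.log_div (by positivity) hn'.ne']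
  congr 2
  field_simp

/-- `log (n+1) - log n → 0` -/
theorem log_sub : Tendsto (fun n : ℕ => Real.log ((n : ℝ) + 1) - Real.log n) atTop (𝓝 0) := by
  have h1 := mul_log_sub.mul (tendsto_one_div_atTop_nhds_zero_nat (𝕜 := ℝ))
  rw [one_mul] at h1
  refine h1.congr' ?_
  filter_upwards [eventually_gt_atTop 0] with n hn
  have hn' : (0 : ℝ) < n := by exact_mod_cast hn
  field_simp

/-- `log (n+1) / log n → 1` -/
theorem log_ratio : Tendsto (fun n : ℕ => Real.log ((n : ℝ) + 1) / Real.log n) atTop (𝓝 1) := by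
  have h1 : Tendsto (fun n : ℕ => 1 + (Real.log ((n : ℝ) + 1) - Real.log n) * (Real.log n)⁻¹) atTop (𝓝 (1 + 0 * 0)) :=
    tendsto_const_nhds.add (log_sub.mul log_top.inv_tendsto_atTop)
  rw [zero_mul, add_zero] at h1
  refine h1.congr' ?_
  filter_upwards [log_top.eventually_gt_atTop 0] with n hn
  field_simp
  ring

theorem slope_lim (s : ℝ) : Tendsto (fun n : ℕ => ((Real.log ((n : ℝ) + 1) / Real.log n) ^ s - 1) /
    (Real.log ((n : ℝ) + 1) / Real.log n - 1)) atTop (𝓝 s) := by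
  have h1 : HasDerivAt (fun x : ℝ => x ^ s) (s * 1 ^ (s - 1)) 1 := Real.hasDerivAt_rpow_const (Or.inl one_ne_zero)
  rw [Real.one_rpow, mul_one, hasDerivAt_iff_tendsto_slope] at h1
  have h2 : Tendsto (fun n : ℕ => Real.log ((n : ℝ) + 1) / Real.log n) atTop (𝓝[≠] 1) := by
    rw [tendsto_nhdsWithin_iff]
    refine ⟨log_ratio, ?_⟩
    filter_upwards [log_top.eventually_gt_atTop 0, eventually_gt_atTop 0] with n hn hn0
    have hn' : (0 : ℝ) < n := by exact_mod_cast hn0
    rw [Set.mem_compl_iff, Set.mem_singleton_iff, div_eq_one_iff_eq hn.ne']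
    exact (Real.log_lt_log hn' (by linarith)).ne'
  refine (h1.comp h2).congr fun n => ?_
  simp only [Function.comp, slope_def_field, Real.one_rpow]

/-- the differences of `(log n)^s / (c s)` -/
theorem diff_equiv {c γ : ℝ} (hc : 0 < c) (hγ : γ < 1) :
    Asymptotics.IsEquivalent atTop
      (fun n : ℕ => 1 / (c * (1 - γ)) * ((Real.log ((n : ℝ) + 1)) ^ (1 - γ) - (Real.log n) ^ (1 - γ)))
      (fun n : ℕ => 1 / ((n : ℝ) * (c * (Real.log n) ^ γ))) := by
  have hs : 0 < 1 - γ := by linarith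
  refine Asymptotics.isEquivalent_of_tendsto_one ?_
  have h1 := ((slope_lim (1 - γ)).mul mul_log_sub).const_mul (1 / (1 - γ))
  have e1 : 1 / (1 - γ) * ((1 - γ) * 1) = 1 := by field_simp
  rw [e1] at h1
  refine h1.congr' ?_
  filter_upwards [log_top.eventually_gt_atTop 0, eventually_gt_atTop 0] with n hn hn0
  have hn' : (0 : ℝ) < n := by exact_mod_cast hn0
  have hlt : Real.log n < Real.log ((n : ℝ) + 1) := Real.log_lt_log hn' (by linarith)
  have hl1 : 0 < Real.log ((n : ℝ) + 1) := hn.trans hlt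
  simp only [Pi.div_apply]
  rw [Real.div_rpow hl1.le hn.le]
  have e2 : Real.log n ^ (1 - γ) * Real.log n ^ γ = Real.log n := by
    rw [← Real.rpow_add hn]
    simp
  have hp : 0 < Real.log n ^ (1 - γ) := Real.rpow_pos_of_pos hn _
  have hp' : 0 < Real.log n ^ γ := Real.rpow_pos_of_pos hn _
  have hd : Real.log ((n : ℝ) + 1) / Real.log n - 1 = (Real.log ((n : ℝ) + 1) - Real.log n) / Real.log n := by
    field_simp
  rw [hd]
  have hne : Real.log ((n : ℝ) + 1) - Real.log n ≠ 0 := by linarith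
  generalize Real.log ((n : ℝ) + 1) ^ (1 - γ) = A at *
  generalize Real.log ((n : ℝ) + 1) = B at *
  generalize Real.log (n : ℝ) ^ (1 - γ) = P at *
  generalize Real.log (n : ℝ) ^ γ = Q at *
  generalize Real.log (n : ℝ) = L at *
  subst e2
  field_simp

end LogPow

set_option linter.unusedVariables false in
open LogPow in
theorem mm_logpow {ℓ : ℕ → ℝ} {c γ : ℝ} (hc : 0 < c) (hγ0 : 0 ≤ γ) (hγ : γ < 1) (hpos : ∀ n, 1 ≤ n → 0 < ℓ n)
    (h : Asymptotics.IsEquivalent atTop ℓ (fun n : ℕ => c * (Real.log n) ^ γ)) :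
    Asymptotics.IsEquivalent atTop (mm ℓ) (fun n : ℕ => 1 / (c * (1 - γ)) * (Real.log n) ^ (1 - γ)) := by
  have hs : 0 < 1 - γ := by linarith
  have hK : 0 < 1 / (c * (1 - γ)) := by positivity
  have hA : Asymptotics.IsEquivalent atTop (fun n : ℕ => 1 / ((n : ℝ) * ℓ n))
      (fun n : ℕ => 1 / ((n : ℝ) * (c * (Real.log n) ^ γ))) := by
    have h1 := ((Asymptotics.IsEquivalent.refl (u := fun n : ℕ => (n : ℝ)) (l := atTop)).mul h).inv
    refine (h1.congr_left ?_).congr_right ?_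
    · exact Eventually.of_forall fun n => by simp
    · exact Eventually.of_forall fun n => by simp
  have hAB := ((hA.trans (diff_equiv hc hγ).symm).comp_tendsto (tendsto_add_atTop_nat 1))
  set F : ℕ → ℝ := (fun n : ℕ => 1 / ((n : ℝ) * ℓ n)) ∘ (fun a => a + 1) with hF
  set G : ℕ → ℝ := (fun n : ℕ => 1 / (c * (1 - γ)) * ((Real.log ((n : ℝ) + 1)) ^ (1 - γ) - (Real.log n) ^ (1 - γ))) ∘
    (fun a => a + 1) with hG
  have hsG : ∀ n : ℕ, ∑ i ∈ range n, G i = 1 / (c * (1 - γ)) * (Real.log ((n : ℝ) + 1)) ^ (1 - γ) := by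
    intro n
    have e1 : ∀ i : ℕ, G i = (fun j : ℕ => 1 / (c * (1 - γ)) * (Real.log ((j : ℝ) + 1)) ^ (1 - γ)) (i + 1) -
        (fun j : ℕ => 1 / (c * (1 - γ)) * (Real.log ((j : ℝ) + 1)) ^ (1 - γ)) i := by
      intro i
      simp only [hG, Function.comp]
      push_cast
      ring
    rw [sum_congr rfl fun i _ => e1 i,
      sum_range_sub (fun j : ℕ => 1 / (c * (1 - γ)) * (Real.log ((j : ℝ) + 1)) ^ (1 - γ)) n]
    simp [Real.zero_rpow hs.ne']
  have hsF : ∀ n : ℕ, ∑ i ∈ range n, F i = mm ℓ n := by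
    intro n
    induction n with
    | zero => simp [mm]
    | succ n ih =>
      rw [sum_range_succ, ih]
      unfold mm
      rw [sum_Icc_succ_top (by omega)]
      simp [hF]
  have hG0 : 0 ≤ G := by
    intro i
    simp only [hG, Function.comp, Pi.zero_apply]
    refine mul_nonneg hK.le (sub_nonneg.2 (Real.rpow_le_rpow ?_ ?_ hs.le))
    · exact Real.log_nonneg (by push_cast; linarith [i.cast_nonneg (α := ℝ)])
    · exact Real.log_le_log (by push_cast; linarith [i.cast_nonneg (α := ℝ)]) (by linarith)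
  have htop' : Tendsto (fun n : ℕ => 1 / (c * (1 - γ)) * (Real.log n) ^ (1 - γ)) atTop atTop :=
    ((tendsto_rpow_atTop hs).comp log_top).const_mul_atTop hK
  have htop : Tendsto (fun n => ∑ i ∈ range n, G i) atTop atTop := by
    have h1 := htop'.comp (tendsto_add_atTop_nat 1)
    refine h1.congr fun n => ?_
    rw [hsG]
    simp only [Function.comp]
    push_cast
    rfl
  have hsum := Asymptotics.IsLittleO.sum_range hAB.isLittleO hG0 htop
  have h2 : Asymptotics.IsEquivalent atTop (mm ℓ) (fun n => ∑ i ∈ range n, G i) := by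
    refine Asymptotics.IsLittleO.isEquivalent ?_
    refine hsum.congr_left fun n => ?_
    simp only [Pi.sub_apply, sum_sub_distrib]
    rw [hsF]
  refine h2.trans ?_
  refine Asymptotics.isEquivalent_of_tendsto_one ?_
  have h3 := (log_ratio.rpow_const (p := 1 - γ) (Or.inl one_ne_zero))
  rw [Real.one_rpow] at h3
  refine h3.congr' ?_
  filter_upwards [log_top.eventually_gt_atTop 0, eventually_gt_atTop 0] with n hn hn0
  have hn' : (0 : ℝ) < n := by exact_mod_cast hn0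
  have hlt : Real.log n < Real.log ((n : ℝ) + 1) := Real.log_lt_log hn' (by linarith)
  have hl1 : 0 < Real.log ((n : ℝ) + 1) := hn.trans hlt
  simp only [Pi.div_apply]
  rw [hsG, Real.div_rpow hl1.le hn.le]
  have hp : 0 < Real.log n ^ (1 - γ) := Real.rpow_pos_of_pos hn _
  field_simp

/-- one step of the recursion -/
theorem corr_step_logpow {m₁ m₂ : ℕ → ℝ} (h₁ : Corr m₁) (h₂ : Corr m₂) {c₁ c₂ e₁ e₂ : ℝ} (hc₁ : 0 < c₁) (hc₂ : 0 < c₂)
    (he₁ : 0 ≤ e₁) (he₂ : 0 ≤ e₂) (he : e₁ + e₂ < 2)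
    (a₁ : Asymptotics.IsEquivalent atTop m₁ (fun n : ℕ => c₁ * (Real.log n) ^ e₁))
    (a₂ : Asymptotics.IsEquivalent atTop m₂ (fun n : ℕ => c₂ * (Real.log n) ^ e₂)) :
    ∃ c > (0 : ℝ), Asymptotics.IsEquivalent atTop (fun n => 1 + mm (fun k => Real.sqrt (m₁ k * m₂ k)) n)
      (fun n : ℕ => c * (Real.log n) ^ (1 - (e₁ + e₂) / 2)) := by
  have hlog : ∀ n : ℕ, 0 ≤ Real.log n := fun n => Real.log_natCast_nonneg n
  have h1 : Asymptotics.IsEquivalent atTop (fun k => Real.sqrt (m₁ k * m₂ k))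
      (fun n : ℕ => Real.sqrt (c₁ * c₂) * (Real.log n) ^ ((e₁ + e₂) / 2)) := by
    have h2 := Asymptotics.IsEquivalent.rpow (r := 1 / 2) (v := (fun n : ℕ => c₁ * (Real.log n) ^ e₁) *
      (fun n : ℕ => c₂ * (Real.log n) ^ e₂)) (fun n => ?_) (a₁.mul a₂)
    · refine (h2.congr_left (Eventually.of_forall fun n => ?_)).congr_right ?_
      · simp only [Pi.mul_apply, Real.sqrt_eq_rpow, Pi.pow_apply]
      · filter_upwards [LogPow.log_top.eventually_gt_atTop 0] with n hn
        simp only [Pi.mul_apply, Pi.pow_apply]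
        rw [Real.sqrt_eq_rpow]
        have e1 : c₁ * Real.log n ^ e₁ * (c₂ * Real.log n ^ e₂) = (c₁ * c₂) * Real.log n ^ (e₁ + e₂) := by
          rw [Real.rpow_add hn]
          ring
        rw [e1, Real.mul_rpow (by positivity) (Real.rpow_nonneg hn.le _), ← Real.rpow_mul hn.le]
        congr 2
        ring
    · simp only [Pi.mul_apply, Pi.zero_apply]
      have := Real.rpow_nonneg (hlog n) e₁
      have := Real.rpow_nonneg (hlog n) e₂
      positivity
  have hsq : 0 < Real.sqrt (c₁ * c₂) := Real.sqrt_pos.2 (mul_pos hc₁ hc₂)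
  have hpos : ∀ n, 1 ≤ n → 0 < Real.sqrt (m₁ n * m₂ n) := by
    intro n _
    have := h₁.props.1 n
    have := h₂.props.1 n
    exact Real.sqrt_pos.2 (by positivity)
  have h3 := mm_logpow hsq (by linarith : 0 ≤ (e₁ + e₂) / 2) (by linarith) hpos h1
  have hs : 0 < 1 - (e₁ + e₂) / 2 := by linarith
  have hK : 0 < 1 / (Real.sqrt (c₁ * c₂) * (1 - (e₁ + e₂) / 2)) := by positivity
  refine ⟨_, hK, ?_⟩
  refine Asymptotics.IsEquivalent.const_add_of_norm_tendsto_atTop h3 ?_
  exact tendsto_norm_atTop_atTop.comp (((tendsto_rpow_atTop hs).comp LogPow.log_top).const_mul_atTop hK)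

theorem corr_logpow (k : ℕ) : ∀ j : ℕ, j ≤ 2 ^ k → ∃ m : ℕ → ℝ, Corr m ∧ ∃ c > (0 : ℝ),
    Asymptotics.IsEquivalent atTop m (fun n : ℕ => c * (Real.log n) ^ ((j : ℝ) / 2 ^ k)) := by
  have h0 : ∀ k : ℕ, ∃ m : ℕ → ℝ, Corr m ∧ ∃ c > (0 : ℝ),
      Asymptotics.IsEquivalent atTop m (fun n : ℕ => c * (Real.log n) ^ (((0 : ℕ) : ℝ) / 2 ^ k)) := by
    intro k
    refine ⟨_, Corr.one, 1, one_pos, ?_⟩
    refine Filter.EventuallyEq.isEquivalent (Eventually.of_forall fun n => ?_)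
    simp
  induction k with
  | zero =>
    intro j hj
    rcases Nat.eq_zero_or_pos j with rfl | hj0
    · exact h0 0
    · have hj1 : j = 1 := by
        simp at hj
        omega
      subst hj1
      have h1 : Asymptotics.IsEquivalent atTop (fun _ : ℕ => (1 : ℝ)) (fun n : ℕ => 1 * (Real.log n) ^ (0 : ℝ)) :=
        Filter.EventuallyEq.isEquivalent (Eventually.of_forall fun n => by simp)
      obtain ⟨c, hc, h2⟩ := corr_step_logpow Corr.one Corr.one one_pos one_pos le_rfl le_rfl (by norm_num) h1 h1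
      refine ⟨_, Corr.step _ _ Corr.one Corr.one, c, hc, ?_⟩
      simpa using h2
  | succ k ih =>
    intro j hj
    rcases Nat.eq_zero_or_pos j with rfl | hj0
    · exact h0 (k + 1)
    · have hp : 2 ^ (k + 1) = 2 * 2 ^ k := by ring
      obtain ⟨j₁, j₂, hj₁, hj₂, hjj⟩ : ∃ j₁ j₂ : ℕ, j₁ ≤ 2 ^ k ∧ j₂ ≤ 2 ^ k ∧ j₁ + j₂ + j = 2 ^ (k + 1) :=
        ⟨min (2 ^ (k + 1) - j) (2 ^ k), (2 ^ (k + 1) - j) - min (2 ^ (k + 1) - j) (2 ^ k), by omega, by omega, by omega⟩
      obtain ⟨m₁, hm₁, c₁, hc₁, a₁⟩ := ih j₁ hj₁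
      obtain ⟨m₂, hm₂, c₂, hc₂, a₂⟩ := ih j₂ hj₂
      have hjr : (j₁ : ℝ) + j₂ + j = 2 * 2 ^ k := by
        have : ((j₁ + j₂ + j : ℕ) : ℝ) = ((2 ^ (k + 1) : ℕ) : ℝ) := by rw [hjj]
        push_cast at this
        rw [this]
        ring
      have h2k : (0 : ℝ) < 2 ^ k := by positivity
      have hj0' : (0 : ℝ) < j := by exact_mod_cast hj0
      have e1 : (j₁ : ℝ) / 2 ^ k + (j₂ : ℝ) / 2 ^ k < 2 := by
        rw [← add_div, div_lt_iff₀ h2k]
        linarith
      obtain ⟨c, hc, h2⟩ := corr_step_logpow hm₁ hm₂ hc₁ hc₂ (by positivity) (by positivity) e1 a₁ a₂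
      refine ⟨_, Corr.step _ _ hm₁ hm₂, c, hc, ?_⟩
      have e2 : 1 - ((j₁ : ℝ) / 2 ^ k + (j₂ : ℝ) / 2 ^ k) / 2 = (j : ℝ) / 2 ^ (k + 1) := by
        rw [pow_succ]
        field_simp
        linarith
      rw [e2] at h2
      exact h2

end Pool.Agent.RDL
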