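import Mathlib

/-!
# A correction of the order of `(log log n) ^ (-1/2)` is not a power of `n` times a power of `log n`
-/

set_option autoImplicit false

namespace Pool.Agent.RDL

open Filter Topology

/-- three logarithmic scales are independent -/
theorem scales {L₁ L₂ L₃ : ℕ → ℝ} (h1 : Tendsto L₁ atTop atTop) (h2 : L₂ =o[atTop] L₁) (h3 : L₃ =o[atTop] L₂)
    (t2 : Tendsto L₂ atTop atTop) (t3 : Tendsto L₃ atTop atTop) {a b K : ℝ}
    (h : ∀ᶠ n in atTop, |a * L₁ n + b * L₂ n + 1 / 2 * L₃ n| ≤ K) : False := by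
  have key : ∀ {f g : ℕ → ℝ}, f =o[atTop] g → Tendsto (fun n => f n / g n) atTop (𝓝 0) := fun hfg =>
    hfg.tendsto_div_nhds_zero
  have hlim : ∀ {g : ℕ → ℝ} {F : ℕ → ℝ}, Tendsto g atTop atTop → (∀ᶠ n in atTop, |F n| ≤ K) →
      Tendsto (fun n => F n / g n) atTop (𝓝 0) := by
    intro g F hg hF
    have h4 : Tendsto (fun n => K / g n) atTop (𝓝 0) := hg.const_div_atTop K
    refine squeeze_zero_norm' ?_ h4
    filter_upwards [hF, hg.eventually_gt_atTop 0] with n hn hgn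
    rw [Real.norm_eq_abs, abs_div, abs_of_pos hgn]
    exact div_le_div_of_nonneg_right hn hgn.le
  -- `a = 0`
  have ha : a = 0 := by
    have h4 := hlim h1 h
    have h5 : Tendsto (fun n => a + b * (L₂ n / L₁ n) + 1 / 2 * (L₃ n / L₁ n)) atTop (𝓝 (a + b * 0 + 1 / 2 * 0)) :=
      (tendsto_const_nhds.add ((key h2).const_mul b)).add ((key (h3.trans h2)).const_mul (1 / 2))
    have h6 : Tendsto (fun n => a + b * (L₂ n / L₁ n) + 1 / 2 * (L₃ n / L₁ n)) atTop (𝓝 0) := by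
      refine h4.congr' ?_
      filter_upwards [h1.eventually_gt_atTop 0] with n hn
      field_simp
    have := tendsto_nhds_unique h5 h6
    linarith
  have hb : b = 0 := by
    have h4 := hlim t2 h
    have h5 : Tendsto (fun n => b + 1 / 2 * (L₃ n / L₂ n)) atTop (𝓝 (b + 1 / 2 * 0)) :=
      tendsto_const_nhds.add ((key h3).const_mul (1 / 2))
    have h6 : Tendsto (fun n => b + 1 / 2 * (L₃ n / L₂ n)) atTop (𝓝 0) := by
      refine h4.congr' ?_
      filter_upwards [t2.eventually_gt_atTop 0] with n hn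
      rw [ha]
      field_simp
      ring
    have := tendsto_nhds_unique h5 h6
    linarith
  obtain ⟨n, hn1, hn2⟩ := (h.and (t3.eventually_gt_atTop (2 * K))).exists
  rw [ha, hb, abs_le] at hn1
  linarith [hn1.2]

theorem not_equivalent {f : ℕ → ℝ} {ρ c₁ C₁ : ℝ} (hρ : 0 < ρ) (hc₁ : 0 < c₁)
    (h : ∀ᶠ n : ℕ in atTop,
      c₁ * ((n : ℝ) ^ (-(3 / 2) : ℝ) * (Real.log (Real.log n)) ^ (-(1 / 2) : ℝ) * ρ ^ (2 * n)) ≤ f n ∧
      f n ≤ C₁ * ((n : ℝ) ^ (-(3 / 2) : ℝ) * (Real.log (Real.log n)) ^ (-(1 / 2) : ℝ) * ρ ^ (2 * n)))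
    (d b c : ℝ) (hc : 0 < c) :
    ¬ Asymptotics.IsEquivalent atTop f (fun n : ℕ => c * (n : ℝ) ^ (-d) * (Real.log n) ^ (-b) * ρ ^ (2 * n)) := by
  intro hE
  have l1 : Tendsto (fun n : ℕ => Real.log n) atTop atTop := Real.tendsto_log_atTop.comp tendsto_natCast_atTop_atTop
  have l2 : Tendsto (fun n : ℕ => Real.log (Real.log n)) atTop atTop := Real.tendsto_log_atTop.comp l1
  have l3 : Tendsto (fun n : ℕ => Real.log (Real.log (Real.log n))) atTop atTop := Real.tendsto_log_atTop.comp l2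
  have o2 : (fun n : ℕ => Real.log (Real.log n)) =o[atTop] fun n : ℕ => Real.log n :=
    Real.isLittleO_log_id_atTop.comp_tendsto l1
  have o3 : (fun n : ℕ => Real.log (Real.log (Real.log n))) =o[atTop] fun n : ℕ => Real.log (Real.log n) :=
    Real.isLittleO_log_id_atTop.comp_tendsto l2
  -- the ratio
  have hgpos : ∀ᶠ n : ℕ in atTop, 0 < c * (n : ℝ) ^ (-d) * (Real.log n) ^ (-b) * ρ ^ (2 * n) := by
    filter_upwards [l1.eventually_gt_atTop 0, eventually_gt_atTop 0] with n hn hn0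
    have : (0 : ℝ) < n := by exact_mod_cast hn0
    have := Real.rpow_pos_of_pos this (-d)
    have := Real.rpow_pos_of_pos hn (-b)
    positivity
  have hr : Tendsto (fun n => f n / (c * (n : ℝ) ^ (-d) * (Real.log n) ^ (-b) * ρ ^ (2 * n))) atTop (𝓝 1) :=
    (Asymptotics.isEquivalent_iff_tendsto_one (hgpos.mono fun n hn => hn.ne')).1 hE
  have hr1 : ∀ᶠ n in atTop, 1 / 2 < f n / (c * (n : ℝ) ^ (-d) * (Real.log n) ^ (-b) * ρ ^ (2 * n)) :=
    hr.eventually (lt_mem_nhds (by norm_num))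
  have hr2 : ∀ᶠ n in atTop, f n / (c * (n : ℝ) ^ (-d) * (Real.log n) ^ (-b) * ρ ^ (2 * n)) < 2 :=
    hr.eventually (gt_mem_nhds (by norm_num))
  obtain ⟨D, hD⟩ : ∃ D : ℝ, D = max C₁ 1 := ⟨_, rfl⟩
  have hD1 : 0 < D := by
    rw [hD]
    exact lt_of_lt_of_le one_pos (le_max_right _ _)
  obtain ⟨K, hK⟩ : ∃ K : ℝ, K = |Real.log (2 * D / c)| + |Real.log (c₁ / (2 * c))| := ⟨_, rfl⟩
  refine scales (a := 3 / 2 - d) (b := -b) (K := K) l1 o2 o3 l2 l3 ?_
  filter_upwards [h, hgpos, hr1, hr2, l2.eventually_gt_atTop 0, l1.eventually_gt_atTop 0, eventually_gt_atTop 0] with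
    n hn hg r1 r2 hL2 hL1 hn0
  have hn0' : (0 : ℝ) < n := by exact_mod_cast hn0
  obtain ⟨L, hL⟩ : ∃ L, L = Real.log (n : ℝ) := ⟨_, rfl⟩
  rw [← hL] at hn hg r1 r2 hL2 hL1 ⊢
  obtain ⟨M, hM⟩ : ∃ M, M = Real.log L := ⟨_, rfl⟩
  rw [← hM] at hn hL2 ⊢
  have p1 : 0 < (n : ℝ) ^ (-(3 / 2) : ℝ) := Real.rpow_pos_of_pos hn0' _
  have p2 : 0 < M ^ (-(1 / 2) : ℝ) := Real.rpow_pos_of_pos hL2 _
  have p3 : 0 < (n : ℝ) ^ (-d) := Real.rpow_pos_of_pos hn0' _
  have p4 : 0 < L ^ (-b) := Real.rpow_pos_of_pos hL1 _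
  have p5 : 0 < ρ ^ (2 * n) := by positivity
  rw [lt_div_iff₀ hg] at r1
  rw [div_lt_iff₀ hg] at r2
  -- the quotient `q = n^{-d} L^{-b} / (n^{-3/2} M^{-1/2})`
  obtain ⟨q, hq⟩ : ∃ q : ℝ, q = ((n : ℝ) ^ (-d) * L ^ (-b)) / ((n : ℝ) ^ (-(3 / 2) : ℝ) * M ^ (-(1 / 2) : ℝ)) := ⟨_, rfl⟩
  have hq0 : 0 < q := by rw [hq]; positivity
  have hlog : Real.log q = (3 / 2 - d) * L + -b * M + 1 / 2 * Real.log M := by
    rw [hq, Real.log_div (by positivity) (by positivity), Real.log_mul p3.ne' p4.ne', Real.log_mul p1.ne' p2.ne',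
      Real.log_rpow hn0', Real.log_rpow hL1, Real.log_rpow hn0', Real.log_rpow hL2, ← hL, ← hM]
    ring
  rw [← hlog]
  have e1 : (n : ℝ) ^ (-d) * L ^ (-b) = q * ((n : ℝ) ^ (-(3 / 2) : ℝ) * M ^ (-(1 / 2) : ℝ)) := by
    rw [hq]
    field_simp
  have e2 : c * (n : ℝ) ^ (-d) * L ^ (-b) * ρ ^ (2 * n) =
      c * q * ((n : ℝ) ^ (-(3 / 2) : ℝ) * M ^ (-(1 / 2) : ℝ) * ρ ^ (2 * n)) := by
    calc c * (n : ℝ) ^ (-d) * L ^ (-b) * ρ ^ (2 * n) = c * ((n : ℝ) ^ (-d) * L ^ (-b)) * ρ ^ (2 * n) := by ring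
      _ = _ := by
        rw [e1]
        ring
  rw [e2] at r1 r2
  obtain ⟨P, hP⟩ : ∃ P : ℝ, P = (n : ℝ) ^ (-(3 / 2) : ℝ) * M ^ (-(1 / 2) : ℝ) * ρ ^ (2 * n) := ⟨_, rfl⟩
  have hP0 : 0 < P := by rw [hP]; positivity
  rw [← hP] at r1 r2 hn
  have u1 : q < 2 * D / c := by
    have h5 : 1 / 2 * (c * q * P) < D * P :=
      r1.trans_le (hn.2.trans (mul_le_mul_of_nonneg_right (by rw [hD]; exact le_max_left _ _) hP0.le))
    have h6 : (1 / 2 * (c * q)) * P < D * P := by linarith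
    have h7 := lt_of_mul_lt_mul_right h6 hP0.le
    rw [lt_div_iff₀ hc]
    linarith
  have u2 : c₁ / (2 * c) < q := by
    have h5 : c₁ * P < 2 * (c * q * P) := lt_of_le_of_lt hn.1 r2
    have h6 : c₁ * P < (2 * (c * q)) * P := by linarith
    have h7 := lt_of_mul_lt_mul_right h6 hP0.le
    rw [div_lt_iff₀ (by positivity)]
    linarith
  have v1 : Real.log q ≤ Real.log (2 * D / c) := Real.log_le_log hq0 u1.le
  have v2 : Real.log (c₁ / (2 * c)) ≤ Real.log q := Real.log_le_log (by positivity) u2.le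
  rw [hK, abs_le]
  have w1 := le_abs_self (Real.log (2 * D / c))
  have w2 := neg_abs_le (Real.log (c₁ / (2 * c)))
  have w3 := abs_nonneg (Real.log (2 * D / c))
  have w4 := abs_nonneg (Real.log (c₁ / (2 * c)))
  constructor <;> linarith

end Pool.Agent.RDL
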