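import Pool.Agent.RDL.Defs

/-!
# The norm of the convolution from two-sided bounds for the return probabilities (Kesten)
-/

set_option autoImplicit false

namespace Pool.Agent.RDL

open Finset Filter Topology

namespace NormW

variable {G : Type} [Group G]

/-- left translation -/
noncomputable def tr (y : G) : (G →₀ ℝ) →ₗ[ℝ] (G →₀ ℝ) := Finsupp.lmapDomain ℝ ℝ (fun x => y * x)

theorem tr_apply (y : G) (f : G →₀ ℝ) (x : G) : tr y f x = f (y⁻¹ * x) := by
  have h : x = y * (y⁻¹ * x) := by group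
  rw [tr, Finsupp.lmapDomain_apply]
  conv_lhs => rw [h]
  exact Finsupp.mapDomain_apply (fun a b hab => mul_left_cancel hab) f (y⁻¹ * x)

/-- the convolution operator on finitely supported functions -/
noncomputable def op (ν : G →₀ ℝ) : (G →₀ ℝ) →ₗ[ℝ] (G →₀ ℝ) := ∑ y ∈ ν.support, ν y • tr y

theorem op_apply (ν f : G →₀ ℝ) (x : G) : op ν f x = cv ν f x := by
  rw [op, LinearMap.sum_apply, Finsupp.finsetSum_apply, cv, Finsupp.sum]
  refine Finset.sum_congr rfl fun y _ => ?_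
  rw [LinearMap.smul_apply, Finsupp.smul_apply, tr_apply, smul_eq_mul]

/-- the inner product -/
noncomputable def ip (f g : G →₀ ℝ) : ℝ := Finsupp.linearCombination ℝ (fun x => g x) f

theorem ip_sum (f g : G →₀ ℝ) {s : Finset G} (hs : f.support ⊆ s) : ip f g = ∑ x ∈ s, f x * g x := by
  rw [ip, Finsupp.linearCombination_apply, Finsupp.sum_of_support_subset f hs]
  · rfl
  · intro x _
    exact zero_smul ℝ _

theorem ip_comm (f g : G →₀ ℝ) : ip f g = ip g f := by
  classical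
  rw [ip_sum f g (s := f.support ∪ g.support) subset_union_left,
    ip_sum g f (s := f.support ∪ g.support) subset_union_right]
  exact Finset.sum_congr rfl fun x _ => mul_comm _ _

theorem ip_sum_left {ι : Type} (s : Finset ι) (a : ι → ℝ) (h : ι → G →₀ ℝ) (g : G →₀ ℝ) :
    ip (∑ i ∈ s, a i • h i) g = ∑ i ∈ s, a i * ip (h i) g := by
  rw [ip, map_sum]
  refine Finset.sum_congr rfl fun i _ => ?_
  rw [map_smul]
  rfl

theorem ip_sum_right {ι : Type} (s : Finset ι) (a : ι → ℝ) (h : ι → G →₀ ℝ) (g : G →₀ ℝ) :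
    ip g (∑ i ∈ s, a i • h i) = ∑ i ∈ s, a i * ip g (h i) := by
  rw [ip_comm, ip_sum_left]
  exact Finset.sum_congr rfl fun i _ => by rw [ip_comm]

theorem ip_self_nonneg (f : G →₀ ℝ) : 0 ≤ ip f f := by
  rw [ip_sum f f (subset_refl _)]
  exact Finset.sum_nonneg fun x _ => mul_self_nonneg _

theorem ip_self (f : G →₀ ℝ) : ip f f = f.sum (fun _ a => a ^ 2) := by
  rw [ip_sum f f (subset_refl _), Finsupp.sum]
  exact Finset.sum_congr rfl fun x _ => (sq _).symm

theorem ip_cs (f g : G →₀ ℝ) : ip f g ^ 2 ≤ ip f f * ip g g := by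
  classical
  rw [ip_sum f g (s := f.support ∪ g.support) subset_union_left,
    ip_sum f f (s := f.support ∪ g.support) subset_union_left,
    ip_sum g g (s := f.support ∪ g.support) subset_union_right]
  have := Finset.sum_mul_sq_le_sq_mul_sq (f.support ∪ g.support) (fun x => f x) (fun x => g x)
  simpa only [sq] using this

theorem ip_tr (y : G) (f g : G →₀ ℝ) : ip (tr y f) g = ip f (tr y⁻¹ g) := by
  rw [ip, tr, Finsupp.lmapDomain_apply, Finsupp.linearCombination_mapDomain, ip]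
  congr 2
  funext x
  rw [tr_apply, inv_inv]
  rfl

theorem ip_op {ν : G →₀ ℝ} (hν : SP ν) (f g : G →₀ ℝ) : ip (op ν f) g = ip f (op ν g) := by
  have h1 : op ν f = ∑ y ∈ ν.support, ν y • tr y f := by
    rw [op, LinearMap.sum_apply]
    exact Finset.sum_congr rfl fun y _ => rfl
  have h2 : op ν g = ∑ y ∈ ν.support, ν y • tr y g := by
    rw [op, LinearMap.sum_apply]
    exact Finset.sum_congr rfl fun y _ => rfl
  rw [h1, h2, ip_sum_left, ip_sum_right]
  have hs : ∀ y ∈ ν.support, y⁻¹ ∈ ν.support := by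
    intro y hy
    rw [Finsupp.mem_support_iff] at hy ⊢
    rwa [hν.symm]
  refine Finset.sum_nbij' (fun y => y⁻¹) (fun y => y⁻¹) hs hs (fun y _ => inv_inv y) (fun y _ => inv_inv y) ?_
  intro y _
  rw [hν.symm, ip_tr]

theorem ip_pow {ν : G →₀ ℝ} (hν : SP ν) (k : ℕ) : ∀ f g : G →₀ ℝ, ip ((op ν)^[k] f) g = ip f ((op ν)^[k] g) := by
  induction k with
  | zero => intro f g; rfl
  | succ k ih =>
    intro f g
    rw [Function.iterate_succ_apply, ih, ip_op hν, ← Function.iterate_succ_apply' (op ν)]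

theorem pow_single (ν : G →₀ ℝ) (y : G) (k : ℕ) : ∀ x, (op ν)^[k] (Finsupp.single y 1) x = pw ν k (x * y⁻¹) := by
  classical
  induction k with
  | zero =>
    intro x
    show Finsupp.single y (1 : ℝ) x = dl (x * y⁻¹)
    rw [dl, Finsupp.single_apply, Set.indicator_apply]
    simp only [Set.mem_singleton_iff, mul_inv_eq_one]
    by_cases h : y = x
    · rw [if_pos h, if_pos h.symm]
    · rw [if_neg h, if_neg (fun h' => h h'.symm)]
  | succ k ih =>
    intro x
    rw [Function.iterate_succ_apply', op_apply, pw, Function.iterate_succ_apply']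
    show cv ν _ x = cv ν (pw ν k) (x * y⁻¹)
    rw [cv, cv]
    refine Finset.sum_congr rfl fun s _ => ?_
    show ν s * _ = ν s * _
    rw [ih, mul_assoc]

theorem ip_single (y : G) (g : G →₀ ℝ) : ip (Finsupp.single y 1) g = g y := by
  rw [ip, Finsupp.linearCombination_single, one_smul]

theorem ip_pow_single {ν : G →₀ ℝ} (hν : SP ν) (y : G) (k : ℕ) :
    ip ((op ν)^[k] (Finsupp.single y 1)) ((op ν)^[k] (Finsupp.single y 1)) = rt ν (2 * k) := by
  rw [ip_pow hν, ip_single, ← Function.iterate_add_apply, pow_single, mul_inv_cancel, rt, two_mul]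

theorem rt_nonneg {ν : G →₀ ℝ} (hν : SP ν) (k : ℕ) : 0 ≤ rt ν (2 * k) := by
  rw [← ip_pow_single hν 1 k]
  exact ip_self_nonneg _

/-- the size of the iterates -/
theorem pow_le {ν : G →₀ ℝ} (hν : SP ν) (g : G →₀ ℝ) (k : ℕ) :
    ip ((op ν)^[k] g) ((op ν)^[k] g) ≤ (∑ y ∈ g.support, |g y|) ^ 2 * rt ν (2 * k) := by
  have hg : g = ∑ y ∈ g.support, g y • Finsupp.single y (1 : ℝ) := by
    conv_lhs => rw [← Finsupp.sum_single g]
    rw [Finsupp.sum]
    refine Finset.sum_congr rfl fun y _ => ?_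
    rw [Finsupp.smul_single, smul_eq_mul, mul_one]
  have hpow : (op ν)^[k] g = ∑ y ∈ g.support, g y • (op ν)^[k] (Finsupp.single y (1 : ℝ)) := by
    have h1 : ∀ f : G →₀ ℝ, (op ν)^[k] f = (op ν ^ k) f := by
      intro f
      rw [Module.End.pow_apply]
    conv_lhs => rw [hg]
    rw [h1, map_sum]
    refine Finset.sum_congr rfl fun y _ => ?_
    rw [map_smul, h1]
  rw [hpow, ip_sum_left]
  have hb : ∀ y y' : G, |ip ((op ν)^[k] (Finsupp.single y 1)) ((op ν)^[k] (Finsupp.single y' 1))| ≤ rt ν (2 * k) := by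
    intro y y'
    have h1 := ip_cs ((op ν)^[k] (Finsupp.single y 1)) ((op ν)^[k] (Finsupp.single y' 1))
    rw [ip_pow_single hν, ip_pow_single hν] at h1
    exact abs_le_of_sq_le_sq (by nlinarith [h1]) (rt_nonneg hν k)
  rw [sq, Finset.sum_mul, Finset.sum_mul]
  refine Finset.sum_le_sum fun y _ => ?_
  rw [ip_sum_right, mul_assoc]
  have h2 : |∑ i ∈ g.support, g i * ip ((op ν)^[k] (Finsupp.single y 1)) ((op ν)^[k] (Finsupp.single i 1))| ≤
      (∑ i ∈ g.support, |g i|) * rt ν (2 * k) := by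
    refine (Finset.abs_sum_le_sum_abs _ _).trans ?_
    rw [Finset.sum_mul]
    refine Finset.sum_le_sum fun i _ => ?_
    rw [abs_mul]
    exact mul_le_mul_of_nonneg_left (hb y i) (abs_nonneg _)
  calc g y * _ ≤ |g y * _| := le_abs_self _
    _ = |g y| * |_| := abs_mul _ _
    _ ≤ |g y| * ((∑ i ∈ g.support, |g i|) * rt ν (2 * k)) := mul_le_mul_of_nonneg_left h2 (abs_nonneg _)

/-- log convexity -/
theorem pow_convex {ν : G →₀ ℝ} (hν : SP ν) (g : G →₀ ℝ) (k : ℕ) :
    ip ((op ν)^[k + 1] g) ((op ν)^[k + 1] g) ^ 2 ≤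
      ip ((op ν)^[k] g) ((op ν)^[k] g) * ip ((op ν)^[k + 2] g) ((op ν)^[k + 2] g) := by
  have h1 : ip ((op ν)^[k + 1] g) ((op ν)^[k + 1] g) = ip ((op ν)^[k] g) ((op ν)^[k + 2] g) := by
    conv_lhs => rw [Function.iterate_succ_apply' (op ν) k g, ip_op hν, ← Function.iterate_succ_apply' (op ν)]
    rw [Function.iterate_succ_apply' (op ν) (k + 1) g]
  rw [h1]
  exact ip_cs _ _

end NormW

open NormW

/-- a log-convex sequence grows at least as fast as its first step -/
theorem convex_growth {a : ℕ → ℝ} (ha : ∀ k, 0 ≤ a k) (hc : ∀ k, a (k + 1) ^ 2 ≤ a k * a (k + 2)) (k : ℕ)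
    (h0 : 0 < a 0) (h1 : 0 < a 1) : 0 < a k ∧ a 1 * a k ≤ a 0 * a (k + 1) := by
  induction k with
  | zero => exact ⟨h0, by rw [mul_comm]⟩
  | succ k ih =>
    have h2 : 0 < a (k + 1) := by
      have h3 : 0 < a 0 * a (k + 1) := lt_of_lt_of_le (mul_pos h1 ih.1) ih.2
      exact (mul_pos_iff_of_pos_left h0).1 h3
    refine ⟨h2, ?_⟩
    have h3 := hc k
    have h4 : a 1 * a (k + 1) * a k ≤ a 0 * a (k + 1 + 1) * a k := by
      calc a 1 * a (k + 1) * a k = a (k + 1) * (a 1 * a k) := by ring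
        _ ≤ a (k + 1) * (a 0 * a (k + 1)) := mul_le_mul_of_nonneg_left ih.2 h2.le
        _ = a 0 * a (k + 1) ^ 2 := by ring
        _ ≤ a 0 * (a k * a (k + 2)) := mul_le_mul_of_nonneg_left h3 h0.le
        _ = a 0 * a (k + 1 + 1) * a k := by ring
    exact le_of_mul_le_mul_right h4 ih.1

theorem convex_pow {a : ℕ → ℝ} (ha : ∀ k, 0 ≤ a k) (hc : ∀ k, a (k + 1) ^ 2 ≤ a k * a (k + 2)) (k : ℕ)
    (h0 : 0 < a 0) (h1 : 0 < a 1) : (a 1 / a 0) ^ k * a 0 ≤ a k := by
  induction k with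
  | zero => rw [pow_zero, one_mul]
  | succ k ih =>
    have h2 := (convex_growth ha hc k h0 h1).2
    have h3 : a 1 / a 0 * a k ≤ a (k + 1) := by
      rw [div_mul_eq_mul_div, div_le_iff₀ h0]
      linarith
    calc (a 1 / a 0) ^ (k + 1) * a 0 = a 1 / a 0 * ((a 1 / a 0) ^ k * a 0) := by ring
      _ ≤ a 1 / a 0 * a k := mul_le_mul_of_nonneg_left ih (by positivity)
      _ ≤ a (k + 1) := h3

variable {G : Type} [Group G]

/-- Kesten: the norm from polynomial two-sided bounds -/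
theorem norm_of_asy {ν : G →₀ ℝ} (hν : SP ν) {z : ℝ} {φ : ℕ → ℝ} (h : Asy ν z φ)
    (hφ : ∃ c > (0 : ℝ), ∃ C : ℝ, ∀ n : ℕ, 1 ≤ n → c / (n : ℝ) ^ 4 ≤ φ n ∧ φ n ≤ C) : IsNrm ν (1 / z) := by
  obtain ⟨hz, c, C, hc, hb⟩ := h
  obtain ⟨c', hc', C', hb'⟩ := hφ
  have hz2 : 0 < z ^ 2 := by positivity
  constructor
  · intro g T
    have e1 : ∑ x ∈ T, (cv ν g x) ^ 2 ≤ ip (op ν g) (op ν g) := by
      classical
      rw [ip_sum (op ν g) (op ν g) (s := (op ν g).support ∪ T) subset_union_left]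
      calc ∑ x ∈ T, (cv ν g x) ^ 2 = ∑ x ∈ T, op ν g x * op ν g x := by
            refine Finset.sum_congr rfl fun x _ => ?_
            rw [op_apply, sq]
        _ ≤ _ := Finset.sum_le_sum_of_subset_of_nonneg subset_union_right fun x _ _ => mul_self_nonneg _
    refine e1.trans ?_
    rw [← ip_self]
    by_contra hcon
    push Not at hcon
    obtain ⟨a, ha⟩ : ∃ a : ℕ → ℝ, a = fun k => ip ((op ν)^[k] g) ((op ν)^[k] g) := ⟨_, rfl⟩
    have a0 : a 0 = ip g g := by rw [ha]; rfl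
    have a1 : a 1 = ip (op ν g) (op ν g) := by rw [ha]; rfl
    have hnn : ∀ k, 0 ≤ a k := fun k => by
      rw [ha]
      exact ip_self_nonneg _
    have hcx : ∀ k, a (k + 1) ^ 2 ≤ a k * a (k + 2) := fun k => by
      rw [ha]
      exact pow_convex hν g k
    have hle : ∀ k, a k ≤ (∑ y ∈ g.support, |g y|) ^ 2 * rt ν (2 * k) := fun k => by
      rw [ha]
      exact pow_le hν g k
    rw [← a0, ← a1] at hcon
    have ha1 : 0 < a 1 := lt_of_le_of_lt (mul_nonneg (by positivity) (hnn 0)) hcon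
    have ha0 : 0 < a 0 := by
      rcases eq_or_lt_of_le (hnn 0) with h0 | h0
      · exfalso
        have := hcx 0
        rw [← h0, zero_mul] at this
        nlinarith
      · exact h0
    obtain ⟨q, hq⟩ : ∃ q, q = a 1 / a 0 * z ^ 2 := ⟨_, rfl⟩
    have hq1 : 1 < q := by
      rw [hq, div_mul_eq_mul_div, lt_div_iff₀ ha0, one_mul]
      have : (1 / z) ^ 2 * a 0 * z ^ 2 < a 1 * z ^ 2 := mul_lt_mul_of_pos_right hcon hz2
      have e : (1 / z) ^ 2 * a 0 * z ^ 2 = a 0 := by
        field_simp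
      rwa [e] at this
    have hbd : ∀ k : ℕ, 1 ≤ k → q ^ k * a 0 ≤ (∑ y ∈ g.support, |g y|) ^ 2 * (|C| * C') := by
      intro k hk
      have h1 := convex_pow hnn hcx k ha0 ha1
      have h2 := (hb k hk).2
      have h3 := hb' k hk
      have hφ0 : 0 ≤ φ k := le_trans (by positivity) h3.1
      calc q ^ k * a 0 = ((a 1 / a 0) ^ k * a 0) * z ^ (2 * k) := by
            rw [hq, mul_pow, pow_mul]
            ring
        _ ≤ a k * z ^ (2 * k) := mul_le_mul_of_nonneg_right h1 (by positivity)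
        _ ≤ ((∑ y ∈ g.support, |g y|) ^ 2 * rt ν (2 * k)) * z ^ (2 * k) :=
            mul_le_mul_of_nonneg_right (hle k) (by positivity)
        _ = (∑ y ∈ g.support, |g y|) ^ 2 * (rt ν (2 * k) * z ^ (2 * k)) := by ring
        _ ≤ (∑ y ∈ g.support, |g y|) ^ 2 * (|C| * C') := by
            refine mul_le_mul_of_nonneg_left (h2.trans ?_) (by positivity)
            calc C * φ k ≤ |C| * φ k := mul_le_mul_of_nonneg_right (le_abs_self C) hφ0
              _ ≤ |C| * C' := mul_le_mul_of_nonneg_left h3.2 (abs_nonneg _)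
    have htend := tendsto_pow_atTop_atTop_of_one_lt hq1
    obtain ⟨k, hk1, hk⟩ := ((htend.eventually_gt_atTop
      (((∑ y ∈ g.support, |g y|) ^ 2 * (|C| * C')) / a 0)).and (eventually_ge_atTop 1)).exists
    rw [div_lt_iff₀ ha0] at hk1
    exact absurd (hbd k hk) (not_le.2 hk1)
  · intro r hr0 hr
    by_contra hcon
    push Not at hcon
    have hstep : ∀ n : ℕ, rt ν (2 * (n + 1)) ≤ r ^ 2 * rt ν (2 * n) := by
      intro n
      have h1 := hcon ((op ν)^[n] (Finsupp.single 1 1)) (op ν ((op ν)^[n] (Finsupp.single 1 1))).support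
      rw [← ip_self, ip_pow_single hν] at h1
      refine le_trans (le_of_eq ?_) h1
      rw [← ip_pow_single hν 1 (n + 1), Function.iterate_succ_apply',
        ip_sum _ _ (subset_refl _)]
      refine Finset.sum_congr rfl fun x _ => ?_
      rw [op_apply, sq]
    have hgeo : ∀ n : ℕ, rt ν (2 * n) ≤ (r ^ 2) ^ n := by
      intro n
      induction n with
      | zero =>
        have h := ip_pow_single hν (1 : G) 0
        have e : ip ((op ν)^[0] (Finsupp.single (1 : G) 1)) ((op ν)^[0] (Finsupp.single (1 : G) 1)) = 1 := by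
          show ip (Finsupp.single (1 : G) 1) (Finsupp.single (1 : G) 1) = 1
          rw [ip_single, Finsupp.single_eq_same]
        rw [e] at h
        rw [← h, pow_zero]
      | succ n ih =>
        calc rt ν (2 * (n + 1)) ≤ r ^ 2 * rt ν (2 * n) := hstep n
          _ ≤ r ^ 2 * (r ^ 2) ^ n := mul_le_mul_of_nonneg_left ih (by positivity)
          _ = (r ^ 2) ^ (n + 1) := by ring
    have hrz : r * z < 1 := by
      rwa [lt_div_iff₀ hz] at hr
    obtain ⟨s, hs⟩ : ∃ s, s = (r * z) ^ 2 := ⟨_, rfl⟩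
    have hs0 : 0 ≤ s := by rw [hs]; positivity
    have hs1 : s < 1 := by
      rw [hs]
      have := mul_nonneg hr0 hz.le
      nlinarith
    have hlim : Tendsto (fun n : ℕ => (n : ℝ) ^ 4 * s ^ n) atTop (𝓝 0) :=
      tendsto_pow_const_mul_const_pow_of_abs_lt_one 4 (by rwa [abs_of_nonneg hs0])
    obtain ⟨n, hn1, hn⟩ := ((hlim.eventually (gt_mem_nhds (mul_pos hc hc'))).and (eventually_ge_atTop 1)).exists
    have h1 := (hb n hn).1
    have h2 := (hb' n hn).1
    have hn0 : (0 : ℝ) < (n : ℝ) ^ 4 := by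
      have : (0 : ℝ) < n := by exact_mod_cast hn
      positivity
    have h3 : c * (c' / (n : ℝ) ^ 4) ≤ s ^ n := by
      calc c * (c' / (n : ℝ) ^ 4) ≤ c * φ n := mul_le_mul_of_nonneg_left h2 hc.le
        _ ≤ rt ν (2 * n) * z ^ (2 * n) := h1
        _ ≤ (r ^ 2) ^ n * z ^ (2 * n) := mul_le_mul_of_nonneg_right (hgeo n) (by positivity)
        _ = s ^ n := by
            rw [hs, mul_pow, mul_pow, pow_mul]
    have h4 : c * c' ≤ (n : ℝ) ^ 4 * s ^ n := by
      calc c * c' = (n : ℝ) ^ 4 * (c * (c' / (n : ℝ) ^ 4)) := by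
            field_simp
        _ ≤ _ := mul_le_mul_of_nonneg_left h3 hn0.le
    linarith

end Pool.Agent.RDL
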