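import Pool.Agent.RDL.Defs

/-!
# Return probabilities: basic facts
-/

set_option autoImplicit false

namespace Pool.Agent.RDL

open Finset Filter Topology

section
variable {G : Type} [Group G]

/-- the element of the group algebra -/
noncomputable def NN (ν : G →₀ ℝ) : MonoidAlgebra ℝ G := MonoidAlgebra.ofCoeff ν

theorem dl_apply (x : G) : (dl x : ℝ) = (1 : MonoidAlgebra ℝ G).coeff x := by
  classical
  rw [MonoidAlgebra.one_def]
  unfold dl
  rw [Set.indicator_apply]
  by_cases h : x = 1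
  · subst h
    simp
  · rw [if_neg (by simpa using h)]
    rw [MonoidAlgebra.coeff_single, Finsupp.single_apply, if_neg (fun h' => h h'.symm)]

theorem pw_eq (ν : G →₀ ℝ) (n : ℕ) : ∀ x : G, pw ν n x = ((NN ν) ^ n).coeff x := by
  induction n with
  | zero =>
    intro x
    rw [pow_zero, ← dl_apply]
    rfl
  | succ n ih =>
    intro x
    have h1 : pw ν (n + 1) x = cv ν (pw ν n) x := by
      unfold pw
      rw [Function.iterate_succ_apply']
    rw [h1, pow_succ', MonoidAlgebra.coeff_mul_apply_left]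
    unfold cv NN
    refine Finsupp.sum_congr ?_
    intro y _
    rw [ih]
    rfl

theorem pw_succ (ν : G →₀ ℝ) (n : ℕ) (x : G) :
    pw ν (n + 1) x = cv ν (pw ν n) x := by
  unfold pw
  rw [Function.iterate_succ_apply']

theorem rt_zero (ν : G →₀ ℝ) : rt ν 0 = 1 := by
  unfold rt pw dl
  simp

theorem pw_nonneg {ν : G →₀ ℝ} (hν : SP ν) (n : ℕ) : ∀ x : G, 0 ≤ pw ν n x := by
  induction n with
  | zero =>
    intro x
    unfold pw dl
    rw [Function.iterate_zero_apply]
    exact Set.indicator_nonneg (fun _ _ => zero_le_one) x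
  | succ n ih =>
    intro x
    rw [pw_succ]
    exact Finset.sum_nonneg fun y _ => mul_nonneg (hν.nonneg y) (ih _)

/-- the convolution powers have finite support -/
theorem pw_fin (ν : G →₀ ℝ) (n : ℕ) : (Function.support (pw ν n)).Finite := by
  have h : pw ν n = ((NN ν) ^ n).coeff := funext (pw_eq ν n)
  rw [h]
  exact Finsupp.hasFiniteSupport _

theorem cv_finsum (ν : G →₀ ℝ) (h : G → ℝ) (x : G) :
    cv ν h x = ∑ᶠ y, ν y * h (y⁻¹ * x) := by
  unfold cv
  rw [finsum_eq_sum_of_support_subset (s := ν.support)]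
  · rfl
  · intro y hy
    rw [Function.mem_support] at hy
    rw [Finset.mem_coe, Finsupp.mem_support_iff]
    intro h0
    exact hy (by rw [h0, zero_mul])

theorem pw_add (ν : G →₀ ℝ) (m n : ℕ) (x : G) :
    pw ν (m + n) x = ∑ᶠ y, pw ν m y * pw ν n (y⁻¹ * x) := by
  rw [pw_eq, pow_add, MonoidAlgebra.coeff_mul_apply_left]
  rw [finsum_eq_sum_of_support_subset (s := ((NN ν) ^ m).coeff.support)]
  · refine Finset.sum_congr rfl fun y _ => ?_
    rw [pw_eq, pw_eq]
  · intro y hy
    rw [Function.mem_support] at hy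
    rw [Finset.mem_coe, Finsupp.mem_support_iff]
    intro h0
    exact hy (by rw [pw_eq, h0, zero_mul])

theorem pw_succ_right (ν : G →₀ ℝ) (n : ℕ) (x : G) :
    pw ν (n + 1) x = ∑ᶠ y, ν y * pw ν n (x * y⁻¹) := by
  rw [pw_eq, pow_succ, MonoidAlgebra.coeff_mul_apply_right]
  rw [finsum_eq_sum_of_support_subset (s := ν.support)]
  · refine Finset.sum_congr rfl fun y _ => ?_
    rw [pw_eq, mul_comm]
    rfl
  · intro y hy
    rw [Function.mem_support] at hy
    rw [Finset.mem_coe, Finsupp.mem_support_iff]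
    intro h0
    exact hy (by rw [h0, zero_mul])

theorem pw_inv {ν : G →₀ ℝ} (hν : SP ν) (n : ℕ) : ∀ x : G, pw ν n x⁻¹ = pw ν n x := by
  induction n with
  | zero =>
    intro x
    classical
    unfold pw dl
    rw [Function.iterate_zero_apply, Set.indicator_apply, Set.indicator_apply]
    simp only [Set.mem_singleton_iff, inv_eq_one]
  | succ n ih =>
    intro x
    rw [pw_succ_right, pw_succ, cv_finsum, ← finsum_comp_equiv (Equiv.inv G)]
    refine finsum_congr fun y => ?_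
    rw [Equiv.inv_apply, hν.symm y, inv_inv]
    congr 1
    rw [← ih, mul_inv_rev, inv_inv]

theorem rt_add {ν : G →₀ ℝ} (hν : SP ν) (m n : ℕ) :
    rt ν (m + n) = ∑ᶠ y, pw ν m y * pw ν n y := by
  unfold rt
  rw [pw_add]
  refine finsum_congr fun y => ?_
  rw [mul_one, pw_inv hν]

/-- a common finite support -/
theorem rt_add_sum {ν : G →₀ ℝ} (hν : SP ν) (m n : ℕ) (s : Finset G)
    (hs : ∀ y, pw ν m y ≠ 0 → y ∈ s) :
    rt ν (m + n) = ∑ y ∈ s, pw ν m y * pw ν n y := by
  rw [rt_add hν]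
  refine finsum_eq_sum_of_support_subset _ ?_
  intro y hy
  rw [Function.mem_support] at hy
  exact Finset.mem_coe.mpr (hs y (left_ne_zero_of_mul hy))

theorem rt_mul_le {ν : G →₀ ℝ} (hν : SP ν) (m n : ℕ) : rt ν m * rt ν n ≤ rt ν (m + n) := by
  classical
  rw [rt_add_sum hν m n ((pw_fin ν m).toFinset ∪ {1})
    (fun y hy => Finset.mem_union_left _ ((pw_fin ν m).mem_toFinset.mpr hy))]
  have h1 : (1 : G) ∈ (pw_fin ν m).toFinset ∪ {1} := by simp
  exact Finset.single_le_sum (f := fun y => pw ν m y * pw ν n y)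
    (fun y _ => mul_nonneg (pw_nonneg hν m y) (pw_nonneg hν n y)) h1

theorem pw_one (ν : G →₀ ℝ) (x : G) : pw ν 1 x = ν x := by
  rw [pw_eq, pow_one]
  rfl

theorem rt_two_pos {ν : G →₀ ℝ} (hν : SP ν) : 0 < rt ν 2 := by
  have hex : ∃ y, ν y ≠ 0 := by
    by_contra hcon
    push Not at hcon
    have : ν = 0 := Finsupp.ext hcon
    have h1 := hν.one
    rw [this] at h1
    simp at h1
  obtain ⟨y, hy⟩ := hex
  have h2 : rt ν (1 + 1) = ∑ y ∈ (pw_fin ν 1).toFinset, pw ν 1 y * pw ν 1 y :=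
    rt_add_sum hν 1 1 _ (fun y hy => (pw_fin ν 1).mem_toFinset.mpr hy)
  have h3 : (1 + 1 : ℕ) = 2 := rfl
  rw [h3] at h2
  rw [h2]
  refine Finset.sum_pos' (fun y _ => mul_self_nonneg _) ⟨y, ?_, ?_⟩
  · rw [Set.Finite.mem_toFinset, Function.mem_support, pw_one]
    exact hy
  · rw [pw_one]
    exact mul_self_pos.mpr hy

theorem rt_pos {ν : G →₀ ℝ} (hν : SP ν) (n : ℕ) : 0 < rt ν (2 * n) := by
  induction n with
  | zero =>
    rw [mul_zero, rt_zero]
    exact zero_lt_one
  | succ n ih =>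
    rw [mul_add, mul_one]
    exact lt_of_lt_of_le (mul_pos ih (rt_two_pos hν)) (rt_mul_le hν _ _)

theorem rt_sq_le {ν : G →₀ ℝ} (hν : SP ν) (n : ℕ) :
    rt ν (2 * (n + 1)) ^ 2 ≤ rt ν (2 * n) * rt ν (2 * (n + 2)) := by
  classical
  have e1 : 2 * (n + 1) = n + (n + 2) := by ring
  have e2 : 2 * n = n + n := by ring
  have e3 : 2 * (n + 2) = (n + 2) + (n + 2) := by ring
  have hs1 : ∀ y, pw ν n y ≠ 0 → y ∈ (pw_fin ν n).toFinset ∪ (pw_fin ν (n + 2)).toFinset :=
    fun y hy => Finset.mem_union_left _ ((pw_fin ν n).mem_toFinset.mpr hy)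
  have hs2 : ∀ y, pw ν (n + 2) y ≠ 0 →
      y ∈ (pw_fin ν n).toFinset ∪ (pw_fin ν (n + 2)).toFinset :=
    fun y hy => Finset.mem_union_right _ ((pw_fin ν (n + 2)).mem_toFinset.mpr hy)
  rw [e1, e2, e3, rt_add_sum hν _ _ _ hs1, rt_add_sum hν _ _ _ hs1, rt_add_sum hν _ _ _ hs2]
  have h := Finset.sum_mul_sq_le_sq_mul_sq
    ((pw_fin ν n).toFinset ∪ (pw_fin ν (n + 2)).toFinset) (pw ν n) (pw ν (n + 2))
  simp only [pow_two] at h ⊢
  exact h

theorem pw_par {ν : G →₀ ℝ} {χ : G →* ℤˣ} (hχ : ∀ s ∈ ν.support, χ s = -1) (n : ℕ) :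
    ∀ x : G, pw ν n x ≠ 0 → χ x = (-1) ^ n := by
  induction n with
  | zero =>
    intro x hx
    have : x = 1 := by
      classical
      by_contra hcon
      apply hx
      unfold pw dl
      rw [Function.iterate_zero_apply, Set.indicator_apply, if_neg (by simpa using hcon)]
    rw [this, map_one, pow_zero]
  | succ n ih =>
    intro x hx
    rw [pw_succ] at hx
    unfold cv at hx
    obtain ⟨y, hy, hy2⟩ := Finset.exists_ne_zero_of_sum_ne_zero hx
    have h1 := ih _ (right_ne_zero_of_mul hy2)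
    have h2 : χ x = χ y * χ (y⁻¹ * x) := by
      rw [← map_mul, mul_inv_cancel_left]
    rw [h2, h1, hχ y hy, pow_succ']

theorem rt_odd {ν : G →₀ ℝ} (hp : Par ν) (n : ℕ) : rt ν (2 * n + 1) = 0 := by
  obtain ⟨χ, hχ⟩ := hp
  by_contra hcon
  have h := pw_par hχ (2 * n + 1) 1 hcon
  rw [map_one, pow_succ, pow_mul] at h
  norm_num at h

/-- the rescaled even return probabilities do not increase -/
theorem rt_anti {ν : G →₀ ℝ} (hν : SP ν) {z : ℝ} (hz : 0 < z)
    (hs : Summable (fun n => rt ν (2 * n) * z ^ (2 * n))) :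
    Antitone (fun n => rt ν (2 * n) * z ^ (2 * n)) := by
  have hb : ∀ n, 0 < rt ν (2 * n) * z ^ (2 * n) := fun n => mul_pos (rt_pos hν n) (by positivity)
  have hsq : ∀ n, (rt ν (2 * (n + 1)) * z ^ (2 * (n + 1))) ^ 2 ≤
      (rt ν (2 * n) * z ^ (2 * n)) * (rt ν (2 * (n + 2)) * z ^ (2 * (n + 2))) := by
    intro n
    have h := mul_le_mul_of_nonneg_right (rt_sq_le hν n)
      (by positivity : (0 : ℝ) ≤ (z ^ (2 * (n + 1))) ^ 2)
    calc _ = rt ν (2 * (n + 1)) ^ 2 * (z ^ (2 * (n + 1))) ^ 2 := by ring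
      _ ≤ _ := h
      _ = _ := by ring
  refine antitone_nat_of_succ_le fun k => ?_
  by_contra hcon
  rw [not_le] at hcon
  have hinc : ∀ n, rt ν (2 * (k + n)) * z ^ (2 * (k + n)) <
      rt ν (2 * (k + n + 1)) * z ^ (2 * (k + n + 1)) := by
    intro n
    induction n with
    | zero => exact hcon
    | succ n ih =>
      have h1 := hsq (k + n)
      have h2 := hb (k + n + 1)
      have h3 := hb (k + n + 2)
      have h4 : (rt ν (2 * (k + n)) * z ^ (2 * (k + n))) *
          (rt ν (2 * (k + n + 2)) * z ^ (2 * (k + n + 2))) <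
          (rt ν (2 * (k + n + 1)) * z ^ (2 * (k + n + 1))) *
          (rt ν (2 * (k + n + 2)) * z ^ (2 * (k + n + 2))) := mul_lt_mul_of_pos_right ih h3
      have h5 := lt_of_le_of_lt h1 h4
      rw [pow_two] at h5
      exact lt_of_mul_lt_mul_left h5 h2.le
  have hge : ∀ n, rt ν (2 * k) * z ^ (2 * k) ≤ rt ν (2 * (k + n)) * z ^ (2 * (k + n)) := by
    intro n
    induction n with
    | zero => exact le_refl _
    | succ n ih => exact le_trans ih (hinc n).le
  have hlim := hs.tendsto_atTop_zero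
  have hlim2 : Tendsto (fun n => rt ν (2 * (k + n)) * z ^ (2 * (k + n))) atTop (𝓝 0) := by
    have := hlim.comp (tendsto_atTop_mono (fun n => Nat.le_add_left n k) tendsto_id)
    exact this
  have := ge_of_tendsto' hlim2 hge
  exact absurd (hb k) (not_lt.mpr this)

end

end Pool.Agent.RDL
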