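import Pool.Agent.RDL.Defs

/-!
# Slowly varying corrections: elementary properties of the sums `mm`
-/

set_option autoImplicit false

namespace Pool.Agent.RDL

open Finset

theorem mm_term_nonneg {ℓ : ℕ → ℝ} (hℓ : SV ℓ) {k : ℕ} (hk : 1 ≤ k) :
    0 ≤ 1 / ((k : ℝ) * ℓ k) :=
  div_nonneg zero_le_one (mul_nonneg (Nat.cast_nonneg k) (hℓ.pos k hk).le)

theorem mm_mono {ℓ : ℕ → ℝ} (hℓ : SV ℓ) : Monotone (mm ℓ) := by
  intro M N hMN
  unfold mm
  refine Finset.sum_le_sum_of_subset_of_nonneg (Finset.Icc_subset_Icc_right hMN) ?_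
  intro k hk _
  exact mm_term_nonneg hℓ (Finset.mem_Icc.1 hk).1

theorem mm_pos {ℓ : ℕ → ℝ} (hℓ : SV ℓ) {N : ℕ} (hN : 1 ≤ N) : 0 < mm ℓ N := by
  refine lt_of_lt_of_le ?_ (mm_mono hℓ hN)
  unfold mm
  have h := hℓ.pos 1 le_rfl
  simp only [Finset.Icc_self, Finset.sum_singleton, Nat.cast_one, one_mul]
  positivity

theorem inv_le_mm {ℓ : ℕ → ℝ} (hℓ : SV ℓ) {N : ℕ} (hN : 1 ≤ N) : 1 / ℓ N ≤ mm ℓ N := by
  have hp := hℓ.pos N hN
  have h1 : (1 : ℝ) / ℓ N ≤ ∑ k ∈ Finset.Icc 1 N, 1 / ((N : ℝ) * ℓ N) := by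
    rw [Finset.sum_const, Nat.card_Icc, Nat.add_sub_cancel, nsmul_eq_mul]
    have hN' : (0 : ℝ) < N := by exact_mod_cast hN
    apply le_of_eq
    field_simp
  refine le_trans h1 (Finset.sum_le_sum fun k hk => ?_)
  obtain ⟨hk1, hk2⟩ := Finset.mem_Icc.1 hk
  have hk' : (0 : ℝ) < k := by exact_mod_cast hk1
  have hkp := hℓ.pos k hk1
  apply one_div_le_one_div_of_le (mul_pos hk' hkp)
  exact mul_le_mul (by exact_mod_cast hk2) (hℓ.mono k N hk1 hk2) hkp.le (Nat.cast_nonneg N)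

/-- multiples of the argument do not matter -/
theorem mm_mul {ℓ : ℕ → ℝ} (hℓ : SV ℓ) (K : ℕ) :
    ∃ C : ℝ, ∀ N, 1 ≤ N → mm ℓ (K * N) ≤ C * mm ℓ N := by
  refine ⟨K, fun N hN => ?_⟩
  induction K with
  | zero => simp [mm]
  | succ K ih =>
    rcases Nat.eq_zero_or_pos K with hK | hK
    · subst hK
      simp
    have hN' : (0 : ℝ) < N := by exact_mod_cast hN
    have hp := hℓ.pos N hN
    have hsplit : mm ℓ ((K + 1) * N) =
        mm ℓ (K * N) + ∑ k ∈ Finset.Ioc (K * N) ((K + 1) * N), 1 / ((k : ℝ) * ℓ k) := by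
      unfold mm
      have h1 : Finset.Icc 1 ((K + 1) * N) =
          Finset.Icc 1 (K * N) ∪ Finset.Ioc (K * N) ((K + 1) * N) := by
        ext k
        simp only [Finset.mem_Icc, Finset.mem_union, Finset.mem_Ioc]
        have : K * N ≤ (K + 1) * N := Nat.mul_le_mul_right _ (Nat.le_succ _)
        omega
      rw [h1, Finset.sum_union]
      rw [Finset.disjoint_left]
      intro k hk hk'
      simp only [Finset.mem_Icc, Finset.mem_Ioc] at hk hk'
      omega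
    have hle : ∑ k ∈ Finset.Ioc (K * N) ((K + 1) * N), 1 / ((k : ℝ) * ℓ k) ≤ 1 / ℓ N := by
      have h2 : ∑ k ∈ Finset.Ioc (K * N) ((K + 1) * N), 1 / ((k : ℝ) * ℓ k) ≤
          ∑ k ∈ Finset.Ioc (K * N) ((K + 1) * N), 1 / ((N : ℝ) * ℓ N) := by
        refine Finset.sum_le_sum fun k hk => ?_
        have hk1 := (Finset.mem_Ioc.1 hk).1
        have hNk : N ≤ k := by
          have : N ≤ K * N := Nat.le_mul_of_pos_left N hK
          omega
        apply one_div_le_one_div_of_le (mul_pos hN' hp)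
        exact mul_le_mul (by exact_mod_cast hNk) (hℓ.mono N k hN hNk) hp.le (Nat.cast_nonneg k)
      refine le_trans h2 ?_
      rw [Finset.sum_const, Nat.card_Ioc, nsmul_eq_mul]
      have h3 : (K + 1) * N - K * N = N := by
        rw [Nat.add_mul, one_mul, Nat.add_sub_cancel_left]
      rw [h3]
      apply le_of_eq
      field_simp
    have h4 := inv_le_mm hℓ hN
    rw [hsplit]
    push_cast
    linarith

theorem mm_le_lin {ℓ : ℕ → ℝ} (hℓ : SV ℓ) (N : ℕ) : mm ℓ N ≤ N / ℓ 1 := by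
  have hp := hℓ.pos 1 le_rfl
  have h : mm ℓ N ≤ ∑ k ∈ Finset.Icc 1 N, 1 / ℓ 1 := by
    refine Finset.sum_le_sum fun k hk => ?_
    obtain ⟨hk1, hk2⟩ := Finset.mem_Icc.1 hk
    apply one_div_le_one_div_of_le hp
    have h1 : (1 : ℝ) ≤ k := by exact_mod_cast hk1
    calc ℓ 1 ≤ ℓ k := hℓ.mono 1 k le_rfl hk1
      _ = 1 * ℓ k := (one_mul _).symm
      _ ≤ k * ℓ k := mul_le_mul_of_nonneg_right h1 (hℓ.pos k hk1).le
  refine le_trans h ?_
  rw [Finset.sum_const, Nat.card_Icc, Nat.add_sub_cancel, nsmul_eq_mul]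
  apply le_of_eq
  ring

/-- the growth is at most that of the square root -/
theorem mm_le_sqrt {ℓ : ℕ → ℝ} (hℓ : SV ℓ) :
    ∃ C : ℝ, ∀ N, 1 ≤ N → mm ℓ N ≤ C * Real.sqrt N := by
  obtain ⟨C, hC⟩ := hℓ.sq
  have hp := hℓ.pos 1 le_rfl
  refine ⟨2 * |C| / ℓ 1, fun N hN => ?_⟩
  set M := Nat.sqrt N + 1 with hM
  have hM1 : 1 ≤ M := Nat.le_add_left 1 _
  have hNM : N ≤ M ^ 2 := by
    rw [sq]
    exact (Nat.lt_succ_sqrt N).le
  have h1 : mm ℓ N ≤ mm ℓ (M ^ 2) := mm_mono hℓ hNM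
  have h2 : mm ℓ (M ^ 2) ≤ |C| * mm ℓ M :=
    le_trans (hC M hM1) (mul_le_mul_of_nonneg_right (le_abs_self C) (mm_pos hℓ hM1).le)
  have h3 : mm ℓ M ≤ M / ℓ 1 := mm_le_lin hℓ M
  have h4 : (M : ℝ) ≤ 2 * Real.sqrt N := by
    have h5 : (Nat.sqrt N : ℝ) ≤ Real.sqrt N := by
      apply Real.le_sqrt_of_sq_le
      have := Nat.sqrt_le' N
      exact_mod_cast this
    have h6 : (1 : ℝ) ≤ Real.sqrt N := by
      rw [Real.one_le_sqrt]
      exact_mod_cast hN
    rw [hM]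
    push_cast
    linarith
  calc mm ℓ N ≤ |C| * mm ℓ M := le_trans h1 h2
    _ ≤ |C| * (M / ℓ 1) := mul_le_mul_of_nonneg_left h3 (abs_nonneg C)
    _ ≤ |C| * (2 * Real.sqrt N / ℓ 1) := by
        apply mul_le_mul_of_nonneg_left _ (abs_nonneg C)
        exact div_le_div_of_nonneg_right h4 hp.le
    _ = 2 * |C| / ℓ 1 * Real.sqrt N := by ring

theorem mm_one_eq (N : ℕ) : mm (fun _ => 1) N = (harmonic N : ℝ) := by
  unfold mm
  rw [harmonic_eq_sum_Icc]
  push_cast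
  refine Finset.sum_congr rfl fun k _ => ?_
  rw [mul_one, one_div]

theorem sv_one : SV (fun _ => 1) where
  pos := fun _ _ => one_pos
  mono := fun _ _ _ _ => le_rfl
  unb := by
    intro B
    obtain ⟨N, hN⟩ := exists_nat_ge (Real.exp B)
    refine ⟨N, ?_⟩
    rw [mm_one_eq]
    have h1 : (0 : ℝ) < N := lt_of_lt_of_le (Real.exp_pos B) hN
    calc B = Real.log (Real.exp B) := (Real.log_exp B).symm
      _ ≤ Real.log (N + 1 : ℕ) := by
          apply Real.log_le_log (Real.exp_pos B)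
          push_cast
          linarith
      _ ≤ harmonic N := log_add_one_le_harmonic N
  sq := by
    refine ⟨3, fun N hN => ?_⟩
    rw [mm_one_eq, mm_one_eq]
    have h1 := harmonic_le_one_add_log (N ^ 2)
    have h2 := log_add_one_le_harmonic N
    have hN' : (0 : ℝ) < N := by exact_mod_cast hN
    have h3 : Real.log ((N ^ 2 : ℕ) : ℝ) = 2 * Real.log N := by
      push_cast
      rw [Real.log_pow]
      norm_num
    have h4 : Real.log N ≤ Real.log (N + 1 : ℕ) := by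
      apply Real.log_le_log hN'
      push_cast
      linarith
    have h5 : (1 : ℝ) ≤ (harmonic N : ℝ) := by
      rw [← mm_one_eq]
      have h6 : (1 : ℝ) / (((1 : ℕ) : ℝ) * 1) ≤ mm (fun _ => 1) N :=
        Finset.single_le_sum (f := fun k : ℕ => (1 : ℝ) / ((k : ℝ) * 1))
          (fun k _ => by positivity) (Finset.mem_Icc.2 ⟨le_rfl, hN⟩)
      simpa using h6
    rw [h3] at h1
    linarith

end Pool.Agent.RDL
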