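import Pool.Agent.RDL.Defs

/-!
# The second level: harmonic numbers
-/

set_option autoImplicit false

namespace Pool.Agent.RDL

open Finset Filter Topology

/-- the harmonic numbers -/
theorem svb_harm (N : ℕ) : mm (fun _ => 1) N = ((harmonic N : ℚ) : ℝ) := by
  unfold mm
  rw [harmonic_eq_sum_Icc]
  push_cast
  refine Finset.sum_congr rfl fun k _ => ?_
  rw [mul_one, one_div]

theorem svb_succ (N : ℕ) : mm (fun _ => 1) (N + 1) = mm (fun _ => 1) N + 1 / ((N : ℝ) + 1) := by
  unfold mm
  rw [Finset.sum_Icc_succ_top (by omega)]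
  push_cast
  rw [mul_one]

theorem svb_msucc (ℓ : ℕ → ℝ) (N : ℕ) :
    mm ℓ (N + 1) = mm ℓ N + 1 / (((N : ℝ) + 1) * ℓ (N + 1)) := by
  unfold mm
  rw [Finset.sum_Icc_succ_top (by omega)]
  push_cast
  ring

theorem svb_one : mm (fun _ => 1) 1 = 1 := by
  simp [mm]

theorem svb_mono {m n : ℕ} (h : m ≤ n) : mm (fun _ => 1) m ≤ mm (fun _ => 1) n := by
  induction n, h using Nat.le_induction with
  | base => exact le_rfl
  | succ k _ ih =>
    rw [svb_succ]
    have : (0 : ℝ) < 1 / ((k : ℝ) + 1) := by positivity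
    linarith

theorem svb_ge_one {n : ℕ} (h : 1 ≤ n) : 1 ≤ mm (fun _ => 1) n := by
  have := svb_mono h
  rwa [svb_one] at this

theorem svb_log_le (n : ℕ) : Real.log n ≤ mm (fun _ => 1) n := by
  rw [svb_harm]
  rcases Nat.eq_zero_or_pos n with h | h
  · subst h; simp
  · refine le_trans ?_ (log_add_one_le_harmonic n)
    push_cast
    exact Real.log_le_log (by exact_mod_cast h) (by linarith)

theorem svb_le_log (n : ℕ) : mm (fun _ => 1) n ≤ 1 + Real.log n := by
  rw [svb_harm]
  exact harmonic_le_one_add_log n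

/-- `log H_N ≤ mm H N ≤ 1 + log H_N` -/
theorem svb_main {N : ℕ} (hN : 1 ≤ N) : Real.log (mm (fun _ => 1) (N + 1)) ≤ mm (mm (fun _ => 1)) N ∧
    mm (mm (fun _ => 1)) N ≤ 1 + Real.log (mm (fun _ => 1) N) := by
  induction N, hN using Nat.le_induction with
  | base =>
    have h1 : mm (mm (fun _ => 1)) 1 = 1 := by
      unfold mm
      simp
    have h2 : mm (fun _ => 1) (1 + 1) = 3 / 2 := by
      rw [svb_succ, svb_one]; norm_num
    rw [h1, h2, svb_one, Real.log_one, add_zero]
    refine ⟨?_, le_rfl⟩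
    have := Real.log_le_sub_one_of_pos (show (0 : ℝ) < 3 / 2 by norm_num)
    linarith
  | succ k hk ih =>
    obtain ⟨ih1, ih2⟩ := ih
    have hk0 : (0 : ℝ) < (k : ℝ) + 1 := by positivity
    have hH : 1 ≤ mm (fun _ => 1) k := svb_ge_one hk
    have hH1 : 1 ≤ mm (fun _ => 1) (k + 1) := svb_ge_one (by omega)
    have hH2 : 1 ≤ mm (fun _ => 1) (k + 1 + 1) := svb_ge_one (by omega)
    rw [svb_msucc (mm (fun _ => 1)) k]
    constructor
    · -- log H_{k+2} ≤ log H_{k+1} + 1/((k+2) H_{k+1})
      have e : mm (fun _ => 1) (k + 1 + 1) = mm (fun _ => 1) (k + 1) + 1 / ((k : ℝ) + 1 + 1) := by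
        rw [svb_succ]; push_cast; rfl
      have h1 : Real.log (mm (fun _ => 1) (k + 1 + 1)) - Real.log (mm (fun _ => 1) (k + 1)) ≤
          1 / (((k : ℝ) + 1) * mm (fun _ => 1) (k + 1)) := by
        rw [← Real.log_div (by positivity) (by positivity)]
        refine le_trans (Real.log_le_sub_one_of_pos (by positivity)) ?_
        rw [e, add_div, div_self (by positivity), add_sub_cancel_left, div_div]
        apply one_div_le_one_div_of_le (by positivity)
        nlinarith
      linarith
    · -- 1/((k+1) H_{k+1}) ≤ log H_{k+1} - log H_k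
      have e : mm (fun _ => 1) (k + 1) = mm (fun _ => 1) k + 1 / ((k : ℝ) + 1) := svb_succ k
      have h1 : Real.log (mm (fun _ => 1) k) - Real.log (mm (fun _ => 1) (k + 1)) ≤
          - (1 / (((k : ℝ) + 1) * mm (fun _ => 1) (k + 1))) := by
        rw [← Real.log_div (by positivity) (by positivity)]
        refine le_trans (Real.log_le_sub_one_of_pos (by positivity)) ?_
        have e2 : mm (fun _ => 1) k / mm (fun _ => 1) (k + 1) - 1 =
            - (1 / (((k : ℝ) + 1) * mm (fun _ => 1) (k + 1))) := by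
          have e3 : mm (fun _ => 1) k = mm (fun _ => 1) (k + 1) - 1 / ((k : ℝ) + 1) := by
            rw [e]; ring
          have hne : mm (fun _ => 1) (k + 1) ≠ 0 := by positivity
          rw [e3]
          field_simp
          ring
        exact e2.le
      linarith

theorem svb_main' {N : ℕ} (hN : 1 ≤ N) : Real.log (mm (fun _ => 1) N) ≤ mm (mm (fun _ => 1)) N :=
  le_trans (Real.log_le_log (by have := svb_ge_one hN; linarith) (svb_mono (by omega)))
    (svb_main hN).1

theorem svb_mm_ge_one {N : ℕ} (hN : 1 ≤ N) : 1 ≤ mm (mm (fun _ => 1)) N := by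
  induction N, hN using Nat.le_induction with
  | base =>
    unfold mm
    simp
  | succ k hk ih =>
    rw [svb_msucc (mm (fun _ => 1)) k]
    have hH1 : 1 ≤ mm (fun _ => 1) (k + 1) := svb_ge_one (by omega)
    have : 0 < 1 / (((k : ℝ) + 1) * mm (fun _ => 1) (k + 1)) := by positivity
    linarith

theorem svb_log_two : Real.log 2 ≤ 1 := by
  have := Real.log_le_sub_one_of_pos (show (0 : ℝ) < 2 by norm_num)
  linarith

theorem svb_log_three : Real.log 3 ≤ 2 := by
  have := Real.log_le_sub_one_of_pos (show (0 : ℝ) < 3 by norm_num)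
  linarith

/-- the second level -/
theorem sv_log : SV (mm (fun _ => 1)) where
  pos n hn := by
    have := svb_ge_one hn
    linarith
  mono m n _ hmn := svb_mono hmn
  unb B := by
    refine ⟨⌈Real.exp (Real.exp B)⌉₊, ?_⟩
    have h0 : 0 < Real.exp (Real.exp B) := Real.exp_pos _
    have hN : 1 ≤ ⌈Real.exp (Real.exp B)⌉₊ := Nat.ceil_pos.2 h0
    refine le_trans ?_ (svb_main' hN)
    have h1 : Real.exp B ≤ mm (fun _ => 1) ⌈Real.exp (Real.exp B)⌉₊ := by
      refine le_trans ?_ (svb_log_le _)
      rw [Real.le_log_iff_exp_le (by exact_mod_cast hN)]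
      exact Nat.le_ceil _
    rw [Real.le_log_iff_exp_le (by have := svb_ge_one hN; linarith)]
    exact h1
  sq := by
    refine ⟨4, fun N hN => ?_⟩
    have hH : 1 ≤ mm (fun _ => 1) N := svb_ge_one hN
    have hN2 : 1 ≤ N ^ 2 := Nat.one_le_pow _ _ hN
    have h1 := (svb_main hN2).2
    have h2 : mm (fun _ => 1) (N ^ 2) ≤ 3 * mm (fun _ => 1) N := by
      have h3 := svb_le_log (N ^ 2)
      have h4 := svb_log_le N
      have h5 : Real.log ((N ^ 2 : ℕ) : ℝ) = 2 * Real.log N := by
        push_cast
        rw [Real.log_pow]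
        norm_num
      rw [h5] at h3
      linarith
    have h6 : Real.log (mm (fun _ => 1) (N ^ 2)) ≤ Real.log 3 + Real.log (mm (fun _ => 1) N) := by
      rw [← Real.log_mul (by norm_num) (by positivity)]
      exact Real.log_le_log (by have := svb_ge_one hN2; linarith) h2
    have h7 := svb_main' hN
    have h8 := svb_mm_ge_one hN
    have h9 := svb_log_three
    linarith

theorem mm_log : ∃ c > (0 : ℝ), ∃ C : ℝ, ∀ᶠ n : ℕ in atTop,
    c * Real.log (Real.log n) ≤ mm (mm (fun _ => 1)) n ∧
      mm (mm (fun _ => 1)) n ≤ C * Real.log (Real.log n) := by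
  refine ⟨1, one_pos, 3, ?_⟩
  have ht : Tendsto (fun n : ℕ => Real.log (Real.log (n : ℝ))) atTop atTop :=
    Real.tendsto_log_atTop.comp (Real.tendsto_log_atTop.comp tendsto_natCast_atTop_atTop)
  have ht' : Tendsto (fun n : ℕ => Real.log (n : ℝ)) atTop atTop :=
    Real.tendsto_log_atTop.comp tendsto_natCast_atTop_atTop
  filter_upwards [ht.eventually_ge_atTop 1, ht'.eventually_ge_atTop 1, eventually_ge_atTop 1]
    with n h1 h2 h3
  have hH : 1 ≤ mm (fun _ => 1) n := svb_ge_one h3
  constructor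
  · rw [one_mul]
    refine le_trans ?_ (svb_main' h3)
    exact Real.log_le_log (by linarith) (svb_log_le n)
  · refine le_trans (svb_main h3).2 ?_
    have h4 : Real.log (mm (fun _ => 1) n) ≤ Real.log 2 + Real.log (Real.log n) := by
      rw [← Real.log_mul (by norm_num) (by linarith)]
      refine Real.log_le_log (by linarith) ?_
      have := svb_le_log n
      linarith
    have h5 := svb_log_two
    linarith

end Pool.Agent.RDL
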