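import Pool.Agent.RDL.Defs

/-!
# The monotone Tauberian theorem (helper95)
-/

set_option autoImplicit false

namespace Pool.Agent.RDL

open Finset Filter

namespace TB

/-- the generating function difference at `1 - 1/n` -/
noncomputable def gdiff (b : ℕ → ℝ) (n : ℕ) : ℝ :=
  ∑' k, b k * (1 - (1 - 1 / (n : ℝ)) ^ (2 * k + 1))

lemma base_bounds {n : ℕ} (hn : 1 ≤ n) : 0 ≤ 1 - 1 / (n : ℝ) ∧ 1 - 1 / (n : ℝ) ≤ 1 := by
  have h1 : (1 : ℝ) ≤ n := by exact_mod_cast hn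
  constructor
  · rw [sub_nonneg, div_le_one (by linarith)]; exact h1
  · have : 0 ≤ 1 / (n : ℝ) := by positivity
    linarith

lemma fac_bounds {n : ℕ} (hn : 1 ≤ n) (k : ℕ) :
    0 ≤ 1 - (1 - 1 / (n : ℝ)) ^ k ∧ 1 - (1 - 1 / (n : ℝ)) ^ k ≤ 1 := by
  obtain ⟨h0, h1⟩ := base_bounds hn
  constructor
  · have := pow_le_one₀ (n := k) h0 h1
    linarith
  · have := pow_nonneg h0 k
    linarith

lemma term_summable {b : ℕ → ℝ} (hb0 : ∀ n, 0 ≤ b n) (hs : Summable b) {n : ℕ} (hn : 1 ≤ n) :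
    Summable (fun k => b k * (1 - (1 - 1 / (n : ℝ)) ^ (2 * k + 1))) := by
  refine Summable.of_nonneg_of_le (fun k => mul_nonneg (hb0 k) (fac_bounds hn _).1) (fun k => ?_) hs
  calc b k * (1 - (1 - 1 / (n : ℝ)) ^ (2 * k + 1)) ≤ b k * 1 :=
        mul_le_mul_of_nonneg_left (fac_bounds hn _).2 (hb0 k)
    _ = b k := mul_one _

lemma pow_le_exp {n : ℕ} (hn : 1 ≤ n) (k : ℕ) :
    (1 - 1 / (n : ℝ)) ^ k ≤ Real.exp (-(k / n : ℝ)) := by
  obtain ⟨h0, h1⟩ := base_bounds hn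
  have h2 : 1 - 1 / (n : ℝ) ≤ Real.exp (-(1 / n : ℝ)) := by
    have := Real.add_one_le_exp (-(1 / n : ℝ))
    linarith
  calc (1 - 1 / (n : ℝ)) ^ k ≤ Real.exp (-(1 / n : ℝ)) ^ k := pow_le_pow_left₀ h0 h2 k
    _ = Real.exp (-(k / n : ℝ)) := by
        rw [← Real.exp_nat_mul]; congr 1; ring

lemma fac_ge_half {n : ℕ} (hn : 1 ≤ n) {k : ℕ} (hk : n ≤ k) :
    1 / 2 ≤ 1 - (1 - 1 / (n : ℝ)) ^ k := by
  have h1 := pow_le_exp hn k
  have hn0 : (0 : ℝ) < n := by exact_mod_cast hn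
  have h2 : Real.exp (-(k / n : ℝ)) ≤ Real.exp (-1) := by
    apply Real.exp_le_exp.mpr
    have : (1 : ℝ) ≤ k / n := by
      rw [le_div_iff₀ hn0]; simpa using (by exact_mod_cast hk : (n : ℝ) ≤ k)
    linarith
  have h3 : Real.exp (-1) ≤ 1 / 2 := by
    rw [Real.exp_neg]
    have h2e : (2 : ℝ) ≤ Real.exp 1 := by
      have := Real.add_one_le_exp (1 : ℝ); linarith
    rw [inv_le_comm₀ (Real.exp_pos 1) (by norm_num)]
    norm_num
    exact h2e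
  linarith

lemma exp_neg_le {t : ℝ} (h0 : 0 ≤ t) (h1 : t ≤ 1) : Real.exp (-t) ≤ 1 - t / 2 := by
  -- exp(-t) ≤ 1/(1+t) ≤ 1 - t/2
  have h2 : Real.exp (-t) ≤ 1 / (1 + t) := by
    rw [Real.exp_neg, inv_eq_one_div]
    apply one_div_le_one_div_of_le (by linarith)
    have := Real.add_one_le_exp t; linarith
  have h3 : 1 / (1 + t) ≤ 1 - t / 2 := by
    rw [div_le_iff₀ (by linarith)]
    nlinarith
  linarith

lemma fac_ge_lin {n : ℕ} (hn : 1 ≤ n) {k : ℕ} (hk : k ≤ n) :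
    (k : ℝ) / (2 * n) ≤ 1 - (1 - 1 / (n : ℝ)) ^ k := by
  have h1 := pow_le_exp hn k
  have hn0 : (0 : ℝ) < n := by exact_mod_cast hn
  have h2 := exp_neg_le (t := (k / n : ℝ)) (by positivity)
    (by rw [div_le_one hn0]; exact_mod_cast hk)
  have h3 : (k : ℝ) / (2 * n) = (k / n : ℝ) / 2 := by field_simp
  rw [h3]; linarith

/-- the tail of `b` is at most twice the generating function difference -/
lemma tail_le {b : ℕ → ℝ} (hb0 : ∀ n, 0 ≤ b n) (hs : Summable b) {n : ℕ} (hn : 1 ≤ n) :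
    ∑' k, b (k + n) ≤ 2 * gdiff b n := by
  have hts := term_summable hb0 hs hn
  have h1 : ∑' k, b (k + n) * (1 / 2) ≤
      ∑' k, b (k + n) * (1 - (1 - 1 / (n : ℝ)) ^ (2 * (k + n) + 1)) := by
    refine Summable.tsum_le_tsum (fun k => ?_) (((summable_nat_add_iff n).mpr hs).mul_right _)
      ((summable_nat_add_iff n).mpr hts)
    exact mul_le_mul_of_nonneg_left (fac_ge_half hn (by omega)) (hb0 _)
  have h2 : ∑' k, b (k + n) * (1 - (1 - 1 / (n : ℝ)) ^ (2 * (k + n) + 1)) ≤ gdiff b n := by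
    have h3 := hts.sum_add_tsum_nat_add n
    have h4 : 0 ≤ ∑ i ∈ range n, b i * (1 - (1 - 1 / (n : ℝ)) ^ (2 * i + 1)) :=
      Finset.sum_nonneg (fun i _ => mul_nonneg (hb0 i) (fac_bounds hn _).1)
    unfold gdiff
    linarith
  rw [tsum_mul_right] at h1
  linarith

/-- the initial weighted sum is at most `2 n` times the generating function difference -/
lemma head_le {b : ℕ → ℝ} (hb0 : ∀ n, 0 ≤ b n) (hs : Summable b) {n : ℕ} (hn : 1 ≤ n) :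
    ∑ k ∈ range n, (k : ℝ) * b k ≤ 2 * n * gdiff b n := by
  have hts := term_summable hb0 hs hn
  have hn0 : (0 : ℝ) < n := by exact_mod_cast hn
  obtain ⟨hx0, hx1⟩ := base_bounds hn
  have h1 : ∑ k ∈ range n, b k * ((k : ℝ) / (2 * n)) ≤
      ∑ k ∈ range n, b k * (1 - (1 - 1 / (n : ℝ)) ^ (2 * k + 1)) := by
    refine Finset.sum_le_sum (fun k hk => mul_le_mul_of_nonneg_left ?_ (hb0 k))
    refine (fac_ge_lin hn (Finset.mem_range.mp hk).le).trans ?_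
    have := pow_le_pow_of_le_one hx0 hx1 (by omega : k ≤ 2 * k + 1)
    linarith
  have h2 : ∑ k ∈ range n, b k * (1 - (1 - 1 / (n : ℝ)) ^ (2 * k + 1)) ≤ gdiff b n :=
    hts.sum_le_tsum _ (fun k _ => mul_nonneg (hb0 k) (fac_bounds hn _).1)
  have h3 : ∑ k ∈ range n, (k : ℝ) * b k = 2 * n * ∑ k ∈ range n, b k * ((k : ℝ) / (2 * n)) := by
    rw [Finset.mul_sum]
    refine Finset.sum_congr rfl (fun k _ => ?_)
    field_simp
  rw [h3]
  exact mul_le_mul_of_nonneg_left (h1.trans h2) (by positivity)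

/-- splitting the generating function difference -/
lemma gdiff_le {b : ℕ → ℝ} (hb0 : ∀ n, 0 ≤ b n) (hs : Summable b) {N : ℕ} (hN : 1 ≤ N)
    {n M : ℕ} (hnM : n ≤ M) :
    gdiff b N ≤ (2 * ∑ k ∈ range n, (k : ℝ) * b k + ∑' k, b k) / N +
      ∑ k ∈ Ico n M, b k + ∑' k, b (k + M) := by
  have hts := term_summable hb0 hs hN
  have hN0 : (0 : ℝ) < N := by exact_mod_cast hN
  obtain ⟨hx0, hx1⟩ := base_bounds hN
  have h1 := hts.sum_add_tsum_nat_add M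
  have h2 : ∑' k, b (k + M) * (1 - (1 - 1 / (N : ℝ)) ^ (2 * (k + M) + 1)) ≤
      ∑' k, b (k + M) := by
    refine Summable.tsum_le_tsum (fun k => ?_) ((summable_nat_add_iff M).mpr hts)
      ((summable_nat_add_iff M).mpr hs)
    calc _ ≤ b (k + M) * 1 := mul_le_mul_of_nonneg_left (fac_bounds hN _).2 (hb0 _)
      _ = _ := mul_one _
  have h3 : ∑ k ∈ range M, b k * (1 - (1 - 1 / (N : ℝ)) ^ (2 * k + 1)) =
      ∑ k ∈ range n, b k * (1 - (1 - 1 / (N : ℝ)) ^ (2 * k + 1)) +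
        ∑ k ∈ Ico n M, b k * (1 - (1 - 1 / (N : ℝ)) ^ (2 * k + 1)) :=
    (Finset.sum_range_add_sum_Ico _ hnM).symm
  have h4 : ∑ k ∈ Ico n M, b k * (1 - (1 - 1 / (N : ℝ)) ^ (2 * k + 1)) ≤
      ∑ k ∈ Ico n M, b k := by
    refine Finset.sum_le_sum (fun k _ => ?_)
    calc _ ≤ b k * 1 := mul_le_mul_of_nonneg_left (fac_bounds hN _).2 (hb0 _)
      _ = _ := mul_one _
  have h5 : ∑ k ∈ range n, b k * (1 - (1 - 1 / (N : ℝ)) ^ (2 * k + 1)) ≤
      (2 * ∑ k ∈ range n, (k : ℝ) * b k + ∑' k, b k) / N := by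
    have h7 : ∑ k ∈ range n, b k ≤ ∑' k, b k := hs.sum_le_tsum _ (fun k _ => hb0 k)
    have h8 : ∑ k ∈ range n, b k * (1 - (1 - 1 / (N : ℝ)) ^ (2 * k + 1)) ≤
        (2 * ∑ k ∈ range n, (k : ℝ) * b k + ∑ k ∈ range n, b k) / N := by
      rw [Finset.mul_sum, ← Finset.sum_add_distrib, Finset.sum_div]
      refine Finset.sum_le_sum (fun k _ => ?_)
      have hB : 1 - (1 - 1 / (N : ℝ)) ^ (2 * k + 1) ≤ (2 * k + 1) * (1 / N) := by
        have := one_add_mul_le_pow (a := -(1 / (N : ℝ))) (by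
          have : 1 / (N : ℝ) ≤ 1 := by rw [div_le_one hN0]; exact_mod_cast hN
          linarith) (2 * k + 1)
        have h6 : 1 + -(1 / (N : ℝ)) = 1 - 1 / (N : ℝ) := by ring
        rw [h6] at this
        push_cast at this
        linarith
      calc b k * (1 - (1 - 1 / (N : ℝ)) ^ (2 * k + 1)) ≤ b k * ((2 * k + 1) * (1 / N)) :=
            mul_le_mul_of_nonneg_left hB (hb0 k)
        _ = (2 * ((k : ℝ) * b k) + b k) / N := by ring
    refine h8.trans ?_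
    apply div_le_div_of_nonneg_right _ hN0.le
    linarith
  unfold gdiff
  linarith

theorem tauber_upper {b m : ℕ → ℝ} {C : ℝ}
    (hb0 : ∀ n, 0 ≤ b n) (hanti : Antitone b) (hs : Summable b)
    (hm : ∀ n, 1 ≤ n → 0 < m n) (hmm : Monotone m)
    (hslow : ∀ K : ℕ, ∀ᶠ n in atTop, m (K * n) ≤ 2 * m n)
    (hup : ∀ᶠ n : ℕ in atTop, gdiff b n ≤ C / √(n * m n)) :
    ∀ᶠ n : ℕ in atTop, b n ≤ (18 * C) / (n * √(n * m n)) := by
  have hdiv : Tendsto (fun N : ℕ => N / 2) atTop atTop :=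
    tendsto_atTop_atTop.mpr (fun x => ⟨2 * x, fun y hy => by omega⟩)
  have e1 := hdiv.eventually hup
  have e2 := hdiv.eventually (hslow 3)
  filter_upwards [e1, e2, eventually_ge_atTop 2] with N h1 h2 hN
  set n := N / 2 with hn
  have hn1 : 1 ≤ n := by omega
  have hn0 : (0 : ℝ) < n := by exact_mod_cast hn1
  have hN0 : (0 : ℝ) < N := by exact_mod_cast (by omega : 0 < N)
  have hmn := hm n hn1
  have hmN := hm N (by omega)
  have hN3 : (N : ℝ) ≤ 3 * n := by exact_mod_cast (by omega : N ≤ 3 * n)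
  have hm3 : m N ≤ 2 * m n := (hmm (by omega : N ≤ 3 * n)).trans h2
  -- n b_N ≤ tail
  have h3 : (n : ℝ) * b N ≤ ∑' k, b (k + n) := by
    have h4 : ∑ k ∈ range n, b (k + n) ≤ ∑' k, b (k + n) :=
      ((summable_nat_add_iff n).mpr hs).sum_le_tsum _ (fun k _ => hb0 _)
    have h5 : ∑ k ∈ range n, b N ≤ ∑ k ∈ range n, b (k + n) := by
      refine Finset.sum_le_sum (fun k hk => hanti ?_)
      have := Finset.mem_range.mp hk
      omega
    rw [Finset.sum_const, Finset.card_range, nsmul_eq_mul] at h5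
    linarith
  have h6 := tail_le hb0 hs hn1
  have h7 : (n : ℝ) * b N ≤ 2 * (C / √(n * m n)) := by linarith
  have hprod : 0 < (n : ℝ) * m n := by positivity
  have hsq : √(N * m N) ≤ 3 * √(n * m n) := by
    rw [show (3 : ℝ) * √(n * m n) = √(9 * (n * m n)) by
      rw [Real.sqrt_mul (by norm_num : (0:ℝ) ≤ 9),
        show (9 : ℝ) = 3 ^ 2 by norm_num, Real.sqrt_sq (by norm_num)]]
    apply Real.sqrt_le_sqrt
    nlinarith [mul_le_mul hN3 hm3 hmN.le (by positivity : (0:ℝ) ≤ 3 * n)]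
  have hs1 : 0 < √(n * m n) := Real.sqrt_pos.mpr hprod
  have hs2 : 0 < √(N * m N) := Real.sqrt_pos.mpr (by positivity)
  rw [le_div_iff₀ (by positivity)]
  have h8 : b N * n * √(n * m n) ≤ 2 * C := by
    rw [← mul_div_assoc, le_div_iff₀ hs1] at h7
    linarith
  calc b N * (N * √(N * m N)) ≤ b N * ((3 * n) * (3 * √(n * m n))) := by
        apply mul_le_mul_of_nonneg_left _ (hb0 N)
        exact mul_le_mul hN3 hsq hs2.le (by positivity)
    _ = 9 * (b N * n * √(n * m n)) := by ring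
    _ ≤ 9 * (2 * C) := by linarith
    _ = 18 * C := by ring

theorem tauber_lower {b m : ℕ → ℝ} {c C : ℝ} (hc : 0 < c) (hC : 0 < C)
    (hb0 : ∀ n, 0 ≤ b n) (hanti : Antitone b) (hs : Summable b)
    (hm : ∀ n, 1 ≤ n → 0 < m n) (hmm : Monotone m)
    (hslow : ∀ K : ℕ, ∀ᶠ n in atTop, m (K * n) ≤ 2 * m n)
    (hsub : ∀ ε : ℝ, 0 < ε → ∀ᶠ n : ℕ in atTop, √(n * m n) ≤ ε * n)
    (hlo : ∀ᶠ n : ℕ in atTop, c / √(n * m n) ≤ gdiff b n)
    (hup : ∀ᶠ n : ℕ in atTop, gdiff b n ≤ C / √(n * m n)) :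
    ∃ c' : ℝ, 0 < c' ∧ ∀ᶠ n : ℕ in atTop, c' / (n * √(n * m n)) ≤ b n := by
  -- choose a with 20 C ≤ c √a; a = A^2
  set S : ℝ := ∑' k, b k with hS
  have hS0 : 0 ≤ S := tsum_nonneg hb0
  obtain ⟨A, hA⟩ := exists_nat_ge (20 * C / c + 1)
  have hA1 : 1 ≤ A := by
    have : (1 : ℝ) ≤ A := le_trans (by have : 0 < 20 * C / c := by positivity
                                       linarith) hA
    exact_mod_cast this
  have hA0 : (0 : ℝ) < A := by exact_mod_cast hA1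
  have hAc : 20 * C ≤ c * A := by
    have : 20 * C / c ≤ A := by linarith
    rw [div_le_iff₀ hc] at this
    linarith
  set a : ℕ := A ^ 2 with ha
  have ha1 : 1 ≤ a := Nat.one_le_pow _ _ hA1
  have haR : (a : ℝ) = (A : ℝ) ^ 2 := by rw [ha]; push_cast; ring
  have hmul : Tendsto (fun n : ℕ => a * n) atTop atTop :=
    tendsto_id.const_mul_atTop' (by omega : 0 < a)
  have hmul2 : Tendsto (fun n : ℕ => a * (a * n)) atTop atTop := hmul.comp hmul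
  refine ⟨c / (6 * A ^ 5), by positivity, ?_⟩
  filter_upwards [hmul.eventually hlo, hup, hmul2.eventually hup, hslow a,
    eventually_ge_atTop 1, hmul.eventually (hsub (c / (10 * (S + 1))) (by positivity))]
    with n h1 h2 h3 h4 hn h5
  have hn0 : (0 : ℝ) < n := by exact_mod_cast hn
  have hN1 : 1 ≤ a * n := Nat.mul_pos ha1 hn
  have hM1 : 1 ≤ a * (a * n) := Nat.mul_pos ha1 hN1
  have hnM : n ≤ a * (a * n) := by nlinarith
  have hmn := hm n hn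
  have hmN := hm _ hN1
  have hmM := hm _ hM1
  have hmNM : m (a * n) ≤ m (a * (a * n)) := hmm (by nlinarith)
  have hmnN : m n ≤ m (a * n) := hmm (by nlinarith)
  -- S := √(n * m n) and friends
  have hP : 0 < (n : ℝ) * m n := by positivity
  have hs0 : 0 < √(n * m n) := Real.sqrt_pos.mpr hP
  -- √(N m N) ≤ 2 A √(n m n)
  have hN2 : √(((a * n : ℕ) : ℝ) * m (a * n)) ≤ 2 * A * √(n * m n) := by
    have e0 : (2 : ℝ) * A * √(n * m n) = √((2 * A) ^ 2 * (n * m n)) := by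
      rw [Real.sqrt_mul (by positivity : (0:ℝ) ≤ (2 * (A:ℝ)) ^ 2),
        Real.sqrt_sq (by positivity : (0:ℝ) ≤ 2 * (A:ℝ))]
    rw [e0]
    apply Real.sqrt_le_sqrt
    push_cast
    rw [haR]
    have : (A : ℝ) ^ 2 * n * m (a * n) ≤ A ^ 2 * n * (2 * m n) :=
      mul_le_mul_of_nonneg_left h4 (by positivity)
    nlinarith [this, (by positivity : 0 ≤ (A:ℝ) ^ 2 * n * m n)]
  have hsN : 0 < √(((a * n : ℕ) : ℝ) * m (a * n)) :=
    Real.sqrt_pos.mpr (mul_pos (by exact_mod_cast hN1) hmN)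
  -- √(N m N) * √... : A √(N m N) ≤ √(M m M)
  have hM2 : A * √(((a * n : ℕ) : ℝ) * m (a * n)) ≤
      √(((a * (a * n) : ℕ) : ℝ) * m (a * (a * n))) := by
    rw [show (A : ℝ) * √(((a * n : ℕ) : ℝ) * m (a * n)) =
        √(A ^ 2 * (((a * n : ℕ) : ℝ) * m (a * n))) by
      rw [Real.sqrt_mul (by positivity : (0:ℝ) ≤ (A:ℝ) ^ 2), Real.sqrt_sq hA0.le]]
    apply Real.sqrt_le_sqrt
    push_cast
    rw [haR]
    have : (A : ℝ) ^ 2 * ((A : ℝ) ^ 2 * n) * m (a * n) ≤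
        (A : ℝ) ^ 2 * ((A : ℝ) ^ 2 * n) * m (a * (a * n)) :=
      mul_le_mul_of_nonneg_left hmNM (by positivity)
    linarith
  -- the three pieces
  have hhead := head_le hb0 hs hn
  have htail := tail_le hb0 hs hM1
  have hsplit := gdiff_le hb0 hs hN1 hnM
  have hmid : ∑ k ∈ Ico n (a * (a * n)), b k ≤ (a * (a * n) : ℝ) * b n := by
    calc ∑ k ∈ Ico n (a * (a * n)), b k ≤ ∑ k ∈ Ico n (a * (a * n)), b n :=
          Finset.sum_le_sum (fun k hk => hanti (Finset.mem_Ico.mp hk).1)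
      _ = ((a * (a * n) - n : ℕ) : ℝ) * b n := by
          rw [Finset.sum_const, Nat.card_Ico, nsmul_eq_mul]
      _ ≤ (a * (a * n) : ℝ) * b n := by
          apply mul_le_mul_of_nonneg_right _ (hb0 n)
          have : ((a * (a * n) - n : ℕ) : ℝ) ≤ ((a * (a * n) : ℕ) : ℝ) := by
            exact_mod_cast Nat.sub_le _ _
          push_cast at this
          exact this
  -- head / N ≤ 2 C / (a √(n m n)) ≤ (4 C / A) / √(N m N)
  have hp1 : (∑ k ∈ range n, (k : ℝ) * b k) / ((a * n : ℕ) : ℝ) ≤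
      (4 * C / A) / √(((a * n : ℕ) : ℝ) * m (a * n)) := by
    have hNpos : (0 : ℝ) < ((a * n : ℕ) : ℝ) := by exact_mod_cast hN1
    rw [div_le_div_iff₀ hNpos hsN]
    have q1 : ∑ k ∈ range n, (k : ℝ) * b k ≤ 2 * n * (C / √(n * m n)) :=
      hhead.trans (mul_le_mul_of_nonneg_left h2 (by positivity))
    have q2 : 0 ≤ ∑ k ∈ range n, (k : ℝ) * b k :=
      Finset.sum_nonneg (fun k _ => mul_nonneg (by positivity) (hb0 k))
    calc (∑ k ∈ range n, (k : ℝ) * b k) * √(((a * n : ℕ) : ℝ) * m (a * n))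
        ≤ (2 * n * (C / √(n * m n))) * (2 * A * √(n * m n)) :=
          mul_le_mul q1 hN2 hsN.le (by positivity)
      _ = 4 * C * A * n := by field_simp; ring
      _ = 4 * C / A * ((a * n : ℕ) : ℝ) := by push_cast; rw [haR]; field_simp
  -- S / N ≤ (c/10) / √(N m N)
  have hp2 : S / ((a * n : ℕ) : ℝ) ≤ (c / 10) / √(((a * n : ℕ) : ℝ) * m (a * n)) := by
    have hNpos : (0 : ℝ) < ((a * n : ℕ) : ℝ) := by exact_mod_cast hN1
    rw [div_le_div_iff₀ hNpos hsN]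
    have h6 : S * √(((a * n : ℕ) : ℝ) * m (a * n)) ≤ S * (c / (10 * (S + 1)) * ((a * n : ℕ) : ℝ)) :=
      mul_le_mul_of_nonneg_left h5 hS0
    have h7 : S * (c / (10 * (S + 1))) ≤ c / 10 := by
      rw [← mul_div_assoc, div_le_div_iff₀ (by positivity) (by norm_num)]
      nlinarith
    calc _ ≤ _ := h6
      _ = (S * (c / (10 * (S + 1)))) * ((a * n : ℕ) : ℝ) := by ring
      _ ≤ c / 10 * ((a * n : ℕ) : ℝ) := mul_le_mul_of_nonneg_right h7 hNpos.le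
  -- tail ≤ (2 C / A) / √(N m N)
  have hp3 : ∑' k, b (k + a * (a * n)) ≤ (2 * C / A) / √(((a * n : ℕ) : ℝ) * m (a * n)) := by
    have q1 : ∑' k, b (k + a * (a * n)) ≤
        2 * (C / √(((a * (a * n) : ℕ) : ℝ) * m (a * (a * n)))) := by linarith
    have q2 : C / √(((a * (a * n) : ℕ) : ℝ) * m (a * (a * n))) ≤
        C / (A * √(((a * n : ℕ) : ℝ) * m (a * n))) :=
      div_le_div_of_nonneg_left hC.le (by positivity) hM2
    have q3 : 2 * (C / (A * √(((a * n : ℕ) : ℝ) * m (a * n)))) =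
        (2 * C / A) / √(((a * n : ℕ) : ℝ) * m (a * n)) := by field_simp
    linarith
  have hsum : (2 * ∑ k ∈ range n, (k : ℝ) * b k + S) / ((a * n : ℕ) : ℝ) =
      2 * ((∑ k ∈ range n, (k : ℝ) * b k) / ((a * n : ℕ) : ℝ)) + S / ((a * n : ℕ) : ℝ) := by ring
  have hfin : (9 * c / 10 - 10 * C / A) / √(((a * n : ℕ) : ℝ) * m (a * n)) ≤
      (a * (a * n) : ℝ) * b n := by
    have q0 : (9 * c / 10 - 10 * C / A) / √(((a * n : ℕ) : ℝ) * m (a * n)) =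
        c / √(((a * n : ℕ) : ℝ) * m (a * n)) -
          2 * ((4 * C / A) / √(((a * n : ℕ) : ℝ) * m (a * n))) -
          (c / 10) / √(((a * n : ℕ) : ℝ) * m (a * n)) -
          (2 * C / A) / √(((a * n : ℕ) : ℝ) * m (a * n)) := by
      ring
    rw [q0]
    linarith
  have hhalf : c / 3 ≤ 9 * c / 10 - 10 * C / A := by
    have : 10 * C / A ≤ c / 2 := by
      rw [div_le_div_iff₀ hA0 (by norm_num)]
      nlinarith
    linarith
  have hfin2 : (c / 3) / (2 * A * √(n * m n)) ≤ (a * (a * n) : ℝ) * b n := by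
    refine le_trans ?_ hfin
    exact div_le_div₀ (le_trans (by positivity) hhalf) hhalf hsN hN2
  rw [haR] at hfin2
  rw [div_le_iff₀ (by positivity)] at hfin2
  rw [div_le_iff₀ (by positivity), div_le_iff₀ (by positivity)]
  have hb := hb0 n
  nlinarith [hfin2, mul_nonneg hb (by positivity : (0:ℝ) ≤ (A:ℝ) ^ 5 * (n * √(n * m n)))]

/-! ### the facts on `mm` -/

lemma mm_mono' {ℓ : ℕ → ℝ} (hℓ : SV ℓ) : Monotone (mm ℓ) := by
  intro a b hab
  unfold mm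
  refine Finset.sum_le_sum_of_subset_of_nonneg (Finset.Icc_subset_Icc_right hab) (fun k hk _ => ?_)
  have hk1 := (Finset.mem_Icc.mp hk).1
  have := hℓ.pos k hk1
  positivity

lemma mm_pos' {ℓ : ℕ → ℝ} (hℓ : SV ℓ) {N : ℕ} (hN : 1 ≤ N) : 0 < mm ℓ N := by
  unfold mm
  refine Finset.sum_pos (fun k hk => ?_) ⟨1, Finset.mem_Icc.mpr ⟨le_refl 1, hN⟩⟩
  have hk1 := (Finset.mem_Icc.mp hk).1
  have h0 := hℓ.pos k hk1
  have : (0 : ℝ) < k := by exact_mod_cast hk1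
  positivity

/-- `mm ℓ N ≤ (1 / ℓ 1) (1 + log N)` -/
lemma mm_le_log {ℓ : ℕ → ℝ} (hℓ : SV ℓ) (N : ℕ) : mm ℓ N ≤ 1 / ℓ 1 * (1 + Real.log N) := by
  have h1 := harmonic_le_one_add_log N
  have h0 := hℓ.pos 1 le_rfl
  have h2 : mm ℓ N ≤ 1 / ℓ 1 * (harmonic N : ℝ) := by
    unfold mm
    rw [harmonic_eq_sum_Icc]
    push_cast
    rw [Finset.mul_sum]
    refine Finset.sum_le_sum (fun k hk => ?_)
    have hk1 := (Finset.mem_Icc.mp hk).1
    have hk0 : (0 : ℝ) < k := by exact_mod_cast hk1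
    have h3 := hℓ.mono 1 k le_rfl hk1
    rw [one_div, one_div, mul_inv, mul_comm]
    exact mul_le_mul_of_nonneg_right (inv_anti₀ h0 h3) (by positivity)
  exact h2.trans (mul_le_mul_of_nonneg_left h1 (by positivity))

/-- `mm ℓ N ≥ (1 / ℓ N) log (N + 1)` -/
lemma log_le_mm {ℓ : ℕ → ℝ} (hℓ : SV ℓ) {N : ℕ} (hN : 1 ≤ N) :
    1 / ℓ N * Real.log (N + 1) ≤ mm ℓ N := by
  have h1 := log_add_one_le_harmonic N
  have h0 := hℓ.pos N hN
  have h2 : 1 / ℓ N * (harmonic N : ℝ) ≤ mm ℓ N := by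
    unfold mm
    rw [harmonic_eq_sum_Icc]
    push_cast
    rw [Finset.mul_sum]
    refine Finset.sum_le_sum (fun k hk => ?_)
    obtain ⟨hk1, hk2⟩ := Finset.mem_Icc.mp hk
    have hk0 : (0 : ℝ) < k := by exact_mod_cast hk1
    have h3 := hℓ.mono k N hk1 hk2
    rw [one_div, one_div, mul_inv, mul_comm (k : ℝ)⁻¹]
    exact mul_le_mul_of_nonneg_right (inv_anti₀ (hℓ.pos k hk1) h3) (by positivity)
  push_cast at h1
  exact (mul_le_mul_of_nonneg_left h1 (by positivity)).trans h2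

/-- slow variation -/
lemma mm_slow {ℓ : ℕ → ℝ} (hℓ : SV ℓ) (K : ℕ) : ∀ᶠ n in atTop, mm ℓ (K * n) ≤ 2 * mm ℓ n := by
  have hlog : Tendsto (fun n : ℕ => Real.log ((n : ℝ) + 1)) atTop atTop :=
    Real.tendsto_log_atTop.comp (tendsto_atTop_add_const_right _ _ tendsto_natCast_atTop_atTop)
  filter_upwards [hlog.eventually_ge_atTop (K : ℝ), eventually_ge_atTop 1] with n h1 hn
  rcases Nat.eq_zero_or_pos K with hK | hK
  · subst hK
    have := mm_pos' hℓ hn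
    have h0 : mm ℓ 0 = 0 := by simp [mm]
    rw [Nat.zero_mul, h0]; positivity
  have hnK : n ≤ K * n := by nlinarith
  have h0 := hℓ.pos n hn
  have hn0 : (0 : ℝ) < n := by exact_mod_cast hn
  have hsplit : mm ℓ (K * n) = mm ℓ n + ∑ k ∈ Finset.Ioc n (K * n), 1 / ((k : ℝ) * ℓ k) := by
    unfold mm
    have : Finset.Icc 1 (K * n) = Finset.Icc 1 n ∪ Finset.Ioc n (K * n) := by
      ext x; simp only [Finset.mem_union, Finset.mem_Icc, Finset.mem_Ioc]; omega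
    rw [this, Finset.sum_union]
    rw [Finset.disjoint_left]
    intro x hx hx'
    have := Finset.mem_Icc.mp hx; have := Finset.mem_Ioc.mp hx'; omega
  have hrest : ∑ k ∈ Finset.Ioc n (K * n), 1 / ((k : ℝ) * ℓ k) ≤ 1 / ℓ n * K := by
    have h2 : ∑ k ∈ Finset.Ioc n (K * n), 1 / ((k : ℝ) * ℓ k) ≤
        ∑ k ∈ Finset.Ioc n (K * n), 1 / ((n : ℝ) * ℓ n) := by
      refine Finset.sum_le_sum (fun k hk => ?_)
      obtain ⟨hk1, hk2⟩ := Finset.mem_Ioc.mp hk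
      apply one_div_le_one_div_of_le (by positivity)
      have h3 := hℓ.mono n k hn hk1.le
      have h4 : (n : ℝ) ≤ k := by exact_mod_cast hk1.le
      exact mul_le_mul h4 h3 h0.le (by positivity)
    refine h2.trans ?_
    rw [Finset.sum_const, Nat.card_Ioc, nsmul_eq_mul]
    have h5 : ((K * n - n : ℕ) : ℝ) ≤ K * n := by
      have : ((K * n - n : ℕ) : ℝ) ≤ ((K * n : ℕ) : ℝ) := by exact_mod_cast Nat.sub_le _ _
      push_cast at this; exact this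
    calc ((K * n - n : ℕ) : ℝ) * (1 / ((n : ℝ) * ℓ n)) ≤ (K * n) * (1 / ((n : ℝ) * ℓ n)) :=
          mul_le_mul_of_nonneg_right h5 (by positivity)
      _ = 1 / ℓ n * K := by field_simp
  have h6 := log_le_mm hℓ hn
  have h7 : 1 / ℓ n * K ≤ 1 / ℓ n * Real.log (n + 1) :=
    mul_le_mul_of_nonneg_left h1 (by positivity)
  linarith

/-- `mm ℓ N / N → 0` in the form needed -/
lemma mm_sub {ℓ : ℕ → ℝ} (hℓ : SV ℓ) :
    ∀ ε : ℝ, 0 < ε → ∀ᶠ n : ℕ in atTop, √(n * mm ℓ n) ≤ ε * n := by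
  intro ε hε
  have h0 := hℓ.pos 1 le_rfl
  -- (1 + log n) ≤ ε^2 ℓ1 n eventually
  have hl : Tendsto (fun n : ℕ => Real.log n / n) atTop (nhds 0) := by
    have := Real.isLittleO_log_id_atTop.tendsto_div_nhds_zero.comp tendsto_natCast_atTop_atTop
    simpa [Function.comp_def] using this
  have h1 : Tendsto (fun n : ℕ => 1 / (n : ℝ)) atTop (nhds 0) := tendsto_one_div_atTop_nhds_zero_nat
  have h2 := (h1.add hl).eventually (gt_mem_nhds (show (0 : ℝ) + 0 < ε ^ 2 * ℓ 1 by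
    rw [add_zero]; positivity))
  filter_upwards [h2, eventually_ge_atTop 1] with n h3 hn
  have hn0 : (0 : ℝ) < n := by exact_mod_cast hn
  have h4 : 1 + Real.log n ≤ ε ^ 2 * ℓ 1 * n := by
    rw [← add_div, div_lt_iff₀ hn0] at h3
    exact h3.le
  have h5 : mm ℓ n ≤ ε ^ 2 * n := by
    refine (mm_le_log hℓ n).trans ?_
    calc 1 / ℓ 1 * (1 + Real.log n) ≤ 1 / ℓ 1 * (ε ^ 2 * ℓ 1 * n) :=
          mul_le_mul_of_nonneg_left h4 (by positivity)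
      _ = ε ^ 2 * n := by field_simp
  rw [show ε * (n : ℝ) = √((ε * n) ^ 2) from
    (Real.sqrt_sq (show (0 : ℝ) ≤ ε * n by positivity)).symm]
  apply Real.sqrt_le_sqrt
  nlinarith [mul_le_mul_of_nonneg_left h5 hn0.le]

end TB

/-- the monotone Tauberian theorem -/
theorem taub {b : ℕ → ℝ} {ℓ : ℕ → ℝ} (hℓ : SV ℓ) (hb : ∀ n, 0 < b n) (hanti : Antitone b) (hs : Summable b)
    {c C t₀ : ℝ} (hc : 0 < c) (ht₀ : t₀ ∈ Set.Ioo (0 : ℝ) 1)
    (h : ∀ t ∈ Set.Ico t₀ 1, 0 < ∑' n, b n * (1 - t ^ (2 * n + 1)) ∧ ∑' n, b n * (1 - t ^ (2 * n + 1)) < 1 ∧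
      c * (∑' n, b n * (1 - t ^ (2 * n + 1))) ^ 2 * mm ℓ ⌊1 / ∑' n, b n * (1 - t ^ (2 * n + 1))⌋₊ ≤ 1 - t ∧
      1 - t ≤ C * (∑' n, b n * (1 - t ^ (2 * n + 1))) ^ 2 * mm ℓ ⌊1 / ∑' n, b n * (1 - t ^ (2 * n + 1))⌋₊) :
    ∃ c₁ C₁ : ℝ, 0 < c₁ ∧ ∀ n : ℕ, 1 ≤ n → c₁ * (1 / ((n : ℝ) * Real.sqrt (n * mm ℓ n))) ≤ b n ∧
      b n ≤ C₁ * (1 / ((n : ℝ) * Real.sqrt (n * mm ℓ n))) := by
  have hb0 : ∀ n, 0 ≤ b n := fun n => (hb n).le
  have hℓ1 := hℓ.pos 1 le_rfl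
  -- the relation at t = 1 - 1/N
  obtain ⟨N₀, hN₀1, hN₀⟩ : ∃ N₀ : ℕ, 1 ≤ N₀ ∧ ∀ N : ℕ, N₀ ≤ N → (1 - 1 / (N : ℝ)) ∈ Set.Ico t₀ 1 := by
    obtain ⟨N₀, h1⟩ := exists_nat_gt (1 / (1 - t₀))
    have h2 : 0 < 1 - t₀ := by linarith [ht₀.2]
    have h3 : (0 : ℝ) < N₀ := lt_trans (by positivity) h1
    refine ⟨N₀, by exact_mod_cast h3, fun N hN => ?_⟩
    have h4 : (N₀ : ℝ) ≤ N := by exact_mod_cast hN
    have h5 : (0 : ℝ) < N := lt_of_lt_of_le h3 h4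
    have h6 : 1 / (N : ℝ) ≤ 1 - t₀ := by
      rw [div_le_iff₀ h5]
      rw [div_lt_iff₀ h2] at h1
      nlinarith
    have h7 : 0 < 1 / (N : ℝ) := by positivity
    exact ⟨by linarith, by linarith⟩
  have hrel : ∀ N : ℕ, N₀ ≤ N → 0 < TB.gdiff b N ∧ TB.gdiff b N < 1 ∧
      c * TB.gdiff b N ^ 2 * mm ℓ ⌊1 / TB.gdiff b N⌋₊ ≤ 1 / N ∧
      1 / N ≤ C * TB.gdiff b N ^ 2 * mm ℓ ⌊1 / TB.gdiff b N⌋₊ := by
    intro N hN
    have h1 := h _ (hN₀ N hN)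
    rw [sub_sub_cancel] at h1
    exact h1
  -- C is positive
  have hC : 0 < C := by
    obtain ⟨h1, h2, h3, h4⟩ := hrel N₀ le_rfl
    have hN0 : (0 : ℝ) < N₀ := by exact_mod_cast hN₀1
    have h5 : 0 < 1 / (N₀ : ℝ) := by positivity
    by_contra hneg
    have h6 : C * TB.gdiff b N₀ ^ 2 * mm ℓ ⌊1 / TB.gdiff b N₀⌋₊ ≤ 0 := by
      have h7 : 0 ≤ mm ℓ ⌊1 / TB.gdiff b N₀⌋₊ := by
        have := TB.mm_mono' hℓ (Nat.zero_le ⌊1 / TB.gdiff b N₀⌋₊)
        have h0 : mm ℓ 0 = 0 := by simp [mm]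
        linarith
      have h8 : C * TB.gdiff b N₀ ^ 2 ≤ 0 :=
        mul_nonpos_of_nonpos_of_nonneg (not_lt.mp hneg) (by positivity)
      exact mul_nonpos_of_nonpos_of_nonneg h8 h7
    linarith
  -- M = ⌊1/y⌋
  have hM : ∀ N : ℕ, N₀ ≤ N → 1 ≤ ⌊1 / TB.gdiff b N⌋₊ ∧
      (⌊1 / TB.gdiff b N⌋₊ : ℝ) * TB.gdiff b N ≤ 1 ∧
      1 ≤ 2 * (⌊1 / TB.gdiff b N⌋₊ : ℝ) * TB.gdiff b N := by
    intro N hN
    obtain ⟨h1, h2, -, -⟩ := hrel N hN
    have h3 : 1 ≤ 1 / TB.gdiff b N := by rw [le_div_iff₀ h1]; linarith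
    have h4 : 1 ≤ ⌊1 / TB.gdiff b N⌋₊ := Nat.le_floor (by simpa using h3)
    have h5 := Nat.floor_le (show (0 : ℝ) ≤ 1 / TB.gdiff b N by positivity)
    have h6 := Nat.lt_floor_add_one (1 / TB.gdiff b N)
    have h4' : (1 : ℝ) ≤ (⌊1 / TB.gdiff b N⌋₊ : ℝ) := by exact_mod_cast h4
    refine ⟨h4, ?_, ?_⟩
    · rw [le_div_iff₀ h1] at h5; exact h5
    · rw [div_lt_iff₀ h1] at h6
      nlinarith
  -- K₁ with N ≤ K₁ M²
  obtain ⟨K₁, hK₁⟩ := exists_nat_ge (4 / (c * mm ℓ 1))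
  have hmm1 := TB.mm_pos' hℓ (le_refl 1)
  have hNM : ∀ N : ℕ, N₀ ≤ N → N ≤ K₁ * ⌊1 / TB.gdiff b N⌋₊ ^ 2 := by
    intro N hN
    obtain ⟨h1, h2, h3, h4⟩ := hrel N hN
    obtain ⟨h5, h6, h7⟩ := hM N hN
    have hN0 : (0 : ℝ) < N := by exact_mod_cast lt_of_lt_of_le hN₀1 hN
    set M := ⌊1 / TB.gdiff b N⌋₊
    set y := TB.gdiff b N
    have hM0 : (1 : ℝ) ≤ M := by exact_mod_cast h5
    have h8 : mm ℓ 1 ≤ mm ℓ M := TB.mm_mono' hℓ h5
    have h9 : c * y ^ 2 * mm ℓ 1 ≤ 1 / N :=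
      (mul_le_mul_of_nonneg_left h8 (by positivity)).trans h3
    rw [le_div_iff₀ hN0] at h9
    -- y ≥ 1/(2M)
    have h10 : 1 ≤ 4 * (M : ℝ) ^ 2 * y ^ 2 := by nlinarith
    have h11 : (N : ℝ) * (c * mm ℓ 1) ≤ 4 * (M : ℝ) ^ 2 := by
      have e1 : (N : ℝ) * (c * mm ℓ 1) ≤ (N : ℝ) * (c * mm ℓ 1) * (4 * (M : ℝ) ^ 2 * y ^ 2) :=
        le_mul_of_one_le_right (by positivity) h10
      have e2 : (N : ℝ) * (c * mm ℓ 1) * (4 * (M : ℝ) ^ 2 * y ^ 2) =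
          4 * (M : ℝ) ^ 2 * (c * y ^ 2 * mm ℓ 1 * N) := by ring
      have e3 : 4 * (M : ℝ) ^ 2 * (c * y ^ 2 * mm ℓ 1 * N) ≤ 4 * (M : ℝ) ^ 2 * 1 :=
        mul_le_mul_of_nonneg_left h9 (by positivity)
      linarith
    have h12 : (N : ℝ) ≤ 4 / (c * mm ℓ 1) * (M : ℝ) ^ 2 := by
      rw [div_mul_eq_mul_div, le_div_iff₀ (by positivity)]
      exact h11
    have h13 : (N : ℝ) ≤ K₁ * (M : ℝ) ^ 2 :=
      h12.trans (mul_le_mul_of_nonneg_right hK₁ (by positivity))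
    exact_mod_cast h13
  -- K₂ with M ≤ K₂ N
  obtain ⟨K₂, hK₂⟩ := exists_nat_ge (C / ℓ 1)
  have hMN : ∀ N : ℕ, N₀ ≤ N → ⌊1 / TB.gdiff b N⌋₊ ≤ K₂ * N := by
    intro N hN
    obtain ⟨h1, h2, h3, h4⟩ := hrel N hN
    obtain ⟨h5, h6, h7⟩ := hM N hN
    have hN0 : (0 : ℝ) < N := by exact_mod_cast lt_of_lt_of_le hN₀1 hN
    set M := ⌊1 / TB.gdiff b N⌋₊
    set y := TB.gdiff b N
    have hM0 : (1 : ℝ) ≤ M := by exact_mod_cast h5
    have h8 : mm ℓ M ≤ M / ℓ 1 := by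
      unfold mm
      calc ∑ k ∈ Finset.Icc 1 M, 1 / ((k : ℝ) * ℓ k) ≤ ∑ k ∈ Finset.Icc 1 M, 1 / ℓ 1 := by
            refine Finset.sum_le_sum (fun k hk => ?_)
            have hk1 := (Finset.mem_Icc.mp hk).1
            have hk0 : (1 : ℝ) ≤ k := by exact_mod_cast hk1
            apply one_div_le_one_div_of_le hℓ1
            have h3 := hℓ.mono 1 k le_rfl hk1
            nlinarith
        _ = M / ℓ 1 := by rw [Finset.sum_const, Nat.card_Icc]; simp; ring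
    rw [div_le_iff₀ hN0] at h4
    have h9 : 1 ≤ C * y ^ 2 * (M / ℓ 1) * N := by
      refine h4.trans (mul_le_mul_of_nonneg_right (mul_le_mul_of_nonneg_left h8 (by positivity)) hN0.le)
    -- multiply by M
    have h10 : (M : ℝ) ≤ C / ℓ 1 * N := by
      have e1 : (M : ℝ) ≤ M * (C * y ^ 2 * (M / ℓ 1) * N) := le_mul_of_one_le_right (by positivity) h9
      have e2 : (M : ℝ) * (C * y ^ 2 * (M / ℓ 1) * N) = (M * y) ^ 2 * (C / ℓ 1 * N) := by ring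
      have e3 : ((M : ℝ) * y) ^ 2 * (C / ℓ 1 * N) ≤ 1 * (C / ℓ 1 * N) := by
        apply mul_le_mul_of_nonneg_right _ (by positivity)
        have : 0 ≤ (M : ℝ) * y := by positivity
        nlinarith
      linarith
    have h11 : (M : ℝ) ≤ K₂ * N := h10.trans (mul_le_mul_of_nonneg_right hK₂ hN0.le)
    exact_mod_cast h11
  -- M tends to infinity
  have hMt : Tendsto (fun N => ⌊1 / TB.gdiff b N⌋₊) atTop atTop := by
    rw [tendsto_atTop]
    intro B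
    filter_upwards [eventually_ge_atTop N₀, eventually_gt_atTop (K₁ * B ^ 2)] with N h1 h2
    by_contra h3
    have h4 := hNM N h1
    have h5 : ⌊1 / TB.gdiff b N⌋₊ ^ 2 ≤ B ^ 2 := Nat.pow_le_pow_left (not_le.mp h3).le 2
    have h6 : K₁ * ⌊1 / TB.gdiff b N⌋₊ ^ 2 ≤ K₁ * B ^ 2 := Nat.mul_le_mul_left _ h5
    omega
  have hMt2 : Tendsto (fun N => ⌊1 / TB.gdiff b N⌋₊ ^ 2) atTop atTop :=
    (tendsto_pow_atTop two_ne_zero).comp hMt
  obtain ⟨Cs, hCs⟩ := hℓ.sq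
  -- upper bound for gdiff
  have hup : ∃ C' : ℝ, 0 < C' ∧ ∀ᶠ N : ℕ in atTop, TB.gdiff b N ≤ C' / √(N * mm ℓ N) := by
    refine ⟨√(2 * max Cs 1 / c), by positivity, ?_⟩
    filter_upwards [eventually_ge_atTop N₀, hMt2.eventually (TB.mm_slow hℓ K₁)] with N h1 h2
    obtain ⟨g1, g2, g3, g4⟩ := hrel N h1
    obtain ⟨f1, f2, f3⟩ := hM N h1
    have hN1 : 1 ≤ N := hN₀1.trans h1
    have hN0 : (0 : ℝ) < N := by exact_mod_cast hN1
    have hmN := TB.mm_pos' hℓ hN1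
    have e1 : mm ℓ N ≤ 2 * (max Cs 1 * mm ℓ ⌊1 / TB.gdiff b N⌋₊) := by
      have q1 := TB.mm_mono' hℓ (hNM N h1)
      have q2 := hCs _ f1
      have q3 : Cs * mm ℓ ⌊1 / TB.gdiff b N⌋₊ ≤ max Cs 1 * mm ℓ ⌊1 / TB.gdiff b N⌋₊ :=
        mul_le_mul_of_nonneg_right (le_max_left _ _) (TB.mm_pos' hℓ f1).le
      linarith
    rw [le_div_iff₀ (Real.sqrt_pos.mpr (by positivity))]
    apply Real.le_sqrt_of_sq_le
    rw [mul_pow, Real.sq_sqrt (by positivity), le_div_iff₀ hc]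
    rw [le_div_iff₀ hN0] at g3
    have e2 : TB.gdiff b N ^ 2 * (N * mm ℓ N) * c ≤
        TB.gdiff b N ^ 2 * (N * (2 * (max Cs 1 * mm ℓ ⌊1 / TB.gdiff b N⌋₊))) * c := by
      gcongr
    have e3 : TB.gdiff b N ^ 2 * (N * (2 * (max Cs 1 * mm ℓ ⌊1 / TB.gdiff b N⌋₊))) * c =
        2 * max Cs 1 * (c * TB.gdiff b N ^ 2 * mm ℓ ⌊1 / TB.gdiff b N⌋₊ * N) := by ring
    have e4 : 2 * max Cs 1 * (c * TB.gdiff b N ^ 2 * mm ℓ ⌊1 / TB.gdiff b N⌋₊ * N) ≤
        2 * max Cs 1 * 1 := mul_le_mul_of_nonneg_left g3 (by positivity)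
    linarith
  have hlo : ∃ c' : ℝ, 0 < c' ∧ ∀ᶠ N : ℕ in atTop, c' / √(N * mm ℓ N) ≤ TB.gdiff b N := by
    refine ⟨√(1 / (2 * C)), by positivity, ?_⟩
    filter_upwards [eventually_ge_atTop N₀, TB.mm_slow hℓ K₂] with N h1 h2
    obtain ⟨g1, g2, g3, g4⟩ := hrel N h1
    have hN1 : 1 ≤ N := hN₀1.trans h1
    have hN0 : (0 : ℝ) < N := by exact_mod_cast hN1
    have hmN := TB.mm_pos' hℓ hN1
    have e1 : mm ℓ ⌊1 / TB.gdiff b N⌋₊ ≤ 2 * mm ℓ N := (TB.mm_mono' hℓ (hMN N h1)).trans h2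
    rw [div_le_iff₀ (Real.sqrt_pos.mpr (by positivity))]
    apply Real.sqrt_le_iff.mpr
    refine ⟨by positivity, ?_⟩
    rw [mul_pow, Real.sq_sqrt (by positivity), div_le_iff₀ (by positivity)]
    rw [div_le_iff₀ hN0] at g4
    have e2 : C * TB.gdiff b N ^ 2 * mm ℓ ⌊1 / TB.gdiff b N⌋₊ * N ≤
        C * TB.gdiff b N ^ 2 * (2 * mm ℓ N) * N := by gcongr
    linarith
  obtain ⟨C', hC', hup⟩ := hup
  obtain ⟨c', hc', hlo⟩ := hlo
  have hmp : ∀ n, 1 ≤ n → 0 < mm ℓ n := fun n hn => TB.mm_pos' hℓ hn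
  have u := TB.tauber_upper hb0 hanti hs hmp (TB.mm_mono' hℓ) (TB.mm_slow hℓ) hup
  obtain ⟨c₂, hc₂, l⟩ := TB.tauber_lower hc' hC' hb0 hanti hs hmp (TB.mm_mono' hℓ) (TB.mm_slow hℓ)
    (TB.mm_sub hℓ) hlo hup
  obtain ⟨N₁, hN₁⟩ := (u.and l).exists_forall_of_atTop
  have hphi : ∀ n : ℕ, 1 ≤ n → 0 < (n : ℝ) * √(n * mm ℓ n) := by
    intro n hn
    have h1 : (0 : ℝ) < n := by exact_mod_cast hn
    have h2 := hmp n hn
    exact mul_pos h1 (Real.sqrt_pos.mpr (by positivity))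
  -- the finitely many small n
  set A : ℝ := ∑ n ∈ Finset.Icc 1 N₁, b n * (n * √(n * mm ℓ n)) with hA
  have hA1 : ∀ n, 1 ≤ n → n ≤ N₁ → b n * (n * √(n * mm ℓ n)) ≤ A := by
    intro n h1 h2
    exact Finset.single_le_sum (f := fun n : ℕ => b n * (n * √(n * mm ℓ n)))
      (fun k hk => (mul_pos (hb k) (hphi k (Finset.mem_Icc.mp hk).1)).le)
      (Finset.mem_Icc.mpr ⟨h1, h2⟩)
  set A' : ℝ := ∑ n ∈ Finset.Icc 1 N₁, 1 / (b n * (n * √(n * mm ℓ n))) with hA'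
  have hA'1 : ∀ n, 1 ≤ n → n ≤ N₁ → 1 / (b n * (n * √(n * mm ℓ n))) ≤ A' := by
    intro n h1 h2
    exact Finset.single_le_sum (f := fun n : ℕ => 1 / (b n * (n * √(n * mm ℓ n))))
      (fun k hk => (one_div_pos.mpr (mul_pos (hb k) (hphi k (Finset.mem_Icc.mp hk).1))).le)
      (Finset.mem_Icc.mpr ⟨h1, h2⟩)
  have hA'0 : 0 ≤ A' := Finset.sum_nonneg (fun k hk =>
    (one_div_pos.mpr (mul_pos (hb k) (hphi k (Finset.mem_Icc.mp hk).1))).le)
  refine ⟨min c₂ (1 / (A' + 1)), max (18 * C') A, by positivity, fun n hn => ?_⟩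
  have hp := hphi n hn
  rcases le_or_gt N₁ n with h1 | h1
  · obtain ⟨h2, h3⟩ := hN₁ n h1
    constructor
    · calc min c₂ (1 / (A' + 1)) * (1 / (n * √(n * mm ℓ n))) ≤ c₂ * (1 / (n * √(n * mm ℓ n))) :=
            mul_le_mul_of_nonneg_right (min_le_left _ _) (by positivity)
        _ = c₂ / (n * √(n * mm ℓ n)) := by ring
        _ ≤ b n := h3
    · calc b n ≤ (18 * C') / (n * √(n * mm ℓ n)) := h2
        _ = 18 * C' * (1 / (n * √(n * mm ℓ n))) := by ring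
        _ ≤ max (18 * C') A * (1 / (n * √(n * mm ℓ n))) :=
            mul_le_mul_of_nonneg_right (le_max_left _ _) (by positivity)
  · constructor
    · have h2 := hA'1 n hn h1.le
      have hbp : 0 < b n * (n * √(n * mm ℓ n)) := mul_pos (hb n) hp
      have h3 : 1 / (A' + 1) ≤ b n * (n * √(n * mm ℓ n)) := by
        rw [div_le_iff₀ (by positivity)]
        rw [div_le_iff₀ hbp] at h2
        nlinarith
      calc min c₂ (1 / (A' + 1)) * (1 / (n * √(n * mm ℓ n)))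
          ≤ (1 / (A' + 1)) * (1 / (n * √(n * mm ℓ n))) :=
            mul_le_mul_of_nonneg_right (min_le_right _ _) (by positivity)
        _ ≤ b n := by
            rw [mul_one_div, div_le_iff₀ hp]; exact h3
    · have h2 := hA1 n hn h1.le
      calc b n = b n * (n * √(n * mm ℓ n)) * (1 / (n * √(n * mm ℓ n))) := by
            rw [mul_one_div, mul_div_assoc, div_self hp.ne', mul_one]
        _ ≤ A * (1 / (n * √(n * mm ℓ n))) := mul_le_mul_of_nonneg_right h2 (by positivity)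
        _ ≤ max (18 * C') A * (1 / (n * √(n * mm ℓ n))) :=
            mul_le_mul_of_nonneg_right (le_max_right _ _) (by positivity)

end Pool.Agent.RDL
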