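import Pool.Agent.RDL.LVa

/-!
# From the first passage equation to the generating function of the tails
-/

set_option autoImplicit false

namespace Pool.Agent.RDL

open Finset Filter Topology

namespace TaubLa

/-- the generating function of the tails -/
theorem tail_id {b : ℕ → ℝ} (hb : ∀ n, 0 ≤ b n) (hs : Summable b) {x : ℝ} (hx0 : 0 ≤ x) (hx1 : x < 1) :
    (1 - x) * ∑' n, (∑' k, b (k + (n + 1))) * x ^ n = ∑' n, b n * (1 - x ^ n) := by
  obtain ⟨T, hT⟩ : ∃ T : ℕ → ℝ, T = fun n => ∑' k, b (k + (n + 1)) := ⟨_, rfl⟩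
  have hTn : ∀ n, ∑' k, b (k + (n + 1)) = T n := fun n => by rw [hT]
  have hsk : ∀ n, Summable (fun k => b (k + n)) := fun n => (summable_nat_add_iff n).2 hs
  have hT1 : ∀ n, T n = b (n + 1) + T (n + 1) := by
    intro n
    rw [← hTn, ← hTn, (hsk (n + 1)).tsum_eq_zero_add, zero_add]
    congr 1
    refine tsum_congr fun k => ?_
    rw [add_assoc k 1 (n + 1), add_comm 1 (n + 1)]
  have hT0 : ∀ n, 0 ≤ T n := fun n => by
    rw [← hTn]
    exact tsum_nonneg fun k => hb _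
  have hTS : ∀ n, T n ≤ T 0 := by
    intro n
    induction n with
    | zero => exact le_rfl
    | succ n ih =>
      have h1 := hT1 n
      have h2 := hb (n + 1)
      linarith
  have hxn : Summable (fun n => T n * x ^ n) := by
    refine Summable.of_nonneg_of_le (fun n => mul_nonneg (hT0 n) (pow_nonneg hx0 n))
      (fun n => mul_le_mul_of_nonneg_right (hTS n) (pow_nonneg hx0 n)) ?_
    exact (summable_geometric_of_lt_one hx0 hx1).mul_left _
  simp only [hTn]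
  obtain ⟨F, hF⟩ : ∃ F : ℝ, F = ∑' n, T n * x ^ n := ⟨_, rfl⟩
  have hF0 : HasSum (fun n => T n * x ^ n) F := by
    rw [hF]
    exact hxn.hasSum
  have h1 : HasSum (fun n => T (n + 1) * x ^ (n + 1)) (F - T 0) := by
    have := (hasSum_nat_add_iff' (f := fun n => T n * x ^ n) 1).2 hF0
    simpa using this
  have h2 : HasSum (fun n => T n * x ^ n * x) (F * x) := hF0.mul_right x
  have h3 : HasSum (fun n => b (n + 1)) (T 0) := by
    rw [← hTn]
    exact (hsk (0 + 1)).hasSum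
  have h4 : HasSum (fun n => b (n + 1) * (1 - x ^ (n + 1))) (T 0 - (F * x - (F - T 0))) := by
    refine (h3.sub (h2.sub h1)).congr_fun ?_
    intro n
    have := hT1 n
    rw [this]
    ring
  have h5 : HasSum (fun n => b n * (1 - x ^ n)) (T 0 - (F * x - (F - T 0))) := by
    have h6 := (hasSum_nat_add_iff' (f := fun n => b n * (1 - x ^ n)) (g := T 0 - (F * x - (F - T 0))) 1).1
    refine h6 ?_
    simpa using h4
  rw [h5.tsum_eq, ← hF]
  ring

theorem summ_mul {b c : ℕ → ℝ} (hb : ∀ n, 0 ≤ b n) (hs : Summable b) (hc0 : ∀ n, 0 ≤ c n) (hc1 : ∀ n, c n ≤ 1) :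
    Summable (fun n => b n * c n) :=
  Summable.of_nonneg_of_le (fun n => mul_nonneg (hb n) (hc0 n)) (fun n => mul_le_of_le_one_right (hb n) (hc1 n)) hs

/-- the splitting of `y` -/
theorem y_split {b : ℕ → ℝ} (hb : ∀ n, 0 ≤ b n) (hs : Summable b) {t : ℝ} (ht0 : 0 ≤ t) (ht1 : t < 1) :
    ∑' n, b n * (1 - t ^ (2 * n + 1)) = (1 - t ^ 2) * (∑' n, (∑' k, b (k + (n + 1))) * (t ^ 2) ^ n) +
      (1 - t) * ∑' n, b n * t ^ (2 * n) := by
  have hx1 : t ^ 2 < 1 := by nlinarith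
  have hp0 : ∀ k : ℕ, 0 ≤ t ^ k := fun k => pow_nonneg ht0 k
  have hp1 : ∀ k : ℕ, t ^ k ≤ 1 := fun k => pow_le_one₀ ht0 ht1.le
  rw [tail_id hb hs (sq_nonneg t) hx1, ← tsum_mul_left, ← Summable.tsum_add]
  · refine tsum_congr fun n => ?_
    rw [pow_succ, ← pow_mul]
    ring
  · refine summ_mul hb hs (fun n => ?_) (fun n => ?_)
    · rw [← pow_mul]
      have := hp1 (2 * n)
      linarith
    · rw [← pow_mul]
      have := hp0 (2 * n)
      linarith
  · exact (summ_mul hb hs (fun n => hp0 _) (fun n => hp1 _)).mul_left _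

theorem y_pos {b : ℕ → ℝ} (hb : ∀ n, 0 < b n) (hs : Summable b) {t : ℝ} (ht0 : 0 ≤ t) (ht1 : t < 1) :
    0 < ∑' n, b n * (1 - t ^ (2 * n + 1)) := by
  have hp : ∀ k : ℕ, t ^ (2 * k + 1) < 1 := fun k => pow_lt_one₀ ht0 ht1 (by omega)
  refine Summable.tsum_pos ?_ (fun n => ?_) 0 ?_
  · refine summ_mul (fun n => (hb n).le) hs (fun n => ?_) (fun n => ?_)
    · have := hp n
      linarith
    · have := pow_nonneg ht0 (2 * n + 1)
      linarith
  · have := hp n
    exact mul_nonneg (hb n).le (by linarith)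
  · have := hp 0
    exact mul_pos (hb 0) (by linarith)

theorem y_lim {b : ℕ → ℝ} (hb : ∀ n, 0 < b n) (hs : Summable b) :
    Tendsto (fun t : ℝ => ∑' n, b n * (1 - t ^ (2 * n + 1))) (𝓝[<] 1) (𝓝 0) := by
  have h0 : (∑' n : ℕ, (b n * (1 - 1 ^ (2 * n + 1)) : ℝ)) = 0 := by simp
  rw [← h0]
  refine tendsto_tsum_of_dominated_convergence hs (fun n => ?_) ?_
  · have hc : Continuous (fun t : ℝ => b n * (1 - t ^ (2 * n + 1))) := by fun_prop
    exact (hc.tendsto 1).mono_left nhdsWithin_le_nhds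
  · filter_upwards [Ioo_mem_nhdsLT (show (0 : ℝ) < 1 by norm_num)] with t ht n
    have h1 : t ^ (2 * n + 1) ≤ 1 := pow_le_one₀ ht.1.le ht.2.le
    have h2 : 0 ≤ t ^ (2 * n + 1) := pow_nonneg ht.1.le _
    rw [Real.norm_eq_abs, abs_of_nonneg (mul_nonneg (hb n).le (by linarith))]
    exact mul_le_of_le_one_right (hb n).le (by linarith)

/-- the logarithm of the integral part -/
theorem log_floor {z : ℝ} (hz : 1 ≤ z) : |Real.log (⌊z⌋₊ : ℝ) - Real.log z| ≤ Real.log 2 := by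
  have h1 : (⌊z⌋₊ : ℝ) ≤ z := Nat.floor_le (by linarith)
  have h2 : z < ⌊z⌋₊ + 1 := Nat.lt_floor_add_one z
  have h3 : (1 : ℝ) ≤ ⌊z⌋₊ := by exact_mod_cast (Nat.one_le_floor_iff z).2 hz
  have h4 : Real.log (⌊z⌋₊ : ℝ) ≤ Real.log z := Real.log_le_log (by linarith) h1
  have h5 : Real.log z ≤ Real.log (2 * ⌊z⌋₊) := Real.log_le_log (by linarith) (by linarith)
  rw [Real.log_mul (by norm_num) (by linarith)] at h5
  rw [abs_le]
  constructor <;> linarith [Real.log_pos (show (1 : ℝ) < 2 by norm_num)]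

theorem div_zero_of_bdd {ι : Type} {F : Filter ι} {f D : ι → ℝ} {B : ℝ} (hf : ∀ᶠ i in F, |f i| ≤ B)
    (hD : Tendsto D F atTop) : Tendsto (fun i => f i / D i) F (𝓝 0) := by
  have h1 : Tendsto (fun i => B / D i) F (𝓝 0) := hD.const_div_atTop B
  refine squeeze_zero_norm' ?_ h1
  filter_upwards [hf, hD.eventually_gt_atTop 0] with i h2 h3
  rw [norm_div, Real.norm_eq_abs, Real.norm_eq_abs, abs_of_pos h3]
  exact div_le_div_of_nonneg_right h2 h3.le

/-- the logarithm of `M` -/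
theorem log_M {M : ℕ → ℝ} {τ C : ℝ} (hM : LVar M τ) (hC : ∀ n : ℕ, 1 ≤ n → M n ≤ C * (1 + Real.log n)) :
    Tendsto (fun n : ℕ => Real.log (M n) / Real.log n) atTop (𝓝 0) := by
  have hlog : Tendsto (fun n : ℕ => Real.log (n : ℝ)) atTop atTop :=
    Real.tendsto_log_atTop.comp tendsto_natCast_atTop_atTop
  have h1 : 0 < M 1 := hM.pos 1 le_rfl
  have hC0 : 0 < C := by
    have := hC 1 le_rfl
    simp at this
    linarith
  have ha : Tendsto (fun n : ℕ => Real.log (M 1) / Real.log n) atTop (𝓝 0) := hlog.const_div_atTop _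
  have hb : Tendsto (fun n : ℕ => Real.log (C * (1 + Real.log n)) / Real.log n) atTop (𝓝 0) := by
    have h2 : Tendsto (fun x : ℝ => Real.log C / x + Real.log (1 + x) / x) atTop (𝓝 (0 + 0)) := by
      refine (tendsto_id.const_div_atTop _).add ?_
      have h3 : Tendsto (fun x : ℝ => Real.log (1 + x) / (1 + x) * ((1 + x) / x)) atTop (𝓝 (0 * 1)) := by
        have h4 : Tendsto (fun x : ℝ => 1 + x) atTop atTop := tendsto_atTop_add_const_left _ _ tendsto_id
        have h5 : Tendsto (fun x : ℝ => Real.log x / x) atTop (𝓝 0) := by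
          have := Real.isLittleO_log_id_atTop.tendsto_div_nhds_zero
          simpa using this
        refine (h5.comp h4).mul ?_
        have h6 : Tendsto (fun x : ℝ => 1 / x + 1) atTop (𝓝 (0 + 1)) :=
          (tendsto_id.const_div_atTop 1).add tendsto_const_nhds
        rw [zero_add] at h6
        refine h6.congr' ?_
        filter_upwards [eventually_gt_atTop 0] with x hx
        field_simp
      rw [zero_mul] at h3
      refine h3.congr' ?_
      filter_upwards [eventually_gt_atTop 0] with x hx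
      have hx1 : (1 + x) ≠ 0 := by positivity
      field_simp
    rw [add_zero] at h2
    refine (h2.comp hlog).congr' ?_
    filter_upwards [hlog.eventually_gt_atTop 0] with n hn
    show Real.log C / Real.log n + Real.log (1 + Real.log n) / Real.log n = _
    rw [Real.log_mul hC0.ne' (by positivity), add_div]
  refine tendsto_of_tendsto_of_tendsto_of_le_of_le' ha hb ?_ ?_
  · filter_upwards [eventually_ge_atTop 1, hlog.eventually_gt_atTop 0] with n hn hl
    exact div_le_div_of_nonneg_right (Real.log_le_log h1 (hM.mono 1 n le_rfl hn)) hl.le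
  · filter_upwards [eventually_ge_atTop 1, hlog.eventually_gt_atTop 0] with n hn hl
    exact div_le_div_of_nonneg_right (Real.log_le_log (hM.pos n hn) (hC n hn)) hl.le

theorem log_div_lim {C : ℝ} : Tendsto (fun n : ℕ => C * (1 + Real.log n) / n) atTop (𝓝 0) := by
  have h1 : Tendsto (fun x : ℝ => C * (1 / x + Real.log x / x)) atTop (𝓝 (C * (0 + 0))) := by
    refine Tendsto.const_mul _ ((tendsto_id.const_div_atTop 1).add ?_)
    have := Real.isLittleO_log_id_atTop.tendsto_div_nhds_zero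
    simpa using this
  rw [add_zero, mul_zero] at h1
  refine (h1.comp tendsto_natCast_atTop_atTop).congr' ?_
  filter_upwards [eventually_ge_atTop 1] with n hn
  have hn0 : (0 : ℝ) < n := by exact_mod_cast hn
  show C * (1 / (n : ℝ) + Real.log n / n) = _
  field_simp

end TaubLa

open TaubLa

theorem taub_La {b M : ℕ → ℝ} {τ κ C : ℝ} (hM : LVar M τ) (hC : ∀ n : ℕ, 1 ≤ n → M n ≤ C * (1 + Real.log n))
    (hb : ∀ n, 0 < b n) (hs : Summable b) (hκ : 0 < κ)
    (h : Tendsto (fun t : ℝ => (1 - t) / ((∑' n, b n * (1 - t ^ (2 * n + 1))) ^ 2 *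
      M ⌊1 / ∑' n, b n * (1 - t ^ (2 * n + 1))⌋₊)) (𝓝[<] 1) (𝓝 κ)) :
    ∃ κ' > (0 : ℝ), Tendsto (fun x : ℝ => (∑' n, (∑' k, b (k + (n + 1))) * x ^ n) *
      ((1 - x) ^ (1 / 2 : ℝ) * (M ⌊1 / (1 - x)⌋₊) ^ (1 / 2 : ℝ))) (𝓝[<] 1) (𝓝 κ') := by
  have hb0 : ∀ n, 0 ≤ b n := fun n => (hb n).le
  obtain ⟨y, hy⟩ : ∃ y : ℝ → ℝ, y = fun t => ∑' n, b n * (1 - t ^ (2 * n + 1)) := ⟨_, rfl⟩
  have hyt : ∀ t, ∑' n, b n * (1 - t ^ (2 * n + 1)) = y t := fun t => by rw [hy]
  simp only [hyt] at h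
  have hI : ∀ᶠ t in 𝓝[<] (1 : ℝ), t ∈ Set.Ioo (0 : ℝ) 1 := Ioo_mem_nhdsLT (by norm_num)
  have hypos : ∀ t ∈ Set.Ioo (0 : ℝ) 1, 0 < y t := fun t ht => by
    rw [← hyt]
    exact y_pos hb hs ht.1.le ht.2
  have hylim : Tendsto y (𝓝[<] 1) (𝓝[>] 0) := by
    refine tendsto_nhdsWithin_iff.2 ⟨?_, hI.mono fun t ht => hypos t ht⟩
    rw [hy]
    exact y_lim hb hs
  have ha : Tendsto (fun t => 1 / y t) (𝓝[<] 1) atTop := by
    simp only [one_div]
    exact tendsto_inv_nhdsGT_zero.comp hylim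
  have hN : Tendsto (fun t => ⌊1 / y t⌋₊) (𝓝[<] 1) atTop := tendsto_nat_floor_atTop.comp ha
  have hx : Tendsto (fun t : ℝ => 1 - t ^ 2) (𝓝[<] 1) (𝓝[>] 0) := by
    refine tendsto_nhdsWithin_iff.2 ⟨?_, hI.mono fun t ht => ?_⟩
    · have hc : Continuous (fun t : ℝ => 1 - t ^ 2) := by fun_prop
      have h1 := (hc.tendsto 1).mono_left (nhdsWithin_le_nhds (s := Set.Iio 1))
      simpa using h1
    · have : t ^ 2 < 1 := by nlinarith [ht.1, ht.2]
      show 0 < 1 - t ^ 2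
      linarith
  have hw : Tendsto (fun t : ℝ => 1 / (1 - t ^ 2)) (𝓝[<] 1) atTop := by
    simp only [one_div]
    exact tendsto_inv_nhdsGT_zero.comp hx
  have hlog : Tendsto (fun n : ℕ => Real.log (n : ℝ)) atTop atTop :=
    Real.tendsto_log_atTop.comp tendsto_natCast_atTop_atTop
  have hL : Tendsto (fun t => Real.log (⌊1 / y t⌋₊ : ℝ)) (𝓝[<] 1) atTop := hlog.comp hN
  have hlM : Tendsto (fun t => Real.log (M ⌊1 / y t⌋₊) / Real.log (⌊1 / y t⌋₊ : ℝ)) (𝓝[<] 1) (𝓝 0) :=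
    (log_M hM hC).comp hN
  have hq : Tendsto (fun t => Real.log ((1 - t) / (y t ^ 2 * M ⌊1 / y t⌋₊)) / Real.log (⌊1 / y t⌋₊ : ℝ)) (𝓝[<] 1)
      (𝓝 0) := ((Real.continuousAt_log hκ.ne').tendsto.comp h).div_atTop hL
  have he1 : Tendsto (fun t : ℝ => (Real.log (⌊1 / (1 - t ^ 2)⌋₊ : ℝ) - Real.log (1 / (1 - t ^ 2))) /
      Real.log (⌊1 / y t⌋₊ : ℝ)) (𝓝[<] 1) (𝓝 0) :=
    div_zero_of_bdd (by
      filter_upwards [hw.eventually_ge_atTop 1] with t ht
      exact log_floor ht) hL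
  have he2 : Tendsto (fun t : ℝ => (Real.log (⌊1 / y t⌋₊ : ℝ) - Real.log (1 / y t)) /
      Real.log (⌊1 / y t⌋₊ : ℝ)) (𝓝[<] 1) (𝓝 0) :=
    div_zero_of_bdd (by
      filter_upwards [ha.eventually_ge_atTop 1] with t ht
      exact log_floor ht) hL
  have he3 : Tendsto (fun t : ℝ => Real.log (1 + t) / Real.log (⌊1 / y t⌋₊ : ℝ)) (𝓝[<] 1) (𝓝 0) :=
    div_zero_of_bdd (B := Real.log 2) (by
      filter_upwards [hI] with t ht
      have h1 : 0 ≤ Real.log (1 + t) := Real.log_nonneg (by linarith [ht.1])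
      rw [abs_of_nonneg h1]
      exact Real.log_le_log (by linarith [ht.1]) (by linarith [ht.2])) hL
  have hratio : Tendsto (fun t : ℝ => Real.log (⌊1 / (1 - t ^ 2)⌋₊ : ℝ) / Real.log (⌊1 / y t⌋₊ : ℝ)) (𝓝[<] 1)
      (𝓝 2) := by
    have h1 := ((((he1.const_add 2).sub (he2.const_mul 2)).sub hq).sub hlM).sub he3
    have e1 : (2 : ℝ) + 0 - 2 * 0 - 0 - 0 - 0 = 2 := by norm_num
    rw [e1] at h1
    refine h1.congr' ?_
    filter_upwards [hI, hN.eventually_ge_atTop 1, hL.eventually_gt_atTop 0] with t ht htN htL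
    have hy0 := hypos t ht
    have hM0 := hM.pos _ htN
    have h1t : 0 < 1 - t := by linarith [ht.2]
    have h2t : 0 < 1 + t := by linarith [ht.1]
    have e2 : 1 - t ^ 2 = (1 - t) * (1 + t) := by ring
    have e3 : Real.log (1 / (1 - t ^ 2)) = -Real.log (1 - t) - Real.log (1 + t) := by
      rw [one_div, Real.log_inv, e2, Real.log_mul h1t.ne' h2t.ne']
      ring
    have e4 : Real.log ((1 - t) / (y t ^ 2 * M ⌊1 / y t⌋₊)) =
        Real.log (1 - t) - 2 * Real.log (y t) - Real.log (M ⌊1 / y t⌋₊) := by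
      rw [Real.log_div h1t.ne' (by positivity), Real.log_mul (by positivity) hM0.ne', Real.log_pow]
      push_cast
      ring
    have e5 : Real.log (1 / y t) = -Real.log (y t) := by rw [one_div, Real.log_inv]
    rw [e3, e4, e5]
    field_simp
    ring
  have hQ2 := hM.comp hN (show (0 : ℝ) < 2 by norm_num) hratio
  have hyM : Tendsto (fun t => y t * M ⌊1 / y t⌋₊) (𝓝[<] 1) (𝓝 0) := by
    refine squeeze_zero' ?_ ?_ ((log_div_lim (C := C)).comp hN)
    · filter_upwards [hI, hN.eventually_ge_atTop 1] with t ht htN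
      exact mul_nonneg (hypos t ht).le (hM.pos _ htN).le
    · filter_upwards [hI, hN.eventually_ge_atTop 1] with t ht htN
      have hy0 := hypos t ht
      have hN0 : (0 : ℝ) < ⌊1 / y t⌋₊ := by exact_mod_cast htN
      have h1 : (⌊1 / y t⌋₊ : ℝ) ≤ 1 / y t := Nat.floor_le (by positivity)
      have h2 : y t ≤ 1 / ⌊1 / y t⌋₊ := by
        rw [le_div_iff₀ hN0]
        rw [le_div_iff₀ hy0] at h1
        linarith
      have h3 := hC _ htN
      show y t * M ⌊1 / y t⌋₊ ≤ C * (1 + Real.log (⌊1 / y t⌋₊ : ℝ)) / (⌊1 / y t⌋₊ : ℝ)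
      calc y t * M ⌊1 / y t⌋₊ ≤ 1 / ⌊1 / y t⌋₊ * M ⌊1 / y t⌋₊ := mul_le_mul_of_nonneg_right h2 (hM.pos _ htN).le
        _ ≤ 1 / ⌊1 / y t⌋₊ * (C * (1 + Real.log (⌊1 / y t⌋₊ : ℝ))) := mul_le_mul_of_nonneg_left h3 (by positivity)
        _ = _ := by ring
  have hty : Tendsto (fun t => (1 - t) / y t) (𝓝[<] 1) (𝓝 0) := by
    have h1 := h.mul hyM
    rw [mul_zero] at h1
    refine h1.congr' ?_
    filter_upwards [hI, hN.eventually_ge_atTop 1] with t ht htN
    have hy0 := hypos t ht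
    have hM0 := hM.pos _ htN
    field_simp
  have hB : Tendsto (fun t : ℝ => (1 - t) / y t * ∑' n, b n * t ^ (2 * n)) (𝓝[<] 1) (𝓝 0) := by
    have h1 := hty.mul_const (∑' n, b n)
    rw [zero_mul] at h1
    refine squeeze_zero' ?_ ?_ h1
    · filter_upwards [hI] with t ht
      have hy0 := hypos t ht
      have h1t : 0 < 1 - t := by linarith [ht.2]
      exact mul_nonneg (by positivity) (tsum_nonneg fun n => mul_nonneg (hb0 n) (pow_nonneg ht.1.le _))
    · filter_upwards [hI] with t ht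
      have hy0 := hypos t ht
      have h1t : 0 < 1 - t := by linarith [ht.2]
      refine mul_le_mul_of_nonneg_left ?_ (by positivity)
      refine Summable.tsum_le_tsum (fun n => mul_le_of_le_one_right (hb0 n) (pow_le_one₀ ht.1.le ht.2.le)) ?_ hs
      exact summ_mul hb0 hs (fun n => pow_nonneg ht.1.le _) (fun n => pow_le_one₀ ht.1.le ht.2.le)
  have hmain : Tendsto (fun t : ℝ => (∑' n, (∑' k, b (k + (n + 1))) * (t ^ 2) ^ n) *
      ((1 - t ^ 2) ^ (1 / 2 : ℝ) * (M ⌊1 / (1 - t ^ 2)⌋₊) ^ (1 / 2 : ℝ))) (𝓝[<] 1)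
      (𝓝 (Real.sqrt (2 ^ τ / (κ * (1 + 1))))) := by
    have h1 : Tendsto (fun t : ℝ => (1 - (1 - t) / y t * ∑' n, b n * t ^ (2 * n)) *
        Real.sqrt (M ⌊1 / (1 - t ^ 2)⌋₊ / M ⌊1 / y t⌋₊ / ((1 - t) / (y t ^ 2 * M ⌊1 / y t⌋₊) * (1 + t)))) (𝓝[<] 1)
        (𝓝 ((1 - 0) * Real.sqrt (2 ^ τ / (κ * (1 + 1))))) := by
      refine (hB.const_sub 1).mul (Filter.Tendsto.sqrt (hQ2.div (h.mul ?_) (by positivity)))
      have hc : Continuous (fun t : ℝ => 1 + t) := by fun_prop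
      exact (hc.tendsto 1).mono_left nhdsWithin_le_nhds
    rw [sub_zero, one_mul] at h1
    refine h1.congr' ?_
    filter_upwards [hI, hN.eventually_ge_atTop 1, hw.eventually_ge_atTop 1] with t ht htN htw
    have hy0 := hypos t ht
    have hM0 := hM.pos _ htN
    have h1t : 0 < 1 - t := by linarith [ht.2]
    have h2t : 0 < 1 + t := by linarith [ht.1]
    have e2 : 1 - t ^ 2 = (1 - t) * (1 + t) := by ring
    have hx0 : 0 < 1 - t ^ 2 := by rw [e2]; positivity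
    have hP : 1 ≤ ⌊1 / (1 - t ^ 2)⌋₊ := (Nat.one_le_floor_iff _).2 htw
    have hMP := hM.pos _ hP
    have hsp := y_split hb0 hs ht.1.le ht.2
    rw [hyt] at hsp
    obtain ⟨F, hF⟩ : ∃ F : ℝ, F = ∑' n, (∑' k, b (k + (n + 1))) * (t ^ 2) ^ n := ⟨_, rfl⟩
    obtain ⟨B, hBe⟩ : ∃ B : ℝ, B = ∑' n, b n * t ^ (2 * n) := ⟨_, rfl⟩
    obtain ⟨m, hm⟩ : ∃ m : ℝ, m = M ⌊1 / y t⌋₊ := ⟨_, rfl⟩
    obtain ⟨m', hm'⟩ : ∃ m' : ℝ, m' = M ⌊1 / (1 - t ^ 2)⌋₊ := ⟨_, rfl⟩
    obtain ⟨z, hz⟩ : ∃ z : ℝ, z = y t := ⟨_, rfl⟩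
    rw [← hF, ← hBe] at hsp
    rw [← hF, ← hBe, ← hm, ← hm']
    rw [← hm] at hM0
    rw [← hm'] at hMP
    rw [← hz] at hsp hy0 ⊢
    have hFe : F = (z - (1 - t) * B) / (1 - t ^ 2) := by
      rw [eq_div_iff hx0.ne']
      linarith
    rw [← Real.sqrt_eq_rpow, ← Real.sqrt_eq_rpow, hFe]
    have e3 : Real.sqrt (m' / m / ((1 - t) / (z ^ 2 * m) * (1 + t))) =
        z / (1 - t ^ 2) * (Real.sqrt (1 - t ^ 2) * Real.sqrt m') := by
      have h3 : 0 ≤ z / (1 - t ^ 2) * (Real.sqrt (1 - t ^ 2) * Real.sqrt m') := by positivity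
      rw [← Real.sqrt_sq h3]
      congr 1
      rw [mul_pow, mul_pow, Real.sq_sqrt hx0.le, Real.sq_sqrt hMP.le, e2]
      field_simp
    rw [e3]
    field_simp
  refine ⟨Real.sqrt (2 ^ τ / (κ * (1 + 1))), Real.sqrt_pos.2 (by positivity), ?_⟩
  · have hsq : Tendsto (fun x : ℝ => Real.sqrt x) (𝓝[<] 1) (𝓝[<] 1) := by
      refine tendsto_nhdsWithin_iff.2 ⟨?_, hI.mono fun x hx => ?_⟩
      · have h1 := (Real.continuous_sqrt.tendsto 1).mono_left (nhdsWithin_le_nhds (s := Set.Iio 1))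
        simpa using h1
      · show Real.sqrt x < 1
        rw [Real.sqrt_lt' one_pos]
        simpa using hx.2
    refine (hmain.comp hsq).congr' ?_
    filter_upwards [hI] with x hx
    show (∑' n, (∑' k, b (k + (n + 1))) * (Real.sqrt x ^ 2) ^ n) *
      ((1 - Real.sqrt x ^ 2) ^ (1 / 2 : ℝ) * (M ⌊1 / (1 - Real.sqrt x ^ 2)⌋₊) ^ (1 / 2 : ℝ)) = _
    rw [Real.sq_sqrt hx.1.le]

end Pool.Agent.RDL
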