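import Pool.Agent.RDL.LVa
import Pool.Agent.RDL.Karamata
import Pool.Agent.RDL.Dens

/-!
# A Tauberian theorem: from the generating function of the tails to the sequence
-/

set_option autoImplicit false

namespace Pool.Agent.RDL

open Finset Filter Topology

/-- a sequence of regular variation in the logarithmic scale varies slowly -/
theorem lb_ratio {M : ℕ → ℝ} {τ : ℝ} (hM : LVar M τ) {ι : Type} {F : Filter ι} {f g : ι → ℕ}
    (hg : Tendsto g F atTop) {c : ℝ} (hc : 0 < c)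
    (h : Tendsto (fun i => (f i : ℝ) / (g i : ℝ)) F (𝓝 c)) :
    Tendsto (fun i => M (f i) / M (g i)) F (𝓝 1) := by
  have h1 : Tendsto (fun i => Real.log (f i) / Real.log (g i)) F (𝓝 1) := by
    have hg' : Tendsto (fun i => Real.log (g i : ℝ)) F atTop :=
      Real.tendsto_log_atTop.comp (tendsto_natCast_atTop_atTop.comp hg)
    have h2 : Tendsto (fun i => Real.log ((f i : ℝ) / (g i : ℝ))) F (𝓝 (Real.log c)) := h.log hc.ne'
    have h3 := (h2.div_atTop hg').const_add 1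
    rw [add_zero] at h3
    refine h3.congr' ?_
    filter_upwards [hg'.eventually_gt_atTop 0, h.eventually (lt_mem_nhds hc), hg.eventually_ge_atTop 1]
      with i hi1 hi2 hi3
    have g0 : (0 : ℝ) < g i := by exact_mod_cast hi3
    have f0 : (0 : ℝ) < f i := (div_pos_iff_of_pos_right g0).1 hi2
    rw [Real.log_div f0.ne' g0.ne']
    field_simp
    ring
  have h4 := hM.comp hg one_pos h1
  rwa [Real.one_rpow] at h4

theorem lb_floor {ι : Type} {F : Filter ι} {u v : ι → ℝ} {c : ℝ} (hu : Tendsto u F atTop)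
    (hv : Tendsto v F atTop) (h : Tendsto (fun i => u i / v i) F (𝓝 c)) :
    Tendsto (fun i => ((⌊u i⌋₊ : ℕ) : ℝ) / ((⌊v i⌋₊ : ℕ) : ℝ)) F (𝓝 c) := by
  have h1 : Tendsto (fun i => ((⌊u i⌋₊ : ℕ) : ℝ) / u i) F (𝓝 1) := (tendsto_nat_floor_div_atTop (R := ℝ)).comp hu
  have h2 : Tendsto (fun i => ((⌊v i⌋₊ : ℕ) : ℝ) / v i) F (𝓝 1) := (tendsto_nat_floor_div_atTop (R := ℝ)).comp hv
  have h3 := (h1.mul h).div h2 one_ne_zero
  rw [one_mul, div_one] at h3
  refine h3.congr' ?_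
  filter_upwards [hu.eventually_ge_atTop 1, hv.eventually_ge_atTop 1] with i hi1 hi2
  have e1 : 0 < u i := by linarith
  have e2 : 0 < v i := by linarith
  have e3 : (0 : ℝ) < ((⌊v i⌋₊ : ℕ) : ℝ) := by
    have := Nat.floor_pos.2 hi2
    exact_mod_cast this
  simp only [Pi.div_apply]
  field_simp

theorem lb_one_sub : Tendsto (fun x : ℝ => 1 / (1 - x)) (𝓝[<] 1) atTop := by
  have h1 : Tendsto (fun x : ℝ => 1 - x) (𝓝[<] 1) (𝓝[>] 0) := by
    rw [tendsto_nhdsWithin_iff]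
    refine ⟨?_, ?_⟩
    · have : Tendsto (fun x : ℝ => 1 - x) (𝓝 1) (𝓝 (1 - 1)) := (continuous_const.sub continuous_id).tendsto _
      rw [sub_self] at this
      exact this.mono_left nhdsWithin_le_nhds
    · filter_upwards [self_mem_nhdsWithin] with x hx
      have hx' : x < 1 := hx
      exact sub_pos.2 hx'
  have h2 := tendsto_inv_nhdsGT_zero.comp h1
  refine h2.congr fun x => ?_
  simp [one_div]

theorem lb_pow (k : ℕ) : Tendsto (fun x : ℝ => (1 - x ^ (k + 1)) / (1 - x)) (𝓝[<] 1) (𝓝 ((k : ℝ) + 1)) := by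
  have h1 : Tendsto (fun x : ℝ => ∑ i ∈ range (k + 1), x ^ i) (𝓝 1) (𝓝 (∑ i ∈ range (k + 1), (1 : ℝ) ^ i)) :=
    (continuous_finsetSum _ fun i _ => continuous_pow i).tendsto _
  have h2 : (∑ i ∈ range (k + 1), (1 : ℝ) ^ i) = (k : ℝ) + 1 := by
    simp
  rw [h2] at h1
  refine (h1.mono_left nhdsWithin_le_nhds).congr' ?_
  filter_upwards [self_mem_nhdsWithin] with x hx
  have h3 : (0 : ℝ) < 1 - x := sub_pos.2 hx
  rw [eq_div_iff h3.ne', mul_comm]
  exact mul_neg_geom_sum x (k + 1)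

theorem lb_pow_to (k : ℕ) : Tendsto (fun x : ℝ => x ^ (k + 1)) (𝓝[<] 1) (𝓝[<] 1) := by
  rw [tendsto_nhdsWithin_iff]
  refine ⟨?_, ?_⟩
  · have h1 : Tendsto (fun x : ℝ => x ^ (k + 1)) (𝓝 1) (𝓝 (1 ^ (k + 1))) := (continuous_pow (k + 1)).tendsto _
    rw [one_pow] at h1
    exact h1.mono_left nhdsWithin_le_nhds
  · have h0 : ∀ᶠ x : ℝ in 𝓝[<] 1, 0 < x := nhdsWithin_le_nhds (lt_mem_nhds one_pos)
    filter_upwards [self_mem_nhdsWithin, h0] with x hx hx0
    exact pow_lt_one₀ hx0.le hx (Nat.succ_ne_zero k)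

theorem lb_exp : Tendsto (fun n : ℕ => (1 / (n : ℝ)) / (1 - Real.exp (-(1 / (n : ℝ))))) atTop (𝓝 1) := by
  have h1 : HasDerivAt (fun y : ℝ => 1 - Real.exp (-y)) 1 0 := by
    have := ((hasDerivAt_neg (0 : ℝ)).exp).const_sub 1
    simpa using this
  rw [hasDerivAt_iff_tendsto_slope_zero] at h1
  have h2 : Tendsto (fun n : ℕ => 1 / (n : ℝ)) atTop (𝓝[≠] 0) := by
    rw [tendsto_nhdsWithin_iff]
    refine ⟨tendsto_one_div_atTop_nhds_zero_nat, ?_⟩
    filter_upwards [eventually_ge_atTop 1] with n hn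
    have : (0 : ℝ) < n := by exact_mod_cast hn
    exact (one_div_pos.2 this).ne'
  have h3 := (h1.comp h2).inv₀ one_ne_zero
  rw [inv_one] at h3
  refine h3.congr fun n => ?_
  simp only [Function.comp, zero_add, neg_zero, Real.exp_zero, sub_self, sub_zero, smul_eq_mul, mul_inv, inv_inv]
  exact (div_eq_mul_inv _ _).symm

theorem taub_Lb {b M : ℕ → ℝ} {τ κ : ℝ} (hM : LVar M τ) (hb : ∀ n, 0 < b n) (hanti : Antitone b) (hs : Summable b)
    (hκ : 0 < κ)
    (h : Tendsto (fun x : ℝ => (∑' n, (∑' k, b (k + (n + 1))) * x ^ n) *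
      ((1 - x) ^ (1 / 2 : ℝ) * (M ⌊1 / (1 - x)⌋₊) ^ (1 / 2 : ℝ))) (𝓝[<] 1) (𝓝 κ)) :
    ∃ κ' > (0 : ℝ), Tendsto (fun n : ℕ => b n * ((n : ℝ) ^ (3 / 2 : ℝ) * (M n) ^ (1 / 2 : ℝ))) atTop (𝓝 κ') := by
  have hΓ : 0 < Real.Gamma (1 / 2 + 1) := Real.Gamma_pos_of_pos (by norm_num)
  obtain ⟨Γ, hΓe⟩ : ∃ Γ : ℝ, Γ = Real.Gamma (1 / 2 + 1) := ⟨_, rfl⟩
  rw [← hΓe] at hΓ
  obtain ⟨T, hT⟩ : ∃ T : ℕ → ℝ, T = fun n => ∑' k, b (k + (n + 1)) := ⟨_, rfl⟩
  obtain ⟨D, hD⟩ : ∃ D : ℝ → ℝ, D = fun x => (1 - x) ^ (1 / 2 : ℝ) * (M ⌊1 / (1 - x)⌋₊) ^ (1 / 2 : ℝ) := ⟨_, rfl⟩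
  have hsn : ∀ n, Summable (fun k => b (k + (n + 1))) := fun n => (summable_nat_add_iff (n + 1)).2 hs
  have hT0 : ∀ n, 0 ≤ T n := by
    intro n
    rw [hT]
    exact tsum_nonneg fun k => (hb _).le
  have hTanti : Antitone T := by
    intro m n hmn
    rw [hT]
    exact (hsn n).tsum_le_tsum (fun k => hanti (by omega)) (hsn m)
  have hx0 : ∀ᶠ x : ℝ in 𝓝[<] 1, 0 < x := nhdsWithin_le_nhds (lt_mem_nhds one_pos)
  have hMx : ∀ x : ℝ, 0 < x → x < 1 → 0 < M ⌊1 / (1 - x)⌋₊ := by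
    intro x h0 h1
    refine hM.pos _ (Nat.floor_pos.2 ?_)
    rw [le_div_iff₀ (by linarith)]
    linarith
  have hDpos : ∀ x : ℝ, 0 < x → x < 1 → 0 < D x := by
    intro x h0 h1
    rw [hD]
    exact mul_pos (Real.rpow_pos_of_pos (by linarith) _) (Real.rpow_pos_of_pos (hMx x h0 h1) _)
  -- the theorem of Karamata
  have hkar := karamata (T := T) (g := fun x => κ / D x) (r := 1 / 2) (by norm_num) hT0 (by
      intro x hx
      refine Summable.of_nonneg_of_le (fun n => mul_nonneg (hT0 n) (pow_nonneg hx.1 n))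
        (fun n => mul_le_mul_of_nonneg_right (hTanti (Nat.zero_le n)) (pow_nonneg hx.1 n)) ?_
      exact (summable_geometric_of_lt_one hx.1 hx.2).mul_left _) (by
      filter_upwards [self_mem_nhdsWithin, hx0] with x hx1 hx2
      exact div_pos hκ (hDpos x hx2 hx1)) (by
      have h1 := h.div_const κ
      rw [div_self hκ.ne'] at h1
      refine h1.congr fun x => ?_
      rw [hT, hD]
      simp only
      rw [div_div_eq_mul_div]) (by
      intro k
      have h1 : Tendsto (fun x : ℝ => 1 / (1 - x) / (1 / (1 - x ^ (k + 1)))) (𝓝[<] 1) (𝓝 ((k : ℝ) + 1)) := by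
        refine (lb_pow k).congr fun x => ?_
        rw [div_div_div_eq, one_mul, mul_one]
      have h2 := lb_ratio hM (tendsto_nat_floor_atTop.comp (lb_one_sub.comp (lb_pow_to k)))
        (by positivity) (lb_floor lb_one_sub (lb_one_sub.comp (lb_pow_to k)) h1)
      have h3 := ((lb_pow k).inv₀ (by positivity)).rpow_const (p := (1 / 2 : ℝ)) (Or.inl (by positivity))
      have h4 := h2.rpow_const (p := (1 / 2 : ℝ)) (Or.inl one_ne_zero)
      have h5 := h3.mul h4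
      rw [Real.one_rpow, mul_one, Real.inv_rpow (by positivity), ← Real.rpow_neg (by positivity)] at h5
      refine h5.congr' ?_
      filter_upwards [self_mem_nhdsWithin, hx0] with x hx1 hx2
      have hx1' : x < 1 := hx1
      have hk1 : x ^ (k + 1) < 1 := pow_lt_one₀ hx2.le hx1' (Nat.succ_ne_zero k)
      have hk0 : 0 < x ^ (k + 1) := pow_pos hx2 _
      have m1 := hMx x hx2 hx1'
      have m2 := hMx _ hk0 hk1
      have e1 : 0 < 1 - x := by linarith
      have e2 : 0 < 1 - x ^ (k + 1) := by linarith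
      simp only [Function.comp]
      rw [inv_div, Real.div_rpow e1.le e2.le, Real.div_rpow m1.le m2.le, hD]
      have p1 := Real.rpow_pos_of_pos e1 (1 / 2 : ℝ)
      have p2 := Real.rpow_pos_of_pos e2 (1 / 2 : ℝ)
      have p3 := Real.rpow_pos_of_pos m1 (1 / 2 : ℝ)
      have p4 := Real.rpow_pos_of_pos m2 (1 / 2 : ℝ)
      simp only
      field_simp)
  rw [← hΓe] at hkar
  -- the explicit gauge
  obtain ⟨H, hH⟩ : ∃ H : ℕ → ℝ, H = fun n : ℕ => κ * ((n : ℝ) ^ (1 / 2 : ℝ) / (M n) ^ (1 / 2 : ℝ)) / Γ := ⟨_, rfl⟩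
  have hH0 : ∀ᶠ n : ℕ in atTop, 0 < H n := by
    filter_upwards [eventually_ge_atTop 1] with n hn
    have h1 : (0 : ℝ) < n := by exact_mod_cast hn
    have h2 := hM.pos n hn
    rw [hH]
    positivity
  have hexp1 : ∀ n : ℕ, 1 ≤ n → Real.exp (-(1 / (n : ℝ))) < 1 := by
    intro n hn
    have h1 : (0 : ℝ) < n := by exact_mod_cast hn
    rw [Real.exp_lt_one_iff]
    have := one_div_pos.2 h1
    linarith
  have hu : Tendsto (fun n : ℕ => 1 / (1 - Real.exp (-(1 / (n : ℝ))))) atTop atTop := by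
    refine lb_one_sub.comp ?_
    rw [tendsto_nhdsWithin_iff]
    refine ⟨?_, ?_⟩
    · have h1 : Tendsto (fun n : ℕ => -(1 / (n : ℝ))) atTop (𝓝 (-0)) := tendsto_one_div_atTop_nhds_zero_nat.neg
      have h2 := (Real.continuous_exp.tendsto _).comp h1
      rw [neg_zero, Real.exp_zero] at h2
      exact h2
    · filter_upwards [eventually_ge_atTop 1] with n hn
      exact hexp1 n hn
  have hMu : Tendsto (fun n : ℕ => M ⌊1 / (1 - Real.exp (-(1 / (n : ℝ))))⌋₊ / M n) atTop (𝓝 1) := by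
    refine lb_ratio hM (f := fun n : ℕ => ⌊1 / (1 - Real.exp (-(1 / (n : ℝ))))⌋₊) (g := fun n => n) tendsto_id
      one_pos ?_
    have h1 := lb_floor hu tendsto_natCast_atTop_atTop (c := 1) (by
      refine lb_exp.congr fun n => ?_
      rw [div_div, div_div, mul_comm])
    refine h1.congr fun n => ?_
    rw [Nat.floor_natCast]
  have hgH : Tendsto (fun n : ℕ => κ / D (Real.exp (-(1 / (n : ℝ)))) / H n) atTop (𝓝 Γ) := by
    have h1 := (lb_exp.rpow_const (p := (1 / 2 : ℝ)) (Or.inl one_ne_zero)).mul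
      ((hMu.inv₀ one_ne_zero).rpow_const (p := (1 / 2 : ℝ)) (Or.inl (by norm_num)))
    have h2 := h1.mul_const Γ
    rw [inv_one, Real.one_rpow, one_mul, one_mul] at h2
    refine h2.congr' ?_
    filter_upwards [eventually_ge_atTop 1] with n hn
    have n0 : (0 : ℝ) < n := by exact_mod_cast hn
    have e0 := Real.exp_pos (-(1 / (n : ℝ)))
    have e1 : 0 < 1 - Real.exp (-(1 / (n : ℝ))) := sub_pos.2 (hexp1 n hn)
    have m1 := hM.pos n hn
    have m2 := hMx _ e0 (hexp1 n hn)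
    rw [inv_div, Real.div_rpow (by positivity) e1.le, Real.div_rpow m1.le m2.le, hD, hH,
      Real.div_rpow zero_le_one n0.le, Real.one_rpow]
    have p1 := Real.rpow_pos_of_pos e1 (1 / 2 : ℝ)
    have p2 := Real.rpow_pos_of_pos n0 (1 / 2 : ℝ)
    have p3 := Real.rpow_pos_of_pos m1 (1 / 2 : ℝ)
    have p4 := Real.rpow_pos_of_pos m2 (1 / 2 : ℝ)
    simp only
    field_simp
  have hTH : Tendsto (fun n : ℕ => (∑ k ∈ range (n + 1), T k) / H n) atTop (𝓝 1) := by
    have h1 := hkar.mul hgH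
    rw [one_div, inv_mul_cancel₀ hΓ.ne'] at h1
    refine h1.congr' ?_
    filter_upwards [eventually_ge_atTop 1] with n hn
    have h2 : 0 < κ / D (Real.exp (-(1 / (n : ℝ)))) := div_pos hκ (hDpos _ (Real.exp_pos _) (hexp1 n hn))
    exact div_mul_div_cancel₀ h2.ne'
  have hfl : ∀ s : ℝ, 0 < s → Tendsto (fun n : ℕ => ((⌊s * (n : ℝ)⌋₊ : ℕ) : ℝ) / (n : ℝ)) atTop (𝓝 s) :=
    fun s hs' => (tendsto_nat_floor_mul_div_atTop hs'.le).comp tendsto_natCast_atTop_atTop
  have hfa : ∀ s : ℝ, 0 < s → Tendsto (fun n : ℕ => ⌊s * (n : ℝ)⌋₊) atTop atTop := fun s hs' =>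
    tendsto_nat_floor_atTop.comp (tendsto_natCast_atTop_atTop.const_mul_atTop hs')
  have hHs : ∀ s : ℝ, 0 < s → Tendsto (fun n : ℕ => H ⌊s * (n : ℝ)⌋₊ / H n) atTop (𝓝 (s ^ (1 / 2 : ℝ))) := by
    intro s hs'
    have h1 := lb_ratio hM (f := fun n : ℕ => ⌊s * (n : ℝ)⌋₊) (g := fun n => n) tendsto_id hs' (hfl s hs')
    have h2 := ((hfl s hs').rpow_const (p := (1 / 2 : ℝ)) (Or.inl hs'.ne')).mul
      ((h1.inv₀ one_ne_zero).rpow_const (p := (1 / 2 : ℝ)) (Or.inl (by norm_num)))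
    rw [inv_one, Real.one_rpow, mul_one] at h2
    refine h2.congr' ?_
    filter_upwards [eventually_ge_atTop 1, (hfa s hs').eventually_ge_atTop 1] with n hn hn'
    have n0 : (0 : ℝ) < n := by exact_mod_cast hn
    have n1 : (0 : ℝ) < ((⌊s * (n : ℝ)⌋₊ : ℕ) : ℝ) := by exact_mod_cast hn'
    have m1 := hM.pos n hn
    have m2 := hM.pos _ hn'
    rw [inv_div, Real.div_rpow n1.le n0.le, Real.div_rpow m1.le m2.le, hH]
    have p1 := Real.rpow_pos_of_pos n1 (1 / 2 : ℝ)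
    have p2 := Real.rpow_pos_of_pos n0 (1 / 2 : ℝ)
    have p3 := Real.rpow_pos_of_pos m1 (1 / 2 : ℝ)
    have p4 := Real.rpow_pos_of_pos m2 (1 / 2 : ℝ)
    simp only
    field_simp
  have hmd := mono_density (T := T) (G := H) (r := 1 / 2) (by norm_num) hTanti hH0 hHs hTH
  have htd := tail_density (b := b) (G := fun n => H n / (2 * (n : ℝ))) (r := 1 / 2) (by norm_num) hanti hs (by
      filter_upwards [hH0, eventually_ge_atTop 1] with n h1 h2
      have n0 : (0 : ℝ) < n := by exact_mod_cast h2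
      positivity) (by
      intro s hs'
      have h1 := (hHs s hs').mul ((hfl s hs').inv₀ hs'.ne')
      have h2 : s ^ (1 / 2 : ℝ) * s⁻¹ = s ^ (-(1 / 2) : ℝ) := by
        rw [← Real.rpow_neg_one s, ← Real.rpow_add hs']
        norm_num
      rw [h2] at h1
      refine h1.congr' ?_
      filter_upwards [hH0, (hfa s hs').eventually hH0, eventually_ge_atTop 1, (hfa s hs').eventually_ge_atTop 1]
        with n g1 g2 hn hn'
      have n0 : (0 : ℝ) < n := by exact_mod_cast hn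
      have n1 : (0 : ℝ) < ((⌊s * (n : ℝ)⌋₊ : ℕ) : ℝ) := by exact_mod_cast hn'
      field_simp) (by
      have h1 := hmd.const_mul 2
      rw [show (2 : ℝ) * (1 / 2) = 1 by norm_num] at h1
      refine h1.congr' ?_
      filter_upwards [hH0, eventually_ge_atTop 1] with n g1 hn
      have n0 : (0 : ℝ) < n := by exact_mod_cast hn
      rw [hT]
      simp only
      field_simp)
  refine ⟨κ / (4 * Γ), by positivity, ?_⟩
  have h1 := htd.mul_const (κ / (2 * Γ))
  rw [show (1 / 2 : ℝ) * (κ / (2 * Γ)) = κ / (4 * Γ) by field_simp; norm_num] at h1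
  refine h1.congr' ?_
  filter_upwards [hH0, eventually_ge_atTop 1] with n g1 hn
  have n0 : (0 : ℝ) < n := by exact_mod_cast hn
  have m1 := hM.pos n hn
  have p2 := Real.rpow_pos_of_pos n0 (1 / 2 : ℝ)
  have p3 := Real.rpow_pos_of_pos m1 (1 / 2 : ℝ)
  have e1 : (n : ℝ) ^ (3 / 2 : ℝ) = n * (n : ℝ) ^ (1 / 2 : ℝ) := by
    rw [show (3 / 2 : ℝ) = 1 + 1 / 2 by norm_num, Real.rpow_add n0, Real.rpow_one]
  have e2 : (n : ℝ) ^ (1 / 2 : ℝ) * (n : ℝ) ^ (1 / 2 : ℝ) = n := by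
    rw [← Real.rpow_add n0]
    norm_num
  rw [e1, hH]
  simp only
  generalize (n : ℝ) ^ (1 / 2 : ℝ) = y at *
  generalize (M n) ^ (1 / 2 : ℝ) = m at *
  rw [← e2]
  field_simp

end Pool.Agent.RDL
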