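import Pool.Agent.RDL.Taub

/-!
# The monotone Tauberian theorem with powers (helper95)
-/

set_option autoImplicit false

namespace Pool.Agent.RDL

open Finset Filter

theorem taubp {b : ℕ → ℝ} {a : ℝ} (ha : 2 < a) (ha3 : a < 3) (hb : ∀ n, 0 < b n) (hanti : Antitone b) (hs : Summable b)
    {c C t₀ : ℝ} (hc : 0 < c) (ht₀ : t₀ ∈ Set.Ioo (0 : ℝ) 1)
    (h : ∀ t ∈ Set.Ico t₀ 1, 0 < ∑' n, b n * (1 - t ^ (2 * n + 1)) ∧ ∑' n, b n * (1 - t ^ (2 * n + 1)) < 1 ∧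
      c * (∑' n, b n * (1 - t ^ (2 * n + 1))) ^ (a - 1) ≤ 1 - t ∧
      1 - t ≤ C * (∑' n, b n * (1 - t ^ (2 * n + 1))) ^ (a - 1)) :
    ∃ c₁ C₁ : ℝ, 0 < c₁ ∧ ∀ n : ℕ, 1 ≤ n → c₁ * (n : ℝ) ^ (-(a / (a - 1))) ≤ b n ∧
      b n ≤ C₁ * (n : ℝ) ^ (-(a / (a - 1))) := by
  have hb0 : ∀ n, 0 ≤ b n := fun n => (hb n).le
  have ha1 : 0 < a - 1 := by linarith
  set σ : ℝ := 1 / (a - 1) with hσ
  have hσ0 : 0 < σ := by positivity
  have hσ1 : σ < 1 := by rw [hσ, div_lt_one ha1]; linarith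
  have hmulσ : (a - 1) * σ = 1 := by rw [hσ]; field_simp
  have hexp : -(a / (a - 1)) = -(1 + σ) := by
    rw [hσ]; field_simp; ring
  rw [hexp]
  -- the relation at t = 1 - 1/N
  obtain ⟨N₀, hN₀1, hN₀⟩ : ∃ N₀ : ℕ, 1 ≤ N₀ ∧ ∀ N : ℕ, N₀ ≤ N → (1 - 1 / (N : ℝ)) ∈ Set.Ico t₀ 1 := by
    obtain ⟨N₀, h1⟩ := exists_nat_gt (1 / (1 - t₀))
    have h2 : 0 < 1 - t₀ := by linarith [ht₀.2]
    have h3 : (0 : ℝ) < N₀ := lt_trans (by positivity) h1
    refine ⟨N₀, by exact_mod_cast h3, fun N hN => ?_⟩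
    have h4 : (N₀ : ℝ) ≤ N := by exact_mod_cast hN
    have h5 : (0 : ℝ) < N := lt_of_lt_of_le h3 h4
    have h6 : 1 / (N : ℝ) ≤ 1 - t₀ := by
      rw [div_le_iff₀ h5]
      rw [div_lt_iff₀ h2] at h1
      nlinarith
    have h7 : 0 < 1 / (N : ℝ) := by positivity
    exact ⟨by linarith, by linarith⟩
  have hrel : ∀ N : ℕ, N₀ ≤ N → 0 < TB.gdiff b N ∧
      c * TB.gdiff b N ^ (a - 1) ≤ 1 / N ∧ 1 / N ≤ C * TB.gdiff b N ^ (a - 1) := by
    intro N hN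
    have h1 := h _ (hN₀ N hN)
    rw [sub_sub_cancel] at h1
    exact ⟨h1.1, h1.2.2.1, h1.2.2.2⟩
  have hC : 0 < C := by
    obtain ⟨h1, h3, h4⟩ := hrel N₀ le_rfl
    have hN0 : (0 : ℝ) < N₀ := by exact_mod_cast hN₀1
    have h5 : 0 < 1 / (N₀ : ℝ) := by positivity
    by_contra hneg
    have h8 : C * TB.gdiff b N₀ ^ (a - 1) ≤ 0 :=
      mul_nonpos_of_nonpos_of_nonneg (not_lt.mp hneg) (Real.rpow_nonneg h1.le _)
    linarith
  have hpow : ∀ y : ℝ, 0 < y → (y ^ (a - 1)) ^ σ = y := by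
    intro y hy
    rw [← Real.rpow_mul hy.le, hmulσ, Real.rpow_one]
  have hN' : ∀ (K : ℝ) (N : ℕ), 0 < K → 1 ≤ N → (1 / (K * N)) ^ σ = (1 / K) ^ σ * (N : ℝ) ^ (-σ) := by
    intro K N hK hN
    have hN0 : (0 : ℝ) < N := by exact_mod_cast hN
    rw [show (1 : ℝ) / (K * N) = (1 / K) * (N : ℝ)⁻¹ by field_simp,
      Real.mul_rpow (by positivity) (by positivity), Real.inv_rpow hN0.le, Real.rpow_neg hN0.le]
  have hup : ∀ N : ℕ, N₀ ≤ N → TB.gdiff b N ≤ (1 / c) ^ σ * (N : ℝ) ^ (-σ) := by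
    intro N hN
    obtain ⟨h1, h2, -⟩ := hrel N hN
    have hN1 : 1 ≤ N := hN₀1.trans hN
    have hN0 : (0 : ℝ) < N := by exact_mod_cast hN1
    rw [← hN' c N hc hN1, ← hpow _ h1]
    apply Real.rpow_le_rpow (Real.rpow_nonneg h1.le _) _ hσ0.le
    rw [le_div_iff₀ (by positivity)]
    rw [le_div_iff₀ hN0] at h2
    linarith
  have hlo : ∀ N : ℕ, N₀ ≤ N → (1 / C) ^ σ * (N : ℝ) ^ (-σ) ≤ TB.gdiff b N := by
    intro N hN
    obtain ⟨h1, -, h2⟩ := hrel N hN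
    have hN1 : 1 ≤ N := hN₀1.trans hN
    have hN0 : (0 : ℝ) < N := by exact_mod_cast hN1
    rw [← hN' C N hC hN1]
    conv_rhs => rw [← hpow _ h1]
    apply Real.rpow_le_rpow (by positivity) _ hσ0.le
    rw [div_le_iff₀ (by positivity)]
    rw [div_le_iff₀ hN0] at h2
    linarith
  set A₂ : ℝ := (1 / c) ^ σ with hA₂
  set A₁ : ℝ := (1 / C) ^ σ with hA₁
  have hA₂0 : 0 < A₂ := Real.rpow_pos_of_pos (by positivity) _
  have hA₁0 : 0 < A₁ := Real.rpow_pos_of_pos (by positivity) _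
  set S : ℝ := ∑' k, b k with hS
  have hS0 : 0 ≤ S := tsum_nonneg hb0
  -- upper bound
  have u : ∀ N : ℕ, 2 * N₀ ≤ N → b N ≤ (2 * A₂ * 3 ^ (1 + σ)) * (N : ℝ) ^ (-(1 + σ)) := by
    intro N hN
    set n := N / 2 with hn
    have hn₀ : N₀ ≤ n := by omega
    have hn1 : 1 ≤ n := hN₀1.trans hn₀
    have hn0 : (0 : ℝ) < n := by exact_mod_cast hn1
    have hN0 : (0 : ℝ) < N := by exact_mod_cast (by omega : 0 < N)
    have hN3 : (N : ℝ) ≤ 3 * n := by exact_mod_cast (by omega : N ≤ 3 * n)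
    have h3 : (n : ℝ) * b N ≤ ∑' k, b (k + n) := by
      have h4 : ∑ k ∈ range n, b (k + n) ≤ ∑' k, b (k + n) :=
        ((summable_nat_add_iff n).mpr hs).sum_le_tsum _ (fun k _ => hb0 _)
      have h5 : ∑ k ∈ range n, b N ≤ ∑ k ∈ range n, b (k + n) := by
        refine Finset.sum_le_sum (fun k hk => hanti ?_)
        have := Finset.mem_range.mp hk
        omega
      rw [Finset.sum_const, Finset.card_range, nsmul_eq_mul] at h5
      linarith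
    have h6 := TB.tail_le hb0 hs hn1
    have h7 : (n : ℝ) * b N ≤ 2 * (A₂ * (n : ℝ) ^ (-σ)) := by linarith [hup n hn₀]
    have hnσ : 0 < (n : ℝ) ^ σ := Real.rpow_pos_of_pos hn0 _
    have h8 : b N * (n * (n : ℝ) ^ σ) ≤ 2 * A₂ := by
      rw [Real.rpow_neg hn0.le, ← div_eq_mul_inv, ← mul_div_assoc, le_div_iff₀ hnσ] at h7
      linarith
    rw [Real.rpow_neg hN0.le, ← div_eq_mul_inv, le_div_iff₀ (Real.rpow_pos_of_pos hN0 _)]
    calc b N * (N : ℝ) ^ (1 + σ) ≤ b N * (3 * n) ^ (1 + σ) :=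
          mul_le_mul_of_nonneg_left (Real.rpow_le_rpow hN0.le hN3 (by positivity)) (hb0 N)
      _ = (b N * (n * (n : ℝ) ^ σ)) * 3 ^ (1 + σ) := by
          rw [Real.mul_rpow (by norm_num) hn0.le, Real.rpow_add hn0, Real.rpow_one]; ring
      _ ≤ (2 * A₂) * 3 ^ (1 + σ) := mul_le_mul_of_nonneg_right h8 (by positivity)
  -- the constant A
  have hlimA : Tendsto (fun A : ℕ => 4 * A₂ * (A : ℝ) ^ (σ - 1)) atTop (nhds (4 * A₂ * 0)) := by
    apply Tendsto.const_mul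
    have h1 := (tendsto_rpow_neg_atTop (by linarith : 0 < 1 - σ)).comp tendsto_natCast_atTop_atTop
    have h2 : ((fun x : ℝ => x ^ (-(1 - σ))) ∘ fun n : ℕ => (n : ℝ)) = fun A : ℕ => (A : ℝ) ^ (σ - 1) := by
      funext A; simp [Function.comp]
    rwa [h2] at h1
  have hlimB : Tendsto (fun A : ℕ => 2 * A₂ * (A : ℝ) ^ (-σ)) atTop (nhds (2 * A₂ * 0)) := by
    apply Tendsto.const_mul
    exact (tendsto_rpow_neg_atTop hσ0).comp tendsto_natCast_atTop_atTop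
  have hlimS : Tendsto (fun A : ℕ => S * (A : ℝ) ^ (σ - 1)) atTop (nhds (S * 0)) := by
    apply Tendsto.const_mul
    have h1 := (tendsto_rpow_neg_atTop (by linarith : 0 < 1 - σ)).comp tendsto_natCast_atTop_atTop
    have h2 : ((fun x : ℝ => x ^ (-(1 - σ))) ∘ fun n : ℕ => (n : ℝ)) = fun A : ℕ => (A : ℝ) ^ (σ - 1) := by
      funext A; simp [Function.comp]
    rwa [h2] at h1
  rw [mul_zero] at hlimA hlimB hlimS
  obtain ⟨A, hAa, hAb, hA1⟩ := ((hlimA.eventually (gt_mem_nhds (show 0 < A₁ / 8 by positivity))).and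
    ((hlimB.eventually (gt_mem_nhds (show 0 < A₁ / 8 by positivity))).and
      (eventually_ge_atTop 1))).exists
  have hA0 : (0 : ℝ) < A := by exact_mod_cast hA1
  have hmul : Tendsto (fun n : ℕ => A * n) atTop atTop :=
    tendsto_id.const_mul_atTop' (by omega : 0 < A)
  have l : ∀ᶠ n : ℕ in atTop, (A₁ / (2 * (A : ℝ) ^ (2 + σ))) * (n : ℝ) ^ (-(1 + σ)) ≤ b n := by
    filter_upwards [eventually_ge_atTop N₀,
      (hmul.eventually (hlimS.eventually (gt_mem_nhds (show 0 < A₁ / 8 by positivity))))]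
      with n hnN h5
    have hn : 1 ≤ n := hN₀1.trans hnN
    have hn0 : (0 : ℝ) < n := by exact_mod_cast hn
    have hN1 : 1 ≤ A * n := Nat.mul_pos hA1 hn
    have hM1 : 1 ≤ A * (A * n) := Nat.mul_pos hA1 hN1
    have hnN' : n ≤ A * n := Nat.le_mul_of_pos_left _ hA1
    have hNM' : A * n ≤ A * (A * n) := Nat.le_mul_of_pos_left _ hA1
    have hNpos : (0 : ℝ) < ((A * n : ℕ) : ℝ) := by exact_mod_cast hN1
    have e1 := hlo (A * n) (hnN.trans hnN')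
    have e2 := hup n hnN
    have e3 := hup (A * (A * n)) (hnN.trans (hnN'.trans hNM'))
    have hhead := TB.head_le hb0 hs hn
    have htail := TB.tail_le hb0 hs hM1
    have hsplit := TB.gdiff_le hb0 hs hN1 (hnN'.trans hNM')
    have hmid : ∑ k ∈ Ico n (A * (A * n)), b k ≤ (A * (A * n) : ℝ) * b n := by
      calc ∑ k ∈ Ico n (A * (A * n)), b k ≤ ∑ k ∈ Ico n (A * (A * n)), b n :=
            Finset.sum_le_sum (fun k hk => hanti (Finset.mem_Ico.mp hk).1)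
        _ = ((A * (A * n) - n : ℕ) : ℝ) * b n := by
            rw [Finset.sum_const, Nat.card_Ico, nsmul_eq_mul]
        _ ≤ (A * (A * n) : ℝ) * b n := by
            apply mul_le_mul_of_nonneg_right _ (hb0 n)
            have : ((A * (A * n) - n : ℕ) : ℝ) ≤ ((A * (A * n) : ℕ) : ℝ) := by
              exact_mod_cast Nat.sub_le _ _
            push_cast at this
            exact this
    -- write everything in terms of T = N^(-σ), N = A n
    have hT : (((A * n : ℕ) : ℝ)) ^ (-σ) = (A : ℝ) ^ (-σ) * (n : ℝ) ^ (-σ) := by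
      push_cast; exact Real.mul_rpow hA0.le hn0.le
    have hTM : (((A * (A * n) : ℕ) : ℝ)) ^ (-σ) = (A : ℝ) ^ (-σ) * (((A * n : ℕ) : ℝ)) ^ (-σ) := by
      push_cast; exact Real.mul_rpow hA0.le (by positivity)
    have hTp : 0 < (((A * n : ℕ) : ℝ)) ^ (-σ) := Real.rpow_pos_of_pos hNpos _
    set T : ℝ := (((A * n : ℕ) : ℝ)) ^ (-σ) with hTdef
    -- head
    have hp1 : 2 * (∑ k ∈ range n, (k : ℝ) * b k) / ((A * n : ℕ) : ℝ) ≤ A₁ / 8 * T := by
      have q1 : ∑ k ∈ range n, (k : ℝ) * b k ≤ 2 * n * (A₂ * (n : ℝ) ^ (-σ)) :=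
        hhead.trans (mul_le_mul_of_nonneg_left e2 (by positivity))
      have q2 : 2 * (2 * n * (A₂ * (n : ℝ) ^ (-σ))) / ((A * n : ℕ) : ℝ) =
          4 * A₂ * (A : ℝ) ^ (σ - 1) * T := by
        rw [hT]
        have q3 : (A : ℝ) ^ (σ - 1) * (A : ℝ) ^ (-σ) = (A : ℝ)⁻¹ := by
          rw [← Real.rpow_add hA0, show σ - 1 + -σ = -1 by ring, Real.rpow_neg_one]
        have q4 : 4 * A₂ * (A : ℝ) ^ (σ - 1) * ((A : ℝ) ^ (-σ) * (n : ℝ) ^ (-σ)) =
            4 * A₂ * ((A : ℝ) ^ (σ - 1) * (A : ℝ) ^ (-σ)) * (n : ℝ) ^ (-σ) := by ring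
        rw [q4, q3]
        push_cast
        field_simp
        ring
      calc 2 * (∑ k ∈ range n, (k : ℝ) * b k) / ((A * n : ℕ) : ℝ)
          ≤ 2 * (2 * n * (A₂ * (n : ℝ) ^ (-σ))) / ((A * n : ℕ) : ℝ) := by
            apply div_le_div_of_nonneg_right _ hNpos.le
            linarith
        _ = 4 * A₂ * (A : ℝ) ^ (σ - 1) * T := q2
        _ ≤ A₁ / 8 * T := mul_le_mul_of_nonneg_right hAa.le hTp.le
    have hp2 : S / ((A * n : ℕ) : ℝ) ≤ A₁ / 8 * T := by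
      have q1 : S / ((A * n : ℕ) : ℝ) = S * ((A * n : ℕ) : ℝ) ^ (σ - 1) * T := by
        rw [hTdef, mul_assoc, ← Real.rpow_add hNpos, show σ - 1 + -σ = -1 by ring,
          Real.rpow_neg_one]
        rfl
      rw [q1]
      exact mul_le_mul_of_nonneg_right h5.le hTp.le
    have hp3 : ∑' k, b (k + A * (A * n)) ≤ A₁ / 8 * T := by
      have q1 : ∑' k, b (k + A * (A * n)) ≤ 2 * A₂ * (A : ℝ) ^ (-σ) * T := by
        rw [hTM] at e3
        linarith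
      exact q1.trans (mul_le_mul_of_nonneg_right hAb.le hTp.le)
    have hsum : (2 * ∑ k ∈ range n, (k : ℝ) * b k + S) / ((A * n : ℕ) : ℝ) =
        2 * (∑ k ∈ range n, (k : ℝ) * b k) / ((A * n : ℕ) : ℝ) + S / ((A * n : ℕ) : ℝ) :=
      add_div _ _ _
    rw [← hS, hsum] at hsplit
    have hA₁T : 0 < A₁ * T := mul_pos hA₁0 hTp
    have hfin : A₁ / 2 * T ≤ (A * (A * n) : ℝ) * b n := by linarith
    rw [hT] at hfin
    rw [Real.rpow_neg hn0.le, ← div_eq_mul_inv, div_div, div_le_iff₀ (by positivity)]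
    have w1 : (A : ℝ) ^ (2 + σ) = A * A * (A : ℝ) ^ σ := by
      rw [Real.rpow_add hA0, Real.rpow_two, pow_two]
    have w2 : (n : ℝ) ^ (1 + σ) = n * (n : ℝ) ^ σ := by rw [Real.rpow_add hn0, Real.rpow_one]
    rw [w1, w2]
    have w3 : (A : ℝ) ^ (-σ) = ((A : ℝ) ^ σ)⁻¹ := Real.rpow_neg hA0.le _
    have w4 : (n : ℝ) ^ (-σ) = ((n : ℝ) ^ σ)⁻¹ := Real.rpow_neg hn0.le _
    rw [w3, w4] at hfin
    have p1 : 0 < (A : ℝ) ^ σ := Real.rpow_pos_of_pos hA0 _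
    have p2 : 0 < (n : ℝ) ^ σ := Real.rpow_pos_of_pos hn0 _
    have w5 : A₁ / 2 ≤ (A * (A * n) : ℝ) * b n * ((A : ℝ) ^ σ * (n : ℝ) ^ σ) := by
      have := mul_le_mul_of_nonneg_right hfin (mul_pos p1 p2).le
      have w6 : A₁ / 2 * (((A : ℝ) ^ σ)⁻¹ * ((n : ℝ) ^ σ)⁻¹) * ((A : ℝ) ^ σ * (n : ℝ) ^ σ) = A₁ / 2 := by
        field_simp
      rwa [w6] at this
    linarith
  -- the finitely many small n
  obtain ⟨N₁, hN₁⟩ := l.exists_forall_of_atTop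
  set N₂ : ℕ := max N₁ (2 * N₀) with hN₂
  have hphi : ∀ n : ℕ, 1 ≤ n → 0 < (n : ℝ) ^ (-(1 + σ)) := by
    intro n hn
    exact Real.rpow_pos_of_pos (by exact_mod_cast hn) _
  set B : ℝ := ∑ n ∈ Finset.Icc 1 N₂, b n / (n : ℝ) ^ (-(1 + σ)) with hB
  have hB1 : ∀ n, 1 ≤ n → n ≤ N₂ → b n / (n : ℝ) ^ (-(1 + σ)) ≤ B := by
    intro n h1 h2
    exact Finset.single_le_sum (f := fun n : ℕ => b n / (n : ℝ) ^ (-(1 + σ)))
      (fun k hk => (div_pos (hb k) (hphi k (Finset.mem_Icc.mp hk).1)).le)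
      (Finset.mem_Icc.mpr ⟨h1, h2⟩)
  set B' : ℝ := ∑ n ∈ Finset.Icc 1 N₂, (n : ℝ) ^ (-(1 + σ)) / b n with hB'
  have hB'1 : ∀ n, 1 ≤ n → n ≤ N₂ → (n : ℝ) ^ (-(1 + σ)) / b n ≤ B' := by
    intro n h1 h2
    exact Finset.single_le_sum (f := fun n : ℕ => (n : ℝ) ^ (-(1 + σ)) / b n)
      (fun k hk => (div_pos (hphi k (Finset.mem_Icc.mp hk).1) (hb k)).le)
      (Finset.mem_Icc.mpr ⟨h1, h2⟩)
  have hB'0 : 0 ≤ B' := Finset.sum_nonneg (fun k hk =>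
    (div_pos (hphi k (Finset.mem_Icc.mp hk).1) (hb k)).le)
  have hcst : 0 < A₁ / (2 * (A : ℝ) ^ (2 + σ)) := by positivity
  refine ⟨min (A₁ / (2 * (A : ℝ) ^ (2 + σ))) (1 / (B' + 1)), max (2 * A₂ * 3 ^ (1 + σ)) B,
    by positivity, fun n hn => ?_⟩
  have hp := hphi n hn
  rcases le_or_gt N₂ n with h1 | h1
  · constructor
    · exact (mul_le_mul_of_nonneg_right (min_le_left _ _) hp.le).trans
        (hN₁ n ((le_max_left _ _).trans h1))
    · exact (u n ((le_max_right _ _).trans h1)).trans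
        (mul_le_mul_of_nonneg_right (le_max_left _ _) hp.le)
  · constructor
    · have h2 := hB'1 n hn h1.le
      rw [div_le_iff₀ (hb n)] at h2
      have hb' := hb n
      have h3 : 1 / (B' + 1) * (n : ℝ) ^ (-(1 + σ)) ≤ b n := by
        rw [one_div, inv_mul_le_iff₀ (by positivity)]
        nlinarith
      exact (mul_le_mul_of_nonneg_right (min_le_right _ _) hp.le).trans h3
    · have h2 := hB1 n hn h1.le
      rw [div_le_iff₀ hp] at h2
      exact h2.trans (mul_le_mul_of_nonneg_right (le_max_right _ _) hp.le)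

end Pool.Agent.RDL
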