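import Pool.Agent.RDL.Karamata
import Pool.Agent.RDL.Dens

set_option autoImplicit false

namespace Pool.Agent.RDL

open Finset Filter Topology

/-! ### from the generating function to the coefficients, exact asymptotics -/

theorem tx_summ {b : ℕ → ℝ} (hb : ∀ n, 0 < b n) (hs : Summable b) {x : ℝ}
    (hx : x ∈ Set.Ico (0 : ℝ) 1) : Summable (fun n => b n * x ^ n) :=
  Summable.of_nonneg_of_le (fun n => mul_nonneg (hb n).le (pow_nonneg hx.1 n))
    (fun n => mul_le_of_le_one_right (hb n).le (pow_le_one₀ hx.1 hx.2.le)) hs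

theorem tx_tail_nonneg {b : ℕ → ℝ} (hb : ∀ n, 0 < b n) (j : ℕ) : 0 ≤ ∑' k, b (k + (j + 1)) :=
  tsum_nonneg fun _ => (hb _).le

theorem tx_tail_succ {b : ℕ → ℝ} (hs : Summable b) (j : ℕ) :
    ∑' k, b (k + (j + 1)) = b (j + 1) + ∑' k, b (k + (j + 1 + 1)) := by
  have h := ((summable_nat_add_iff (j + 1)).2 hs).tsum_eq_zero_add
  rw [h, zero_add]
  congr 1
  refine tsum_congr fun k => ?_
  congr 1
  ring

theorem tx_tail_anti {b : ℕ → ℝ} (hb : ∀ n, 0 < b n) (hs : Summable b) :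
    Antitone (fun j => ∑' k, b (k + (j + 1))) := by
  refine antitone_nat_of_succ_le fun j => ?_
  rw [tx_tail_succ hs j]
  linarith [hb (j + 1)]

theorem tx_T_summ {b : ℕ → ℝ} (hb : ∀ n, 0 < b n) (hs : Summable b) {x : ℝ}
    (hx : x ∈ Set.Ico (0 : ℝ) 1) : Summable (fun j => (∑' k, b (k + (j + 1))) * x ^ j) := by
  refine Summable.of_nonneg_of_le (fun n => mul_nonneg (tx_tail_nonneg hb n) (pow_nonneg hx.1 n))
    (fun n => ?_) ((summable_geometric_of_lt_one hx.1 hx.2).mul_left (∑' k, b (k + (0 + 1))))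
  exact mul_le_mul_of_nonneg_right (tx_tail_anti hb hs (Nat.zero_le n)) (pow_nonneg hx.1 n)

theorem tx_abel {b : ℕ → ℝ} (hb : ∀ n, 0 < b n) (hs : Summable b) {x : ℝ}
    (hx : x ∈ Set.Ico (0 : ℝ) 1) :
    (1 - x) * ∑' j, (∑' k, b (k + (j + 1))) * x ^ j = (∑' n, b n) - ∑' n, b n * x ^ n := by
  have h1 := (tx_T_summ hb hs hx).tsum_eq_zero_add
  have h2 := (tx_summ hb hs hx).tsum_eq_zero_add
  have h3 := hs.tsum_eq_zero_add
  have s1 := (tx_T_summ hb hs hx).mul_left x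
  have s2 := (summable_nat_add_iff 1).2 (tx_summ hb hs hx)
  have h4 : ∑' j, (∑' k, b (k + (j + 1 + 1))) * x ^ (j + 1) =
      x * (∑' j, (∑' k, b (k + (j + 1))) * x ^ j) - ∑' n, b (n + 1) * x ^ (n + 1) := by
    rw [← tsum_mul_left, ← s1.tsum_sub s2]
    refine tsum_congr fun j => ?_
    rw [tx_tail_succ hs j]
    ring
  rw [h4] at h1
  simp only [pow_zero, mul_one, zero_add] at h1 h2
  rw [h2, h3]
  linear_combination h1

theorem tx_S {b : ℕ → ℝ} (hb : ∀ n, 0 < b n) (hs : Summable b) {t : ℝ}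
    (ht : t ∈ Set.Ico (0 : ℝ) 1) :
    ∑' n, b n * (1 - t ^ (2 * n + 1)) = (∑' n, b n) - t * ∑' n, b n * (t ^ 2) ^ n := by
  have hx : t ^ 2 ∈ Set.Ico (0 : ℝ) 1 := ⟨by positivity, pow_lt_one₀ ht.1 ht.2 (by norm_num)⟩
  rw [← tsum_mul_left, ← hs.tsum_sub ((tx_summ hb hs hx).mul_left t)]
  refine tsum_congr fun n => ?_
  rw [← pow_mul]
  ring

theorem tx_S_pos {b : ℕ → ℝ} (hb : ∀ n, 0 < b n) (hs : Summable b) {t : ℝ}
    (ht : t ∈ Set.Ico (0 : ℝ) 1) : 0 < ∑' n, b n * (1 - t ^ (2 * n + 1)) := by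
  have h : ∀ n, 0 < 1 - t ^ (2 * n + 1) := fun n =>
    sub_pos.2 (pow_lt_one₀ ht.1 ht.2 (by omega))
  refine Summable.tsum_pos ?_ (fun n => (mul_pos (hb n) (h n)).le) 0 (mul_pos (hb 0) (h 0))
  refine Summable.of_nonneg_of_le (fun n => (mul_pos (hb n) (h n)).le) (fun n => ?_) hs
  refine mul_le_of_le_one_right (hb n).le ?_
  have := pow_nonneg ht.1 (2 * n + 1)
  linarith

theorem tx_ev : ∀ᶠ x : ℝ in 𝓝[<] (1 : ℝ), x ∈ Set.Ioo (0 : ℝ) 1 :=
  Ioo_mem_nhdsLT (by norm_num)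

theorem tx_sqrt : Tendsto Real.sqrt (𝓝[<] 1) (𝓝[<] 1) := by
  refine tendsto_nhdsWithin_iff.2 ⟨?_, ?_⟩
  · have h := Real.continuous_sqrt.tendsto 1
    rw [Real.sqrt_one] at h
    exact h.mono_left nhdsWithin_le_nhds
  · filter_upwards [tx_ev] with x hx
    exact (Real.sqrt_lt' one_pos).2 (by simpa using hx.2)

/-- the asymptotics of `∑ b_n (1 - t ^ (2 n + 1))` -/
theorem tx_S_lim {b : ℕ → ℝ} {a κ : ℝ} (ha : 2 < a) (hb : ∀ n, 0 < b n)
    (hs : Summable b) (hκ : 0 < κ)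
    (h : Tendsto (fun t : ℝ => (1 - t) / (∑' n, b n * (1 - t ^ (2 * n + 1))) ^ (a - 1)) (𝓝[<] 1) (𝓝 κ)) :
    Tendsto (fun t : ℝ => (∑' n, b n * (1 - t ^ (2 * n + 1))) / (1 - t) ^ (1 / (a - 1))) (𝓝[<] 1)
      (𝓝 (κ ^ (1 / (a - 1)))⁻¹) := by
  have h1 : Tendsto (fun t : ℝ => ((1 - t) / (∑' n, b n * (1 - t ^ (2 * n + 1))) ^ (a - 1)) ^
      (1 / (a - 1))) (𝓝[<] 1) (𝓝 (κ ^ (1 / (a - 1)))) :=
    h.rpow_const (Or.inl hκ.ne')
  have h2 := h1.inv₀ (Real.rpow_pos_of_pos hκ _).ne'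
  refine h2.congr' ?_
  filter_upwards [tx_ev] with t ht
  have hS := tx_S_pos hb hs ⟨ht.1.le, ht.2⟩
  have ha1 : a - 1 ≠ 0 := by linarith
  rw [Real.div_rpow (by linarith [ht.2]) (Real.rpow_nonneg hS.le _), ← Real.rpow_mul hS.le,
    mul_one_div_cancel ha1, Real.rpow_one, inv_div]

theorem tx_F_lim {b : ℕ → ℝ} {a κ : ℝ} (ha : 2 < a) (hb : ∀ n, 0 < b n)
    (hs : Summable b) (hκ : 0 < κ)
    (h : Tendsto (fun t : ℝ => (1 - t) / (∑' n, b n * (1 - t ^ (2 * n + 1))) ^ (a - 1)) (𝓝[<] 1) (𝓝 κ)) :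
    Tendsto (fun x : ℝ => (1 - x) * (∑' j, (∑' k, b (k + (j + 1))) * x ^ j) /
      (1 - x) ^ (1 / (a - 1))) (𝓝[<] 1) (𝓝 ((κ ^ (1 / (a - 1)))⁻¹ / 2 ^ (1 / (a - 1)))) := by
  have hp0 : 0 < 1 / (a - 1) := one_div_pos.2 (by linarith)
  have hp1 : 1 / (a - 1) < 1 := by rw [div_lt_one (by linarith)]; linarith
  have h1 := (tx_S_lim ha hb hs hκ h).comp tx_sqrt
  -- the error term
  have h2 : Tendsto (fun x : ℝ => (1 - √x) ^ (1 - 1 / (a - 1)) * ∑' n, b n * x ^ n)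
      (𝓝[<] 1) (𝓝 0) := by
    have e1 : Tendsto (fun x : ℝ => (1 - √x) ^ (1 - 1 / (a - 1)) * ∑' n, b n) (𝓝[<] 1) (𝓝 0) := by
      have e2 : Tendsto (fun x : ℝ => (1 - √x) ^ (1 - 1 / (a - 1))) (𝓝[<] 1) (𝓝 0) := by
        have e3 : Tendsto (fun x : ℝ => 1 - √x) (𝓝[<] 1) (𝓝 (1 - 1)) :=
          tendsto_const_nhds.sub (tx_sqrt.mono_right nhdsWithin_le_nhds)
        have e4 := e3.rpow_const (p := 1 - 1 / (a - 1)) (Or.inr (by linarith))
        rwa [sub_self, Real.zero_rpow (by linarith)] at e4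
      simpa using e2.mul_const (∑' n, b n)
    refine squeeze_zero' ?_ ?_ e1
    · filter_upwards [tx_ev] with x hx
      have : √x ≤ 1 := Real.sqrt_le_one.2 hx.2.le
      exact mul_nonneg (Real.rpow_nonneg (by linarith) _)
        (tsum_nonneg fun n => mul_nonneg (hb n).le (pow_nonneg hx.1.le n))
    · filter_upwards [tx_ev] with x hx
      have : √x ≤ 1 := Real.sqrt_le_one.2 hx.2.le
      refine mul_le_mul_of_nonneg_left ?_ (Real.rpow_nonneg (by linarith) _)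
      exact (tx_summ hb hs ⟨hx.1.le, hx.2⟩).tsum_le_tsum
        (fun n => mul_le_of_le_one_right (hb n).le (pow_le_one₀ hx.1.le hx.2.le)) hs
  have h3 : Tendsto (fun x : ℝ => (1 + √x) ^ (1 / (a - 1))) (𝓝[<] 1) (𝓝 (2 ^ (1 / (a - 1)))) := by
    have e3 : Tendsto (fun x : ℝ => 1 + √x) (𝓝[<] 1) (𝓝 (1 + 1)) :=
      tendsto_const_nhds.add (tx_sqrt.mono_right nhdsWithin_le_nhds)
    rw [show (1 : ℝ) + 1 = 2 by norm_num] at e3
    exact e3.rpow_const (Or.inl (by norm_num))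
  have h4 := (h1.sub h2).div h3 (Real.rpow_pos_of_pos (by norm_num) _).ne'
  rw [sub_zero] at h4
  refine h4.congr' ?_
  filter_upwards [tx_ev, tx_sqrt.eventually tx_ev] with x hx ht
  simp only [Function.comp, Pi.div_apply]
  rw [tx_abel hb hs ⟨hx.1.le, hx.2⟩, tx_S hb hs ⟨ht.1.le, ht.2⟩, Real.sq_sqrt hx.1.le]
  have hu : 0 < 1 - √x := by linarith [ht.2]
  have hv : 0 < 1 + √x := by linarith [ht.1]
  have e5 : (1 - x) = (1 - √x) * (1 + √x) := by
    have := Real.sq_sqrt hx.1.le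
    nlinarith
  rw [e5, Real.mul_rpow hu.le hv.le, ← div_div]
  congr 1
  rw [Real.rpow_sub hu, Real.rpow_one]
  field_simp
  ring

theorem tx_pow_ratio (k : ℕ) :
    Tendsto (fun x : ℝ => (1 - x ^ (k + 1)) / (1 - x)) (𝓝[<] 1) (𝓝 ((k : ℝ) + 1)) := by
  have h : Tendsto (fun x : ℝ => ∑ i ∈ range (k + 1), x ^ i) (𝓝 1)
      (𝓝 (∑ i ∈ range (k + 1), (1 : ℝ) ^ i)) :=
    tendsto_finsetSum _ fun i _ => (continuous_pow i).tendsto 1
  simp only [one_pow, Finset.sum_const, Finset.card_range, nsmul_eq_mul, mul_one,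
    Nat.cast_add, Nat.cast_one] at h
  refine (h.mono_left nhdsWithin_le_nhds).congr' ?_
  filter_upwards [tx_ev] with x hx
  rw [geom_sum_eq hx.2.ne, ← neg_div_neg_eq]
  ring_nf

theorem tx_exp_lim : Tendsto (fun N : ℕ => (1 - Real.exp (-(1 / (N : ℝ)))) * N) atTop (𝓝 1) := by
  have h1 : Tendsto (fun x : ℝ => (Real.exp x - 1) / x) (𝓝[≠] 0) (𝓝 1) := by
    have := (Real.hasDerivAt_exp 0).tendsto_slope
    rw [Real.exp_zero] at this
    refine this.congr' (Eventually.of_forall fun x => ?_)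
    simp only [slope_def_field, Real.exp_zero, sub_zero]
  have h2 : Tendsto (fun N : ℕ => -(1 / (N : ℝ))) atTop (𝓝[≠] 0) := by
    refine tendsto_nhdsWithin_iff.2 ⟨?_, ?_⟩
    · have := (tendsto_one_div_atTop_nhds_zero_nat (𝕜 := ℝ)).neg
      rwa [neg_zero] at this
    · filter_upwards [eventually_gt_atTop 0] with N hN
      have : (0 : ℝ) < 1 / (N : ℝ) := by positivity
      exact (neg_lt_zero.2 this).ne
  refine (h1.comp h2).congr' ?_
  filter_upwards [eventually_gt_atTop 0] with N hN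
  have hN' : (N : ℝ) ≠ 0 := by positivity
  simp only [Function.comp]
  field_simp
  ring

theorem tx_seq : Tendsto (fun N : ℕ => Real.exp (-(1 / (N : ℝ)))) atTop (𝓝[<] 1) := by
  refine tendsto_nhdsWithin_iff.2 ⟨?_, ?_⟩
  · have h1 : Tendsto (fun N : ℕ => (1 : ℝ) / (N : ℝ)) atTop (𝓝 0) :=
      tendsto_one_div_atTop_nhds_zero_nat
    have h2 := (Real.continuous_exp.tendsto (-0)).comp h1.neg
    rw [neg_zero, Real.exp_zero] at h2
    exact h2
  · filter_upwards [eventually_gt_atTop 0] with N hN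
    have : (0 : ℝ) < 1 / (N : ℝ) := by positivity
    have h2 : Real.exp (-(1 / (N : ℝ))) < Real.exp 0 := Real.exp_lt_exp.2 (by linarith)
    rwa [Real.exp_zero] at h2

theorem tx_floor {ρ D : ℝ} (hD : 0 < D) {s : ℝ} (hs : 0 < s) :
    Tendsto (fun n : ℕ => (D * ((⌊s * (n : ℝ)⌋₊ : ℕ) : ℝ) ^ ρ) / (D * (n : ℝ) ^ ρ)) atTop
      (𝓝 (s ^ ρ)) := by
  have h1 : Tendsto (fun n : ℕ => ((⌊s * (n : ℝ)⌋₊ : ℕ) : ℝ) / n) atTop (𝓝 s) :=
    (tendsto_nat_floor_mul_div_atTop hs.le).comp tendsto_natCast_atTop_atTop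
  refine (h1.rpow_const (p := ρ) (Or.inl hs.ne')).congr' ?_
  filter_upwards [eventually_gt_atTop 0] with n hn
  rw [Real.div_rpow (by positivity) (by positivity), mul_div_mul_left _ _ hD.ne']

theorem taub_x {b : ℕ → ℝ} {a κ : ℝ} (ha : 2 < a) (ha3 : a < 3) (hb : ∀ n, 0 < b n) (hanti : Antitone b)
    (hs : Summable b) (hκ : 0 < κ)
    (h : Tendsto (fun t : ℝ => (1 - t) / (∑' n, b n * (1 - t ^ (2 * n + 1))) ^ (a - 1)) (𝓝[<] 1) (𝓝 κ)) :
    ∃ κ' > (0 : ℝ), Tendsto (fun n : ℕ => b n * (n : ℝ) ^ (a / (a - 1))) atTop (𝓝 κ') := by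
  have hp0 : 0 < 1 / (a - 1) := one_div_pos.2 (by linarith)
  have hp1 : 1 / (a - 1) < 1 := by rw [div_lt_one (by linarith)]; linarith
  have hF := tx_F_lim ha hb hs hκ h
  have hpa : a / (a - 1) = 1 + 1 / (a - 1) := by
    have : a - 1 ≠ 0 := by linarith
    field_simp
    ring
  rw [hpa]
  generalize hp : 1 / (a - 1) = p at *
  set C : ℝ := (κ ^ p)⁻¹ / 2 ^ p with hC
  have hC0 : 0 < C := div_pos (inv_pos.2 (Real.rpow_pos_of_pos hκ _))
    (Real.rpow_pos_of_pos (by norm_num) _)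
  set T : ℕ → ℝ := fun j => ∑' k, b (k + (j + 1)) with hT
  set g : ℝ → ℝ := fun x => C * (1 - x) ^ (-(1 - p)) with hg
  have hr : 0 < 1 - p := by linarith
  have hgpos : ∀ᶠ x in 𝓝[<] (1 : ℝ), 0 < g x := by
    filter_upwards [tx_ev] with x hx
    exact mul_pos hC0 (Real.rpow_pos_of_pos (by linarith [hx.2]) _)
  have hk := karamata (T := T) (g := g) (r := 1 - p) hr (fun n => tx_tail_nonneg hb n)
    (fun x hx => tx_T_summ hb hs hx) hgpos ?_ ?_
  · -- the sums of `T`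
    have hG : 0 < Real.Gamma (1 - p + 1) := Real.Gamma_pos_of_pos (by linarith)
    set D : ℝ := C / Real.Gamma (1 - p + 1) with hD
    have hD0 : 0 < D := div_pos hC0 hG
    have hgN : Tendsto (fun N : ℕ => g (Real.exp (-(1 / (N : ℝ)))) / (D * (N : ℝ) ^ (1 - p))) atTop
        (𝓝 (Real.Gamma (1 - p + 1))) := by
      have e1 := (tx_exp_lim.rpow_const (p := -(1 - p)) (Or.inl one_ne_zero)).const_mul
        (Real.Gamma (1 - p + 1))
      rw [Real.one_rpow, mul_one] at e1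
      refine e1.congr' ?_
      filter_upwards [eventually_gt_atTop 0, tx_seq.eventually tx_ev] with N hN hx
      have hN' : (0 : ℝ) < N := by exact_mod_cast hN
      rw [Real.mul_rpow (by linarith [hx.2]) hN'.le, hg, hD, Real.rpow_neg hN'.le]
      have := (Real.rpow_pos_of_pos hN' (1 - p)).ne'
      field_simp
    have hsum : Tendsto (fun n : ℕ => (∑ k ∈ range (n + 1), T k) / (D * (n : ℝ) ^ (1 - p))) atTop
        (𝓝 1) := by
      have e1 := hk.mul hgN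
      rw [one_div, inv_mul_cancel₀ hG.ne'] at e1
      refine e1.congr' ?_
      filter_upwards [tx_seq.eventually hgpos] with N hN
      rw [div_mul_div_cancel₀ hN.ne']
    have hGpos : ∀ᶠ n : ℕ in atTop, 0 < D * (n : ℝ) ^ (1 - p) := by
      filter_upwards [eventually_gt_atTop 0] with n hn
      exact mul_pos hD0 (Real.rpow_pos_of_pos (by exact_mod_cast hn) _)
    have hTn := mono_density (T := T) (G := fun n => D * (n : ℝ) ^ (1 - p)) hr
      (tx_tail_anti hb hs) hGpos (fun s hs => tx_floor hD0 hs) hsum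
    -- the tails
    set E : ℝ := D * (1 - p) with hE
    have hE0 : 0 < E := mul_pos hD0 hr
    have hTn' : Tendsto (fun n : ℕ => (∑' k, b (k + (n + 1))) / (E * (n : ℝ) ^ (-p))) atTop
        (𝓝 1) := by
      have e1 := hTn.div_const (1 - p)
      rw [div_self hr.ne'] at e1
      refine e1.congr' ?_
      filter_upwards [eventually_gt_atTop 0] with n hn
      have hn' : (0 : ℝ) < n := by exact_mod_cast hn
      have hpe : (n : ℝ) ^ (1 - p) = n * (n : ℝ) ^ (-p) := by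
        rw [sub_eq_add_neg, Real.rpow_add hn', Real.rpow_one]
      simp only [hT, hE]
      rw [hpe]
      have := (Real.rpow_pos_of_pos hn' (-p)).ne'
      field_simp
    have hGpos' : ∀ᶠ n : ℕ in atTop, 0 < E * (n : ℝ) ^ (-p) := by
      filter_upwards [eventually_gt_atTop 0] with n hn
      exact mul_pos hE0 (Real.rpow_pos_of_pos (by exact_mod_cast hn) _)
    have hbn := tail_density (b := b) (G := fun n => E * (n : ℝ) ^ (-p)) hp0 hanti hs hGpos'
      (fun s hs => tx_floor hE0 hs) hTn'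
    refine ⟨E * p, mul_pos hE0 hp0, ?_⟩
    have e1 := hbn.const_mul E
    refine e1.congr' ?_
    filter_upwards [eventually_gt_atTop 0] with n hn
    have hn' : (0 : ℝ) < n := by exact_mod_cast hn
    have hpe : (n : ℝ) ^ (1 + p) = n * (n : ℝ) ^ p := by
      rw [Real.rpow_add hn', Real.rpow_one]
    rw [hpe, Real.rpow_neg hn'.le]
    have := (Real.rpow_pos_of_pos hn' p).ne'
    field_simp
  · -- the asymptotics of the generating function of `T`
    have e1 := hF.div_const C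
    rw [div_self hC0.ne'] at e1
    refine e1.congr' ?_
    filter_upwards [tx_ev] with x hx
    have hx1 : 0 < 1 - x := by linarith [hx.2]
    have hpe : (1 - x) ^ (-(1 - p)) = (1 - x) ^ p / (1 - x) := by
      rw [neg_sub, Real.rpow_sub hx1, Real.rpow_one]
    simp only [hg, hT]
    rw [hpe]
    have := (Real.rpow_pos_of_pos hx1 p).ne'
    have := hx1.ne'
    field_simp
  · intro k
    have e1 := (tx_pow_ratio k).rpow_const (p := -(1 - p)) (Or.inl (by positivity))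
    refine e1.congr' ?_
    filter_upwards [tx_ev] with x hx
    have hx1 : 0 < 1 - x := by linarith [hx.2]
    have hx2 : 0 < 1 - x ^ (k + 1) := sub_pos.2 (pow_lt_one₀ hx.1.le hx.2 (by omega))
    rw [Real.div_rpow hx2.le hx1.le]
    simp only [hg]
    rw [mul_div_mul_left _ _ hC0.ne']

end Pool.Agent.RDL
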