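import Pool.Agent.RDL.Glue
import Pool.Agent.RDL.CentRD
import Pool.Agent.RDL.CentEx
import Pool.Agent.RDL.CentFree
import Pool.Agent.RDL.Norm
import Pool.Agent.RDL.SVa
import Pool.Agent.RDL.SVb
import Pool.Agent.RDL.Exp2
import Pool.Agent.RDL.CritW
import Pool.Agent.RDL.Crit
import Pool.Agent.RDL.Taub

/-!
# The transfer to the critical free product with the integers
-/

set_option autoImplicit false

namespace Pool.Agent.RDL

open Finset Filter Topology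

/-- **the transfer to the critical free product with the integers** -/
theorem transfer {H : Type} [Group H] {ν : H →₀ ℝ} {z : ℝ} {ℓ : ℕ → ℝ} (hν : SP ν) (hp : Par ν) (hℓ : SV ℓ)
    (h : Asy ν z (fun n => 1 / ((n : ℝ) ^ 3 * ℓ n))) :
    ∃ (μ : Fr H →₀ ℝ) (z' : ℝ), SP μ ∧ Par μ ∧ Asy μ z' (fun n => 1 / ((n : ℝ) * Real.sqrt (n * mm ℓ n))) := by
  obtain ⟨hR, c, C, hc, hasy⟩ := h
  obtain ⟨R, hRd⟩ : ∃ R, R = z := ⟨_, rfl⟩
  rw [← hRd] at hR hasy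
  obtain ⟨u, hu⟩ : ∃ u : ℕ → ℝ, u = fun n => rt ν (2 * n) := ⟨_, rfl⟩
  have hupos : ∀ n, 0 < u n := by
    intro n
    rw [hu]
    exact rt_pos hν n
  obtain ⟨s1, s2, hcont, hApos, hAlt, c', hc', C', δ₀, hδ₀, hexp⟩ := exp2 (u := u) hR hupos hℓ hc (by
    intro n hn
    rw [hu]
    exact hasy n hn)
  obtain ⟨α, hα⟩ := exists_crit (u := u) hR (by rw [hu]; exact rt_zero ν) hupos (by
    intro m n
    rw [hu]
    show rt ν (2 * m) * rt ν (2 * n) ≤ rt ν (2 * (m + n))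
    rw [mul_add]
    exact rt_mul_le hν _ _) s2
  have hADpos : 0 < AD u R := by
    unfold AD
    refine s2.tsum_pos (fun n => ?_) 0 ?_
    · have := hupos n
      positivity
    · have := hupos 0
      positivity
  obtain ⟨hzpos, hzcont, c₂, hc₂, C₂, δ₁, hδ₁, hcrit⟩ := crit_exp hR hℓ hα hcont hApos hAlt hc' hδ₀ hADpos hexp
  obtain ⟨μ, b, t₀, hμsp, hμp, hb, hbpos, hbanti, hbsum, ht₀, hglue⟩ := glue hν hp hu hR hα s1 hcont hApos hAlt hzpos
    hzcont hδ₁ (fun ξ hξ => (hcrit ξ hξ).1)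
  obtain ⟨zc, hzc⟩ : ∃ zc, zc = zz u α R := ⟨_, rfl⟩
  have hzc0 : 0 < zc := by rw [hzc]; exact hzpos R ⟨hR, le_rfl⟩
  rw [← hzc] at hb hglue
  obtain ⟨c₁, C₁, hc₁, htb⟩ := taub (b := b) hℓ hbpos hbanti hbsum (c := c₂ / zc) (C := C₂ / zc) (t₀ := t₀)
    (div_pos hc₂ hzc0) ht₀ (by
      intro t ht
      obtain ⟨ξ, hξI, hy, hx⟩ := hglue t ht
      obtain ⟨m1, m2, m3, m4, m5⟩ := hcrit ξ hξI
      rw [← hzc] at m4 m5
      rw [hy]
      refine ⟨m2, m3, ?_, ?_⟩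
      · rw [hx, le_div_iff₀ hzc0]
        refine le_trans (le_of_eq ?_) m4
        field_simp
      · rw [hx, div_le_iff₀ hzc0]
        refine m5.trans (le_of_eq ?_)
        field_simp)
  refine ⟨μ, zc, hμsp, hμp, hzc0, c₁ / zc, C₁ / zc, div_pos hc₁ hzc0, fun n hn => ?_⟩
  obtain ⟨r1, r2⟩ := htb n hn
  rw [hb] at r1 r2
  constructor
  · rw [div_mul_eq_mul_div, div_le_iff₀ hzc0]
    refine r1.trans (le_of_eq ?_)
    ring
  · rw [div_mul_eq_mul_div, le_div_iff₀ hzc0]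
    refine le_trans (le_of_eq ?_) r2
    ring

end Pool.Agent.RDL
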