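import Pool.Agent.RDL.Corr
import Pool.Agent.RDL.AbelL
import Pool.Agent.RDL.CritL
import Pool.Agent.RDL.TaubLa
import Pool.Agent.RDL.TaubLb

/-!
# The transfer to the critical free product with the integers: exact asymptotics, exponent `3`
-/

set_option autoImplicit false

namespace Pool.Agent.RDL

open Finset Filter Topology

/-- exact asymptotics of the even return probabilities, `φ` is the reciprocal of the correction -/
def Asf {G : Type} [Group G] (ν : G →₀ ℝ) (z κ : ℝ) (φ : ℕ → ℝ) : Prop :=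
  0 < z ∧ 0 < κ ∧ Tendsto (fun n : ℕ => rt ν (2 * n) * z ^ (2 * n) * φ n) atTop (𝓝 κ)

theorem asf_asy {G : Type} [Group G] {ν : G →₀ ℝ} (hν : SP ν) {z κ : ℝ} {φ : ℕ → ℝ} (hφ : ∀ n, 1 ≤ n → 0 < φ n)
    (h : Asf ν z κ φ) : Asy ν z (fun n => 1 / φ n) := by
  obtain ⟨hz, hκ, hl⟩ := h
  have h1 : ∀ᶠ n : ℕ in atTop, κ / 2 < rt ν (2 * n) * z ^ (2 * n) * φ n :=
    hl.eventually_const_lt (by linarith)
  have h2 : ∀ᶠ n : ℕ in atTop, rt ν (2 * n) * z ^ (2 * n) * φ n < 2 * κ :=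
    hl.eventually_lt_const (by linarith)
  obtain ⟨N, hN⟩ := eventually_atTop.1 (h1.and h2)
  obtain ⟨v, hv⟩ : ∃ v : ℕ → ℝ, v = fun n => rt ν (2 * n) * z ^ (2 * n) * φ n := ⟨_, rfl⟩
  have hvpos : ∀ n, 1 ≤ n → 0 < v n := by
    intro n hn
    rw [hv]
    exact mul_pos (mul_pos (rt_pos hν n) (by positivity)) (hφ n hn)
  -- the bounds for small `n`
  have hlow : ∀ N : ℕ, ∃ c > (0 : ℝ), ∀ n, 1 ≤ n → n ≤ N → c ≤ v n := by
    intro N
    induction N with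
    | zero => exact ⟨1, one_pos, fun n hn hn' => by omega⟩
    | succ N ih =>
      obtain ⟨c, hc, hcb⟩ := ih
      refine ⟨min c (v (N + 1)), lt_min hc (hvpos _ (by omega)), fun n hn hn' => ?_⟩
      rcases Nat.lt_or_ge N n with h3 | h3
      · have : n = N + 1 := by omega
        rw [this]
        exact min_le_right _ _
      · exact (min_le_left _ _).trans (hcb n hn h3)
  have hup : ∀ N : ℕ, ∃ C : ℝ, ∀ n, n ≤ N → v n ≤ C := by
    intro N
    induction N with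
    | zero => exact ⟨v 0, fun n hn => by
        have : n = 0 := by omega
        rw [this]⟩
    | succ N ih =>
      obtain ⟨C, hC⟩ := ih
      refine ⟨max C (v (N + 1)), fun n hn => ?_⟩
      rcases Nat.lt_or_ge N n with h3 | h3
      · have : n = N + 1 := by omega
        rw [this]
        exact le_max_right _ _
      · exact (hC n h3).trans (le_max_left _ _)
  obtain ⟨c, hc, hcb⟩ := hlow N
  obtain ⟨C, hCb⟩ := hup N
  refine ⟨hz, min c (κ / 2), max C (2 * κ), lt_min hc (by linarith), fun n hn => ?_⟩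
  have hφn := hφ n hn
  have e : rt ν (2 * n) * z ^ (2 * n) = v n / φ n := by
    rw [hv]
    field_simp
  beta_reduce
  rw [e, mul_one_div, mul_one_div]
  rcases Nat.lt_or_ge n N with h3 | h3
  · exact ⟨div_le_div_of_nonneg_right ((min_le_left _ _).trans (hcb n hn h3.le)) hφn.le,
      div_le_div_of_nonneg_right ((hCb n h3.le).trans (le_max_left _ _)) hφn.le⟩
  · obtain ⟨a1, a2⟩ := hN n h3
    have a1' : κ / 2 < v n := by rw [hv]; exact a1
    have a2' : v n < 2 * κ := by rw [hv]; exact a2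
    exact ⟨div_le_div_of_nonneg_right ((min_le_right _ _).trans a1'.le) hφn.le,
      div_le_div_of_nonneg_right (a2'.le.trans (le_max_right _ _)) hφn.le⟩

theorem mm_le_log {ℓ : ℕ → ℝ} (h0 : ∀ n, 1 ≤ n → 0 < ℓ n) (hm : ∀ m n, 1 ≤ m → m ≤ n → ℓ m ≤ ℓ n) :
    ∀ n : ℕ, 1 ≤ n → mm ℓ n ≤ 1 / ℓ 1 * (1 + Real.log n) := by
  intro n _
  have h1 := h0 1 le_rfl
  have h2 : mm ℓ n ≤ mm (fun k => ℓ 1 * (fun _ => (1 : ℝ)) k) n :=
    mm_le_mm (fun k _ => by simpa using h1) (fun k hk => by simpa using hm 1 k le_rfl hk) n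
  rw [mm_const_mul] at h2
  refine h2.trans (mul_le_mul_of_nonneg_left (mm_one_le n) (by positivity))

/-- **the transfer to the critical free product with the integers**, exact asymptotics, exponent `3` -/
theorem transfer_L {H : Type} [Group H] {ν : H →₀ ℝ} {z κ σ τ : ℝ} {ℓ : ℕ → ℝ} (hν : SP ν) (hp : Par ν) (hℓ : SV ℓ)
    (hv : LVar ℓ σ) (hw : LVar (mm ℓ) τ) (h : Asf ν z κ (fun n => (n : ℝ) ^ 3 * ℓ n)) :
    ∃ (μ : Fr H →₀ ℝ) (z' κ' : ℝ), SP μ ∧ Par μ ∧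
      Asf μ z' κ' (fun n => (n : ℝ) ^ (3 / 2 : ℝ) * (mm ℓ n) ^ (1 / 2 : ℝ)) := by
  obtain ⟨hR, c, C, hc, hasy⟩ := asf_asy hν (fun n hn => by
    have h1 : (0 : ℝ) < n := by exact_mod_cast hn
    exact mul_pos (by positivity) (hℓ.pos n hn)) h
  obtain ⟨-, hκ, hlim⟩ := h
  obtain ⟨R, hRd⟩ : ∃ R, R = z := ⟨_, rfl⟩
  rw [← hRd] at hR hasy hlim
  obtain ⟨u, hu⟩ : ∃ u : ℕ → ℝ, u = fun n => rt ν (2 * n) := ⟨_, rfl⟩
  have hupos : ∀ n, 0 < u n := by
    intro n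
    rw [hu]
    exact rt_pos hν n
  obtain ⟨s1, s2, hcont, hApos, hAlt, c', hc', C', δ₀, hδ₀, hexp⟩ := exp2 (u := u) hR hupos hℓ hc (by
    intro n hn
    rw [hu]
    exact hasy n hn)
  obtain ⟨α, hα⟩ := exists_crit (u := u) hR (by rw [hu]; exact rt_zero ν) hupos (by
    intro m n
    rw [hu]
    show rt ν (2 * m) * rt ν (2 * n) ≤ rt ν (2 * (m + n))
    rw [mul_add]
    exact rt_mul_le hν _ _) s2
  have hADpos : 0 < AD u R := by
    unfold AD
    refine s2.tsum_pos (fun n => ?_) 0 ?_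
    · have := hupos n
      positivity
    · have := hupos 0
      positivity
  obtain ⟨hzpos, hzcont, c₂, hc₂, C₂, δ₁, hδ₁, hcrit⟩ := crit_exp hR hℓ hα hcont hApos hAlt hc' hδ₀ hADpos hexp
  obtain ⟨μ, b, t₀, hμsp, hμp, hb, hbpos, hbanti, hbsum, ht₀, hglue⟩ := glue hν hp hu hR hα s1 hcont hApos hAlt hzpos
    hzcont hδ₁ (fun ξ hξ => (hcrit ξ hξ).1)
  obtain ⟨κ₁, hκ₁, hl₁⟩ := abel_L (u := u) hR hv hw hℓ.unb hκ (by
    rw [hu]
    exact hlim)
  obtain ⟨κ₂, hκ₂, hl₂⟩ := crit_L hR hw hℓ.unb hℓ hα hcont hApos hAlt hADpos hκ₁ hl₁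
  obtain ⟨zc, hzc⟩ : ∃ zc, zc = zz u α R := ⟨_, rfl⟩
  have hzc0 : 0 < zc := by rw [hzc]; exact hzpos R ⟨hR, le_rfl⟩
  rw [← hzc] at hb hglue hl₂
  have hδR : δ₁ < R := lt_of_lt_of_le hδ₁.2 (min_le_right _ _)
  -- the point `ξ`
  obtain ⟨x, hx⟩ : ∃ x : ℝ → ℝ, ∀ t ∈ Set.Ico t₀ 1, x t ∈ Set.Ico (R - δ₁) R ∧
      ∑' n, b n * (1 - t ^ (2 * n + 1)) = AA u R / α - AA u (x t) / α ∧ 1 - t = (zc - zz u α (x t)) / zc := by
    classical
    refine ⟨fun t => if ht : t ∈ Set.Ico t₀ 1 then (hglue t ht).choose else 0, fun t ht => ?_⟩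
    beta_reduce
    rw [dif_pos ht]
    exact (hglue t ht).choose_spec
  have hev : ∀ᶠ t in 𝓝[<] (1 : ℝ), t ∈ Set.Ico t₀ 1 := by
    have : Set.Ioo t₀ 1 ∈ 𝓝[<] (1 : ℝ) := Ioo_mem_nhdsLT ht₀.2
    filter_upwards [this] with t ht
    exact ⟨ht.1.le, ht.2⟩
  have hxR : Tendsto x (𝓝[<] 1) (𝓝[<] R) := by
    refine tendsto_nhdsWithin_iff.2 ⟨?_, ?_⟩
    · refine tendsto_order.2 ⟨fun y hy => ?_, fun y hy => ?_⟩
      · obtain ⟨m, hm⟩ : ∃ m, m = max y (R - δ₁) := ⟨_, rfl⟩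
        have hmR : m < R := by
          rw [hm]
          exact max_lt hy (by linarith [hδ₁.1])
        have hsub : Set.Icc (R - δ₁) m ⊆ Set.Ioc 0 R := fun ξ hξ => ⟨by linarith [hξ.1], by linarith [hξ.2]⟩
        obtain ⟨ξ₀, hξ₀, hmax⟩ := isCompact_Icc.exists_isMaxOn (s := Set.Icc (R - δ₁) m)
          ⟨R - δ₁, le_rfl, by rw [hm]; exact le_max_right _ _⟩ (hzcont.mono hsub)
        have hlt₀ : zz u α ξ₀ < zc := by
          rw [hzc]
          exact (hcrit ξ₀ ⟨hξ₀.1, lt_of_le_of_lt hξ₀.2 hmR⟩).1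
        have h1 : ∀ᶠ t in 𝓝[<] (1 : ℝ), 1 - t < (zc - zz u α ξ₀) / zc := by
          have h2 : Tendsto (fun t : ℝ => 1 - t) (𝓝[<] 1) (𝓝 (1 - 1)) :=
            (tendsto_const_nhds.sub tendsto_id).mono_left nhdsWithin_le_nhds
          rw [sub_self] at h2
          exact h2.eventually_lt_const (div_pos (by linarith) hzc0)
        filter_upwards [h1, hev] with t ht1 ht2
        obtain ⟨g1, g2, g3⟩ := hx t ht2
        rw [g3, div_lt_div_iff_of_pos_right hzc0] at ht1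
        by_contra hcon
        push Not at hcon
        have h3 : x t ∈ Set.Icc (R - δ₁) m := ⟨g1.1, hcon.trans (by rw [hm]; exact le_max_left _ _)⟩
        have h4 : zz u α (x t) ≤ zz u α ξ₀ := hmax h3
        linarith
      · filter_upwards [hev] with t ht
        exact lt_trans (hx t ht).1.2 hy
    · filter_upwards [hev] with t ht
      exact (hx t ht).1.2
  have hl₃ : Tendsto (fun t : ℝ => (1 - t) / ((∑' n, b n * (1 - t ^ (2 * n + 1))) ^ 2 *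
      mm ℓ ⌊1 / ∑' n, b n * (1 - t ^ (2 * n + 1))⌋₊)) (𝓝[<] 1) (𝓝 (κ₂ / zc)) := by
    have h1 := (hl₂.comp hxR).div_const zc
    refine h1.congr' ?_
    filter_upwards [hev] with t ht
    obtain ⟨g1, g2, g3⟩ := hx t ht
    rw [g2]
    show (zc - zz u α (x t)) / ((AA u R / α - AA u (x t) / α) ^ 2 *
      mm ℓ ⌊1 / (AA u R / α - AA u (x t) / α)⌋₊) / zc = _
    rw [g3, div_right_comm]
  obtain ⟨κ₃, hκ₃, hl₄⟩ := taub_La (b := b) hw (mm_le_log hℓ.pos hℓ.mono) hbpos hbsum (div_pos hκ₂ hzc0) hl₃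
  obtain ⟨κ₄, hκ₄, hl₅⟩ := taub_Lb (b := b) hw hbpos hbanti hbsum hκ₃ hl₄
  refine ⟨μ, zc, κ₄ / zc, hμsp, hμp, hzc0, div_pos hκ₄ hzc0, ?_⟩
  refine (hl₅.div_const zc).congr fun n => ?_
  rw [hb]
  field_simp

end Pool.Agent.RDL
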