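import Pool.Agent.RDL.TransferP
import Pool.Agent.RDL.AbelA
import Pool.Agent.RDL.CritX
import Pool.Agent.RDL.TaubX
import Pool.Agent.RDL.Asx

/-!
# The transfer to the critical free product with the integers: exact asymptotics
-/

set_option autoImplicit false

namespace Pool.Agent.RDL

open Finset Filter Topology

/-- **the transfer to the critical free product with the integers**, exact asymptotics, exponents between `2` and `3` -/
theorem transfer_x {H : Type} [Group H] {ν : H →₀ ℝ} {z κ a : ℝ} (hν : SP ν) (hp : Par ν) (ha : 2 < a) (ha3 : a < 3)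
    (h : Asx ν z κ a) : ∃ (μ : Fr H →₀ ℝ) (z' κ' : ℝ), SP μ ∧ Par μ ∧ Asx μ z' κ' (a / (a - 1)) := by
  obtain ⟨hR, c, C, hc, hasy⟩ := asx_asy hν h
  obtain ⟨-, hκ, hlim⟩ := h
  obtain ⟨R, hRd⟩ : ∃ R, R = z := ⟨_, rfl⟩
  rw [← hRd] at hR hasy hlim
  obtain ⟨u, hu⟩ : ∃ u : ℕ → ℝ, u = fun n => rt ν (2 * n) := ⟨_, rfl⟩
  have hupos : ∀ n, 0 < u n := by
    intro n
    rw [hu]
    exact rt_pos hν n
  obtain ⟨s1, s2, hcont, hApos, hAlt, c', hc', C', δ₀, hδ₀, hexp⟩ := exp2p (u := u) hR hupos ha ha3 hc (by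
    intro n hn
    rw [hu]
    exact hasy n hn)
  obtain ⟨α, hα⟩ := exists_crit (u := u) hR (by rw [hu]; exact rt_zero ν) hupos (by
    intro m n
    rw [hu]
    show rt ν (2 * m) * rt ν (2 * n) ≤ rt ν (2 * (m + n))
    rw [mul_add]
    exact rt_mul_le hν _ _) s2
  have hADpos : 0 < AD u R := by
    unfold AD
    refine s2.tsum_pos (fun n => ?_) 0 ?_
    · have := hupos n
      positivity
    · have := hupos 0
      positivity
  obtain ⟨hzpos, hzcont, c₂, hc₂, C₂, δ₁, hδ₁, hcrit⟩ := crit_expp hR ha ha3 hα hcont hApos hAlt hc' hδ₀ hADpos hexp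
  obtain ⟨μ, b, t₀, hμsp, hμp, hb, hbpos, hbanti, hbsum, ht₀, hglue⟩ := glue hν hp hu hR hα s1 hcont hApos hAlt hzpos
    hzcont hδ₁ (fun ξ hξ => (hcrit ξ hξ).1)
  obtain ⟨κ₁, hκ₁, hl₁⟩ := abel_AA (u := u) hR ha ha3 hκ (by
    rw [hu]
    exact hlim)
  obtain ⟨κ₂, hκ₂, hl₂⟩ := crit_x hR ha ha3 hα hcont hApos hAlt hADpos hκ₁ hl₁
  obtain ⟨zc, hzc⟩ : ∃ zc, zc = zz u α R := ⟨_, rfl⟩
  have hzc0 : 0 < zc := by rw [hzc]; exact hzpos R ⟨hR, le_rfl⟩
  rw [← hzc] at hb hglue hl₂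
  have hδR : δ₁ < R := lt_of_lt_of_le hδ₁.2 (min_le_right _ _)
  -- the point `ξ`
  obtain ⟨x, hx⟩ : ∃ x : ℝ → ℝ, ∀ t ∈ Set.Ico t₀ 1, x t ∈ Set.Ico (R - δ₁) R ∧
      ∑' n, b n * (1 - t ^ (2 * n + 1)) = AA u R / α - AA u (x t) / α ∧ 1 - t = (zc - zz u α (x t)) / zc := by
    classical
    refine ⟨fun t => if ht : t ∈ Set.Ico t₀ 1 then (hglue t ht).choose else 0, fun t ht => ?_⟩
    beta_reduce
    rw [dif_pos ht]
    exact (hglue t ht).choose_spec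
  have hev : ∀ᶠ t in 𝓝[<] (1 : ℝ), t ∈ Set.Ico t₀ 1 := by
    have : Set.Ioo t₀ 1 ∈ 𝓝[<] (1 : ℝ) := Ioo_mem_nhdsLT ht₀.2
    filter_upwards [this] with t ht
    exact ⟨ht.1.le, ht.2⟩
  have hxR : Tendsto x (𝓝[<] 1) (𝓝[<] R) := by
    refine tendsto_nhdsWithin_iff.2 ⟨?_, ?_⟩
    · refine tendsto_order.2 ⟨fun y hy => ?_, fun y hy => ?_⟩
      · obtain ⟨m, hm⟩ : ∃ m, m = max y (R - δ₁) := ⟨_, rfl⟩
        have hmR : m < R := by
          rw [hm]
          exact max_lt hy (by linarith [hδ₁.1])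
        have hsub : Set.Icc (R - δ₁) m ⊆ Set.Ioc 0 R := fun ξ hξ => ⟨by linarith [hξ.1], by linarith [hξ.2]⟩
        obtain ⟨ξ₀, hξ₀, hmax⟩ := isCompact_Icc.exists_isMaxOn (s := Set.Icc (R - δ₁) m)
          ⟨R - δ₁, le_rfl, by rw [hm]; exact le_max_right _ _⟩ (hzcont.mono hsub)
        have hlt₀ : zz u α ξ₀ < zc := by
          rw [hzc]
          exact (hcrit ξ₀ ⟨hξ₀.1, lt_of_le_of_lt hξ₀.2 hmR⟩).1
        have h1 : ∀ᶠ t in 𝓝[<] (1 : ℝ), 1 - t < (zc - zz u α ξ₀) / zc := by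
          have h2 : Tendsto (fun t : ℝ => 1 - t) (𝓝[<] 1) (𝓝 (1 - 1)) :=
            (tendsto_const_nhds.sub tendsto_id).mono_left nhdsWithin_le_nhds
          rw [sub_self] at h2
          exact h2.eventually_lt_const (div_pos (by linarith) hzc0)
        filter_upwards [h1, hev] with t ht1 ht2
        obtain ⟨g1, g2, g3⟩ := hx t ht2
        rw [g3, div_lt_div_iff_of_pos_right hzc0] at ht1
        by_contra hcon
        push Not at hcon
        have h3 : x t ∈ Set.Icc (R - δ₁) m := ⟨g1.1, hcon.trans (by rw [hm]; exact le_max_left _ _)⟩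
        have h4 : zz u α (x t) ≤ zz u α ξ₀ := hmax h3
        linarith
      · filter_upwards [hev] with t ht
        exact lt_trans (hx t ht).1.2 hy
    · filter_upwards [hev] with t ht
      exact (hx t ht).1.2
  have hl₃ : Tendsto (fun t : ℝ => (1 - t) / (∑' n, b n * (1 - t ^ (2 * n + 1))) ^ (a - 1)) (𝓝[<] 1)
      (𝓝 (κ₂ / zc)) := by
    have h1 := (hl₂.comp hxR).div_const zc
    refine h1.congr' ?_
    filter_upwards [hev] with t ht
    obtain ⟨g1, g2, g3⟩ := hx t ht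
    rw [g2]
    show (zc - zz u α (x t)) / (AA u R / α - AA u (x t) / α) ^ (a - 1) / zc = _
    rw [g3, div_right_comm]
  obtain ⟨κ₃, hκ₃, hl₄⟩ := taub_x (b := b) ha ha3 hbpos hbanti hbsum (div_pos hκ₂ hzc0) hl₃
  refine ⟨μ, zc, κ₃ / zc, hμsp, hμp, hzc0, div_pos hκ₃ hzc0, ?_⟩
  refine (hl₄.div_const zc).congr fun n => ?_
  rw [hb]
  field_simp

end Pool.Agent.RDL
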